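import Pool.Agent.H6.CM.Defs

/-! Algebra of the Coulomb energy. Note that the diagonal terms are `‖0‖⁻¹ = 0`. -/

open MeasureTheory Finset

namespace H6.CM

/-- a double sum with a vanishing diagonal: the part containing one index -/
private theorem dsum_split {ι : Type*} [Fintype ι] [DecidableEq ι] (f : ι → ι → ℝ) (a : ι)
    (hs : ∀ i j, f i j = f j i) (hd : f a a = 0) :
    ∑ i, ∑ j, f i j = (∑ i ∈ univ.erase a, ∑ j ∈ univ.erase a, f i j) +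
      2 * ∑ j ∈ univ.erase a, f a j := by
  have h1 : ∀ g : ι → ℝ, ∑ i, g i = g a + ∑ i ∈ univ.erase a, g i := fun g =>
    (add_sum_erase univ g (mem_univ a)).symm
  rw [h1 (fun i => ∑ j, f i j), h1 (f a), hd]
  have h2 : ∑ i ∈ univ.erase a, ∑ j, f i j =
      ∑ i ∈ univ.erase a, (f a i + ∑ j ∈ univ.erase a, f i j) :=
    sum_congr rfl fun i _ => by rw [h1 (f i), hs i a]
  rw [h2, sum_add_distrib]
  ring

theorem phi_phiE {n k : ℕ} (z : Fin k → ℝ) (p : Cfg n k) (a : Fin n) (v : E3) :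
    phi z p v = phiE z a p v - ‖v - p.1 a‖⁻¹ := by
  unfold phi phiE
  rw [← add_sum_erase univ (fun b => ‖v - p.1 b‖⁻¹) (mem_univ a)]
  ring

theorem phi_phiN {n k : ℕ} (z : Fin k → ℝ) (p : Cfg n k) (j : Fin k) (v : E3) :
    phi z p v = phiN z j p v + z j * ‖v - p.2 j‖⁻¹ := by
  unfold phi phiN
  rw [← add_sum_erase univ (fun l => z l * ‖v - p.2 l‖⁻¹) (mem_univ j)]
  ring

/-- the energy of the configuration without electron `a` -/
private theorem V_E {n k : ℕ} (z : Fin k → ℝ) (p : Cfg n k) (a : Fin n) :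
    V z p = ((∑ b ∈ univ.erase a, ∑ c ∈ univ.erase a, ‖p.1 b - p.1 c‖⁻¹) / 2 -
      ∑ b ∈ univ.erase a, ∑ j, z j * ‖p.1 b - p.2 j‖⁻¹ +
      (∑ j, ∑ l, z j * z l * ‖p.2 j - p.2 l‖⁻¹) / 2) - phiE z a p (p.1 a) := by
  unfold V phiE
  rw [dsum_split (fun b c => ‖p.1 b - p.1 c‖⁻¹) a (fun b c => by rw [norm_sub_rev]) (by simp),
    ← add_sum_erase univ (fun b => ∑ j, z j * ‖p.1 b - p.2 j‖⁻¹) (mem_univ a)]
  ring

/-- the energy of the configuration without nucleus `j` -/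
private theorem V_N {n k : ℕ} (z : Fin k → ℝ) (p : Cfg n k) (j : Fin k) :
    V z p = ((∑ b, ∑ c, ‖p.1 b - p.1 c‖⁻¹) / 2 -
      ∑ b, ∑ l ∈ univ.erase j, z l * ‖p.1 b - p.2 l‖⁻¹ +
      (∑ i ∈ univ.erase j, ∑ l ∈ univ.erase j, z i * z l * ‖p.2 i - p.2 l‖⁻¹) / 2) +
      z j * phiN z j p (p.2 j) := by
  unfold V phiN
  rw [dsum_split (fun i l => z i * z l * ‖p.2 i - p.2 l‖⁻¹) j
    (fun b c => by rw [norm_sub_rev]; ring) (by simp)]
  have h1 : ∀ b : Fin n, ∑ l, z l * ‖p.1 b - p.2 l‖⁻¹ =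
      z j * ‖p.2 j - p.1 b‖⁻¹ + ∑ l ∈ univ.erase j, z l * ‖p.1 b - p.2 l‖⁻¹ := fun b => by
    rw [← add_sum_erase univ (fun l => z l * ‖p.1 b - p.2 l‖⁻¹) (mem_univ j), norm_sub_rev]
  rw [sum_congr rfl fun b _ => h1 b, sum_add_distrib, ← mul_sum]
  have h2 : ∑ l ∈ univ.erase j, z j * z l * ‖p.2 j - p.2 l‖⁻¹ =
      z j * ∑ l ∈ univ.erase j, z l * ‖p.2 j - p.2 l‖⁻¹ := by
    rw [mul_sum]
    exact sum_congr rfl fun l _ => by ring
  rw [h2]
  ring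

theorem phiE_upd {n k : ℕ} (z : Fin k → ℝ) (p : Cfg n k) (a : Fin n) (ξ v : E3) :
    phiE z a (Function.update p.1 a ξ, p.2) v = phiE z a p v := by
  unfold phiE
  congr 1
  refine sum_congr rfl fun b hb => ?_
  dsimp only
  rw [Function.update_of_ne (ne_of_mem_erase hb)]

theorem phiN_upd {n k : ℕ} (z : Fin k → ℝ) (p : Cfg n k) (j : Fin k) (ξ v : E3) :
    phiN z j (p.1, Function.update p.2 j ξ) v = phiN z j p v := by
  unfold phiN
  congr 1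
  refine sum_congr rfl fun b hb => ?_
  dsimp only
  rw [Function.update_of_ne (ne_of_mem_erase hb)]

theorem V_updE {n k : ℕ} (z : Fin k → ℝ) (p : Cfg n k) (a : Fin n) (v : E3) :
    V z (Function.update p.1 a v, p.2) = V z p + phiE z a p (p.1 a) - phiE z a p v := by
  rw [V_E z p a, V_E z (Function.update p.1 a v, p.2) a, phiE_upd]
  have h1 : ∑ b ∈ univ.erase a, ∑ c ∈ univ.erase a,
      ‖Function.update p.1 a v b - Function.update p.1 a v c‖⁻¹ =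
      ∑ b ∈ univ.erase a, ∑ c ∈ univ.erase a, ‖p.1 b - p.1 c‖⁻¹ :=
    sum_congr rfl fun b hb => sum_congr rfl fun c hc => by
      rw [Function.update_of_ne (ne_of_mem_erase hb), Function.update_of_ne (ne_of_mem_erase hc)]
  have h2 : ∑ b ∈ univ.erase a, ∑ j, z j * ‖Function.update p.1 a v b - p.2 j‖⁻¹ =
      ∑ b ∈ univ.erase a, ∑ j, z j * ‖p.1 b - p.2 j‖⁻¹ :=
    sum_congr rfl fun b hb => by rw [Function.update_of_ne (ne_of_mem_erase hb)]
  dsimp only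
  rw [h1, h2, Function.update_self]
  ring

theorem V_updN {n k : ℕ} (z : Fin k → ℝ) (p : Cfg n k) (j : Fin k) (v : E3) :
    V z (p.1, Function.update p.2 j v) =
      V z p - z j * phiN z j p (p.2 j) + z j * phiN z j p v := by
  rw [V_N z p j, V_N z (p.1, Function.update p.2 j v) j, phiN_upd]
  have h1 : ∑ b ∈ univ.erase j, ∑ c ∈ univ.erase j,
      z b * z c * ‖Function.update p.2 j v b - Function.update p.2 j v c‖⁻¹ =
      ∑ b ∈ univ.erase j, ∑ c ∈ univ.erase j, z b * z c * ‖p.2 b - p.2 c‖⁻¹ :=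
    sum_congr rfl fun b hb => sum_congr rfl fun c hc => by
      rw [Function.update_of_ne (ne_of_mem_erase hb), Function.update_of_ne (ne_of_mem_erase hc)]
  have h2 : ∑ b : Fin n, ∑ l ∈ univ.erase j, z l * ‖p.1 b - Function.update p.2 j v l‖⁻¹ =
      ∑ b : Fin n, ∑ l ∈ univ.erase j, z l * ‖p.1 b - p.2 l‖⁻¹ :=
    sum_congr rfl fun b _ => sum_congr rfl fun l hl => by
      rw [Function.update_of_ne (ne_of_mem_erase hl)]
  dsimp only
  rw [h1, h2, Function.update_self]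
  ring

theorem sum_rule {n k : ℕ} (z : Fin k → ℝ) (p : Cfg n k) :
    ∑ j, z j * phiN z j p (p.2 j) - ∑ a, phiE z a p (p.1 a) = 2 * V z p := by
  have h1 : ∀ a : Fin n, phiE z a p (p.1 a) =
      ∑ j, z j * ‖p.1 a - p.2 j‖⁻¹ - ∑ b, ‖p.1 a - p.1 b‖⁻¹ := fun a => by
    have := phi_phiE z p a (p.1 a)
    unfold phi at this
    rw [sub_self, norm_zero, inv_zero, sub_zero] at this
    exact this.symm
  have h2 : ∀ j : Fin k, phiN z j p (p.2 j) =
      ∑ l, z l * ‖p.2 j - p.2 l‖⁻¹ - ∑ a, ‖p.2 j - p.1 a‖⁻¹ := fun j => by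
    have := phi_phiN z p j (p.2 j)
    unfold phi at this
    rw [sub_self, norm_zero, inv_zero, mul_zero, add_zero] at this
    exact this.symm
  have h3 : ∑ j, z j * phiN z j p (p.2 j) = ∑ j, ∑ l, z j * z l * ‖p.2 j - p.2 l‖⁻¹ -
      ∑ a, ∑ j, z j * ‖p.1 a - p.2 j‖⁻¹ := by
    rw [sum_comm (f := fun a j => z j * ‖p.1 a - p.2 j‖⁻¹), ← sum_sub_distrib]
    refine sum_congr rfl fun j _ => ?_
    rw [h2 j, mul_sub, mul_sum, mul_sum]
    congr 1
    · exact sum_congr rfl fun l _ => by ring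
    · exact sum_congr rfl fun a _ => by rw [norm_sub_rev]
  have h4 : ∑ a, phiE z a p (p.1 a) = ∑ a, ∑ j, z j * ‖p.1 a - p.2 j‖⁻¹ -
      ∑ a, ∑ b, ‖p.1 a - p.1 b‖⁻¹ := by
    rw [← sum_sub_distrib]
    exact sum_congr rfl fun a _ => h1 a
  rw [h3, h4]
  unfold V
  ring

/-- the Coulomb energy is invariant under permutations of the electrons -/
theorem V_perm {n k : ℕ} (z : Fin k → ℝ) (p : Cfg n k) (π : Equiv.Perm (Fin n)) :
    V z (p.1 ∘ π, p.2) = V z p := by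
  unfold V
  have h1 : ∑ a, ∑ b, ‖(p.1 ∘ π) a - (p.1 ∘ π) b‖⁻¹ = ∑ a, ∑ b, ‖p.1 a - p.1 b‖⁻¹ := by
    rw [← Equiv.sum_comp π (fun a => ∑ b, ‖p.1 a - p.1 b‖⁻¹)]
    refine sum_congr rfl fun a _ => ?_
    exact Equiv.sum_comp π (fun b => ‖p.1 (π a) - p.1 b‖⁻¹)
  have h2 : ∑ a, ∑ j, z j * ‖(p.1 ∘ π) a - p.2 j‖⁻¹ = ∑ a, ∑ j, z j * ‖p.1 a - p.2 j‖⁻¹ :=
    Equiv.sum_comp π (fun a => ∑ j, z j * ‖p.1 a - p.2 j‖⁻¹)
  dsimp only
  rw [h1, h2]

end H6.CM
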