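import Pool.Agent.H6.CM.SwN

/-! The exchange formula for the relocation of nucleus `j`. -/

open MeasureTheory Finset

namespace H6.CM

theorem exchN {q n k : ℕ} (j : Fin k)
    (H : E3 → (Fin n → Fin q) → Cfg n k → ℝ)
    (hH : ∀ σ, Integrable (fun u : Cfg n k × E3 => H u.2 σ u.1)) :
    Integrable (fun ξ : E3 => ∑ σ : Fin n → Fin q, ∫ p : Cfg n k,
        H (p.2 j) σ (p.1, Function.update p.2 j ξ)) ∧
    ∫ ξ : E3, ∑ σ : Fin n → Fin q, ∫ p : Cfg n k,
        H (p.2 j) σ (p.1, Function.update p.2 j ξ) =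
      ∑ σ, ∫ p, ∫ v, H v σ p := by
  have h1 : ∀ σ : Fin n → Fin q, Integrable (fun u : Cfg n k × E3 =>
      H (u.1.2 j) σ (u.1.1, Function.update u.1.2 j u.2)) := fun σ =>
    swN_intble j (fun u : Cfg n k × E3 => H u.2 σ u.1) (hH σ)
  have h2 : ∀ (σ : Fin n → Fin q), Integrable (fun ξ : E3 => ∫ p : Cfg n k,
      H (p.2 j) σ (p.1, Function.update p.2 j ξ)) := by
    intro σ
    have h3 := h1 σ
    rw [Measure.volume_eq_prod] at h3
    exact h3.integral_prod_right
  refine ⟨integrable_finsetSum _ fun σ _ => h2 σ, ?_⟩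
  rw [integral_finsetSum _ fun σ _ => h2 σ]
  refine sum_congr rfl fun σ _ => ?_
  have h5 := swN_int j (fun u : Cfg n k × E3 => H u.2 σ u.1)
  have h6 := h1 σ
  have h7 := hH σ
  rw [Measure.volume_eq_prod] at h5 h6 h7
  rw [integral_prod _ h7] at h5
  have h8 : ∫ u : Cfg n k × E3, H (u.1.2 j) σ (u.1.1, Function.update u.1.2 j u.2)
      ∂((volume : Measure (Cfg n k)).prod (volume : Measure E3)) = ∫ p, ∫ v, H v σ p := h5
  rw [integral_prod_symm _ h6] at h8
  exact h8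

end H6.CM
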