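import Pool.Agent.H6.CM.Defs

/-! The squared gradients of a smooth function with compact support are continuous with compact support, hence integrable. (`ge F a p` is the sum over the three directions `e` of `‖fderiv ℝ F p (Pi.single a e, 0)‖ ^ 2` by the chain rule.) -/

open MeasureTheory Finset

namespace H6.CM

theorem ge_eq {n k : ℕ} (F : Cfg n k → ℂ) (hF : Differentiable ℝ F) (a : Fin n) (p : Cfg n k) :
    ge F a p = ∑ d : Fin 3,
      ‖fderiv ℝ F p (Pi.single a (EuclideanSpace.single d 1), 0)‖ ^ 2 := by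
  unfold ge g3
  refine sum_congr rfl fun d _ => ?_
  have h1 : HasFDerivAt (fun v : E3 => ((Function.update p.1 a v, p.2) : Cfg n k))
      ((ContinuousLinearMap.pi (Pi.single a (ContinuousLinearMap.id ℝ E3))).prod
        (0 : E3 →L[ℝ] (Fin k → E3))) (p.1 a) :=
    (hasFDerivAt_update p.1 (p.1 a)).prodMk (hasFDerivAt_const _ _)
  have h2 : HasFDerivAt F (fderiv ℝ F p) ((Function.update p.1 a (p.1 a), p.2) : Cfg n k) := by
    rw [Function.update_eq_self]
    exact (hF p).hasFDerivAt
  have h3 : HasFDerivAt (fun v : E3 => F (Function.update p.1 a v, p.2)) _ (p.1 a) :=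
    h2.comp (p.1 a) h1
  rw [h3.fderiv]
  congr 2
  rw [ContinuousLinearMap.comp_apply, ContinuousLinearMap.prod_apply]
  congr 1
  refine Prod.ext ?_ rfl
  funext i
  simp only [ContinuousLinearMap.coe_pi']
  rcases eq_or_ne i a with rfl | hi
  · simp
  · simp [hi]

theorem gn_eq {n k : ℕ} (F : Cfg n k → ℂ) (hF : Differentiable ℝ F) (j : Fin k) (p : Cfg n k) :
    gn F j p = ∑ d : Fin 3,
      ‖fderiv ℝ F p (0, Pi.single j (EuclideanSpace.single d 1))‖ ^ 2 := by
  unfold gn g3
  refine sum_congr rfl fun d _ => ?_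
  have h1 : HasFDerivAt (fun v : E3 => ((p.1, Function.update p.2 j v) : Cfg n k))
      ((0 : E3 →L[ℝ] (Fin n → E3)).prod
        (ContinuousLinearMap.pi (Pi.single j (ContinuousLinearMap.id ℝ E3)))) (p.2 j) :=
    (hasFDerivAt_const _ _).prodMk (hasFDerivAt_update p.2 (p.2 j))
  have h2 : HasFDerivAt F (fderiv ℝ F p) ((p.1, Function.update p.2 j (p.2 j)) : Cfg n k) := by
    rw [Function.update_eq_self]
    exact (hF p).hasFDerivAt
  have h3 : HasFDerivAt (fun v : E3 => F (p.1, Function.update p.2 j v)) _ (p.2 j) :=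
    h2.comp (p.2 j) h1
  rw [h3.fderiv]
  congr 2
  rw [ContinuousLinearMap.comp_apply, ContinuousLinearMap.prod_apply]
  congr 1
  refine Prod.ext rfl ?_
  funext i
  simp only [ContinuousLinearMap.coe_pi']
  rcases eq_or_ne i j with rfl | hi
  · simp
  · simp [hi]

private theorem sq_cont {n k : ℕ} (F : Cfg n k → ℂ) (hF : ContDiff ℝ 1 F)
    (e : Fin 3 → Cfg n k) : Continuous (fun p => ∑ d : Fin 3, ‖fderiv ℝ F p (e d)‖ ^ 2) := by
  refine continuous_finsetSum _ fun d _ => ?_
  exact ((hF.continuous_fderiv one_ne_zero).clm_apply continuous_const).norm.pow 2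

private theorem sq_cpt {n k : ℕ} (F : Cfg n k → ℂ) (hc : HasCompactSupport F)
    (e : Fin 3 → Cfg n k) :
    HasCompactSupport (fun p => ∑ d : Fin 3, ‖fderiv ℝ F p (e d)‖ ^ 2) := by
  refine (hc.fderiv ℝ).mono fun p hp => ?_
  rw [Function.mem_support] at hp ⊢
  intro h
  refine hp (sum_eq_zero fun d _ => ?_)
  rw [h]
  simp

theorem ge_cont {n k : ℕ} (F : Cfg n k → ℂ) (hF : ContDiff ℝ 1 F) (a : Fin n) :
    Continuous (ge F a) := by
  have h : ge F a = fun p => ∑ d : Fin 3,
      ‖fderiv ℝ F p (Pi.single a (EuclideanSpace.single d 1), 0)‖ ^ 2 :=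
    funext fun p => ge_eq F (hF.differentiable one_ne_zero) a p
  rw [h]
  exact sq_cont F hF fun d => (Pi.single a (EuclideanSpace.single d 1), 0)

theorem ge_cpt {n k : ℕ} (F : Cfg n k → ℂ) (hF : ContDiff ℝ 1 F) (hc : HasCompactSupport F)
    (a : Fin n) : HasCompactSupport (ge F a) := by
  have h : ge F a = fun p => ∑ d : Fin 3,
      ‖fderiv ℝ F p (Pi.single a (EuclideanSpace.single d 1), 0)‖ ^ 2 :=
    funext fun p => ge_eq F (hF.differentiable one_ne_zero) a p
  rw [h]
  exact sq_cpt F hc fun d => (Pi.single a (EuclideanSpace.single d 1), 0)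

theorem gn_cont {n k : ℕ} (F : Cfg n k → ℂ) (hF : ContDiff ℝ 1 F) (j : Fin k) :
    Continuous (gn F j) := by
  have h : gn F j = fun p => ∑ d : Fin 3,
      ‖fderiv ℝ F p (0, Pi.single j (EuclideanSpace.single d 1))‖ ^ 2 :=
    funext fun p => gn_eq F (hF.differentiable one_ne_zero) j p
  rw [h]
  exact sq_cont F hF fun d => (0, Pi.single j (EuclideanSpace.single d 1))

theorem gn_cpt {n k : ℕ} (F : Cfg n k → ℂ) (hF : ContDiff ℝ 1 F) (hc : HasCompactSupport F)
    (j : Fin k) : HasCompactSupport (gn F j) := by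
  have h : gn F j = fun p => ∑ d : Fin 3,
      ‖fderiv ℝ F p (0, Pi.single j (EuclideanSpace.single d 1))‖ ^ 2 :=
    funext fun p => gn_eq F (hF.differentiable one_ne_zero) j p
  rw [h]
  exact sq_cpt F hc fun d => (0, Pi.single j (EuclideanSpace.single d 1))

theorem g3_nonneg (f : E3 → ℂ) (v : E3) : 0 ≤ g3 f v := by
  unfold g3
  positivity

theorem gr_nonneg (f : E3 → ℝ) (v : E3) : 0 ≤ gr f v := by
  unfold gr
  positivity

end H6.CM
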