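import Pool.Agent.H6.CM.Defs

/-! Pointwise identities for the squared gradients. -/

open MeasureTheory Finset

namespace H6.CM

theorem g3_const_mul (c : ℂ) (f : E3 → ℂ) (v : E3) (hf : DifferentiableAt ℝ f v) :
    g3 (fun u => c * f u) v = ‖c‖ ^ 2 * g3 f v := by
  unfold g3
  rw [mul_sum]
  refine sum_congr rfl fun d _ => ?_
  rw [fderiv_const_mul hf c, ContinuousLinearMap.smul_apply, norm_smul, mul_pow]

private theorem deriv_ofReal (s : E3 → ℝ) (v : E3) (hs : DifferentiableAt ℝ s v) :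
    HasFDerivAt (fun u => ((s u : ℝ) : ℂ)) (Complex.ofRealCLM.comp (fderiv ℝ s v)) v :=
  Complex.ofRealCLM.hasFDerivAt.comp v hs.hasFDerivAt

theorem g3_real_mul (s : E3 → ℝ) (c : ℂ) (v : E3) (hs : DifferentiableAt ℝ s v) :
    g3 (fun u => ((s u : ℝ) : ℂ) * c) v = gr s v * ‖c‖ ^ 2 := by
  unfold g3 gr
  rw [sum_mul]
  refine sum_congr rfl fun d _ => ?_
  have h1 : HasFDerivAt (fun u => ((s u : ℝ) : ℂ) * c)
      (c • (Complex.ofRealCLM.comp (fderiv ℝ s v))) v := (deriv_ofReal s v hs).mul_const c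
  rw [h1.fderiv, ContinuousLinearMap.smul_apply, norm_smul, mul_pow, mul_comm]
  congr 1
  rw [ContinuousLinearMap.comp_apply, Complex.ofRealCLM_apply, Complex.norm_real,
    Real.norm_eq_abs, sq_abs]

private theorem norm_comb (a s : ℝ) (f g : ℂ) :
    ‖(a : ℂ) * f + (s : ℂ) * g‖ ^ 2 =
      s ^ 2 * ‖g‖ ^ 2 + a ^ 2 * ‖f‖ ^ 2 + (a * s) * (2 * (f.re * g.re + f.im * g.im)) := by
  rw [← Complex.normSq_eq_norm_sq, ← Complex.normSq_eq_norm_sq, ← Complex.normSq_eq_norm_sq,
    Complex.normSq_apply, Complex.normSq_apply, Complex.normSq_apply]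
  simp only [Complex.add_re, Complex.add_im, Complex.mul_re, Complex.mul_im, Complex.ofReal_re,
    Complex.ofReal_im]
  ring

/-- the localisation formula: with `∑ i, s i ^ 2 = 1` the mixed terms cancel, since
`∑ i, s i * ∂ (s i) = 0` -/
theorem g3_ims {ι : Type*} (I : Finset ι) (s : ι → E3 → ℝ) (f : E3 → ℂ) (v : E3)
    (hs : ∀ i ∈ I, DifferentiableAt ℝ (s i) v) (hf : DifferentiableAt ℝ f v)
    (h1 : ∀ u, ∑ i ∈ I, s i u ^ 2 = 1) :
    ∑ i ∈ I, g3 (fun u => ((s i u : ℝ) : ℂ) * f u) v =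
      g3 f v + (∑ i ∈ I, gr (s i) v) * ‖f v‖ ^ 2 := by
  have hd : ∀ i ∈ I, ∀ e : E3, fderiv ℝ (fun u => ((s i u : ℝ) : ℂ) * f u) v e =
      ((fderiv ℝ (s i) v e : ℝ) : ℂ) * f v + ((s i v : ℝ) : ℂ) * fderiv ℝ f v e := by
    intro i hi e
    have h2 := (deriv_ofReal (s i) v (hs i hi)).mul hf.hasFDerivAt
    have h3 : HasFDerivAt (fun u => ((s i u : ℝ) : ℂ) * f u) _ v := h2
    rw [h3.fderiv]
    simp only [ContinuousLinearMap.add_apply, ContinuousLinearMap.smul_apply, smul_eq_mul,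
      ContinuousLinearMap.comp_apply, Complex.ofRealCLM_apply]
    ring
  have h0 : ∀ e : E3, ∑ i ∈ I, fderiv ℝ (s i) v e * s i v = 0 := by
    intro e
    have h2 : HasFDerivAt (fun u => ∑ i ∈ I, s i u ^ 2)
        (∑ i ∈ I, ((2 : ℕ) • s i v ^ (2 - 1)) • fderiv ℝ (s i) v) v :=
      HasFDerivAt.fun_sum fun i hi => (hs i hi).hasFDerivAt.pow 2
    have h3 : HasFDerivAt (fun u : E3 => ∑ i ∈ I, s i u ^ 2) (0 : E3 →L[ℝ] ℝ) v := by
      have : (fun u : E3 => ∑ i ∈ I, s i u ^ 2) = fun _ => (1 : ℝ) := funext h1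
      rw [this]
      exact hasFDerivAt_const 1 v
    have h4 := h2.unique h3
    have h5 := congrArg (fun L : E3 →L[ℝ] ℝ => L e) h4
    simp only [ContinuousLinearMap.sum_apply, ContinuousLinearMap.smul_apply, smul_eq_mul,
      ContinuousLinearMap.zero_apply, nsmul_eq_mul, Nat.cast_ofNat, pow_one,
      Nat.add_one_sub_one, Nat.reduceSub] at h5
    have h6 : ∑ i ∈ I, 2 * s i v * fderiv ℝ (s i) v e =
        2 * ∑ i ∈ I, fderiv ℝ (s i) v e * s i v := by
      rw [mul_sum]
      exact sum_congr rfl fun i _ => by ring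
    rw [h6] at h5
    linarith
  unfold g3 gr
  rw [sum_comm, sum_comm (s := I) (t := univ), sum_mul, ← sum_add_distrib]
  refine sum_congr rfl fun d _ => ?_
  rw [sum_congr rfl fun i hi => by rw [hd i hi, norm_comb], sum_add_distrib, sum_add_distrib,
    ← sum_mul, ← sum_mul, ← sum_mul, h0, h1 v]
  ring

private theorem diff_E {n k : ℕ} (F : Cfg n k → ℂ) (hF : Differentiable ℝ F) (q : Cfg n k)
    (b : Fin n) (v : E3) : DifferentiableAt ℝ (fun v => F (Function.update q.1 b v, q.2)) v := by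
  have h1 : DifferentiableAt ℝ (fun v : E3 => ((Function.update q.1 b v, q.2) : Cfg n k)) v :=
    ((hasFDerivAt_update q.1 v).differentiableAt).prodMk (differentiableAt_const _)
  exact (hF _).comp v h1

private theorem diff_N {n k : ℕ} (F : Cfg n k → ℂ) (hF : Differentiable ℝ F) (q : Cfg n k)
    (b : Fin k) (v : E3) : DifferentiableAt ℝ (fun v => F (q.1, Function.update q.2 b v)) v := by
  have h1 : DifferentiableAt ℝ (fun v : E3 => ((q.1, Function.update q.2 b v) : Cfg n k)) v :=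
    (differentiableAt_const _).prodMk ((hasFDerivAt_update q.2 v).differentiableAt)
  exact (hF _).comp v h1

private theorem norm_h (x : ℝ) : ‖((x : ℝ) : ℂ)‖ ^ 2 = x ^ 2 := by
  rw [Complex.norm_real, Real.norm_eq_abs, sq_abs]

/-- removing electron `a` from its place and putting it into the orbital `h` -/
theorem ge_triE_ne {n k : ℕ} (F : Cfg n k → ℂ) (hF : Differentiable ℝ F) (h : E3 → ℝ) (a b : Fin n)
    (hb : b ≠ a) (ξ : E3) (p : Cfg n k) :
    ge (fun p : Cfg n k => ((h (p.1 a) : ℝ) : ℂ) * F (Function.update p.1 a ξ, p.2)) b p =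
      h (p.1 a) ^ 2 * ge F b (Function.update p.1 a ξ, p.2) := by
  unfold ge
  dsimp only
  have h1 : (fun v => ((h (Function.update p.1 b v a) : ℝ) : ℂ) *
      F (Function.update (Function.update p.1 b v) a ξ, p.2)) =
      fun v => ((h (p.1 a) : ℝ) : ℂ) *
        F (Function.update (Function.update p.1 a ξ) b v, p.2) := by
    funext v
    rw [Function.update_of_ne hb.symm, Function.update_comm hb]
  rw [h1, g3_const_mul _ _ _ (diff_E F hF (Function.update p.1 a ξ, p.2) b _), norm_h,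
    Function.update_of_ne hb]

theorem ge_triE_self {n k : ℕ} (F : Cfg n k → ℂ) (h : E3 → ℝ) (hh : Differentiable ℝ h)
    (a : Fin n) (ξ : E3) (p : Cfg n k) :
    ge (fun p : Cfg n k => ((h (p.1 a) : ℝ) : ℂ) * F (Function.update p.1 a ξ, p.2)) a p =
      gr h (p.1 a) * ‖F (Function.update p.1 a ξ, p.2)‖ ^ 2 := by
  unfold ge
  dsimp only
  have h1 : (fun v => ((h (Function.update p.1 a v a) : ℝ) : ℂ) *
      F (Function.update (Function.update p.1 a v) a ξ, p.2)) =
      fun v => ((h v : ℝ) : ℂ) * F (Function.update p.1 a ξ, p.2) := by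
    funext v
    rw [Function.update_self, Function.update_idem]
  rw [h1, g3_real_mul _ _ _ (hh _)]

theorem gn_triE {n k : ℕ} (F : Cfg n k → ℂ) (hF : Differentiable ℝ F) (h : E3 → ℝ) (a : Fin n)
    (j : Fin k) (ξ : E3) (p : Cfg n k) :
    gn (fun p : Cfg n k => ((h (p.1 a) : ℝ) : ℂ) * F (Function.update p.1 a ξ, p.2)) j p =
      h (p.1 a) ^ 2 * gn F j (Function.update p.1 a ξ, p.2) := by
  unfold gn
  dsimp only
  rw [g3_const_mul _ _ _ (diff_N F hF (Function.update p.1 a ξ, p.2) j _), norm_h]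

/-- removing nucleus `j` from its place and putting it into the orbital `h` -/
theorem gn_triN_ne {n k : ℕ} (F : Cfg n k → ℂ) (hF : Differentiable ℝ F) (h : E3 → ℝ) (j l : Fin k)
    (hl : l ≠ j) (ξ : E3) (p : Cfg n k) :
    gn (fun p : Cfg n k => ((h (p.2 j) : ℝ) : ℂ) * F (p.1, Function.update p.2 j ξ)) l p =
      h (p.2 j) ^ 2 * gn F l (p.1, Function.update p.2 j ξ) := by
  unfold gn
  dsimp only
  have h1 : (fun v => ((h (Function.update p.2 l v j) : ℝ) : ℂ) *
      F (p.1, Function.update (Function.update p.2 l v) j ξ)) =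
      fun v => ((h (p.2 j) : ℝ) : ℂ) *
        F (p.1, Function.update (Function.update p.2 j ξ) l v) := by
    funext v
    rw [Function.update_of_ne hl.symm, Function.update_comm hl]
  rw [h1, g3_const_mul _ _ _ (diff_N F hF (p.1, Function.update p.2 j ξ) l _), norm_h,
    Function.update_of_ne hl]

theorem gn_triN_self {n k : ℕ} (F : Cfg n k → ℂ) (h : E3 → ℝ) (hh : Differentiable ℝ h)
    (j : Fin k) (ξ : E3) (p : Cfg n k) :
    gn (fun p : Cfg n k => ((h (p.2 j) : ℝ) : ℂ) * F (p.1, Function.update p.2 j ξ)) j p =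
      gr h (p.2 j) * ‖F (p.1, Function.update p.2 j ξ)‖ ^ 2 := by
  unfold gn
  dsimp only
  have h1 : (fun v => ((h (Function.update p.2 j v j) : ℝ) : ℂ) *
      F (p.1, Function.update (Function.update p.2 j v) j ξ)) =
      fun v => ((h v : ℝ) : ℂ) * F (p.1, Function.update p.2 j ξ) := by
    funext v
    rw [Function.update_self, Function.update_idem]
  rw [h1, g3_real_mul _ _ _ (hh _)]

theorem ge_triN {n k : ℕ} (F : Cfg n k → ℂ) (hF : Differentiable ℝ F) (h : E3 → ℝ) (j : Fin k)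
    (b : Fin n) (ξ : E3) (p : Cfg n k) :
    ge (fun p : Cfg n k => ((h (p.2 j) : ℝ) : ℂ) * F (p.1, Function.update p.2 j ξ)) b p =
      h (p.2 j) ^ 2 * ge F b (p.1, Function.update p.2 j ξ) := by
  unfold ge
  dsimp only
  rw [g3_const_mul _ _ _ (diff_E F hF (p.1, Function.update p.2 j ξ) b _), norm_h]

end H6.CM
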