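import Pool.Agent.H6.CM.IntK

/-! The five kinds of Coulomb singularities are integrable against continuous functions with compact support (apply `intK` with the obvious linear maps; a right inverse of `p ↦ p.1 a - p.1 b` is `v ↦ (Pi.single a v, 0)` etc.), and the same with an additional point `w` of `E3`. -/

open MeasureTheory Finset

namespace H6.CM

/-- the position of an electron -/
noncomputable def IntAll_E (n k : ℕ) (a : Fin n) : Cfg n k →L[ℝ] E3 :=
  (ContinuousLinearMap.proj (R := ℝ) (φ := fun _ : Fin n => E3) a).comp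
    (ContinuousLinearMap.fst ℝ (Fin n → E3) (Fin k → E3))

/-- the position of a nucleus -/
noncomputable def IntAll_N (n k : ℕ) (j : Fin k) : Cfg n k →L[ℝ] E3 :=
  (ContinuousLinearMap.proj (R := ℝ) (φ := fun _ : Fin k => E3) j).comp
    (ContinuousLinearMap.snd ℝ (Fin n → E3) (Fin k → E3))

/-- inclusion of the position of an electron -/
noncomputable def IntAll_SE (n k : ℕ) (a : Fin n) : E3 →L[ℝ] Cfg n k :=
  (ContinuousLinearMap.inl ℝ (Fin n → E3) (Fin k → E3)).comp
    (ContinuousLinearMap.single ℝ (fun _ : Fin n => E3) a)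

/-- inclusion of the position of a nucleus -/
noncomputable def IntAll_SN (n k : ℕ) (j : Fin k) : E3 →L[ℝ] Cfg n k :=
  (ContinuousLinearMap.inr ℝ (Fin n → E3) (Fin k → E3)).comp
    (ContinuousLinearMap.single ℝ (fun _ : Fin k => E3) j)

theorem IntAll_E_apply {n k : ℕ} (a : Fin n) (p : Cfg n k) : IntAll_E n k a p = p.1 a := rfl

theorem IntAll_N_apply {n k : ℕ} (j : Fin k) (p : Cfg n k) : IntAll_N n k j p = p.2 j := rfl

theorem IntAll_SE_apply {n k : ℕ} (a : Fin n) (v : E3) :
    IntAll_SE n k a v = (Pi.single a v, 0) := rfl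

theorem IntAll_SN_apply {n k : ℕ} (j : Fin k) (v : E3) :
    IntAll_SN n k j v = (0, Pi.single j v) := rfl

instance IntAll_haar (n k : ℕ) : Measure.IsAddHaarMeasure (volume : Measure (Cfg n k)) :=
  Measure.prod.instIsAddHaarMeasure (volume : Measure (Fin n → E3)) (volume : Measure (Fin k → E3))

instance IntAll_haar2 (n k : ℕ) : Measure.IsAddHaarMeasure (volume : Measure (Cfg n k × E3)) :=
  Measure.prod.instIsAddHaarMeasure (volume : Measure (Cfg n k)) (volume : Measure E3)

variable {n k : ℕ} (h : Cfg n k → ℝ) (hc : Continuous h) (hs : HasCompactSupport h)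

include hc hs

theorem int_ee (a b : Fin n) : Integrable (fun p : Cfg n k => ‖p.1 a - p.1 b‖⁻¹ * h p) := by
  by_cases hab : a = b
  · subst hab
    simp only [sub_self, norm_zero, inv_zero, zero_mul]
    exact integrable_zero _ _ _
  · have h1 := intK (volume : Measure (Cfg n k)) (IntAll_E n k a - IntAll_E n k b)
      (IntAll_SE n k a) (fun v => by
        rw [sub_apply, IntAll_SE_apply, IntAll_E_apply, IntAll_E_apply]
        dsimp only
        rw [Pi.single_eq_same, Pi.single_eq_of_ne (Ne.symm hab), sub_zero]) 0 h hc hs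
    simp only [sub_apply, IntAll_E_apply, zero_add] at h1
    exact h1

theorem int_en (a : Fin n) (j : Fin k) :
    Integrable (fun p : Cfg n k => ‖p.1 a - p.2 j‖⁻¹ * h p) := by
  have h1 := intK (volume : Measure (Cfg n k)) (IntAll_E n k a - IntAll_N n k j)
    (IntAll_SE n k a) (fun v => by
      rw [sub_apply, IntAll_SE_apply, IntAll_E_apply, IntAll_N_apply]
      dsimp only
      rw [Pi.single_eq_same, Pi.zero_apply, sub_zero]) 0 h hc hs
  simp only [sub_apply, IntAll_E_apply, IntAll_N_apply, zero_add] at h1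
  exact h1

theorem int_nn (j l : Fin k) : Integrable (fun p : Cfg n k => ‖p.2 j - p.2 l‖⁻¹ * h p) := by
  by_cases hab : j = l
  · subst hab
    simp only [sub_self, norm_zero, inv_zero, zero_mul]
    exact integrable_zero _ _ _
  · have h1 := intK (volume : Measure (Cfg n k)) (IntAll_N n k j - IntAll_N n k l)
      (IntAll_SN n k j) (fun v => by
        rw [sub_apply, IntAll_SN_apply, IntAll_N_apply, IntAll_N_apply]
        dsimp only
        rw [Pi.single_eq_same, Pi.single_eq_of_ne (Ne.symm hab), sub_zero]) 0 h hc hs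
    simp only [sub_apply, IntAll_N_apply, zero_add] at h1
    exact h1

theorem int_we (w : E3) (a : Fin n) :
    Integrable (fun p : Cfg n k => ‖w - p.1 a‖⁻¹ * h p) := by
  have h1 := intK (volume : Measure (Cfg n k)) (-IntAll_E n k a)
    (-IntAll_SE n k a) (fun v => by
      rw [neg_apply, neg_apply, map_neg, neg_neg,
        IntAll_SE_apply, IntAll_E_apply]
      dsimp only
      rw [Pi.single_eq_same]) w h hc hs
  simp only [neg_apply, IntAll_E_apply, ← sub_eq_add_neg] at h1
  exact h1

theorem int_wn (w : E3) (j : Fin k) :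
    Integrable (fun p : Cfg n k => ‖w - p.2 j‖⁻¹ * h p) := by
  have h1 := intK (volume : Measure (Cfg n k)) (-IntAll_N n k j)
    (-IntAll_SN n k j) (fun v => by
      rw [neg_apply, neg_apply, map_neg, neg_neg,
        IntAll_SN_apply, IntAll_N_apply]
      dsimp only
      rw [Pi.single_eq_same]) w h hc hs
  simp only [neg_apply, IntAll_N_apply, ← sub_eq_add_neg] at h1
  exact h1

omit hc hs in
theorem int_pe (g : Cfg n k × E3 → ℝ) (gc : Continuous g) (gs : HasCompactSupport g) (a : Fin n) :
    Integrable (fun u : Cfg n k × E3 => ‖u.2 - u.1.1 a‖⁻¹ * g u) := by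
  have h1 := intK (volume : Measure (Cfg n k × E3))
    (ContinuousLinearMap.snd ℝ (Cfg n k) E3 -
      (IntAll_E n k a).comp (ContinuousLinearMap.fst ℝ (Cfg n k) E3))
    (ContinuousLinearMap.inr ℝ (Cfg n k) E3) (fun v => by simp) 0 g gc gs
  simp only [sub_apply, ContinuousLinearMap.comp_apply,
    ContinuousLinearMap.coe_snd', ContinuousLinearMap.coe_fst', IntAll_E_apply, zero_add] at h1
  exact h1

omit hc hs in
theorem int_pn (g : Cfg n k × E3 → ℝ) (gc : Continuous g) (gs : HasCompactSupport g) (j : Fin k) :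
    Integrable (fun u : Cfg n k × E3 => ‖u.2 - u.1.2 j‖⁻¹ * g u) := by
  have h1 := intK (volume : Measure (Cfg n k × E3))
    (ContinuousLinearMap.snd ℝ (Cfg n k) E3 -
      (IntAll_N n k j).comp (ContinuousLinearMap.fst ℝ (Cfg n k) E3))
    (ContinuousLinearMap.inr ℝ (Cfg n k) E3) (fun v => by simp) 0 g gc gs
  simp only [sub_apply, ContinuousLinearMap.comp_apply,
    ContinuousLinearMap.coe_snd', ContinuousLinearMap.coe_fst', IntAll_N_apply, zero_add] at h1
  exact h1

end H6.CM
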