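import Pool.Agent.H6.CM.Defs

/-! Existence of the bump and of the cutoff (`Real.smoothTransition` of affine functions of `‖v‖ ^ 2`, normalised). -/

open MeasureTheory Finset

namespace H6.CM

private theorem BumpEx_smooth (a b : ℝ) : ContDiff ℝ (⊤ : ℕ∞) fun v : E3 => Real.smoothTransition (a * ‖v‖ ^ 2 + b) :=
  Real.smoothTransition.contDiff.comp ((contDiff_const.mul (contDiff_norm_sq ℝ)).add contDiff_const)

theorem bump_ex : ∃ χ : E3 → ℝ, Bump χ := by
  have hs : ContDiff ℝ (⊤ : ℕ∞) fun v : E3 => Real.smoothTransition ((-5) * ‖v‖ ^ 2 + 1) := BumpEx_smooth (-5) 1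
  set g : E3 → ℝ := fun v : E3 => Real.smoothTransition ((-5) * ‖v‖ ^ 2 + 1) with hg
  have hsupp : ∀ v, g v ≠ 0 → ‖v‖ < 1 / 2 := by
    intro v hv
    by_contra h
    push Not at h
    apply hv
    refine Real.smoothTransition.zero_of_nonpos ?_
    nlinarith [norm_nonneg v]
  have hrad : ∀ u v : E3, ‖u‖ = ‖v‖ → g u = g v := by
    intro u v h
    simp only [hg, h]
  have hcpt : HasCompactSupport fun v => g v ^ 2 := by
    refine HasCompactSupport.intro (isCompact_closedBall (0 : E3) (1 / 2)) fun v hv => ?_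
    have h0 : g v = 0 := by
      by_contra h
      apply hv
      rw [Metric.mem_closedBall, dist_zero_right]
      exact (hsupp v h).le
    simp only [h0]
    norm_num
  have hpos : 0 < ∫ v, g v ^ 2 := by
    refine Continuous.integral_pos_of_hasCompactSupport_nonneg_nonzero (x := (0 : E3)) (hs.continuous.pow 2) hcpt
      (fun v => sq_nonneg _) ?_
    simp [hg]
  refine ⟨fun v => (Real.sqrt (∫ v, g v ^ 2))⁻¹ * g v, ⟨contDiff_const.mul hs, ?_, ?_, ?_⟩⟩
  · intro v hv
    exact hsupp v fun h => hv (by rw [h, mul_zero])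
  · intro u v h
    rw [hrad u v h]
  · simp only [mul_pow]
    rw [integral_const_mul, inv_pow, Real.sq_sqrt hpos.le, inv_mul_cancel₀ hpos.ne']

theorem cut_ex : ∃ θ : E3 → ℝ, Cut θ := by
  refine ⟨fun v => Real.smoothTransition (1 / 3 * ‖v‖ ^ 2 + (-(1 / 3))), ⟨BumpEx_smooth _ _, ?_, ?_, ?_, ?_⟩⟩
  · intro v hv
    refine Real.smoothTransition.zero_of_nonpos ?_
    nlinarith [norm_nonneg v]
  · intro v hv
    refine Real.smoothTransition.one_of_one_le ?_
    nlinarith
  · intro v
    exact Real.smoothTransition.nonneg _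
  · intro v
    exact Real.smoothTransition.le_one _

theorem Bump.cpt {χ : E3 → ℝ} (h : Bump χ) : HasCompactSupport χ := by
  refine HasCompactSupport.intro (isCompact_closedBall (0 : E3) (1 / 2)) fun v hv => ?_
  by_contra h0
  apply hv
  rw [Metric.mem_closedBall, dist_zero_right]
  exact (h.supp v h0).le

theorem Bump.int {χ : E3 → ℝ} (h : Bump χ) : Integrable (fun v => χ v ^ 2) := by
  refine Continuous.integrable_of_hasCompactSupport (h.smooth.continuous.pow 2) ?_
  refine HasCompactSupport.intro (isCompact_closedBall (0 : E3) (1 / 2)) fun v hv => ?_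
  have h0 : χ v = 0 := by
    by_contra h0
    apply hv
    rw [Metric.mem_closedBall, dist_zero_right]
    exact (h.supp v h0).le
  rw [h0]
  norm_num

/-- the squared length of the gradient of a cutoff is bounded and vanishes outside the shell -/
theorem Cut.grad {θ : E3 → ℝ} (h : Cut θ) : ∃ C : ℝ, 0 ≤ C ∧ ∀ v, gr θ v ≤ C ∧
    (gr θ v ≠ 0 → 1 ≤ ‖v‖ ∧ ‖v‖ ≤ 2) := by
  have hcont : Continuous (gr θ) := by
    unfold gr
    refine continuous_finsetSum _ fun d _ => ?_
    exact ((h.smooth.continuous_fderiv (by simp)).clm_apply continuous_const).pow 2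
  have hzero : ∀ v : E3, fderiv ℝ θ v = 0 → gr θ v = 0 := by
    intro v hv
    unfold gr
    rw [hv]
    simp
  have hin : ∀ v : E3, ‖v‖ < 1 → gr θ v = 0 := by
    intro v hv
    refine hzero v ?_
    have h1 : θ =ᶠ[nhds v] fun _ => 0 := by
      have hopen : IsOpen {w : E3 | ‖w‖ < 1} := isOpen_lt continuous_norm continuous_const
      filter_upwards [hopen.mem_nhds hv] with w hw
      exact h.zero w (le_of_lt hw)
    rw [h1.fderiv_eq]
    simp
  have hout : ∀ v : E3, 2 < ‖v‖ → gr θ v = 0 := by
    intro v hv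
    refine hzero v ?_
    have h1 : θ =ᶠ[nhds v] fun _ => 1 := by
      have hopen : IsOpen {w : E3 | 2 < ‖w‖} := isOpen_lt continuous_const continuous_norm
      filter_upwards [hopen.mem_nhds hv] with w hw
      exact h.one w (le_of_lt hw)
    rw [h1.fderiv_eq]
    simp
  have hcpt : HasCompactSupport (gr θ) := by
    refine HasCompactSupport.intro (isCompact_closedBall (0 : E3) 2) fun v hv => ?_
    refine hout v ?_
    by_contra h0
    apply hv
    rw [Metric.mem_closedBall, dist_zero_right]
    exact not_lt.1 h0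
  obtain ⟨C, hC⟩ := hcont.bounded_above_of_compact_support hcpt
  refine ⟨C, (norm_nonneg _).trans (hC 0), fun v => ⟨(le_abs_self _).trans (hC v), fun hv => ⟨?_, ?_⟩⟩⟩
  · by_contra h0
    exact hv (hin v (not_le.1 h0))
  · by_contra h0
    exact hv (hout v (not_le.1 h0))

end H6.CM
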