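import Pool.Agent.H6.CM.NewA
import Pool.Agent.H6.CM.BumpEx

/-! Theorem of Newton for a radial density. A linear isometry takes `w` to a multiple of the third basis vector (radial functions are invariant); `‖w - u‖ ^ 2 = W ^ 2 + s ^ 2 - 2 W z` with `W = ‖w‖`; apply `cyl`; the inner integral is `∫ z in -s..s, (W ^ 2 + s ^ 2 - 2 * W * z) ^ (-1/2) = ((W + s) - |W - s|) / W`, which is `2 s / W` for `s ≤ W` and at most `2 s / W` always; with `W` replaced by `0` formally (or `cyl` for `χ ^ 2` alone) the total mass is `1`. -/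

open MeasureTheory Finset

namespace H6.CM

private noncomputable def e3 : E3 := EuclideanSpace.single (2 : Fin 3) (1 : ℝ)

private theorem norm_e3 : ‖e3‖ = 1 := by simp [e3]

private theorem norm_we (W : ℝ) (u : E3) :
    ‖W • e3 - u‖ = Real.sqrt (W ^ 2 + ‖u‖ ^ 2 - 2 * W * u 2) := by
  have h1 : ‖W • e3 - u‖ ^ 2 = W ^ 2 + ‖u‖ ^ 2 - 2 * W * u 2 := by
    rw [norm_sub_sq_real, real_inner_smul_left, norm_smul, norm_e3]
    have h2 : inner ℝ e3 u = u 2 := by
      unfold e3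
      rw [EuclideanSpace.inner_single_left]
      simp
    rw [h2, mul_one, Real.norm_eq_abs, sq_abs]
    ring
  rw [← h1, Real.sqrt_sq (norm_nonneg _)]

private theorem inner_int (W s : ℝ) (hW : 0 < W) (hs : 0 < s) :
    ∫⁻ z in Set.Ioo (-s) s, ENNReal.ofReal ((Real.sqrt (W ^ 2 + s ^ 2 - 2 * W * z))⁻¹)
      = ENNReal.ofReal (2 * min s W / W) := by
  have hpos : ∀ z ∈ Set.Ioo (-s) s, 0 < W ^ 2 + s ^ 2 - 2 * W * z := by
    intro z hz
    nlinarith [sq_nonneg (W - s), mul_pos hW (sub_pos.mpr hz.2)]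
  have hcont : ContinuousOn (fun z : ℝ => -(Real.sqrt (W ^ 2 + s ^ 2 - 2 * W * z)) / W)
      (Set.Icc (-s) s) := by
    fun_prop
  have hderiv : ∀ z ∈ Set.Ioo (-s) s,
      HasDerivAt (fun z : ℝ => -(Real.sqrt (W ^ 2 + s ^ 2 - 2 * W * z)) / W)
        ((Real.sqrt (W ^ 2 + s ^ 2 - 2 * W * z))⁻¹) z := by
    intro z hz
    have h1 : HasDerivAt (fun z : ℝ => W ^ 2 + s ^ 2 - 2 * W * z) (-(2 * W)) z := by
      have := ((hasDerivAt_id z).const_mul (2 * W)).const_sub (W ^ 2 + s ^ 2)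
      simpa using this
    have h2 := ((h1.sqrt (hpos z hz).ne').fun_neg).div_const W
    have h3 : -(-(2 * W) / (2 * Real.sqrt (W ^ 2 + s ^ 2 - 2 * W * z))) / W
        = (Real.sqrt (W ^ 2 + s ^ 2 - 2 * W * z))⁻¹ := by
      have := Real.sqrt_pos.mpr (hpos z hz)
      field_simp
    rw [h3] at h2
    exact h2
  have hint : IntegrableOn (fun z : ℝ => (Real.sqrt (W ^ 2 + s ^ 2 - 2 * W * z))⁻¹)
      (Set.Ioc (-s) s) :=
    intervalIntegral.integrableOn_deriv_of_nonneg hcont hderiv (fun z _ => by positivity)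
  have hle : -s ≤ s := by linarith
  have hII : IntervalIntegrable (fun z : ℝ => (Real.sqrt (W ^ 2 + s ^ 2 - 2 * W * z))⁻¹)
      volume (-s) s := (intervalIntegrable_iff_integrableOn_Ioc_of_le hle).mpr hint
  have hval := intervalIntegral.integral_eq_sub_of_hasDerivAt_of_le hle hcont hderiv hII
  rw [intervalIntegral.integral_of_le hle, integral_Ioc_eq_integral_Ioo] at hval
  rw [← ofReal_integral_eq_lintegral_ofReal (hint.mono_set Set.Ioo_subset_Ioc_self)
    (Filter.Eventually.of_forall fun z => inv_nonneg.mpr (Real.sqrt_nonneg _)), hval]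
  congr 1
  have h1 : Real.sqrt (W ^ 2 + s ^ 2 - 2 * W * s) = |W - s| := by
    rw [← Real.sqrt_sq_eq_abs]
    congr 1
    ring
  have h2 : Real.sqrt (W ^ 2 + s ^ 2 - 2 * W * (-s)) = W + s := by
    have h3 : W ^ 2 + s ^ 2 - 2 * W * (-s) = (W + s) ^ 2 := by ring
    rw [h3, Real.sqrt_sq (by linarith)]
  rw [h1, h2]
  rcases le_total s W with h | h
  · rw [min_eq_left h, abs_of_nonneg (by linarith)]
    ring
  · rw [min_eq_right h, abs_of_nonpos (by linarith)]
    ring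

private theorem radial_eq {χ : E3 → ℝ} (h : Bump χ) (u : E3) : χ u = χ (‖u‖ • e3) := by
  apply h.radial
  rw [norm_smul, norm_e3, mul_one, norm_norm]

private theorem chi_cont {χ : E3 → ℝ} (h : Bump χ) : Continuous fun s : ℝ => χ (s • e3) ^ 2 :=
  (h.smooth.continuous.comp (continuous_id.smul continuous_const)).pow 2

private theorem newt_lint {χ : E3 → ℝ} (h : Bump χ) (W : ℝ) (hW : 0 < W) :
    ∫⁻ u : E3, ENNReal.ofReal (χ u ^ 2 * ‖W • e3 - u‖⁻¹)
      = ENNReal.ofReal (2 * Real.pi) * ∫⁻ s in Set.Ioi (0 : ℝ), ENNReal.ofReal s *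
        (ENNReal.ofReal (χ (s • e3) ^ 2) * ENNReal.ofReal (2 * min s W / W)) := by
  have hg := (chi_cont h).measurable
  have hF : Measurable fun u : ℝ × ℝ => ENNReal.ofReal (χ (u.1 • e3) ^ 2) *
      ENNReal.ofReal ((Real.sqrt (W ^ 2 + u.1 ^ 2 - 2 * W * u.2))⁻¹) := by
    have h1 : Measurable fun u : ℝ × ℝ => χ (u.1 • e3) ^ 2 := hg.comp measurable_fst
    have h2 : Measurable fun u : ℝ × ℝ => (Real.sqrt (W ^ 2 + u.1 ^ 2 - 2 * W * u.2))⁻¹ := by
      fun_prop
    exact (ENNReal.measurable_ofReal.comp h1).mul (ENNReal.measurable_ofReal.comp h2)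
  have hcyl := cyl (fun s z => ENNReal.ofReal (χ (s • e3) ^ 2) *
      ENNReal.ofReal ((Real.sqrt (W ^ 2 + s ^ 2 - 2 * W * z))⁻¹)) hF
  have h1 : ∀ u : E3, ENNReal.ofReal (χ u ^ 2 * ‖W • e3 - u‖⁻¹)
      = ENNReal.ofReal (χ (‖u‖ • e3) ^ 2) *
      ENNReal.ofReal ((Real.sqrt (W ^ 2 + ‖u‖ ^ 2 - 2 * W * u 2))⁻¹) := by
    intro u
    rw [ENNReal.ofReal_mul (sq_nonneg _), norm_we, ← radial_eq h u]
  simp_rw [h1]
  rw [hcyl]
  congr 1
  refine setLIntegral_congr_fun measurableSet_Ioi fun s hs => ?_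
  have hs0 : 0 < s := hs
  show ENNReal.ofReal s * ∫⁻ z in Set.Ioo (-s) s, ENNReal.ofReal (χ (s • e3) ^ 2) *
      ENNReal.ofReal ((Real.sqrt (W ^ 2 + s ^ 2 - 2 * W * z))⁻¹)
    = ENNReal.ofReal s *
        (ENNReal.ofReal (χ (s • e3) ^ 2) * ENNReal.ofReal (2 * min s W / W))
  have hm : Measurable fun z : ℝ => ENNReal.ofReal ((Real.sqrt (W ^ 2 + s ^ 2 - 2 * W * z))⁻¹) := by
    fun_prop
  rw [lintegral_const_mul _ hm, inner_int W s hW hs0]

private theorem mass_lint {χ : E3 → ℝ} (h : Bump χ) :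
    ENNReal.ofReal (2 * Real.pi) * ∫⁻ s in Set.Ioi (0 : ℝ), ENNReal.ofReal s *
        (ENNReal.ofReal (χ (s • e3) ^ 2) * ENNReal.ofReal (2 * s)) = 1 := by
  have hg := (chi_cont h).measurable
  have hF : Measurable fun u : ℝ × ℝ => ENNReal.ofReal (χ (u.1 • e3) ^ 2) := by
    have h1 : Measurable fun u : ℝ × ℝ => χ (u.1 • e3) ^ 2 := hg.comp measurable_fst
    exact ENNReal.measurable_ofReal.comp h1
  have hcyl := cyl (fun s _ => ENNReal.ofReal (χ (s • e3) ^ 2)) hF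
  have h1 : ∀ u : E3, ENNReal.ofReal (χ (‖u‖ • e3) ^ 2) = ENNReal.ofReal (χ u ^ 2) := by
    intro u
    rw [← radial_eq h u]
  simp_rw [h1] at hcyl
  rw [← ofReal_integral_eq_lintegral_ofReal h.int (Filter.Eventually.of_forall fun u =>
    sq_nonneg _), h.norm, ENNReal.ofReal_one] at hcyl
  rw [hcyl]
  congr 1
  refine setLIntegral_congr_fun measurableSet_Ioi fun s hs => ?_
  have hs0 : 0 < s := hs
  show ENNReal.ofReal s * (ENNReal.ofReal (χ (s • e3) ^ 2) * ENNReal.ofReal (2 * s))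
    = ENNReal.ofReal s * ∫⁻ z in Set.Ioo (-s) s, ENNReal.ofReal (χ (s • e3) ^ 2)
  rw [lintegral_const, Measure.restrict_apply MeasurableSet.univ, Set.univ_inter, Real.volume_Ioo]
  congr 3
  ring

private theorem newt_lint_le {χ : E3 → ℝ} (h : Bump χ) (W : ℝ) (hW : 0 < W) :
    ∫⁻ u : E3, ENNReal.ofReal (χ u ^ 2 * ‖W • e3 - u‖⁻¹) ≤ ENNReal.ofReal W⁻¹ := by
  rw [newt_lint h W hW]
  have hg := (chi_cont h).measurable
  have hm : Measurable fun s : ℝ => ENNReal.ofReal s *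
        (ENNReal.ofReal (χ (s • e3) ^ 2) * ENNReal.ofReal (2 * s)) := by
    have h1 : Measurable fun s : ℝ => ENNReal.ofReal (χ (s • e3) ^ 2) :=
      ENNReal.measurable_ofReal.comp hg
    have h2 : Measurable fun s : ℝ => ENNReal.ofReal (2 * s) := by fun_prop
    exact ENNReal.measurable_ofReal.mul (h1.mul h2)
  calc ENNReal.ofReal (2 * Real.pi) * ∫⁻ s in Set.Ioi (0 : ℝ), ENNReal.ofReal s *
        (ENNReal.ofReal (χ (s • e3) ^ 2) * ENNReal.ofReal (2 * min s W / W))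
      ≤ ENNReal.ofReal (2 * Real.pi) * ∫⁻ s in Set.Ioi (0 : ℝ), ENNReal.ofReal W⁻¹ *
        (ENNReal.ofReal s * (ENNReal.ofReal (χ (s • e3) ^ 2) * ENNReal.ofReal (2 * s))) := by
        refine mul_le_mul_right (setLIntegral_mono' measurableSet_Ioi fun s hs => ?_) _
        have hs0 : 0 < s := hs
        have h1 : ENNReal.ofReal (2 * min s W / W)
            ≤ ENNReal.ofReal W⁻¹ * ENNReal.ofReal (2 * s) := by
          rw [← ENNReal.ofReal_mul (inv_nonneg.mpr hW.le)]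
          refine ENNReal.ofReal_le_ofReal ?_
          rw [div_eq_inv_mul]
          refine mul_le_mul_of_nonneg_left ?_ (inv_nonneg.mpr hW.le)
          linarith [min_le_left s W]
        calc ENNReal.ofReal s *
            (ENNReal.ofReal (χ (s • e3) ^ 2) * ENNReal.ofReal (2 * min s W / W))
            ≤ ENNReal.ofReal s * (ENNReal.ofReal (χ (s • e3) ^ 2) *
              (ENNReal.ofReal W⁻¹ * ENNReal.ofReal (2 * s))) := by gcongr
          _ = ENNReal.ofReal W⁻¹ *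
        (ENNReal.ofReal s * (ENNReal.ofReal (χ (s • e3) ^ 2) * ENNReal.ofReal (2 * s))) := by
              ring
    _ = ENNReal.ofReal W⁻¹ * (ENNReal.ofReal (2 * Real.pi) * ∫⁻ s in Set.Ioi (0 : ℝ),
        ENNReal.ofReal s * (ENNReal.ofReal (χ (s • e3) ^ 2) * ENNReal.ofReal (2 * s))) := by
        rw [lintegral_const_mul _ hm]
        ring
    _ = ENNReal.ofReal W⁻¹ := by rw [mass_lint h, mul_one]

private theorem newt_lint_eq {χ : E3 → ℝ} (h : Bump χ) (W : ℝ) (hW : 1 / 2 ≤ W) :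
    ∫⁻ u : E3, ENNReal.ofReal (χ u ^ 2 * ‖W • e3 - u‖⁻¹) = ENNReal.ofReal W⁻¹ := by
  have hW0 : 0 < W := by linarith
  rw [newt_lint h W hW0]
  have hg := (chi_cont h).measurable
  have hm : Measurable fun s : ℝ => ENNReal.ofReal s *
        (ENNReal.ofReal (χ (s • e3) ^ 2) * ENNReal.ofReal (2 * s)) := by
    have h1 : Measurable fun s : ℝ => ENNReal.ofReal (χ (s • e3) ^ 2) :=
      ENNReal.measurable_ofReal.comp hg
    have h2 : Measurable fun s : ℝ => ENNReal.ofReal (2 * s) := by fun_prop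
    exact ENNReal.measurable_ofReal.mul (h1.mul h2)
  calc ENNReal.ofReal (2 * Real.pi) * ∫⁻ s in Set.Ioi (0 : ℝ), ENNReal.ofReal s *
        (ENNReal.ofReal (χ (s • e3) ^ 2) * ENNReal.ofReal (2 * min s W / W))
      = ENNReal.ofReal (2 * Real.pi) * ∫⁻ s in Set.Ioi (0 : ℝ), ENNReal.ofReal W⁻¹ *
        (ENNReal.ofReal s * (ENNReal.ofReal (χ (s • e3) ^ 2) * ENNReal.ofReal (2 * s))) := by
        congr 1
        refine setLIntegral_congr_fun measurableSet_Ioi fun s hs => ?_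
        have hs0 : 0 < s := hs
        show ENNReal.ofReal s *
            (ENNReal.ofReal (χ (s • e3) ^ 2) * ENNReal.ofReal (2 * min s W / W))
          = ENNReal.ofReal W⁻¹ *
        (ENNReal.ofReal s * (ENNReal.ofReal (χ (s • e3) ^ 2) * ENNReal.ofReal (2 * s)))
        by_cases hsW : s ≤ W
        · rw [min_eq_left hsW, div_eq_inv_mul, ENNReal.ofReal_mul (inv_nonneg.mpr hW0.le)]
          ring
        · have hz : χ (s • e3) = 0 := by
            by_contra hne
            have h2 := h.supp _ hne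
            rw [norm_smul, norm_e3, mul_one, Real.norm_eq_abs, abs_of_pos hs0] at h2
            linarith
          rw [hz]
          simp
    _ = ENNReal.ofReal W⁻¹ * (ENNReal.ofReal (2 * Real.pi) * ∫⁻ s in Set.Ioi (0 : ℝ),
        ENNReal.ofReal s * (ENNReal.ofReal (χ (s • e3) ^ 2) * ENNReal.ofReal (2 * s))) := by
        rw [lintegral_const_mul _ hm]
        ring
    _ = ENNReal.ofReal W⁻¹ := by rw [mass_lint h, mul_one]

private theorem U_rot {χ : E3 → ℝ} (h : Bump χ) (w : E3) : U χ w = U χ (‖w‖ • e3) := by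
  have hn : ‖w‖ = ‖‖w‖ • e3‖ := by rw [norm_smul, norm_e3, mul_one, norm_norm]
  obtain ⟨T, hT⟩ : ∃ T : E3 ≃ₗᵢ[ℝ] E3, T w = ‖w‖ • e3 :=
    ⟨_, Submodule.reflection_sub hn⟩
  have hmp := T.measurePreserving
  have h1 := hmp.integral_comp T.toMeasurableEquiv.measurableEmbedding
    (fun u : E3 => χ u ^ 2 * ‖‖w‖ • e3 - u‖⁻¹)
  unfold U
  rw [← h1]
  refine integral_congr_ae (Filter.Eventually.of_forall fun u => ?_)
  show χ u ^ 2 * ‖w - u‖⁻¹ = χ (T u) ^ 2 * ‖‖w‖ • e3 - T u‖⁻¹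
  rw [← hT, ← map_sub, T.norm_map, h.radial (T u) u (T.norm_map u)]

private theorem U_lint {χ : E3 → ℝ} (h : Bump χ) (W : ℝ) :
    U χ (W • e3) = (∫⁻ u : E3, ENNReal.ofReal (χ u ^ 2 * ‖W • e3 - u‖⁻¹)).toReal := by
  unfold U
  rw [integral_eq_lintegral_of_nonneg_ae]
  · exact Filter.Eventually.of_forall fun u => mul_nonneg (sq_nonneg _)
      (inv_nonneg.mpr (norm_nonneg _))
  · have h1 : Measurable fun u : E3 => χ u ^ 2 * ‖W • e3 - u‖⁻¹ :=
      (h.smooth.continuous.measurable.pow_const 2).mul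
        ((continuous_const.sub continuous_id).norm.measurable.inv)
    exact h1.aestronglyMeasurable

/-- the potential of a radial density outside its support -/
theorem newton_out {χ : E3 → ℝ} (h : Bump χ) (w : E3) (hw : 1 / 2 ≤ ‖w‖) :
    U χ w = ‖w‖⁻¹ := by
  rw [U_rot h w, U_lint h, newt_lint_eq h _ hw, ENNReal.toReal_ofReal
    (inv_nonneg.mpr (norm_nonneg _))]

theorem newton_le {χ : E3 → ℝ} (h : Bump χ) (w : E3) (hw : w ≠ 0) :
    U χ w ≤ ‖w‖⁻¹ := by
  rw [U_rot h w, U_lint h]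
  have h1 := newt_lint_le h ‖w‖ (norm_pos_iff.mpr hw)
  have h2 := ENNReal.toReal_mono ENNReal.ofReal_ne_top h1
  rwa [ENNReal.toReal_ofReal (inv_nonneg.mpr (norm_nonneg _))] at h2

end H6.CM
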