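import Pool.Agent.H6.CM.UBd
import Pool.Agent.H6.CM.Newton
import Pool.Agent.H6.CM.IntAll

/-! Comparison of the potential at a point with its average, and of `cnt` with `near` (almost everywhere, since `p.1 a ≠ x` and `p.2 j ≠ x` almost everywhere). -/

open MeasureTheory Finset

namespace H6.CM

private theorem ps_U_meas {χ : E3 → ℝ} (h : Bump χ) : Measurable (U χ) := by
  have h1 : Measurable (fun u : E3 × E3 => χ u.2 ^ 2 * ‖u.1 - u.2‖⁻¹) :=
    ((h.smooth.continuous.measurable.comp measurable_snd).pow_const 2).mul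
      ((measurable_fst.sub measurable_snd).norm.inv)
  exact h1.stronglyMeasurable.integral_prod_right'.measurable

private theorem ps_trans_int {χ : E3 → ℝ} (h : Bump χ) (x y : E3) :
    Integrable (fun v => χ (v - x) ^ 2 * ‖v - y‖⁻¹) := by
  have h1 := (U_intble h (y - x)).comp_sub_right x
  refine h1.congr (Filter.Eventually.of_forall fun v => ?_)
  simp only
  rw [sub_sub_sub_cancel_right, norm_sub_rev]

private theorem ps_sq {q n k : ℕ} {Λ : Set E3} {ψ : (Fin n → Fin q) → Cfg n k → ℂ}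
    (hψ : St q n k Λ ψ) (σ : Fin n → Fin q) :
    Continuous (fun p => ‖ψ σ p‖ ^ 2) ∧ HasCompactSupport (fun p => ‖ψ σ p‖ ^ 2) := by
  constructor
  · exact (hψ.smooth σ).continuous.norm.pow 2
  · exact (hψ.cpt σ).comp_left (g := fun z : ℂ => ‖z‖ ^ 2) (by simp)

private theorem ps_avg {χ : E3 → ℝ} (h : Bump χ) {ι κ : Type*} (s : Finset ι) (t : Finset κ)
    (z : ι → ℝ) (R : ι → E3) (y : κ → E3) (x : E3) :
    ∫ v, χ (v - x) ^ 2 * (∑ j ∈ s, z j * ‖v - R j‖⁻¹ - ∑ a ∈ t, ‖v - y a‖⁻¹) =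
      ∑ j ∈ s, z j * U χ (R j - x) - ∑ a ∈ t, U χ (y a - x) := by
  have h1 : (fun v => χ (v - x) ^ 2 * (∑ j ∈ s, z j * ‖v - R j‖⁻¹ - ∑ a ∈ t, ‖v - y a‖⁻¹)) =
      fun v => ∑ j ∈ s, z j * (χ (v - x) ^ 2 * ‖v - R j‖⁻¹) -
        ∑ a ∈ t, χ (v - x) ^ 2 * ‖v - y a‖⁻¹ := by
    funext v
    rw [mul_sub, mul_sum, mul_sum]
    congr 1
    exact sum_congr rfl fun j _ => by ring
  rw [h1, integral_sub, integral_finsetSum, integral_finsetSum]
  · congr 1
    · refine sum_congr rfl fun j _ => ?_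
      rw [integral_const_mul, U_trans h]
    · exact sum_congr rfl fun a _ => U_trans h _ _
  · exact fun a _ => ps_trans_int h _ _
  · exact fun j _ => (ps_trans_int h _ _).const_mul _
  · exact integrable_finsetSum _ fun j _ => (ps_trans_int h _ _).const_mul _
  · exact integrable_finsetSum _ fun a _ => ps_trans_int h _ _

private theorem ps_bdd {n k : ℕ} {h : Cfg n k → ℝ} (hc : Continuous h) (hs : HasCompactSupport h)
    {f : Cfg n k → ℝ} (hf : Measurable f) (C : ℝ) (hC : ∀ p, |f p| ≤ C) :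
    Integrable (fun p => f p * h p) := by
  have h1 : Integrable h := hc.integrable_of_hasCompactSupport hs
  exact h1.bdd_mul (c := C) hf.aestronglyMeasurable (Filter.Eventually.of_forall fun p => by
    rw [Real.norm_eq_abs]
    exact hC p)

private theorem ps_intU {n k : ℕ} {h : Cfg n k → ℝ} (hc : Continuous h)
    (hs : HasCompactSupport h) {χ : E3 → ℝ} (hχ : Bump χ) (L : Cfg n k → E3) (hL : Measurable L)
    (x : E3) : Integrable (fun p => U χ (L p - x) * h p) := by
  obtain ⟨C, hC, hb⟩ := U_bd hχ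
  exact ps_bdd hc hs ((ps_U_meas hχ).comp (hL.sub_const x)) C fun p => by
    rw [abs_of_nonneg (U_nonneg _ _)]
    exact hb _

private theorem ps_ind {n k : ℕ} {h : Cfg n k → ℝ} (L : Cfg n k → E3) (hL : Measurable L) (x : E3)
    (hi : Integrable (fun p => ‖x - L p‖⁻¹ * h p)) :
    Integrable (fun p => (if ‖x - L p‖ < 2 then ‖x - L p‖⁻¹ else 0) * h p) := by
  have h1 : MeasurableSet {p | ‖x - L p‖ < 2} :=
    measurableSet_lt (hL.const_sub x).norm measurable_const
  refine (hi.indicator h1).congr (Filter.Eventually.of_forall fun p => ?_)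
  simp only [Set.indicator_apply, Set.mem_ofPred_eq]
  split_ifs
  · rfl
  · rw [zero_mul]

private theorem ps_mE {n k : ℕ} (a : Fin n) : Measurable (fun p : Cfg n k => p.1 a) :=
  (measurable_pi_apply a).comp measurable_fst

private theorem ps_mN {n k : ℕ} (j : Fin k) : Measurable (fun p : Cfg n k => p.2 j) :=
  (measurable_pi_apply j).comp measurable_snd

private theorem ps_ae (n k : ℕ) (x : E3) :
    ∀ᵐ p : Cfg n k, (∀ a, p.1 a ≠ x) ∧ ∀ j, p.2 j ≠ x := by
  have h1 : ∀ m : ℕ, ∀ᵐ y : Fin m → E3, ∀ a, y a ≠ x := by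
    intro m
    rw [ae_all_iff]
    intro a
    rw [ae_iff]
    have h2 := Measure.pi_hyperplane (fun _ : Fin m => (volume : Measure E3)) a x
    rw [volume_pi]
    simpa using h2
  have h3 := (Measure.quasiMeasurePreserving_fst (μ := (volume : Measure (Fin n → E3)))
    (ν := (volume : Measure (Fin k → E3)))).ae (h1 n)
  have h4 := (Measure.quasiMeasurePreserving_snd (μ := (volume : Measure (Fin n → E3)))
    (ν := (volume : Measure (Fin k → E3)))).ae (h1 k)
  filter_upwards [h3, h4] with p hp hq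
  exact ⟨hp, hq⟩

/-- integrability needed for the linearity of the means -/
private theorem ps_int {q n k : ℕ} {Λ : Set E3} {ψ : (Fin n → Fin q) → Cfg n k → ℂ}
    (hψ : St q n k Λ ψ) (z : Fin k → ℝ) (σ : Fin n → Fin q) {χ : E3 → ℝ} (hχ : Bump χ) :
    Integrable (fun p => V z p * ‖ψ σ p‖ ^ 2) ∧
    (∀ a, Integrable (fun p => phiE z a p (p.1 a) * ‖ψ σ p‖ ^ 2)) ∧
    (∀ j, Integrable (fun p => phiN z j p (p.2 j) * ‖ψ σ p‖ ^ 2)) ∧
    (∀ x, Integrable (fun p => phi z p x * ‖ψ σ p‖ ^ 2)) ∧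
    (∀ x, Integrable (fun p => (∫ v, χ (v - x) ^ 2 * phi z p v) * ‖ψ σ p‖ ^ 2)) ∧
    (∀ x a, Integrable (fun p => (∫ v, χ (v - x) ^ 2 * phiE z a p v) * ‖ψ σ p‖ ^ 2)) ∧
    (∀ x j, Integrable (fun p => (∫ v, χ (v - x) ^ 2 * phiN z j p v) * ‖ψ σ p‖ ^ 2)) ∧
    (∀ x, Integrable (fun p => cnt p x * ‖ψ σ p‖ ^ 2)) ∧
    (∀ x, Integrable (fun p => near p x * ‖ψ σ p‖ ^ 2)) := by
  obtain ⟨hc, hs⟩ := ps_sq hψ σ
  set h : Cfg n k → ℝ := fun p => ‖ψ σ p‖ ^ 2 with hh
  have hUE := fun (x : E3) (a : Fin n) => ps_intU hc hs hχ _ (ps_mE (k := k) a) x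
  have hUN := fun (x : E3) (j : Fin k) => ps_intU hc hs hχ _ (ps_mN (n := n) j) x
  refine ⟨?_, ?_, ?_, ?_, ?_, ?_, ?_, ?_, ?_⟩
  · have h1 : Integrable (fun p : Cfg n k =>
        (2 : ℝ)⁻¹ * ∑ a, ∑ b, ‖p.1 a - p.1 b‖⁻¹ * h p - ∑ a, ∑ j, z j * (‖p.1 a - p.2 j‖⁻¹ * h p) +
        (2 : ℝ)⁻¹ * ∑ j, ∑ l, z j * z l * (‖p.2 j - p.2 l‖⁻¹ * h p)) := by
      refine Integrable.add (Integrable.sub ?_ ?_) ?_
      · exact (integrable_finsetSum _ fun a _ => integrable_finsetSum _ fun b _ =>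
          int_ee h hc hs a b).const_mul _
      · exact integrable_finsetSum _ fun a _ => integrable_finsetSum _ fun j _ =>
          (int_en h hc hs a j).const_mul _
      · exact (integrable_finsetSum _ fun j _ => integrable_finsetSum _ fun l _ =>
          (int_nn h hc hs j l).const_mul _).const_mul _
    refine h1.congr (Filter.Eventually.of_forall fun p => ?_)
    simp only [V]
    rw [add_mul, sub_mul, div_mul_eq_mul_div, div_mul_eq_mul_div, sum_mul, sum_mul, sum_mul,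
      div_eq_inv_mul, div_eq_inv_mul]
    congr 1
    · congr 1
      · congr 1
        exact sum_congr rfl fun a _ => by rw [sum_mul]
      · refine sum_congr rfl fun a _ => ?_
        rw [sum_mul]
        exact sum_congr rfl fun j _ => by ring
    · congr 1
      refine sum_congr rfl fun a _ => ?_
      rw [sum_mul]
      exact sum_congr rfl fun j _ => by ring
  · intro a
    have h1 : Integrable (fun p : Cfg n k => ∑ j, z j * (‖p.1 a - p.2 j‖⁻¹ * h p) -
        ∑ b ∈ univ.erase a, ‖p.1 a - p.1 b‖⁻¹ * h p) := by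
      refine Integrable.sub ?_ ?_
      · exact integrable_finsetSum _ fun j _ => (int_en h hc hs a j).const_mul _
      · exact integrable_finsetSum _ fun b _ => int_ee h hc hs a b
    refine h1.congr (Filter.Eventually.of_forall fun p => ?_)
    simp only [phiE]
    rw [sub_mul, sum_mul, sum_mul]
    congr 1
    exact sum_congr rfl fun j _ => by ring
  · intro j
    have h1 : Integrable (fun p : Cfg n k =>
        ∑ l ∈ univ.erase j, z l * (‖p.2 j - p.2 l‖⁻¹ * h p) -
        ∑ b, ‖p.1 b - p.2 j‖⁻¹ * h p) := by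
      refine Integrable.sub ?_ ?_
      · exact integrable_finsetSum _ fun l _ => (int_nn h hc hs j l).const_mul _
      · exact integrable_finsetSum _ fun b _ => int_en h hc hs b j
    refine h1.congr (Filter.Eventually.of_forall fun p => ?_)
    simp only [phiN]
    rw [sub_mul, sum_mul, sum_mul]
    congr 1
    · exact sum_congr rfl fun j _ => by ring
    · exact sum_congr rfl fun b _ => by rw [norm_sub_rev]
  · intro x
    have h1 : Integrable (fun p : Cfg n k => ∑ j, z j * (‖x - p.2 j‖⁻¹ * h p) -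
        ∑ b, ‖x - p.1 b‖⁻¹ * h p) := by
      refine Integrable.sub ?_ ?_
      · exact integrable_finsetSum _ fun j _ => (int_wn h hc hs x j).const_mul _
      · exact integrable_finsetSum _ fun b _ => int_we h hc hs x b
    refine h1.congr (Filter.Eventually.of_forall fun p => ?_)
    simp only [phi]
    rw [sub_mul, sum_mul, sum_mul]
    congr 1
    exact sum_congr rfl fun j _ => by ring
  · intro x
    have h1 : Integrable (fun p : Cfg n k => ∑ j, z j * (U χ (p.2 j - x) * h p) -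
        ∑ b, U χ (p.1 b - x) * h p) := by
      refine Integrable.sub ?_ ?_
      · exact integrable_finsetSum _ fun j _ => (hUN x j).const_mul _
      · exact integrable_finsetSum _ fun b _ => hUE x b
    refine h1.congr (Filter.Eventually.of_forall fun p => ?_)
    simp only [phi]
    rw [ps_avg hχ, sub_mul, sum_mul, sum_mul]
    congr 1
    exact sum_congr rfl fun j _ => by ring
  · intro x a
    have h1 : Integrable (fun p : Cfg n k => ∑ j, z j * (U χ (p.2 j - x) * h p) -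
        ∑ b ∈ univ.erase a, U χ (p.1 b - x) * h p) := by
      refine Integrable.sub ?_ ?_
      · exact integrable_finsetSum _ fun j _ => (hUN x j).const_mul _
      · exact integrable_finsetSum _ fun b _ => hUE x b
    refine h1.congr (Filter.Eventually.of_forall fun p => ?_)
    simp only [phiE]
    rw [ps_avg hχ, sub_mul, sum_mul, sum_mul]
    congr 1
    exact sum_congr rfl fun j _ => by ring
  · intro x j
    have h1 : Integrable (fun p : Cfg n k => ∑ l ∈ univ.erase j, z l * (U χ (p.2 l - x) * h p) -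
        ∑ b, U χ (p.1 b - x) * h p) := by
      refine Integrable.sub ?_ ?_
      · exact integrable_finsetSum _ fun j _ => (hUN x j).const_mul _
      · exact integrable_finsetSum _ fun b _ => hUE x b
    refine h1.congr (Filter.Eventually.of_forall fun p => ?_)
    simp only [phiN]
    rw [ps_avg hχ, sub_mul, sum_mul, sum_mul]
    congr 1
    exact sum_congr rfl fun j _ => by ring
  · intro x
    have h0 : ∀ (L : Cfg n k → E3), Measurable L →
        Measurable (fun p => if ‖x - L p‖ < 2 then (1 : ℝ) else 0) := by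
      intro L hL
      exact Measurable.ite (measurableSet_lt (hL.const_sub x).norm measurable_const)
        measurable_const measurable_const
    refine ps_bdd hc hs (f := fun p => cnt p x) ?_ (n + k) ?_
    · unfold cnt
      refine Measurable.add ?_ ?_
      · exact Finset.measurable_fun_sum _ fun a _ => h0 _ (ps_mE a)
      · exact Finset.measurable_fun_sum _ fun j _ => h0 _ (ps_mN j)
    · intro p
      unfold cnt
      have e1 : ∀ c : Prop, ∀ _ : Decidable c, (0 : ℝ) ≤ (if c then 1 else 0) ∧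
          (if c then (1 : ℝ) else 0) ≤ 1 := by
        intro c _
        split_ifs <;> norm_num
      rw [abs_of_nonneg (add_nonneg (sum_nonneg fun a _ => (e1 _ _).1)
        (sum_nonneg fun j _ => (e1 _ _).1))]
      refine add_le_add ?_ ?_
      · refine (sum_le_sum fun a _ => (e1 _ _).2).trans ?_
        simp
      · refine (sum_le_sum fun a _ => (e1 _ _).2).trans ?_
        simp
  · intro x
    have h1 : Integrable (fun p : Cfg n k =>
        ∑ a, (if ‖x - p.1 a‖ < 2 then ‖x - p.1 a‖⁻¹ else 0) * h p +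
        ∑ j, (if ‖x - p.2 j‖ < 2 then ‖x - p.2 j‖⁻¹ else 0) * h p) := by
      refine Integrable.add ?_ ?_
      · exact integrable_finsetSum _ fun a _ => ps_ind _ (ps_mE a) x (int_we h hc hs x a)
      · exact integrable_finsetSum _ fun j _ => ps_ind _ (ps_mN j) x (int_wn h hc hs x j)
    refine h1.congr (Filter.Eventually.of_forall fun p => ?_)
    simp only [near]
    rw [add_mul, sum_mul, sum_mul]

private theorem ps_term {χ : E3 → ℝ} (hχ : Bump χ) (x y : E3) (hy : y ≠ x) :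
    0 ≤ ‖x - y‖⁻¹ - U χ (y - x) ∧
      ‖x - y‖⁻¹ - U χ (y - x) ≤ (if ‖x - y‖ < 2 then ‖x - y‖⁻¹ else 0) := by
  have h1 := newton_le hχ (y - x) (sub_ne_zero.mpr hy)
  rw [norm_sub_rev] at h1
  refine ⟨by linarith, ?_⟩
  split_ifs with h
  · linarith [U_nonneg χ (y - x)]
  · rw [newton_out hχ (y - x) (by rw [norm_sub_rev]; linarith), norm_sub_rev y x]
    linarith

private theorem ps_point (zp : ℝ) {χ : E3 → ℝ} (hχ : Bump χ) {n k : ℕ} (z : Fin k → ℝ)
    (hz : ∀ j, 0 ≤ z j ∧ z j ≤ zp) (x : E3) (p : Cfg n k) (hE : ∀ a, p.1 a ≠ x)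
    (hN : ∀ j, p.2 j ≠ x) :
    |phi z p x - ∫ v, χ (v - x) ^ 2 * phi z p v| ≤ max zp 1 * near p x := by
  have h1 : phi z p x - ∫ v, χ (v - x) ^ 2 * phi z p v =
      ∑ j, z j * (‖x - p.2 j‖⁻¹ - U χ (p.2 j - x)) -
        ∑ a, (‖x - p.1 a‖⁻¹ - U χ (p.1 a - x)) := by
    simp only [phi]
    rw [ps_avg hχ, sum_sub_distrib]
    simp only [mul_sub, sum_sub_distrib]
    ring
  have h2 : ∀ j, 0 ≤ z j * (‖x - p.2 j‖⁻¹ - U χ (p.2 j - x)) ∧
      z j * (‖x - p.2 j‖⁻¹ - U χ (p.2 j - x)) ≤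
        max zp 1 * (if ‖x - p.2 j‖ < 2 then ‖x - p.2 j‖⁻¹ else 0) := by
    intro j
    obtain ⟨h3, h4⟩ := ps_term hχ x (p.2 j) (hN j)
    refine ⟨mul_nonneg (hz j).1 h3, ?_⟩
    exact mul_le_mul ((hz j).2.trans (le_max_left _ _)) h4 h3
      (zero_le_one.trans (le_max_right _ _))
  have h3 : ∀ a, 0 ≤ ‖x - p.1 a‖⁻¹ - U χ (p.1 a - x) ∧
      ‖x - p.1 a‖⁻¹ - U χ (p.1 a - x) ≤
        max zp 1 * (if ‖x - p.1 a‖ < 2 then ‖x - p.1 a‖⁻¹ else 0) := by
    intro a
    obtain ⟨h3, h4⟩ := ps_term hχ x (p.1 a) (hE a)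
    refine ⟨h3, h4.trans ?_⟩
    exact le_mul_of_one_le_left (h3.trans h4) (le_max_right _ _)
  rw [h1]
  have h4 := sum_nonneg fun j (_ : j ∈ univ) => (h2 j).1
  have h5 := sum_le_sum fun j (_ : j ∈ univ) => (h2 j).2
  have h6 := sum_nonneg fun a (_ : a ∈ univ) => (h3 a).1
  have h7 := sum_le_sum fun a (_ : a ∈ univ) => (h3 a).2
  rw [← mul_sum] at h5 h7
  unfold near
  rw [mul_add, abs_le]
  constructor <;> linarith

theorem phiS_mean (zp : ℝ) {χ : E3 → ℝ} (hχ : Bump χ) : ∃ C : ℝ, 0 ≤ C ∧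
    ∀ (q n k : ℕ) (Λ : Set E3) (z : Fin k → ℝ) (_ : ∀ j, 0 ≤ z j ∧ z j ≤ zp)
    (ψ : (Fin n → Fin q) → Cfg n k → ℂ) (_ : St q n k Λ ψ) (x : E3),
    |mean ψ (fun p => phi z p x) - mean ψ (fun p => ∫ v, χ (v - x) ^ 2 * phi z p v)| ≤
      C * mean ψ (fun p => near p x) := by
  refine ⟨max zp 1, zero_le_one.trans (le_max_right _ _), ?_⟩
  intro q n k Λ z hz ψ hψ x
  unfold mean
  rw [← sum_sub_distrib, mul_sum]
  refine (abs_sum_le_sum_abs _ _).trans (sum_le_sum fun σ _ => ?_)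
  obtain ⟨-, -, -, i1, i2, -, -, -, i3⟩ := ps_int hψ z σ hχ
  rw [← integral_sub (i1 x) (i2 x), ← integral_const_mul]
  refine abs_integral_le_integral_abs.trans ?_
  refine integral_mono_ae ((i1 x).sub (i2 x)).abs ((i3 x).const_mul _) ?_
  filter_upwards [ps_ae n k x] with p hp
  rw [← sub_mul, abs_mul, abs_of_nonneg (sq_nonneg ‖ψ σ p‖), ← mul_assoc]
  exact mul_le_mul_of_nonneg_right (ps_point zp hχ z hz x p hp.1 hp.2) (sq_nonneg _)

theorem cnt_near {q n k : ℕ} {Λ : Set E3} {ψ : (Fin n → Fin q) → Cfg n k → ℂ}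
    (hψ : St q n k Λ ψ) (x : E3) :
    mean ψ (fun p => cnt p x) ≤ 2 * mean ψ (fun p => near p x) := by
  obtain ⟨χ, hχ⟩ := bump_ex
  unfold mean
  rw [mul_sum]
  refine sum_le_sum fun σ _ => ?_
  obtain ⟨-, -, -, -, -, -, -, i1, i2⟩ := ps_int hψ 0 σ hχ
  rw [← integral_const_mul]
  refine integral_mono_ae (i1 x) ((i2 x).const_mul _) ?_
  filter_upwards [ps_ae n k x] with p hp
  rw [← mul_assoc]
  refine mul_le_mul_of_nonneg_right ?_ (sq_nonneg _)
  have h1 : ∀ y : E3, y ≠ x → (if ‖x - y‖ < 2 then (1 : ℝ) else 0) ≤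
      2 * (if ‖x - y‖ < 2 then ‖x - y‖⁻¹ else 0) := by
    intro y hy
    split_ifs with h
    · have h2 : 0 < ‖x - y‖ := norm_pos_iff.mpr (sub_ne_zero.mpr (Ne.symm hy))
      rw [← div_eq_mul_inv, le_div_iff₀ h2]
      linarith
    · simp
  unfold cnt near
  rw [mul_add, mul_sum, mul_sum]
  exact add_le_add (sum_le_sum fun a _ => h1 _ (hp.1 a)) (sum_le_sum fun j _ => h1 _ (hp.2 j))

/-- integrability needed for the linearity of the means -/
theorem int_mean {q n k : ℕ} {Λ : Set E3} {ψ : (Fin n → Fin q) → Cfg n k → ℂ}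
    (hψ : St q n k Λ ψ) (z : Fin k → ℝ) (σ : Fin n → Fin q) {χ : E3 → ℝ} (hχ : Bump χ) :
    Integrable (fun p => V z p * ‖ψ σ p‖ ^ 2) ∧
    (∀ a, Integrable (fun p => phiE z a p (p.1 a) * ‖ψ σ p‖ ^ 2)) ∧
    (∀ j, Integrable (fun p => phiN z j p (p.2 j) * ‖ψ σ p‖ ^ 2)) ∧
    (∀ x, Integrable (fun p => phi z p x * ‖ψ σ p‖ ^ 2)) ∧
    (∀ x, Integrable (fun p => (∫ v, χ (v - x) ^ 2 * phi z p v) * ‖ψ σ p‖ ^ 2)) ∧
    (∀ x a, Integrable (fun p => (∫ v, χ (v - x) ^ 2 * phiE z a p v) * ‖ψ σ p‖ ^ 2)) ∧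
    (∀ x j, Integrable (fun p => (∫ v, χ (v - x) ^ 2 * phiN z j p v) * ‖ψ σ p‖ ^ 2)) ∧
    (∀ x, Integrable (fun p => cnt p x * ‖ψ σ p‖ ^ 2)) ∧
    (∀ x, Integrable (fun p => near p x * ‖ψ σ p‖ ^ 2)) := by
  exact ps_int hψ z σ hχ

end H6.CM
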