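import Pool.Agent.H6.CM.NucSt
import Pool.Agent.H6.CM.ExchN
import Pool.Agent.H6.CM.Grad
import Pool.Agent.H6.CM.GCont
import Pool.Agent.H6.CM.Alg
import Pool.Agent.H6.CM.IntAll
import Pool.Agent.H6.CM.PhiS

/-! Relocation of a nucleus. For every `ξ` the trial function of `nuc_st` satisfies `E * mass ≤ energy`; integrate over `ξ` with the exchange formula `exchN`: `mass` becomes `mass ψ`, the kinetic energies of the other particles are unchanged (`gn_triN_ne`, `ge_triN`), that of nucleus `j` becomes `(∫ gr χ) * mass ψ` (`gn_triN_self`), the Coulomb energy becomes the mean of `∫ v, χ (v - y) ^ 2 * V z (p.1, update p.2 j v)`, see `V_updN`. -/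

open MeasureTheory Finset

namespace H6.CM

/-- the exchange functional -/
noncomputable def nucI {q n k : ℕ} (j : Fin k)
    (H : E3 → (Fin n → Fin q) → Cfg n k → ℝ) (ξ : E3) : ℝ :=
  ∑ σ : Fin n → Fin q, ∫ p : Cfg n k, H (p.2 j) σ (p.1, Function.update p.2 j ξ)

/-- the exchanged functional -/
noncomputable def nucJ {q n k : ℕ} (H : E3 → (Fin n → Fin q) → Cfg n k → ℝ) : ℝ :=
  ∑ σ, ∫ p, ∫ v, H v σ p

/-- the trial function -/
noncomputable def nucT {q n k : ℕ} (χ : E3 → ℝ) (j : Fin k) (y ξ : E3)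
    (ψ : (Fin n → Fin q) → Cfg n k → ℂ) : (Fin n → Fin q) → Cfg n k → ℂ :=
  fun σ p => ((χ (p.2 j - y) : ℝ) : ℂ) * ψ σ (p.1, Function.update p.2 j ξ)

section

variable {q n k : ℕ} {Λ : Set E3} {z κ : Fin k → ℝ}
  {ψ : (Fin n → Fin q) → Cfg n k → ℂ} (hψ : St q n k Λ ψ) {χ : E3 → ℝ} (hχ : Bump χ)
  (j : Fin k) (y ξ : E3)

theorem nuc_mass : mass (nucT χ j y ξ ψ) =
    nucI j (fun v σ (p : Cfg n k) => χ (v - y) ^ 2 * ‖ψ σ p‖ ^ 2) ξ := by
  unfold mass nucI
  refine sum_congr rfl fun σ _ => ?_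
  congr 1
  funext p
  unfold nucT
  rw [norm_mul, mul_pow, Complex.norm_real, Real.norm_eq_abs, sq_abs]

include hψ in
theorem nuc_kE (b : Fin n) : kE (nucT χ j y ξ ψ) b =
    nucI j (fun v σ (p : Cfg n k) => χ (v - y) ^ 2 * ge (ψ σ) b p) ξ := by
  unfold kE nucI
  refine sum_congr rfl fun σ _ => ?_
  congr 1
  funext p
  exact ge_triN (ψ σ) ((hψ.smooth σ).differentiable (by simp)) (fun v => χ (v - y)) j b ξ p

include hψ in
theorem nuc_kN_ne (l : Fin k) (hl : l ≠ j) : kN (nucT χ j y ξ ψ) l =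
    nucI j (fun v σ (p : Cfg n k) => χ (v - y) ^ 2 * gn (ψ σ) l p) ξ := by
  unfold kN nucI
  refine sum_congr rfl fun σ _ => ?_
  congr 1
  funext p
  exact gn_triN_ne (ψ σ) ((hψ.smooth σ).differentiable (by simp)) (fun v => χ (v - y)) j l hl ξ p

include hχ in
theorem nuc_h_smooth : ContDiff ℝ (⊤ : ℕ∞) (fun v => χ (v - y)) :=
  hχ.smooth.comp (contDiff_id.sub contDiff_const)

include hχ in
theorem nuc_h_cpt : HasCompactSupport (fun v => χ (v - y)) := by
  refine HasCompactSupport.intro (isCompact_closedBall y (1 / 2)) ?_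
  intro v hv
  by_contra h
  apply hv
  rw [mem_closedBall_iff_norm]
  exact (hχ.supp _ h).le

include hχ in
theorem nuc_kN_self : kN (nucT χ j y ξ ψ) j =
    nucI j (fun v σ (p : Cfg n k) => gr (fun v => χ (v - y)) v * ‖ψ σ p‖ ^ 2) ξ := by
  unfold kN nucI
  refine sum_congr rfl fun σ _ => ?_
  congr 1
  funext p
  exact gn_triN_self (ψ σ) (fun v => χ (v - y))
    ((nuc_h_smooth hχ y).differentiable (by simp)) j ξ p

theorem nuc_V : mean (nucT χ j y ξ ψ) (V z) =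
    nucI j (fun v σ (p : Cfg n k) => V z (p.1, Function.update p.2 j v) *
      (χ (v - y) ^ 2 * ‖ψ σ p‖ ^ 2)) ξ := by
  unfold mean nucI
  refine sum_congr rfl fun σ _ => ?_
  congr 1
  funext p
  unfold nucT
  rw [norm_mul, mul_pow, Complex.norm_real, Real.norm_eq_abs, sq_abs]
  simp only [Function.update_idem, Function.update_eq_self]

include hχ in
theorem nuc_h_int : Integrable (fun v => χ (v - y) ^ 2) := by
  have h1 : Continuous (fun v => χ (v - y) ^ 2) := (nuc_h_smooth hχ y).continuous.pow 2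
  refine h1.integrable_of_hasCompactSupport ?_
  have h3 : (fun v => χ (v - y) ^ 2) =
      fun v => (fun x : ℝ => x ^ 2) ((fun v => χ (v - y)) v) := rfl
  rw [h3]
  exact (nuc_h_cpt hχ y).comp_left (g := fun x : ℝ => x ^ 2) (by simp)

include hχ in
theorem nuc_gr_int : Integrable (gr (fun v => χ (v - y))) := by
  have hd : Continuous (fderiv ℝ (fun v => χ (v - y))) :=
    (nuc_h_smooth hχ y).continuous_fderiv (by simp)
  have h1 : Continuous (gr (fun v => χ (v - y))) := by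
    unfold gr
    refine continuous_finsetSum _ fun d _ => ?_
    exact (hd.clm_apply continuous_const).pow 2
  refine h1.integrable_of_hasCompactSupport ?_
  have h2 : HasCompactSupport (fderiv ℝ (fun v => χ (v - y))) :=
    (nuc_h_cpt hχ y).fderiv (𝕜 := ℝ)
  refine h2.mono' ?_
  intro v hv
  apply subset_tsupport
  rw [Function.mem_support] at hv ⊢
  intro h0
  apply hv
  unfold gr
  rw [h0]
  simp

include hψ in
theorem nuc_F_int (σ : Fin n → Fin q) : Integrable (fun p => ‖ψ σ p‖ ^ 2) := by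
  have h1 : Continuous (fun p => ‖ψ σ p‖ ^ 2) := (hψ.smooth σ).continuous.norm.pow 2
  refine h1.integrable_of_hasCompactSupport ?_
  exact (hψ.cpt σ).comp_left (g := fun x : ℂ => ‖x‖ ^ 2) (by simp)

include hψ in
theorem nuc_ge_int (σ : Fin n → Fin q) (b : Fin n) : Integrable (fun p => ge (ψ σ) b p) := by
  have hc1 : ContDiff ℝ 1 (ψ σ) := (hψ.smooth σ).of_le (by exact_mod_cast le_top)
  exact (ge_cont _ hc1 b).integrable_of_hasCompactSupport (ge_cpt _ hc1 (hψ.cpt σ) b)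

include hψ in
theorem nuc_gn_int (σ : Fin n → Fin q) (l : Fin k) : Integrable (fun p => gn (ψ σ) l p) := by
  have hc1 : ContDiff ℝ 1 (ψ σ) := (hψ.smooth σ).of_le (by exact_mod_cast le_top)
  exact (gn_cont _ hc1 l).integrable_of_hasCompactSupport (gn_cpt _ hc1 (hψ.cpt σ) l)

theorem nuc_prod {f : Cfg n k → ℝ} {g : E3 → ℝ} (hf : Integrable f) (hg : Integrable g) :
    Integrable (fun u : Cfg n k × E3 => g u.2 * f u.1) := by
  have h1 : Integrable (fun u : Cfg n k × E3 => f u.1 * g u.2) := hf.mul_prod hg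
  refine h1.congr (Filter.Eventually.of_forall fun u => ?_)
  exact mul_comm _ _

include hψ hχ in
theorem nuc_g_ok (σ : Fin n → Fin q) :
    Continuous (fun u : Cfg n k × E3 => χ (u.2 - y) ^ 2 * ‖ψ σ u.1‖ ^ 2) ∧
    HasCompactSupport (fun u : Cfg n k × E3 => χ (u.2 - y) ^ 2 * ‖ψ σ u.1‖ ^ 2) := by
  constructor
  · have h1 : Continuous (fun v => χ (v - y)) := (nuc_h_smooth hχ y).continuous
    have h2 : Continuous (ψ σ) := (hψ.smooth σ).continuous
    exact ((h1.comp continuous_snd).pow 2).mul ((h2.comp continuous_fst).norm.pow 2)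
  · refine HasCompactSupport.intro ((hψ.cpt σ).isCompact.prod (nuc_h_cpt hχ y).isCompact) ?_
    intro u hu
    rw [Set.mem_prod, not_and_or] at hu
    rcases hu with hu | hu
    · have h3 : ψ σ u.1 = 0 := image_eq_zero_of_notMem_tsupport hu
      rw [h3]
      simp
    · have h4 : χ (u.2 - y) = 0 :=
        image_eq_zero_of_notMem_tsupport (f := fun v => χ (v - y)) hu
      rw [h4]
      simp

include hψ hχ in
theorem nuc_phi_int (σ : Fin n → Fin q) : Integrable (fun u : Cfg n k × E3 =>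
    phiN z j u.1 u.2 * (χ (u.2 - y) ^ 2 * ‖ψ σ u.1‖ ^ 2)) := by
  obtain ⟨hc, hk⟩ := nuc_g_ok hψ hχ y σ
  obtain ⟨g, hg⟩ : ∃ g : Cfg n k × E3 → ℝ,
    g = fun u => χ (u.2 - y) ^ 2 * ‖ψ σ u.1‖ ^ 2 := ⟨_, rfl⟩
  rw [← hg] at hc hk
  have h1 : ∀ u : Cfg n k × E3, phiN z j u.1 u.2 *
      (χ (u.2 - y) ^ 2 * ‖ψ σ u.1‖ ^ 2) =
      ∑ l ∈ univ.erase j, z l * (‖u.2 - u.1.2 l‖⁻¹ * g u) -
        ∑ a, ‖u.2 - u.1.1 a‖⁻¹ * g u := by
    intro u
    rw [hg]
    unfold phiN
    rw [sub_mul, sum_mul, sum_mul]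
    simp only [mul_assoc]
  simp only [h1]
  refine Integrable.sub ?_ ?_
  · exact integrable_finsetSum _ fun l _ => (int_pn g hc hk l).const_mul (z l)
  · exact integrable_finsetSum _ fun b _ => int_pe g hc hk b

end

/-- integration of an inequality between exchange functionals -/
theorem nuc_sum {q n k : ℕ} (j : Fin k) (E c : ℝ) (κ : Fin k → ℝ)
    (H1 H3 H5 : E3 → (Fin n → Fin q) → Cfg n k → ℝ)
    (H2 : Fin n → E3 → (Fin n → Fin q) → Cfg n k → ℝ)
    (H4 : Fin k → E3 → (Fin n → Fin q) → Cfg n k → ℝ)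
    (h1 : ∀ σ, Integrable (fun u : Cfg n k × E3 => H1 u.2 σ u.1))
    (h2 : ∀ b σ, Integrable (fun u : Cfg n k × E3 => H2 b u.2 σ u.1))
    (h3 : ∀ σ, Integrable (fun u : Cfg n k × E3 => H3 u.2 σ u.1))
    (h4 : ∀ l σ, Integrable (fun u : Cfg n k × E3 => H4 l u.2 σ u.1))
    (h5 : ∀ σ, Integrable (fun u : Cfg n k × E3 => H5 u.2 σ u.1))
    (hle : ∀ ξ, E * nucI j H1 ξ ≤ ∑ b, nucI j (H2 b) ξ +
      (∑ l ∈ univ.erase j, κ l * nucI j (H4 l) ξ + c * nucI j H3 ξ) + nucI j H5 ξ) :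
    E * nucJ H1 ≤ ∑ b, nucJ (H2 b) +
      (∑ l ∈ univ.erase j, κ l * nucJ (H4 l) + c * nucJ H3) + nucJ H5 := by
  obtain ⟨i1, e1⟩ := exchN j H1 h1
  obtain ⟨i3, e3⟩ := exchN j H3 h3
  obtain ⟨i5, e5⟩ := exchN j H5 h5
  have i2 := fun b => (exchN j (H2 b) (h2 b)).1
  have e2 := fun b => (exchN j (H2 b) (h2 b)).2
  have i4 := fun l => (exchN j (H4 l) (h4 l)).1
  have e4 := fun l => (exchN j (H4 l) (h4 l)).2
  have j1 : Integrable (fun ξ => nucI j H1 ξ) := i1
  have j2 : ∀ b, Integrable (fun ξ => nucI j (H2 b) ξ) := fun b => i2 b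
  have j3 : Integrable (fun ξ => nucI j H3 ξ) := i3
  have j4 : ∀ l, Integrable (fun ξ => nucI j (H4 l) ξ) := fun l => i4 l
  have j5 : Integrable (fun ξ => nucI j H5 ξ) := i5
  have k2 : Integrable (fun ξ => ∑ b, nucI j (H2 b) ξ) := integrable_finsetSum _ fun b _ => j2 b
  have k4 : Integrable (fun ξ => ∑ l ∈ univ.erase j, κ l * nucI j (H4 l) ξ) :=
    integrable_finsetSum _ fun l _ => (j4 l).const_mul (κ l)
  have k43 : Integrable (fun ξ => ∑ l ∈ univ.erase j, κ l * nucI j (H4 l) ξ +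
    c * nucI j H3 ξ) := k4.add (j3.const_mul c)
  have k243 : Integrable (fun ξ => ∑ b, nucI j (H2 b) ξ +
    (∑ l ∈ univ.erase j, κ l * nucI j (H4 l) ξ + c * nucI j H3 ξ)) := k2.add k43
  have k2435 : Integrable (fun ξ => ∑ b, nucI j (H2 b) ξ +
    (∑ l ∈ univ.erase j, κ l * nucI j (H4 l) ξ + c * nucI j H3 ξ) + nucI j H5 ξ) :=
    k243.add j5
  have key : E * (∫ ξ, nucI j H1 ξ) ≤ ∑ b, (∫ ξ, nucI j (H2 b) ξ) +
      (∑ l ∈ univ.erase j, κ l * (∫ ξ, nucI j (H4 l) ξ) + c * (∫ ξ, nucI j H3 ξ)) +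
      (∫ ξ, nucI j H5 ξ) := by
    calc E * (∫ ξ, nucI j H1 ξ) = ∫ ξ, E * nucI j H1 ξ := (integral_const_mul _ _).symm
      _ ≤ ∫ ξ, (∑ b, nucI j (H2 b) ξ +
          (∑ l ∈ univ.erase j, κ l * nucI j (H4 l) ξ + c * nucI j H3 ξ) + nucI j H5 ξ) :=
        integral_mono (j1.const_mul E) k2435 hle
      _ = _ := by
        rw [integral_add k243 j5, integral_add k2 k43,
          integral_add k4 (j3.const_mul c), integral_finsetSum _ (fun b _ => j2 b),
          integral_finsetSum _ (fun l _ => (j4 l).const_mul (κ l))]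
        simp only [integral_const_mul]
  have f1 : (∫ ξ, nucI j H1 ξ) = nucJ H1 := e1
  have f3 : (∫ ξ, nucI j H3 ξ) = nucJ H3 := e3
  have f5 : (∫ ξ, nucI j H5 ξ) = nucJ H5 := e5
  have f2 : ∀ b, (∫ ξ, nucI j (H2 b) ξ) = nucJ (H2 b) := fun b => e2 b
  have f4 : ∀ l, (∫ ξ, nucI j (H4 l) ξ) = nucJ (H4 l) := fun l => e4 l
  rw [f1, f3, f5] at key
  simp only [f2, f4] at key
  exact key

theorem nuc {q n k : ℕ} {Λ : Set E3} {z κ : Fin k → ℝ} {E : ℝ} (hE : LB q n k Λ z κ E)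
    {ψ : (Fin n → Fin q) → Cfg n k → ℂ} (hψ : St q n k Λ ψ) {χ : E3 → ℝ} (hχ : Bump χ)
    (j : Fin k) (y : E3) (hy : Metric.closedBall y 1 ⊆ Λ) :
    E * mass ψ ≤ energy z κ ψ - κ j * kN ψ j - z j * mean ψ (fun p => phiN z j p (p.2 j)) +
      κ j * (∫ v, gr χ v) * mass ψ +
      z j * mean ψ (fun p => ∫ v, χ (v - y) ^ 2 * phiN z j p v) := by
  have hh1 : ∫ v, χ (v - y) ^ 2 = 1 := by
    rw [integral_sub_right_eq_self (fun v => χ v ^ 2) y]
    exact hχ.norm
  have hhg : ∫ v, gr (fun v => χ (v - y)) v = ∫ v, gr χ v := by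
    have h1 : ∀ v, gr (fun v => χ (v - y)) v = gr χ (v - y) := by
      intro v
      unfold gr
      simp only [sub_eq_add_neg]
      rw [fderiv_comp_add_right]
    simp only [h1]
    rw [integral_sub_right_eq_self (fun v => gr χ v) y]
  have hhi := nuc_h_int hχ y
  have hgi := nuc_gr_int hχ y
  have hFi := nuc_F_int hψ
  have hVa : ∀ σ, Integrable (fun p => (V z p - z j * phiN z j p (p.2 j)) * ‖ψ σ p‖ ^ 2) := by
    intro σ
    have h1 := (int_mean hψ z σ hχ).1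
    have h2 := (int_mean hψ z σ hχ).2.2.1 j
    refine (h1.sub (h2.const_mul (z j))).congr (Filter.Eventually.of_forall fun p => ?_)
    change V z p * ‖ψ σ p‖ ^ 2 - z j * (phiN z j p (p.2 j) * ‖ψ σ p‖ ^ 2) = _
    ring
  have hph := nuc_phi_int (z := z) hψ hχ j y
  have hVeq : ∀ σ (p : Cfg n k) v, V z (p.1, Function.update p.2 j v) *
      (χ (v - y) ^ 2 * ‖ψ σ p‖ ^ 2) =
      χ (v - y) ^ 2 * ((V z p - z j * phiN z j p (p.2 j)) * ‖ψ σ p‖ ^ 2) +
      z j * (phiN z j p v * (χ (v - y) ^ 2 * ‖ψ σ p‖ ^ 2)) := by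
    intro σ p v
    rw [V_updN]
    ring
  have hVi : ∀ σ, Integrable (fun u : Cfg n k × E3 => V z (u.1.1, Function.update u.1.2 j u.2) *
      (χ (u.2 - y) ^ 2 * ‖ψ σ u.1‖ ^ 2)) := by
    intro σ
    refine ((nuc_prod (hVa σ) hhi).add ((hph σ).const_mul (z j))).congr
      (Filter.Eventually.of_forall fun u => ?_)
    exact (hVeq σ u.1 u.2).symm
  have main := nuc_sum j E (κ j) κ
    (fun v σ p => χ (v - y) ^ 2 * ‖ψ σ p‖ ^ 2)
    (fun v σ p => gr (fun v => χ (v - y)) v * ‖ψ σ p‖ ^ 2)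
    (fun v σ (p : Cfg n k) => V z (p.1, Function.update p.2 j v) *
      (χ (v - y) ^ 2 * ‖ψ σ p‖ ^ 2))
    (fun b v σ p => χ (v - y) ^ 2 * ge (ψ σ) b p)
    (fun l v σ p => χ (v - y) ^ 2 * gn (ψ σ) l p)
    (fun σ => nuc_prod (hFi σ) hhi)
    (fun b σ => nuc_prod (nuc_ge_int hψ σ b) hhi)
    (fun σ => nuc_prod (hFi σ) hgi)
    (fun l σ => nuc_prod (nuc_gn_int hψ σ l) hhi)
    hVi
    (by
      intro ξ
      have h1 := hE _ (nuc_st hψ hχ j y ξ hy)
      change E * mass (nucT χ j y ξ ψ) ≤ energy z κ (nucT χ j y ξ ψ) at h1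
      unfold energy at h1
      have h2 : ∑ b, kE (nucT χ j y ξ ψ) b = ∑ b,
          nucI j (fun v σ (p : Cfg n k) => χ (v - y) ^ 2 * ge (ψ σ) b p) ξ :=
        sum_congr rfl fun b _ => nuc_kE hψ j y ξ b
      have h3 : ∑ l ∈ univ.erase j, κ l * kN (nucT χ j y ξ ψ) l = ∑ l ∈ univ.erase j, κ l *
          nucI j (fun v σ (p : Cfg n k) => χ (v - y) ^ 2 * gn (ψ σ) l p) ξ :=
        sum_congr rfl fun l hl => by rw [nuc_kN_ne hψ j y ξ l (ne_of_mem_erase hl)]
      rw [nuc_mass j y ξ, ← Finset.sum_erase_add _ _ (mem_univ j),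
        nuc_kN_self hχ j y ξ, nuc_V j y ξ, h2, h3] at h1
      exact h1)
  have g1 : nucJ (fun v σ (p : Cfg n k) => χ (v - y) ^ 2 * ‖ψ σ p‖ ^ 2) = mass ψ := by
    unfold nucJ mass
    refine sum_congr rfl fun σ _ => ?_
    congr 1
    funext p
    rw [integral_mul_const, hh1, one_mul]
  have g2 : ∀ b, nucJ (fun v σ (p : Cfg n k) => χ (v - y) ^ 2 * ge (ψ σ) b p) = kE ψ b := by
    intro b
    unfold nucJ kE
    refine sum_congr rfl fun σ _ => ?_
    congr 1
    funext p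
    rw [integral_mul_const, hh1, one_mul]
  have g4 : ∀ l, nucJ (fun v σ (p : Cfg n k) => χ (v - y) ^ 2 * gn (ψ σ) l p) = kN ψ l := by
    intro l
    unfold nucJ kN
    refine sum_congr rfl fun σ _ => ?_
    congr 1
    funext p
    rw [integral_mul_const, hh1, one_mul]
  have g3 : nucJ (fun v σ (p : Cfg n k) => gr (fun v => χ (v - y)) v *
      ‖ψ σ p‖ ^ 2) = (∫ v, gr χ v) * mass ψ := by
    unfold nucJ mass
    rw [mul_sum]
    refine sum_congr rfl fun σ _ => ?_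
    rw [← integral_const_mul]
    congr 1
    funext p
    rw [integral_mul_const, hhg]
  have g5 : nucJ (fun v σ (p : Cfg n k) => V z (p.1, Function.update p.2 j v) *
      (χ (v - y) ^ 2 * ‖ψ σ p‖ ^ 2)) =
      mean ψ (V z) - z j * mean ψ (fun p => phiN z j p (p.2 j)) +
      z j * mean ψ (fun p => ∫ v, χ (v - y) ^ 2 * phiN z j p v) := by
    unfold nucJ mean
    rw [mul_sum, mul_sum, ← sum_sub_distrib, ← sum_add_distrib]
    refine sum_congr rfl fun σ _ => ?_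
    have hA : Integrable (fun p : Cfg n k =>
        ∫ v, χ (v - y) ^ 2 * ((V z p - z j * phiN z j p (p.2 j)) * ‖ψ σ p‖ ^ 2)) :=
      (nuc_prod (hVa σ) hhi).integral_prod_left
    have hB : Integrable (fun p : Cfg n k =>
        ∫ v, z j * (phiN z j p v * (χ (v - y) ^ 2 * ‖ψ σ p‖ ^ 2))) :=
      ((hph σ).const_mul (z j)).integral_prod_left
    have hsl : ∀ᵐ p : Cfg n k, Integrable (fun v => z j * (phiN z j p v *
        (χ (v - y) ^ 2 * ‖ψ σ p‖ ^ 2))) := ((hph σ).const_mul (z j)).prod_right_ae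
    have h1 : ∫ p : Cfg n k, ∫ v, V z (p.1, Function.update p.2 j v) *
        (χ (v - y) ^ 2 * ‖ψ σ p‖ ^ 2) =
        ∫ p : Cfg n k, ((∫ v, χ (v - y) ^ 2 *
          ((V z p - z j * phiN z j p (p.2 j)) * ‖ψ σ p‖ ^ 2)) +
          ∫ v, z j * (phiN z j p v * (χ (v - y) ^ 2 * ‖ψ σ p‖ ^ 2))) := by
      refine integral_congr_ae ?_
      filter_upwards [hsl] with p hp
      rw [← integral_add (hhi.mul_const _) hp]
      refine integral_congr_ae (Filter.Eventually.of_forall fun v => ?_)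
      exact hVeq σ p v
    have hV1 := (int_mean hψ z σ hχ).1
    have hV2 := (int_mean hψ z σ hχ).2.2.1 j
    rw [h1, integral_add hA hB]
    congr 1
    · rw [← integral_const_mul, ← integral_sub hV1 (hV2.const_mul (z j))]
      congr 1
      funext p
      rw [integral_mul_const, hh1, one_mul]
      ring
    · rw [← integral_const_mul]
      congr 1
      funext p
      have h2 : ∀ v, z j * (phiN z j p v * (χ (v - y) ^ 2 * ‖ψ σ p‖ ^ 2)) =
          z j * (χ (v - y) ^ 2 * phiN z j p v * ‖ψ σ p‖ ^ 2) := fun v => by ring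
      simp only [h2]
      rw [integral_const_mul, integral_mul_const]
  rw [g1, g3, g5, sum_congr rfl (fun b (_ : b ∈ (univ : Finset (Fin n))) => g2 b),
    sum_congr rfl (fun l (_ : l ∈ univ.erase j) => by rw [g4 l])] at main
  have hen : energy z κ ψ = ∑ b, kE ψ b + (∑ l ∈ univ.erase j, κ l * kN ψ l +
      κ j * kN ψ j) + mean ψ (V z) := by
    unfold energy
    rw [Finset.sum_erase_add _ _ (mem_univ j)]
  rw [hen]
  linarith

end H6.CM
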