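import Pool.Agent.H6.CM.UBd

/-! The rescaled bump. -/

open MeasureTheory Finset

namespace H6.CM

variable {χ : E3 → ℝ} (h : Bump χ) (r : ℝ) (hr : 0 < r)

private theorem chr_int_smul (r : ℝ) (hr : 0 < r) (f : E3 → ℝ) :
    ∫ v, f (r⁻¹ • v) = r ^ 3 * ∫ v, f v := by
  rw [Measure.integral_comp_inv_smul_of_nonneg _ _ hr.le, finrank_euclideanSpace_fin, smul_eq_mul]

private theorem chr_sq (r : ℝ) (hr : 0 < r) : (r ^ (-(3 / 2) : ℝ)) ^ 2 = (r ^ 3)⁻¹ := by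
  rw [← Real.rpow_natCast, ← Real.rpow_mul hr.le]
  have : (-(3 / 2) : ℝ) * ((2 : ℕ) : ℝ) = -((3 : ℕ) : ℝ) := by
    push_cast
    norm_num
  rw [this, Real.rpow_neg hr.le, Real.rpow_natCast]

private theorem chr_pot_pt (χ : E3 → ℝ) (r : ℝ) (hr : 0 < r) (w x v : E3) :
    chr χ r (v - w) ^ 2 * ‖v - x‖⁻¹ = (r ^ 3)⁻¹ * r⁻¹ *
      (fun u : E3 => χ (r⁻¹ • u) ^ 2 * ‖r⁻¹ • (x - w) - r⁻¹ • u‖⁻¹) (v - w) := by
  have e1 : r⁻¹ • (x - w) - r⁻¹ • (v - w) = r⁻¹ • (x - v) := by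
    rw [← smul_sub]
    congr 1
    abel
  have e2 : ‖r⁻¹ • (x - v)‖⁻¹ = r * ‖v - x‖⁻¹ := by
    rw [norm_smul, Real.norm_of_nonneg (by positivity), mul_inv, inv_inv, norm_sub_rev]
  simp only [chr]
  rw [e1, e2, mul_pow, chr_sq r hr]
  field_simp

include h hr

theorem chr_smooth : ContDiff ℝ (⊤ : ℕ∞) (chr χ r) := by
  unfold chr
  exact contDiff_const.mul (h.smooth.comp (contDiff_const_smul r⁻¹))

theorem chr_supp (v : E3) (hv : chr χ r v ≠ 0) : ‖v‖ < r / 2 := by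
  have h1 : χ (r⁻¹ • v) ≠ 0 := by
    intro h0
    apply hv
    rw [chr, h0, mul_zero]
  have h2 := h.supp _ h1
  rw [norm_smul, Real.norm_of_nonneg (by positivity), inv_mul_lt_iff₀ hr] at h2
  linarith

theorem chr_norm : ∫ v, chr χ r v ^ 2 = 1 := by
  have e : ∀ v, chr χ r v ^ 2 = (r ^ 3)⁻¹ * (fun u => χ u ^ 2) (r⁻¹ • v) := by
    intro v
    simp only [chr]
    rw [mul_pow, chr_sq r hr]
  simp only [e]
  rw [integral_const_mul, chr_int_smul r hr (fun u => χ u ^ 2), h.norm, mul_one,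
    inv_mul_cancel₀ (by positivity)]

theorem chr_grad : ∫ v, gr (chr χ r) v = (r ^ 2)⁻¹ * ∫ v, gr χ v := by
  have hd : ∀ v, fderiv ℝ (chr χ r) v = (r ^ (-(3 / 2) : ℝ) * r⁻¹) • fderiv ℝ χ (r⁻¹ • v) := by
    intro v
    have h1 : HasFDerivAt χ (fderiv ℝ χ (r⁻¹ • v)) (r⁻¹ • v) :=
      (h.smooth.differentiable (by simp)).differentiableAt.hasFDerivAt
    have h2 : HasFDerivAt (fun v : E3 => r⁻¹ • v) (r⁻¹ • ContinuousLinearMap.id ℝ E3) v :=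
      (hasFDerivAt_id v).const_smul r⁻¹
    have h3 := (h1.comp v h2).const_mul (r ^ (-(3 / 2) : ℝ))
    have h4 : HasFDerivAt (chr χ r) ((r ^ (-(3 / 2) : ℝ)) •
        ((fderiv ℝ χ (r⁻¹ • v)).comp (r⁻¹ • ContinuousLinearMap.id ℝ E3))) v := h3
    rw [h4.fderiv, ContinuousLinearMap.comp_smul, ContinuousLinearMap.comp_id, smul_smul]
  have e : ∀ v, gr (chr χ r) v = (r ^ 3)⁻¹ * (r ^ 2)⁻¹ * gr χ (r⁻¹ • v) := by
    intro v
    simp only [gr, hd]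
    rw [Finset.mul_sum]
    apply Finset.sum_congr rfl
    intro d _
    have e1 : ((r ^ (-(3 / 2) : ℝ) * r⁻¹) • fderiv ℝ χ (r⁻¹ • v)) (EuclideanSpace.single d 1) =
        (r ^ (-(3 / 2) : ℝ) * r⁻¹) * fderiv ℝ χ (r⁻¹ • v) (EuclideanSpace.single d 1) := rfl
    rw [e1, mul_pow, mul_pow, chr_sq r hr, inv_pow]
  simp only [e]
  rw [integral_const_mul, chr_int_smul r hr (gr χ)]
  field_simp

/-- the potential of the rescaled density centred at `w` -/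
theorem chr_pot (w x : E3) : ∫ v, chr χ r (v - w) ^ 2 * ‖v - x‖⁻¹ = r⁻¹ * U χ (r⁻¹ • (x - w)) := by
  simp only [chr_pot_pt χ r hr w x]
  rw [integral_const_mul, integral_sub_right_eq_self
    (fun u : E3 => χ (r⁻¹ • u) ^ 2 * ‖r⁻¹ • (x - w) - r⁻¹ • u‖⁻¹) w,
    chr_int_smul r hr (fun u : E3 => χ u ^ 2 * ‖r⁻¹ • (x - w) - u‖⁻¹), U]
  field_simp

theorem chr_pot_int (w x : E3) : Integrable (fun v => chr χ r (v - w) ^ 2 * ‖v - x‖⁻¹) := by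
  simp only [chr_pot_pt χ r hr w x]
  have h1 := U_intble h (r⁻¹ • (x - w))
  have h2 := h1.comp_smul (inv_ne_zero hr.ne')
  exact (h2.comp_sub_right w).const_mul _

end H6.CM
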