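import Pool.Agent.H6.CM.BallInv
import Pool.Agent.H6.CM.BumpEx

/-! Elementary facts on the potential of the bump. The bound: the density is bounded with support in the ball of radius `1/2`, use `ballinv`. -/

open MeasureTheory Finset

namespace H6.CM

theorem U_nonneg (χ : E3 → ℝ) (w : E3) : 0 ≤ U χ w := by
  unfold U
  exact integral_nonneg fun u => by positivity

private theorem ubd_lint {χ : E3 → ℝ} (h : Bump χ) : ∃ C : ℝ, 0 < C ∧ ∀ w : E3,
    ∫⁻ u, ENNReal.ofReal (χ u ^ 2 * ‖w - u‖⁻¹) ≤ ENNReal.ofReal C := by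
  obtain ⟨C, hC, hball⟩ := ballinv
  obtain ⟨B, hB⟩ := h.cpt.exists_bound_of_continuous h.smooth.continuous
  have hB0 : 0 ≤ B := (norm_nonneg _).trans (hB 0)
  have hB2 : ∀ u, χ u ^ 2 ≤ B ^ 2 + 1 := by
    intro u
    have h1 := hB u
    rw [Real.norm_eq_abs] at h1
    have h2 := abs_nonneg (χ u)
    have h3 := sq_abs (χ u)
    nlinarith
  refine ⟨(B ^ 2 + 1) * (C * (1 / 2) ^ 2), by positivity, fun w => ?_⟩
  have e1 : ∫⁻ u, ENNReal.ofReal (χ u ^ 2 * ‖w - u‖⁻¹) =
      ∫⁻ v, ENNReal.ofReal (χ (w - v) ^ 2 * ‖v‖⁻¹) := by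
    rw [← lintegral_sub_left_eq_self (μ := volume)
      (fun v => ENNReal.ofReal (χ (w - v) ^ 2 * ‖v‖⁻¹)) w]
    refine lintegral_congr fun u => ?_
    rw [sub_sub_cancel]
  rw [e1]
  have e2 : ∀ v, ENNReal.ofReal (χ (w - v) ^ 2 * ‖v‖⁻¹) ≤
      (Metric.ball w (1 / 2)).indicator
        (fun v => ENNReal.ofReal (B ^ 2 + 1) * ENNReal.ofReal ‖v‖⁻¹) v := by
    intro v
    by_cases hv : χ (w - v) = 0
    · rw [hv]
      simp
    · have h1 := h.supp _ hv
      have h2 : v ∈ Metric.ball w (1 / 2) := by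
        rw [Metric.mem_ball, dist_comm, dist_eq_norm]
        exact h1
      rw [Set.indicator_of_mem h2, ← ENNReal.ofReal_mul (by positivity)]
      apply ENNReal.ofReal_le_ofReal
      exact mul_le_mul_of_nonneg_right (hB2 _) (by positivity)
  refine (lintegral_mono e2).trans ?_
  rw [lintegral_indicator Metric.isOpen_ball.measurableSet, lintegral_const_mul' _ _ (by simp),
    ENNReal.ofReal_mul (by positivity)]
  exact mul_le_mul_right (hball w (1 / 2) (by norm_num)) _

private theorem ubd_meas {χ : E3 → ℝ} (h : Bump χ) (w : E3) :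
    Measurable (fun u => χ u ^ 2 * ‖w - u‖⁻¹) :=
  (h.smooth.continuous.measurable.pow_const 2).mul
    ((measurable_const.sub measurable_id).norm.inv)

theorem U_bd {χ : E3 → ℝ} (h : Bump χ) : ∃ C : ℝ, 0 < C ∧ ∀ w, U χ w ≤ C := by
  obtain ⟨C, hC, hl⟩ := ubd_lint h
  refine ⟨C, hC, fun w => ?_⟩
  unfold U
  rw [integral_eq_lintegral_of_nonneg_ae (Filter.Eventually.of_forall fun u => by positivity)
    (ubd_meas h w).aestronglyMeasurable]
  exact ENNReal.toReal_le_of_le_ofReal hC.le (hl w)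

theorem U_intble {χ : E3 → ℝ} (h : Bump χ) (w : E3) :
    Integrable (fun u => χ u ^ 2 * ‖w - u‖⁻¹) := by
  obtain ⟨C, hC, hl⟩ := ubd_lint h
  refine ⟨(ubd_meas h w).aestronglyMeasurable, ?_⟩
  rw [hasFiniteIntegral_iff_ofReal (Filter.Eventually.of_forall fun u => by positivity)]
  exact (hl w).trans_lt ENNReal.ofReal_lt_top

/-- the potential of the translated density; uses that the bump is even -/
theorem U_trans {χ : E3 → ℝ} (h : Bump χ) (x y : E3) :
    ∫ v, χ (v - y) ^ 2 * ‖v - x‖⁻¹ = U χ (x - y) := by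
  unfold U
  rw [← integral_sub_right_eq_self (μ := volume) (fun u => χ u ^ 2 * ‖x - y - u‖⁻¹) y]
  refine integral_congr_ae (Filter.Eventually.of_forall fun v => ?_)
  simp only
  rw [sub_sub_sub_cancel_right, norm_sub_rev v x]

theorem U_neg {χ : E3 → ℝ} (h : Bump χ) (w : E3) : U χ (-w) = U χ w := by
  unfold U
  rw [← integral_neg_eq_self (μ := volume) (fun u => χ u ^ 2 * ‖w - u‖⁻¹)]
  refine integral_congr_ae (Filter.Eventually.of_forall fun v => ?_)
  simp only
  rw [h.radial (-v) v (norm_neg v), ← norm_neg (-w - v)]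
  congr 3
  abel

end H6.CM
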