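import Pool.Agent.H6.CM.BumpEx

/-! The partition of unity. Where `G l ≠ 0` all electrons but `a` have distance more than `2 ^ -(l+1)` from `w`, hence `G (l+1) = 1`; so `sl (l+1) ^ 2 = sin ^ 2 (π/2 G (l+1)) - sin ^ 2 (π/2 G l)` and the sum telescopes. -/

open MeasureTheory Finset

namespace H6.CM

variable {n : ℕ} {θ : E3 → ℝ} (h : Cut θ) (a : Fin n) (w : E3)

include h

private theorem Part_pos (l : ℕ) (x : Fin n → E3) (hG : G θ a w l x ≠ 0) (b : Fin n)
    (hb : b ≠ a) : 1 < (2 : ℝ) ^ (l + 1) * ‖x b - w‖ := by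
  by_contra hc
  push Not at hc
  apply hG
  unfold G
  refine prod_eq_zero (mem_erase.2 ⟨hb, mem_univ b⟩) (h.zero _ ?_)
  rw [norm_smul, Real.norm_eq_abs, abs_of_pos (by positivity)]
  exact hc

private theorem Part_ne_one (l : ℕ) (x : Fin n → E3) (hG : G θ a w l x ≠ 1) :
    ∃ b, b ≠ a ∧ ‖x b - w‖ < ((2 : ℝ) ^ l)⁻¹ := by
  by_contra hc
  push Not at hc
  apply hG
  unfold G
  refine prod_eq_one fun b hb => h.one _ ?_
  have h1 := hc b (mem_erase.1 hb).1
  rw [norm_smul, Real.norm_eq_abs, abs_of_pos (by positivity), pow_succ]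
  have h2 : 0 < (2 : ℝ) ^ l := by positivity
  rw [inv_le_iff_one_le_mul₀' h2] at h1
  linarith

theorem G_mem (l : ℕ) (x : Fin n → E3) : 0 ≤ G θ a w l x ∧ G θ a w l x ≤ 1 := by
  unfold G
  exact ⟨prod_nonneg fun b _ => h.nonneg _, prod_le_one (fun b _ => h.nonneg _) fun b _ => h.le_one _⟩

theorem G_next (l : ℕ) (x : Fin n → E3) (hG : G θ a w l x ≠ 0) : G θ a w (l + 1) x = 1 := by
  unfold G
  refine prod_eq_one fun b hb => h.one _ ?_
  have h1 := Part_pos h a w l x hG b (mem_erase.1 hb).1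
  rw [norm_smul, Real.norm_eq_abs, abs_of_pos (by positivity), pow_succ]
  linarith

theorem part_sum (L : ℕ) (x : Fin n → E3) :
    ∑ l ∈ range (L + 1), sl θ a w l x ^ 2 + rm θ a w L x ^ 2 = 1 := by
  induction L with
  | zero =>
    rw [zero_add, sum_range_one]
    exact Real.sin_sq_add_cos_sq _
  | succ L ih =>
    rw [sum_range_succ, add_assoc]
    have h1 : sl θ a w (L + 1) x ^ 2 + rm θ a w (L + 1) x ^ 2 = rm θ a w L x ^ 2 := by
      change (Real.cos (Real.pi / 2 * G θ a w L x) * Real.sin (Real.pi / 2 * G θ a w (L + 1) x)) ^ 2 +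
        Real.cos (Real.pi / 2 * G θ a w (L + 1) x) ^ 2 = Real.cos (Real.pi / 2 * G θ a w L x) ^ 2
      by_cases hG : G θ a w L x = 0
      · rw [hG, mul_zero, Real.cos_zero, one_mul, one_pow]
        exact Real.sin_sq_add_cos_sq _
      · rw [G_next h a w L x hG, mul_one, Real.sin_pi_div_two, Real.cos_pi_div_two]
        ring
    rw [h1]
    exact ih

theorem sl_far (l : ℕ) (x : Fin n → E3) (hs : sl θ a w l x ≠ 0) (b : Fin n) (hb : b ≠ a) :
    ((2 : ℝ) ^ (l + 1))⁻¹ ≤ ‖x b - w‖ := by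
  have hG : G θ a w l x ≠ 0 := by
    intro h0
    apply hs
    cases l with
    | zero =>
      change Real.sin (Real.pi / 2 * G θ a w 0 x) = 0
      rw [h0, mul_zero, Real.sin_zero]
    | succ l =>
      change Real.cos _ * Real.sin (Real.pi / 2 * G θ a w (l + 1) x) = 0
      rw [h0, mul_zero, Real.sin_zero, mul_zero]
  have h1 := Part_pos h a w l x hG b hb
  rw [inv_le_iff_one_le_mul₀' (by positivity)]
  exact h1.le

theorem sl_near (l : ℕ) (x : Fin n → E3) (hs : sl θ a w (l + 1) x ≠ 0) :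
    ∃ b, b ≠ a ∧ ‖x b - w‖ < ((2 : ℝ) ^ l)⁻¹ := by
  refine Part_ne_one h a w l x fun h0 => hs ?_
  change Real.cos (Real.pi / 2 * G θ a w l x) * _ = 0
  rw [h0, mul_one, Real.cos_pi_div_two, zero_mul]

theorem rm_near (l : ℕ) (x : Fin n → E3) (hs : rm θ a w l x ≠ 0) :
    ∃ b, b ≠ a ∧ ‖x b - w‖ < ((2 : ℝ) ^ l)⁻¹ := by
  refine Part_ne_one h a w l x fun h0 => hs ?_
  change Real.cos (Real.pi / 2 * G θ a w l x) = 0
  rw [h0, mul_one, Real.cos_pi_div_two]

private theorem Part_smooth (l : ℕ) : ContDiff ℝ (⊤ : ℕ∞) (G θ a w l) := by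
  unfold G
  refine contDiff_prod fun b _ => ?_
  have h1 : ContDiff ℝ (⊤ : ℕ∞) fun x : Fin n → E3 => (2 : ℝ) ^ (l + 1) • (x b - w) :=
    ((contDiff_apply ℝ E3 b).sub contDiff_const).const_smul ((2 : ℝ) ^ (l + 1))
  exact h.smooth.comp h1

private theorem Part_cont (l : ℕ) : Continuous (fun u : E3 × (Fin n → E3) => G θ a u.1 l u.2) := by
  unfold G
  refine continuous_finsetProd _ fun b _ => ?_
  have h1 : Continuous fun u : E3 × (Fin n → E3) => (2 : ℝ) ^ (l + 1) • (u.2 b - u.1) := by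
    fun_prop
  exact h.smooth.continuous.comp h1

theorem sl_smooth (l : ℕ) : ContDiff ℝ (⊤ : ℕ∞) (sl θ a w l) := by
  cases l with
  | zero => exact Real.contDiff_sin.comp (contDiff_const.mul (Part_smooth h a w 0))
  | succ l =>
    exact (Real.contDiff_cos.comp (contDiff_const.mul (Part_smooth h a w l))).mul
      (Real.contDiff_sin.comp (contDiff_const.mul (Part_smooth h a w (l + 1))))

theorem rm_smooth (l : ℕ) : ContDiff ℝ (⊤ : ℕ∞) (rm θ a w l) := by
  exact Real.contDiff_cos.comp (contDiff_const.mul (Part_smooth h a w l))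

theorem sl_joint (l : ℕ) : Continuous (fun u : E3 × (Fin n → E3) => sl θ a u.1 l u.2) := by
  cases l with
  | zero => exact Real.continuous_sin.comp (continuous_const.mul (Part_cont h a 0))
  | succ l =>
    exact (Real.continuous_cos.comp (continuous_const.mul (Part_cont h a l))).mul
      (Real.continuous_sin.comp (continuous_const.mul (Part_cont h a (l + 1))))

theorem rm_joint (l : ℕ) : Continuous (fun u : E3 × (Fin n → E3) => rm θ a u.1 l u.2) := by
  exact Real.continuous_cos.comp (continuous_const.mul (Part_cont h a l))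

omit h in
private theorem Part_upd (l : ℕ) (x : Fin n → E3) (v : E3) :
    G θ a w l (Function.update x a v) = G θ a w l x := by
  unfold G
  refine prod_congr rfl fun b hb => ?_
  rw [Function.update_of_ne (mem_erase.1 hb).1]

omit h in
private theorem Part_perm (l : ℕ) (x : Fin n → E3) (π : Equiv.Perm (Fin n)) (hπ : π a = a) :
    G θ a w l (x ∘ π) = G θ a w l x := by
  unfold G
  refine prod_equiv π (fun b => ?_) fun b _ => rfl
  rw [mem_erase, mem_erase]
  constructor
  · rintro ⟨h1, -⟩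
    refine ⟨fun h2 => h1 (π.injective ?_), mem_univ _⟩
    rw [h2, hπ]
  · rintro ⟨h1, -⟩
    refine ⟨fun h2 => h1 ?_, mem_univ _⟩
    rw [h2, hπ]

omit h in
theorem sl_upd (l : ℕ) (x : Fin n → E3) (v : E3) :
    sl θ a w l (Function.update x a v) = sl θ a w l x := by
  cases l with
  | zero =>
    change Real.sin (Real.pi / 2 * G θ a w 0 _) = Real.sin (Real.pi / 2 * G θ a w 0 _)
    rw [Part_upd]
  | succ l =>
    change Real.cos (Real.pi / 2 * G θ a w l _) * Real.sin (Real.pi / 2 * G θ a w (l + 1) _) =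
      Real.cos (Real.pi / 2 * G θ a w l _) * Real.sin (Real.pi / 2 * G θ a w (l + 1) _)
    rw [Part_upd, Part_upd]

omit h in
theorem rm_upd (l : ℕ) (x : Fin n → E3) (v : E3) :
    rm θ a w l (Function.update x a v) = rm θ a w l x := by
  change Real.cos (Real.pi / 2 * G θ a w l _) = Real.cos (Real.pi / 2 * G θ a w l _)
  rw [Part_upd]

omit h in
theorem sl_perm (l : ℕ) (x : Fin n → E3) (π : Equiv.Perm (Fin n)) (hπ : π a = a) :
    sl θ a w l (x ∘ π) = sl θ a w l x := by
  cases l with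
  | zero =>
    change Real.sin (Real.pi / 2 * G θ a w 0 _) = Real.sin (Real.pi / 2 * G θ a w 0 _)
    rw [Part_perm a w 0 x π hπ]
  | succ l =>
    change Real.cos (Real.pi / 2 * G θ a w l _) * Real.sin (Real.pi / 2 * G θ a w (l + 1) _) =
      Real.cos (Real.pi / 2 * G θ a w l _) * Real.sin (Real.pi / 2 * G θ a w (l + 1) _)
    rw [Part_perm a w l x π hπ, Part_perm a w (l + 1) x π hπ]

end H6.CM
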