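import Pool.Agent.H6.CM.BallInv
import Pool.Agent.H6.CM.Part

/-! Averages over `w` near `x0` with the bounded weight `χ (w - x0) ^ 2` supported in the ball of radius `1/2`: volumes of balls (`EuclideanSpace.volume_ball` or `Measure.addHaar_ball`) and `ballinv`. -/

open MeasureTheory Finset

namespace H6.CM

private theorem wi_bd {χ : E3 → ℝ} (hχ : Bump χ) : ∃ M : ℝ, 0 ≤ M ∧ ∀ v, χ v ^ 2 ≤ M := by
  obtain ⟨C, hC⟩ := hχ.cpt.exists_bound_of_continuous hχ.smooth.continuous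
  refine ⟨C ^ 2, sq_nonneg C, fun v => ?_⟩
  rw [← sq_abs (χ v)]
  exact pow_le_pow_left₀ (abs_nonneg _) (hC v) 2

private noncomputable def vB : ℝ := (volume (Metric.ball (0 : E3) 1)).toReal

private theorem vB_nonneg : 0 ≤ vB := ENNReal.toReal_nonneg

private theorem wi_vol (y : E3) (ρ : ℝ) (hρ : 0 ≤ ρ) :
    (volume (Metric.closedBall y ρ)).toReal = ρ ^ 3 * vB := by
  rw [Measure.addHaar_closedBall _ _ hρ, ENNReal.toReal_mul, finrank_euclideanSpace_fin,
    ENNReal.toReal_ofReal (by positivity), vB]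

private theorem wi_ind_int (y : E3) (ρ M : ℝ) :
    Integrable ((Metric.closedBall y ρ).indicator fun _ => M) := by
  rw [integrable_indicator_iff measurableSet_closedBall]
  exact integrableOn_const measure_closedBall_lt_top.ne (by simp)

private theorem wi_ind (y : E3) (ρ M : ℝ) (hρ : 0 ≤ ρ) :
    ∫ w, (Metric.closedBall y ρ).indicator (fun _ => M) w = M * (ρ ^ 3 * vB) := by
  rw [integral_indicator_const _ measurableSet_closedBall, Measure.real, wi_vol y ρ hρ,
    smul_eq_mul, mul_comm]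

private theorem wi_inv : ∃ C : ℝ, 0 ≤ C ∧ ∀ (u y : E3) (r : ℝ), 0 < r →
    Integrable ((Metric.ball u r).indicator fun w => ‖w - y‖⁻¹) ∧
    ∫ w, (Metric.ball u r).indicator (fun w => ‖w - y‖⁻¹) w ≤ C * r ^ 2 := by
  obtain ⟨C, hC, hb⟩ := ballinv
  refine ⟨C, hC.le, fun u y r hr => ?_⟩
  have h0 : ∀ w, 0 ≤ (Metric.ball u r).indicator (fun w => ‖w - y‖⁻¹) w := fun w =>
    Set.indicator_nonneg (fun w _ => by positivity) w
  have hmeas : Measurable ((Metric.ball u r).indicator fun w : E3 => ‖w - y‖⁻¹) := by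
    apply Measurable.indicator _ measurableSet_ball
    fun_prop
  have h1 : ∫⁻ w, ENNReal.ofReal ((Metric.ball u r).indicator (fun w => ‖w - y‖⁻¹) w) ≤
      ENNReal.ofReal (C * r ^ 2) := by
    have e1 : ∀ w, ENNReal.ofReal ((Metric.ball u r).indicator (fun w => ‖w - y‖⁻¹) w) =
        (fun v => (Metric.ball (u - y) r).indicator (fun v => ENNReal.ofReal ‖v‖⁻¹) v) (w - y) := by
      intro w
      by_cases hw : w ∈ Metric.ball u r
      · have hw2 : w - y ∈ Metric.ball (u - y) r := by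
          rw [Metric.mem_ball, dist_eq_norm] at hw ⊢
          rwa [sub_sub_sub_cancel_right]
        simp only [Set.indicator_of_mem hw, Set.indicator_of_mem hw2]
      · have hw2 : w - y ∉ Metric.ball (u - y) r := by
          rw [Metric.mem_ball, dist_eq_norm] at hw ⊢
          rwa [sub_sub_sub_cancel_right]
        simp only [Set.indicator_of_notMem hw, Set.indicator_of_notMem hw2, ENNReal.ofReal_zero]
    simp only [e1]
    rw [lintegral_sub_right_eq_self
      (fun v => (Metric.ball (u - y) r).indicator (fun v => ENNReal.ofReal ‖v‖⁻¹) v) y,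
      lintegral_indicator measurableSet_ball]
    exact hb (u - y) r hr
  constructor
  · refine ⟨hmeas.aestronglyMeasurable, ?_⟩
    rw [hasFiniteIntegral_iff_ofReal (Filter.Eventually.of_forall h0)]
    exact lt_of_le_of_lt h1 ENNReal.ofReal_lt_top
  · rw [integral_eq_lintegral_of_nonneg_ae (Filter.Eventually.of_forall h0)
      hmeas.aestronglyMeasurable]
    exact ENNReal.toReal_le_of_le_ofReal (by positivity) h1

private theorem wi_pow (l : ℕ) : 0 < ((2 : ℝ) ^ l)⁻¹ ∧ ((2 : ℝ) ^ l)⁻¹ ≤ 1 :=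
  ⟨by positivity, inv_le_one_of_one_le₀ (one_le_pow₀ (by norm_num))⟩

private theorem wi_term {χ : E3 → ℝ} (hχ : Bump χ) (M : ℝ) (hM : ∀ v, χ v ^ 2 ≤ M)
    (x0 y : E3) (l : ℕ) :
    Integrable (fun w => χ (w - x0) ^ 2 *
      ((4 : ℝ) ^ l * (if ‖y - w‖ ≤ ((2 : ℝ) ^ l)⁻¹ then 1 else 0))) ∧
    ∫ w, χ (w - x0) ^ 2 * ((4 : ℝ) ^ l * (if ‖y - w‖ ≤ ((2 : ℝ) ^ l)⁻¹ then 1 else 0)) ≤
      M * vB * (1 / 2) ^ l * (if ‖x0 - y‖ < 2 then 1 else 0) := by
  obtain ⟨hp, hp1⟩ := wi_pow l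
  have hM0 : 0 ≤ M := (sq_nonneg _).trans (hM 0)
  have hf0 : ∀ w, 0 ≤ χ (w - x0) ^ 2 *
      ((4 : ℝ) ^ l * (if ‖y - w‖ ≤ ((2 : ℝ) ^ l)⁻¹ then 1 else 0)) := by
    intro w
    split_ifs <;> positivity
  constructor
  · have h1 : Integrable (fun w => χ (w - x0) ^ 2 * (4 : ℝ) ^ l) :=
      (hχ.int.comp_sub_right x0).mul_const _
    refine h1.mono' ?_ (Filter.Eventually.of_forall fun w => ?_)
    · apply Measurable.aestronglyMeasurable
      have m1 : Measurable fun w => χ (w - x0) := by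
        have := hχ.smooth.continuous
        fun_prop
      refine (m1.pow_const 2).mul (measurable_const.mul (Measurable.ite ?_ measurable_const
        measurable_const))
      exact measurableSet_le (by fun_prop) measurable_const
    · rw [Real.norm_of_nonneg (hf0 w)]
      apply mul_le_mul_of_nonneg_left _ (sq_nonneg _)
      split_ifs
      · rw [mul_one]
      · rw [mul_zero]
        positivity
  · split_ifs with hxy
    · rw [mul_one]
      have h2 : ∀ w, χ (w - x0) ^ 2 *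
          ((4 : ℝ) ^ l * (if ‖y - w‖ ≤ ((2 : ℝ) ^ l)⁻¹ then 1 else 0)) ≤
          (Metric.closedBall y ((2 : ℝ) ^ l)⁻¹).indicator (fun _ => M * 4 ^ l) w := by
        intro w
        by_cases hw : ‖y - w‖ ≤ ((2 : ℝ) ^ l)⁻¹
        · have hw2 : w ∈ Metric.closedBall y ((2 : ℝ) ^ l)⁻¹ := by
            rw [Metric.mem_closedBall, dist_comm, dist_eq_norm]
            exact hw
          rw [Set.indicator_of_mem hw2, if_pos hw, mul_one]
          exact mul_le_mul_of_nonneg_right (hM _) (by positivity)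
        · rw [if_neg hw, mul_zero, mul_zero]
          exact Set.indicator_nonneg (fun _ _ => by positivity) w
      refine (integral_mono_of_nonneg (Filter.Eventually.of_forall hf0) (wi_ind_int _ _ _)
        (Filter.Eventually.of_forall h2)).trans ?_
      rw [wi_ind _ _ _ hp.le]
      apply le_of_eq
      have e1 : (4 : ℝ) ^ l = (2 ^ l) ^ 2 := by
        rw [← pow_mul, mul_comm, pow_mul]
        norm_num
      have e2 : ((2 : ℝ) ^ l) ≠ 0 := by positivity
      have e3 : ((1 : ℝ) / 2) ^ l = ((2 : ℝ) ^ l)⁻¹ := by rw [one_div, inv_pow]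
      rw [e1, e3]
      field_simp
    · rw [mul_zero]
      apply le_of_eq
      apply integral_eq_zero_of_ae
      refine Filter.Eventually.of_forall fun w => ?_
      simp only [Pi.zero_apply]
      by_cases hχw : χ (w - x0) = 0
      · rw [hχw]
        ring
      · have h3 := hχ.supp _ hχw
        rw [if_neg, mul_zero, mul_zero]
        intro h4
        apply hxy
        have h5 : x0 - y = -(w - x0) - (y - w) := by abel
        rw [h5]
        refine (norm_sub_le _ _).trans_lt ?_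
        rw [norm_neg]
        linarith

theorem wint_D {χ : E3 → ℝ} (hχ : Bump χ) : ∃ C : ℝ, 0 ≤ C ∧
    ∀ (n : ℕ) (a : Fin n) (x0 : E3) (L : ℕ) (x : Fin n → E3),
      Integrable (fun w => χ (w - x0) ^ 2 * Dl a w L x) ∧
      ∫ w, χ (w - x0) ^ 2 * Dl a w L x ≤ C * ∑ b, (if ‖x0 - x b‖ < 2 then 1 else 0) := by
  obtain ⟨M, hM0, hM⟩ := wi_bd hχ
  have hV := vB_nonneg
  refine ⟨2 * (M * vB), by positivity, fun n a x0 L x => ?_⟩
  have e : ∀ w, χ (w - x0) ^ 2 * Dl a w L x = ∑ b ∈ univ.erase a, ∑ l ∈ range (L + 1),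
      χ (w - x0) ^ 2 * ((4 : ℝ) ^ l * (if ‖x b - w‖ ≤ ((2 : ℝ) ^ l)⁻¹ then 1 else 0)) := by
    intro w
    rw [Dl, mul_sum]
    apply sum_congr rfl
    intro b _
    rw [mul_sum]
  have hI : ∀ b l, Integrable (fun w => χ (w - x0) ^ 2 * ((4 : ℝ) ^ l *
      (if ‖x b - w‖ ≤ ((2 : ℝ) ^ l)⁻¹ then 1 else 0))) := fun b l => (wi_term hχ M hM x0 (x b) l).1
  simp only [e]
  constructor
  · exact integrable_finsetSum _ fun b _ => integrable_finsetSum _ fun l _ => hI b l
  · rw [integral_finsetSum _ fun b _ => integrable_finsetSum _ fun l _ => hI b l]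
    have h1 : ∀ b ∈ univ.erase a, (∫ w, ∑ l ∈ range (L + 1), χ (w - x0) ^ 2 * ((4 : ℝ) ^ l *
        (if ‖x b - w‖ ≤ ((2 : ℝ) ^ l)⁻¹ then 1 else 0))) ≤
        2 * (M * vB) * (if ‖x0 - x b‖ < 2 then 1 else 0) := by
      intro b _
      rw [integral_finsetSum _ fun l _ => hI b l]
      refine (sum_le_sum fun l _ => (wi_term hχ M hM x0 (x b) l).2).trans ?_
      rw [← sum_mul, ← mul_sum]
      apply mul_le_mul_of_nonneg_right
      · have := sum_geometric_two_le (L + 1)
        have h2 : 0 ≤ M * vB := by positivity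
        nlinarith
      · split_ifs <;> norm_num
    refine (sum_le_sum h1).trans ?_
    rw [← mul_sum]
    apply mul_le_mul_of_nonneg_left _ (by positivity)
    apply sum_le_sum_of_subset_of_nonneg (erase_subset _ _)
    intro b _ _
    split_ifs <;> norm_num

private theorem wi_rm_le {θ : E3 → ℝ} {n : ℕ} (a : Fin n) (w : E3) (L : ℕ) (x : Fin n → E3) :
    rm θ a w L x ^ 2 ≤ 1 := by
  unfold rm
  exact Real.cos_sq_le_one _

theorem wint_rm {θ : E3 → ℝ} (h : Cut θ) {χ : E3 → ℝ} (hχ : Bump χ) : ∃ C : ℝ, 0 ≤ C ∧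
    ∀ (n : ℕ) (a : Fin n) (x0 : E3) (L : ℕ) (x : Fin n → E3),
      ∫ w, χ (w - x0) ^ 2 * rm θ a w L x ^ 2 ≤ C * n * ((2 : ℝ) ^ L)⁻¹ := by
  obtain ⟨M, hM0, hM⟩ := wi_bd hχ
  have hV := vB_nonneg
  refine ⟨M * vB, by positivity, fun n a x0 L x => ?_⟩
  obtain ⟨ρ, hρ⟩ : ∃ ρ : ℝ, ρ = ((2 : ℝ) ^ L)⁻¹ := ⟨_, rfl⟩
  obtain ⟨hp, hp1⟩ := wi_pow L
  rw [← hρ] at hp hp1 ⊢
  have h2 : ∀ w, χ (w - x0) ^ 2 * rm θ a w L x ^ 2 ≤
      ∑ b, (Metric.closedBall (x b) ρ).indicator (fun _ => M) w := by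
    intro w
    by_cases hr : rm θ a w L x = 0
    · rw [hr]
      refine le_trans (by simp) (sum_nonneg fun b _ => Set.indicator_nonneg (fun _ _ => hM0) w)
    · obtain ⟨b, -, hb⟩ := rm_near h a w L x hr
      rw [← hρ] at hb
      have hw2 : w ∈ Metric.closedBall (x b) ρ := by
        rw [Metric.mem_closedBall, dist_comm, dist_eq_norm]
        exact hb.le
      calc χ (w - x0) ^ 2 * rm θ a w L x ^ 2 ≤ M * 1 :=
            mul_le_mul (hM _) (wi_rm_le a w L x) (sq_nonneg _) hM0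
        _ = (Metric.closedBall (x b) ρ).indicator (fun _ => M) w := by
            rw [Set.indicator_of_mem hw2, mul_one]
        _ ≤ _ := single_le_sum (f := fun b => (Metric.closedBall (x b) ρ).indicator
            (fun _ => M) w) (fun b _ => Set.indicator_nonneg (fun _ _ => hM0) w) (mem_univ b)
  refine (integral_mono_of_nonneg (Filter.Eventually.of_forall fun w => by positivity)
    (integrable_finsetSum _ fun b _ => wi_ind_int (x b) ρ M)
    (Filter.Eventually.of_forall h2)).trans ?_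
  rw [integral_finsetSum _ fun b _ => wi_ind_int (x b) ρ M]
  simp only [wi_ind _ _ _ hp.le, sum_const, card_univ, Fintype.card_fin, nsmul_eq_mul]
  have h3 : ρ ^ 3 ≤ ρ := by
    calc ρ ^ 3 ≤ ρ ^ 1 := pow_le_pow_of_le_one hp.le hp1 (by norm_num)
      _ = ρ := pow_one ρ
  have h4 : 0 ≤ (n : ℝ) * (M * vB) := by positivity
  calc (n : ℝ) * (M * (ρ ^ 3 * vB)) = (n : ℝ) * (M * vB) * ρ ^ 3 := by ring
    _ ≤ (n : ℝ) * (M * vB) * ρ := mul_le_mul_of_nonneg_left h3 h4
    _ = M * vB * n * ρ := by ring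

theorem wint_rmn {θ : E3 → ℝ} (h : Cut θ) {χ : E3 → ℝ} (hχ : Bump χ) : ∃ C : ℝ, 0 ≤ C ∧
    ∀ (n : ℕ) (a : Fin n) (x0 y : E3) (L : ℕ) (x : Fin n → E3),
      ∫ w, χ (w - x0) ^ 2 * (rm θ a w L x ^ 2 * ‖w - y‖⁻¹) ≤ C * n * ((2 : ℝ) ^ L)⁻¹ := by
  obtain ⟨M, hM0, hM⟩ := wi_bd hχ
  obtain ⟨C, hC0, hC⟩ := wi_inv
  refine ⟨M * C, by positivity, fun n a x0 y L x => ?_⟩
  obtain ⟨ρ, hρ⟩ : ∃ ρ : ℝ, ρ = ((2 : ℝ) ^ L)⁻¹ := ⟨_, rfl⟩
  obtain ⟨hp, hp1⟩ := wi_pow L
  rw [← hρ] at hp hp1 ⊢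
  have hn : ∀ b w, 0 ≤ M * (Metric.ball (x b) ρ).indicator (fun w => ‖w - y‖⁻¹) w := fun b w =>
    mul_nonneg hM0 (Set.indicator_nonneg (fun _ _ => by positivity) w)
  have h2 : ∀ w, χ (w - x0) ^ 2 * (rm θ a w L x ^ 2 * ‖w - y‖⁻¹) ≤
      ∑ b, M * (Metric.ball (x b) ρ).indicator (fun w => ‖w - y‖⁻¹) w := by
    intro w
    by_cases hr : rm θ a w L x = 0
    · rw [hr]
      refine le_trans (by simp) (sum_nonneg fun b _ => hn b w)
    · obtain ⟨b, -, hb⟩ := rm_near h a w L x hr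
      rw [← hρ] at hb
      have hw2 : w ∈ Metric.ball (x b) ρ := by
        rw [Metric.mem_ball, dist_comm, dist_eq_norm]
        exact hb
      calc χ (w - x0) ^ 2 * (rm θ a w L x ^ 2 * ‖w - y‖⁻¹) ≤ M * (1 * ‖w - y‖⁻¹) := by
            apply mul_le_mul (hM _) _ (by positivity) hM0
            exact mul_le_mul_of_nonneg_right (wi_rm_le a w L x) (by positivity)
        _ = M * (Metric.ball (x b) ρ).indicator (fun w => ‖w - y‖⁻¹) w := by
            rw [Set.indicator_of_mem hw2, one_mul]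
        _ ≤ _ := single_le_sum (f := fun b => M * (Metric.ball (x b) ρ).indicator
            (fun w => ‖w - y‖⁻¹) w) (fun b _ => hn b w) (mem_univ b)
  refine (integral_mono_of_nonneg (Filter.Eventually.of_forall fun w => by positivity)
    (integrable_finsetSum _ fun b _ => (hC (x b) y ρ hp).1.const_mul M)
    (Filter.Eventually.of_forall h2)).trans ?_
  rw [integral_finsetSum _ fun b _ => (hC (x b) y ρ hp).1.const_mul M]
  have h3 : ρ ^ 2 ≤ ρ := by
    calc ρ ^ 2 ≤ ρ ^ 1 := pow_le_pow_of_le_one hp.le hp1 (by norm_num)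
      _ = ρ := pow_one ρ
  have h4 : ∀ b ∈ (univ : Finset (Fin n)),
      ∫ w, M * (Metric.ball (x b) ρ).indicator (fun w => ‖w - y‖⁻¹) w ≤ M * (C * ρ) := by
    intro b _
    rw [integral_const_mul]
    apply mul_le_mul_of_nonneg_left _ hM0
    exact (hC (x b) y ρ hp).2.trans (mul_le_mul_of_nonneg_left h3 hC0)
  refine (sum_le_sum h4).trans ?_
  rw [sum_const, card_univ, Fintype.card_fin, nsmul_eq_mul]
  apply le_of_eq
  ring

theorem wint_n {χ : E3 → ℝ} (hχ : Bump χ) : ∃ C : ℝ, 0 ≤ C ∧ ∀ (x0 y : E3),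
      ∫ w, χ (w - x0) ^ 2 * (if ‖w - y‖ < 1 then ‖w - y‖⁻¹ else 0) ≤
        C * (if ‖x0 - y‖ < 2 then 1 else 0) := by
  obtain ⟨M, hM0, hM⟩ := wi_bd hχ
  obtain ⟨C, hC0, hC⟩ := wi_inv
  refine ⟨M * C, by positivity, fun x0 y => ?_⟩
  split_ifs with hxy
  · have h0 : ∀ w, 0 ≤ χ (w - x0) ^ 2 * (if ‖w - y‖ < 1 then ‖w - y‖⁻¹ else 0) := by
      intro w
      split_ifs <;> positivity
    have h2 : ∀ w, χ (w - x0) ^ 2 * (if ‖w - y‖ < 1 then ‖w - y‖⁻¹ else 0) ≤
        M * (Metric.ball y 1).indicator (fun w => ‖w - y‖⁻¹) w := by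
      intro w
      by_cases hw : ‖w - y‖ < 1
      · have hw2 : w ∈ Metric.ball y 1 := by
          rw [Metric.mem_ball, dist_eq_norm]
          exact hw
        rw [if_pos hw, Set.indicator_of_mem hw2]
        exact mul_le_mul_of_nonneg_right (hM _) (by positivity)
      · rw [if_neg hw, mul_zero]
        exact mul_nonneg hM0 (Set.indicator_nonneg (fun _ _ => by positivity) w)
    refine (integral_mono_of_nonneg (Filter.Eventually.of_forall h0)
      ((hC y y 1 one_pos).1.const_mul M) (Filter.Eventually.of_forall h2)).trans ?_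
    rw [integral_const_mul, mul_one]
    apply mul_le_mul_of_nonneg_left _ hM0
    have := (hC y y 1 one_pos).2
    rwa [one_pow, mul_one] at this
  · rw [mul_zero]
    apply le_of_eq
    apply integral_eq_zero_of_ae
    refine Filter.Eventually.of_forall fun w => ?_
    simp only [Pi.zero_apply]
    by_cases hχw : χ (w - x0) = 0
    · rw [hχw]
      ring
    · have h3 := hχ.supp _ hχw
      rw [if_neg, mul_zero]
      intro h4
      apply hxy
      have h5 : x0 - y = -(w - x0) + (w - y) := by abel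
      rw [h5]
      refine (norm_add_le _ _).trans_lt ?_
      rw [norm_neg]
      linarith

end H6.CM
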