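import Pool.Agent.H6.CM.SwE

/-! The exclusion principle. With `P_b ψ = 1[σ b = τ] g (x b) ∫ g (u) ψ (σ, x[b → u]) du / ∫ g^2` one has `⟪P_b ψ, P_c ψ⟫ = 0` for `b ≠ c` by antisymmetry and `P_b` is an orthogonal projection; expand `0 ≤ ‖ψ - ∑_b P_b ψ‖ ^ 2`; all `‖P_b ψ‖` are equal by antisymmetry. Stated for one fixed spin value `τ` and a weight `ρ` of total mass one in the variable `x a` which is integrated out. -/

open MeasureTheory Finset

namespace H6.CM

namespace Excl

/-- contraction of `f` with `g` in the variable `b` -/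
noncomputable def exA {n : ℕ} (g : E3 → ℝ) (f : (Fin n → E3) → ℂ) (b : Fin n)
    (x : Fin n → E3) : ℂ :=
  ∫ u, (g u : ℂ) * f (Function.update x b u)

/-- the exchange map -/
def sw {n : ℕ} (b : Fin n) (p : (Fin n → E3) × E3) : (Fin n → E3) × E3 :=
  (Function.update p.1 b p.2, p.1 b)

theorem sw_sw {n : ℕ} (b : Fin n) (p : (Fin n → E3) × E3) : sw b (sw b p) = p := by
  simp [sw]

theorem sw_cont {n : ℕ} (b : Fin n) : Continuous (sw b) := by
  unfold sw
  exact (continuous_fst.update b continuous_snd).prodMk ((continuous_apply b).comp continuous_fst)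

theorem sw_mp {n : ℕ} (b : Fin n) :
    MeasurePreserving (sw b) (volume : Measure ((Fin n → E3) × E3)) volume := by
  refine ⟨(sw_cont b).measurable, ?_⟩
  ext A hA
  rw [Measure.map_apply (sw_cont b).measurable hA,
    ← lintegral_indicator_one ((sw_cont b).measurable hA), ← lintegral_indicator_one hA,
    ← swX_lint b (A.indicator 1) (measurable_one.indicator hA)]
  rfl

/-- the exchange map as an equivalence -/
def swM {n : ℕ} (b : Fin n) : (Fin n → E3) × E3 ≃ᵐ (Fin n → E3) × E3 where
  toEquiv := ⟨sw b, sw b, sw_sw b, sw_sw b⟩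
  measurable_toFun := (sw_cont b).measurable
  measurable_invFun := (sw_cont b).measurable

theorem sw_integral {n : ℕ} {F : Type*} [NormedAddCommGroup F] [NormedSpace ℝ F] (b : Fin n)
    (H : (Fin n → E3) × E3 → F) : ∫ p, H (sw b p) = ∫ p, H p :=
  (sw_mp b).integral_comp (swM b).measurableEmbedding H

theorem exch {n : ℕ} {F : Type*} [NormedAddCommGroup F] [NormedSpace ℝ F] [CompleteSpace F]
    (b : Fin n) (ρ : E3 → ℝ) (hρ1 : ∫ v, ρ v = 1)
    (K : (Fin n → E3) → F) (H : (Fin n → E3) × E3 → F) (hH : Integrable H)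
    (h : ∀ x u, H (Function.update x b u, x b) = ρ u • K x) :
    Integrable K ∧ ∫ x, K x = ∫ x, ∫ u, H (x, u) := by
  have h1 : Integrable (fun p => H (sw b p)) := (sw_mp b).integrable_comp_of_integrable hH
  have h3 : (fun x => ∫ u, H (sw b (x, u))) = K := by
    funext x
    have h4 : ∀ u, H (sw b (x, u)) = ρ u • K x := fun u => h x u
    simp_rw [h4, integral_smul_const, hρ1, one_smul]
  have h2 : Integrable (fun x => ∫ u, H (sw b (x, u))) := h1.integral_prod_left
  refine ⟨h3 ▸ h2, ?_⟩
  have h5 : ∫ x, ∫ u, H (x, u) = ∫ p, H p := (integral_prod _ hH).symm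
  have h6 : ∫ p, H (sw b p) = ∫ x, ∫ u, H (sw b (x, u)) := integral_prod _ h1
  rw [h5, ← sw_integral b H, h6, h3]

theorem cs_x {n : ℕ} {F : Type*} [Zero F] (C : Set E3) (hC : IsCompact C)
    (K : (Fin n → E3) → F) (h : ∀ x, K x ≠ 0 → ∀ c, x c ∈ C) : HasCompactSupport K :=
  HasCompactSupport.intro (isCompact_univ_pi (fun _ => hC))
    (fun x hx => by
      by_contra h0
      exact hx (fun c _ => h x h0 c))

theorem cs_p {n : ℕ} {F : Type*} [Zero F] (C : Set E3) (hC : IsCompact C)
    (H : (Fin n → E3) × E3 → F) (h : ∀ x u, H (x, u) ≠ 0 → (∀ c, x c ∈ C) ∧ u ∈ C) :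
    HasCompactSupport H :=
  HasCompactSupport.intro ((isCompact_univ_pi (fun _ => hC)).prod hC)
    (fun p hp => by
      by_contra h0
      exact hp ⟨fun c _ => (h p.1 p.2 h0).1 c, (h p.1 p.2 h0).2⟩)

section
variable {n : ℕ} (g : E3 → ℝ) (hg : Continuous g) (f : (Fin n → E3) → ℂ) (hf : Continuous f)
  (C : Set E3) (hC : IsCompact C) (hfC : ∀ x, f x ≠ 0 → ∀ c, x c ∈ C)

theorem exA_upd (b : Fin n) (x : Fin n → E3) (v : E3) :
    exA g f b (Function.update x b v) = exA g f b x := by
  simp [exA]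

include hfC in
theorem exA_supp (b : Fin n) (x : Fin n → E3) (h : exA g f b x ≠ 0) :
    ∀ c, c ≠ b → x c ∈ C := by
  intro c hc
  by_contra h1
  apply h
  unfold exA
  have : ∀ u, (g u : ℂ) * f (Function.update x b u) = 0 := by
    intro u
    by_contra h2
    have h3 := hfC _ (right_ne_zero_of_mul h2) c
    rw [Function.update_of_ne hc] at h3
    exact h1 h3
  simp [this]

include hg hf hC hfC in
theorem exA_cont (b : Fin n) : Continuous (exA g f b) := by
  have h1 : exA g f b = fun x => ∫ u in C, (g u : ℂ) * f (Function.update x b u) := by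
    funext x
    unfold exA
    rw [setIntegral_eq_integral_of_forall_compl_eq_zero]
    intro u hu
    by_contra h2
    have h3 := hfC _ (right_ne_zero_of_mul h2) b
    rw [Function.update_self] at h3
    exact hu h3
  rw [h1]
  refine continuous_parametric_integral_of_continuous ?_ hC
  have h2 : Continuous (fun p : (Fin n → E3) × E3 => Function.update p.1 b p.2) :=
    continuous_fst.update b continuous_snd
  exact (Complex.continuous_ofReal.comp (hg.comp continuous_snd)).mul (hf.comp h2)

variable (ρ : E3 → ℝ) (hρ : Continuous ρ) (hρC : ∀ v, ρ v ≠ 0 → v ∈ C) (hρ1 : ∫ v, ρ v = 1)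
  (hg2 : Integrable (fun v => g v ^ 2))

include hg hf hC hfC hρ hρC in
theorem t_int (b : Fin n) : Integrable (fun x => ρ (x b) * ‖exA g f b x‖ ^ 2) := by
  have hA := exA_cont g hg f hf C hC hfC b
  refine Continuous.integrable_of_hasCompactSupport ?_ ?_
  · exact (hρ.comp (continuous_apply b)).mul (hA.norm.pow 2)
  · refine cs_x C hC _ ?_
    intro x hx c
    by_cases hcb : c = b
    · subst hcb
      exact hρC _ (left_ne_zero_of_mul hx)
    · refine exA_supp g f C hfC b x ?_ c hcb
      intro h0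
      apply hx
      simp [h0]

include hg hf hC hfC hρ hρC hρ1 hg2 in
theorem f1 (b : Fin n) :
    Integrable (fun x => ‖exA g f b x‖ ^ 2 * g (x b) ^ 2) ∧
    ∫ x, ‖exA g f b x‖ ^ 2 * g (x b) ^ 2 =
      (∫ v, g v ^ 2) * ∫ x, ρ (x b) * ‖exA g f b x‖ ^ 2 := by
  have h1 := t_int g hg f hf C hC hfC ρ hρ hρC b
  have h2 : Integrable (fun p : (Fin n → E3) × E3 =>
      (ρ (p.1 b) * ‖exA g f b p.1‖ ^ 2) * g p.2 ^ 2) := h1.mul_prod hg2
  have h3 := exch b ρ hρ1 (fun x => ‖exA g f b x‖ ^ 2 * g (x b) ^ 2) _ h2 (by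
    intro x u
    simp only [Function.update_self, exA_upd, smul_eq_mul]
    ring)
  refine ⟨h3.1, ?_⟩
  rw [h3.2]
  simp only [integral_const_mul, integral_mul_const]
  ring

include hg hf hC hfC hρ hρC hρ1 in
theorem f3 (b : Fin n) :
    Integrable (fun x => (starRingEnd ℂ (f x) * ((g (x b) : ℂ) * exA g f b x)).re) ∧
    ∫ x, (starRingEnd ℂ (f x) * ((g (x b) : ℂ) * exA g f b x)).re =
      ∫ x, ρ (x b) * ‖exA g f b x‖ ^ 2 := by
  have hA := exA_cont g hg f hf C hC hfC b
  have hu : Continuous (fun p : (Fin n → E3) × E3 => Function.update p.1 b p.2) :=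
    continuous_fst.update b continuous_snd
  have hb : Continuous (fun p : (Fin n → E3) × E3 => p.1 b) :=
    (continuous_apply b).comp continuous_fst
  have h2 : Integrable (fun p : (Fin n → E3) × E3 =>
      (ρ (p.1 b) : ℂ) * (starRingEnd ℂ (f (Function.update p.1 b p.2)) *
        ((g p.2 : ℂ) * exA g f b p.1))) := by
    refine Continuous.integrable_of_hasCompactSupport ?_ ?_
    · exact (Complex.continuous_ofReal.comp (hρ.comp hb)).mul
        ((Complex.continuous_conj.comp (hf.comp hu)).mul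
          ((Complex.continuous_ofReal.comp (hg.comp continuous_snd)).mul (hA.comp continuous_fst)))
    · refine cs_p C hC _ ?_
      intro x u hx
      have h3 : ρ (x b) ≠ 0 := by
        intro h; apply hx; simp [h]
      have h4 : f (Function.update x b u) ≠ 0 := by
        intro h; apply hx; simp [h]
      have h5 : exA g f b x ≠ 0 := by
        intro h; apply hx; simp [h]
      refine ⟨fun c => ?_, ?_⟩
      · by_cases hcb : c = b
        · subst hcb
          exact hρC _ h3
        · exact exA_supp g f C hfC b x h5 c hcb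
      · have := hfC _ h4 b
        rwa [Function.update_self] at this
  have h3 := exch b ρ hρ1
    (fun x => starRingEnd ℂ (f x) * ((g (x b) : ℂ) * exA g f b x)) _ h2 (by
    intro x u
    simp only [Function.update_self, exA_upd, Function.update_idem, Function.update_eq_self,
      Complex.real_smul])
  refine ⟨h3.1.re, ?_⟩
  have h4 : ∫ x, (starRingEnd ℂ (f x) * ((g (x b) : ℂ) * exA g f b x)).re =
      (∫ x, starRingEnd ℂ (f x) * ((g (x b) : ℂ) * exA g f b x)).re :=
    integral_re h3.1
  rw [h4, h3.2]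
  have h5 : ∀ x : Fin n → E3, ∫ u, (ρ (x b) : ℂ) * (starRingEnd ℂ (f (Function.update x b u)) *
        ((g u : ℂ) * exA g f b x)) = ((ρ (x b) * ‖exA g f b x‖ ^ 2 : ℝ) : ℂ) := by
    intro x
    have h6 : ∀ u, (ρ (x b) : ℂ) * (starRingEnd ℂ (f (Function.update x b u)) *
        ((g u : ℂ) * exA g f b x)) =
        ((ρ (x b) : ℂ) * exA g f b x) *
          (starRingEnd ℂ ((g u : ℂ) * f (Function.update x b u))) := by
      intro u
      rw [map_mul, Complex.conj_ofReal]
      ring
    simp_rw [h6]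
    rw [integral_const_mul, integral_conj]
    change (ρ (x b) : ℂ) * exA g f b x * (starRingEnd ℂ (exA g f b x)) = _
    rw [mul_assoc, Complex.mul_conj, Complex.normSq_eq_norm_sq]
    push_cast
    ring
  simp only [h5]
  rw [integral_complex_ofReal, Complex.ofReal_re]

include hg hf hC hfC hρ hρC hρ1 in
theorem f4 (b c : Fin n) (hbc : b ≠ c)
    (ha : ∀ x, f (x ∘ Equiv.swap b c) = - f x) :
    Integrable (fun x => (starRingEnd ℂ ((g (x b) : ℂ) * exA g f b x) *
      ((g (x c) : ℂ) * exA g f c x)).re) ∧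
    ∫ x, (starRingEnd ℂ ((g (x b) : ℂ) * exA g f b x) *
      ((g (x c) : ℂ) * exA g f c x)).re = 0 := by
  have hA := exA_cont g hg f hf C hC hfC b
  have hA' := exA_cont g hg f hf C hC hfC c
  have hu : Continuous (fun p : (Fin n → E3) × E3 => Function.update p.1 b p.2) :=
    continuous_fst.update b continuous_snd
  have hb : Continuous (fun p : (Fin n → E3) × E3 => p.1 b) :=
    (continuous_apply b).comp continuous_fst
  have hc' : Continuous (fun p : (Fin n → E3) × E3 => p.1 c) :=
    (continuous_apply c).comp continuous_fst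
  have h2 : Integrable (fun p : (Fin n → E3) × E3 =>
      ((ρ (p.1 b) : ℂ) * (g (p.1 c) : ℂ) * starRingEnd ℂ (exA g f b p.1)) *
        ((g p.2 : ℂ) * exA g f c (Function.update p.1 b p.2))) := by
    refine Continuous.integrable_of_hasCompactSupport ?_ ?_
    · exact (((Complex.continuous_ofReal.comp (hρ.comp hb)).mul
        (Complex.continuous_ofReal.comp (hg.comp hc'))).mul
        (Complex.continuous_conj.comp (hA.comp continuous_fst))).mul
          ((Complex.continuous_ofReal.comp (hg.comp continuous_snd)).mul (hA'.comp hu))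
    · refine cs_p C hC _ ?_
      intro x u hx
      have h3 : ρ (x b) ≠ 0 := by
        intro h; apply hx; simp [h]
      have h4 : exA g f c (Function.update x b u) ≠ 0 := by
        intro h; apply hx; simp [h]
      have h5 : exA g f b x ≠ 0 := by
        intro h; apply hx; simp [h]
      refine ⟨fun d => ?_, ?_⟩
      · by_cases hdb : d = b
        · subst hdb
          exact hρC _ h3
        · exact exA_supp g f C hfC b x h5 d hdb
      · have := exA_supp g f C hfC c _ h4 b hbc
        rwa [Function.update_self] at this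
  have h3 := exch b ρ hρ1
    (fun x => starRingEnd ℂ ((g (x b) : ℂ) * exA g f b x) *
      ((g (x c) : ℂ) * exA g f c x)) _ h2 (by
    intro x u
    simp only [Function.update_self, exA_upd, Function.update_idem, Function.update_eq_self,
      Complex.real_smul, Function.update_of_ne hbc.symm, map_mul, Complex.conj_ofReal]
    ring)
  refine ⟨h3.1.re, ?_⟩
  have h4 : ∫ x, (starRingEnd ℂ ((g (x b) : ℂ) * exA g f b x) *
      ((g (x c) : ℂ) * exA g f c x)).re =
      (∫ x, starRingEnd ℂ ((g (x b) : ℂ) * exA g f b x) *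
      ((g (x c) : ℂ) * exA g f c x)).re :=
    integral_re h3.1
  rw [h4, h3.2]
  have h5 : ∀ x : Fin n → E3,
      ∫ u, (g u : ℂ) * exA g f c (Function.update x b u) = 0 := by
    intro x
    have hup : ∀ u v : E3, f (Function.update (Function.update x b u) c v) =
        - f (Function.update (Function.update x b v) c u) := by
      intro u v
      rw [← ha]
      congr 1
      funext d
      simp only [Function.comp]
      by_cases h1 : d = b
      · subst h1
        rw [Equiv.swap_apply_left, Function.update_self, Function.update_of_ne hbc,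
          Function.update_self]
      · by_cases h2 : d = c
        · subst h2
          rw [Equiv.swap_apply_right, Function.update_self, Function.update_of_ne hbc,
            Function.update_self]
        · rw [Equiv.swap_apply_of_ne_of_ne h1 h2, Function.update_of_ne h2,
            Function.update_of_ne h1, Function.update_of_ne h2, Function.update_of_ne h1]
    have huu : Continuous (fun p : E3 × E3 =>
        Function.update (Function.update x b p.1) c p.2) :=
      ((continuous_const : Continuous (fun _ : E3 × E3 => x)).update b continuous_fst).update c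
        continuous_snd
    have hint : Integrable (Function.uncurry (fun u v : E3 => (g u : ℂ) * ((g v : ℂ) *
        f (Function.update (Function.update x b u) c v)))) (volume.prod volume) := by
      refine Continuous.integrable_of_hasCompactSupport ?_ ?_
      · exact (Complex.continuous_ofReal.comp (hg.comp continuous_fst)).mul
          ((Complex.continuous_ofReal.comp (hg.comp continuous_snd)).mul (hf.comp huu))
      · refine HasCompactSupport.intro (hC.prod hC) ?_
        rintro ⟨u, v⟩ huv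
        by_contra h0
        have h6 : f (Function.update (Function.update x b u) c v) ≠ 0 := by
          intro h; apply h0; simp [Function.uncurry, h]
        apply huv
        refine ⟨?_, ?_⟩
        · have := hfC _ h6 b
          rwa [Function.update_of_ne hbc, Function.update_self] at this
        · have := hfC _ h6 c
          rwa [Function.update_self] at this
    have h6 : ∫ u, (g u : ℂ) * exA g f c (Function.update x b u) =
        ∫ u, ∫ v, (g u : ℂ) * ((g v : ℂ) *
          f (Function.update (Function.update x b u) c v)) := by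
      refine integral_congr_ae (Filter.Eventually.of_forall fun u => ?_)
      simp only [exA]
      rw [integral_const_mul]
    have h7 : ∫ u, ∫ v, (g u : ℂ) * ((g v : ℂ) *
          f (Function.update (Function.update x b u) c v)) =
        - ∫ u, ∫ v, (g u : ℂ) * ((g v : ℂ) *
          f (Function.update (Function.update x b u) c v)) := by
      conv_lhs => rw [integral_integral_swap hint]
      rw [← integral_neg]
      refine integral_congr_ae (Filter.Eventually.of_forall fun v => ?_)
      simp only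
      rw [← integral_neg]
      refine integral_congr_ae (Filter.Eventually.of_forall fun u => ?_)
      simp only
      rw [hup u v]
      ring
    rw [h6]
    have h8 : ∀ z : ℂ, z = - z → z = 0 := by
      intro z hz
      have h9 : 2 * z = 0 := by linear_combination hz
      simpa using h9
    exact h8 _ h7
  simp only [integral_const_mul, h5, mul_zero, integral_zero, Complex.zero_re]

end

theorem nsub (z w : ℂ) : ‖z - w‖ ^ 2 = ‖z‖ ^ 2 - 2 * (starRingEnd ℂ z * w).re + ‖w‖ ^ 2 := by
  simp only [← Complex.normSq_eq_norm_sq, Complex.normSq_apply]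
  simp
  ring

theorem nsum {ι : Type*} (S : Finset ι) (w : ι → ℂ) :
    ‖∑ b ∈ S, w b‖ ^ 2 = ∑ b ∈ S, ∑ c ∈ S, (starRingEnd ℂ (w b) * w c).re := by
  have : (‖∑ b ∈ S, w b‖ ^ 2) = (starRingEnd ℂ (∑ b ∈ S, w b) * ∑ c ∈ S, w c).re := by
    rw [← Complex.normSq_eq_conj_mul_self, Complex.ofReal_re, Complex.normSq_eq_norm_sq]
  rw [this, map_sum, Finset.sum_mul_sum, Complex.re_sum]
  simp_rw [Complex.re_sum]

theorem one_spin {n : ℕ} (g : E3 → ℝ) (hg : Continuous g)
    (hg2 : Integrable (fun v => g v ^ 2)) (f : (Fin n → E3) → ℂ) (hf : Continuous f)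
    (C : Set E3) (hC : IsCompact C) (hfC : ∀ x, f x ≠ 0 → ∀ c, x c ∈ C)
    (ρ : E3 → ℝ) (hρ : Continuous ρ) (hρC : ∀ v, ρ v ≠ 0 → v ∈ C) (hρ1 : ∫ v, ρ v = 1)
    (S : Finset (Fin n))
    (ha : ∀ b ∈ S, ∀ c ∈ S, b ≠ c → ∀ x, f (x ∘ Equiv.swap b c) = - f x) :
    (∫ v, g v ^ 2) * ∑ b ∈ S, ∫ x, ρ (x b) * ‖exA g f b x‖ ^ 2 ≤
      (∫ v, g v ^ 2) ^ 2 * ∫ x, ‖f x‖ ^ 2 := by
  set N := ∫ v, g v ^ 2 with hN
  have hfi : Integrable (fun x => ‖f x‖ ^ 2) := by
    refine Continuous.integrable_of_hasCompactSupport (hf.norm.pow 2) ?_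
    refine cs_x C hC _ ?_
    intro x hx c
    refine hfC x ?_ c
    intro h0
    apply hx
    simp [h0]
  have F1 := f1 g hg f hf C hC hfC ρ hρ hρC hρ1 hg2
  have F3 := f3 g hg f hf C hC hfC ρ hρ hρC hρ1
  have F4 := f4 g hg f hf C hC hfC ρ hρ hρC hρ1
  have FF : ∀ b ∈ S, ∀ c ∈ S, Integrable (fun x => (starRingEnd ℂ ((g (x b) : ℂ) * exA g f b x) *
      ((g (x c) : ℂ) * exA g f c x)).re) ∧
      ∫ x, (starRingEnd ℂ ((g (x b) : ℂ) * exA g f b x) *
      ((g (x c) : ℂ) * exA g f c x)).re =
        if b = c then N * ∫ x, ρ (x b) * ‖exA g f b x‖ ^ 2 else 0 := by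
    intro b hb c hc
    by_cases hbc : b = c
    · subst hbc
      have h1 : (fun x => (starRingEnd ℂ ((g (x b) : ℂ) * exA g f b x) *
          ((g (x b) : ℂ) * exA g f b x)).re) =
          fun x => ‖exA g f b x‖ ^ 2 * g (x b) ^ 2 := by
        funext x
        rw [← Complex.normSq_eq_conj_mul_self, Complex.ofReal_re, Complex.normSq_eq_norm_sq,
          norm_mul, mul_pow, Complex.norm_real, Real.norm_eq_abs, sq_abs, mul_comm]
      rw [h1, if_pos rfl]
      exact F1 b
    · rw [if_neg hbc]
      exact F4 b c hbc (ha b hb c hc hbc)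
  have hpt : ∀ x, ‖(N : ℂ) * f x - ∑ b ∈ S, (g (x b) : ℂ) * exA g f b x‖ ^ 2 =
      N ^ 2 * ‖f x‖ ^ 2 - 2 * N * ∑ b ∈ S,
        (starRingEnd ℂ (f x) * ((g (x b) : ℂ) * exA g f b x)).re +
      ∑ b ∈ S, ∑ c ∈ S, (starRingEnd ℂ ((g (x b) : ℂ) * exA g f b x) *
      ((g (x c) : ℂ) * exA g f c x)).re := by
    intro x
    rw [nsub, nsum, norm_mul, mul_pow, Complex.norm_real, Real.norm_eq_abs, sq_abs]
    congr 2
    rw [map_mul, Complex.conj_ofReal, mul_assoc, Complex.re_ofReal_mul, Finset.mul_sum,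
      Complex.re_sum]
    ring
  have h0 : 0 ≤ ∫ x, ‖(N : ℂ) * f x - ∑ b ∈ S, (g (x b) : ℂ) * exA g f b x‖ ^ 2 :=
    integral_nonneg (fun x => by positivity)
  simp_rw [hpt] at h0
  have i1 : Integrable (fun x => N ^ 2 * ‖f x‖ ^ 2) := hfi.const_mul _
  have i2 : Integrable (fun x => 2 * N * ∑ b ∈ S,
        (starRingEnd ℂ (f x) * ((g (x b) : ℂ) * exA g f b x)).re) :=
    (integrable_finsetSum S (fun b _ => (F3 b).1)).const_mul _
  have i3 : Integrable (fun x => ∑ b ∈ S, ∑ c ∈ S,
      (starRingEnd ℂ ((g (x b) : ℂ) * exA g f b x) * ((g (x c) : ℂ) * exA g f c x)).re) :=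
    integrable_finsetSum S (fun b hb => integrable_finsetSum S (fun c hc => (FF b hb c hc).1))
  have i12 : Integrable (fun x => N ^ 2 * ‖f x‖ ^ 2 - 2 * N * ∑ b ∈ S,
        (starRingEnd ℂ (f x) * ((g (x b) : ℂ) * exA g f b x)).re) := i1.sub i2
  rw [integral_add i12 i3, integral_sub i1 i2, integral_const_mul, integral_const_mul,
    integral_finsetSum S (fun b _ => (F3 b).1),
    integral_finsetSum S (fun b hb => integrable_finsetSum S (fun c hc => (FF b hb c hc).1))] at h0
  have h5 : ∑ b ∈ S, ∫ x, ∑ c ∈ S, (starRingEnd ℂ ((g (x b) : ℂ) * exA g f b x) *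
      ((g (x c) : ℂ) * exA g f c x)).re =
      ∑ b ∈ S, N * ∫ x, ρ (x b) * ‖exA g f b x‖ ^ 2 := by
    refine Finset.sum_congr rfl fun b hb => ?_
    rw [integral_finsetSum S (fun c hc => (FF b hb c hc).1)]
    rw [Finset.sum_congr rfl (fun c hc => (FF b hb c hc).2)]
    simp [hb]
  rw [h5, Finset.sum_congr rfl (fun b _ => (F3 b).2), ← Finset.mul_sum] at h0
  linarith

theorem perm_eq {q n : ℕ} (ψ : (Fin n → Fin q) → (Fin n → E3) → ℂ)
    (ha : ∀ (π : Equiv.Perm (Fin n)) σ x,
      ψ (σ ∘ π) (x ∘ π) = ((Equiv.Perm.sign π : ℤ) : ℂ) * ψ σ x)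
    (g ρ : E3 → ℝ) (τ : Fin q) (a b : Fin n) :
    ∑ σ, (if σ b = τ then ∫ x, ρ (x b) * ‖exA g (ψ σ) b x‖ ^ 2 else 0) =
    ∑ σ, (if σ a = τ then ∫ x, ρ (x a) * ‖exA g (ψ σ) a x‖ ^ 2 else 0) := by
  set π := Equiv.swap a b with hπ
  have hππ : ∀ y : Fin n, π (π y) = y := fun y => Equiv.swap_apply_self _ _ _ 
  let E : (Fin n → Fin q) ≃ (Fin n → Fin q) :=
    ⟨fun σ => σ ∘ π, fun σ => σ ∘ π, fun σ => by funext y; simp [hππ],
      fun σ => by funext y; simp [hππ]⟩
  rw [← Equiv.sum_comp E]
  refine Finset.sum_congr rfl fun σ _ => ?_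
  have h1 : (E σ) b = σ a := by
    change σ (π b) = σ a
    rw [hπ, Equiv.swap_apply_right]
  rw [h1]
  congr 1
  have h2 : MeasurePreserving (MeasurableEquiv.piCongrLeft (fun _ : Fin n => E3) π)
      volume volume := volume_measurePreserving_piCongrLeft (fun _ : Fin n => E3) π
  have h3 : ∀ x : Fin n → E3, MeasurableEquiv.piCongrLeft (fun _ : Fin n => E3) π x = x ∘ π := by
    intro x
    funext y
    have h4 : MeasurableEquiv.piCongrLeft (fun _ : Fin n => E3) π x (π (π y)) = x (π y) :=
      Equiv.piCongrLeft_apply_apply (fun _ : Fin n => E3) π x (π y)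
    rw [hππ] at h4
    exact h4
  rw [← h2.integral_comp' (fun x => ρ (x b) * ‖exA g (ψ (E σ)) b x‖ ^ 2)]
  refine integral_congr_ae (Filter.Eventually.of_forall fun x => ?_)
  simp only
  rw [h3]
  have h5 : (x ∘ π) b = x a := by
    simp [hπ]
  rw [h5]
  congr 2
  unfold exA
  have h6 : ∀ u, ψ (E σ) (Function.update (x ∘ π) b u) =
      ((Equiv.Perm.sign π : ℤ) : ℂ) * ψ σ (Function.update x a u) := by
    intro u
    rw [← ha]
    congr 1
    funext y
    simp only [Function.comp]
    by_cases hy : y = b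
    · subst hy
      rw [Function.update_self, hπ, Equiv.swap_apply_right, Function.update_self]
    · rw [Function.update_of_ne hy, Function.update_of_ne]
      · rfl
      · intro h
        apply hy
        have := congrArg π h
        rw [hππ] at this
        rw [this, hπ, Equiv.swap_apply_left]
  have h7 : ∀ u, (g u : ℂ) * ψ (E σ) (Function.update (x ∘ π) b u) =
      ((Equiv.Perm.sign π : ℤ) : ℂ) * ((g u : ℂ) * ψ σ (Function.update x a u)) := by
    intro u
    rw [h6]
    ring
  simp_rw [h7]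
  rw [integral_const_mul, norm_mul]
  have h8 : ‖(((Equiv.Perm.sign π : ℤˣ) : ℤ) : ℂ)‖ = 1 := by
    rcases Int.units_eq_one_or (Equiv.Perm.sign π) with h | h <;> rw [h] <;> simp
  rw [h8, one_mul]

end Excl

open Excl in
theorem excl {q n : ℕ} (ψ : (Fin n → Fin q) → (Fin n → E3) → ℂ)
    (hs : ∀ σ, Continuous (ψ σ)) (hc : ∀ σ, HasCompactSupport (ψ σ))
    (ha : ∀ (π : Equiv.Perm (Fin n)) σ x,
      ψ (σ ∘ π) (x ∘ π) = ((Equiv.Perm.sign π : ℤ) : ℂ) * ψ σ x)
    (g : E3 → ℝ) (hg : Continuous g) (hg2 : Integrable (fun v => g v ^ 2))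
    (ρ : E3 → ℝ) (hρ : Continuous ρ) (hρc : HasCompactSupport ρ) (hρ0 : ∀ v, 0 ≤ ρ v)
    (hρ1 : ∫ v, ρ v = 1) (a : Fin n) (τ : Fin q) :
    n * ∑ σ, (if σ a = τ then
        ∫ x, ρ (x a) * ‖∫ u, (g u : ℂ) * ψ σ (Function.update x a u)‖ ^ 2 else 0) ≤
      (∫ v, g v ^ 2) * ∑ σ, ∫ x, ‖ψ σ x‖ ^ 2 := by
  have hN0 : 0 ≤ ∫ v, g v ^ 2 := integral_nonneg (fun v => by positivity)
  rcases eq_or_lt_of_le hN0 with hN | hN
  · -- `g = 0`
    have h1 : (fun v => g v ^ 2) =ᵐ[volume] 0 :=
      (integral_eq_zero_iff_of_nonneg (fun v => by positivity) hg2).1 hN.symm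
    have h2 : (fun v => g v ^ 2) = 0 :=
      Continuous.ae_eq_iff_eq volume (hg.pow 2) continuous_zero |>.1 h1
    have h3 : ∀ v, g v = 0 := by
      intro v
      have := congrFun h2 v
      simpa using this
    simp [h3]
  · -- the compact set
    obtain ⟨C, hC, hCf, hCρ⟩ : ∃ C : Set E3, IsCompact C ∧
        (∀ σ x, ψ σ x ≠ 0 → ∀ c, x c ∈ C) ∧ (∀ v, ρ v ≠ 0 → v ∈ C) := by
      refine ⟨(⋃ σ, ⋃ c : Fin n, (fun x : Fin n → E3 => x c) '' (tsupport (ψ σ))) ∪ tsupport ρ,
        ?_, ?_, ?_⟩
      · refine IsCompact.union ?_ hρc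
        refine isCompact_iUnion fun σ => isCompact_iUnion fun c => ?_
        exact (hc σ).image (continuous_apply c)
      · intro σ x hx c
        refine Or.inl ?_
        refine Set.mem_iUnion.2 ⟨σ, Set.mem_iUnion.2 ⟨c, x, subset_tsupport _ hx, rfl⟩⟩
      · intro v hv
        exact Or.inr (subset_tsupport _ hv)
    have hsp : ∀ σ, ∑ b ∈ univ.filter (fun b => σ b = τ),
        ∫ x, ρ (x b) * ‖exA g (ψ σ) b x‖ ^ 2 ≤ (∫ v, g v ^ 2) * ∫ x, ‖ψ σ x‖ ^ 2 := by
      intro σ
      have h1 := one_spin g hg hg2 (ψ σ) (hs σ) C hC (hCf σ) ρ hρ hCρ hρ1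
        (univ.filter (fun b => σ b = τ)) (by
          intro b hb c hc hbc x
          have hb' : σ b = τ := (Finset.mem_filter.1 hb).2
          have hc' : σ c = τ := (Finset.mem_filter.1 hc).2
          have h2 := ha (Equiv.swap b c) σ x
          have h3 : σ ∘ Equiv.swap b c = σ := by
            funext y
            simp only [Function.comp]
            by_cases h4 : y = b
            · subst h4
              rw [Equiv.swap_apply_left, hc', hb']
            · by_cases h5 : y = c
              · subst h5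
                rw [Equiv.swap_apply_right, hc', hb']
              · rw [Equiv.swap_apply_of_ne_of_ne h4 h5]
          rw [h3, Equiv.Perm.sign_swap hbc] at h2
          rw [h2]
          simp)
      rw [pow_two, mul_assoc] at h1
      exact le_of_mul_le_mul_left h1 hN
    have h2 : ∑ b : Fin n, ∑ σ, (if σ b = τ then
        ∫ x, ρ (x b) * ‖exA g (ψ σ) b x‖ ^ 2 else 0) ≤
        (∫ v, g v ^ 2) * ∑ σ, ∫ x, ‖ψ σ x‖ ^ 2 := by
      rw [Finset.sum_comm, Finset.mul_sum]
      refine Finset.sum_le_sum fun σ _ => ?_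
      rw [← Finset.sum_filter]
      exact hsp σ
    rw [Finset.sum_congr rfl (fun b _ => perm_eq ψ ha g ρ τ a b)] at h2
    rw [Finset.sum_const, Finset.card_univ, Fintype.card_fin, nsmul_eq_mul] at h2
    exact h2

end H6.CM
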