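import Pool.Agent.H6.CM.LTa
import Pool.Agent.H6.CM.Excl

/-! The Lieb-Thirring inequality in the form with a potential: `lta` with `δ / 4` for every electron `a` and every `σ` (weight `ρ = χ ^ 2` from `bump_ex`), then `excl` with `g = hk t (v - ·)` (its square integral is `(8 π t) ^ (-3/2)` by `hk_sq`), `t = tm δ (W v) ≥ δ / (2 W v)`; sum over `a` and the `q` values of the spin. -/

open MeasureTheory Finset

namespace H6.CM

private theorem sum_lint {α ι : Type*} [MeasurableSpace α] (μ : Measure α) (s : Finset ι)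
    (f : ι → α → ENNReal) : ∑ i ∈ s, ∫⁻ v, f i v ∂μ ≤ ∫⁻ v, ∑ i ∈ s, f i v ∂μ := by
  classical
  induction s using Finset.induction_on with
  | empty => simp
  | insert a s ha ih =>
    rw [Finset.sum_insert ha]
    simp_rw [Finset.sum_insert ha]
    exact (add_le_add_right ih _).trans (le_lintegral_add _ _)

private theorem tm_pos (δ u : ℝ) : 0 < tm δ u := by unfold tm; positivity

private theorem hk_cont (t : ℝ) : Continuous (hk t) := by
  unfold hk
  fun_prop

private theorem excl_sum {q n : ℕ} (ψ : (Fin n → Fin q) → (Fin n → E3) → ℂ)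
    (hs : ∀ σ, Continuous (ψ σ)) (hc : ∀ σ, HasCompactSupport (ψ σ))
    (ha : ∀ (π : Equiv.Perm (Fin n)) σ x,
      ψ (σ ∘ π) (x ∘ π) = ((Equiv.Perm.sign π : ℤ) : ℂ) * ψ σ x)
    (g : E3 → ℝ) (hg : Continuous g) (hg2 : Integrable (fun v => g v ^ 2))
    (ρ : E3 → ℝ) (hρ : Continuous ρ) (hρc : HasCompactSupport ρ) (hρ0 : ∀ v, 0 ≤ ρ v)
    (hρ1 : ∫ v, ρ v = 1) :
    ∑ σ, ∑ a, ∫ x, ρ (x a) * ‖∫ u, (g u : ℂ) * ψ σ (Function.update x a u)‖ ^ 2 ≤
      q * (∫ v, g v ^ 2) * ∑ σ, ∫ x, ‖ψ σ x‖ ^ 2 := by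
  set T : Fin n → (Fin n → Fin q) → ℝ := fun a σ =>
    ∫ x, ρ (x a) * ‖∫ u, (g u : ℂ) * ψ σ (Function.update x a u)‖ ^ 2 with hT
  have h0 : 0 ≤ (∫ v, g v ^ 2) * ∑ σ, ∫ x, ‖ψ σ x‖ ^ 2 :=
    mul_nonneg (integral_nonneg fun v => by positivity)
      (Finset.sum_nonneg fun σ _ => integral_nonneg fun x => by positivity)
  have h1 : ∀ a, n * ∑ σ, T a σ ≤ q * ((∫ v, g v ^ 2) * ∑ σ, ∫ x, ‖ψ σ x‖ ^ 2) := by
    intro a
    have : ∑ τ : Fin q, (n * ∑ σ : Fin n → Fin q, (if σ a = τ then T a σ else 0)) ≤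
        ∑ _τ : Fin q, (∫ v, g v ^ 2) * ∑ σ, ∫ x, ‖ψ σ x‖ ^ 2 :=
      Finset.sum_le_sum fun τ _ => excl ψ hs hc ha g hg hg2 ρ hρ hρc hρ0 hρ1 a τ
    rw [← Finset.mul_sum, Finset.sum_comm] at this
    simpa using this
  rcases Nat.eq_zero_or_pos n with hn | hn
  · subst hn
    simp only [Finset.univ_eq_empty, Finset.sum_empty, Finset.sum_const_zero]
    rw [mul_assoc]
    exact mul_nonneg (Nat.cast_nonneg _) h0
  · have hn' : (0 : ℝ) < n := by exact_mod_cast hn
    have h2 : n * ∑ a, ∑ σ, T a σ ≤ n * (q * ((∫ v, g v ^ 2) * ∑ σ, ∫ x, ‖ψ σ x‖ ^ 2)) := by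
      have : ∑ a, n * ∑ σ, T a σ ≤ ∑ _a : Fin n, q * ((∫ v, g v ^ 2) * ∑ σ, ∫ x, ‖ψ σ x‖ ^ 2) :=
        Finset.sum_le_sum fun a _ => h1 a
      rw [← Finset.mul_sum] at this
      simpa using this
    have h3 := le_of_mul_le_mul_left h2 hn'
    rw [Finset.sum_comm, mul_assoc]
    exact h3

theorem lt (q : ℕ) (δ : ℝ) (hδ : 0 < δ) : ∃ C : ℝ, 0 ≤ C ∧
    ∀ (n : ℕ) (ψ : (Fin n → Fin q) → (Fin n → E3) → ℂ)
    (_ : ∀ σ, ContDiff ℝ 1 (ψ σ)) (_ : ∀ σ, HasCompactSupport (ψ σ))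
    (_ : ∀ (π : Equiv.Perm (Fin n)) σ x,
      ψ (σ ∘ π) (x ∘ π) = ((Equiv.Perm.sign π : ℤ) : ℂ) * ψ σ x)
    (W : E3 → ℝ) (_ : Measurable W) (_ : ∀ v, 0 ≤ W v) (A : ℝ) (_ : 0 ≤ A)
    (_ : ∫⁻ v, ENNReal.ofReal (W v ^ (5 / 2 : ℝ)) ≤ ENNReal.ofReal A),
    ∑ σ, ∫⁻ x, ENNReal.ofReal ((∑ a, W (x a)) * ‖ψ σ x‖ ^ 2) ≤
      ENNReal.ofReal (δ * ∑ σ, ∑ a, (∫ x, g3 (fun v => ψ σ (Function.update x a v)) (x a)) +
        C * A * ∑ σ, ∫ x, ‖ψ σ x‖ ^ 2) := by
  obtain ⟨χ, hχ⟩ := bump_ex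
  have hρc : Continuous (fun v => χ v ^ 2) := hχ.smooth.continuous.pow 2
  have hρs : HasCompactSupport (fun v => χ v ^ 2) := by
    refine hχ.cpt.mono ?_
    intro v hv
    simp only [Function.mem_support, ne_eq, pow_eq_zero_iff, OfNat.ofNat_ne_zero,
      not_false_eq_true] at hv ⊢
    exact hv
  refine ⟨2 * (q * (Real.pi * δ) ^ (-(3 / 2) : ℝ)), by positivity, ?_⟩
  intro n ψ hψ hc ha W hWm hW0 A hA hWA
  set M := ∑ σ, ∫ x, ‖ψ σ x‖ ^ 2 with hM
  have hM0 : 0 ≤ M := Finset.sum_nonneg fun σ _ => integral_nonneg fun x => by positivity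
  set P : (Fin n → Fin q) → Fin n → E3 → ENNReal := fun σ a v =>
    ENNReal.ofReal (W v) * ENNReal.ofReal (∫ x, χ (x a) ^ 2 *
        ‖Ph (tm (δ / 4) (W v)) (fun u => ψ σ (Function.update x a u)) v‖ ^ 2) with hP
  have h1 : ∀ σ a, ∫⁻ x, ENNReal.ofReal (W (x a) * ‖ψ σ x‖ ^ 2) ≤
      ENNReal.ofReal (δ * ∫ x, g3 (fun v => ψ σ (Function.update x a v)) (x a)) +
      2 * ∫⁻ v, P σ a v := by
    intro σ a
    have := lta (ψ σ) (hψ σ) (hc σ) W hWm hW0 (δ / 4) (by positivity) (fun v => χ v ^ 2)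
      hρc hρs (fun v => by positivity) hχ.norm a
    have e : 4 * (δ / 4) = δ := by ring
    rw [e] at this
    exact this
  have hK0 : ∀ σ a, 0 ≤ δ * ∫ x, g3 (fun v => ψ σ (Function.update x a v)) (x a) := fun σ a =>
    mul_nonneg hδ.le (integral_nonneg fun x => by unfold g3; positivity)
  -- the pointwise bound
  have h2 : ∀ v, ∑ σ, ∑ a, P σ a v ≤
      ENNReal.ofReal (q * (Real.pi * δ) ^ (-(3 / 2) : ℝ) * M) *
        ENNReal.ofReal (W v ^ (5 / 2 : ℝ)) := by
    intro v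
    set t := tm (δ / 4) (W v) with ht
    have ht0 : 0 < t := tm_pos _ _
    have hsq := hk_sq t ht0
    have hg2 : Integrable (fun u => hk t (v - u) ^ 2) := hsq.1.comp_sub_left v
    have hgi : ∫ u, hk t (v - u) ^ 2 = (8 * Real.pi * t) ^ (-(3 / 2) : ℝ) := by
      rw [← hsq.2]
      exact integral_sub_left_eq_self (fun u => hk t u ^ 2) volume v
    have he := excl_sum ψ (fun σ => (hψ σ).continuous) hc ha (fun u => hk t (v - u))
      ((hk_cont t).comp (continuous_const.sub continuous_id)) hg2 (fun v => χ v ^ 2)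
      hρc hρs (fun v => by positivity) hχ.norm
    rw [hgi] at he
    have hsum : ∑ σ, ∑ a, P σ a v = ENNReal.ofReal (W v) * ENNReal.ofReal (∑ σ, ∑ a,
        ∫ x, χ (x a) ^ 2 * ‖∫ u, (hk t (v - u) : ℂ) * ψ σ (Function.update x a u)‖ ^ 2) := by
      rw [ENNReal.ofReal_sum_of_nonneg]
      · rw [Finset.mul_sum]
        refine Finset.sum_congr rfl fun σ _ => ?_
        rw [ENNReal.ofReal_sum_of_nonneg]
        · rw [Finset.mul_sum]
          rfl
        · intro a _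
          exact integral_nonneg fun x => by positivity
      · intro σ _
        exact Finset.sum_nonneg fun a _ => integral_nonneg fun x => by positivity
    rw [hsum]
    rcases (hW0 v).eq_or_lt with hw | hw
    · rw [← hw]; simp
    · refine (mul_le_mul_right (ENNReal.ofReal_le_ofReal he) _).trans ?_
      rw [← ENNReal.ofReal_mul hw.le, ← ENNReal.ofReal_mul (by positivity)]
      apply ENNReal.ofReal_le_ofReal
      have ht1 : δ / (8 * W v) ≤ t := by
        have := (tm_le (δ / 4) (W v) (by positivity) hw).2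
        rw [← ht] at this
        have e : δ / (8 * W v) = δ / 4 / W v / 2 := by field_simp; norm_num
        rw [e]; linarith
      have ht2 : Real.pi * δ / W v ≤ 8 * Real.pi * t := by
        have := mul_le_mul_of_nonneg_left ht1 (by positivity : 0 ≤ 8 * Real.pi)
        have e : 8 * Real.pi * (δ / (8 * W v)) = Real.pi * δ / W v := by field_simp
        rw [e] at this; exact this
      have ht3 : (8 * Real.pi * t) ^ (-(3 / 2) : ℝ) ≤
          (Real.pi * δ) ^ (-(3 / 2) : ℝ) * W v ^ (3 / 2 : ℝ) := by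
        refine (Real.rpow_le_rpow_of_nonpos (by positivity) ht2 (by norm_num)).trans ?_
        rw [Real.div_rpow (by positivity) hw.le, Real.rpow_neg hw.le, div_inv_eq_mul]
      have e52 : W v ^ (5 / 2 : ℝ) = W v * W v ^ (3 / 2 : ℝ) := by
        rw [← Real.rpow_one_add' hw.le (by norm_num)]; norm_num
      rw [e52]
      have := mul_le_mul_of_nonneg_left ht3 (by positivity : 0 ≤ W v * q * M)
      calc W v * (q * (8 * Real.pi * t) ^ (-(3 / 2) : ℝ) * M)
          = W v * q * M * (8 * Real.pi * t) ^ (-(3 / 2) : ℝ) := by ring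
        _ ≤ _ := this
        _ = _ := by ring
  calc ∑ σ, ∫⁻ x, ENNReal.ofReal ((∑ a, W (x a)) * ‖ψ σ x‖ ^ 2)
      = ∑ σ, ∑ a, ∫⁻ x, ENNReal.ofReal (W (x a) * ‖ψ σ x‖ ^ 2) := by
        refine Finset.sum_congr rfl fun σ _ => ?_
        rw [← lintegral_finsetSum]
        · refine lintegral_congr fun x => ?_
          rw [← ENNReal.ofReal_sum_of_nonneg fun a _ => mul_nonneg (hW0 _) (by positivity),
            Finset.sum_mul]
        · intro a _
          have h3 : Continuous (fun x => ‖ψ σ x‖ ^ 2) := by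
            have := (hψ σ).continuous
            fun_prop
          exact ((hWm.comp (measurable_pi_apply a)).mul h3.measurable).ennreal_ofReal
    _ ≤ ∑ σ, ∑ a, (ENNReal.ofReal (δ * ∫ x, g3 (fun v => ψ σ (Function.update x a v)) (x a)) +
          2 * ∫⁻ v, P σ a v) :=
        Finset.sum_le_sum fun σ _ => Finset.sum_le_sum fun a _ => h1 σ a
    _ = ENNReal.ofReal (δ * ∑ σ, ∑ a, (∫ x, g3 (fun v => ψ σ (Function.update x a v)) (x a))) +
          2 * ∑ σ, ∑ a, ∫⁻ v, P σ a v := by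
        simp_rw [Finset.sum_add_distrib, Finset.mul_sum]
        congr 1
        rw [ENNReal.ofReal_sum_of_nonneg fun σ _ => Finset.sum_nonneg fun a _ => hK0 σ a]
        refine Finset.sum_congr rfl fun σ _ => ?_
        rw [ENNReal.ofReal_sum_of_nonneg fun a _ => hK0 σ a]
    _ ≤ ENNReal.ofReal (δ * ∑ σ, ∑ a, (∫ x, g3 (fun v => ψ σ (Function.update x a v)) (x a))) +
          2 * ∫⁻ v, ∑ σ, ∑ a, P σ a v := by
        gcongr
        refine (Finset.sum_le_sum fun σ _ => sum_lint volume univ fun a v => P σ a v).trans ?_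
        exact sum_lint volume univ fun σ v => ∑ a, P σ a v
    _ ≤ ENNReal.ofReal (δ * ∑ σ, ∑ a, (∫ x, g3 (fun v => ψ σ (Function.update x a v)) (x a))) +
          2 * ∫⁻ v, ENNReal.ofReal (q * (Real.pi * δ) ^ (-(3 / 2) : ℝ) * M) *
            ENNReal.ofReal (W v ^ (5 / 2 : ℝ)) := by
        gcongr with v
        exact h2 v
    _ ≤ ENNReal.ofReal (δ * ∑ σ, ∑ a, (∫ x, g3 (fun v => ψ σ (Function.update x a v)) (x a))) +
          2 * (ENNReal.ofReal (q * (Real.pi * δ) ^ (-(3 / 2) : ℝ) * M) * ENNReal.ofReal A) := by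
        rw [lintegral_const_mul' _ _ ENNReal.ofReal_ne_top]
        gcongr
    _ = _ := by
        have e2 : ∀ X : ENNReal, 2 * X = ENNReal.ofReal 2 * X := fun X => by simp
        rw [e2 (_ * _), ← ENNReal.ofReal_mul (by positivity), ← ENNReal.ofReal_mul (by positivity),
          ← ENNReal.ofReal_add]
        · congr 1; ring
        · have := Finset.sum_nonneg fun σ (_ : σ ∈ (univ : Finset (Fin n → Fin q))) =>
            Finset.sum_nonneg fun a (_ : a ∈ (univ : Finset (Fin n))) => hK0 σ a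
          simp_rw [← Finset.mul_sum] at this
          exact this
        · positivity

end H6.CM
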