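import Pool.Agent.H6.CM.BallInv

/-! The 5/2 power of the truncated potential: `(sup - 1)_+ ^ (5/2) ≤ ∑ j, (‖v - R j‖⁻¹ - 1)_+ ^ (5/2)` and each term is at most `‖v - R j‖ ^ (-5/2)` on the unit ball around `R j` and `0` outside. -/

open MeasureTheory Finset

namespace H6.CM

theorem ur_meas (K : ℝ) {k : ℕ} (R : Fin k → E3) : Measurable (UR K R) := by
  unfold UR
  have h1 : Measurable fun v : E3 => ⨆ j, ‖v - R j‖⁻¹ :=
    Measurable.iSup fun j => ((measurable_id.sub_const (R j)).norm).inv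
  exact ((h1.sub_const 1).max measurable_const).const_mul K

theorem ur_nonneg (K : ℝ) (hK : 0 ≤ K) {k : ℕ} (R : Fin k → E3) (v : E3) : 0 ≤ UR K R v := by
  unfold UR
  exact mul_nonneg hK (le_max_right _ _)

/-- the radial profile -/
noncomputable def UInt_f (K t : ℝ) : ℝ := (K * max (t⁻¹ - 1) 0) ^ (5 / 2 : ℝ)

theorem UInt_f_meas (K : ℝ) : Measurable (UInt_f K) := by
  unfold UInt_f
  exact (((measurable_inv.sub_const 1).max measurable_const).const_mul K).pow_const _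

theorem UInt_f_nonneg (K : ℝ) (hK : 0 ≤ K) (t : ℝ) : 0 ≤ UInt_f K t := by
  unfold UInt_f
  exact Real.rpow_nonneg (mul_nonneg hK (le_max_right _ _)) _

theorem UInt_bound (K : ℝ) (hK : 0 ≤ K) {k : ℕ} (R : Fin k → E3) (v : E3) :
    UR K R v ^ (5 / 2 : ℝ) ≤ ∑ j, UInt_f K ‖v - R j‖ := by
  rcases isEmpty_or_nonempty (Fin k) with he | he
  · have h1 : UR K R v = 0 := by
      unfold UR
      rw [Real.iSup_of_isEmpty]
      norm_num
    rw [h1, Real.zero_rpow (by norm_num)]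
    exact sum_nonneg fun j _ => UInt_f_nonneg K hK _
  · obtain ⟨j, hj⟩ := exists_eq_ciSup_of_finite (f := fun j => ‖v - R j‖⁻¹)
    have h1 : UR K R v ^ (5 / 2 : ℝ) = UInt_f K ‖v - R j‖ := by
      unfold UR UInt_f
      rw [← hj]
    rw [h1]
    exact single_le_sum (f := fun j => UInt_f K ‖v - R j‖) (fun j _ => UInt_f_nonneg K hK _) (mem_univ j)

theorem UInt_int (K : ℝ) (hK : 0 ≤ K) : Integrable (fun v : E3 => UInt_f K ‖v‖) := by
  rw [integrable_fun_norm_addHaar (volume : Measure E3)]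
  have hdim : Module.finrank ℝ E3 - 1 = 2 := by simp
  rw [hdim]
  have hmeas : Measurable fun y : ℝ => y ^ 2 • UInt_f K y :=
    (measurable_id.pow_const 2).smul (UInt_f_meas K)
  rw [← Set.Ioc_union_Ioi_eq_Ioi (zero_le_one : (0 : ℝ) ≤ 1), integrableOn_union]
  constructor
  · have h1 : IntegrableOn (fun y : ℝ => K ^ (5 / 2 : ℝ) * y ^ (-(1 / 2) : ℝ)) (Set.Ioc 0 1) := by
      have h2 := (intervalIntegral.intervalIntegrable_rpow' (a := 0) (b := 1)
        (r := (-(1 / 2) : ℝ)) (by norm_num)).const_mul (K ^ (5 / 2 : ℝ))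
      exact (intervalIntegrable_iff_integrableOn_Ioc_of_le zero_le_one).1 h2
    refine Integrable.mono' h1 hmeas.aestronglyMeasurable ?_
    refine (ae_restrict_iff' measurableSet_Ioc).2 (Filter.Eventually.of_forall fun y hy => ?_)
    have hy0 : 0 < y := hy.1
    have h3 : UInt_f K y ≤ K ^ (5 / 2 : ℝ) * y ^ (-(5 / 2) : ℝ) := by
      unfold UInt_f
      have h4 : K * max (y⁻¹ - 1) 0 ≤ K * y⁻¹ := by
        refine mul_le_mul_of_nonneg_left (max_le ?_ ?_) hK
        · linarith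
        · exact (inv_pos.2 hy0).le
      refine (Real.rpow_le_rpow (mul_nonneg hK (le_max_right _ _)) h4 (by norm_num)).trans ?_
      rw [Real.mul_rpow hK (inv_pos.2 hy0).le, Real.inv_rpow hy0.le, ← Real.rpow_neg hy0.le]
    rw [smul_eq_mul, Real.norm_of_nonneg (mul_nonneg (sq_nonneg y) (UInt_f_nonneg K hK y))]
    calc y ^ 2 * UInt_f K y ≤ y ^ 2 * (K ^ (5 / 2 : ℝ) * y ^ (-(5 / 2) : ℝ)) :=
          mul_le_mul_of_nonneg_left h3 (sq_nonneg y)
      _ = K ^ (5 / 2 : ℝ) * (y ^ (2 : ℝ) * y ^ (-(5 / 2) : ℝ)) := by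
          rw [Real.rpow_two]
          ring
      _ = K ^ (5 / 2 : ℝ) * y ^ (-(1 / 2) : ℝ) := by
          rw [← Real.rpow_add hy0]
          norm_num
  · have h1 : Set.EqOn (fun _ : ℝ => (0 : ℝ)) (fun y : ℝ => y ^ 2 • UInt_f K y) (Set.Ioi 1) := by
      intro y hy
      have hy1 : (1 : ℝ) < y := hy
      have h2 : y⁻¹ - 1 ≤ 0 := by
        have := inv_le_one_of_one_le₀ hy1.le
        linarith
      change (0 : ℝ) = y ^ 2 • UInt_f K y
      unfold UInt_f
      rw [max_eq_right h2, mul_zero, Real.zero_rpow (by norm_num), smul_zero]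
    exact (integrableOn_zero (ε' := ℝ)).congr_fun h1 measurableSet_Ioi

theorem uint (K : ℝ) (hK : 0 ≤ K) : ∃ C : ℝ, 0 ≤ C ∧ ∀ (k : ℕ) (R : Fin k → E3),
    ∫⁻ v, ENNReal.ofReal (UR K R v ^ (5 / 2 : ℝ)) ≤ ENNReal.ofReal (C * k) := by
  obtain ⟨I, hI⟩ : ∃ I : ENNReal, I = ∫⁻ v : E3, ENNReal.ofReal (UInt_f K ‖v‖) := ⟨_, rfl⟩
  have hfin : I < ⊤ := by
    rw [hI]
    exact (UInt_int K hK).lintegral_lt_top
  refine ⟨I.toReal, ENNReal.toReal_nonneg, fun k R => ?_⟩
  have hm : ∀ j : Fin k, Measurable fun v : E3 => ENNReal.ofReal (UInt_f K ‖v - R j‖) := fun j =>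
    ENNReal.measurable_ofReal.comp ((UInt_f_meas K).comp (measurable_id.sub_const (R j)).norm)
  calc ∫⁻ v, ENNReal.ofReal (UR K R v ^ (5 / 2 : ℝ))
      ≤ ∫⁻ v, ∑ j, ENNReal.ofReal (UInt_f K ‖v - R j‖) := by
        refine lintegral_mono fun v => ?_
        rw [← ENNReal.ofReal_sum_of_nonneg fun j _ => UInt_f_nonneg K hK _]
        exact ENNReal.ofReal_le_ofReal (UInt_bound K hK R v)
    _ = ∑ j : Fin k, ∫⁻ v, ENNReal.ofReal (UInt_f K ‖v - R j‖) :=
        lintegral_finsetSum _ fun j _ => hm j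
    _ = ∑ _j : Fin k, I := by
        refine sum_congr rfl fun j _ => ?_
        rw [hI]
        exact lintegral_sub_right_eq_self (fun v : E3 => ENNReal.ofReal (UInt_f K ‖v‖)) (R j)
    _ = ENNReal.ofReal (I.toReal * k) := by
        rw [sum_const, card_univ, Fintype.card_fin, nsmul_eq_mul,
          ENNReal.ofReal_mul ENNReal.toReal_nonneg, ENNReal.ofReal_toReal hfin.ne, ENNReal.ofReal_natCast,
          mul_comm]

end H6.CM
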