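import Pool.Agent.H6.CM.Defs

/-! The formula of Fefferman and de la Llave: `∫ r^-5 |B_r(x) ∩ B_r(y)| dr = c / ‖x - y‖` (a linear isometry takes `x - y` to any vector of the same norm, e.g. a reflection; scaling; the integral over `z` vanishes for `2 r ≤ ‖x - y‖` and is at most `|B_r|`). -/

open MeasureTheory Finset

namespace H6.CM

private theorem bx_meas (x : E3) : Measurable (bx x) := by
  unfold bx
  exact Measurable.ite (measurableSet_lt (by fun_prop) measurable_fst) measurable_const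
    measurable_const

private theorem bx_nonneg (x : E3) (u : ℝ × E3) : 0 ≤ bx x u := by
  unfold bx
  split_ifs <;> norm_num

private theorem bx_le_one (x : E3) (u : ℝ × E3) : bx x u ≤ 1 := by
  unfold bx
  split_ifs <;> norm_num

private theorem bx_zero (x : E3) (u : ℝ × E3) (h : u.1 ≤ 0) : bx x u = 0 := by
  unfold bx
  rw [if_neg]
  have := norm_nonneg (x - u.2)
  linarith

private theorem f1_meas (x : E3) (D : ℝ) : Measurable fun u : ℝ × E3 =>
    (u.1 ^ 5)⁻¹ * (bx x u * (if D / 2 < u.1 then (1 : ℝ) else 0)) := by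
  have h1 : Measurable fun u : ℝ × E3 => (u.1 ^ 5)⁻¹ := (measurable_fst.pow_const 5).inv
  have h2 : Measurable fun u : ℝ × E3 => (if D / 2 < u.1 then (1 : ℝ) else 0) :=
    Measurable.ite (measurableSet_lt measurable_const measurable_fst) measurable_const
      measurable_const
  exact h1.mul ((bx_meas x).mul h2)

private theorem f1_nonneg (x : E3) (D : ℝ) (u : ℝ × E3) :
    0 ≤ (u.1 ^ 5)⁻¹ * (bx x u * (if D / 2 < u.1 then (1 : ℝ) else 0)) := by
  rcases le_or_gt u.1 0 with h | h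
  · rw [bx_zero x u h]
    simp
  · have h1 : (0 : ℝ) ≤ if D / 2 < u.1 then (1 : ℝ) else 0 := by split_ifs <;> norm_num
    exact mul_nonneg (inv_nonneg.mpr (pow_nonneg h.le 5)) (mul_nonneg (bx_nonneg x u) h1)

private theorem inv_sq_int (a : ℝ) (ha : 0 < a) :
    ∫⁻ r in Set.Ioi a, ENNReal.ofReal ((r ^ 2)⁻¹) = ENNReal.ofReal a⁻¹ := by
  have h1 : ∀ r ∈ Set.Ioi a, (r ^ 2)⁻¹ = r ^ (-2 : ℝ) := by
    intro r hr
    have hr0 : 0 < r := lt_trans ha hr
    rw [Real.rpow_neg hr0.le]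
    norm_num
  have hi : IntegrableOn (fun r : ℝ => (r ^ 2)⁻¹) (Set.Ioi a) :=
    (integrableOn_Ioi_rpow_of_lt (by norm_num : (-2 : ℝ) < -1) ha).congr_fun
      (fun r hr => (h1 r hr).symm) measurableSet_Ioi
  rw [← ofReal_integral_eq_lintegral_ofReal hi (Filter.Eventually.of_forall fun r =>
    inv_nonneg.mpr (sq_nonneg r))]
  congr 1
  rw [setIntegral_congr_fun measurableSet_Ioi h1, integral_Ioi_rpow_of_lt (by norm_num) ha]
  norm_num
  rw [Real.rpow_neg_one]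

private theorem one_aux (x : E3) (D : ℝ) (hD : 0 < D) :
    ∫⁻ u : ℝ × E3, ENNReal.ofReal ((u.1 ^ 5)⁻¹ * (bx x u * (if D / 2 < u.1 then (1 : ℝ) else 0)))
      = ENNReal.ofReal (2 * D⁻¹) * (volume : Measure E3) (Metric.ball (0 : E3) 1) := by
  rw [Measure.volume_eq_prod, lintegral_prod _ (f1_meas x D).ennreal_ofReal.aemeasurable]
  have h1 : ∀ r : ℝ, ∫⁻ z : E3, ENNReal.ofReal (((r, z).1 ^ 5)⁻¹ *
      (bx x (r, z) * (if D / 2 < (r, z).1 then (1 : ℝ) else 0)))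
      = (Set.Ioi (D / 2)).indicator (fun r => ENNReal.ofReal ((r ^ 2)⁻¹) *
        (volume : Measure E3) (Metric.ball (0 : E3) 1)) r := by
    intro r
    by_cases hr : D / 2 < r
    · rw [Set.indicator_of_mem (show r ∈ Set.Ioi (D / 2) from hr)]
      have hr0 : 0 < r := by linarith
      have h2 : ∀ z : E3, ENNReal.ofReal (((r, z).1 ^ 5)⁻¹ *
          (bx x (r, z) * (if D / 2 < (r, z).1 then (1 : ℝ) else 0)))
          = ENNReal.ofReal ((r ^ 5)⁻¹) * (Metric.ball x r).indicator (fun _ => (1 : ENNReal)) z := by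
        intro z
        simp only
        rw [if_pos hr, mul_one, ENNReal.ofReal_mul (by positivity)]
        congr 1
        unfold bx
        by_cases hz : ‖x - z‖ < r
        · rw [if_pos hz, Set.indicator_of_mem, ENNReal.ofReal_one]
          rw [Metric.mem_ball, dist_comm, dist_eq_norm]
          exact hz
        · rw [if_neg hz, Set.indicator_of_notMem, ENNReal.ofReal_zero]
          rw [Metric.mem_ball, dist_comm, dist_eq_norm]
          exact hz
      simp_rw [h2]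
      rw [lintegral_const_mul _ (measurable_const.indicator measurableSet_ball),
        lintegral_indicator measurableSet_ball, lintegral_const, one_mul,
        Measure.restrict_apply MeasurableSet.univ, Set.univ_inter,
        Measure.addHaar_ball_of_pos _ _ hr0, ← mul_assoc, ← ENNReal.ofReal_mul (by positivity)]
      congr 2
      have h3 : Module.finrank ℝ E3 = 3 := by simp
      rw [h3]
      field_simp
    · rw [Set.indicator_of_notMem (show r ∉ Set.Ioi (D / 2) from hr)]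
      have h2 : ∀ z : E3, ENNReal.ofReal (((r, z).1 ^ 5)⁻¹ *
          (bx x (r, z) * (if D / 2 < (r, z).1 then (1 : ℝ) else 0))) = 0 := by
        intro z
        simp only
        rw [if_neg hr]
        simp
      simp_rw [h2]
      exact lintegral_zero
  simp_rw [h1]
  rw [lintegral_indicator measurableSet_Ioi, lintegral_mul_const _ (by fun_prop),
    inv_sq_int (D / 2) (by linarith)]
  congr 2
  rw [inv_div]
  ring

private theorem one_int (x : E3) (D : ℝ) (hD : 0 < D) :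
    Integrable (fun u : ℝ × E3 =>
      (u.1 ^ 5)⁻¹ * (bx x u * (if D / 2 < u.1 then (1 : ℝ) else 0))) := by
  refine ⟨(f1_meas x D).aestronglyMeasurable, ?_⟩
  rw [hasFiniteIntegral_iff_ofReal (Filter.Eventually.of_forall (f1_nonneg x D)),
    one_aux x D hD]
  exact ENNReal.mul_lt_top ENNReal.ofReal_lt_top measure_ball_lt_top

private theorem f2_meas (x y : E3) : Measurable fun u : ℝ × E3 =>
    (u.1 ^ 5)⁻¹ * (bx x u * bx y u) :=
  ((measurable_fst.pow_const 5).inv).mul ((bx_meas x).mul (bx_meas y))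

private theorem f2_nonneg (x y : E3) (u : ℝ × E3) : 0 ≤ (u.1 ^ 5)⁻¹ * (bx x u * bx y u) := by
  rcases le_or_gt u.1 0 with h | h
  · rw [bx_zero x u h]
    simp
  · exact mul_nonneg (inv_nonneg.mpr (pow_nonneg h.le 5)) (mul_nonneg (bx_nonneg x u)
      (bx_nonneg y u))

private theorem f2_int (x y : E3) (hxy : x ≠ y) :
    Integrable (fun u : ℝ × E3 => (u.1 ^ 5)⁻¹ * (bx x u * bx y u)) := by
  have hD : 0 < ‖x - y‖ := norm_pos_iff.mpr (sub_ne_zero.mpr hxy)
  refine (one_int x ‖x - y‖ hD).mono' (f2_meas x y).aestronglyMeasurable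
    (Filter.Eventually.of_forall fun u => ?_)
  rw [Real.norm_eq_abs, abs_of_nonneg (f2_nonneg x y u)]
  rcases le_or_gt u.1 0 with h | h
  · rw [bx_zero x u h]
    simp
  · refine mul_le_mul_of_nonneg_left ?_ (inv_nonneg.mpr (pow_nonneg h.le 5))
    by_cases h2 : ‖x - u.2‖ < u.1
    · refine mul_le_mul_of_nonneg_left ?_ (bx_nonneg x u)
      by_cases h1 : ‖x - y‖ / 2 < u.1
      · rw [if_pos h1]
        exact bx_le_one y u
      · rw [if_neg h1]
        unfold bx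
        rw [if_neg]
        intro h3
        apply h1
        have h4 : ‖x - y‖ ≤ ‖x - u.2‖ + ‖y - u.2‖ := by
          calc ‖x - y‖ = ‖(x - u.2) - (y - u.2)‖ := by congr 1; abel
            _ ≤ _ := norm_sub_le _ _
        linarith
    · have h5 : bx x u = 0 := by
        unfold bx
        rw [if_neg h2]
      rw [h5, zero_mul, zero_mul]

private theorem haar_prod : (volume : Measure (ℝ × E3)).IsAddHaarMeasure := by
  rw [Measure.volume_eq_prod]
  infer_instance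

private theorem I_trans (x y : E3) :
    ∫ u : ℝ × E3, (u.1 ^ 5)⁻¹ * (bx x u * bx y u)
      = ∫ u : ℝ × E3, (u.1 ^ 5)⁻¹ * (bx (x - y) u * bx 0 u) := by
  have hinst := haar_prod
  have h1 := integral_add_right_eq_self (μ := (volume : Measure (ℝ × E3)))
    (fun u : ℝ × E3 => (u.1 ^ 5)⁻¹ * (bx (x - y) u * bx 0 u)) ((0 : ℝ), -y)
  rw [← h1]
  refine integral_congr_ae (Filter.Eventually.of_forall fun u => ?_)
  have h2 : bx (x - y) (u + ((0 : ℝ), -y)) = bx x u := by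
    unfold bx
    have h3 : x - y - (u + ((0 : ℝ), -y)).2 = x - u.2 := by
      show x - y - (u.2 + -y) = x - u.2
      abel
    have h4 : (u + ((0 : ℝ), -y)).1 = u.1 := by
      show u.1 + 0 = u.1
      rw [add_zero]
    rw [h3, h4]
  have h5 : bx 0 (u + ((0 : ℝ), -y)) = bx y u := by
    unfold bx
    have h3 : (0 : E3) - (u + ((0 : ℝ), -y)).2 = y - u.2 := by
      show 0 - (u.2 + -y) = y - u.2
      abel
    have h4 : (u + ((0 : ℝ), -y)).1 = u.1 := by
      show u.1 + 0 = u.1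
      rw [add_zero]
    rw [h3, h4]
  show (u.1 ^ 5)⁻¹ * (bx x u * bx y u) = ((u + ((0 : ℝ), -y)).1 ^ 5)⁻¹ *
    (bx (x - y) (u + ((0 : ℝ), -y)) * bx 0 (u + ((0 : ℝ), -y)))
  rw [h2, h5]
  congr 3
  show u.1 = u.1 + 0
  rw [add_zero]

private theorem I_rot (x y : E3) (h : ‖x‖ = ‖y‖) :
    ∫ u : ℝ × E3, (u.1 ^ 5)⁻¹ * (bx x u * bx 0 u)
      = ∫ u : ℝ × E3, (u.1 ^ 5)⁻¹ * (bx y u * bx 0 u) := by
  obtain ⟨T, hT⟩ : ∃ T : E3 ≃ₗᵢ[ℝ] E3, T x = y := ⟨_, Submodule.reflection_sub h⟩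
  have hmp : MeasurePreserving (Prod.map id T : ℝ × E3 → ℝ × E3) volume volume :=
    (MeasurePreserving.id (volume : Measure ℝ)).prod T.measurePreserving
  have hemb : MeasurableEmbedding (Prod.map id T : ℝ × E3 → ℝ × E3) :=
    MeasurableEmbedding.id.prodMap T.toMeasurableEquiv.measurableEmbedding
  have h1 := hmp.integral_comp hemb (fun u : ℝ × E3 => (u.1 ^ 5)⁻¹ * (bx y u * bx 0 u))
  rw [← h1]
  refine integral_congr_ae (Filter.Eventually.of_forall fun u => ?_)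
  have h2 : bx y (Prod.map id T u) = bx x u := by
    unfold bx
    have h3 : ‖y - (Prod.map id T u : ℝ × E3).2‖ = ‖x - u.2‖ := by
      show ‖y - T u.2‖ = ‖x - u.2‖
      rw [← hT, ← map_sub, T.norm_map]
    rw [h3]
    rfl
  have h5 : bx 0 (Prod.map id T u) = bx 0 u := by
    unfold bx
    have h3 : ‖(0 : E3) - (Prod.map id T u : ℝ × E3).2‖ = ‖(0 : E3) - u.2‖ := by
      show ‖(0 : E3) - T u.2‖ = ‖(0 : E3) - u.2‖
      rw [zero_sub, zero_sub, norm_neg, norm_neg, T.norm_map]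
    rw [h3]
    rfl
  show (u.1 ^ 5)⁻¹ * (bx x u * bx 0 u) = (u.1 ^ 5)⁻¹ *
    (bx y (Prod.map id T u) * bx 0 (Prod.map id T u))
  rw [h2, h5]

private theorem I_scale (x : E3) (l : ℝ) (hl : 0 < l) :
    ∫ u : ℝ × E3, (u.1 ^ 5)⁻¹ * (bx (l • x) u * bx 0 u)
      = l⁻¹ * ∫ u : ℝ × E3, (u.1 ^ 5)⁻¹ * (bx x u * bx 0 u) := by
  have hinst := haar_prod
  have h1 := Measure.integral_comp_smul (volume : Measure (ℝ × E3))
    (fun u : ℝ × E3 => (u.1 ^ 5)⁻¹ * (bx (l • x) u * bx 0 u)) l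
  have hfin : Module.finrank ℝ (ℝ × E3) = 4 := by
    rw [Module.finrank_prod]
    simp
  rw [hfin, smul_eq_mul, abs_of_pos (inv_pos.mpr (pow_pos hl 4))] at h1
  have hb : ∀ (w : E3) (u : ℝ × E3), bx (l • w) (l • u) = bx w u := by
    intro w u
    unfold bx
    have h3 : ‖l • w - (l • u).2‖ = l * ‖w - u.2‖ := by
      show ‖l • w - l • u.2‖ = l * ‖w - u.2‖
      rw [← smul_sub, norm_smul, Real.norm_eq_abs, abs_of_pos hl]
    have h4 : (l • u).1 = l * u.1 := rfl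
    rw [h3, h4]
    by_cases h5 : ‖w - u.2‖ < u.1
    · rw [if_pos h5, if_pos (mul_lt_mul_of_pos_left h5 hl)]
    · rw [if_neg h5, if_neg]
      intro h6
      exact h5 (lt_of_mul_lt_mul_left h6 hl.le)
  have h2 : ∀ u : ℝ × E3, ((l • u).1 ^ 5)⁻¹ * (bx (l • x) (l • u) * bx 0 (l • u))
      = (l ^ 5)⁻¹ * ((u.1 ^ 5)⁻¹ * (bx x u * bx 0 u)) := by
    intro u
    have h0 : bx 0 (l • u) = bx 0 u := by
      have := hb 0 u
      rwa [smul_zero] at this
    rw [hb x u, h0]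
    have h4 : (l • u).1 = l * u.1 := rfl
    rw [h4, mul_pow, mul_inv]
    ring
  simp_rw [h2] at h1
  rw [integral_const_mul] at h1
  have h3 : ∫ u : ℝ × E3, (u.1 ^ 5)⁻¹ * (bx (l • x) u * bx 0 u)
      = l ^ 4 * ((l ^ 4)⁻¹ * ∫ u : ℝ × E3, (u.1 ^ 5)⁻¹ * (bx (l • x) u * bx 0 u)) := by
    rw [← mul_assoc, mul_inv_cancel₀ (pow_pos hl 4).ne', one_mul]
  rw [h3, ← h1, ← mul_assoc]
  congr 1
  field_simp

theorem fdl : ∃ c : ℝ, 0 < c ∧ ∀ x y : E3, x ≠ y →
    Integrable (fun u : ℝ × E3 => (u.1 ^ 5)⁻¹ * (bx x u * bx y u)) ∧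
    ∫ u : ℝ × E3, (u.1 ^ 5)⁻¹ * (bx x u * bx y u) = c * ‖x - y‖⁻¹ := by
  obtain ⟨e, he⟩ : ∃ e : E3, ‖e‖ = 1 := ⟨EuclideanSpace.single (0 : Fin 3) (1 : ℝ), by simp⟩
  have he0 : e ≠ 0 := by
    intro h
    rw [h, norm_zero] at he
    exact zero_ne_one he
  refine ⟨∫ u : ℝ × E3, (u.1 ^ 5)⁻¹ * (bx e u * bx 0 u), ?_, fun x y hxy => ⟨f2_int x y hxy, ?_⟩⟩
  · rw [integral_pos_iff_support_of_nonneg (fun u => f2_nonneg e 0 u) (f2_int e 0 he0)]
    have hopen : IsOpen {u : ℝ × E3 | ‖e - u.2‖ < u.1 ∧ ‖(0 : E3) - u.2‖ < u.1} := by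
      refine IsOpen.inter ?_ ?_
      · exact isOpen_lt (by fun_prop) continuous_fst
      · exact isOpen_lt (by fun_prop) continuous_fst
    have hne : {u : ℝ × E3 | ‖e - u.2‖ < u.1 ∧ ‖(0 : E3) - u.2‖ < u.1}.Nonempty := by
      refine ⟨(2, 0), ?_, ?_⟩
      · show ‖e - 0‖ < 2
        rw [sub_zero, he]
        norm_num
      · show ‖(0 : E3) - 0‖ < 2
        rw [sub_zero, norm_zero]
        norm_num
    refine lt_of_lt_of_le (hopen.measure_pos volume hne) (measure_mono ?_)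
    rintro u ⟨h1, h2⟩
    have hu : 0 < u.1 := lt_of_le_of_lt (norm_nonneg _) h1
    have h3 : bx e u = 1 := by
      unfold bx
      rw [if_pos h1]
    have h4 : bx 0 u = 1 := by
      unfold bx
      rw [if_pos h2]
    show (u.1 ^ 5)⁻¹ * (bx e u * bx 0 u) ≠ 0
    rw [h3, h4]
    have := pow_pos hu 5
    positivity
  · have hD : 0 < ‖x - y‖ := norm_pos_iff.mpr (sub_ne_zero.mpr hxy)
    have hv : ‖‖x - y‖⁻¹ • (x - y)‖ = ‖e‖ := by
      rw [he, norm_smul, norm_inv, norm_norm, inv_mul_cancel₀ hD.ne']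
    have hxv : x - y = ‖x - y‖ • (‖x - y‖⁻¹ • (x - y)) := by
      rw [smul_smul, mul_inv_cancel₀ hD.ne', one_smul]
    rw [I_trans x y]
    calc ∫ u : ℝ × E3, (u.1 ^ 5)⁻¹ * (bx (x - y) u * bx 0 u)
        = ∫ u : ℝ × E3, (u.1 ^ 5)⁻¹ * (bx (‖x - y‖ • (‖x - y‖⁻¹ • (x - y))) u * bx 0 u) := by
          rw [← hxv]
      _ = ‖x - y‖⁻¹ * ∫ u : ℝ × E3, (u.1 ^ 5)⁻¹ * (bx (‖x - y‖⁻¹ • (x - y)) u * bx 0 u) :=
          I_scale _ _ hD
      _ = ‖x - y‖⁻¹ * ∫ u : ℝ × E3, (u.1 ^ 5)⁻¹ * (bx e u * bx 0 u) := by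
          rw [I_rot _ e hv]
      _ = (∫ u : ℝ × E3, (u.1 ^ 5)⁻¹ * (bx e u * bx 0 u)) * ‖x - y‖⁻¹ := mul_comm _ _

theorem fdl_one : ∃ C : ℝ, 0 < C ∧ ∀ (x : E3) (D : ℝ), 0 < D →
    Integrable (fun u : ℝ × E3 => (u.1 ^ 5)⁻¹ * (bx x u * (if D / 2 < u.1 then 1 else 0))) ∧
    ∫ u : ℝ × E3, (u.1 ^ 5)⁻¹ * (bx x u * (if D / 2 < u.1 then 1 else 0)) ≤ C * D⁻¹ := by
  have hV : 0 < (volume : Measure E3).real (Metric.ball (0 : E3) 1) :=
    ENNReal.toReal_pos (Metric.measure_ball_pos _ _ one_pos).ne' measure_ball_lt_top.ne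
  refine ⟨2 * (volume : Measure E3).real (Metric.ball (0 : E3) 1), by positivity,
    fun x D hD => ⟨one_int x D hD, ?_⟩⟩
  rw [integral_eq_lintegral_of_nonneg_ae (Filter.Eventually.of_forall (f1_nonneg x D))
    (f1_meas x D).aestronglyMeasurable, one_aux x D hD, ENNReal.toReal_mul,
    ENNReal.toReal_ofReal (by positivity)]
  apply le_of_eq
  show 2 * D⁻¹ * (volume : Measure E3).real (Metric.ball (0 : E3) 1) = _
  ring

end H6.CM
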