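import Pool.Agent.H6.CM.Defs

/-! Exchanging the position of an electron with a spare point preserves the measure. Proof: `n = m + 1`; transport by `MeasurableEquiv.piFinSuccAbove` (`volume_preserving_piFinSuccAbove`) and the exchange of two factors of a product; or check on measurable rectangles with `Measure.pi_eq`. -/

open MeasureTheory Finset

namespace H6.CM

theorem haar_XE (n : ℕ) : (volume : Measure ((Fin n → E3) × E3)).IsAddHaarMeasure :=
  Measure.prod.instIsAddHaarMeasure (volume : Measure (Fin n → E3)) (volume : Measure E3)

theorem haar_CE (n k : ℕ) : (volume : Measure (Cfg n k × E3)).IsAddHaarMeasure :=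
  haveI : (volume : Measure (Cfg n k)).IsAddHaarMeasure :=
    Measure.prod.instIsAddHaarMeasure (volume : Measure (Fin n → E3))
      (volume : Measure (Fin k → E3))
  Measure.prod.instIsAddHaarMeasure (volume : Measure (Cfg n k)) (volume : Measure E3)

/-- a linear involution preserves Haar measure -/
theorem inv_mp {V : Type*} [NormedAddCommGroup V] [NormedSpace ℝ V] [FiniteDimensional ℝ V]
    [MeasurableSpace V] [BorelSpace V] (μ : Measure V) [μ.IsAddHaarMeasure] (L : V →ₗ[ℝ] V)
    (h : ∀ u, L (L u) = u) : MeasurePreserving L μ μ := by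
  have h1 : L ∘ₗ L = LinearMap.id := LinearMap.ext h
  have h2 : LinearMap.det L * LinearMap.det L = 1 := by
    rw [← LinearMap.det_comp, h1, LinearMap.det_id]
  have h3 : LinearMap.det L ≠ 0 := fun h => by rw [h] at h2; norm_num at h2
  have h4 : |(LinearMap.det L)⁻¹| = 1 := by
    rcases mul_self_eq_one_iff.1 h2 with h | h
    · rw [h]; norm_num
    · rw [h]; norm_num
  refine ⟨(LinearMap.continuous_of_finiteDimensional L).measurable, ?_⟩
  rw [Measure.map_linearMap_addHaar_eq_smul_addHaar μ h3, h4, ENNReal.ofReal_one, one_smul]

theorem swE_swE {n k : ℕ} (a : Fin n) (u : Cfg n k × E3) : swE a (swE a u) = u := by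
  unfold swE
  dsimp only
  rw [Function.update_self, Function.update_idem, Function.update_eq_self]

private theorem upd_add {n : ℕ} (a : Fin n) (x y : Fin n → E3) (v w : E3) :
    Function.update (x + y) a (v + w) = Function.update x a v + Function.update y a w := by
  funext i
  rcases eq_or_ne i a with rfl | hi
  · simp
  · simp [hi]

private theorem upd_smul {n : ℕ} (a : Fin n) (c : ℝ) (x : Fin n → E3) (v : E3) :
    Function.update (c • x) a (c • v) = c • Function.update x a v := by
  funext i
  rcases eq_or_ne i a with rfl | hi
  · simp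
  · simp [hi]

theorem swE_mp {n k : ℕ} (a : Fin n) :
    MeasurePreserving (swE (k := k) a) (volume : Measure (Cfg n k × E3)) volume := by
  haveI := haar_CE n k
  exact inv_mp (volume : Measure (Cfg n k × E3))
    { toFun := swE a
      map_add' := fun u w => by
        refine Prod.ext (Prod.ext ?_ rfl) rfl
        exact upd_add a u.1.1 w.1.1 u.2 w.2
      map_smul' := fun c u => by
        refine Prod.ext (Prod.ext ?_ rfl) rfl
        exact upd_smul a c u.1.1 u.2 } (swE_swE a)

private theorem swE_emb {n k : ℕ} (a : Fin n) : MeasurableEmbedding (swE (k := k) a) :=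
  (MeasurableEquiv.mk ⟨swE a, swE a, swE_swE a, swE_swE a⟩ (swE_mp a).measurable
    (swE_mp a).measurable).measurableEmbedding

theorem swE_int {n k : ℕ} (a : Fin n) (F : Cfg n k × E3 → ℝ) :
    ∫ u, F (swE a u) = ∫ u, F u :=
  (swE_mp a).integral_comp (swE_emb a) F

theorem swE_intble {n k : ℕ} (a : Fin n) (F : Cfg n k × E3 → ℝ) (hF : Integrable F) :
    Integrable (fun u => F (swE a u)) :=
  ((swE_mp a).integrable_comp_emb (swE_emb a)).2 hF

/-- the same on the positions of the electrons only, for nonnegative functions -/
theorem swX_lint {n : ℕ} (a : Fin n) (F : (Fin n → E3) × E3 → ENNReal) (hF : Measurable F) :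
    ∫⁻ u : (Fin n → E3) × E3, F (Function.update u.1 a u.2, u.1 a) = ∫⁻ u, F u := by
  haveI := haar_XE n
  have h1 : MeasurePreserving (fun u : (Fin n → E3) × E3 => (Function.update u.1 a u.2, u.1 a))
      volume volume :=
    inv_mp (volume : Measure ((Fin n → E3) × E3))
      { toFun := fun u => (Function.update u.1 a u.2, u.1 a)
        map_add' := fun u w => Prod.ext (upd_add a u.1 w.1 u.2 w.2) rfl
        map_smul' := fun c u => Prod.ext (upd_smul a c u.1 u.2) rfl } (fun u => by
          change (Function.update (Function.update u.1 a u.2) a (u.1 a),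
            Function.update u.1 a u.2 a) = u
          rw [Function.update_self, Function.update_idem, Function.update_eq_self])
  exact h1.lintegral_comp hF

end H6.CM
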