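import Pool.Agent.H6.CM.OneB
import Pool.Agent.H6.CM.SwE
import Pool.Agent.H6.CM.BumpEx

/-! One electron: apply `one_body` to the slices `u ↦ ψ σ (update x a u)`, multiply by `ρ (x a)` and integrate over `x` (`swX_lint`: the integral of `ρ (x a) * F (update x a u)` over `x` and `u` is the integral of `F`), Tonelli. -/

open MeasureTheory Finset

namespace H6.CM

namespace LTA

theorem g3_slice {n : ℕ} (f : (Fin n → E3) → ℂ) (hf : ContDiff ℝ 1 f) (a : Fin n)
    (x : Fin n → E3) :
    g3 (fun v => f (Function.update x a v)) (x a) =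
      ∑ d : Fin 3, ‖fderiv ℝ f x (Pi.single a (EuclideanSpace.single d 1))‖ ^ 2 := by
  unfold g3
  refine Finset.sum_congr rfl fun d _ => ?_
  have h1 : HasFDerivAt (fun v => f (Function.update x a v))
      ((fderiv ℝ f x).comp (ContinuousLinearMap.pi (Pi.single a (ContinuousLinearMap.id ℝ E3))))
      (x a) := by
    have h2 := hasFDerivAt_update (𝕜 := ℝ) x (i := a) (x a)
    have h3 : HasFDerivAt f (fderiv ℝ f x) (Function.update x a (x a)) := by
      rw [Function.update_eq_self]
      exact (hf.differentiable one_ne_zero x).hasFDerivAt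
    exact h3.comp (x a) h2
  rw [h1.fderiv]
  have h4 : (ContinuousLinearMap.pi (Pi.single a (ContinuousLinearMap.id ℝ E3)))
      (EuclideanSpace.single d 1) = (Pi.single a (EuclideanSpace.single d 1) : Fin n → E3) := by
    funext c
    rw [ContinuousLinearMap.pi_apply]
    by_cases hc : c = a
    · subst hc
      simp
    · simp [hc]
  rw [ContinuousLinearMap.comp_apply, h4]

theorem g3_update {n : ℕ} (f : (Fin n → E3) → ℂ) (a : Fin n) (x : Fin n → E3) (v : E3) :
    g3 (fun w => f (Function.update (Function.update x a v) a w)) ((Function.update x a v) a) =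
      g3 (fun w => f (Function.update x a w)) v := by
  simp only [Function.update_idem, Function.update_self]

theorem G_cont {n : ℕ} (f : (Fin n → E3) → ℂ) (hf : ContDiff ℝ 1 f) (a : Fin n) :
    Continuous (fun x : Fin n → E3 => g3 (fun v => f (Function.update x a v)) (x a)) := by
  simp_rw [g3_slice f hf a]
  have h1 : Continuous (fderiv ℝ f) := hf.continuous_fderiv one_ne_zero
  refine continuous_finsetSum _ fun d _ => ?_
  exact ((h1.clm_apply continuous_const).norm).pow 2

theorem G_int {n : ℕ} (f : (Fin n → E3) → ℂ) (hf : ContDiff ℝ 1 f) (hc : HasCompactSupport f)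
    (a : Fin n) :
    Integrable (fun x : Fin n → E3 => g3 (fun v => f (Function.update x a v)) (x a)) := by
  refine (G_cont f hf a).integrable_of_hasCompactSupport ?_
  have h1 : HasCompactSupport (fderiv ℝ f) := hc.fderiv ℝ
  refine HasCompactSupport.intro (K := tsupport (fderiv ℝ f)) h1 fun x hx => ?_
  rw [g3_slice f hf a]
  have h2 : fderiv ℝ f x = 0 := image_eq_zero_of_notMem_tsupport hx
  simp [h2]

theorem G_nonneg {n : ℕ} (f : (Fin n → E3) → ℂ) (a : Fin n) (x : Fin n → E3) :
    0 ≤ g3 (fun v => f (Function.update x a v)) (x a) := by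
  unfold g3
  exact Finset.sum_nonneg fun d _ => by positivity

theorem upd_meas {n : ℕ} (a : Fin n) :
    Continuous (fun p : (Fin n → E3) × E3 => Function.update p.1 a p.2) :=
  continuous_fst.update a continuous_snd

theorem L1 {n : ℕ} (a : Fin n) (ρ : E3 → ℝ) (hρ : Continuous ρ)
    (hρi : ∫⁻ v, ENNReal.ofReal (ρ v) = 1) (Φ : (Fin n → E3) → ENNReal) (hΦ : Measurable Φ) :
    ∫⁻ x, ENNReal.ofReal (ρ (x a)) * ∫⁻ u, Φ (Function.update x a u) = ∫⁻ x, Φ x := by
  set H : (Fin n → E3) × E3 → ENNReal :=
    fun p => ENNReal.ofReal (ρ (p.1 a)) * Φ (Function.update p.1 a p.2) with hHdef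
  have hH : Measurable H := by
    refine Measurable.mul ?_ (hΦ.comp (upd_meas a).measurable)
    exact (hρ.measurable.comp ((measurable_pi_apply a).comp measurable_fst)).ennreal_ofReal
  have h1 := swX_lint a H hH
  have h2 : ∀ u : (Fin n → E3) × E3, H (Function.update u.1 a u.2, u.1 a) =
      ENNReal.ofReal (ρ u.2) * Φ u.1 := by
    intro u
    simp [hHdef]
  simp_rw [h2] at h1
  have h3 : ∫⁻ u : (Fin n → E3) × E3, H u = ∫⁻ x, ∫⁻ u, H (x, u) :=
    lintegral_prod _ hH.aemeasurable
  have h4 : ∫⁻ u : (Fin n → E3) × E3, ENNReal.ofReal (ρ u.2) * Φ u.1 =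
      ∫⁻ x, ∫⁻ u, ENNReal.ofReal (ρ u) * Φ x := by
    refine lintegral_prod _ (Measurable.aemeasurable ?_)
    exact (hρ.measurable.comp measurable_snd).ennreal_ofReal.mul (hΦ.comp measurable_fst)
  have h5 : ∀ x : Fin n → E3, ∫⁻ u, ENNReal.ofReal (ρ u) * Φ x = Φ x := by
    intro x
    rw [lintegral_mul_const _ hρ.measurable.ennreal_ofReal, hρi, one_mul]
  have h6 : ∀ x : Fin n → E3, ∫⁻ u, H (x, u) =
      ENNReal.ofReal (ρ (x a)) * ∫⁻ u, Φ (Function.update x a u) := by
    intro x
    simp only [hHdef]
    have hm : Measurable (fun u : E3 => Φ (Function.update x a u)) :=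
      hΦ.comp ((continuous_const : Continuous (fun _ : E3 => x)).update a continuous_id).measurable
    rw [lintegral_const_mul _ hm]
  simp_rw [h5] at h4
  simp_rw [h6] at h3
  rw [← h3, ← h1, h4]

theorem slice_cs {n : ℕ} (f : (Fin n → E3) → ℂ) (hc : HasCompactSupport f) (a : Fin n)
    (x : Fin n → E3) : HasCompactSupport (fun u => f (Function.update x a u)) := by
  refine HasCompactSupport.intro (K := (fun y : Fin n → E3 => y a) '' tsupport f)
    (hc.image (continuous_apply a)) fun u hu => ?_
  by_contra h
  apply hu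
  refine ⟨Function.update x a u, subset_tsupport _ h, ?_⟩
  simp

theorem slice_cd {n : ℕ} (f : (Fin n → E3) → ℂ) (hf : ContDiff ℝ 1 f) (a : Fin n)
    (x : Fin n → E3) : ContDiff ℝ 1 (fun u => f (Function.update x a u)) := by
  exact hf.comp (contDiff_update 1 x a)

theorem Ph_meas {n : ℕ} (f : (Fin n → E3) → ℂ) (hf : Continuous f) (a : Fin n)
    (T : E3 → ℝ) (hT : Measurable T) :
    Measurable (fun p : (Fin n → E3) × E3 =>
      Ph (T p.2) (fun u => f (Function.update p.1 a u)) p.2) := by
  unfold Ph hk
  refine StronglyMeasurable.measurable ?_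
  refine StronglyMeasurable.integral_prod_right'
    (f := fun q : ((Fin n → E3) × E3) × E3 => (((4 * Real.pi * T q.1.2) ^ (-(3 / 2) : ℝ) *
      Real.exp (-(‖q.1.2 - q.2‖ ^ 2 / (4 * T q.1.2))) : ℝ) : ℂ) *
        f (Function.update q.1.1 a q.2)) ?_
  refine Measurable.stronglyMeasurable ?_
  have h1 : Measurable (fun q : ((Fin n → E3) × E3) × E3 => T q.1.2) :=
    hT.comp (measurable_snd.comp measurable_fst)
  have h2 : Measurable (fun q : ((Fin n → E3) × E3) × E3 => ‖q.1.2 - q.2‖) :=
    ((measurable_snd.comp measurable_fst).sub measurable_snd).norm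
  have h3 : Measurable (fun q : ((Fin n → E3) × E3) × E3 => f (Function.update q.1.1 a q.2)) := by
    refine hf.measurable.comp ?_
    exact ((continuous_fst.comp continuous_fst).update a continuous_snd).measurable
  refine Measurable.mul (Complex.measurable_ofReal.comp ?_) h3
  refine Measurable.mul ?_ (Real.measurable_exp.comp ?_)
  · exact (measurable_const.mul h1).pow_const _
  · exact ((h2.pow_const 2).div (measurable_const.mul h1)).neg

theorem hk_cont (t : ℝ) : Continuous (hk t) := by
  unfold hk
  fun_prop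

theorem Ph_int {n : ℕ} (f : (Fin n → E3) → ℂ) (hf : Continuous f) (hc : HasCompactSupport f)
    (a : Fin n) (ρ : E3 → ℝ) (hρ : Continuous ρ) (hρc : HasCompactSupport ρ) (t : ℝ) (v : E3) :
    Integrable (fun x : Fin n → E3 => ρ (x a) *
      ‖Ph t (fun u => f (Function.update x a u)) v‖ ^ 2) := by
  have hC : ∀ c : Fin n, IsCompact ((fun y : Fin n → E3 => y c) '' tsupport f) :=
    fun c => hc.image (continuous_apply c)
  have hcont : Continuous (fun x : Fin n → E3 => Ph t (fun u => f (Function.update x a u)) v) := by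
    have h1 : (fun x : Fin n → E3 => Ph t (fun u => f (Function.update x a u)) v) =
        fun x => ∫ u in (fun y : Fin n → E3 => y a) '' tsupport f,
          (hk t (v - u) : ℂ) * f (Function.update x a u) := by
      funext x
      unfold Ph
      rw [setIntegral_eq_integral_of_forall_compl_eq_zero]
      intro u hu
      by_contra h
      apply hu
      refine ⟨Function.update x a u, subset_tsupport _ (right_ne_zero_of_mul h), ?_⟩
      simp
    rw [h1]
    refine continuous_parametric_integral_of_continuous ?_ (hC a)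
    exact (Complex.continuous_ofReal.comp
      ((hk_cont t).comp (continuous_const.sub continuous_snd))).mul (hf.comp (upd_meas a))
  refine Continuous.integrable_of_hasCompactSupport
    ((hρ.comp (continuous_apply a)).mul (hcont.norm.pow 2)) ?_
  refine HasCompactSupport.intro (K := Set.univ.pi (fun c : Fin n => if c = a then tsupport ρ else
    (fun y : Fin n → E3 => y c) '' tsupport f)) (isCompact_univ_pi fun c => ?_) fun x hx => ?_
  · by_cases h : c = a
    · rw [if_pos h]
      exact hρc
    · rw [if_neg h]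
      exact hC c
  · by_contra h
    apply hx
    intro c _
    change x c ∈ (if c = a then tsupport ρ else (fun y : Fin n → E3 => y c) '' tsupport f)
    by_cases hca : c = a
    · rw [if_pos hca]
      subst hca
      exact subset_tsupport _ (left_ne_zero_of_mul h)
    · rw [if_neg hca]
      by_contra h2
      apply right_ne_zero_of_mul h
      have h3 : ∀ u, f (Function.update x a u) = 0 := by
        intro u
        by_contra h4
        apply h2
        refine ⟨Function.update x a u, subset_tsupport _ h4, ?_⟩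
        simp [Function.update_of_ne hca]
      simp [Ph, h3]

end LTA

open LTA in
theorem lta {n : ℕ} (f : (Fin n → E3) → ℂ) (hf : ContDiff ℝ 1 f) (hc : HasCompactSupport f)
    (W : E3 → ℝ) (hW : Measurable W) (h0 : ∀ v, 0 ≤ W v) (δ : ℝ) (hδ : 0 < δ)
    (ρ : E3 → ℝ) (hρ : Continuous ρ) (hρc : HasCompactSupport ρ) (hρ0 : ∀ v, 0 ≤ ρ v)
    (hρ1 : ∫ v, ρ v = 1) (a : Fin n) :
    ∫⁻ x, ENNReal.ofReal (W (x a) * ‖f x‖ ^ 2) ≤
      ENNReal.ofReal (4 * δ * ∫ x, g3 (fun v => f (Function.update x a v)) (x a)) +
      2 * ∫⁻ v, ENNReal.ofReal (W v) * ENNReal.ofReal (∫ x, ρ (x a) *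
        ‖Ph (tm δ (W v)) (fun u => f (Function.update x a u)) v‖ ^ 2) := by
  have hρL : ∫⁻ v, ENNReal.ofReal (ρ v) = 1 := by
    rw [← ofReal_integral_eq_lintegral_ofReal (hρ.integrable_of_hasCompactSupport hρc)
      (ae_of_all _ hρ0), hρ1, ENNReal.ofReal_one]
  have hρm : Measurable (fun x : Fin n → E3 => ENNReal.ofReal (ρ (x a))) :=
    (hρ.measurable.comp (measurable_pi_apply a)).ennreal_ofReal
  -- the left side
  have hΦ1 : Measurable (fun x : Fin n → E3 => ENNReal.ofReal (W (x a) * ‖f x‖ ^ 2)) :=
    ((hW.comp (measurable_pi_apply a)).mul (hf.continuous.norm.pow 2).measurable).ennreal_ofReal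
  have e1 := L1 a ρ hρ hρL _ hΦ1
  simp only [Function.update_self] at e1
  rw [← e1]
  -- the gradient
  set G : (Fin n → E3) → ℝ := fun x => g3 (fun v => f (Function.update x a v)) (x a) with hG
  have hGu : ∀ x v, g3 (fun w => f (Function.update x a w)) v = G (Function.update x a v) := by
    intro x v
    rw [hG]
    exact (g3_update f a x v).symm
  have hGm : Measurable (fun x : Fin n → E3 => ENNReal.ofReal (G x)) :=
    (G_cont f hf a).measurable.ennreal_ofReal
  have hA : ∀ x, ENNReal.ofReal (4 * δ * ∫ v, g3 (fun u => f (Function.update x a u)) v) =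
      ENNReal.ofReal (4 * δ) * ∫⁻ v, ENNReal.ofReal (G (Function.update x a v)) := by
    intro x
    rw [ENNReal.ofReal_mul (by positivity)]
    congr 1
    simp_rw [hGu]
    refine ofReal_integral_eq_lintegral_ofReal ?_ (ae_of_all _ fun v => ?_)
    · refine Continuous.integrable_of_hasCompactSupport ?_ ?_
      · exact (G_cont f hf a).comp (continuous_const.update a continuous_id)
      · have h1 : HasCompactSupport (fderiv ℝ (fun u => f (Function.update x a u))) :=
          (slice_cs f hc a x).fderiv ℝ
        refine HasCompactSupport.intro (K := tsupport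
          (fderiv ℝ (fun u => f (Function.update x a u)))) h1 fun v hv => ?_
        rw [← hGu]
        unfold g3
        rw [image_eq_zero_of_notMem_tsupport hv]
        simp
    · exact G_nonneg f a _
  have hB : Measurable (fun p : (Fin n → E3) × E3 => ENNReal.ofReal (W p.2) *
      ENNReal.ofReal (‖Ph (tm δ (W p.2)) (fun u => f (Function.update p.1 a u)) p.2‖ ^ 2)) := by
    refine Measurable.mul (hW.comp measurable_snd).ennreal_ofReal ?_
    exact ((Ph_meas f hf.continuous a (fun v => tm δ (W v))
      ((tm_meas δ).comp hW)).norm.pow_const 2).ennreal_ofReal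
  have e2 : ∀ x, ∫⁻ u, ENNReal.ofReal (W u * ‖f (Function.update x a u)‖ ^ 2) ≤
      ENNReal.ofReal (4 * δ) * (∫⁻ v, ENNReal.ofReal (G (Function.update x a v))) +
      2 * ∫⁻ v, ENNReal.ofReal (W v) *
        ENNReal.ofReal (‖Ph (tm δ (W v)) (fun u => f (Function.update x a u)) v‖ ^ 2) := by
    intro x
    have h1 := one_body (fun u => f (Function.update x a u)) (slice_cd f hf a x)
      (slice_cs f hc a x) W hW h0 δ hδ
    rw [hA] at h1
    simp_rw [ENNReal.ofReal_mul (h0 _)] at h1 ⊢
    exact h1
  have hm1 : Measurable (fun x : Fin n → E3 =>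
      ∫⁻ v, ENNReal.ofReal (G (Function.update x a v))) :=
    Measurable.lintegral_prod_right' (f := fun p : (Fin n → E3) × E3 =>
      ENNReal.ofReal (G (Function.update p.1 a p.2))) (hGm.comp (upd_meas a).measurable)
  have hm2 : Measurable (fun x : Fin n → E3 => ∫⁻ v, ENNReal.ofReal (W v) *
        ENNReal.ofReal (‖Ph (tm δ (W v)) (fun u => f (Function.update x a u)) v‖ ^ 2)) :=
    Measurable.lintegral_prod_right' hB
  calc ∫⁻ x, ENNReal.ofReal (ρ (x a)) *
        ∫⁻ u, ENNReal.ofReal (W u * ‖f (Function.update x a u)‖ ^ 2)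
      ≤ ∫⁻ x, (ENNReal.ofReal (4 * δ) * (ENNReal.ofReal (ρ (x a)) *
          (∫⁻ v, ENNReal.ofReal (G (Function.update x a v)))) +
        2 * (ENNReal.ofReal (ρ (x a)) * ∫⁻ v, ENNReal.ofReal (W v) *
        ENNReal.ofReal (‖Ph (tm δ (W v)) (fun u => f (Function.update x a u)) v‖ ^ 2))) := by
        refine lintegral_mono fun x => ?_
        refine (mul_le_mul_right (e2 x) _).trans (le_of_eq ?_)
        ring
    _ = ENNReal.ofReal (4 * δ) * (∫⁻ x, (ENNReal.ofReal (ρ (x a)) *
          (∫⁻ v, ENNReal.ofReal (G (Function.update x a v))))) +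
        2 * ∫⁻ x, (ENNReal.ofReal (ρ (x a)) * ∫⁻ v, ENNReal.ofReal (W v) *
        ENNReal.ofReal (‖Ph (tm δ (W v)) (fun u => f (Function.update x a u)) v‖ ^ 2)) := by
        have q1 : Measurable (fun x : Fin n → E3 => ENNReal.ofReal (ρ (x a)) *
          (∫⁻ v, ENNReal.ofReal (G (Function.update x a v)))) := hρm.mul hm1
        have q2 : Measurable (fun x : Fin n → E3 => ENNReal.ofReal (ρ (x a)) *
          ∫⁻ v, ENNReal.ofReal (W v) *
          ENNReal.ofReal (‖Ph (tm δ (W v)) (fun u => f (Function.update x a u)) v‖ ^ 2)) :=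
          hρm.mul hm2
        rw [lintegral_add_left (q1.const_mul _), lintegral_const_mul _ q1,
          lintegral_const_mul _ q2]
    _ = ENNReal.ofReal (4 * δ * ∫ x, G x) +
        2 * ∫⁻ v, ENNReal.ofReal (W v) * ENNReal.ofReal (∫ x, ρ (x a) *
        ‖Ph (tm δ (W v)) (fun u => f (Function.update x a u)) v‖ ^ 2) := by
        congr 1
        · have q3 : ENNReal.ofReal (4 * δ * ∫ x, G x) =
              ENNReal.ofReal (4 * δ) * ENNReal.ofReal (∫ x, G x) :=
            ENNReal.ofReal_mul (by positivity)
          rw [L1 a ρ hρ hρL _ hGm, q3]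
          congr 1
          exact (ofReal_integral_eq_lintegral_ofReal (G_int f hf hc a)
              (ae_of_all _ fun x => G_nonneg f a x)).symm
        · congr 1
          have h5 : ∀ x : Fin n → E3, ENNReal.ofReal (ρ (x a)) * ∫⁻ v, ENNReal.ofReal (W v) *
              ENNReal.ofReal (‖Ph (tm δ (W v)) (fun u => f (Function.update x a u)) v‖ ^ 2) =
              ∫⁻ v, ENNReal.ofReal (ρ (x a)) * (ENNReal.ofReal (W v) *
              ENNReal.ofReal (‖Ph (tm δ (W v)) (fun u => f (Function.update x a u)) v‖ ^ 2)) := by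
            intro x
            rw [lintegral_const_mul]
            exact hB.comp measurable_prodMk_left
          simp_rw [h5]
          rw [lintegral_lintegral_swap]
          · refine lintegral_congr fun v => ?_
            rw [ofReal_integral_eq_lintegral_ofReal
              (Ph_int f hf.continuous hc a ρ hρ hρc (tm δ (W v)) v)
              (ae_of_all _ fun x => mul_nonneg (hρ0 _) (by positivity))]
            rw [← lintegral_const_mul']
            · refine lintegral_congr fun x => ?_
              rw [ENNReal.ofReal_mul (hρ0 _)]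
              ring
            · exact ENNReal.ofReal_ne_top
          · refine Measurable.aemeasurable ?_
            exact (hρm.comp measurable_fst).mul hB

end H6.CM
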