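import Pool.Agent.H6.CM.HeatSum

/-! The one body estimate: `|f|^2 ≤ 2 |f - P_t f|^2 + 2 |P_t f|^2` with `t = 2 ^ ⌊log2 (δ / W)⌋`, so that `W ≤ δ / t`; the first part is at most `2 δ ∑_j 2^-j ∫_{t = 2^j} |f - P_t f|^2`, use `heat_sum` for all `J` (tsum over the integers in `ENNReal`). -/

open MeasureTheory Finset

namespace H6.CM

/-- the dyadic time belonging to the value `u` of the potential -/
noncomputable def tm (δ u : ℝ) : ℝ := (2 : ℝ) ^ ⌊Real.logb 2 (δ / u)⌋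

theorem tm_le (δ u : ℝ) (hδ : 0 < δ) (hu : 0 < u) : tm δ u ≤ δ / u ∧ δ / u < 2 * tm δ u := by
  have h0 : 0 < δ / u := div_pos hδ hu
  have h1 : (2 : ℝ) ^ Real.logb 2 (δ / u) = δ / u :=
    Real.rpow_logb (by norm_num) (by norm_num) h0
  unfold tm
  constructor
  · rw [← Real.rpow_intCast]
    refine (Real.rpow_le_rpow_of_exponent_le (by norm_num) (Int.floor_le _)).trans ?_
    rw [h1]
  · have h2 : (2 : ℝ) ^ Real.logb 2 (δ / u) <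
        (2 : ℝ) ^ ((⌊Real.logb 2 (δ / u)⌋ : ℝ) + 1) :=
      Real.rpow_lt_rpow_of_exponent_lt (by norm_num) (Int.lt_floor_add_one _)
    rw [h1, Real.rpow_add (by norm_num), Real.rpow_one, Real.rpow_intCast] at h2
    linarith

theorem tm_meas (δ : ℝ) : Measurable (tm δ) := by
  have h1 : Measurable fun u : ℝ => Real.logb 2 (δ / u) := by
    unfold Real.logb
    exact (Real.measurable_log.comp (measurable_const.div measurable_id)).div_const _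
  have h2 : Measurable fun j : ℤ => (2 : ℝ) ^ j := measurable_from_top
  exact h2.comp (Int.measurable_floor.comp h1)

private theorem ob_term (f : E3 → ℂ) (hf : ContDiff ℝ 1 f) (hc : HasCompactSupport f) (j : ℤ) :
    ∫⁻ v, ENNReal.ofReal (((2 : ℝ) ^ j)⁻¹ * ‖f v - Ph ((2 : ℝ) ^ j) f v‖ ^ 2) =
      ENNReal.ofReal (((2 : ℝ) ^ j)⁻¹ * ∫ v, ‖f v - Ph ((2 : ℝ) ^ j) f v‖ ^ 2) := by
  have hp : (0 : ℝ) < (2 : ℝ) ^ j := by positivity
  have h1 := (FF_diff f hf.continuous hc _ hp).1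
  rw [← integral_const_mul, ofReal_integral_eq_lintegral_ofReal (h1.const_mul _)]
  exact Filter.Eventually.of_forall fun v => mul_nonneg (inv_nonneg.2 hp.le) (sq_nonneg _)

private theorem ob_sum (f : E3 → ℂ) (hf : ContDiff ℝ 1 f) (hc : HasCompactSupport f) :
    ∑' j : ℤ, ∫⁻ v, ENNReal.ofReal (((2 : ℝ) ^ j)⁻¹ * ‖f v - Ph ((2 : ℝ) ^ j) f v‖ ^ 2) ≤
      ENNReal.ofReal (2 * ∫ v, g3 f v) := by
  rw [ENNReal.tsum_eq_iSup_sum]
  refine iSup_le fun s => ?_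
  obtain ⟨J, hJ⟩ : ∃ J : ℕ, s ⊆ Finset.Icc (-(J : ℤ)) J := by
    refine ⟨s.sup Int.natAbs, fun j hj => ?_⟩
    have h1 : j.natAbs ≤ s.sup Int.natAbs := Finset.le_sup (f := Int.natAbs) hj
    rw [Finset.mem_Icc]
    omega
  calc ∑ j ∈ s, ∫⁻ v, ENNReal.ofReal (((2 : ℝ) ^ j)⁻¹ * ‖f v - Ph ((2 : ℝ) ^ j) f v‖ ^ 2)
      ≤ ∑ j ∈ Finset.Icc (-(J : ℤ)) J,
        ∫⁻ v, ENNReal.ofReal (((2 : ℝ) ^ j)⁻¹ * ‖f v - Ph ((2 : ℝ) ^ j) f v‖ ^ 2) :=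
        Finset.sum_le_sum_of_subset hJ
    _ = ∑ j ∈ Finset.Icc (-(J : ℤ)) J,
        ENNReal.ofReal (((2 : ℝ) ^ j)⁻¹ * ∫ v, ‖f v - Ph ((2 : ℝ) ^ j) f v‖ ^ 2) :=
        Finset.sum_congr rfl fun j _ => ob_term f hf hc j
    _ = ENNReal.ofReal (∑ j ∈ Finset.Icc (-(J : ℤ)) J,
        ((2 : ℝ) ^ j)⁻¹ * ∫ v, ‖f v - Ph ((2 : ℝ) ^ j) f v‖ ^ 2) := by
        rw [ENNReal.ofReal_sum_of_nonneg]
        intro j _
        exact mul_nonneg (inv_nonneg.2 (by positivity)) (integral_nonneg fun v => sq_nonneg _)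
    _ ≤ _ := ENNReal.ofReal_le_ofReal (heat_sum f hf hc J)

private theorem ob_pt (δ w : ℝ) (hδ : 0 < δ) (hw : 0 < w) (a b : ℂ) :
    w * ‖a‖ ^ 2 ≤ 2 * δ * ((tm δ w)⁻¹ * ‖a - b‖ ^ 2) + 2 * (w * ‖b‖ ^ 2) := by
  have ht : 0 < tm δ w := by
    unfold tm
    positivity
  have h1 : w ≤ δ * (tm δ w)⁻¹ := by
    have h2 := (tm_le δ w hδ hw).1
    rw [le_div_iff₀ hw] at h2
    rw [← div_eq_mul_inv, le_div_iff₀ ht]
    linarith
  have h3 : ‖a‖ ^ 2 ≤ 2 * ‖a - b‖ ^ 2 + 2 * ‖b‖ ^ 2 := by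
    have h4 : ‖a‖ ≤ ‖a - b‖ + ‖b‖ := by
      calc ‖a‖ = ‖(a - b) + b‖ := by rw [sub_add_cancel]
        _ ≤ _ := norm_add_le _ _
    have h5 : ‖a‖ ^ 2 ≤ (‖a - b‖ + ‖b‖) ^ 2 := pow_le_pow_left₀ (norm_nonneg _) h4 2
    nlinarith [sq_nonneg (‖a - b‖ - ‖b‖)]
  have h6 : w * ‖a - b‖ ^ 2 ≤ δ * (tm δ w)⁻¹ * ‖a - b‖ ^ 2 :=
    mul_le_mul_of_nonneg_right h1 (sq_nonneg _)
  have h7 := mul_le_mul_of_nonneg_left h3 hw.le
  linarith

theorem one_body (f : E3 → ℂ) (hf : ContDiff ℝ 1 f) (hc : HasCompactSupport f)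
    (W : E3 → ℝ) (hW : Measurable W) (h0 : ∀ v, 0 ≤ W v) (δ : ℝ) (hδ : 0 < δ) :
    ∫⁻ v, ENNReal.ofReal (W v * ‖f v‖ ^ 2) ≤ ENNReal.ofReal (4 * δ * ∫ v, g3 f v) +
      2 * ∫⁻ v, ENNReal.ofReal (W v * ‖Ph (tm δ (W v)) f v‖ ^ 2) := by
  set T : ℤ → E3 → ENNReal := fun j v =>
    ENNReal.ofReal (((2 : ℝ) ^ j)⁻¹ * ‖f v - Ph ((2 : ℝ) ^ j) f v‖ ^ 2) with hT
  have hTm : ∀ j, Measurable (T j) := by
    intro j
    have hp : (0 : ℝ) < (2 : ℝ) ^ j := by positivity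
    have h1 : Continuous fun v => ((2 : ℝ) ^ j)⁻¹ * ‖f v - Ph ((2 : ℝ) ^ j) f v‖ ^ 2 :=
      continuous_const.mul ((hf.continuous.sub (Ph_cont f hf.continuous hc _ hp)).norm.pow 2)
    exact ENNReal.measurable_ofReal.comp h1.measurable
  have hpt : ∀ v, ENNReal.ofReal (W v * ‖f v‖ ^ 2) ≤
      ENNReal.ofReal (2 * δ) * (∑' j, T j v) +
        2 * ENNReal.ofReal (W v * ‖Ph (tm δ (W v)) f v‖ ^ 2) := by
    intro v
    rcases (h0 v).eq_or_lt with h | h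
    · rw [← h, zero_mul, ENNReal.ofReal_zero]
      exact zero_le
    · have h1 := ob_pt δ (W v) hδ h (f v) (Ph (tm δ (W v)) f v)
      refine (ENNReal.ofReal_le_ofReal h1).trans ?_
      rw [ENNReal.ofReal_add (by
        have : 0 < tm δ (W v) := by unfold tm; positivity
        positivity) (by positivity), ENNReal.ofReal_mul (by positivity)]
      refine add_le_add (mul_le_mul' le_rfl ?_) ?_
      · exact ENNReal.le_tsum (f := fun j => T j v) ⌊Real.logb 2 (δ / W v)⌋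
      · rw [ENNReal.ofReal_mul (p := 2) (by norm_num), ENNReal.ofReal_ofNat]
  have hsum : ∫⁻ v, (∑' j, T j v) ≤ ENNReal.ofReal (2 * ∫ v, g3 f v) := by
    rw [lintegral_tsum fun j => (hTm j).aemeasurable]
    exact ob_sum f hf hc
  have hm : Measurable fun v => ∑' j, T j v := Measurable.ennreal_tsum hTm
  calc ∫⁻ v, ENNReal.ofReal (W v * ‖f v‖ ^ 2)
      ≤ ∫⁻ v, (ENNReal.ofReal (2 * δ) * (∑' j, T j v) +
        2 * ENNReal.ofReal (W v * ‖Ph (tm δ (W v)) f v‖ ^ 2)) := lintegral_mono hpt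
    _ = ENNReal.ofReal (2 * δ) * (∫⁻ v, ∑' j, T j v) +
        2 * ∫⁻ v, ENNReal.ofReal (W v * ‖Ph (tm δ (W v)) f v‖ ^ 2) := by
        rw [lintegral_add_left (hm.const_mul _), lintegral_const_mul _ hm,
          lintegral_const_mul' _ _ (by norm_num)]
    _ ≤ _ := by
        refine add_le_add ((mul_le_mul' le_rfl hsum).trans ?_) le_rfl
        rw [← ENNReal.ofReal_mul (by positivity)]
        refine ENNReal.ofReal_le_ofReal (le_of_eq ?_)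
        ring

end H6.CM
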