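import Pool.Agent.H6.CM.Defs

/-! Exchanging the position of a nucleus with a spare point preserves the measure (as in `SwE`). -/

open MeasureTheory Finset

namespace H6.CM

private theorem haar_CE' (n k : ℕ) : (volume : Measure (Cfg n k × E3)).IsAddHaarMeasure :=
  haveI : (volume : Measure (Cfg n k)).IsAddHaarMeasure :=
    Measure.prod.instIsAddHaarMeasure (volume : Measure (Fin n → E3))
      (volume : Measure (Fin k → E3))
  Measure.prod.instIsAddHaarMeasure (volume : Measure (Cfg n k)) (volume : Measure E3)

/-- a linear involution preserves Haar measure -/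
private theorem inv_mp' {V : Type*} [NormedAddCommGroup V] [NormedSpace ℝ V]
    [FiniteDimensional ℝ V] [MeasurableSpace V] [BorelSpace V] (μ : Measure V)
    [μ.IsAddHaarMeasure] (L : V →ₗ[ℝ] V) (h : ∀ u, L (L u) = u) : MeasurePreserving L μ μ := by
  have h1 : L ∘ₗ L = LinearMap.id := LinearMap.ext h
  have h2 : LinearMap.det L * LinearMap.det L = 1 := by
    rw [← LinearMap.det_comp, h1, LinearMap.det_id]
  have h3 : LinearMap.det L ≠ 0 := fun h => by rw [h] at h2; norm_num at h2
  have h4 : |(LinearMap.det L)⁻¹| = 1 := by
    rcases mul_self_eq_one_iff.1 h2 with h | h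
    · rw [h]; norm_num
    · rw [h]; norm_num
  refine ⟨(LinearMap.continuous_of_finiteDimensional L).measurable, ?_⟩
  rw [Measure.map_linearMap_addHaar_eq_smul_addHaar μ h3, h4, ENNReal.ofReal_one, one_smul]

theorem swN_swN {n k : ℕ} (j : Fin k) (u : Cfg n k × E3) : swN j (swN j u) = u := by
  unfold swN
  dsimp only
  rw [Function.update_self, Function.update_idem, Function.update_eq_self]

private theorem upd_add' {n : ℕ} (a : Fin n) (x y : Fin n → E3) (v w : E3) :
    Function.update (x + y) a (v + w) = Function.update x a v + Function.update y a w := by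
  funext i
  rcases eq_or_ne i a with rfl | hi
  · simp
  · simp [hi]

private theorem upd_smul' {n : ℕ} (a : Fin n) (c : ℝ) (x : Fin n → E3) (v : E3) :
    Function.update (c • x) a (c • v) = c • Function.update x a v := by
  funext i
  rcases eq_or_ne i a with rfl | hi
  · simp
  · simp [hi]

theorem swN_mp {n k : ℕ} (j : Fin k) :
    MeasurePreserving (swN (n := n) j) (volume : Measure (Cfg n k × E3)) volume := by
  haveI := haar_CE' n k
  exact inv_mp' (volume : Measure (Cfg n k × E3))
    { toFun := swN j
      map_add' := fun u w => by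
        refine Prod.ext (Prod.ext rfl ?_) rfl
        exact upd_add' j u.1.2 w.1.2 u.2 w.2
      map_smul' := fun c u => by
        refine Prod.ext (Prod.ext rfl ?_) rfl
        exact upd_smul' j c u.1.2 u.2 } (swN_swN j)

private theorem swN_emb {n k : ℕ} (j : Fin k) : MeasurableEmbedding (swN (n := n) j) :=
  (MeasurableEquiv.mk ⟨swN j, swN j, swN_swN j, swN_swN j⟩ (swN_mp j).measurable
    (swN_mp j).measurable).measurableEmbedding

theorem swN_int {n k : ℕ} (j : Fin k) (F : Cfg n k × E3 → ℝ) :
    ∫ u, F (swN j u) = ∫ u, F u :=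
  (swN_mp j).integral_comp (swN_emb j) F

theorem swN_intble {n k : ℕ} (j : Fin k) (F : Cfg n k × E3 → ℝ) (hF : Integrable F) :
    Integrable (fun u => F (swN j u)) :=
  ((swN_mp j).integrable_comp_emb (swN_emb j)).2 hF

end H6.CM
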