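import Pool.Agent.H6.CM.Base

/-! Auxiliary definitions for the proof. -/

open MeasureTheory Finset

namespace H6.CM

/-- `E` is a lower bound of the energy per unit mass of all wave functions -/
def LB (q n k : ℕ) (Λ : Set E3) (z κ : Fin k → ℝ) (E : ℝ) : Prop :=
  ∀ ψ : (Fin n → Fin q) → Cfg n k → ℂ, St q n k Λ ψ → E * mass ψ ≤ energy z κ ψ

/-- a radial normalised bump function supported in the ball of radius `1/2` -/
structure Bump (χ : E3 → ℝ) : Prop where
  smooth : ContDiff ℝ (⊤ : ℕ∞) χ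
  supp : ∀ v, χ v ≠ 0 → ‖v‖ < 1 / 2
  radial : ∀ u v : E3, ‖u‖ = ‖v‖ → χ u = χ v
  norm : ∫ v, χ v ^ 2 = 1

/-- the potential at `w` of the charge density `χ ^ 2` -/
noncomputable def U (χ : E3 → ℝ) (w : E3) : ℝ := ∫ u, χ u ^ 2 * ‖w - u‖⁻¹

/-- the rescaled bump -/
noncomputable def chr (χ : E3 → ℝ) (r : ℝ) (v : E3) : ℝ := r ^ (-(3 / 2) : ℝ) * χ (r⁻¹ • v)

/-- a smooth cutoff: `0` on the unit ball, `1` outside the ball of radius `2` -/
structure Cut (θ : E3 → ℝ) : Prop where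
  smooth : ContDiff ℝ (⊤ : ℕ∞) θ
  zero : ∀ v, ‖v‖ ≤ 1 → θ v = 0
  one : ∀ v, 2 ≤ ‖v‖ → θ v = 1
  nonneg : ∀ v, 0 ≤ θ v
  le_one : ∀ v, θ v ≤ 1

/-- the product of the cutoffs at scale `2 ^ -(l+1)` around `w` over all electrons but `a` -/
noncomputable def G {n : ℕ} (θ : E3 → ℝ) (a : Fin n) (w : E3) (l : ℕ) (x : Fin n → E3) : ℝ :=
  ∏ b ∈ univ.erase a, θ ((2 : ℝ) ^ (l + 1) • (x b - w))

/-- the amplitudes of the partition of unity -/
noncomputable def sl {n : ℕ} (θ : E3 → ℝ) (a : Fin n) (w : E3) : ℕ → (Fin n → E3) → ℝ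
  | 0, x => Real.sin (Real.pi / 2 * G θ a w 0 x)
  | l + 1, x => Real.cos (Real.pi / 2 * G θ a w l x) * Real.sin (Real.pi / 2 * G θ a w (l + 1) x)

/-- the remainder of the partition of unity -/
noncomputable def rm {n : ℕ} (θ : E3 → ℝ) (a : Fin n) (w : E3) (l : ℕ) (x : Fin n → E3) : ℝ :=
  Real.cos (Real.pi / 2 * G θ a w l x)

/-- squared gradient in the position of electron `b` of a real function of the positions of
the electrons -/
noncomputable def gx {n : ℕ} (s : (Fin n → E3) → ℝ) (b : Fin n) (x : Fin n → E3) : ℝ :=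
  gr (fun v => s (Function.update x b v)) (x b)

/-- the cost function -/
noncomputable def Dl {n : ℕ} (a : Fin n) (w : E3) (L : ℕ) (x : Fin n → E3) : ℝ :=
  ∑ b ∈ univ.erase a, ∑ l ∈ range (L + 1),
    (4 : ℝ) ^ l * (if ‖x b - w‖ ≤ ((2 : ℝ) ^ l)⁻¹ then 1 else 0)

/-- multiplication of a wave function by a real function of the positions of the electrons -/
noncomputable def mul {q n k : ℕ} (s : (Fin n → E3) → ℝ) (ψ : (Fin n → Fin q) → Cfg n k → ℂ) :
    (Fin n → Fin q) → Cfg n k → ℂ :=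
  fun σ p => ((s p.1 : ℝ) : ℂ) * ψ σ p

/-- exchange of the position of electron `a` with a spare point -/
def swE {n k : ℕ} (a : Fin n) (u : Cfg n k × E3) : Cfg n k × E3 :=
  ((Function.update u.1.1 a u.2, u.1.2), u.1.1 a)

/-- exchange of the position of nucleus `j` with a spare point -/
def swN {n k : ℕ} (j : Fin k) (u : Cfg n k × E3) : Cfg n k × E3 :=
  ((u.1.1, Function.update u.1.2 j u.2), u.1.2 j)

/-- the heat kernel -/
noncomputable def hk (t : ℝ) (v : E3) : ℝ :=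
  (4 * Real.pi * t) ^ (-(3 / 2) : ℝ) * Real.exp (-(‖v‖ ^ 2 / (4 * t)))

/-- the heat semigroup -/
noncomputable def Ph (t : ℝ) (f : E3 → ℂ) (v : E3) : ℂ := ∫ u, (hk t (v - u) : ℂ) * f u

/-- the truncated potential of the nearest nucleus -/
noncomputable def UR {k : ℕ} (K : ℝ) (R : Fin k → E3) (v : E3) : ℝ :=
  K * max ((⨆ j, ‖v - R j‖⁻¹) - 1) 0

/-- the indicator of the ball with centre `u.2` and radius `u.1` -/
noncomputable def bx (x : E3) (u : ℝ × E3) : ℝ := if ‖x - u.2‖ < u.1 then 1 else 0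

end H6.CM
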