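import Pool.Agent.H6.CM.PBase
import Pool.Agent.H6.CM.Defs

/-! Auxiliary definitions for the second theorem. -/

open MeasureTheory Finset

namespace H6.CM

/-- the wave function of the remaining particles when the spin and position of electron `a` and
the position of nucleus `j` are fixed -/
noncomputable def slc {q n k : ℕ} (a : Fin (n + 1)) (j : Fin (k + 1)) (τ : Fin q) (ξ ζ : E3)
    (ψ : (Fin (n + 1) → Fin q) → Cfg (n + 1) (k + 1) → ℂ) : (Fin n → Fin q) → Cfg n k → ℂ :=
  fun σ p => ψ (Fin.insertNth (α := fun _ => Fin q) a τ σ)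
    (Fin.insertNth (α := fun _ => E3) a ξ p.1, Fin.insertNth (α := fun _ => E3) j ζ p.2)

/-- repulsion energy of the points `x` -/
noncomputable def Vr {n : ℕ} (x : Fin n → E3) : ℝ := (∑ a, ∑ b, ‖x a - x b‖⁻¹) / 2

/-- attraction energy of unit charges -/
noncomputable def Va {n k : ℕ} (x : Fin n → E3) (R : Fin k → E3) : ℝ :=
  ∑ a, ∑ j, ‖x a - R j‖⁻¹

/-- product of cutoffs over all electrons at scale `r` around `w` -/
noncomputable def Gv {n : ℕ} (θ : E3 → ℝ) (w : E3) (r : ℝ) (x : Fin n → E3) : ℝ :=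
  ∏ b, θ (r⁻¹ • (x b - w))

/-- amplitude of the vacated part -/
noncomputable def sv {n : ℕ} (θ : E3 → ℝ) (w : E3) (r : ℝ) (x : Fin n → E3) : ℝ :=
  Real.sin (Real.pi / 2 * Gv θ w r x)

/-- amplitude of the remaining part -/
noncomputable def cv {n : ℕ} (θ : E3 → ℝ) (w : E3) (r : ℝ) (x : Fin n → E3) : ℝ :=
  Real.cos (Real.pi / 2 * Gv θ w r x)

/-- the number of electrons in the closed ball of radius `s` around `w` -/
noncomputable def ct {n : ℕ} (w : E3) (s : ℝ) (x : Fin n → E3) : ℝ :=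
  ∑ b, (if ‖x b - w‖ ≤ s then 1 else 0)

/-- the trial function with one more electron and one more nucleus, both in the orbital
`chr χ r` around `w` -/
noncomputable def ins {q n k : ℕ} (χ : E3 → ℝ) (r : ℝ) (w : E3) (α : Fin q)
    (φ : (Fin n → Fin q) → Cfg n k → ℂ) :
    (Fin (n + 1) → Fin q) → Cfg (n + 1) (k + 1) → ℂ :=
  fun σ p => if σ (Fin.last n) = α then
    ((chr χ r (p.1 (Fin.last n) - w) * chr χ r (p.2 (Fin.last k) - w) : ℝ) : ℂ) *
      φ (fun b => σ b.castSucc) (fun b => p.1 b.castSucc, fun j => p.2 j.castSucc) else 0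

end H6.CM
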