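import Pool.Agent.H6.CM.GCont
import Pool.Agent.H6.CM.PhiS

/-! A state whose energy exceeds the infimum by at most one gives a lower bound for all states: scaling (`mass` and `energy` are homogeneous of degree two), and a state of mass zero vanishes. -/

open MeasureTheory Finset

namespace H6.CM

/-- scaling of a wave function -/
noncomputable def Scale_mul {q n k : ℕ} (c : ℝ) (ψ : (Fin n → Fin q) → Cfg n k → ℂ) :
    (Fin n → Fin q) → Cfg n k → ℂ := fun σ p => (c : ℂ) * ψ σ p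

theorem Scale_st {q n k : ℕ} {Λ : Set E3} {ψ : (Fin n → Fin q) → Cfg n k → ℂ}
    (hψ : St q n k Λ ψ) (c : ℝ) : St q n k Λ (Scale_mul c ψ) where
  smooth σ := contDiff_const.mul (hψ.smooth σ)
  cpt σ := (hψ.cpt σ).mul_left
  supp σ p hp := hψ.supp σ p (closure_mono (fun x hx => by
    rw [Function.mem_support] at hx ⊢
    intro h
    apply hx
    change (c : ℂ) * ψ σ x = 0
    rw [h, mul_zero]) hp)
  anti π σ p := by
    change (c : ℂ) * ψ (σ ∘ π) (p.1 ∘ π, p.2) = _ * ((c : ℂ) * ψ σ p)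
    rw [hψ.anti π σ p]
    ring

theorem Scale_sq {q n k : ℕ} (c : ℝ) (ψ : (Fin n → Fin q) → Cfg n k → ℂ) (σ : Fin n → Fin q)
    (p : Cfg n k) : ‖Scale_mul c ψ σ p‖ ^ 2 = c ^ 2 * ‖ψ σ p‖ ^ 2 := by
  change ‖(c : ℂ) * ψ σ p‖ ^ 2 = _
  rw [norm_mul, mul_pow, Complex.norm_real, Real.norm_eq_abs, sq_abs]

theorem Scale_mass {q n k : ℕ} (c : ℝ) (ψ : (Fin n → Fin q) → Cfg n k → ℂ) :
    mass (Scale_mul c ψ) = c ^ 2 * mass ψ := by
  unfold mass
  simp only [Scale_sq, integral_const_mul, mul_sum]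

theorem Scale_mean {q n k : ℕ} (c : ℝ) (ψ : (Fin n → Fin q) → Cfg n k → ℂ) (F : Cfg n k → ℝ) :
    mean (Scale_mul c ψ) F = c ^ 2 * mean ψ F := by
  unfold mean
  rw [mul_sum]
  refine sum_congr rfl fun σ _ => ?_
  rw [← integral_const_mul]
  congr 1
  funext p
  rw [Scale_sq]
  ring

theorem Scale_fderiv {n k : ℕ} (c : ℝ) (F : Cfg n k → ℂ) (hF : Differentiable ℝ F)
    (p e : Cfg n k) :
    ‖fderiv ℝ (fun p => (c : ℂ) * F p) p e‖ ^ 2 = c ^ 2 * ‖fderiv ℝ F p e‖ ^ 2 := by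
  have h1 : HasFDerivAt (fun p => (c : ℂ) * F p) ((c : ℂ) • fderiv ℝ F p) p :=
    (hF p).hasFDerivAt.const_mul (c : ℂ)
  rw [h1.fderiv, smul_apply, smul_eq_mul, norm_mul, mul_pow, Complex.norm_real,
    Real.norm_eq_abs, sq_abs]

theorem Scale_ge {n k : ℕ} (c : ℝ) (F : Cfg n k → ℂ) (hF : Differentiable ℝ F) (a : Fin n)
    (p : Cfg n k) : ge (fun p => (c : ℂ) * F p) a p = c ^ 2 * ge F a p := by
  rw [ge_eq _ (hF.const_mul (c : ℂ)), ge_eq _ hF, mul_sum]
  exact sum_congr rfl fun d _ => Scale_fderiv c F hF p _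

theorem Scale_gn {n k : ℕ} (c : ℝ) (F : Cfg n k → ℂ) (hF : Differentiable ℝ F) (j : Fin k)
    (p : Cfg n k) : gn (fun p => (c : ℂ) * F p) j p = c ^ 2 * gn F j p := by
  rw [gn_eq _ (hF.const_mul (c : ℂ)), gn_eq _ hF, mul_sum]
  exact sum_congr rfl fun d _ => Scale_fderiv c F hF p _

theorem Scale_energy {q n k : ℕ} {Λ : Set E3} (z κ : Fin k → ℝ)
    {ψ : (Fin n → Fin q) → Cfg n k → ℂ} (hψ : St q n k Λ ψ) (c : ℝ) :
    energy z κ (Scale_mul c ψ) = c ^ 2 * energy z κ ψ := by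
  have hd : ∀ σ, Differentiable ℝ (ψ σ) := fun σ => (hψ.smooth σ).differentiable (by simp)
  have h1 : ∀ a, kE (Scale_mul c ψ) a = c ^ 2 * kE ψ a := by
    intro a
    unfold kE
    rw [mul_sum]
    refine sum_congr rfl fun σ _ => ?_
    rw [← integral_const_mul]
    congr 1
    funext p
    exact Scale_ge c (ψ σ) (hd σ) a p
  have h2 : ∀ j, kN (Scale_mul c ψ) j = c ^ 2 * kN ψ j := by
    intro j
    unfold kN
    rw [mul_sum]
    refine sum_congr rfl fun σ _ => ?_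
    rw [← integral_const_mul]
    congr 1
    funext p
    exact Scale_gn c (ψ σ) (hd σ) j p
  have h3 : ∑ a, kE (Scale_mul c ψ) a = c ^ 2 * ∑ a, kE ψ a := by
    rw [mul_sum]
    exact sum_congr rfl fun a _ => h1 a
  have h4 : ∑ j, κ j * kN (Scale_mul c ψ) j = c ^ 2 * ∑ j, κ j * kN ψ j := by
    rw [mul_sum]
    exact sum_congr rfl fun j _ => by rw [h2 j]; ring
  unfold energy
  rw [h3, h4, Scale_mean]
  ring

theorem Scale_zero {q n k : ℕ} {Λ : Set E3} {ψ : (Fin n → Fin q) → Cfg n k → ℂ}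
    (hψ : St q n k Λ ψ) (h0 : mass ψ = 0) : Scale_mul 0 ψ = ψ := by
  have hcs : ∀ σ, HasCompactSupport (fun p => ‖ψ σ p‖ ^ 2) := fun σ =>
    (hψ.cpt σ).mono fun p hp => by
      rw [Function.mem_support] at hp ⊢
      intro h
      apply hp
      rw [h]
      simp
  have hz : ∀ σ p, ψ σ p = 0 := by
    intro σ p
    by_contra hne
    have h1 : 0 < ∫ p, ‖ψ σ p‖ ^ 2 :=
      Continuous.integral_pos_of_hasCompactSupport_nonneg_nonzero
        ((hψ.smooth σ).continuous.norm.pow 2) (hcs σ) (fun p => sq_nonneg _)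
        (x := p) (pow_ne_zero 2 (norm_ne_zero_iff.2 hne))
    have h2 : ∫ p, ‖ψ σ p‖ ^ 2 ≤ mass ψ := by
      unfold mass
      exact single_le_sum (f := fun σ => ∫ p, ‖ψ σ p‖ ^ 2)
        (fun σ _ => integral_nonneg fun p => sq_nonneg _) (mem_univ σ)
    linarith
  funext σ p
  change ((0 : ℝ) : ℂ) * ψ σ p = ψ σ p
  rw [hz σ p, mul_zero]

theorem lb_of_min {q n k : ℕ} {Λ : Set E3} {z κ : Fin k → ℝ}
    {ψ : (Fin n → Fin q) → Cfg n k → ℂ}
    (h : ∀ ψ' : (Fin n → Fin q) → Cfg n k → ℂ, St q n k Λ ψ' → mass ψ' = 1 →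
      energy z κ ψ ≤ energy z κ ψ' + 1) :
    LB q n k Λ z κ (energy z κ ψ - 1) := by
  intro φ hφ
  have hm : 0 ≤ mass φ := by
    unfold mass
    exact sum_nonneg fun σ _ => integral_nonneg fun p => sq_nonneg _
  rcases hm.eq_or_lt with h0 | hpos
  · have h1 := Scale_zero hφ h0.symm
    have h2 := Scale_energy z κ hφ 0
    rw [h1] at h2
    rw [h2, ← h0]
    simp
  · obtain ⟨c, hc⟩ : ∃ c, c = (Real.sqrt (mass φ))⁻¹ := ⟨_, rfl⟩
    have hc2 : c ^ 2 * mass φ = 1 := by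
      rw [hc, inv_pow, Real.sq_sqrt hm, inv_mul_cancel₀ hpos.ne']
    have h1 := h (Scale_mul c φ) (Scale_st hφ c) (by rw [Scale_mass, hc2])
    rw [Scale_energy z κ hφ c] at h1
    have h3 : (energy z κ ψ - 1) * mass φ ≤ c ^ 2 * energy z κ φ * mass φ :=
      mul_le_mul_of_nonneg_right (by linarith) hm
    have h4 : c ^ 2 * energy z κ φ * mass φ = energy z κ φ := by
      calc c ^ 2 * energy z κ φ * mass φ = (c ^ 2 * mass φ) * energy z κ φ := by ring
        _ = energy z κ φ := by rw [hc2, one_mul]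
    linarith

end H6.CM
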