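import Pool.Agent.H6.CM.ERel
import Pool.Agent.H6.CM.Nuc
import Pool.Agent.H6.CM.Stab
import Pool.Agent.H6.CM.Scale

/-! Assembly: with `E = energy ψ - 1` (`lb_of_min`) sum `nuc` over the nuclei (at `y`) and `erel` over the electrons (at `x`), use `sum_rule`, `phi_phiE`, `phi_phiN` (monotonicity), `stab`, and `zm * k ≤ n`. -/

open MeasureTheory Finset

namespace H6.CM

private theorem mean_mono' {q n k : ℕ} {ψ : (Fin n → Fin q) → Cfg n k → ℂ} {F H : Cfg n k → ℝ}
    (hF : ∀ σ, Integrable (fun p => F p * ‖ψ σ p‖ ^ 2))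
    (hH : ∀ σ, Integrable (fun p => H p * ‖ψ σ p‖ ^ 2))
    (h : ∀ p, F p ≤ H p) : mean ψ F ≤ mean ψ H := by
  unfold mean
  refine Finset.sum_le_sum fun σ _ => integral_mono (hF σ) (hH σ) fun p => ?_
  exact mul_le_mul_of_nonneg_right (h p) (by positivity)

private theorem mean_add' {q n k : ℕ} {ψ : (Fin n → Fin q) → Cfg n k → ℂ} {F H : Cfg n k → ℝ}
    (hF : ∀ σ, Integrable (fun p => F p * ‖ψ σ p‖ ^ 2))
    (hH : ∀ σ, Integrable (fun p => H p * ‖ψ σ p‖ ^ 2)) :
    mean ψ (fun p => F p + H p) = mean ψ F + mean ψ H := by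
  unfold mean
  rw [← Finset.sum_add_distrib]
  refine Finset.sum_congr rfl fun σ _ => ?_
  rw [← integral_add (hF σ) (hH σ)]
  congr 1; ext p; ring

private theorem mean_cmul' {q n k : ℕ} {ψ : (Fin n → Fin q) → Cfg n k → ℂ} (F : Cfg n k → ℝ)
    (c : ℝ) : mean ψ (fun p => c * F p) = c * mean ψ F := by
  unfold mean
  rw [Finset.mul_sum]
  refine Finset.sum_congr rfl fun σ _ => ?_
  rw [← integral_const_mul]
  congr 1; ext p; ring

private theorem mean_sum' {q n k : ℕ} {ψ : (Fin n → Fin q) → Cfg n k → ℂ} {ι : Type*}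
    (s : Finset ι) {F : ι → Cfg n k → ℝ}
    (hF : ∀ i ∈ s, ∀ σ, Integrable (fun p => F i p * ‖ψ σ p‖ ^ 2)) :
    mean ψ (fun p => ∑ i ∈ s, F i p) = ∑ i ∈ s, mean ψ (F i) := by
  unfold mean
  rw [Finset.sum_comm]
  refine Finset.sum_congr rfl fun σ _ => ?_
  rw [← integral_finsetSum _ (fun i hi => hF i hi σ)]
  congr 1; ext p; rw [Finset.sum_mul]

private theorem mean_nonneg' {q n k : ℕ} (ψ : (Fin n → Fin q) → Cfg n k → ℂ) {F : Cfg n k → ℝ}
    (h : ∀ p, 0 ≤ F p) : 0 ≤ mean ψ F := by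
  unfold mean
  refine Finset.sum_nonneg fun σ _ => integral_nonneg fun p => ?_
  exact mul_nonneg (h p) (by positivity)

private theorem near_nonneg' {n k : ℕ} (p : Cfg n k) (v : E3) : 0 ≤ near p v := by
  unfold near
  refine add_nonneg (Finset.sum_nonneg fun a _ => ?_) (Finset.sum_nonneg fun a _ => ?_)
  · split_ifs <;> positivity
  · split_ifs <;> positivity

private theorem g3_nonneg' (f : E3 → ℂ) (v : E3) : 0 ≤ g3 f v := by
  unfold g3; positivity

private theorem gr_nonneg' (f : E3 → ℝ) (v : E3) : 0 ≤ gr f v := by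
  unfold gr; positivity

private theorem kN_nonneg' {q n k : ℕ} (ψ : (Fin n → Fin q) → Cfg n k → ℂ) (j : Fin k) :
    0 ≤ kN ψ j := by
  unfold kN
  exact Finset.sum_nonneg fun σ _ => integral_nonneg fun p => g3_nonneg' _ _

private theorem kE_nonneg' {q n k : ℕ} (ψ : (Fin n → Fin q) → Cfg n k → ℂ) (a : Fin n) :
    0 ≤ kE ψ a := by
  unfold kE
  exact Finset.sum_nonneg fun σ _ => integral_nonneg fun p => g3_nonneg' _ _

private theorem int_trans' {χ : E3 → ℝ} (hχ : Bump χ) (x y : E3) :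
    Integrable (fun v => χ (v - y) ^ 2 * ‖v - x‖⁻¹) := by
  have h := (U_intble hχ (x - y)).comp_sub_right y
  refine h.congr (Filter.Eventually.of_forall fun v => ?_)
  simp only
  have : x - y - (v - y) = -(v - x) := by abel
  rw [this, norm_neg]

private theorem int_phiE' {χ : E3 → ℝ} (hχ : Bump χ) {n k : ℕ} (z : Fin k → ℝ) (y : E3)
    (a : Fin n) (p : Cfg n k) :
    Integrable (fun v => χ (v - y) ^ 2 * phiE z a p v) := by
  have h1 : Integrable (fun v => ∑ j, z j * (χ (v - y) ^ 2 * ‖v - p.2 j‖⁻¹)) :=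
    integrable_finsetSum _ fun j _ => (int_trans' hχ _ _).const_mul _
  have h2 : Integrable (fun v => ∑ b ∈ univ.erase a, (χ (v - y) ^ 2 * ‖v - p.1 b‖⁻¹)) :=
    integrable_finsetSum _ fun j _ => (int_trans' hχ _ _)
  refine (h1.sub h2).congr (Filter.Eventually.of_forall fun v => ?_)
  simp only [phiE, Pi.sub_apply]
  rw [mul_sub, Finset.mul_sum, Finset.mul_sum]
  congr 1
  refine Finset.sum_congr rfl fun j _ => ?_
  ring

private theorem int_phiN' {χ : E3 → ℝ} (hχ : Bump χ) {n k : ℕ} (z : Fin k → ℝ) (y : E3)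
    (j : Fin k) (p : Cfg n k) :
    Integrable (fun v => χ (v - y) ^ 2 * phiN z j p v) := by
  have h1 : Integrable (fun v => ∑ l ∈ univ.erase j, z l * (χ (v - y) ^ 2 * ‖v - p.2 l‖⁻¹)) :=
    integrable_finsetSum _ fun j _ => (int_trans' hχ _ _).const_mul _
  have h2 : Integrable (fun v => ∑ b, (χ (v - y) ^ 2 * ‖v - p.1 b‖⁻¹)) :=
    integrable_finsetSum _ fun j _ => (int_trans' hχ _ _)
  refine (h1.sub h2).congr (Filter.Eventually.of_forall fun v => ?_)
  simp only [phiN, Pi.sub_apply]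
  rw [mul_sub, Finset.mul_sum, Finset.mul_sum]
  congr 1
  refine Finset.sum_congr rfl fun j _ => ?_
  ring

private theorem avg_phiE' {χ : E3 → ℝ} (hχ : Bump χ) {n k : ℕ} (z : Fin k → ℝ) (y : E3)
    (a : Fin n) (p : Cfg n k) :
    ∫ v, χ (v - y) ^ 2 * phi z p v ≤ ∫ v, χ (v - y) ^ 2 * phiE z a p v := by
  have h1 := int_phiE' hχ z y a p
  have h2 := int_trans' hχ (p.1 a) y
  have : ∀ v, χ (v - y) ^ 2 * phi z p v =
      χ (v - y) ^ 2 * phiE z a p v - χ (v - y) ^ 2 * ‖v - p.1 a‖⁻¹ := fun v => by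
    rw [phi_phiE z p a v]; ring
  simp_rw [this]
  rw [integral_sub h1 h2]
  have : 0 ≤ ∫ v, χ (v - y) ^ 2 * ‖v - p.1 a‖⁻¹ := integral_nonneg fun v => by positivity
  linarith

private theorem avg_phiN' {χ : E3 → ℝ} (hχ : Bump χ) {n k : ℕ} (z : Fin k → ℝ) (y : E3)
    (j : Fin k) (hz : 0 ≤ z j) (p : Cfg n k) :
    ∫ v, χ (v - y) ^ 2 * phiN z j p v ≤ ∫ v, χ (v - y) ^ 2 * phi z p v := by
  have h1 := int_phiN' hχ z y j p
  have h2 := (int_trans' hχ (p.2 j) y).const_mul (z j)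
  have : ∀ v, χ (v - y) ^ 2 * phi z p v =
      χ (v - y) ^ 2 * phiN z j p v + z j * (χ (v - y) ^ 2 * ‖v - p.2 j‖⁻¹) := fun v => by
    rw [phi_phiN z p j v]; ring
  simp_rw [this]
  rw [integral_add h1 h2, integral_const_mul]
  have : 0 ≤ ∫ v, χ (v - y) ^ 2 * ‖v - p.2 j‖⁻¹ := integral_nonneg fun v => by positivity
  have := mul_nonneg hz this
  linarith

/-- one sided estimate for the averaged potentials -/
private theorem half (q : ℕ) (zm zp κp : ℝ) (hzm : 0 < zm) {χ : E3 → ℝ} (hχ : Bump χ) :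
    ∃ C : ℝ, 0 ≤ C ∧
    ∀ (Λ : Set E3) (n k : ℕ) (z κ : Fin k → ℝ), 0 < n →
      (∀ j, zm ≤ z j ∧ z j ≤ zp) → (∀ j, 0 ≤ κ j ∧ κ j ≤ κp) → ∑ j, z j = n →
      ∀ ψ : (Fin n → Fin q) → Cfg n k → ℂ, St q n k Λ ψ → mass ψ = 1 →
      (∀ ψ', St q n k Λ ψ' → mass ψ' = 1 → energy z κ ψ ≤ energy z κ ψ' + 1) →
      ∀ x y : E3, Metric.closedBall x 2 ⊆ Λ → Metric.closedBall y 2 ⊆ Λ →
        mean ψ (fun p => ∫ v, χ (v - x) ^ 2 * phi z p v) -
          mean ψ (fun p => ∫ v, χ (v - y) ^ 2 * phi z p v) ≤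
          C * (1 + mean ψ (fun p => near p x)) := by
  obtain ⟨Ce, hCe, he⟩ := erel zp hχ
  obtain ⟨Cs, hCs, hs⟩ := stab q zp
  have hG : 0 ≤ ∫ v, gr χ v := integral_nonneg fun v => gr_nonneg' _ _
  set G0 := ∫ v, gr χ v with hG0
  refine ⟨(1 + 1 / zm) + |κp| * G0 * (1 / zm) + 2 * Cs * (1 + 1 / zm) + 2 * Ce,
    by positivity, ?_⟩
  intro Λ n k z κ hn hz hκ hsum ψ hψ hm hmin x y hx hy
  have hz0 : ∀ j, 0 ≤ z j ∧ z j ≤ zp := fun j => ⟨hzm.le.trans (hz j).1, (hz j).2⟩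
  have hLB := lb_of_min hmin
  set E := energy z κ ψ with hE
  -- the number of nuclei
  have hk : (k : ℝ) ≤ n * (1 / zm) := by
    have h1 : ∑ j : Fin k, zm ≤ ∑ j, z j := Finset.sum_le_sum fun j _ => (hz j).1
    rw [hsum] at h1
    simp only [Finset.sum_const, Finset.card_univ, Fintype.card_fin, nsmul_eq_mul] at h1
    rw [mul_one_div, le_div_iff₀ hzm]; exact h1
  have hI := fun σ => int_mean hψ z σ hχ
  -- relocation of the electrons
  have h1 : ∀ a : Fin n, 0 ≤ 1 - kE ψ a + mean ψ (fun p => phiE z a p (p.1 a)) +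
      Ce * (1 + mean ψ (fun p => cnt p x)) -
      mean ψ (fun p => ∫ v, χ (v - x) ^ 2 * phi z p v) := by
    intro a
    have h := he q n k Λ z κ hz0 (fun j => (hκ j).1) _ hLB ψ hψ a x hx
    rw [hm, mul_one] at h
    have h2 : mean ψ (fun p => 1 + cnt p x) = 1 + mean ψ (fun p => cnt p x) := by
      rw [mean_add' (fun σ => ?_) (fun σ => (hI σ).2.2.2.2.2.2.2.1 x)]
      · have h9 : mean ψ (fun _ => (1 : ℝ)) = mass ψ := by
          unfold mean mass
          simp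
        rw [h9, hm]
      · have := (hψ.smooth σ).continuous
        have h3 : Continuous (fun p => (1 : ℝ) * ‖ψ σ p‖ ^ 2) := by fun_prop
        refine h3.integrable_of_hasCompactSupport ?_
        refine (hψ.cpt σ).mono ?_
        intro p hp
        simp only [one_mul, Function.mem_support, ne_eq, pow_eq_zero_iff, OfNat.ofNat_ne_zero,
          not_false_eq_true, norm_eq_zero] at hp ⊢
        exact hp
    have h4 : mean ψ (fun p => ∫ v, χ (v - x) ^ 2 * phi z p v) ≤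
        mean ψ (fun p => ∫ v, χ (v - x) ^ 2 * phiE z a p v) :=
      mean_mono' (fun σ => (hI σ).2.2.2.2.1 x) (fun σ => (hI σ).2.2.2.2.2.1 x a)
        fun p => avg_phiE' hχ z x a p
    rw [h2] at h
    linarith
  -- relocation of the nuclei
  have h2 : ∀ j : Fin k, 0 ≤ 1 - κ j * kN ψ j - z j * mean ψ (fun p => phiN z j p (p.2 j)) +
      |κp| * G0 + z j * mean ψ (fun p => ∫ v, χ (v - y) ^ 2 * phi z p v) := by
    intro j
    have h := nuc hLB hψ hχ j y ((Metric.closedBall_subset_closedBall (by norm_num)).trans hy)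
    rw [hm, mul_one, mul_one] at h
    have h4 : mean ψ (fun p => ∫ v, χ (v - y) ^ 2 * phiN z j p v) ≤
        mean ψ (fun p => ∫ v, χ (v - y) ^ 2 * phi z p v) :=
      mean_mono' (fun σ => (hI σ).2.2.2.2.2.2.1 y j) (fun σ => (hI σ).2.2.2.2.1 y)
        fun p => avg_phiN' hχ z y j (hz0 j).1 p
    have h5 := mul_le_mul_of_nonneg_left h4 (hz0 j).1
    have h6 : κ j * G0 ≤ |κp| * G0 :=
      mul_le_mul_of_nonneg_right ((hκ j).2.trans (le_abs_self _)) hG
    linarith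
  -- sums
  have hS1 : 0 ≤ ∑ a : Fin n, (1 - kE ψ a + mean ψ (fun p => phiE z a p (p.1 a)) +
      Ce * (1 + mean ψ (fun p => cnt p x)) -
      mean ψ (fun p => ∫ v, χ (v - x) ^ 2 * phi z p v)) := Finset.sum_nonneg fun a _ => h1 a
  have hS2 : 0 ≤ ∑ j : Fin k, (1 - κ j * kN ψ j - z j * mean ψ (fun p => phiN z j p (p.2 j)) +
      |κp| * G0 + z j * mean ψ (fun p => ∫ v, χ (v - y) ^ 2 * phi z p v)) :=
    Finset.sum_nonneg fun a _ => h2 a
  simp only [Finset.sum_sub_distrib, Finset.sum_add_distrib, Finset.sum_const, Finset.card_univ,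
    Fintype.card_fin, nsmul_eq_mul, mul_one, ← Finset.sum_mul] at hS1 hS2
  rw [hsum] at hS2
  -- the sum rule
  have hV : ∑ j, z j * mean ψ (fun p => phiN z j p (p.2 j)) -
      ∑ a, mean ψ (fun p => phiE z a p (p.1 a)) = 2 * mean ψ (V z) := by
    have e1 : ∑ j, z j * mean ψ (fun p => phiN z j p (p.2 j)) =
        mean ψ (fun p => ∑ j, z j * phiN z j p (p.2 j)) := by
      rw [mean_sum' univ (F := fun j p => z j * phiN z j p (p.2 j)) (fun j _ σ => ?_)]
      · exact Finset.sum_congr rfl fun j _ => (mean_cmul' _ _).symm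
      · exact ((hI σ).2.2.1 j).const_mul (z j) |>.congr
          (Filter.Eventually.of_forall fun p => by simp only; ring)
    have e2 : ∑ a, mean ψ (fun p => phiE z a p (p.1 a)) =
        mean ψ (fun p => ∑ a, phiE z a p (p.1 a)) := by
      rw [mean_sum' univ (F := fun a p => phiE z a p (p.1 a)) (fun a _ σ => (hI σ).2.1 a)]
    have e3 : mean ψ (fun p => ∑ j, z j * phiN z j p (p.2 j)) =
        mean ψ (fun p => ∑ a, phiE z a p (p.1 a)) + 2 * mean ψ (V z) := by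
      rw [← mean_cmul', ← mean_add']
      · congr 1; ext p; have := sum_rule z p; linarith
      · intro σ
        have := integrable_finsetSum univ fun a _ => (hI σ).2.1 a
        exact this.congr (Filter.Eventually.of_forall fun p => by
          simp only [Finset.sum_mul])
      · intro σ
        exact ((hI σ).1.const_mul 2).congr (Filter.Eventually.of_forall fun p => by
          simp only; ring)
    rw [e1, e2, e3]; ring
  have hst := hs n k Λ z hz0 ψ hψ
  rw [hm, mul_one] at hst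
  have hK : 0 ≤ ∑ j, κ j * kN ψ j :=
    Finset.sum_nonneg fun j _ => mul_nonneg (hκ j).1 (kN_nonneg' ψ j)
  have hc := cnt_near hψ x
  have hc0 : 0 ≤ mean ψ (fun p => near p x) := mean_nonneg' ψ fun p => near_nonneg' p x
  set Φx := mean ψ (fun p => ∫ v, χ (v - x) ^ 2 * phi z p v)
  set Φy := mean ψ (fun p => ∫ v, χ (v - y) ^ 2 * phi z p v)
  set N := mean ψ (fun p => near p x)
  set Mc := mean ψ (fun p => cnt p x)
  have hn' : (0 : ℝ) < n := by exact_mod_cast hn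
  have key : (n : ℝ) * (Φx - Φy) ≤
      n * (((1 + 1 / zm) + |κp| * G0 * (1 / zm) + 2 * Cs * (1 + 1 / zm) + 2 * Ce) * (1 + N)) := by
    have hCM : Ce * Mc ≤ Ce * (2 * N) := mul_le_mul_of_nonneg_left hc hCe
    have hCM' : (n : ℝ) * (Ce * (1 + Mc)) ≤ n * (Ce * (1 + 2 * N)) :=
      mul_le_mul_of_nonneg_left (by linarith [hCM]) hn'.le
    have e1 : (k : ℝ) * (|κp| * G0) ≤ n * (1 / zm) * (|κp| * G0) :=
      mul_le_mul_of_nonneg_right hk (by positivity)
    have e2 : Cs * (n + k) ≤ Cs * (n + n * (1 / zm)) :=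
      mul_le_mul_of_nonneg_left (by linarith) hCs
    have e3 : (n : ℝ) * (Φx - Φy) ≤ n * ((1 + 1 / zm) + |κp| * G0 * (1 / zm) +
        2 * Cs * (1 + 1 / zm) + Ce * (1 + 2 * N)) := by
      nlinarith [hS1, hS2, hV, hst, hK, hCM', e1, e2, hk]
    refine e3.trans (mul_le_mul_of_nonneg_left ?_ hn'.le)
    have p1 : 0 ≤ (1 + 1 / zm) * N := by positivity
    have p2 : 0 ≤ |κp| * G0 * (1 / zm) * N := by positivity
    have p3 : 0 ≤ 2 * Cs * (1 + 1 / zm) * N := by positivity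
    nlinarith [p1, p2, p3, hCe]
  exact le_of_mul_le_mul_left key hn'

theorem main (q : ℕ) (zm zp κp : ℝ) (hzm : 0 < zm) : ∃ C : ℝ,
    ∀ (Λ : Set E3) (n k : ℕ) (z κ : Fin k → ℝ),
      (∀ j, zm ≤ z j ∧ z j ≤ zp) → (∀ j, 0 ≤ κ j ∧ κ j ≤ κp) → ∑ j, z j = n →
      ∀ ψ : (Fin n → Fin q) → Cfg n k → ℂ, St q n k Λ ψ → mass ψ = 1 →
      (∀ ψ', St q n k Λ ψ' → mass ψ' = 1 → energy z κ ψ ≤ energy z κ ψ' + 1) →
      ∀ x y : E3, Metric.closedBall x 2 ⊆ Λ → Metric.closedBall y 2 ⊆ Λ →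
        |mean ψ (fun p => phi z p x) - mean ψ (fun p => phi z p y)| ≤
          C * (1 + mean ψ (fun p => near p x) + mean ψ (fun p => near p y)) := by
  obtain ⟨χ, hχ⟩ := bump_ex
  obtain ⟨C, hC, h⟩ := half q zm zp κp hzm hχ
  obtain ⟨C', hC', h'⟩ := phiS_mean zp hχ
  refine ⟨C + C', ?_⟩
  intro Λ n k z κ hz hκ hsum ψ hψ hm hmin x y hx hy
  have hNx : 0 ≤ mean ψ (fun p => near p x) := mean_nonneg' ψ fun p => near_nonneg' p x
  have hNy : 0 ≤ mean ψ (fun p => near p y) := mean_nonneg' ψ fun p => near_nonneg' p y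
  rcases Nat.eq_zero_or_pos n with hn | hn
  · subst hn
    have hk : k = 0 := by
      by_contra hk
      have : Nonempty (Fin k) := ⟨⟨0, Nat.pos_of_ne_zero hk⟩⟩
      have : 0 < ∑ j, z j := Finset.sum_pos (fun j _ => hzm.trans_le (hz j).1) univ_nonempty
      rw [hsum] at this
      simp at this
    subst hk
    have e : ∀ v : E3, mean ψ (fun p => phi z p v) = 0 := by
      intro v; unfold mean phi; simp
    rw [e, e]
    simp only [sub_zero, abs_zero]
    positivity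
  · have hz0 : ∀ j, 0 ≤ z j ∧ z j ≤ zp := fun j => ⟨hzm.le.trans (hz j).1, (hz j).2⟩
    have a1 := h Λ n k z κ hn hz hκ hsum ψ hψ hm hmin x y hx hy
    have a2 := h Λ n k z κ hn hz hκ hsum ψ hψ hm hmin y x hy hx
    have b1 := abs_le.1 (h' q n k Λ z hz0 ψ hψ x)
    have b2 := abs_le.1 (h' q n k Λ z hz0 ψ hψ y)
    rw [abs_le]
    constructor <;> nlinarith [a1, a2, b1.1, b1.2, b2.1, b2.2, mul_nonneg hC hNx,
      mul_nonneg hC hNy]

end H6.CM
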