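import Pool.Agent.H6.CM.Defs

/-! The integral of the inverse norm over a ball of radius `r` with any centre is at most `C r ^ 2`. Proof: where `‖v‖ < r` compare with the ball around `0` (scaling: `∫⁻ v in ball 0 r, ‖v‖⁻¹ = r ^ 2 ∫⁻ v in ball 0 1, ‖v‖⁻¹`, finite e.g. by `MeasureTheory.lintegral_fun_norm_addHaar` or dyadic shells); where `‖v‖ ≥ r` the integrand is at most `r⁻¹` and the volume of the ball is `r ^ 3` times a constant. -/

open MeasureTheory Finset

namespace H6.CM

private theorem BallInv_zero (r : ℝ) (hr : 0 < r) :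
    ∫⁻ v in Metric.ball (0 : E3) r, ENNReal.ofReal ‖v‖⁻¹ =
      ENNReal.ofReal (3 / 2 * (volume : Measure E3).real (Metric.ball (0 : E3) 1) * r ^ 2) := by
  have hdim : Module.finrank ℝ E3 = 3 := by simp
  set f : ℝ → ℝ := (Set.Iio r).indicator fun y => y⁻¹ with hf
  have e1 : ∀ v : E3, (Metric.ball (0 : E3) r).indicator (fun v => ENNReal.ofReal ‖v‖⁻¹) v =
      ENNReal.ofReal (f ‖v‖) := by
    intro v
    by_cases hv : ‖v‖ < r
    · rw [Set.indicator_of_mem (by simpa using hv), hf, Set.indicator_of_mem (by simpa using hv)]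
    · rw [Set.indicator_of_notMem (by simpa using hv), hf, Set.indicator_of_notMem (by simpa using hv)]
      simp
  have e2 : ∀ y ∈ Set.Ioi (0 : ℝ), y ^ (Module.finrank ℝ E3 - 1) • f y =
      (Set.Ioo (0 : ℝ) r).indicator (fun y => y) y := by
    intro y hy
    have hy0 : (0 : ℝ) < y := hy
    rw [hdim]
    by_cases hyr : y < r
    · have hm : y ∈ Set.Ioo (0 : ℝ) r := ⟨hy0, hyr⟩
      have hm' : y ∈ Set.Iio r := hyr
      rw [hf, Set.indicator_of_mem hm', Set.indicator_of_mem hm]
      simp only [smul_eq_mul, Nat.add_one_sub_one]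
      field_simp
    · rw [hf, Set.indicator_of_notMem (by simpa using hyr), Set.indicator_of_notMem (fun h => hyr h.2)]
      simp
  have hint1 : IntegrableOn (fun y : ℝ => y ^ (Module.finrank ℝ E3 - 1) • f y) (Set.Ioi 0) := by
    rw [integrableOn_congr_fun e2 measurableSet_Ioi]
    have h1 : Integrable ((Set.Ioo (0 : ℝ) r).indicator fun y : ℝ => y) := by
      rw [integrable_indicator_iff measurableSet_Ioo]
      exact (continuous_id.integrableOn_Icc (a := 0) (b := r)).mono_set Set.Ioo_subset_Icc_self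
    exact h1.integrableOn
  have hint : Integrable (fun v : E3 => f ‖v‖) := (integrable_fun_norm_addHaar volume).2 hint1
  have hnn : ∀ v : E3, 0 ≤ f ‖v‖ := by
    intro v
    rw [hf]
    by_cases hv : ‖v‖ ∈ Set.Iio r
    · rw [Set.indicator_of_mem hv]
      exact inv_nonneg.2 (norm_nonneg v)
    · rw [Set.indicator_of_notMem hv]
  have hval : ∫ y in Set.Ioi (0 : ℝ), y ^ (Module.finrank ℝ E3 - 1) • f y = r ^ 2 / 2 := by
    rw [setIntegral_congr_fun measurableSet_Ioi e2, setIntegral_indicator measurableSet_Ioo]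
    have h1 : Set.Ioi (0 : ℝ) ∩ Set.Ioo 0 r = Set.Ioo 0 r := by
      ext y
      simp only [Set.mem_inter_iff, Set.mem_Ioi, Set.mem_Ioo]
      tauto
    rw [h1, ← integral_Ioc_eq_integral_Ioo, ← intervalIntegral.integral_of_le hr.le, integral_id]
    ring
  calc ∫⁻ v in Metric.ball (0 : E3) r, ENNReal.ofReal ‖v‖⁻¹
      = ∫⁻ v, (Metric.ball (0 : E3) r).indicator (fun v => ENNReal.ofReal ‖v‖⁻¹) v :=
        (lintegral_indicator measurableSet_ball _).symm
    _ = ∫⁻ v : E3, ENNReal.ofReal (f ‖v‖) := lintegral_congr e1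
    _ = ENNReal.ofReal (∫ v : E3, f ‖v‖) :=
        (ofReal_integral_eq_lintegral_ofReal hint (Filter.Eventually.of_forall hnn)).symm
    _ = _ := by
        rw [integral_fun_norm_addHaar volume f, hval, hdim]
        congr 1
        simp only [nsmul_eq_mul, smul_eq_mul]
        push_cast
        ring

theorem ballinv : ∃ C : ℝ, 0 < C ∧ ∀ (u : E3) (r : ℝ), 0 < r →
    ∫⁻ v in Metric.ball u r, ENNReal.ofReal ‖v‖⁻¹ ≤ ENNReal.ofReal (C * r ^ 2) := by
  set κ : ℝ := (volume : Measure E3).real (Metric.ball (0 : E3) 1) with hκ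
  have hκ0 : 0 ≤ κ := measureReal_nonneg
  refine ⟨5 / 2 * κ + 1, by positivity, fun u r hr => ?_⟩
  have hdim : Module.finrank ℝ E3 = 3 := by simp
  have hvol : volume (Metric.ball u r) = ENNReal.ofReal (r ^ 3 * κ) := by
    rw [Measure.addHaar_ball volume u hr.le, hdim, ENNReal.ofReal_mul (by positivity), hκ,
      ofReal_measureReal measure_ball_lt_top.ne]
  have hsub : Metric.ball u r ⊆ Metric.ball (0 : E3) r ∪ (Metric.ball u r \ Metric.ball (0 : E3) r) := by
    intro v hv
    by_cases h : v ∈ Metric.ball (0 : E3) r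
    · exact Or.inl h
    · exact Or.inr ⟨hv, h⟩
  have h2 : ∫⁻ v in Metric.ball u r \ Metric.ball (0 : E3) r, ENNReal.ofReal ‖v‖⁻¹ ≤
      ENNReal.ofReal (κ * r ^ 2) := by
    calc ∫⁻ v in Metric.ball u r \ Metric.ball (0 : E3) r, ENNReal.ofReal ‖v‖⁻¹
        ≤ ∫⁻ _v in Metric.ball u r \ Metric.ball (0 : E3) r, ENNReal.ofReal r⁻¹ := by
          refine setLIntegral_mono' (measurableSet_ball.diff measurableSet_ball) fun v hv => ?_
          refine ENNReal.ofReal_le_ofReal ?_
          have h3 : r ≤ ‖v‖ := by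
            have := hv.2
            rw [Metric.mem_ball, dist_zero_right] at this
            exact not_lt.1 this
          exact inv_anti₀ hr h3
      _ = ENNReal.ofReal r⁻¹ * volume (Metric.ball u r \ Metric.ball (0 : E3) r) := setLIntegral_const _ _
      _ ≤ ENNReal.ofReal r⁻¹ * ENNReal.ofReal (r ^ 3 * κ) := by
          rw [← hvol]
          exact mul_le_mul_right (measure_mono Set.sdiff_subset) _
      _ = ENNReal.ofReal (κ * r ^ 2) := by
          rw [← ENNReal.ofReal_mul (by positivity)]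
          congr 1
          field_simp
  calc ∫⁻ v in Metric.ball u r, ENNReal.ofReal ‖v‖⁻¹
      ≤ ∫⁻ v in Metric.ball (0 : E3) r ∪ (Metric.ball u r \ Metric.ball (0 : E3) r), ENNReal.ofReal ‖v‖⁻¹ :=
        lintegral_mono_set hsub
    _ ≤ (∫⁻ v in Metric.ball (0 : E3) r, ENNReal.ofReal ‖v‖⁻¹) +
        ∫⁻ v in Metric.ball u r \ Metric.ball (0 : E3) r, ENNReal.ofReal ‖v‖⁻¹ := lintegral_union_le _ _ _
    _ ≤ ENNReal.ofReal (3 / 2 * κ * r ^ 2) + ENNReal.ofReal (κ * r ^ 2) :=
        add_le_add (BallInv_zero r hr).le h2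
    _ = ENNReal.ofReal (3 / 2 * κ * r ^ 2 + κ * r ^ 2) := (ENNReal.ofReal_add (by positivity) (by positivity)).symm
    _ ≤ ENNReal.ofReal ((5 / 2 * κ + 1) * r ^ 2) := by
        refine ENNReal.ofReal_le_ofReal ?_
        nlinarith [sq_nonneg r]

end H6.CM
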