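import Pool.Agent.H6.CM.Part
import Pool.Agent.H6.CM.Grad
import Pool.Agent.H6.CM.GCont

/-! The localisation formula for the partition of unity, integrated (`g3_ims` in each variable, with the slices; the kinetic energies of the remainder are nonnegative and dropped). -/

open MeasureTheory Finset

namespace H6.CM

private theorem Ims_smooth {q n k : ℕ} {Λ : Set E3} {ψ : (Fin n → Fin q) → Cfg n k → ℂ}
    (hψ : St q n k Λ ψ) {s : (Fin n → E3) → ℝ} (hs : ContDiff ℝ (⊤ : ℕ∞) s) (σ : Fin n → Fin q) :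
    ContDiff ℝ 1 (mul s ψ σ) := by
  have h1 : ContDiff ℝ (⊤ : ℕ∞) (mul s ψ σ) := by
    unfold mul
    exact (Complex.ofRealCLM.contDiff.comp (hs.comp contDiff_fst)).mul (hψ.smooth σ)
  exact h1.of_le (by exact_mod_cast le_top)

private theorem Ims_cpt {q n k : ℕ} {Λ : Set E3} {ψ : (Fin n → Fin q) → Cfg n k → ℂ}
    (hψ : St q n k Λ ψ) (s : (Fin n → E3) → ℝ) (σ : Fin n → Fin q) :
    HasCompactSupport (mul s ψ σ) := by
  unfold mul
  exact HasCompactSupport.mul_left (hψ.cpt σ)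

private theorem Ims_int_e {n k : ℕ} {F : Cfg n k → ℂ} (hF : ContDiff ℝ 1 F) (hc : HasCompactSupport F)
    (a : Fin n) : Integrable (ge F a) :=
  (ge_cont F hF a).integrable_of_hasCompactSupport (ge_cpt F hF hc a)

private theorem Ims_int_n {n k : ℕ} {F : Cfg n k → ℂ} (hF : ContDiff ℝ 1 F) (hc : HasCompactSupport F)
    (a : Fin k) : Integrable (gn F a) :=
  (gn_cont F hF a).integrable_of_hasCompactSupport (gn_cpt F hF hc a)

private theorem Ims_ofle {q n k : ℕ} {Λ : Set E3} {ψ : (Fin n → Fin q) → Cfg n k → ℂ}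
    (hψ : St q n k Λ ψ) (σ : Fin n → Fin q) : ContDiff ℝ 1 (ψ σ) :=
  (hψ.smooth σ).of_le (by exact_mod_cast le_top)

private theorem Ims_upd {n : ℕ} {s : (Fin n → E3) → ℝ} (hs : ContDiff ℝ (⊤ : ℕ∞) s) (x : Fin n → E3) (b : Fin n)
    (v : E3) : DifferentiableAt ℝ (fun u => s (Function.update x b u)) v := by
  have h1 : DifferentiableAt ℝ (fun v : E3 => Function.update x b v) v :=
    (hasFDerivAt_update x v).differentiableAt
  exact ((hs.differentiable (by simp)) _).comp v h1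

private theorem Ims_pt {q n k : ℕ} {Λ : Set E3} {ψ : (Fin n → Fin q) → Cfg n k → ℂ}
    (hψ : St q n k Λ ψ) {θ : E3 → ℝ} (h : Cut θ) (a : Fin n) (w : E3) (L : ℕ) (b : Fin n)
    (σ : Fin n → Fin q) (p : Cfg n k) :
    ge (mul (rm θ a w L) ψ σ) b p + ∑ l ∈ range (L + 1), ge (mul (sl θ a w l) ψ σ) b p =
      ge (ψ σ) b p + (∑ l ∈ range (L + 1), gx (sl θ a w l) b p.1 + gx (rm θ a w L) b p.1) * ‖ψ σ p‖ ^ 2 := by
  have h1 := g3_ims (Finset.insertNone (range (L + 1)))
    (fun (o : Option ℕ) (u : E3) => o.elim (rm θ a w L (Function.update p.1 b u))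
      fun l => sl θ a w l (Function.update p.1 b u))
    (fun u => ψ σ (Function.update p.1 b u, p.2)) (p.1 b) ?_ ?_ ?_
  · rw [Finset.sum_insertNone, Finset.sum_insertNone] at h1
    simp only [Option.elim_none, Option.elim_some, Function.update_eq_self] at h1
    rw [add_comm (∑ l ∈ range (L + 1), gx (sl θ a w l) b p.1)]
    exact h1
  · intro o _
    rcases o with _ | l
    · exact Ims_upd (rm_smooth h a w L) p.1 b _
    · exact Ims_upd (sl_smooth h a w l) p.1 b _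
  · have h2 : DifferentiableAt ℝ (fun v : E3 => ((Function.update p.1 b v, p.2) : Cfg n k)) (p.1 b) :=
      ((hasFDerivAt_update p.1 (p.1 b)).differentiableAt).prodMk (differentiableAt_const _)
    exact (((Ims_ofle hψ σ).differentiable one_ne_zero) _).comp (p.1 b) h2
  · intro u
    rw [Finset.sum_insertNone]
    simp only [Option.elim_none, Option.elim_some]
    rw [add_comm]
    exact part_sum h a w L _

theorem ims_e {q n k : ℕ} {Λ : Set E3} {ψ : (Fin n → Fin q) → Cfg n k → ℂ}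
    (hψ : St q n k Λ ψ) {θ : E3 → ℝ} (h : Cut θ) (a : Fin n) (w : E3) (L : ℕ) (b : Fin n) :
    ∑ l ∈ range (L + 1), kE (mul (sl θ a w l) ψ) b ≤ kE ψ b +
      mean ψ (fun p => ∑ l ∈ range (L + 1), gx (sl θ a w l) b p.1 + gx (rm θ a w L) b p.1) := by
  unfold kE mean
  rw [sum_comm, ← sum_add_distrib]
  refine sum_le_sum fun σ _ => ?_
  have hi1 : ∀ l ∈ range (L + 1), Integrable (ge (mul (sl θ a w l) ψ σ) b) := fun l _ =>
    Ims_int_e (Ims_smooth hψ (sl_smooth h a w l) σ) (Ims_cpt hψ _ σ) b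
  have hi2 : Integrable (ge (mul (rm θ a w L) ψ σ) b) :=
    Ims_int_e (Ims_smooth hψ (rm_smooth h a w L) σ) (Ims_cpt hψ _ σ) b
  have hi3 : Integrable (ge (ψ σ) b) := Ims_int_e (Ims_ofle hψ σ) (hψ.cpt σ) b
  have e1 : (fun p : Cfg n k => (∑ l ∈ range (L + 1), gx (sl θ a w l) b p.1 + gx (rm θ a w L) b p.1) *
      ‖ψ σ p‖ ^ 2) = fun p => (ge (mul (rm θ a w L) ψ σ) b p +
        ∑ l ∈ range (L + 1), ge (mul (sl θ a w l) ψ σ) b p) - ge (ψ σ) b p := by
    funext p
    rw [Ims_pt hψ h a w L b σ p]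
    ring
  have hi4 : Integrable (fun p => ∑ l ∈ range (L + 1), ge (mul (sl θ a w l) ψ σ) b p) :=
    integrable_finsetSum _ hi1
  have hi5 : Integrable (fun p => ge (mul (rm θ a w L) ψ σ) b p +
      ∑ l ∈ range (L + 1), ge (mul (sl θ a w l) ψ σ) b p) := hi2.add hi4
  rw [e1, integral_sub hi5 hi3, integral_add hi2 hi4, integral_finsetSum _ hi1]
  have h0 : 0 ≤ ∫ p, ge (mul (rm θ a w L) ψ σ) b p := integral_nonneg fun p => g3_nonneg _ _
  linarith

theorem ims_n {q n k : ℕ} {Λ : Set E3} {ψ : (Fin n → Fin q) → Cfg n k → ℂ}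
    (hψ : St q n k Λ ψ) {θ : E3 → ℝ} (h : Cut θ) (a : Fin n) (w : E3) (L : ℕ) (j : Fin k) :
    ∑ l ∈ range (L + 1), kN (mul (sl θ a w l) ψ) j ≤ kN ψ j := by
  unfold kN
  rw [sum_comm]
  refine sum_le_sum fun σ _ => ?_
  have hi1 : ∀ l ∈ range (L + 1), Integrable (gn (mul (sl θ a w l) ψ σ) j) := fun l _ =>
    Ims_int_n (Ims_smooth hψ (sl_smooth h a w l) σ) (Ims_cpt hψ _ σ) j
  have hi3 : Integrable (gn (ψ σ) j) := Ims_int_n (Ims_ofle hψ σ) (hψ.cpt σ) j
  rw [← integral_finsetSum _ hi1]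
  refine integral_mono (integrable_finsetSum _ hi1) hi3 fun p => ?_
  have e1 : ∀ l, gn (mul (sl θ a w l) ψ σ) j p = sl θ a w l p.1 ^ 2 * gn (ψ σ) j p := by
    intro l
    have h2 : DifferentiableAt ℝ (fun v : E3 => ψ σ (p.1, Function.update p.2 j v)) (p.2 j) := by
      have h3 : DifferentiableAt ℝ (fun v : E3 => ((p.1, Function.update p.2 j v) : Cfg n k)) (p.2 j) :=
        (differentiableAt_const _).prodMk ((hasFDerivAt_update p.2 (p.2 j)).differentiableAt)
      exact (((Ims_ofle hψ σ).differentiable one_ne_zero) _).comp (p.2 j) h3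
    have h4 := g3_const_mul ((sl θ a w l p.1 : ℝ) : ℂ) _ (p.2 j) h2
    rw [Complex.norm_real, Real.norm_eq_abs, sq_abs] at h4
    exact h4
  simp only [e1]
  rw [← sum_mul]
  have h5 := part_sum h a w L p.1
  have h6 : ∑ l ∈ range (L + 1), sl θ a w l p.1 ^ 2 ≤ 1 := by
    have := sq_nonneg (rm θ a w L p.1)
    linarith
  have h7 : 0 ≤ gn (ψ σ) j p := g3_nonneg _ _
  nlinarith

end H6.CM
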