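import Pool.Agent.H6.CM.Part

/-! The cost of the localisation: `gx (G l) b x ≤ C 4 ^ (l+1)` and it vanishes unless `b ≠ a` and `2 ^ -(l+1) ≤ ‖x b - w‖ ≤ 2 ^ -l` (chain rule and `Cut.grad`); then the chain rule for `sin` and `cos`, `(u + v) ^ 2 ≤ 2 u ^ 2 + 2 v ^ 2`. -/

open MeasureTheory Finset

namespace H6.CM

private theorem PartGrad_nonneg (f : E3 → ℝ) (v : E3) : 0 ≤ gr f v :=
  sum_nonneg fun _ _ => sq_nonneg _

private theorem PartGrad_const {n : ℕ} (s : (Fin n → E3) → ℝ) (b : Fin n) (x : Fin n → E3)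
    (hs : ∀ v, s (Function.update x b v) = s x) : gx s b x = 0 := by
  unfold gx gr
  have h1 : (fun v => s (Function.update x b v)) = fun _ => s x := funext hs
  rw [h1]
  refine sum_eq_zero fun d _ => ?_
  simp

private theorem PartGrad_pi : (Real.pi / 2) ^ 2 ≤ 4 := by
  nlinarith [Real.pi_le_four, Real.pi_pos]

private theorem PartGrad_cos (g : E3 → ℝ) (v : E3) (hg : DifferentiableAt ℝ g v) :
    gr (fun u => Real.cos (Real.pi / 2 * g u)) v ≤ 4 * gr g v := by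
  unfold gr
  rw [mul_sum]
  refine sum_le_sum fun d _ => ?_
  have h1 : HasFDerivAt (fun u => Real.cos (Real.pi / 2 * g u))
      (-Real.sin (Real.pi / 2 * g v) • ((Real.pi / 2) • fderiv ℝ g v)) v :=
    (hg.hasFDerivAt.const_mul (Real.pi / 2)).cos
  rw [h1.fderiv]
  simp only [ContinuousLinearMap.smul_apply, smul_eq_mul]
  set e := fderiv ℝ g v (EuclideanSpace.single d 1)
  have h2 := Real.sin_sq_le_one (Real.pi / 2 * g v)
  have h3 := PartGrad_pi
  have h4 := sq_nonneg e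
  calc (-Real.sin (Real.pi / 2 * g v) * (Real.pi / 2 * e)) ^ 2
      = Real.sin (Real.pi / 2 * g v) ^ 2 * ((Real.pi / 2) ^ 2 * e ^ 2) := by ring
    _ ≤ 1 * (4 * e ^ 2) := by gcongr
    _ = 4 * e ^ 2 := by ring

private theorem PartGrad_sin (g : E3 → ℝ) (v : E3) (hg : DifferentiableAt ℝ g v) :
    gr (fun u => Real.sin (Real.pi / 2 * g u)) v ≤ 4 * gr g v := by
  unfold gr
  rw [mul_sum]
  refine sum_le_sum fun d _ => ?_
  have h1 : HasFDerivAt (fun u => Real.sin (Real.pi / 2 * g u))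
      (Real.cos (Real.pi / 2 * g v) • ((Real.pi / 2) • fderiv ℝ g v)) v :=
    (hg.hasFDerivAt.const_mul (Real.pi / 2)).sin
  rw [h1.fderiv]
  simp only [ContinuousLinearMap.smul_apply, smul_eq_mul]
  set e := fderiv ℝ g v (EuclideanSpace.single d 1)
  have h2 := Real.cos_sq_le_one (Real.pi / 2 * g v)
  have h3 := PartGrad_pi
  have h4 := sq_nonneg e
  calc (Real.cos (Real.pi / 2 * g v) * (Real.pi / 2 * e)) ^ 2
      = Real.cos (Real.pi / 2 * g v) ^ 2 * ((Real.pi / 2) ^ 2 * e ^ 2) := by ring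
    _ ≤ 1 * (4 * e ^ 2) := by gcongr
    _ = 4 * e ^ 2 := by ring

private theorem PartGrad_cossin (f g : E3 → ℝ) (v : E3) (hf : DifferentiableAt ℝ f v)
    (hg : DifferentiableAt ℝ g v) :
    gr (fun u => Real.cos (Real.pi / 2 * f u) * Real.sin (Real.pi / 2 * g u)) v ≤
      8 * (gr f v + gr g v) := by
  unfold gr
  rw [← sum_add_distrib, mul_sum]
  refine sum_le_sum fun d _ => ?_
  have h1 : HasFDerivAt (fun u => Real.cos (Real.pi / 2 * f u))
      (-Real.sin (Real.pi / 2 * f v) • ((Real.pi / 2) • fderiv ℝ f v)) v :=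
    (hf.hasFDerivAt.const_mul (Real.pi / 2)).cos
  have h2 : HasFDerivAt (fun u => Real.sin (Real.pi / 2 * g u))
      (Real.cos (Real.pi / 2 * g v) • ((Real.pi / 2) • fderiv ℝ g v)) v :=
    (hg.hasFDerivAt.const_mul (Real.pi / 2)).sin
  have h3 : HasFDerivAt (fun u => Real.cos (Real.pi / 2 * f u) * Real.sin (Real.pi / 2 * g u)) _ v :=
    h1.mul h2
  rw [h3.fderiv]
  simp only [ContinuousLinearMap.smul_apply, smul_eq_mul, ContinuousLinearMap.add_apply]
  set e := fderiv ℝ f v (EuclideanSpace.single d 1)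
  set e' := fderiv ℝ g v (EuclideanSpace.single d 1)
  set c := Real.cos (Real.pi / 2 * f v) with hc
  set s := Real.sin (Real.pi / 2 * f v) with hs
  set c' := Real.cos (Real.pi / 2 * g v) with hc'
  set s' := Real.sin (Real.pi / 2 * g v) with hs'
  have hc1 : c ^ 2 ≤ 1 := Real.cos_sq_le_one _
  have hs1 : s ^ 2 ≤ 1 := Real.sin_sq_le_one _
  have hc1' : c' ^ 2 ≤ 1 := Real.cos_sq_le_one _
  have hs1' : s' ^ 2 ≤ 1 := Real.sin_sq_le_one _
  have h4 := PartGrad_pi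
  have h5 : (c * (c' * (Real.pi / 2 * e')) + s' * (-s * (Real.pi / 2 * e))) ^ 2 ≤
      2 * (c * (c' * (Real.pi / 2 * e'))) ^ 2 + 2 * (s' * (-s * (Real.pi / 2 * e))) ^ 2 := by
    nlinarith [sq_nonneg (c * (c' * (Real.pi / 2 * e')) - s' * (-s * (Real.pi / 2 * e)))]
  refine h5.trans ?_
  have h6 : (c * (c' * (Real.pi / 2 * e'))) ^ 2 ≤ 4 * e' ^ 2 := by
    calc (c * (c' * (Real.pi / 2 * e'))) ^ 2 = c ^ 2 * (c' ^ 2 * ((Real.pi / 2) ^ 2 * e' ^ 2)) := by
          ring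
      _ ≤ 1 * (1 * (4 * e' ^ 2)) := by gcongr
      _ = 4 * e' ^ 2 := by ring
  have h7 : (s' * (-s * (Real.pi / 2 * e))) ^ 2 ≤ 4 * e ^ 2 := by
    calc (s' * (-s * (Real.pi / 2 * e))) ^ 2 = s' ^ 2 * (s ^ 2 * ((Real.pi / 2) ^ 2 * e ^ 2)) := by
          ring
      _ ≤ 1 * (1 * (4 * e ^ 2)) := by gcongr
      _ = 4 * e ^ 2 := by ring
  linarith

/-- the product as a function of the position of one electron -/
private theorem PartGrad_split {n : ℕ} (θ : E3 → ℝ) (a b : Fin n) (hb : b ≠ a) (w : E3) (l : ℕ)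
    (x : Fin n → E3) (v : E3) : G θ a w l (Function.update x b v) =
      (∏ c ∈ (univ.erase a).erase b, θ ((2 : ℝ) ^ (l + 1) • (x c - w))) *
        θ ((2 : ℝ) ^ (l + 1) • (v - w)) := by
  unfold G
  rw [← prod_erase_mul (univ.erase a) _ (mem_erase.2 ⟨hb, mem_univ b⟩), Function.update_self]
  congr 1
  refine prod_congr rfl fun c hc => ?_
  rw [Function.update_of_ne (mem_erase.1 hc).1]

private theorem PartGrad_scale {θ : E3 → ℝ} (h : Cut θ) (w : E3) (l : ℕ) (v : E3) :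
    HasFDerivAt (fun v => θ ((2 : ℝ) ^ (l + 1) • (v - w)))
      ((2 : ℝ) ^ (l + 1) • fderiv ℝ θ ((2 : ℝ) ^ (l + 1) • (v - w))) v := by
  have h1 : HasFDerivAt (fun v : E3 => (2 : ℝ) ^ (l + 1) • (v - w))
      ((2 : ℝ) ^ (l + 1) • ContinuousLinearMap.id ℝ E3) v :=
    ((hasFDerivAt_id v).sub_const w).const_smul ((2 : ℝ) ^ (l + 1))
  have h2 : HasFDerivAt θ (fderiv ℝ θ ((2 : ℝ) ^ (l + 1) • (v - w)))
      ((2 : ℝ) ^ (l + 1) • (v - w)) :=
    (h.smooth.differentiable (by simp) _).hasFDerivAt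
  have h3 : HasFDerivAt (fun v => θ ((2 : ℝ) ^ (l + 1) • (v - w)))
      ((fderiv ℝ θ ((2 : ℝ) ^ (l + 1) • (v - w))).comp
        ((2 : ℝ) ^ (l + 1) • ContinuousLinearMap.id ℝ E3)) v := h2.comp v h1
  have h4 : (fderiv ℝ θ ((2 : ℝ) ^ (l + 1) • (v - w))).comp
        ((2 : ℝ) ^ (l + 1) • ContinuousLinearMap.id ℝ E3) =
      (2 : ℝ) ^ (l + 1) • fderiv ℝ θ ((2 : ℝ) ^ (l + 1) • (v - w)) := by
    refine ContinuousLinearMap.ext fun e => ?_
    simp
  rw [h4] at h3
  exact h3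

private theorem PartGrad_diff {θ : E3 → ℝ} (h : Cut θ) {n : ℕ} (a b : Fin n) (w : E3) (l : ℕ)
    (x : Fin n → E3) : DifferentiableAt ℝ (fun v => G θ a w l (Function.update x b v)) (x b) := by
  by_cases hb : b = a
  · subst hb
    have h1 : (fun v => G θ b w l (Function.update x b v)) = fun _ => G θ b w l x := by
      funext v
      unfold G
      refine prod_congr rfl fun c hc => ?_
      rw [Function.update_of_ne (mem_erase.1 hc).1]
    rw [h1]
    exact differentiableAt_const _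
  · have h1 : (fun v => G θ a w l (Function.update x b v)) = fun v =>
        (∏ c ∈ (univ.erase a).erase b, θ ((2 : ℝ) ^ (l + 1) • (x c - w))) *
          θ ((2 : ℝ) ^ (l + 1) • (v - w)) := funext fun v => PartGrad_split θ a b hb w l x v
    rw [h1]
    exact (PartGrad_scale h w l (x b)).differentiableAt.const_mul _

private theorem PartGrad_G {θ : E3 → ℝ} (h : Cut θ) {C : ℝ} (hC : 0 ≤ C)
    (hCg : ∀ v, gr θ v ≤ C ∧ (gr θ v ≠ 0 → 1 ≤ ‖v‖ ∧ ‖v‖ ≤ 2)) {n : ℕ} (a b : Fin n) (hb : b ≠ a)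
    (w : E3) (l : ℕ) (x : Fin n → E3) : gx (G θ a w l) b x ≤
      4 * C * ((4 : ℝ) ^ l * (if ‖x b - w‖ ≤ ((2 : ℝ) ^ l)⁻¹ then 1 else 0)) := by
  set P : ℝ := ∏ c ∈ (univ.erase a).erase b, θ ((2 : ℝ) ^ (l + 1) • (x c - w)) with hP
  have hP0 : 0 ≤ P := prod_nonneg fun c _ => h.nonneg _
  have hP1 : P ≤ 1 := prod_le_one (fun c _ => h.nonneg _) fun c _ => h.le_one _
  have h1 : gx (G θ a w l) b x = P ^ 2 * (4 : ℝ) ^ (l + 1) * gr θ ((2 : ℝ) ^ (l + 1) • (x b - w)) := by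
    unfold gx
    have h2 : (fun v => G θ a w l (Function.update x b v)) = fun v =>
        P * θ ((2 : ℝ) ^ (l + 1) • (v - w)) := funext fun v => PartGrad_split θ a b hb w l x v
    rw [h2]
    unfold gr
    rw [mul_sum]
    refine sum_congr rfl fun d _ => ?_
    rw [((PartGrad_scale h w l (x b)).const_mul P).fderiv]
    simp only [ContinuousLinearMap.smul_apply, smul_eq_mul]
    have h4 : (4 : ℝ) ^ (l + 1) = ((2 : ℝ) ^ (l + 1)) ^ 2 := by
      rw [← pow_mul, mul_comm, pow_mul]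
      norm_num
    rw [h4]
    ring
  rw [h1]
  have hg := hCg ((2 : ℝ) ^ (l + 1) • (x b - w))
  have hg0 : 0 ≤ gr θ ((2 : ℝ) ^ (l + 1) • (x b - w)) := PartGrad_nonneg _ _
  have hPs : P ^ 2 ≤ 1 := pow_le_one₀ hP0 hP1
  split_ifs with hx
  · calc P ^ 2 * (4 : ℝ) ^ (l + 1) * gr θ ((2 : ℝ) ^ (l + 1) • (x b - w))
        ≤ 1 * (4 : ℝ) ^ (l + 1) * C := by
          gcongr
          exact hg.1
      _ = 4 * C * (4 ^ l * 1) := by
          rw [pow_succ]
          ring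
  · have h3 : gr θ ((2 : ℝ) ^ (l + 1) • (x b - w)) = 0 := by
      by_contra hne
      have h4 := (hg.2 hne).2
      rw [norm_smul, Real.norm_eq_abs, abs_of_pos (by positivity), pow_succ] at h4
      apply hx
      have h5 : 0 < (2 : ℝ) ^ l := by positivity
      rw [le_inv_comm₀ (by
        by_contra h6
        push Not at h6
        exact hx (h6.trans (by positivity))) h5]
      rw [le_inv_comm₀ h5 (by
        by_contra h6
        push Not at h6
        exact hx (h6.trans (by positivity)))]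
      rw [← one_div, le_div_iff₀ h5]
      linarith
    rw [h3]
    simp

theorem part_grad {θ : E3 → ℝ} (h : Cut θ) : ∃ C : ℝ, 0 ≤ C ∧
    ∀ (n : ℕ) (a : Fin n) (w : E3) (L : ℕ) (x : Fin n → E3),
      ∑ b, (∑ l ∈ range (L + 1), gx (sl θ a w l) b x + gx (rm θ a w L) b x) ≤
        C * Dl a w L x := by
  obtain ⟨C, hC, hCg⟩ := h.grad
  refine ⟨80 * C, by positivity, fun n a w L x => ?_⟩
  have hb0 : ∀ b, b ∉ univ.erase a →
      ∑ l ∈ range (L + 1), gx (sl θ a w l) b x + gx (rm θ a w L) b x = 0 := by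
    intro b hb
    have hba : b = a := by
      by_contra hne
      exact hb (mem_erase.2 ⟨hne, mem_univ b⟩)
    subst hba
    have e1 : ∀ l, gx (sl θ b w l) b x = 0 := fun l => PartGrad_const _ b x fun v => sl_upd b w l x v
    have e2 : gx (rm θ b w L) b x = 0 := PartGrad_const _ b x fun v => rm_upd b w L x v
    rw [sum_congr rfl fun l _ => e1 l, e2, sum_const_zero, add_zero]
  rw [← sum_subset (erase_subset a univ) fun b _ hb => hb0 b hb]
  unfold Dl
  rw [mul_sum]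
  refine sum_le_sum fun b hb => ?_
  have hne : b ≠ a := (mem_erase.1 hb).1
  -- the gradients of the products
  set γ : ℕ → ℝ := fun l => gx (G θ a w l) b x with hγ
  have hγ0 : ∀ l, 0 ≤ γ l := fun l => PartGrad_nonneg _ _
  have hγD : ∀ l, γ l ≤ 4 * C * ((4 : ℝ) ^ l * (if ‖x b - w‖ ≤ ((2 : ℝ) ^ l)⁻¹ then 1 else 0)) :=
    fun l => PartGrad_G h hC hCg a b hne w l x
  have hd : ∀ l, DifferentiableAt ℝ (fun v => G θ a w l (Function.update x b v)) (x b) :=
    fun l => PartGrad_diff h a b w l x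
  have h0 : gx (sl θ a w 0) b x ≤ 4 * γ 0 := by
    have h1 := PartGrad_sin _ (x b) (hd 0)
    exact h1
  have h1 : ∀ l, gx (sl θ a w (l + 1)) b x ≤ 8 * (γ l + γ (l + 1)) := fun l =>
    PartGrad_cossin _ _ (x b) (hd l) (hd (l + 1))
  have h2 : gx (rm θ a w L) b x ≤ 4 * γ L := PartGrad_cos _ (x b) (hd L)
  have h3 : ∑ l ∈ range (L + 1), gx (sl θ a w l) b x + gx (rm θ a w L) b x ≤
      20 * ∑ l ∈ range (L + 1), γ l := by
    rw [sum_range_succ' (fun l => gx (sl θ a w l) b x) L]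
    have h4 : ∑ l ∈ range L, gx (sl θ a w (l + 1)) b x ≤
        8 * ∑ l ∈ range L, γ l + 8 * ∑ l ∈ range L, γ (l + 1) := by
      rw [mul_sum, mul_sum, ← sum_add_distrib]
      refine sum_le_sum fun l _ => ?_
      have := h1 l
      linarith
    have h5 : ∑ l ∈ range (L + 1), γ l = ∑ l ∈ range L, γ l + γ L := sum_range_succ _ _
    have h6 : ∑ l ∈ range (L + 1), γ l = ∑ l ∈ range L, γ (l + 1) + γ 0 := sum_range_succ' _ _
    have h7 : 0 ≤ ∑ l ∈ range L, γ l := sum_nonneg fun l _ => hγ0 l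
    have h8 := hγ0 L
    have h9 := hγ0 0
    linarith
  refine h3.trans ?_
  rw [mul_sum, mul_sum]
  refine sum_le_sum fun l _ => ?_
  have := hγD l
  linarith

/-- the kinetic energy of the orbitals -/
theorem part_kin {θ : E3 → ℝ} (h : Cut θ) (n : ℕ) (a : Fin n) (w : E3) (L : ℕ)
    (x : Fin n → E3) :
    ∑ l ∈ range (L + 1), (4 : ℝ) ^ (l + 1) * sl θ a w l x ^ 2 ≤ 4 + 16 * Dl a w L x := by
  rw [sum_range_succ']
  have hsl1 : ∀ l, sl θ a w l x ^ 2 ≤ 1 := by
    intro l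
    cases l with
    | zero => exact Real.sin_sq_le_one _
    | succ l =>
      change (Real.cos _ * Real.sin _) ^ 2 ≤ 1
      rw [mul_pow]
      exact mul_le_one₀ (Real.cos_sq_le_one _) (sq_nonneg _) (Real.sin_sq_le_one _)
  have h0 : (4 : ℝ) ^ (0 + 1) * sl θ a w 0 x ^ 2 ≤ 4 := by
    have := hsl1 0
    rw [zero_add, pow_one]
    linarith
  have h1 : ∑ l ∈ range L, (4 : ℝ) ^ (l + 1 + 1) * sl θ a w (l + 1) x ^ 2 ≤ 16 * Dl a w L x := by
    unfold Dl
    rw [sum_comm, mul_sum]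
    refine (sum_le_sum (f := fun l => (4 : ℝ) ^ (l + 1 + 1) * sl θ a w (l + 1) x ^ 2)
      (g := fun l => 16 * ∑ b ∈ univ.erase a,
        (4 : ℝ) ^ l * (if ‖x b - w‖ ≤ ((2 : ℝ) ^ l)⁻¹ then 1 else 0)) fun l _ => ?_).trans
      (sum_le_sum_of_subset_of_nonneg (range_subset_range.2 (Nat.le_succ L)) fun l _ _ => ?_)
    · by_cases hs : sl θ a w (l + 1) x = 0
      · rw [hs]
        have : (4 : ℝ) ^ (l + 1 + 1) * 0 ^ 2 = 0 := by ring
        rw [this]
        refine mul_nonneg (by norm_num) (sum_nonneg fun b _ => ?_)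
        split_ifs <;> positivity
      · obtain ⟨b, hb, hbw⟩ := sl_near h a w l x hs
        have h2 : (4 : ℝ) ^ l * (if ‖x b - w‖ ≤ ((2 : ℝ) ^ l)⁻¹ then 1 else 0) ≤
            ∑ b ∈ univ.erase a, (4 : ℝ) ^ l * (if ‖x b - w‖ ≤ ((2 : ℝ) ^ l)⁻¹ then 1 else 0) := by
          refine single_le_sum (f := fun b => (4 : ℝ) ^ l *
            (if ‖x b - w‖ ≤ ((2 : ℝ) ^ l)⁻¹ then 1 else 0)) (fun b _ => ?_)
            (mem_erase.2 ⟨hb, mem_univ b⟩)
          split_ifs <;> positivity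
        rw [if_pos hbw.le, mul_one] at h2
        have h3 := hsl1 (l + 1)
        have h4 : (4 : ℝ) ^ (l + 1 + 1) = 16 * 4 ^ l := by ring
        rw [h4]
        have h5 : (0 : ℝ) < 4 ^ l := by positivity
        nlinarith
    · refine mul_nonneg (by norm_num) (sum_nonneg fun b _ => ?_)
      split_ifs <;> positivity
  linarith

end H6.CM
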