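import Pool.Agent.H6.CM.SwE

/-! The exchange formula for the relocation of electron `a`: `swE_int` for every pair of a spin configuration `σ` with `σ a = α` and a value `τ`; the map `(σ, τ) ↦ update σ a τ` is a bijection onto all spin configurations. -/

open MeasureTheory Finset

namespace H6.CM

private theorem spin_sum {q n : ℕ} (a : Fin n) (α : Fin q) (G : (Fin n → Fin q) → ℝ) :
    ∑ τ : Fin q, ∑ σ : Fin n → Fin q, (if σ a = α then G (Function.update σ a τ) else 0) =
      ∑ σ, G σ := by
  rw [← sum_product', ← sum_filter]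
  refine sum_nbij' (fun z => Function.update z.2 a z.1)
    (fun σ => (σ a, Function.update σ a α)) ?_ ?_ ?_ ?_ ?_
  · intro z _
    exact mem_univ _
  · intro σ _
    simp
  · rintro ⟨τ, σ⟩ hz
    have h1 : σ a = α := (mem_filter.1 hz).2
    dsimp only
    rw [Function.update_self, Function.update_idem, ← h1, Function.update_eq_self]
  · intro σ _
    dsimp only
    rw [Function.update_idem, Function.update_eq_self]
  · intro z _
    rfl

theorem exch {q n k : ℕ} (a : Fin n) (α : Fin q)
    (H : E3 → (Fin n → Fin q) → Cfg n k → ℝ)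
    (hH : ∀ σ, Integrable (fun u : Cfg n k × E3 => H u.2 σ u.1)) :
    (∀ τ, Integrable (fun ξ : E3 => ∑ σ : Fin n → Fin q, ∫ p : Cfg n k, (if σ a = α then
        H (p.1 a) (Function.update σ a τ) (Function.update p.1 a ξ, p.2) else 0))) ∧
    ∑ τ, ∫ ξ : E3, ∑ σ : Fin n → Fin q, ∫ p : Cfg n k, (if σ a = α then
        H (p.1 a) (Function.update σ a τ) (Function.update p.1 a ξ, p.2) else 0) =
      ∑ σ, ∫ p, ∫ v, H v σ p := by
  have h1 : ∀ σ : Fin n → Fin q, Integrable (fun u : Cfg n k × E3 =>
      H (u.1.1 a) σ (Function.update u.1.1 a u.2, u.1.2)) := fun σ =>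
    swE_intble a (fun u : Cfg n k × E3 => H u.2 σ u.1) (hH σ)
  have h2 : ∀ τ (σ : Fin n → Fin q), Integrable (fun ξ : E3 => ∫ p : Cfg n k, (if σ a = α then
      H (p.1 a) (Function.update σ a τ) (Function.update p.1 a ξ, p.2) else 0)) := by
    intro τ σ
    by_cases h : σ a = α
    · simp only [if_pos h]
      have h3 := h1 (Function.update σ a τ)
      rw [Measure.volume_eq_prod] at h3
      exact h3.integral_prod_right
    · simp only [if_neg h, integral_zero]
      exact integrable_zero _ _ _
  refine ⟨fun τ => integrable_finsetSum _ fun σ _ => h2 τ σ, ?_⟩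
  have h4 : ∀ σ : Fin n → Fin q, ∫ ξ : E3, ∫ p : Cfg n k,
      H (p.1 a) σ (Function.update p.1 a ξ, p.2) = ∫ p, ∫ v, H v σ p := by
    intro σ
    have h5 := swE_int a (fun u : Cfg n k × E3 => H u.2 σ u.1)
    have h6 := h1 σ
    have h7 := hH σ
    rw [Measure.volume_eq_prod] at h5 h6 h7
    rw [integral_prod _ h7] at h5
    have h8 : ∫ u : Cfg n k × E3, H (u.1.1 a) σ (Function.update u.1.1 a u.2, u.1.2)
        ∂((volume : Measure (Cfg n k)).prod (volume : Measure E3)) = ∫ p, ∫ v, H v σ p := h5
    rw [integral_prod_symm _ h6] at h8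
    exact h8
  have h9 : ∀ τ : Fin q, ∫ ξ : E3, ∑ σ : Fin n → Fin q, ∫ p : Cfg n k, (if σ a = α then
        H (p.1 a) (Function.update σ a τ) (Function.update p.1 a ξ, p.2) else 0) =
      ∑ σ : Fin n → Fin q, (if σ a = α then
        ∫ p, ∫ v, H v (Function.update σ a τ) p else 0) := by
    intro τ
    rw [integral_finsetSum _ fun σ _ => h2 τ σ]
    refine sum_congr rfl fun σ _ => ?_
    by_cases h : σ a = α
    · simp only [if_pos h]
      exact h4 (Function.update σ a τ)
    · simp only [if_neg h, integral_zero]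
  rw [sum_congr rfl fun τ _ => h9 τ]
  exact spin_sum a α fun σ => ∫ p, ∫ v, H v σ p

end H6.CM
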