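import Pool.Agent.H6.CM.AsymP
import Pool.Agent.H6.CM.Alg
import Pool.Agent.H6.CM.IntAll

/-! Mass and energy of the antisymmetrised function are `n` times mass and energy of `Ψ`: integrate `anti_sq`, `anti_ge`, `anti_gn`; permuting the variables is measure preserving, `V_perm`, and `σ ↦ σ ∘ swap a b` is a bijection. -/

open MeasureTheory Finset

namespace H6.CM

/-- the permutation of the electrons as a measurable equivalence -/
noncomputable def Asym_T (n k : ℕ) (π : Equiv.Perm (Fin n)) : Cfg n k ≃ᵐ Cfg n k where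
  toFun p := (p.1 ∘ π, p.2)
  invFun p := (p.1 ∘ π.symm, p.2)
  left_inv p := by
    refine Prod.ext ?_ rfl
    funext i
    simp
  right_inv p := by
    refine Prod.ext ?_ rfl
    funext i
    simp
  measurable_toFun := by
    refine Measurable.prodMk ?_ measurable_snd
    exact measurable_pi_lambda _ fun i => (measurable_pi_apply (π i)).comp measurable_fst
  measurable_invFun := by
    refine Measurable.prodMk ?_ measurable_snd
    exact measurable_pi_lambda _ fun i => (measurable_pi_apply (π.symm i)).comp measurable_fst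

theorem Asym_mp (n k : ℕ) (π : Equiv.Perm (Fin n)) :
    MeasurePreserving (Asym_T n k π) volume volume := by
  have h1 := volume_measurePreserving_piCongrLeft (fun _ : Fin n => E3) π.symm
  have h2 : MeasurePreserving (Prod.map (MeasurableEquiv.piCongrLeft (fun _ : Fin n => E3) π.symm)
      (id : (Fin k → E3) → (Fin k → E3))) (volume : Measure (Cfg n k)) volume :=
    h1.prod (MeasurePreserving.id _)
  have h3 : (Asym_T n k π : Cfg n k → Cfg n k) =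
      Prod.map (MeasurableEquiv.piCongrLeft (fun _ : Fin n => E3) π.symm) id := by
    funext p
    refine Prod.ext ?_ rfl
    funext i
    obtain ⟨j, rfl⟩ := π.symm.surjective i
    change p.1 (π (π.symm j)) = (Equiv.piCongrLeft (fun _ : Fin n => E3) π.symm) p.1 (π.symm j)
    rw [Equiv.piCongrLeft_apply_apply]
    simp
  rw [h3]
  exact h2

theorem Asym_sum {q n k : ℕ} (a : Fin n) (Φ : Fin n → (Fin n → Fin q) → Cfg n k → ℝ)
    (hΦ : ∀ b σ, Integrable (Φ b σ)) :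
    ∑ σ : Fin n → Fin q, ∫ p : Cfg n k, ∑ b, Φ b (σ ∘ Equiv.swap a b) (p.1 ∘ Equiv.swap a b, p.2) =
      ∑ b, ∑ σ, ∫ p, Φ b σ p := by
  have h1 : ∀ (b : Fin n) (F : Cfg n k → ℝ), ∫ p : Cfg n k, F (p.1 ∘ Equiv.swap a b, p.2) = ∫ p, F p :=
    fun b F => (Asym_mp n k (Equiv.swap a b)).integral_comp' F
  have h2 : ∀ σ : Fin n → Fin q, ∫ p : Cfg n k, ∑ b,
      Φ b (σ ∘ Equiv.swap a b) (p.1 ∘ Equiv.swap a b, p.2) =
      ∑ b, ∫ p, Φ b (σ ∘ Equiv.swap a b) p := by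
    intro σ
    rw [integral_finsetSum]
    · exact sum_congr rfl fun b _ => h1 b _
    · intro b _
      exact ((Asym_mp n k (Equiv.swap a b)).integrable_comp_emb
        (Asym_T n k (Equiv.swap a b)).measurableEmbedding).2 (hΦ b (σ ∘ Equiv.swap a b))
  rw [sum_congr rfl fun σ _ => h2 σ, sum_comm]
  refine sum_congr rfl fun b _ => ?_
  let e : (Fin n → Fin q) ≃ (Fin n → Fin q) :=
    { toFun := fun σ => σ ∘ Equiv.swap a b
      invFun := fun σ => σ ∘ Equiv.swap a b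
      left_inv := fun σ => by funext i; simp
      right_inv := fun σ => by funext i; simp }
  exact Equiv.sum_comp e (fun σ => ∫ p, Φ b σ p)

theorem Asym_int_sq {q n k : ℕ} (Ψ : (Fin n → Fin q) → Cfg n k → ℂ)
    (hs : ∀ σ, ContDiff ℝ (⊤ : ℕ∞) (Ψ σ)) (hc : ∀ σ, HasCompactSupport (Ψ σ)) (σ : Fin n → Fin q) :
    Continuous (fun p => ‖Ψ σ p‖ ^ 2) ∧ HasCompactSupport (fun p => ‖Ψ σ p‖ ^ 2) := by
  refine ⟨(hs σ).continuous.norm.pow 2, (hc σ).mono fun p hp => ?_⟩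
  rw [Function.mem_support] at hp ⊢
  intro h
  apply hp
  rw [h]
  simp

theorem Asym_int_V {q n k : ℕ} (z : Fin k → ℝ) (Ψ : (Fin n → Fin q) → Cfg n k → ℂ)
    (hs : ∀ σ, ContDiff ℝ (⊤ : ℕ∞) (Ψ σ)) (hc : ∀ σ, HasCompactSupport (Ψ σ)) (σ : Fin n → Fin q) :
    Integrable (fun p => V z p * ‖Ψ σ p‖ ^ 2) := by
  obtain ⟨h1, h2⟩ := Asym_int_sq Ψ hs hc σ
  have h3 : (fun p : Cfg n k => V z p * ‖Ψ σ p‖ ^ 2) = fun p =>
      (∑ a, ∑ b, ‖p.1 a - p.1 b‖⁻¹ * ‖Ψ σ p‖ ^ 2) / 2 -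
        ∑ a, ∑ j, z j * (‖p.1 a - p.2 j‖⁻¹ * ‖Ψ σ p‖ ^ 2) +
        (∑ j, ∑ l, z j * z l * (‖p.2 j - p.2 l‖⁻¹ * ‖Ψ σ p‖ ^ 2)) / 2 := by
    funext p
    unfold V
    simp only [← mul_assoc, ← sum_mul]
    ring
  rw [h3]
  refine Integrable.add (Integrable.sub ?_ ?_) ?_
  · exact (integrable_finsetSum _ fun a _ => integrable_finsetSum _ fun b _ =>
      int_ee _ h1 h2 a b).div_const 2
  · exact integrable_finsetSum _ fun a _ => integrable_finsetSum _ fun j _ =>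
      (int_en _ h1 h2 a j).const_mul (z j)
  · exact (integrable_finsetSum _ fun j _ => integrable_finsetSum _ fun l _ =>
      (int_nn _ h1 h2 j l).const_mul (z j * z l)).div_const 2

theorem anti_mass {q n k : ℕ} (a : Fin n) (Ψ : (Fin n → Fin q) → Cfg n k → ℂ)
    (hs : ∀ σ, ContDiff ℝ (⊤ : ℕ∞) (Ψ σ)) (hc : ∀ σ, HasCompactSupport (Ψ σ))
    (w : E3) (r : ℝ) (hr : 0 < r)
    (hd : ∀ σ p, Ψ σ p ≠ 0 → ‖p.1 a - w‖ ≤ r / 2 ∧ ∀ b, b ≠ a → r ≤ ‖p.1 b - w‖) :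
    mass (anti a Ψ) = n * mass Ψ := by
  unfold mass
  simp only [anti_sq a Ψ hs w r hr hd]
  rw [Asym_sum a (fun _ σ p => ‖Ψ σ p‖ ^ 2) (fun _ σ =>
    (Asym_int_sq Ψ hs hc σ).1.integrable_of_hasCompactSupport (Asym_int_sq Ψ hs hc σ).2)]
  rw [sum_const, card_univ, Fintype.card_fin, nsmul_eq_mul]

theorem anti_energy {q n k : ℕ} (z κ : Fin k → ℝ) (a : Fin n)
    (Ψ : (Fin n → Fin q) → Cfg n k → ℂ)
    (hs : ∀ σ, ContDiff ℝ (⊤ : ℕ∞) (Ψ σ)) (hc : ∀ σ, HasCompactSupport (Ψ σ))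
    (w : E3) (r : ℝ) (hr : 0 < r)
    (hd : ∀ σ p, Ψ σ p ≠ 0 → ‖p.1 a - w‖ ≤ r / 2 ∧ ∀ b, b ≠ a → r ≤ ‖p.1 b - w‖) :
    energy z κ (anti a Ψ) = n * energy z κ Ψ := by
  have hs1 : ∀ σ, ContDiff ℝ 1 (Ψ σ) := fun σ => (hs σ).of_le (by simp)
  have h1 : ∑ c, kE (anti a Ψ) c = n * ∑ c, kE Ψ c := by
    unfold kE
    simp only [anti_ge a Ψ hs w r hr hd]
    have h2 : ∀ c, ∑ σ : Fin n → Fin q, ∫ p : Cfg n k, ∑ b,
        ge (Ψ (σ ∘ Equiv.swap a b)) (Equiv.swap a b c) (p.1 ∘ Equiv.swap a b, p.2) =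
        ∑ b, ∑ σ, ∫ p, ge (Ψ σ) (Equiv.swap a b c) p := fun c =>
      Asym_sum a (fun b σ => ge (Ψ σ) (Equiv.swap a b c)) (fun b σ =>
        (ge_cont (Ψ σ) (hs1 σ) _).integrable_of_hasCompactSupport (ge_cpt (Ψ σ) (hs1 σ) (hc σ) _))
    rw [sum_congr rfl fun c _ => h2 c, sum_comm]
    have h3 : ∀ b, ∑ c, ∑ σ, ∫ p, ge (Ψ σ) (Equiv.swap a b c) p = ∑ c, ∑ σ, ∫ p, ge (Ψ σ) c p :=
      fun b => Equiv.sum_comp (Equiv.swap a b) (fun c => ∑ σ, ∫ p, ge (Ψ σ) c p)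
    rw [sum_congr rfl fun b _ => h3 b, sum_const, card_univ, Fintype.card_fin, nsmul_eq_mul]
  have h4 : ∀ j, kN (anti a Ψ) j = n * kN Ψ j := by
    intro j
    unfold kN
    simp only [anti_gn a Ψ hs w r hr hd]
    rw [Asym_sum a (fun _ σ => gn (Ψ σ) j) (fun b σ =>
      (gn_cont (Ψ σ) (hs1 σ) _).integrable_of_hasCompactSupport (gn_cpt (Ψ σ) (hs1 σ) (hc σ) _))]
    rw [sum_const, card_univ, Fintype.card_fin, nsmul_eq_mul]
  have h5 : mean (anti a Ψ) (V z) = n * mean Ψ (V z) := by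
    unfold mean
    simp only [anti_sq a Ψ hs w r hr hd, mul_sum]
    have h6 : ∀ (σ : Fin n → Fin q) (p : Cfg n k),
        ∑ b, V z p * ‖Ψ (σ ∘ Equiv.swap a b) (p.1 ∘ Equiv.swap a b, p.2)‖ ^ 2 =
        ∑ b, (fun (_ : Fin n) (σ : Fin n → Fin q) (p : Cfg n k) => V z p * ‖Ψ σ p‖ ^ 2) b
          (σ ∘ Equiv.swap a b) (p.1 ∘ Equiv.swap a b, p.2) := by
      intro σ p
      refine sum_congr rfl fun b _ => ?_
      dsimp only
      rw [V_perm]
    simp only [h6]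
    rw [Asym_sum a (fun _ σ p => V z p * ‖Ψ σ p‖ ^ 2) (fun _ σ => Asym_int_V z Ψ hs hc σ)]
    rw [sum_const, card_univ, Fintype.card_fin, nsmul_eq_mul, mul_sum]
  have h7 : ∑ j, κ j * kN (anti a Ψ) j = n * ∑ j, κ j * kN Ψ j := by
    rw [mul_sum]
    exact sum_congr rfl fun j _ => by rw [h4 j]; ring
  unfold energy
  rw [h1, h5, h7]
  ring

end H6.CM
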