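import Pool.Agent.H6.CM.TriSt
import Pool.Agent.H6.CM.Asym

/-! Every trial function satisfies `E * mass ≤ energy`: apply the lower bound to the antisymmetrised function (`anti_st`, `anti_mass`, `anti_energy`) and divide by `n > 0`. -/

open MeasureTheory Finset

namespace H6.CM

theorem tri_E {q n k : ℕ} {Λ : Set E3} {z κ : Fin k → ℝ} {E : ℝ} (hE : LB q n k Λ z κ E)
    {ψ : (Fin n → Fin q) → Cfg n k → ℂ} (hψ : St q n k Λ ψ) {χ : E3 → ℝ} (hχ : Bump χ)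
    (r : ℝ) (hr : 0 < r) (hr1 : r ≤ 1) (a : Fin n) (w ξ : E3)
    (hw : Metric.closedBall w 1 ⊆ Λ) (α τ : Fin q) (s : (Fin n → E3) → ℝ)
    (hs : ContDiff ℝ (⊤ : ℕ∞) s)
    (hsu : ∀ x v, s (Function.update x a v) = s x)
    (hsa : ∀ π : Equiv.Perm (Fin n), π a = a → ∀ x, s (x ∘ π) = s x)
    (hs0 : ∀ x, s x ≠ 0 → ∀ b, b ≠ a → r ≤ ‖x b - w‖) :
    E * mass (tri χ r a w ξ α τ s ψ) ≤ energy z κ (tri χ r a w ξ α τ s ψ) := by
  classical
  have hsm := fun σ => tri_smooth hψ hχ r hr a w ξ α τ s hs σ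
  have hcp := fun σ => tri_cpt hψ hχ r hr a w ξ α τ s σ
  have hsp := fun σ p hp => tri_supp hψ hχ r hr hr1 a w ξ hw α τ s σ p hp
  have han := fun π hπ σ p => tri_anti hψ (χ := χ) r a w ξ α τ s hsa π hπ σ p
  have hfar := fun σ p hp => tri_far (ψ := ψ) hχ r hr a w ξ α τ s hsu hs0 σ p hp
  have h1 := hE _ (anti_st a _ hsm hcp hsp han)
  rw [anti_mass a _ hsm hcp w r hr hfar, anti_energy z κ a _ hsm hcp w r hr hfar] at h1
  have hn : (0 : ℝ) < n := by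
    have : 0 < n := lt_of_le_of_lt (Nat.zero_le _) a.isLt
    exact_mod_cast this
  nlinarith [h1, hn]

end H6.CM
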