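import Pool.Agent.H6.CM.Base

/-! Spherical shells and the number of particles near the boundary of a ball. -/

open MeasureTheory Finset

namespace H6.CM

/-- the spherical shell between the radii `r` and `s` -/
def sh (r s : ℝ) : Set E3 := {v | r < ‖v‖ ∧ ‖v‖ < s}

/-- the number of particles at distance more than `s` from the origin -/
noncomputable def shl {n k : ℕ} (s : ℝ) (p : Cfg n k) : ℝ :=
  ∑ a, (if s < ‖p.1 a‖ then 1 else 0) + ∑ j, (if s < ‖p.2 j‖ then 1 else 0)

end H6.CM
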