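import Pool.Agent.H6.CM.Defs

/-! Integration in cylindrical coordinates around the third axis, with `s = ‖v‖` instead of the distance from the axis: identify `E3` with `(ℝ × ℝ) × ℝ` (measure preserving), polar coordinates in `ℝ × ℝ` (`lintegral_comp_polarCoord_symm`), then for fixed `z` the substitution `s = sqrt (ρ ^ 2 + z ^ 2)`, `s ds = ρ dρ`. -/

open MeasureTheory Finset

namespace H6.CM

private theorem cyl_split (f : ℝ × (ℝ × ℝ) → ENNReal) (hf : Measurable f) :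
    ∫⁻ v : E3, f (v 2, (v 0, v 1)) = ∫⁻ z : ℝ, ∫⁻ p : ℝ × ℝ, f (z, p) := by
  have h1 : MeasurePreserving (fun v : E3 => (v : Fin 3 → ℝ)) volume volume :=
    PiLp.volume_preserving_ofLp (Fin 3)
  have h2 := volume_preserving_piFinSuccAbove (fun _ : Fin 3 => ℝ) 2
  have h3 := (MeasurePreserving.id (volume : Measure ℝ)).prod (volume_preserving_finTwoArrow ℝ)
  have h4 := h3.comp (h2.comp h1)
  have h5 := h4.lintegral_comp hf
  have h6 : ∀ v : E3, f (v 2, (v 0, v 1))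
      = f ((Prod.map id (MeasurableEquiv.finTwoArrow (α := ℝ)) ∘
        ((MeasurableEquiv.piFinSuccAbove (fun _ : Fin 3 => ℝ) 2) ∘
          fun v : E3 => (v : Fin 3 → ℝ))) v) := by
    intro v
    congr 1
  simp_rw [h6]
  rw [h5, lintegral_prod _ hf.aemeasurable]

private theorem cyl_polar (h : ℝ → ENNReal) (hh : Measurable h) :
    ∫⁻ p : ℝ × ℝ, h (p.1 ^ 2 + p.2 ^ 2)
      = ENNReal.ofReal (2 * Real.pi) * ∫⁻ r in Set.Ioi (0 : ℝ), ENNReal.ofReal r * h (r ^ 2) := by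
  rw [← lintegral_comp_polarCoord_symm]
  have h1 : ∀ p : ℝ × ℝ, ENNReal.ofReal p.1 • h ((polarCoord.symm p).1 ^ 2
      + (polarCoord.symm p).2 ^ 2) = ENNReal.ofReal p.1 * h (p.1 ^ 2) := by
    intro p
    rw [polarCoord_symm_apply, smul_eq_mul]
    congr 2
    have := Real.sin_sq_add_cos_sq p.2
    calc (p.1 * Real.cos p.2) ^ 2 + (p.1 * Real.sin p.2) ^ 2
        = p.1 ^ 2 * (Real.sin p.2 ^ 2 + Real.cos p.2 ^ 2) := by ring
      _ = p.1 ^ 2 := by rw [this, mul_one]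
  simp_rw [h1]
  have h2 : polarCoord.target = Set.Ioi (0 : ℝ) ×ˢ Set.Ioo (-Real.pi) Real.pi := rfl
  have hm : Measurable fun r : ℝ => ENNReal.ofReal r * h (r ^ 2) :=
    ENNReal.measurable_ofReal.mul (hh.comp (measurable_id.pow_const 2))
  rw [h2, Measure.volume_eq_prod, ← Measure.prod_restrict,
    lintegral_prod (fun p : ℝ × ℝ => ENNReal.ofReal p.1 * h (p.1 ^ 2))
      (hm.comp measurable_fst).aemeasurable]
  simp only [lintegral_const, Measure.restrict_apply MeasurableSet.univ, Set.univ_inter,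
    Real.volume_Ioo]
  rw [lintegral_mul_const _ hm, mul_comm]
  congr 2
  ring

private theorem cyl_subst (h : ℝ → ENNReal) (z : ℝ) :
    ∫⁻ r in Set.Ioi (0 : ℝ), ENNReal.ofReal r * h (Real.sqrt (r ^ 2 + z ^ 2))
      = ∫⁻ s in Set.Ioi |z|, ENNReal.ofReal s * h s := by
  have himg : (fun r : ℝ => Real.sqrt (r ^ 2 + z ^ 2)) '' Set.Ioi 0 = Set.Ioi |z| := by
    ext s
    constructor
    · rintro ⟨r, hr, rfl⟩
      have hr' : 0 < r := hr
      show |z| < Real.sqrt (r ^ 2 + z ^ 2)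
      rw [← Real.sqrt_sq_eq_abs]
      exact Real.sqrt_lt_sqrt (sq_nonneg z) (by nlinarith [pow_pos hr' 2])
    · intro hs
      have hs' : |z| < s := hs
      have hs0 : 0 < s := lt_of_le_of_lt (abs_nonneg z) hs'
      have hzs : z ^ 2 < s ^ 2 := by
        rw [← sq_abs z]
        exact pow_lt_pow_left₀ hs' (abs_nonneg z) (by norm_num)
      refine ⟨Real.sqrt (s ^ 2 - z ^ 2), Real.sqrt_pos.mpr (by linarith), ?_⟩
      show Real.sqrt (Real.sqrt (s ^ 2 - z ^ 2) ^ 2 + z ^ 2) = s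
      rw [Real.sq_sqrt (by linarith), sub_add_cancel, Real.sqrt_sq hs0.le]
  have hpos : ∀ r ∈ Set.Ioi (0 : ℝ), 0 < r ^ 2 + z ^ 2 := by
    intro r hr
    have hr' : 0 < r := hr
    have := pow_pos hr' 2
    have := sq_nonneg z
    linarith
  have hderiv : ∀ r ∈ Set.Ioi (0 : ℝ), HasDerivWithinAt (fun r : ℝ => Real.sqrt (r ^ 2 + z ^ 2))
      (r / Real.sqrt (r ^ 2 + z ^ 2)) (Set.Ioi 0) r := by
    intro r hr
    have h1 : HasDerivAt (fun r : ℝ => r ^ 2 + z ^ 2) (2 * r) r := by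
      have := (hasDerivAt_pow 2 r).add_const (z ^ 2)
      simpa using this
    have h2 := h1.sqrt (hpos r hr).ne'
    have h3 : 2 * r / (2 * Real.sqrt (r ^ 2 + z ^ 2)) = r / Real.sqrt (r ^ 2 + z ^ 2) := by
      rw [mul_div_mul_left _ _ (by norm_num : (2 : ℝ) ≠ 0)]
    rw [h3] at h2
    exact h2.hasDerivWithinAt
  have hinj : Set.InjOn (fun r : ℝ => Real.sqrt (r ^ 2 + z ^ 2)) (Set.Ioi 0) := by
    intro r hr r' hr' h
    have hr0 : 0 < r := hr
    have hr0' : 0 < r' := hr'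
    have h1 : Real.sqrt (r ^ 2 + z ^ 2) = Real.sqrt (r' ^ 2 + z ^ 2) := h
    have h2 : r ^ 2 + z ^ 2 = r' ^ 2 + z ^ 2 :=
      (Real.sqrt_inj (hpos r hr).le (hpos r' hr').le).mp h1
    have h3 : r ^ 2 = r' ^ 2 := by linarith
    exact (pow_left_inj₀ hr0.le hr0'.le (by norm_num)).mp h3
  have hmain := lintegral_image_eq_lintegral_abs_deriv_mul measurableSet_Ioi hderiv hinj
    (fun s => ENNReal.ofReal s * h s)
  rw [himg] at hmain
  rw [hmain]
  refine setLIntegral_congr_fun measurableSet_Ioi fun r hr => ?_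
  have hr0 : 0 < r := hr
  have hs : 0 < Real.sqrt (r ^ 2 + z ^ 2) := Real.sqrt_pos.mpr (hpos r hr)
  show ENNReal.ofReal r * h (Real.sqrt (r ^ 2 + z ^ 2))
    = ENNReal.ofReal |r / Real.sqrt (r ^ 2 + z ^ 2)| *
      (ENNReal.ofReal (Real.sqrt (r ^ 2 + z ^ 2)) * h (Real.sqrt (r ^ 2 + z ^ 2)))
  rw [← mul_assoc, ← ENNReal.ofReal_mul (abs_nonneg _), abs_of_pos (div_pos hr0 hs),
    div_mul_cancel₀ _ hs.ne']

theorem cyl (F : ℝ → ℝ → ENNReal) (hF : Measurable (fun u : ℝ × ℝ => F u.1 u.2)) :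
    ∫⁻ v : E3, F ‖v‖ (v 2) =
      ENNReal.ofReal (2 * Real.pi) * ∫⁻ s in Set.Ioi (0 : ℝ), ENNReal.ofReal s *
        ∫⁻ z in Set.Ioo (-s) s, F s z := by
  have hnorm : ∀ v : E3, ‖v‖ = Real.sqrt (v 0 ^ 2 + v 1 ^ 2 + v 2 ^ 2) := by
    intro v
    rw [EuclideanSpace.norm_eq, Fin.sum_univ_three]
    simp only [Real.norm_eq_abs, sq_abs]
  have hm1 : Measurable fun q : ℝ × (ℝ × ℝ) =>
      F (Real.sqrt (q.2.1 ^ 2 + q.2.2 ^ 2 + q.1 ^ 2)) q.1 := by
    have h1 : Measurable fun q : ℝ × (ℝ × ℝ) =>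
        (Real.sqrt (q.2.1 ^ 2 + q.2.2 ^ 2 + q.1 ^ 2), q.1) := by fun_prop
    exact hF.comp h1
  have hs1 := cyl_split (fun q => F (Real.sqrt (q.2.1 ^ 2 + q.2.2 ^ 2 + q.1 ^ 2)) q.1) hm1
  have h1 : ∫⁻ v : E3, F ‖v‖ (v 2)
      = ∫⁻ z : ℝ, ∫⁻ p : ℝ × ℝ, F (Real.sqrt (p.1 ^ 2 + p.2 ^ 2 + z ^ 2)) z := by
    rw [← hs1]
    refine lintegral_congr fun v => ?_
    rw [hnorm v]
  rw [h1]
  have h2 : ∀ z : ℝ, ∫⁻ p : ℝ × ℝ, F (Real.sqrt (p.1 ^ 2 + p.2 ^ 2 + z ^ 2)) z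
      = ENNReal.ofReal (2 * Real.pi) * ∫⁻ s in Set.Ioi |z|, ENNReal.ofReal s * F s z := by
    intro z
    have hm2 : Measurable fun x : ℝ => F (Real.sqrt (x + z ^ 2)) z := by
      have h3 : Measurable fun x : ℝ => (Real.sqrt (x + z ^ 2), z) := by fun_prop
      exact hF.comp h3
    rw [cyl_polar (fun x => F (Real.sqrt (x + z ^ 2)) z) hm2,
      cyl_subst (fun s => F s z) z]
  simp_rw [h2]
  have hmF : Measurable fun u : ℝ × ℝ => ENNReal.ofReal u.2 * F u.2 u.1 :=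
    (ENNReal.measurable_ofReal.comp measurable_snd).mul (hF.comp measurable_swap)
  have hset : MeasurableSet {u : ℝ × ℝ | |u.1| < u.2} :=
    measurableSet_lt (by fun_prop) measurable_snd
  have hmI : Measurable (Set.indicator {u : ℝ × ℝ | |u.1| < u.2}
      fun u : ℝ × ℝ => ENNReal.ofReal u.2 * F u.2 u.1) := hmF.indicator hset
  have h3 : ∀ z : ℝ, ∫⁻ s in Set.Ioi |z|, ENNReal.ofReal s * F s z
      = ∫⁻ s : ℝ, Set.indicator {u : ℝ × ℝ | |u.1| < u.2}
        (fun u : ℝ × ℝ => ENNReal.ofReal u.2 * F u.2 u.1) (z, s) := by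
    intro z
    rw [← lintegral_indicator measurableSet_Ioi]
    refine lintegral_congr fun s => ?_
    by_cases hs : |z| < s
    · rw [Set.indicator_of_mem (show s ∈ Set.Ioi |z| from hs),
        Set.indicator_of_mem (show (z, s) ∈ {u : ℝ × ℝ | |u.1| < u.2} from hs)]
    · rw [Set.indicator_of_notMem (show s ∉ Set.Ioi |z| from hs),
        Set.indicator_of_notMem (show (z, s) ∉ {u : ℝ × ℝ | |u.1| < u.2} from hs)]
  have hm4 : Measurable fun z : ℝ => ∫⁻ s : ℝ, Set.indicator {u : ℝ × ℝ | |u.1| < u.2}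
        (fun u : ℝ × ℝ => ENNReal.ofReal u.2 * F u.2 u.1) (z, s) :=
    hmI.lintegral_prod_right'
  simp_rw [h3]
  rw [lintegral_const_mul _ hm4]
  have hswap := lintegral_lintegral_swap (μ := (volume : Measure ℝ)) (ν := (volume : Measure ℝ))
    (f := fun z s : ℝ => Set.indicator {u : ℝ × ℝ | |u.1| < u.2}
        (fun u : ℝ × ℝ => ENNReal.ofReal u.2 * F u.2 u.1) (z, s)) hmI.aemeasurable
  rw [hswap]
  congr 1
  rw [← lintegral_indicator measurableSet_Ioi]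
  refine lintegral_congr fun s => ?_
  by_cases hs : 0 < s
  · rw [Set.indicator_of_mem (show s ∈ Set.Ioi (0 : ℝ) from hs)]
    have hmz : Measurable fun z : ℝ => F s z := hF.comp (measurable_const.prodMk measurable_id)
    rw [← lintegral_const_mul _ hmz, ← lintegral_indicator measurableSet_Ioo]
    refine lintegral_congr fun z => ?_
    by_cases hz : |z| < s
    · rw [Set.indicator_of_mem (show (z, s) ∈ {u : ℝ × ℝ | |u.1| < u.2} from hz),
        Set.indicator_of_mem (show z ∈ Set.Ioo (-s) s from abs_lt.mp hz)]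
    · rw [Set.indicator_of_notMem (show (z, s) ∉ {u : ℝ × ℝ | |u.1| < u.2} from hz),
        Set.indicator_of_notMem (show z ∉ Set.Ioo (-s) s from fun h => hz (abs_lt.mpr h))]
  · rw [Set.indicator_of_notMem (show s ∉ Set.Ioi (0 : ℝ) from hs)]
    have hzero : ∀ z : ℝ, Set.indicator {u : ℝ × ℝ | |u.1| < u.2}
        (fun u : ℝ × ℝ => ENNReal.ofReal u.2 * F u.2 u.1) (z, s) = 0 := by
      intro z
      have hz : ¬ |z| < s := by
        intro h
        exact hs (lt_of_le_of_lt (abs_nonneg z) h)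
      rw [Set.indicator_of_notMem (show (z, s) ∉ {u : ℝ × ℝ | |u.1| < u.2} from hz)]
    simp_rw [hzero]
    exact lintegral_zero

end H6.CM
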