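import Pool.Agent.H6.CM.ShDef
import Pool.Agent.H6.CM.NewA

/-! Theorem of Newton for the uniform density on a shell (copy the proof in `Newton.lean` with `χ ^ 2` replaced by the indicator of `r < s < r + 1`): for `w ≠ 0`, `W = ‖w‖`, the integral is `4 π ∫ s in r..r+1, s * min s W / W`; for `W ≤ r` it is `4 π ∫ s in r..r+1, s = 2 π (2 r + 1)`, otherwise the difference is at most `4 π (r + 1) (W - r) / W`. The case `w = 0`: `cyl` directly. -/

open MeasureTheory Finset

namespace H6.CM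

private noncomputable def ShA_e : E3 := EuclideanSpace.single (2 : Fin 3) (1 : ℝ)

private theorem ShA_norm_e : ‖ShA_e‖ = 1 := by simp [ShA_e]

private theorem ShA_norm_we (W : ℝ) (u : E3) :
    ‖u - W • ShA_e‖ = Real.sqrt (W ^ 2 + ‖u‖ ^ 2 - 2 * W * u 2) := by
  have h1 : ‖u - W • ShA_e‖ ^ 2 = W ^ 2 + ‖u‖ ^ 2 - 2 * W * u 2 := by
    rw [norm_sub_rev, norm_sub_sq_real, real_inner_smul_left, norm_smul, ShA_norm_e]
    have h2 : inner ℝ ShA_e u = u 2 := by
      unfold ShA_e
      rw [EuclideanSpace.inner_single_left]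
      simp
    rw [h2, mul_one, Real.norm_eq_abs, sq_abs]
    ring
  rw [← h1, Real.sqrt_sq (norm_nonneg _)]

/-- the kernel after the integration over the spheres -/
private noncomputable def ShA_m (W s : ℝ) : ℝ := if W = 0 then 2 else 2 * min s W / W

private theorem ShA_inner (W s : ℝ) (hW : 0 ≤ W) (hs : 0 < s) :
    ∫⁻ z in Set.Ioo (-s) s, ENNReal.ofReal ((Real.sqrt (W ^ 2 + s ^ 2 - 2 * W * z))⁻¹)
      = ENNReal.ofReal (ShA_m W s) := by
  rcases hW.eq_or_lt with h0 | hW
  · subst h0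
    have h1 : ∀ z : ℝ, (0 : ℝ) ^ 2 + s ^ 2 - 2 * 0 * z = s ^ 2 := by
      intro z
      ring
    simp only [h1, Real.sqrt_sq hs.le]
    rw [lintegral_const, Measure.restrict_apply MeasurableSet.univ, Set.univ_inter,
      Real.volume_Ioo, ← ENNReal.ofReal_mul (inv_nonneg.mpr hs.le)]
    congr 1
    rw [ShA_m, if_pos rfl]
    field_simp
    ring
  have hpos : ∀ z ∈ Set.Ioo (-s) s, 0 < W ^ 2 + s ^ 2 - 2 * W * z := by
    intro z hz
    nlinarith [sq_nonneg (W - s), mul_pos hW (sub_pos.mpr hz.2)]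
  have hcont : ContinuousOn (fun z : ℝ => -(Real.sqrt (W ^ 2 + s ^ 2 - 2 * W * z)) / W)
      (Set.Icc (-s) s) := by
    fun_prop
  have hderiv : ∀ z ∈ Set.Ioo (-s) s,
      HasDerivAt (fun z : ℝ => -(Real.sqrt (W ^ 2 + s ^ 2 - 2 * W * z)) / W)
        ((Real.sqrt (W ^ 2 + s ^ 2 - 2 * W * z))⁻¹) z := by
    intro z hz
    have h1 : HasDerivAt (fun z : ℝ => W ^ 2 + s ^ 2 - 2 * W * z) (-(2 * W)) z := by
      have := ((hasDerivAt_id z).const_mul (2 * W)).const_sub (W ^ 2 + s ^ 2)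
      simpa using this
    have h2 := ((h1.sqrt (hpos z hz).ne').fun_neg).div_const W
    have h3 : -(-(2 * W) / (2 * Real.sqrt (W ^ 2 + s ^ 2 - 2 * W * z))) / W
        = (Real.sqrt (W ^ 2 + s ^ 2 - 2 * W * z))⁻¹ := by
      have := Real.sqrt_pos.mpr (hpos z hz)
      field_simp
    rw [h3] at h2
    exact h2
  have hint : IntegrableOn (fun z : ℝ => (Real.sqrt (W ^ 2 + s ^ 2 - 2 * W * z))⁻¹)
      (Set.Ioc (-s) s) :=
    intervalIntegral.integrableOn_deriv_of_nonneg hcont hderiv (fun z _ => by positivity)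
  have hle : -s ≤ s := by linarith
  have hII : IntervalIntegrable (fun z : ℝ => (Real.sqrt (W ^ 2 + s ^ 2 - 2 * W * z))⁻¹)
      volume (-s) s := (intervalIntegrable_iff_integrableOn_Ioc_of_le hle).mpr hint
  have hval := intervalIntegral.integral_eq_sub_of_hasDerivAt_of_le hle hcont hderiv hII
  rw [intervalIntegral.integral_of_le hle, integral_Ioc_eq_integral_Ioo] at hval
  rw [← ofReal_integral_eq_lintegral_ofReal (hint.mono_set Set.Ioo_subset_Ioc_self)
    (Filter.Eventually.of_forall fun z => inv_nonneg.mpr (Real.sqrt_nonneg _)), hval]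
  congr 1
  have h1 : Real.sqrt (W ^ 2 + s ^ 2 - 2 * W * s) = |W - s| := by
    rw [← Real.sqrt_sq_eq_abs]
    congr 1
    ring
  have h2 : Real.sqrt (W ^ 2 + s ^ 2 - 2 * W * (-s)) = W + s := by
    have h3 : W ^ 2 + s ^ 2 - 2 * W * (-s) = (W + s) ^ 2 := by ring
    rw [h3, Real.sqrt_sq (by linarith)]
  rw [h1, h2, ShA_m, if_neg hW.ne']
  rcases le_total s W with h | h
  · rw [min_eq_left h, abs_of_nonneg (by linarith)]
    ring
  · rw [min_eq_right h, abs_of_nonpos (by linarith)]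
    ring

private noncomputable def ShA_G (r s : ℝ) : ENNReal := if r < s ∧ s < r + 1 then 1 else 0

private theorem ShA_G_meas (r : ℝ) : Measurable (ShA_G r) := by
  unfold ShA_G
  exact Measurable.ite measurableSet_Ioo measurable_const measurable_const

private theorem ShA_set_meas (r s : ℝ) : MeasurableSet (sh r s) := by
  have h1 : sh r s = (fun v : E3 => ‖v‖) ⁻¹' Set.Ioo r s := rfl
  rw [h1]
  exact measurable_norm measurableSet_Ioo

private theorem ShA_ind (r : ℝ) (f : E3 → ENNReal) :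
    ∫⁻ v in sh r (r + 1), f v = ∫⁻ v, ShA_G r ‖v‖ * f v := by
  rw [← lintegral_indicator (ShA_set_meas r (r + 1))]
  refine lintegral_congr fun v => ?_
  by_cases hv : v ∈ sh r (r + 1)
  · have hG : ShA_G r ‖v‖ = 1 := if_pos hv
    rw [Set.indicator_of_mem hv, hG, one_mul]
  · have hG : ShA_G r ‖v‖ = 0 := if_neg hv
    rw [Set.indicator_of_notMem hv, hG, zero_mul]

private theorem ShA_rot (r : ℝ) (w : E3) :
    ∫⁻ v in sh r (r + 1), ENNReal.ofReal ‖v - w‖⁻¹ =
      ∫⁻ v in sh r (r + 1), ENNReal.ofReal ‖v - ‖w‖ • ShA_e‖⁻¹ := by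
  have hn : ‖w‖ = ‖‖w‖ • ShA_e‖ := by rw [norm_smul, ShA_norm_e, mul_one, norm_norm]
  obtain ⟨T, hT⟩ : ∃ T : E3 ≃ₗᵢ[ℝ] E3, T w = ‖w‖ • ShA_e :=
    ⟨_, Submodule.reflection_sub hn⟩
  have hmp := T.measurePreserving
  rw [ShA_ind, ShA_ind]
  have h1 := hmp.lintegral_comp_emb T.toMeasurableEquiv.measurableEmbedding
    (fun v : E3 => ShA_G r ‖v‖ * ENNReal.ofReal ‖v - ‖w‖ • ShA_e‖⁻¹)
  rw [← h1]
  refine lintegral_congr fun v => ?_
  show ShA_G r ‖v‖ * ENNReal.ofReal ‖v - w‖⁻¹ =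
    ShA_G r ‖T v‖ * ENNReal.ofReal ‖T v - ‖w‖ • ShA_e‖⁻¹
  rw [← hT, ← map_sub, T.norm_map, T.norm_map]

private theorem ShA_lint (r W : ℝ) (hW : 0 ≤ W) :
    ∫⁻ v in sh r (r + 1), ENNReal.ofReal ‖v - W • ShA_e‖⁻¹ =
      ENNReal.ofReal (2 * Real.pi) * ∫⁻ s in Set.Ioi (0 : ℝ), ENNReal.ofReal s *
        (ShA_G r s * ENNReal.ofReal (ShA_m W s)) := by
  rw [ShA_ind]
  have hF : Measurable fun u : ℝ × ℝ => ShA_G r u.1 *
      ENNReal.ofReal ((Real.sqrt (W ^ 2 + u.1 ^ 2 - 2 * W * u.2))⁻¹) := by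
    have h1 : Measurable fun u : ℝ × ℝ => ShA_G r u.1 := (ShA_G_meas r).comp measurable_fst
    have h2 : Measurable fun u : ℝ × ℝ => (Real.sqrt (W ^ 2 + u.1 ^ 2 - 2 * W * u.2))⁻¹ := by
      fun_prop
    exact h1.mul (ENNReal.measurable_ofReal.comp h2)
  have hcyl := cyl (fun s z => ShA_G r s *
      ENNReal.ofReal ((Real.sqrt (W ^ 2 + s ^ 2 - 2 * W * z))⁻¹)) hF
  simp_rw [ShA_norm_we]
  rw [hcyl]
  congr 1
  refine setLIntegral_congr_fun measurableSet_Ioi fun s hs => ?_
  have hs0 : 0 < s := hs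
  show ENNReal.ofReal s * ∫⁻ z in Set.Ioo (-s) s, ShA_G r s *
      ENNReal.ofReal ((Real.sqrt (W ^ 2 + s ^ 2 - 2 * W * z))⁻¹)
    = ENNReal.ofReal s * (ShA_G r s * ENNReal.ofReal (ShA_m W s))
  have hm : Measurable fun z : ℝ => ENNReal.ofReal ((Real.sqrt (W ^ 2 + s ^ 2 - 2 * W * z))⁻¹) := by
    fun_prop
  rw [lintegral_const_mul _ hm, ShA_inner W s hW hs0]

private theorem ShA_m_nonneg (W s : ℝ) (hW : 0 ≤ W) (hs : 0 ≤ s) : 0 ≤ ShA_m W s := by
  unfold ShA_m
  split_ifs
  · norm_num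
  · have := le_min hs hW
    positivity

private theorem ShA_m_le (W s : ℝ) (hW : 0 ≤ W) : ShA_m W s ≤ 2 := by
  unfold ShA_m
  split_ifs with h
  · exact le_rfl
  · have h1 : 0 < W := lt_of_le_of_ne hW (Ne.symm h)
    rw [div_le_iff₀ h1]
    linarith [min_le_right s W]

private theorem ShA_m_meas (W : ℝ) : Measurable (ShA_m W) := by
  unfold ShA_m
  by_cases h : W = 0
  · simp only [h, if_true]
    exact measurable_const
  · simp only [h, if_false]
    exact ((measurable_id.min measurable_const).const_mul 2).div_const W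

private theorem ShA_real (r W : ℝ) (hr : 0 ≤ r) (hW : 0 ≤ W) :
    ∫⁻ v in sh r (r + 1), ENNReal.ofReal ‖v - W • ShA_e‖⁻¹ =
      ENNReal.ofReal (2 * Real.pi * ∫ s in r..(r + 1), s * ShA_m W s) := by
  rw [ShA_lint r W hW]
  have h1 : ∫⁻ s in Set.Ioi (0 : ℝ), ENNReal.ofReal s * (ShA_G r s * ENNReal.ofReal (ShA_m W s)) =
      ∫⁻ s in Set.Ioo r (r + 1), ENNReal.ofReal (s * ShA_m W s) := by
    rw [← lintegral_indicator measurableSet_Ioi, ← lintegral_indicator measurableSet_Ioo]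
    refine lintegral_congr fun s => ?_
    by_cases hs : s ∈ Set.Ioo r (r + 1)
    · have hs0 : 0 < s := lt_of_le_of_lt hr hs.1
      have hG : ShA_G r s = 1 := if_pos hs
      rw [Set.indicator_of_mem hs, Set.indicator_of_mem (show s ∈ Set.Ioi (0 : ℝ) from hs0), hG,
        one_mul, ENNReal.ofReal_mul hs0.le]
    · have hG : ShA_G r s = 0 := if_neg hs
      rw [Set.indicator_of_notMem hs]
      by_cases hs0 : s ∈ Set.Ioi (0 : ℝ)
      · rw [Set.indicator_of_mem hs0, hG, zero_mul, mul_zero]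
      · rw [Set.indicator_of_notMem hs0]
  have hint : IntegrableOn (fun s : ℝ => s * ShA_m W s) (Set.Ioo r (r + 1)) := by
    apply Measure.integrableOn_of_bounded (M := (r + 1) * 2)
    · simp
    · exact (measurable_id.mul (ShA_m_meas W)).aestronglyMeasurable
    · rw [ae_restrict_iff' measurableSet_Ioo]
      refine Filter.Eventually.of_forall fun s hs => ?_
      have hs0 : 0 < s := lt_of_le_of_lt hr hs.1
      rw [Real.norm_eq_abs, abs_of_nonneg (mul_nonneg hs0.le (ShA_m_nonneg W s hW hs0.le))]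
      exact mul_le_mul hs.2.le (ShA_m_le W s hW) (ShA_m_nonneg W s hW hs0.le) (by linarith)
  have hnn : 0 ≤ᵐ[volume.restrict (Set.Ioo r (r + 1))] fun s : ℝ => s * ShA_m W s := by
    rw [Filter.EventuallyLE, ae_restrict_iff' measurableSet_Ioo]
    refine Filter.Eventually.of_forall fun s hs => ?_
    have hs0 : 0 < s := lt_of_le_of_lt hr hs.1
    exact mul_nonneg hs0.le (ShA_m_nonneg W s hW hs0.le)
  rw [h1, ← ofReal_integral_eq_lintegral_ofReal hint hnn, ← ENNReal.ofReal_mul (by positivity),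
    intervalIntegral.integral_of_le (by linarith), integral_Ioc_eq_integral_Ioo]

private theorem ShA_fin (r : ℝ) (w : E3) :
    ∫⁻ v in sh r (r + 1), ENNReal.ofReal ‖v - w‖⁻¹ ≠ ⊤ := by
  rw [ShA_rot, ShA_lint r _ (norm_nonneg w)]
  apply ENNReal.mul_ne_top ENNReal.ofReal_ne_top
  have h1 : ∫⁻ s in Set.Ioi (0 : ℝ), ENNReal.ofReal s *
        (ShA_G r s * ENNReal.ofReal (ShA_m ‖w‖ s)) ≤
      ∫⁻ s in Set.Ioo r (r + 1), ENNReal.ofReal ((r + 1) * 2) := by
    rw [← lintegral_indicator measurableSet_Ioi, ← lintegral_indicator measurableSet_Ioo]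
    refine lintegral_mono fun s => ?_
    by_cases hs0 : s ∈ Set.Ioi (0 : ℝ)
    · have hs0' : 0 < s := hs0
      rw [Set.indicator_of_mem hs0]
      by_cases hs : s ∈ Set.Ioo r (r + 1)
      · have hG : ShA_G r s = 1 := if_pos hs
        rw [Set.indicator_of_mem hs, hG, one_mul, ← ENNReal.ofReal_mul hs0'.le]
        apply ENNReal.ofReal_le_ofReal
        exact mul_le_mul hs.2.le (ShA_m_le _ s (norm_nonneg w))
          (ShA_m_nonneg _ s (norm_nonneg w) hs0'.le) (by linarith [hs.2])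
      · have hG : ShA_G r s = 0 := if_neg hs
        rw [hG, zero_mul, mul_zero]
        exact bot_le
    · rw [Set.indicator_of_notMem hs0]
      exact bot_le
  apply ne_top_of_le_ne_top _ h1
  rw [setLIntegral_const, Real.volume_Ioo]
  exact ENNReal.mul_ne_top ENNReal.ofReal_ne_top ENNReal.ofReal_ne_top

private theorem ShA_fmeas (w : E3) : Measurable fun v : E3 => ‖v - w‖⁻¹ :=
  (measurable_id.sub measurable_const).norm.inv

theorem sh_int (r : ℝ) (w : E3) : IntegrableOn (fun v : E3 => ‖v - w‖⁻¹) (sh r (r + 1)) := by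
  refine ⟨(ShA_fmeas w).aestronglyMeasurable, ?_⟩
  rw [hasFiniteIntegral_iff_ofReal (Filter.Eventually.of_forall fun v =>
    inv_nonneg.mpr (norm_nonneg _))]
  exact lt_top_iff_ne_top.mpr (ShA_fin r w)

private theorem ShA_val (r : ℝ) (hr : 0 ≤ r) (w : E3) :
    ∫ v in sh r (r + 1), ‖v - w‖⁻¹ = 2 * Real.pi * ∫ s in r..(r + 1), s * ShA_m ‖w‖ s := by
  rw [integral_eq_lintegral_of_nonneg_ae (Filter.Eventually.of_forall fun v =>
    inv_nonneg.mpr (norm_nonneg _)) (ShA_fmeas w).aestronglyMeasurable, ShA_rot,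
    ShA_real r ‖w‖ hr (norm_nonneg w), ENNReal.toReal_ofReal]
  apply mul_nonneg (by positivity)
  apply intervalIntegral.integral_nonneg (by linarith)
  intro s hs
  have hs0 : 0 ≤ s := hr.trans hs.1
  exact mul_nonneg hs0 (ShA_m_nonneg _ s (norm_nonneg w) hs0)

theorem sh_newt (r : ℝ) (hr : 3 ≤ r) (w : E3) (hw : ‖w‖ < r + 4) :
    |(∫ v in sh r (r + 1), ‖v - w‖⁻¹) - 2 * Real.pi * (2 * r + 1)| ≤
      100 * (if r < ‖w‖ then 1 else 0) := by
  rw [ShA_val r (by linarith) w]
  have h2 : ∫ s in r..(r + 1), s * 2 = 2 * r + 1 := by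
    rw [intervalIntegral.integral_mul_const, integral_id]
    ring
  have hii : IntervalIntegrable (fun s : ℝ => s * ShA_m ‖w‖ s) volume r (r + 1) := by
    rw [intervalIntegrable_iff_integrableOn_Ioc_of_le (by linarith)]
    apply Measure.integrableOn_of_bounded (M := (r + 1) * 2)
    · simp
    · exact (measurable_id.mul (ShA_m_meas ‖w‖)).aestronglyMeasurable
    · rw [ae_restrict_iff' measurableSet_Ioc]
      refine Filter.Eventually.of_forall fun s hs => ?_
      have hs0 : 0 < s := by linarith [hs.1]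
      rw [Real.norm_eq_abs, abs_of_nonneg (mul_nonneg hs0.le
        (ShA_m_nonneg _ s (norm_nonneg w) hs0.le))]
      exact mul_le_mul hs.2 (ShA_m_le _ s (norm_nonneg w))
        (ShA_m_nonneg _ s (norm_nonneg w) hs0.le) (by linarith)
  have hii2 : IntervalIntegrable (fun s : ℝ => s * 2) volume r (r + 1) :=
    (continuous_id.mul continuous_const).intervalIntegrable _ _
  have hdiff : 2 * Real.pi * (∫ s in r..(r + 1), s * ShA_m ‖w‖ s) - 2 * Real.pi * (2 * r + 1) =
      2 * Real.pi * ∫ s in r..(r + 1), (s * ShA_m ‖w‖ s - s * 2) := by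
    rw [intervalIntegral.integral_sub hii hii2, h2]
    ring
  rw [hdiff, abs_mul, abs_of_pos (by positivity : 0 < 2 * Real.pi)]
  split_ifs with h
  · have h3 : ‖∫ s in r..(r + 1), (s * ShA_m ‖w‖ s - s * 2)‖ ≤ 8 * |r + 1 - r| := by
      apply intervalIntegral.norm_integral_le_of_norm_le_const
      intro s hs
      rw [Set.uIoc_of_le (by linarith)] at hs
      have hs0 : 0 < s := by linarith [hs.1]
      have hW0 : 0 < ‖w‖ := by linarith
      have h4 : s * ShA_m ‖w‖ s ≤ s * 2 :=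
        mul_le_mul_of_nonneg_left (ShA_m_le _ s (norm_nonneg w)) hs0.le
      rw [Real.norm_eq_abs, abs_of_nonpos (by linarith), ShA_m, if_neg hW0.ne']
      rcases le_total s ‖w‖ with h5 | h5
      · rw [min_eq_left h5]
        have h6 : -(s * (2 * s / ‖w‖) - s * 2) = 2 * (s * (‖w‖ - s)) / ‖w‖ := by
          field_simp
          ring
        rw [h6, div_le_iff₀ hW0]
        have h7 : s * (‖w‖ - s) ≤ ‖w‖ * 4 :=
          mul_le_mul h5 (by linarith [hs.1]) (by linarith) hW0.le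
        linarith
      · rw [min_eq_right h5, mul_div_assoc, div_self hW0.ne']
        linarith
    rw [Real.norm_eq_abs, add_sub_cancel_left, abs_one, mul_one] at h3
    calc 2 * Real.pi * |∫ s in r..(r + 1), (s * ShA_m ‖w‖ s - s * 2)| ≤ 2 * 4 * 8 := by
          apply mul_le_mul _ h3 (abs_nonneg _) (by norm_num)
          linarith [Real.pi_le_four]
      _ ≤ 100 * 1 := by norm_num
  · have h3 : ∫ s in r..(r + 1), (s * ShA_m ‖w‖ s - s * 2) = 0 := by
      have h4 : ∀ s ∈ Set.uIcc r (r + 1), s * ShA_m ‖w‖ s - s * 2 = (0 : ℝ) := by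
        intro s hs
        rw [Set.uIcc_of_le (by linarith)] at hs
        have h5 : ShA_m ‖w‖ s = 2 := by
          unfold ShA_m
          split_ifs with h0
          · rfl
          · rw [min_eq_right ((not_lt.mp h).trans hs.1), mul_div_assoc, div_self h0, mul_one]
        rw [h5, sub_self]
      rw [intervalIntegral.integral_congr h4]
      simp
    rw [h3]
    simp

theorem sh_vol (r : ℝ) (hr : 3 ≤ r) :
    4 * Real.pi * r ^ 2 ≤ (volume (sh r (r + 1))).toReal ∧ volume (sh r (r + 1)) ≠ ⊤ := by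
  have hset : sh r (r + 1) = Metric.ball (0 : E3) (r + 1) \ Metric.closedBall (0 : E3) r := by
    ext v
    simp only [sh, Set.mem_ofPred_eq, Set.mem_sdiff, Metric.mem_ball, dist_zero_right,
      Metric.mem_closedBall, not_le]
    exact and_comm
  have hsub : Metric.closedBall (0 : E3) r ⊆ Metric.ball (0 : E3) (r + 1) :=
    Metric.closedBall_subset_ball (by linarith)
  have hfin : volume (Metric.closedBall (0 : E3) r) ≠ ⊤ := measure_closedBall_lt_top.ne
  have hv : volume (sh r (r + 1)) =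
      volume (Metric.ball (0 : E3) (r + 1)) - volume (Metric.closedBall (0 : E3) r) := by
    rw [hset, measure_sdiff hsub Metric.isClosed_closedBall.measurableSet.nullMeasurableSet hfin]
  have hb : (volume (Metric.ball (0 : E3) (r + 1))).toReal = (r + 1) ^ 3 * (Real.pi * 4 / 3) := by
    rw [EuclideanSpace.volume_ball_fin_three, ENNReal.toReal_mul, ENNReal.toReal_pow,
      ENNReal.toReal_ofReal (by linarith), ENNReal.toReal_ofReal (by positivity)]
  have hc : (volume (Metric.closedBall (0 : E3) r)).toReal = r ^ 3 * (Real.pi * 4 / 3) := by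
    rw [EuclideanSpace.volume_closedBall_fin_three, ENNReal.toReal_mul, ENNReal.toReal_pow,
      ENNReal.toReal_ofReal (by linarith), ENNReal.toReal_ofReal (by positivity)]
  constructor
  · rw [hv, ENNReal.toReal_sub_of_le (measure_mono hsub) measure_ball_lt_top.ne, hb, hc]
    nlinarith [Real.pi_pos, mul_nonneg Real.pi_pos.le (by linarith : (0 : ℝ) ≤ 3 * r + 1)]
  · rw [hv]
    exact ne_top_of_le_ne_top measure_ball_lt_top.ne tsub_le_self

end H6.CM
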