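import Pool.Agent.H6.CM.ShDef
import Pool.Agent.H6.CM.BallInv

/-! The average of `near` over a shell: the integrand vanishes unless `‖v - w‖ < 2`, so the integral vanishes for `‖w‖ ≤ r - 2` and is at most the integral over the ball of radius `2`, `ballinv`. -/

open MeasureTheory Finset

namespace H6.CM

theorem sh_near : ∃ C : ℝ, 0 ≤ C ∧ ∀ (r : ℝ) (w : E3),
    IntegrableOn (fun v : E3 => if ‖v - w‖ < 2 then ‖v - w‖⁻¹ else 0) (sh r (r + 1)) ∧
    ∫ v in sh r (r + 1), (if ‖v - w‖ < 2 then ‖v - w‖⁻¹ else 0) ≤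
      C * (if r - 2 < ‖w‖ then 1 else 0) := by
  obtain ⟨C, hC, h⟩ := ballinv
  refine ⟨C * 2 ^ 2, by positivity, ?_⟩
  intro r w
  set f : E3 → ℝ := fun v => if ‖v‖ < 2 then ‖v‖⁻¹ else 0 with hf
  have hf0 : ∀ v, 0 ≤ f v := fun v => by
    simp only [hf]; split_ifs <;> positivity
  have hfm : Measurable f := by
    simp only [hf]
    exact Measurable.ite (measurableSet_lt measurable_norm measurable_const)
      measurable_norm.inv measurable_const
  have hl : ∫⁻ v, ENNReal.ofReal (f v) ≤ ENNReal.ofReal (C * 2 ^ 2) := by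
    refine le_trans (le_of_eq ?_) (h 0 2 (by norm_num))
    rw [← lintegral_indicator measurableSet_ball]
    refine lintegral_congr fun v => ?_
    by_cases hv : ‖v‖ < 2
    · rw [Set.indicator_of_mem (by simpa using hv)]
      simp [hf, hv]
    · rw [Set.indicator_of_notMem (by simpa using hv)]
      simp [hf, hv]
  have hfi : Integrable f := by
    refine ⟨hfm.aestronglyMeasurable, ?_⟩
    rw [hasFiniteIntegral_iff_ofReal (Filter.Eventually.of_forall hf0)]
    exact lt_of_le_of_lt hl ENNReal.ofReal_lt_top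
  have hfv : ∫ v, f v ≤ C * 2 ^ 2 := by
    rw [integral_eq_lintegral_of_nonneg_ae (Filter.Eventually.of_forall hf0)
      hfm.aestronglyMeasurable]
    exact ENNReal.toReal_le_of_le_ofReal (by positivity) hl
  have hgi : Integrable (fun v : E3 => f (v - w)) := hfi.comp_sub_right w
  refine ⟨hgi.integrableOn, ?_⟩
  by_cases hr : r - 2 < ‖w‖
  · rw [if_pos hr, mul_one]
    refine le_trans ?_ hfv
    rw [← integral_sub_right_eq_self f w]
    exact setIntegral_le_integral hgi (Filter.Eventually.of_forall fun v => hf0 _)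
  · rw [if_neg hr, mul_zero]
    refine le_of_eq (setIntegral_eq_zero_of_forall_eq_zero fun v hv => ?_)
    rw [if_neg]
    intro h2
    have h1 : r < ‖v‖ := hv.1
    have h3 : ‖v‖ ≤ ‖v - w‖ + ‖w‖ := by
      have := norm_add_le (v - w) w
      simpa using this
    linarith

end H6.CM
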