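import Pool.Agent.H6.CM.ShA
import Pool.Agent.H6.CM.ShB
import Pool.Agent.H6.CM.IntAll
import Pool.Agent.H6.CM.PhiS

/-! Fubini for the averages over a shell `A = sh r (r + 1)`: the functions `(p, v) ↦ ‖v - p.1 a‖⁻¹ * ‖ψ σ p‖ ^ 2` are integrable on the product with `A` (dominate by `int_pe`, `int_pn` with `g (p, v) = ‖ψ σ p‖ ^ 2 * η v`, `η` continuous with compact support, `η = 1` on `A`). -/

open MeasureTheory Finset

namespace H6.CM

private theorem sf_sq {q n k : ℕ} {Λ : Set E3} {ψ : (Fin n → Fin q) → Cfg n k → ℂ}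
    (hψ : St q n k Λ ψ) (σ : Fin n → Fin q) :
    Continuous (fun p => ‖ψ σ p‖ ^ 2) ∧ HasCompactSupport (fun p => ‖ψ σ p‖ ^ 2) := by
  constructor
  · exact (hψ.smooth σ).continuous.norm.pow 2
  · exact (hψ.cpt σ).comp_left (g := fun z : ℂ => ‖z‖ ^ 2) (by simp)

private theorem sf_eta (r : ℝ) : ∃ η : E3 → ℝ, Continuous η ∧ HasCompactSupport η ∧
    ∀ v ∈ sh r (r + 1), η v = 1 := by
  refine ⟨fun v => max 0 (min 1 (r + 2 - ‖v‖)), by fun_prop, ?_, ?_⟩
  · refine HasCompactSupport.intro (isCompact_closedBall (0 : E3) (r + 2)) ?_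
    intro v hv
    rw [mem_closedBall_zero_iff, not_le] at hv
    show max 0 (min 1 (r + 2 - ‖v‖)) = 0
    rw [min_eq_right (by linarith), max_eq_left (by linarith)]
  · intro v hv
    have h1 := hv.2
    show max 0 (min 1 (r + 2 - ‖v‖)) = 1
    rw [min_eq_left (by linarith), max_eq_right zero_le_one]

private theorem sf_meas (r s : ℝ) : MeasurableSet (sh r s) :=
  (measurableSet_lt measurable_const measurable_norm).inter
    (measurableSet_lt measurable_norm measurable_const)

private theorem sf_prod {n k : ℕ} (A : Set E3) :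
    (volume : Measure (Cfg n k)).prod ((volume : Measure E3).restrict A) =
      (volume : Measure (Cfg n k × E3)).restrict (Set.univ ×ˢ A) := by
  have h := Measure.prod_restrict (μ := (volume : Measure (Cfg n k)))
    (ν := (volume : Measure E3)) Set.univ A
  rw [Measure.restrict_univ] at h
  exact h

private theorem sf_term {n k : ℕ} {h : Cfg n k → ℝ} (hc : Continuous h)
    (hs : HasCompactSupport h) (r : ℝ) (K : Cfg n k × E3 → ℝ)
    (hK : ∀ g : Cfg n k × E3 → ℝ, Continuous g → HasCompactSupport g →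
      Integrable (fun u => K u * g u)) :
    Integrable (fun u : Cfg n k × E3 => K u * h u.1)
      ((volume : Measure (Cfg n k)).prod ((volume : Measure E3).restrict (sh r (r + 1)))) := by
  obtain ⟨η, ηc, ηs, η1⟩ := sf_eta r
  have h1 : Integrable (fun u : Cfg n k × E3 => K u * (h u.1 * η u.2)) := by
    apply hK
    · exact (hc.comp continuous_fst).mul (ηc.comp continuous_snd)
    · refine HasCompactSupport.intro (IsCompact.prod hs ηs) ?_
      intro u hu
      by_contra hne
      apply hu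
      exact ⟨subset_tsupport _ (left_ne_zero_of_mul hne),
        subset_tsupport _ (right_ne_zero_of_mul hne)⟩
  rw [sf_prod]
  have h2 := h1.integrableOn (s := Set.univ ×ˢ sh r (r + 1))
  refine h2.congr_fun (fun u hu => ?_) (MeasurableSet.univ.prod (sf_meas _ _))
  show K u * (h u.1 * η u.2) = K u * h u.1
  rw [η1 u.2 hu.2, mul_one]

private theorem sf_gen {q n k : ℕ} {ψ : (Fin n → Fin q) → Cfg n k → ℂ} (A : Set E3)
    (F : Cfg n k → E3 → ℝ)
    (h : ∀ σ, Integrable (fun u : Cfg n k × E3 => F u.1 u.2 * ‖ψ σ u.1‖ ^ 2)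
      ((volume : Measure (Cfg n k)).prod ((volume : Measure E3).restrict A))) :
    IntegrableOn (fun v => mean ψ (fun p => F p v)) A ∧
    ∫ v in A, mean ψ (fun p => F p v) = mean ψ (fun p => ∫ v in A, F p v) ∧
    ∀ σ, Integrable (fun p => (∫ v in A, F p v) * ‖ψ σ p‖ ^ 2) := by
  refine ⟨?_, ?_, ?_⟩
  · unfold mean IntegrableOn
    exact integrable_finsetSum _ fun σ _ => (h σ).integral_prod_right
  · unfold mean
    rw [integral_finsetSum _ fun σ _ => (h σ).integral_prod_right]
    refine sum_congr rfl fun σ _ => ?_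
    have h1 := integral_integral_swap (f := fun (p : Cfg n k) (v : E3) =>
      F p v * ‖ψ σ p‖ ^ 2) (h σ)
    rw [← h1]
    refine integral_congr_ae (Filter.Eventually.of_forall fun p => ?_)
    exact integral_mul_const _ _
  · intro σ
    refine (h σ).integral_prod_left.congr (Filter.Eventually.of_forall fun p => ?_)
    show ∫ v in A, F p v * ‖ψ σ p‖ ^ 2 = (∫ v in A, F p v) * ‖ψ σ p‖ ^ 2
    exact integral_mul_const _ _

private theorem sf_bdd {n k : ℕ} {h : Cfg n k → ℝ} (hc : Continuous h) (hs : HasCompactSupport h)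
    {f : Cfg n k → ℝ} (hf : Measurable f) (C : ℝ) (hC : ∀ p, |f p| ≤ C) :
    Integrable (fun p => f p * h p) := by
  have h1 : Integrable h := hc.integrable_of_hasCompactSupport hs
  exact h1.bdd_mul (c := C) hf.aestronglyMeasurable (Filter.Eventually.of_forall fun p => by
    rw [Real.norm_eq_abs]
    exact hC p)

theorem shF_phi {q n k : ℕ} {Λ : Set E3} {ψ : (Fin n → Fin q) → Cfg n k → ℂ}
    (hψ : St q n k Λ ψ) (z : Fin k → ℝ) (r : ℝ) :
    IntegrableOn (fun v => mean ψ (fun p => phi z p v)) (sh r (r + 1)) ∧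
    ∫ v in sh r (r + 1), mean ψ (fun p => phi z p v) =
      mean ψ (fun p => ∫ v in sh r (r + 1), phi z p v) ∧
    ∀ σ, Integrable (fun p => (∫ v in sh r (r + 1), phi z p v) * ‖ψ σ p‖ ^ 2) := by
  apply sf_gen (sh r (r + 1)) (phi z)
  intro σ
  obtain ⟨hc, hs⟩ := sf_sq hψ σ
  have h1 : Integrable (fun u : Cfg n k × E3 =>
      ∑ j, z j * (‖u.2 - u.1.2 j‖⁻¹ * ‖ψ σ u.1‖ ^ 2) -
        ∑ a, ‖u.2 - u.1.1 a‖⁻¹ * ‖ψ σ u.1‖ ^ 2)
      ((volume : Measure (Cfg n k)).prod ((volume : Measure E3).restrict (sh r (r + 1)))) := by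
    refine Integrable.sub ?_ ?_
    · exact integrable_finsetSum _ fun j _ => (sf_term hc hs r
        (fun u => ‖u.2 - u.1.2 j‖⁻¹) fun g gc gs => int_pn g gc gs j).const_mul _
    · exact integrable_finsetSum _ fun a _ => sf_term hc hs r
        (fun u => ‖u.2 - u.1.1 a‖⁻¹) fun g gc gs => int_pe g gc gs a
  refine h1.congr (Filter.Eventually.of_forall fun u => ?_)
  simp only [phi]
  rw [sub_mul, sum_mul, sum_mul]
  congr 1
  exact sum_congr rfl fun j _ => by ring

private theorem sf_near {n k : ℕ} {h : Cfg n k → ℝ} (hc : Continuous h)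
    (hs : HasCompactSupport h) (r : ℝ) (L : Cfg n k → E3) (hL : Measurable L)
    (hK : ∀ g : Cfg n k × E3 → ℝ, Continuous g → HasCompactSupport g →
      Integrable (fun u => ‖u.2 - L u.1‖⁻¹ * g u)) :
    Integrable (fun u : Cfg n k × E3 =>
      (if ‖u.2 - L u.1‖ < 2 then ‖u.2 - L u.1‖⁻¹ else 0) * h u.1)
      ((volume : Measure (Cfg n k)).prod ((volume : Measure E3).restrict (sh r (r + 1)))) := by
  have h0 := sf_term hc hs r (fun u => ‖u.2 - L u.1‖⁻¹) hK
  have h1 : MeasurableSet {u : Cfg n k × E3 | ‖u.2 - L u.1‖ < 2} :=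
    measurableSet_lt (measurable_snd.sub (hL.comp measurable_fst)).norm measurable_const
  refine (h0.indicator h1).congr (Filter.Eventually.of_forall fun u => ?_)
  simp only [Set.indicator_apply, Set.mem_ofPred_eq]
  split_ifs
  · rfl
  · rw [zero_mul]

theorem shF_near {q n k : ℕ} {Λ : Set E3} {ψ : (Fin n → Fin q) → Cfg n k → ℂ}
    (hψ : St q n k Λ ψ) (r : ℝ) :
    IntegrableOn (fun v => mean ψ (fun p => near p v)) (sh r (r + 1)) ∧
    ∫ v in sh r (r + 1), mean ψ (fun p => near p v) =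
      mean ψ (fun p => ∫ v in sh r (r + 1), near p v) ∧
    ∀ σ, Integrable (fun p => (∫ v in sh r (r + 1), near p v) * ‖ψ σ p‖ ^ 2) := by
  apply sf_gen (sh r (r + 1)) near
  intro σ
  obtain ⟨hc, hs⟩ := sf_sq hψ σ
  have h1 : Integrable (fun u : Cfg n k × E3 =>
      ∑ a, (if ‖u.2 - u.1.1 a‖ < 2 then ‖u.2 - u.1.1 a‖⁻¹ else 0) * ‖ψ σ u.1‖ ^ 2 +
        ∑ j, (if ‖u.2 - u.1.2 j‖ < 2 then ‖u.2 - u.1.2 j‖⁻¹ else 0) * ‖ψ σ u.1‖ ^ 2)
      ((volume : Measure (Cfg n k)).prod ((volume : Measure E3).restrict (sh r (r + 1)))) := by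
    refine Integrable.add ?_ ?_
    · exact integrable_finsetSum _ fun a _ => sf_near hc hs r (fun p => p.1 a)
        ((measurable_pi_apply a).comp measurable_fst) fun g gc gs => int_pe g gc gs a
    · exact integrable_finsetSum _ fun j _ => sf_near hc hs r (fun p => p.2 j)
        ((measurable_pi_apply j).comp measurable_snd) fun g gc gs => int_pn g gc gs j
  refine h1.congr (Filter.Eventually.of_forall fun u => ?_)
  simp only [near]
  rw [add_mul, sum_mul, sum_mul]

/-- the number of particles near the boundary is integrable -/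
theorem shl_int {q n k : ℕ} {Λ : Set E3} {ψ : (Fin n → Fin q) → Cfg n k → ℂ}
    (hψ : St q n k Λ ψ) (s : ℝ) (σ : Fin n → Fin q) :
    Integrable (fun p => shl s p * ‖ψ σ p‖ ^ 2) := by
  obtain ⟨hc, hs⟩ := sf_sq hψ σ
  have h0 : ∀ (L : Cfg n k → E3), Measurable L →
      Measurable (fun p => if s < ‖L p‖ then (1 : ℝ) else 0) := by
    intro L hL
    exact Measurable.ite (measurableSet_lt measurable_const hL.norm)
      measurable_const measurable_const
  refine sf_bdd hc hs (f := fun p => shl s p) ?_ (n + k) ?_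
  · unfold shl
    refine Measurable.add ?_ ?_
    · exact Finset.measurable_fun_sum _ fun a _ =>
        h0 _ ((measurable_pi_apply a).comp measurable_fst)
    · exact Finset.measurable_fun_sum _ fun j _ =>
        h0 _ ((measurable_pi_apply j).comp measurable_snd)
  · intro p
    unfold shl
    have e1 : ∀ c : Prop, ∀ _ : Decidable c, (0 : ℝ) ≤ (if c then 1 else 0) ∧
        (if c then (1 : ℝ) else 0) ≤ 1 := by
      intro c _
      split_ifs <;> norm_num
    rw [abs_of_nonneg (add_nonneg (sum_nonneg fun a _ => (e1 _ _).1)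
      (sum_nonneg fun j _ => (e1 _ _).1))]
    refine add_le_add ?_ ?_
    · refine (sum_le_sum fun a _ => (e1 _ _).2).trans ?_
      simp
    · refine (sum_le_sum fun a _ => (e1 _ _).2).trans ?_
      simp

end H6.CM
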