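import Pool.Agent.H6.CM.ShF

/-! Pointwise bounds, then `mean` is monotone on the support of `ψ`: for a configuration with all particles in the ball of radius `r + 4` and `∑ z j = n` the terms `2 π (2 r + 1)` cancel. -/

open MeasureTheory Finset

namespace H6.CM

private theorem shl_mono {n k : ℕ} {s t : ℝ} (h : s ≤ t) (p : Cfg n k) : shl t p ≤ shl s p := by
  unfold shl
  refine add_le_add (Finset.sum_le_sum fun a _ => ?_) (Finset.sum_le_sum fun a _ => ?_)
  · by_cases h1 : t < ‖p.1 a‖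
    · rw [if_pos h1, if_pos (h.trans_lt h1)]
    · rw [if_neg h1]; split_ifs <;> norm_num
  · by_cases h1 : t < ‖p.2 a‖
    · rw [if_pos h1, if_pos (h.trans_lt h1)]
    · rw [if_neg h1]; split_ifs <;> norm_num

/-- the pointwise bound of the average of the potential -/
private theorem point_phi (zp : ℝ) {n k : ℕ} (r : ℝ) (hr : 3 ≤ r)
    (z : Fin k → ℝ) (hz : ∀ j, 0 ≤ z j ∧ z j ≤ zp) (hsum : ∑ j, z j = n) (p : Cfg n k)
    (h1 : ∀ a, ‖p.1 a‖ < r + 4) (h2 : ∀ j, ‖p.2 j‖ < r + 4) :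
    |∫ v in sh r (r + 1), phi z p v| ≤ 100 * (1 + |zp|) * shl (r - 2) p := by
  set c := 2 * Real.pi * (2 * r + 1) with hc
  have hI : ∫ v in sh r (r + 1), phi z p v =
      ∑ j, z j * (∫ v in sh r (r + 1), ‖v - p.2 j‖⁻¹) -
        ∑ a, ∫ v in sh r (r + 1), ‖v - p.1 a‖⁻¹ := by
    unfold phi
    rw [integral_sub, integral_finsetSum, integral_finsetSum]
    · simp_rw [integral_const_mul]
    · exact fun a _ => sh_int r _
    · exact fun j _ => (sh_int r _).const_mul _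
    · exact integrable_finsetSum _ fun j _ => (sh_int r _).const_mul _
    · exact integrable_finsetSum _ fun j _ => sh_int r _
  have hD : ∫ v in sh r (r + 1), phi z p v =
      ∑ j, z j * ((∫ v in sh r (r + 1), ‖v - p.2 j‖⁻¹) - c) -
        ∑ a, ((∫ v in sh r (r + 1), ‖v - p.1 a‖⁻¹) - c) := by
    rw [hI]
    simp_rw [mul_sub, Finset.sum_sub_distrib, ← Finset.sum_mul, hsum]
    simp
  rw [hD]
  have b1 : |∑ j, z j * ((∫ v in sh r (r + 1), ‖v - p.2 j‖⁻¹) - c)| ≤
      ∑ j, |zp| * (100 * (if r < ‖p.2 j‖ then 1 else 0)) := by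
    refine (Finset.abs_sum_le_sum_abs _ _).trans (Finset.sum_le_sum fun j _ => ?_)
    rw [abs_mul, abs_of_nonneg (hz j).1]
    exact mul_le_mul ((hz j).2.trans (le_abs_self _)) (sh_newt r hr _ (h2 j)) (abs_nonneg _)
      (abs_nonneg _)
  have b2 : |∑ a, ((∫ v in sh r (r + 1), ‖v - p.1 a‖⁻¹) - c)| ≤
      ∑ a, (100 * (if r < ‖p.1 a‖ then 1 else 0)) := by
    refine (Finset.abs_sum_le_sum_abs _ _).trans (Finset.sum_le_sum fun j _ => ?_)
    exact sh_newt r hr _ (h1 j)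
  have b3 : |∑ j, z j * ((∫ v in sh r (r + 1), ‖v - p.2 j‖⁻¹) - c) -
        ∑ a, ((∫ v in sh r (r + 1), ‖v - p.1 a‖⁻¹) - c)| ≤
      |zp| * (100 * ∑ j, (if r < ‖p.2 j‖ then 1 else 0)) +
        100 * ∑ a, (if r < ‖p.1 a‖ then 1 else 0) := by
    refine (abs_sub _ _).trans ?_
    rw [Finset.mul_sum, Finset.mul_sum, Finset.mul_sum]
    exact add_le_add b1 b2
  refine b3.trans ?_
  have hs : shl r p ≤ shl (r - 2) p := shl_mono (by linarith) p
  set N := ∑ j, (if r < ‖p.2 j‖ then (1 : ℝ) else 0) with hN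
  set M := ∑ a, (if r < ‖p.1 a‖ then (1 : ℝ) else 0) with hM
  have hsh : shl r p = M + N := rfl
  have hN0 : 0 ≤ N := Finset.sum_nonneg fun j _ => by split_ifs <;> norm_num
  have hM0 : 0 ≤ M := Finset.sum_nonneg fun j _ => by split_ifs <;> norm_num
  have hz0 : 0 ≤ |zp| := abs_nonneg _
  have : |zp| * (100 * N) + 100 * M ≤ 100 * (1 + |zp|) * (M + N) := by
    nlinarith [mul_nonneg hz0 hM0]
  refine this.trans ?_
  rw [← hsh]
  exact mul_le_mul_of_nonneg_left hs (by positivity)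

theorem shM_phi (zp : ℝ) {q n k : ℕ} (r : ℝ) (hr : 3 ≤ r)
    {ψ : (Fin n → Fin q) → Cfg n k → ℂ} (hψ : St q n k (Metric.ball 0 (r + 4)) ψ)
    (z : Fin k → ℝ) (hz : ∀ j, 0 ≤ z j ∧ z j ≤ zp) (hsum : ∑ j, z j = n) :
    |∫ v in sh r (r + 1), mean ψ (fun p => phi z p v)| ≤
      100 * (1 + |zp|) * mean ψ (fun p => shl (r - 2) p) := by
  obtain ⟨_, h2, h3⟩ := shF_phi hψ z r
  rw [h2]
  have h4 := fun σ => shl_int hψ (r - 2) σ
  unfold mean
  refine (Finset.abs_sum_le_sum_abs _ _).trans ?_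
  rw [Finset.mul_sum]
  refine Finset.sum_le_sum fun σ _ => ?_
  rw [← integral_const_mul]
  refine (abs_integral_le_integral_abs).trans ?_
  refine integral_mono (h3 σ).abs ((h4 σ).const_mul _) fun p => ?_
  simp only
  rw [abs_mul, abs_of_nonneg (by positivity : (0 : ℝ) ≤ ‖ψ σ p‖ ^ 2), ← mul_assoc]
  by_cases hp : ψ σ p = 0
  · rw [hp]; simp
  · refine mul_le_mul_of_nonneg_right ?_ (by positivity)
    have hs := hψ.supp σ p (subset_tsupport _ hp)
    exact point_phi zp r hr z hz hsum p (fun a => by simpa using hs.1 a)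
      (fun j => by simpa using hs.2 j)

theorem shM_near : ∃ C : ℝ, 0 ≤ C ∧ ∀ {q n k : ℕ} (r : ℝ) {Λ : Set E3}
    {ψ : (Fin n → Fin q) → Cfg n k → ℂ} (_ : St q n k Λ ψ),
    ∫ v in sh r (r + 1), mean ψ (fun p => near p v) ≤ C * mean ψ (fun p => shl (r - 2) p) := by
  obtain ⟨C, hC, h⟩ := sh_near
  refine ⟨C, hC, ?_⟩
  intro q n k r Λ ψ hψ
  obtain ⟨_, h2, h3⟩ := shF_near hψ r
  rw [h2]
  have h4 := fun σ => shl_int hψ (r - 2) σ
  unfold mean
  rw [Finset.mul_sum]
  refine Finset.sum_le_sum fun σ _ => ?_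
  rw [← integral_const_mul]
  refine integral_mono (h3 σ) ((h4 σ).const_mul _) fun p => ?_
  simp only
  rw [← mul_assoc]
  refine mul_le_mul_of_nonneg_right ?_ (by positivity)
  unfold near shl
  rw [integral_add, integral_finsetSum, integral_finsetSum, mul_add, Finset.mul_sum,
    Finset.mul_sum]
  · exact add_le_add (Finset.sum_le_sum fun a _ => (h r _).2)
      (Finset.sum_le_sum fun a _ => (h r _).2)
  · exact fun a _ => (h r _).1
  · exact fun a _ => (h r _).1
  · exact integrable_finsetSum _ fun a _ => (h r _).1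
  · exact integrable_finsetSum _ fun a _ => (h r _).1

end H6.CM
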