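import Pool.Agent.H6.CM.Main
import Pool.Agent.H6.CM.ShM

/-! The absolute bound in a ball: average `main` over `y` in the shell `sh (R - 4) (R - 3)`. -/

open MeasureTheory Finset

namespace H6.CM

private theorem mean_nn {q n k : ℕ} (ψ : (Fin n → Fin q) → Cfg n k → ℂ) {F : Cfg n k → ℝ}
    (h : ∀ p, 0 ≤ F p) : 0 ≤ mean ψ F := by
  unfold mean
  refine Finset.sum_nonneg fun σ _ => integral_nonneg fun p => ?_
  exact mul_nonneg (h p) (by positivity)

private theorem near_nn {n k : ℕ} (p : Cfg n k) (v : E3) : 0 ≤ near p v := by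
  unfold near
  refine add_nonneg (Finset.sum_nonneg fun a _ => ?_) (Finset.sum_nonneg fun a _ => ?_)
  · split_ifs <;> positivity
  · split_ifs <;> positivity

private theorem shl_nn {n k : ℕ} (s : ℝ) (p : Cfg n k) : 0 ≤ shl s p := by
  unfold shl
  refine add_nonneg (Finset.sum_nonneg fun a _ => ?_) (Finset.sum_nonneg fun a _ => ?_)
  · split_ifs <;> norm_num
  · split_ifs <;> norm_num

/-- both parts of the theorem -/
theorem main2 (q : ℕ) (zm zp κp : ℝ) (hzm : 0 < zm) : ∃ C : ℝ,
    ∀ (Λ : Set E3) (n k : ℕ) (z κ : Fin k → ℝ),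
      (∀ j, zm ≤ z j ∧ z j ≤ zp) → (∀ j, 0 ≤ κ j ∧ κ j ≤ κp) → ∑ j, z j = n →
      ∀ ψ : (Fin n → Fin q) → Cfg n k → ℂ, St q n k Λ ψ → mass ψ = 1 →
      (∀ ψ', St q n k Λ ψ' → mass ψ' = 1 → energy z κ ψ ≤ energy z κ ψ' + 1) →
      (∀ x y : E3, Metric.closedBall x 2 ⊆ Λ → Metric.closedBall y 2 ⊆ Λ →
        |mean ψ (fun p => phi z p x) - mean ψ (fun p => phi z p y)| ≤
          C * (1 + mean ψ (fun p => near p x) + mean ψ (fun p => near p y))) ∧
      (∀ R : ℝ, 7 ≤ R → Λ = Metric.ball 0 R → ∀ x : E3, Metric.closedBall x 2 ⊆ Λ →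
        |mean ψ (fun p => phi z p x)| ≤
          C * (1 + mean ψ (fun p => near p x) + mean ψ (fun p => shl (R - 6) p) / R ^ 2)) := by
  obtain ⟨C, hC⟩ := main q zm zp κp hzm
  obtain ⟨C1, hC1, h1⟩ := shM_near
  have hpi := Real.pi_pos
  refine ⟨|C| + |C| * C1 + 100 * (1 + |zp|) , ?_⟩
  intro Λ n k z κ hz hκ hsum ψ hψ hm hmin
  have hmain : ∀ x y : E3, Metric.closedBall x 2 ⊆ Λ → Metric.closedBall y 2 ⊆ Λ →
        |mean ψ (fun p => phi z p x) - mean ψ (fun p => phi z p y)| ≤
          |C| * (1 + mean ψ (fun p => near p x) + mean ψ (fun p => near p y)) := by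
    intro x y hx hy
    refine (hC Λ n k z κ hz hκ hsum ψ hψ hm hmin x y hx hy).trans ?_
    have a1 := mean_nn ψ fun p => near_nn p x
    have a2 := mean_nn ψ fun p => near_nn p y
    exact mul_le_mul_of_nonneg_right (le_abs_self C) (by positivity)
  refine ⟨?_, ?_⟩
  · intro x y hx hy
    refine (hmain x y hx hy).trans ?_
    have a1 := mean_nn ψ fun p => near_nn p x
    have a2 := mean_nn ψ fun p => near_nn p y
    refine mul_le_mul_of_nonneg_right ?_ (by positivity)
    have : 0 ≤ |C| * C1 := mul_nonneg (abs_nonneg _) hC1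
    have : 0 ≤ 100 * (1 + |zp|) := by positivity
    linarith
  · intro R hR hΛ x hx
    subst hΛ
    set r := R - 4 with hr
    have hr3 : 3 ≤ r := by rw [hr]; linarith
    have hRr : R = r + 4 := by rw [hr]; ring
    have hψ' : St q n k (Metric.ball 0 (r + 4)) ψ := by rw [← hRr]; exact hψ
    have hz0 : ∀ j, 0 ≤ z j ∧ z j ≤ zp := fun j => ⟨hzm.le.trans (hz j).1, (hz j).2⟩
    have hA := sh_vol r hr3
    set A := sh r (r + 1) with hAdef
    set vA := (volume A).toReal with hvA
    have hvpos : 0 < vA := lt_of_lt_of_le (by positivity) hA.1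
    have hAm : MeasurableSet A := by
      have : A = {v : E3 | r < ‖v‖} ∩ {v : E3 | ‖v‖ < r + 1} := rfl
      rw [this]
      exact (measurableSet_lt measurable_const measurable_norm).inter
        (measurableSet_lt measurable_norm measurable_const)
    have hball : ∀ y ∈ A, Metric.closedBall y 2 ⊆ Metric.ball (0 : E3) R := by
      intro y hy v hv
      rw [Metric.mem_closedBall] at hv
      rw [Metric.mem_ball, dist_zero_right]
      have h2 : ‖v‖ ≤ ‖v - y‖ + ‖y‖ := by
        have := norm_add_le (v - y) y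
        simpa using this
      rw [dist_eq_norm] at hv
      have h3 : ‖y‖ < r + 1 := hy.2
      linarith
    have hφ := shF_phi hψ z r
    have hn := shF_near hψ r
    rw [← hAdef] at hφ hn
    set F := mean ψ (fun p => phi z p x) with hF
    set N := mean ψ (fun p => near p x) with hN
    set S := mean ψ (fun p => shl (R - 6) p) with hS
    have hS2 : S = mean ψ (fun p => shl (r - 2) p) := by rw [hS, hRr]; congr 3; ring_nf
    have hS0 : 0 ≤ S := mean_nn ψ fun p => shl_nn _ p
    have hN0 : 0 ≤ N := mean_nn ψ fun p => near_nn p x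
    have hAfin : IntegrableOn (fun _ : E3 => (1 : ℝ)) A := by
      rw [integrableOn_const_iff]; right; exact lt_top_iff_ne_top.2 hA.2
    -- integrate the inequality over the shell
    have hB1 : ∀ y ∈ A, F ≤ mean ψ (fun p => phi z p y) +
        |C| * (1 + N + mean ψ (fun p => near p y)) := fun y hy => by
      have := (abs_le.1 (hmain x y hx (hball y hy))).2
      linarith
    have hB2 : ∀ y ∈ A, -F ≤ -mean ψ (fun p => phi z p y) +
        |C| * (1 + N + mean ψ (fun p => near p y)) := fun y hy => by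
      have := (abs_le.1 (hmain x y hx (hball y hy))).1
      linarith
    have hconst : ∀ c : ℝ, ∫ _ in A, c = c * vA := fun c => by
      rw [setIntegral_const, smul_eq_mul, mul_comm]; rfl
    have hint3 : IntegrableOn (fun y => |C| * (1 + N + mean ψ (fun p => near p y))) A := by
      refine Integrable.const_mul ?_ _
      refine Integrable.add ?_ hn.1
      exact (hAfin.const_mul (1 + N)).congr (Filter.Eventually.of_forall fun _ => by simp)
    have hval3 : ∫ y in A, |C| * (1 + N + mean ψ (fun p => near p y)) =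
        |C| * ((1 + N) * vA + ∫ y in A, mean ψ (fun p => near p y)) := by
      rw [integral_const_mul, integral_add _ hn.1, hconst]
      exact (hAfin.const_mul (1 + N)).congr (Filter.Eventually.of_forall fun _ => by simp)
    have hintc : ∀ c : ℝ, IntegrableOn (fun _ : E3 => c) A := fun c =>
      (hAfin.const_mul c).congr (Filter.Eventually.of_forall fun _ => by simp)
    have e1 : F * vA ≤ (∫ y in A, mean ψ (fun p => phi z p y)) +
        |C| * ((1 + N) * vA + ∫ y in A, mean ψ (fun p => near p y)) := by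
      rw [← hconst, ← hval3, ← integral_add hφ.1 hint3]
      exact setIntegral_mono_on (hintc F) (hφ.1.add hint3) hAm hB1
    have e2 : -F * vA ≤ -(∫ y in A, mean ψ (fun p => phi z p y)) +
        |C| * ((1 + N) * vA + ∫ y in A, mean ψ (fun p => near p y)) := by
      have hneg : IntegrableOn (fun y => -mean ψ (fun p => phi z p y)) A := hφ.1.neg
      rw [← hconst, ← hval3, ← integral_neg, ← integral_add hneg hint3]
      exact setIntegral_mono_on (hintc (-F)) (hneg.add hint3) hAm hB2
    have hP := abs_le.1 (shM_phi zp r hr3 hψ' z hz0 hsum)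
    have hNe := h1 r hψ
    rw [← hAdef, ← hS2] at hP hNe
    have hvR : R ^ 2 ≤ vA := by
      refine le_trans ?_ hA.1
      have h7 : R ≤ (7 / 3) * r := by rw [hr]; linarith
      have h8 : R ^ 2 ≤ ((7 / 3) * r) ^ 2 := by
        apply pow_le_pow_left₀ (by linarith) h7
      have : (3 : ℝ) < Real.pi := Real.pi_gt_three
      nlinarith [sq_nonneg r]
    have hSv : S / vA ≤ S / R ^ 2 := div_le_div_of_nonneg_left hS0 (by positivity) hvR
    have key : |F| * vA ≤ (100 * (1 + |zp|) * S) + |C| * ((1 + N) * vA + C1 * S) := by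
      have h9 := mul_le_mul_of_nonneg_left hNe (abs_nonneg C)
      rcases abs_cases F with ⟨h, _⟩ | ⟨h, _⟩
      · rw [h]; nlinarith [hP.2, e1, h9]
      · rw [h]; nlinarith [hP.1, e2, h9]
    have key2 : |F| ≤ |C| * (1 + N) + (100 * (1 + |zp|) + |C| * C1) * (S / vA) := by
      rw [← mul_le_mul_iff_left₀ hvpos]
      have : S / vA * vA = S := div_mul_cancel₀ _ hvpos.ne'
      have e3 : (|C| * (1 + N) + (100 * (1 + |zp|) + |C| * C1) * (S / vA)) * vA =
          |C| * (1 + N) * vA + (100 * (1 + |zp|) + |C| * C1) * (S / vA * vA) := by ring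
      rw [e3, this]
      nlinarith [key]
    refine key2.trans ?_
    have hSR : 0 ≤ S / R ^ 2 := by positivity
    have hc : 0 ≤ 100 * (1 + |zp|) + |C| * C1 := by positivity
    have h10 := mul_le_mul_of_nonneg_left hSv hc
    have h11 : 0 ≤ |C| * C1 := mul_nonneg (abs_nonneg _) hC1
    have h12 : 0 ≤ |C| := abs_nonneg C
    have h13 : 0 ≤ |zp| := abs_nonneg zp
    nlinarith [mul_nonneg h12 hSR, mul_nonneg h11 hN0, mul_nonneg h13 hN0]

end H6.CM
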