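import Pool.Agent.H6.CM.Defs

/-! Antisymmetrisation of a function which singles out electron `a`. With `AΨ σ p = ∑ b, sign (swap a b) * Ψ (σ ∘ swap a b) (p.1 ∘ swap a b, p.2)` the antisymmetry follows from `τ * swap a b = swap a (τ b) * ρ` with `ρ` fixing `a`, for every permutation `τ`. -/

open MeasureTheory Finset

namespace H6.CM

/-- the antisymmetrised function -/
noncomputable def anti {q n k : ℕ} (a : Fin n) (Ψ : (Fin n → Fin q) → Cfg n k → ℂ) :
    (Fin n → Fin q) → Cfg n k → ℂ :=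
  fun σ p => ∑ b, ((Equiv.Perm.sign (Equiv.swap a b) : ℤ) : ℂ) *
    Ψ (σ ∘ Equiv.swap a b) (p.1 ∘ Equiv.swap a b, p.2)

theorem anti_anti {q n k : ℕ} (a : Fin n) (Ψ : (Fin n → Fin q) → Cfg n k → ℂ)
    (h : ∀ π : Equiv.Perm (Fin n), π a = a → ∀ σ p,
      Ψ (σ ∘ π) (p.1 ∘ π, p.2) = ((Equiv.Perm.sign π : ℤ) : ℂ) * Ψ σ p)
    (τ : Equiv.Perm (Fin n)) (σ : Fin n → Fin q) (p : Cfg n k) :
    anti a Ψ (σ ∘ τ) (p.1 ∘ τ, p.2) = ((Equiv.Perm.sign τ : ℤ) : ℂ) * anti a Ψ σ p := by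
  unfold anti
  rw [Finset.mul_sum, ← Equiv.sum_comp τ (fun b => ((Equiv.Perm.sign τ : ℤ) : ℂ) *
    (((Equiv.Perm.sign (Equiv.swap a b) : ℤ) : ℂ) * Ψ (σ ∘ Equiv.swap a b) (p.1 ∘ Equiv.swap a b, p.2)))]
  refine Finset.sum_congr rfl fun b _ => ?_
  have hρa : (Equiv.swap a (τ b) * τ * Equiv.swap a b) a = a := by
    rw [Equiv.Perm.mul_apply, Equiv.Perm.mul_apply, Equiv.swap_apply_left, Equiv.swap_apply_right]
  have hρ : τ * Equiv.swap a b = Equiv.swap a (τ b) * (Equiv.swap a (τ b) * τ * Equiv.swap a b) := by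
    rw [← mul_assoc, ← mul_assoc, Equiv.swap_mul_self, one_mul]
  have h1 : ∀ {T : Type _} (f : Fin n → T), (f ∘ τ) ∘ Equiv.swap a b =
      (f ∘ Equiv.swap a (τ b)) ∘ (Equiv.swap a (τ b) * τ * Equiv.swap a b : Equiv.Perm (Fin n)) := by
    intro T f
    funext i
    have h2 := congrArg (fun π : Equiv.Perm (Fin n) => f (π i)) hρ
    exact h2
  have h3 : Ψ ((σ ∘ τ) ∘ Equiv.swap a b) ((p.1 ∘ τ) ∘ Equiv.swap a b, p.2) =
      ((Equiv.Perm.sign (Equiv.swap a (τ b) * τ * Equiv.swap a b) : ℤ) : ℂ) *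
        Ψ (σ ∘ Equiv.swap a (τ b)) (p.1 ∘ Equiv.swap a (τ b), p.2) := by
    rw [h1 σ, h1 p.1]
    exact h _ hρa _ (p.1 ∘ Equiv.swap a (τ b), p.2)
  simp only
  rw [h3, Equiv.Perm.sign_mul, Equiv.Perm.sign_mul]
  have h4 : ((Equiv.Perm.sign (Equiv.swap a b) : ℤ) : ℂ) * ((Equiv.Perm.sign (Equiv.swap a b) : ℤ) : ℂ) = 1 := by
    rw [← Int.cast_mul, ← Units.val_mul, Int.units_mul_self]
    simp
  push_cast
  linear_combination (((Equiv.Perm.sign (Equiv.swap a (τ b)) : ℤ) : ℂ) * ((Equiv.Perm.sign τ : ℤ) : ℂ) *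
    Ψ (σ ∘ Equiv.swap a (τ b)) (p.1 ∘ Equiv.swap a (τ b), p.2)) * h4

/-- permutation of the electrons as a homeomorphism -/
private def AsymA_hom {n k : ℕ} (π : Equiv.Perm (Fin n)) : Cfg n k ≃ₜ Cfg n k where
  toFun p := (p.1 ∘ π, p.2)
  invFun p := (p.1 ∘ π.symm, p.2)
  left_inv p := by
    refine Prod.ext ?_ rfl
    funext i
    simp
  right_inv p := by
    refine Prod.ext ?_ rfl
    funext i
    simp
  continuous_toFun :=
    (continuous_pi fun i => (continuous_apply (π i)).comp continuous_fst).prodMk continuous_snd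
  continuous_invFun :=
    (continuous_pi fun i => (continuous_apply (π.symm i)).comp continuous_fst).prodMk continuous_snd

private theorem AsymA_smooth {n k : ℕ} (π : Equiv.Perm (Fin n)) :
    ContDiff ℝ (⊤ : ℕ∞) fun p : Cfg n k => ((p.1 ∘ π, p.2) : Cfg n k) := by
  refine ContDiff.prodMk ?_ contDiff_snd
  exact contDiff_pi.2 fun i => (contDiff_apply ℝ E3 (π i)).comp contDiff_fst

theorem anti_st {q n k : ℕ} {Λ : Set E3} (a : Fin n) (Ψ : (Fin n → Fin q) → Cfg n k → ℂ)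
    (hs : ∀ σ, ContDiff ℝ (⊤ : ℕ∞) (Ψ σ)) (hc : ∀ σ, HasCompactSupport (Ψ σ))
    (hsup : ∀ σ p, p ∈ tsupport (Ψ σ) → (∀ a, p.1 a ∈ Λ) ∧ ∀ j, p.2 j ∈ Λ)
    (h : ∀ π : Equiv.Perm (Fin n), π a = a → ∀ σ p,
      Ψ (σ ∘ π) (p.1 ∘ π, p.2) = ((Equiv.Perm.sign π : ℤ) : ℂ) * Ψ σ p) :
    St q n k Λ (anti a Ψ) := by
  refine ⟨fun σ => ?_, fun σ => ?_, fun σ p hp => ?_, fun π σ p => anti_anti a Ψ h π σ p⟩
  · unfold anti
    refine ContDiff.sum fun b _ => ?_
    exact contDiff_const.mul ((hs _).comp (AsymA_smooth (Equiv.swap a b)))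
  · have h1 : ∀ s : Finset (Fin n), HasCompactSupport fun p : Cfg n k =>
        ∑ b ∈ s, ((Equiv.Perm.sign (Equiv.swap a b) : ℤ) : ℂ) *
          Ψ (σ ∘ Equiv.swap a b) (p.1 ∘ Equiv.swap a b, p.2) := by
      intro s
      induction s using Finset.induction_on with
      | empty =>
        simp only [Finset.sum_empty]
        exact HasCompactSupport.zero
      | insert b s hb ih =>
        simp only [Finset.sum_insert hb]
        refine HasCompactSupport.add ?_ ih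
        exact HasCompactSupport.mul_left ((hc _).comp_homeomorph (AsymA_hom (Equiv.swap a b)))
    exact h1 Finset.univ
  · have hcl : IsClosed (⋃ b : Fin n, (AsymA_hom (k := k) (Equiv.swap a b)) ⁻¹'
        tsupport (Ψ (σ ∘ Equiv.swap a b))) :=
      isClosed_iUnion_of_finite fun b => (isClosed_tsupport _).preimage (AsymA_hom _).continuous
    have hsub : Function.support (anti a Ψ σ) ⊆ ⋃ b : Fin n, (AsymA_hom (k := k) (Equiv.swap a b)) ⁻¹'
        tsupport (Ψ (σ ∘ Equiv.swap a b)) := by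
      intro x hx
      rw [Set.mem_iUnion]
      by_contra h0
      push Not at h0
      apply hx
      unfold anti
      refine Finset.sum_eq_zero fun b _ => ?_
      have h2 : Ψ (σ ∘ Equiv.swap a b) (x.1 ∘ Equiv.swap a b, x.2) = 0 :=
        image_eq_zero_of_notMem_tsupport (h0 b)
      rw [h2, mul_zero]
    have hp2 := closure_minimal hsub hcl hp
    rw [Set.mem_iUnion] at hp2
    obtain ⟨b, hb⟩ := hp2
    obtain ⟨h3, h4⟩ := hsup _ _ hb
    refine ⟨fun i => ?_, h4⟩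
    have h5 := h3 (Equiv.swap a b i)
    change p.1 (Equiv.swap a b (Equiv.swap a b i)) ∈ Λ at h5
    rwa [Equiv.swap_apply_self] at h5

end H6.CM
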