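import Pool.Agent.H6.CM.AsymA
import Pool.Agent.H6.CM.GCont

/-! Pointwise: for given `p` at most one `b` satisfies `‖p.1 b - w‖ ≤ r/2` and `r ≤ ‖p.1 c - w‖` for all `c ≠ b` (closed conditions), so near `p` at most one of the `n` functions is nonzero. The derivative with respect to electron `c` of `p ↦ Ψ σ (p.1 ∘ swap a b, p.2)` is the derivative with respect to electron `swap a b c` of `Ψ σ`. -/

open MeasureTheory Finset

namespace H6.CM

theorem ap_one {ι : Type*} [Fintype ι] (x ε : ι → ℂ) (hε : ∀ b, ‖ε b‖ = 1)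
    (h : ∀ b c, x b ≠ 0 → x c ≠ 0 → b = c) : ‖∑ b, ε b * x b‖ ^ 2 = ∑ b, ‖x b‖ ^ 2 := by
  classical
  by_cases hx : ∃ b, x b ≠ 0
  · obtain ⟨b, hb⟩ := hx
    have h1 : ∀ c, c ≠ b → x c = 0 := by
      intro c hc
      by_contra h0
      exact hc (h c b h0 hb)
    rw [sum_eq_single_of_mem b (mem_univ b), sum_eq_single_of_mem b (mem_univ b), norm_mul, hε,
      one_mul]
    · intro c _ hc
      rw [h1 c hc]
      simp
    · intro c _ hc
      rw [h1 c hc, mul_zero]
  · push Not at hx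
    simp [hx]

theorem ap_sign {n : ℕ} (π : Equiv.Perm (Fin n)) : ‖((Equiv.Perm.sign π : ℤ) : ℂ)‖ = 1 := by
  rcases Int.units_eq_one_or (Equiv.Perm.sign π) with h | h
  · rw [h]
    simp
  · rw [h]
    simp

/-- permutation of the electrons as a linear map -/
noncomputable def apL (n k : ℕ) (π : Equiv.Perm (Fin n)) : Cfg n k →L[ℝ] Cfg n k :=
  ((ContinuousLinearMap.pi fun i => ContinuousLinearMap.proj (π i)).comp
    (ContinuousLinearMap.fst ℝ (Fin n → E3) (Fin k → E3))).prod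
    (ContinuousLinearMap.snd ℝ (Fin n → E3) (Fin k → E3))

theorem apL_apply {n k : ℕ} (π : Equiv.Perm (Fin n)) (p : Cfg n k) :
    apL n k π p = (p.1 ∘ π, p.2) := rfl

variable {q n k : ℕ} (a : Fin n) (Ψ : (Fin n → Fin q) → Cfg n k → ℂ)
    (hs : ∀ σ, ContDiff ℝ (⊤ : ℕ∞) (Ψ σ)) (w : E3) (r : ℝ) (hr : 0 < r)
    (hd : ∀ σ p, Ψ σ p ≠ 0 → ‖p.1 a - w‖ ≤ r / 2 ∧ ∀ b, b ≠ a → r ≤ ‖p.1 b - w‖)

include hd

theorem ap_far (σ : Fin n → Fin q) (b : Fin n) (p : Cfg n k)
    (hp : p ∈ tsupport (fun p : Cfg n k => Ψ σ (apL n k (Equiv.swap a b) p))) :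
    ‖p.1 b - w‖ ≤ r / 2 ∧ ∀ c, c ≠ b → r ≤ ‖p.1 c - w‖ := by
  have hcl : IsClosed {p : Cfg n k | ‖p.1 b - w‖ ≤ r / 2 ∧ ∀ c, c ≠ b → r ≤ ‖p.1 c - w‖} := by
    refine IsClosed.and ?_ ?_
    · exact isClosed_le (((continuous_apply b).comp continuous_fst).sub
        continuous_const).norm continuous_const
    · have h1 : {p : Cfg n k | ∀ c, c ≠ b → r ≤ ‖p.1 c - w‖} =
          ⋂ c, ⋂ (_ : c ≠ b), {p : Cfg n k | r ≤ ‖p.1 c - w‖} := by
        ext p
        simp
      change IsClosed {p : Cfg n k | ∀ c, c ≠ b → r ≤ ‖p.1 c - w‖}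
      rw [h1]
      refine isClosed_iInter fun c => isClosed_iInter fun _ => ?_
      exact isClosed_le continuous_const (((continuous_apply c).comp continuous_fst).sub
        continuous_const).norm
  refine closure_minimal ?_ hcl hp
  intro u hu
  rw [Function.mem_support, apL_apply] at hu
  obtain ⟨h1, h2⟩ := hd σ _ hu
  constructor
  · simpa using h1
  · intro c hc
    have h3 : Equiv.swap a b c ≠ a := by
      intro h
      apply hc
      have h4 := congrArg (Equiv.swap a b) h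
      simpa using h4
    have h5 := h2 _ h3
    simpa using h5

include hr in
theorem ap_uniq (σ σ' : Fin n → Fin q) (b c : Fin n) (p : Cfg n k)
    (hb : p ∈ tsupport (fun p : Cfg n k => Ψ σ (apL n k (Equiv.swap a b) p)))
    (hc : p ∈ tsupport (fun p : Cfg n k => Ψ σ' (apL n k (Equiv.swap a c) p))) : b = c := by
  by_contra hbc
  have h1 := (ap_far a Ψ w r hd σ b p hb).1
  have h2 := (ap_far a Ψ w r hd σ' c p hc).2 b hbc
  linarith

include hs hr

theorem ap_fderiv (σ : Fin n → Fin q) (p e : Cfg n k) :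
    ‖fderiv ℝ (anti a Ψ σ) p e‖ ^ 2 = ∑ b, ‖fderiv ℝ (Ψ (σ ∘ Equiv.swap a b))
      (p.1 ∘ Equiv.swap a b, p.2) (apL n k (Equiv.swap a b) e)‖ ^ 2 := by
  have hdiff : ∀ b, HasFDerivAt (fun p : Cfg n k => Ψ (σ ∘ Equiv.swap a b)
      (apL n k (Equiv.swap a b) p))
      ((fderiv ℝ (Ψ (σ ∘ Equiv.swap a b)) (apL n k (Equiv.swap a b) p)).comp
        (apL n k (Equiv.swap a b))) p := by
    intro b
    have h1 : HasFDerivAt (Ψ (σ ∘ Equiv.swap a b))
        (fderiv ℝ (Ψ (σ ∘ Equiv.swap a b)) (apL n k (Equiv.swap a b) p))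
        (apL n k (Equiv.swap a b) p) :=
      ((hs _).differentiable (by simp) _).hasFDerivAt
    exact h1.comp p (apL n k (Equiv.swap a b)).hasFDerivAt
  have hsum : HasFDerivAt (anti a Ψ σ)
      (∑ b, ((Equiv.Perm.sign (Equiv.swap a b) : ℤ) : ℂ) •
        ((fderiv ℝ (Ψ (σ ∘ Equiv.swap a b)) (apL n k (Equiv.swap a b) p)).comp
        (apL n k (Equiv.swap a b)))) p := by
    have h1 := HasFDerivAt.fun_sum (u := (univ : Finset (Fin n)))
      (fun b _ => (hdiff b).const_mul (((Equiv.Perm.sign (Equiv.swap a b) : ℤ) : ℂ)))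
    exact h1
  rw [hsum.fderiv, _root_.sum_apply]
  simp only [smul_apply, smul_eq_mul, ContinuousLinearMap.comp_apply]
  rw [ap_one _ _ (fun b => ap_sign _)]
  · rfl
  · intro b c hb hc
    have hb' : p ∈ tsupport (fun p : Cfg n k => Ψ (σ ∘ Equiv.swap a b)
        (apL n k (Equiv.swap a b) p)) := by
      apply support_fderiv_subset ℝ
      rw [Function.mem_support]
      intro h0
      apply hb
      rw [(hdiff b).fderiv] at h0
      have h1 := DFunLike.congr_fun h0 e
      exact h1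
    have hc' : p ∈ tsupport (fun p : Cfg n k => Ψ (σ ∘ Equiv.swap a c)
        (apL n k (Equiv.swap a c) p)) := by
      apply support_fderiv_subset ℝ
      rw [Function.mem_support]
      intro h0
      apply hc
      rw [(hdiff c).fderiv] at h0
      have h1 := DFunLike.congr_fun h0 e
      exact h1
    exact ap_uniq a Ψ w r hr hd _ _ b c p hb' hc'

omit hd hr in
theorem ap_diff (σ : Fin n → Fin q) : Differentiable ℝ (anti a Ψ σ) := by
  have h1 : ContDiff ℝ (⊤ : ℕ∞) (anti a Ψ σ) := by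
    unfold anti
    refine ContDiff.sum fun b _ => contDiff_const.mul ?_
    exact (hs (σ ∘ Equiv.swap a b)).comp (apL n k (Equiv.swap a b)).contDiff
  exact h1.differentiable (by simp)

theorem anti_sq (σ : Fin n → Fin q) (p : Cfg n k) :
    ‖anti a Ψ σ p‖ ^ 2 =
      ∑ b, ‖Ψ (σ ∘ Equiv.swap a b) (p.1 ∘ Equiv.swap a b, p.2)‖ ^ 2 := by
  unfold anti
  rw [ap_one _ _ (fun b => ap_sign _)]
  intro b c hb hc
  refine ap_uniq a Ψ w r hr hd (σ ∘ Equiv.swap a b) (σ ∘ Equiv.swap a c) b c p ?_ ?_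
  · exact subset_tsupport _ hb
  · exact subset_tsupport _ hc

theorem anti_ge (σ : Fin n → Fin q) (c : Fin n) (p : Cfg n k) :
    ge (anti a Ψ σ) c p =
      ∑ b, ge (Ψ (σ ∘ Equiv.swap a b)) (Equiv.swap a b c) (p.1 ∘ Equiv.swap a b, p.2) := by
  rw [ge_eq _ (ap_diff a Ψ hs σ)]
  simp only [ap_fderiv a Ψ hs w r hr hd]
  rw [sum_comm]
  refine sum_congr rfl fun b _ => ?_
  rw [ge_eq _ ((hs _).differentiable (by simp))]
  refine sum_congr rfl fun d _ => ?_
  have h1 : apL n k (Equiv.swap a b) (Pi.single c (EuclideanSpace.single d 1), 0) =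
      (Pi.single (Equiv.swap a b c) (EuclideanSpace.single d 1), 0) := by
    rw [apL_apply]
    refine Prod.ext ?_ rfl
    funext i
    change (Pi.single c (EuclideanSpace.single d 1) : Fin n → E3) (Equiv.swap a b i) =
      (Pi.single (Equiv.swap a b c) (EuclideanSpace.single d 1) : Fin n → E3) i
    by_cases hi : i = Equiv.swap a b c
    · subst hi
      simp
    · have hi2 : Equiv.swap a b i ≠ c := by
        intro h
        apply hi
        rw [← h]
        simp
      rw [Pi.single_eq_of_ne hi, Pi.single_eq_of_ne hi2]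
  rw [h1]

theorem anti_gn (σ : Fin n → Fin q) (j : Fin k) (p : Cfg n k) :
    gn (anti a Ψ σ) j p =
      ∑ b, gn (Ψ (σ ∘ Equiv.swap a b)) j (p.1 ∘ Equiv.swap a b, p.2) := by
  rw [gn_eq _ (ap_diff a Ψ hs σ)]
  simp only [ap_fderiv a Ψ hs w r hr hd]
  rw [sum_comm]
  refine sum_congr rfl fun b _ => ?_
  rw [gn_eq _ ((hs _).differentiable (by simp))]
  refine sum_congr rfl fun d _ => ?_
  have h1 : apL n k (Equiv.swap a b) (0, Pi.single j (EuclideanSpace.single d 1)) =
      (0, Pi.single j (EuclideanSpace.single d 1)) := by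
    rw [apL_apply]
    rfl
  rw [h1]

end H6.CM
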