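import Pool.Agent.H6.CM.PDefs
import Pool.Agent.H6.CM.GCont

/-! A good place: the average of `mean ψ (ct w (2 r))` over `w` in the cube `[r, ℓ - r]^3` (volume at least `ℓ^3 / 8` if `r ≤ ℓ/10`) is at most `8 n |B_(2r)| / ℓ^3 ≤ 1/2` for `r = ρ^(-1/3) / 10` (`|B_1| = 4 π / 3 ≤ 4.2`). -/

open MeasureTheory Finset

namespace H6.CM

private theorem avgw_int {n k : ℕ} {f : Cfg n k → ℂ} (hf : Continuous f) (hc : HasCompactSupport f) :
    Integrable (fun p => ‖f p‖ ^ 2) := by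
  apply Continuous.integrable_of_hasCompactSupport
  · exact hf.norm.pow 2
  · refine hc.mono fun p hp => ?_
    rw [Function.mem_support] at hp ⊢
    intro h
    apply hp
    rw [h, norm_zero]
    norm_num

private theorem avgw_meas {n k : ℕ} (b : Fin n) (s : ℝ) :
    Measurable fun u : E3 × Cfg n k => (if ‖u.2.1 b - u.1‖ ≤ s then (1 : ENNReal) else 0) := by
  apply Measurable.ite _ measurable_const measurable_const
  have h0 : Continuous fun u : E3 × Cfg n k => u.2.1 := continuous_fst.comp continuous_snd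
  have h1 : Continuous fun u : E3 × Cfg n k => u.2.1 b := (continuous_apply b).comp h0
  have h2 : Continuous fun u : E3 × Cfg n k => u.1 := continuous_fst
  have h : Continuous fun u : E3 × Cfg n k => ‖u.2.1 b - u.1‖ := (h1.sub h2).norm
  exact (isClosed_le h continuous_const).measurableSet

private theorem avgw_pt (x : E3) (s : ℝ) :
    Measurable fun w : E3 => (if ‖x - w‖ ≤ s then (1 : ENNReal) else 0) := by
  apply Measurable.ite _ measurable_const measurable_const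
  have h : Continuous fun w : E3 => ‖x - w‖ := (continuous_const.sub continuous_id).norm
  exact (isClosed_le h continuous_const).measurableSet

private theorem avgw_ball (x : E3) (s : ℝ) (B : Set E3) (κ : ENNReal)
    (hκ : volume (Metric.closedBall x s) = κ) :
    ∫⁻ w in B, (if ‖x - w‖ ≤ s then (1 : ENNReal) else 0) ≤ κ := by
  refine (setLIntegral_le_lintegral _ _).trans ?_
  have h3 : (fun w : E3 => (if ‖x - w‖ ≤ s then (1 : ENNReal) else 0)) =
      (Metric.closedBall x s).indicator (fun _ => (1 : ENNReal)) := by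
    funext w
    by_cases h4 : ‖x - w‖ ≤ s
    · rw [if_pos h4, Set.indicator_of_mem]
      rw [mem_closedBall_iff_norm, norm_sub_rev]
      exact h4
    · rw [if_neg h4, Set.indicator_of_notMem]
      rw [mem_closedBall_iff_norm, norm_sub_rev]
      exact h4
  rw [h3, lintegral_indicator Metric.isClosed_closedBall.measurableSet, lintegral_const,
    Measure.restrict_apply_univ, one_mul, hκ]

private theorem avgw_row {n : ℕ} (x : Fin n → E3) (s : ℝ) (B : Set E3) (κ : ENNReal)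
    (hκ : ∀ x : E3, volume (Metric.closedBall x s) = κ) :
    ∫⁻ w in B, (∑ b, (if ‖x b - w‖ ≤ s then (1 : ENNReal) else 0)) ≤ n * κ := by
  rw [lintegral_finsetSum' _ (fun b _ => (avgw_pt (x b) s).aemeasurable)]
  calc ∑ b, ∫⁻ w in B, (if ‖x b - w‖ ≤ s then (1 : ENNReal) else 0)
      ≤ ∑ _b : Fin n, κ := Finset.sum_le_sum fun b _ => avgw_ball (x b) s B κ (hκ _)
    _ = n * κ := by simp

private theorem avgw_rowm {n : ℕ} (x : Fin n → E3) (s : ℝ) (B : Set E3) (κ c : ENNReal)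
    (hκ : ∀ x : E3, volume (Metric.closedBall x s) = κ) :
    ∫⁻ w in B, (∑ b, (if ‖x b - w‖ ≤ s then (1 : ENNReal) else 0)) * c ≤ n * κ * c := by
  rw [lintegral_mul_const _ (Finset.measurable_fun_sum _ fun b _ => avgw_pt (x b) s)]
  exact mul_le_mul_left (avgw_row x s B κ hκ) _

private theorem avgw_mean {q n k : ℕ} {Λ : Set E3} {ψ : (Fin n → Fin q) → Cfg n k → ℂ}
    (hψ : St q n k Λ ψ) (w : E3) (s : ℝ) :
    ENNReal.ofReal (mean ψ (fun p => ct w s p.1)) =
      ∑ σ, ∫⁻ p, (∑ b, (if ‖p.1 b - w‖ ≤ s then (1 : ENNReal) else 0)) * ‖ψ σ p‖ₑ ^ 2 := by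
  unfold mean
  have hct0 : ∀ p : Cfg n k, 0 ≤ ct w s p.1 := by
    intro p
    unfold ct
    apply Finset.sum_nonneg
    intro b _
    split_ifs <;> norm_num
  have hctn : ∀ p : Cfg n k, ct w s p.1 ≤ n := by
    intro p
    unfold ct
    calc ∑ b, (if ‖p.1 b - w‖ ≤ s then (1 : ℝ) else 0) ≤ ∑ _b : Fin n, (1 : ℝ) := by
          apply Finset.sum_le_sum
          intro b _
          split_ifs <;> norm_num
      _ = n := by simp
  have hctm : Measurable fun p : Cfg n k => ct w s p.1 := by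
    unfold ct
    apply Finset.measurable_fun_sum
    intro b _
    apply Measurable.ite _ measurable_const measurable_const
    have h : Continuous fun p : Cfg n k => ‖p.1 b - w‖ :=
      (((continuous_apply b).comp continuous_fst).sub continuous_const).norm
    exact (isClosed_le h continuous_const).measurableSet
  rw [ENNReal.ofReal_sum_of_nonneg (fun σ _ => integral_nonneg fun p =>
    mul_nonneg (hct0 p) (by positivity))]
  refine Finset.sum_congr rfl fun σ _ => ?_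
  have hint : Integrable fun p => ct w s p.1 * ‖ψ σ p‖ ^ 2 := by
    have h1 := avgw_int (hψ.smooth σ).continuous (hψ.cpt σ)
    refine Integrable.mono' (h1.const_mul (n : ℝ)) ?_ ?_
    · exact (hctm.mul (((hψ.smooth σ).continuous.norm.pow 2).measurable)).aestronglyMeasurable
    · refine Filter.Eventually.of_forall fun p => ?_
      rw [Real.norm_of_nonneg (mul_nonneg (hct0 p) (by positivity))]
      exact mul_le_mul_of_nonneg_right (hctn p) (by positivity)
  rw [ofReal_integral_eq_lintegral_ofReal hint (Filter.Eventually.of_forall fun p =>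
    mul_nonneg (hct0 p) (by positivity))]
  refine lintegral_congr fun p => ?_
  rw [ENNReal.ofReal_mul (hct0 p), ENNReal.ofReal_pow (norm_nonneg _), ofReal_norm]
  congr 1
  unfold ct
  rw [ENNReal.ofReal_sum_of_nonneg]
  · refine Finset.sum_congr rfl fun b _ => ?_
    split_ifs <;> simp
  · intro b _
    split_ifs <;> norm_num

private theorem avgw_mass {q n k : ℕ} {Λ : Set E3} {ψ : (Fin n → Fin q) → Cfg n k → ℂ}
    (hψ : St q n k Λ ψ) : ENNReal.ofReal (mass ψ) = ∑ σ, ∫⁻ p, ‖ψ σ p‖ₑ ^ 2 := by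
  unfold mass
  rw [ENNReal.ofReal_sum_of_nonneg (fun σ _ => integral_nonneg fun p => by positivity)]
  refine Finset.sum_congr rfl fun σ _ => ?_
  rw [ofReal_integral_eq_lintegral_ofReal (avgw_int (hψ.smooth σ).continuous (hψ.cpt σ))
    (Filter.Eventually.of_forall fun p => by positivity)]
  refine lintegral_congr fun p => ?_
  rw [ENNReal.ofReal_pow (norm_nonneg _), ofReal_norm]

private theorem avgw_fub {q n k : ℕ} {Λ : Set E3} {ψ : (Fin n → Fin q) → Cfg n k → ℂ}
    (hψ : St q n k Λ ψ) (s : ℝ) (B : Set E3) (σ : Fin n → Fin q) (κ : ENNReal)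
    (hκ : ∀ x : E3, volume (Metric.closedBall x s) = κ) :
    ∫⁻ w in B, ∫⁻ p, (∑ b, (if ‖p.1 b - w‖ ≤ s then (1 : ENNReal) else 0)) * ‖ψ σ p‖ₑ ^ 2 ≤
      n * κ * ∫⁻ p, ‖ψ σ p‖ₑ ^ 2 := by
  have hψm : Measurable fun p => ‖ψ σ p‖ₑ ^ 2 :=
    ((hψ.smooth σ).continuous.measurable.enorm).pow_const 2
  have hm : Measurable (Function.uncurry fun (w : E3) (p : Cfg n k) =>
      (∑ b, (if ‖p.1 b - w‖ ≤ s then (1 : ENNReal) else 0)) * ‖ψ σ p‖ₑ ^ 2) := by
    have h1 : Measurable fun u : E3 × Cfg n k =>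
        ∑ b, (if ‖u.2.1 b - u.1‖ ≤ s then (1 : ENNReal) else 0) := by
      apply Finset.measurable_fun_sum
      intro b _
      exact avgw_meas b s
    exact h1.mul (hψm.comp measurable_snd)
  rw [lintegral_lintegral_swap hm.aemeasurable, ← lintegral_const_mul _ hψm]
  exact lintegral_mono fun p => avgw_rowm p.1 s B κ _ hκ

theorem avg_w {q n k : ℕ} (ρ ℓ : ℝ) (hρ : 0 < ρ) (hℓ : 0 < ℓ) (hn : (n : ℝ) + 1 ≤ ρ * ℓ ^ 3)
    {ψ : (Fin n → Fin q) → Cfg n k → ℂ} (hψ : St q n k (cube ℓ) ψ) (h1 : mass ψ = 1) :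
    ∃ w : E3, Metric.closedBall w (ρ ^ (-(1 / 3) : ℝ) / 10) ⊆ cube ℓ ∧
      mean ψ (fun p => ct w (2 * (ρ ^ (-(1 / 3) : ℝ) / 10)) p.1) ≤ 1 / 2 := by
  classical
  have hmass := h1
  obtain ⟨r, hr⟩ : ∃ r : ℝ, r = ρ ^ (-(1 / 3) : ℝ) / 10 := ⟨_, rfl⟩
  rw [← hr]
  have hr0 : 0 < r := by
    rw [hr]
    positivity
  have hr3 : r ^ 3 * (1000 * ρ) = 1 := by
    have h : (ρ ^ (-(1 / 3) : ℝ)) ^ 3 = ρ⁻¹ := by
      rw [← Real.rpow_natCast, ← Real.rpow_mul hρ.le, ← Real.rpow_neg_one]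
      norm_num
    rw [hr, div_pow, h]
    field_simp
    norm_num
  have hn0 : (0 : ℝ) ≤ n := Nat.cast_nonneg n
  have hrl : r ≤ ℓ / 10 := by
    have h1 : (10 * r) ^ 3 ≤ ℓ ^ 3 := by
      have h2 : (10 * r) ^ 3 * ρ = 1 := by
        rw [← hr3]
        ring
      have h3 : (10 * r) ^ 3 * ρ ≤ ℓ ^ 3 * ρ := by
        rw [h2, mul_comm]
        linarith
      exact le_of_mul_le_mul_right h3 hρ
    have h4 := (pow_le_pow_iff_left₀ (by positivity) hℓ.le (by norm_num : 3 ≠ 0)).1 h1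
    linarith
  obtain ⟨c, hc⟩ : ∃ c : E3, ∀ i, c i = ℓ / 2 := ⟨WithLp.toLp 2 (fun _ => ℓ / 2), fun _ => rfl⟩
  have hsub : ∀ w ∈ Metric.ball c (2 / 5 * ℓ), Metric.closedBall w r ⊆ cube ℓ := by
    intro w hw x hx i
    rw [mem_ball_iff_norm] at hw
    rw [mem_closedBall_iff_norm] at hx
    have h1 : ‖x - c‖ < ℓ / 2 := by
      have h2 : x - c = (x - w) + (w - c) := by abel
      rw [h2]
      refine (norm_add_le _ _).trans_lt ?_
      linarith
    have h3 := (PiLp.norm_apply_le (x - c) i).trans_lt h1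
    rw [PiLp.sub_apply, hc, Real.norm_eq_abs, abs_lt] at h3
    constructor <;> linarith
  by_contra hcon
  have hbig : ∀ w ∈ Metric.ball c (2 / 5 * ℓ),
      ENNReal.ofReal (1 / 2) ≤ ENNReal.ofReal (mean ψ (fun p => ct w (2 * r) p.1)) := by
    intro w hw
    apply ENNReal.ofReal_le_ofReal
    by_contra h
    exact hcon ⟨w, hsub w hw, (not_le.1 h).le⟩
  have hlow : ENNReal.ofReal (1 / 2) * volume (Metric.ball c (2 / 5 * ℓ)) ≤
      ∫⁻ w in Metric.ball c (2 / 5 * ℓ), ENNReal.ofReal (mean ψ (fun p => ct w (2 * r) p.1)) := by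
    rw [← setLIntegral_const]
    exact setLIntegral_mono' measurableSet_ball hbig
  obtain ⟨κ, hκ⟩ : ∃ κ : ENNReal, κ = ENNReal.ofReal (2 * r) ^ 3 * ENNReal.ofReal (Real.pi * 4 / 3) :=
    ⟨_, rfl⟩
  have hup : ∫⁻ w in Metric.ball c (2 / 5 * ℓ), ENNReal.ofReal (mean ψ (fun p => ct w (2 * r) p.1)) ≤
      n * κ := by
    have h1 : ∀ w, ENNReal.ofReal (mean ψ (fun p => ct w (2 * r) p.1)) =
        ∑ σ, ∫⁻ p, (∑ b, (if ‖p.1 b - w‖ ≤ 2 * r then (1 : ENNReal) else 0)) * ‖ψ σ p‖ₑ ^ 2 :=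
      fun w => avgw_mean hψ w (2 * r)
    simp_rw [h1]
    rw [lintegral_finsetSum']
    · have hm := avgw_mass hψ
      rw [hmass, ENNReal.ofReal_one] at hm
      calc ∑ σ, ∫⁻ w in Metric.ball c (2 / 5 * ℓ),
            ∫⁻ p, (∑ b, (if ‖p.1 b - w‖ ≤ 2 * r then (1 : ENNReal) else 0)) * ‖ψ σ p‖ₑ ^ 2
          ≤ ∑ σ, n * κ * ∫⁻ p, ‖ψ σ p‖ₑ ^ 2 := by
            apply Finset.sum_le_sum
            intro σ _
            apply avgw_fub hψ
            intro x
            rw [EuclideanSpace.volume_closedBall_fin_three, hκ]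
        _ = n * κ := by
            rw [← Finset.mul_sum, ← hm, mul_one]
    · intro σ _
      have hψm : Measurable fun p => ‖ψ σ p‖ₑ ^ 2 :=
        ((hψ.smooth σ).continuous.measurable.enorm).pow_const 2
      have h2 : Measurable (Function.uncurry fun (w : E3) (p : Cfg n k) =>
          (∑ b, (if ‖p.1 b - w‖ ≤ 2 * r then (1 : ENNReal) else 0)) * ‖ψ σ p‖ₑ ^ 2) := by
        have h3 : Measurable fun u : E3 × Cfg n k =>
            ∑ b, (if ‖u.2.1 b - u.1‖ ≤ 2 * r then (1 : ENNReal) else 0) := by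
          apply Finset.measurable_fun_sum
          intro b _
          exact avgw_meas b (2 * r)
        exact h3.mul (hψm.comp measurable_snd)
      exact h2.lintegral_prod_right'.aemeasurable
  have hfin := hlow.trans hup
  rw [EuclideanSpace.volume_ball_fin_three, hκ, ← ENNReal.ofReal_pow (by positivity),
    ← ENNReal.ofReal_pow (by positivity), ← ENNReal.ofReal_mul (by positivity),
    ← ENNReal.ofReal_mul (by positivity), ← ENNReal.ofReal_mul (by positivity),
    ← ENNReal.ofReal_natCast, ← ENNReal.ofReal_mul (by positivity),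
    ENNReal.ofReal_le_ofReal_iff (by positivity)] at hfin
  have hpi := Real.pi_pos
  have h1 : 1 / 2 * (2 / 5 * ℓ) ^ 3 ≤ n * (2 * r) ^ 3 := by
    have h2 : (1 / 2 * (2 / 5 * ℓ) ^ 3) * (Real.pi * 4 / 3) ≤
        (n * (2 * r) ^ 3) * (Real.pi * 4 / 3) := by
      calc _ = 1 / 2 * ((2 / 5 * ℓ) ^ 3 * (Real.pi * 4 / 3)) := by ring
        _ ≤ n * ((2 * r) ^ 3 * (Real.pi * 4 / 3)) := hfin
        _ = _ := by ring
    exact le_of_mul_le_mul_right h2 (by positivity)
  have h3 : (1 / 2 * (2 / 5 * ℓ) ^ 3) * (1000 * ρ) ≤ (n * (2 * r) ^ 3) * (1000 * ρ) :=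
    mul_le_mul_of_nonneg_right h1 (by positivity)
  have h4 : ((n : ℝ) * (2 * r) ^ 3) * (1000 * ρ) = 8 * (n : ℝ) := by
    calc ((n : ℝ) * (2 * r) ^ 3) * (1000 * ρ) = 8 * (n : ℝ) * (r ^ 3 * (1000 * ρ)) := by ring
      _ = 8 * (n : ℝ) := by rw [hr3, mul_one]
  rw [h4] at h3
  have h5 : (1 / 2 * (2 / 5 * ℓ) ^ 3) * (1000 * ρ) = 32 * (ρ * ℓ ^ 3) := by ring
  rw [h5] at h3
  linarith

end H6.CM
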