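import Mathlib

/-! Coulomb matter in the continuum (quantum electrons and nuclei): the model. -/

open MeasureTheory Finset

namespace H6.CM

/-- three dimensional space -/
abbrev E3 := EuclideanSpace ℝ (Fin 3)

/-- positions of `n` electrons and `k` nuclei -/
abbrev Cfg (n k : ℕ) := (Fin n → E3) × (Fin k → E3)

/-- squared length of the gradient of a complex function on `E3` -/
noncomputable def g3 (f : E3 → ℂ) (v : E3) : ℝ :=
  ∑ d : Fin 3, ‖fderiv ℝ f v (EuclideanSpace.single d 1)‖ ^ 2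

/-- squared length of the gradient of a real function on `E3` -/
noncomputable def gr (f : E3 → ℝ) (v : E3) : ℝ :=
  ∑ d : Fin 3, (fderiv ℝ f v (EuclideanSpace.single d 1)) ^ 2

/-- squared length of the gradient with respect to the position of electron `a` -/
noncomputable def ge {n k : ℕ} (F : Cfg n k → ℂ) (a : Fin n) (p : Cfg n k) : ℝ :=
  g3 (fun v => F (Function.update p.1 a v, p.2)) (p.1 a)

/-- squared length of the gradient with respect to the position of nucleus `j` -/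
noncomputable def gn {n k : ℕ} (F : Cfg n k → ℂ) (j : Fin k) (p : Cfg n k) : ℝ :=
  g3 (fun v => F (p.1, Function.update p.2 j v)) (p.2 j)

/-- the potential at `v` of all the charges of the configuration `p` (electrons have charge
`-1`, nucleus `j` has charge `z j`) -/
noncomputable def phi {n k : ℕ} (z : Fin k → ℝ) (p : Cfg n k) (v : E3) : ℝ :=
  ∑ j, z j * ‖v - p.2 j‖⁻¹ - ∑ a, ‖v - p.1 a‖⁻¹

/-- the potential at `v` of all the charges except electron `a` -/
noncomputable def phiE {n k : ℕ} (z : Fin k → ℝ) (a : Fin n) (p : Cfg n k) (v : E3) : ℝ :=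
  ∑ j, z j * ‖v - p.2 j‖⁻¹ - ∑ b ∈ univ.erase a, ‖v - p.1 b‖⁻¹

/-- the potential at `v` of all the charges except nucleus `j` -/
noncomputable def phiN {n k : ℕ} (z : Fin k → ℝ) (j : Fin k) (p : Cfg n k) (v : E3) : ℝ :=
  ∑ l ∈ univ.erase j, z l * ‖v - p.2 l‖⁻¹ - ∑ a, ‖v - p.1 a‖⁻¹

/-- the Coulomb energy of a configuration (the diagonal terms of the double sums are
`‖0‖⁻¹ = 0`, so these are sums over pairs) -/
noncomputable def V {n k : ℕ} (z : Fin k → ℝ) (p : Cfg n k) : ℝ :=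
  (∑ a, ∑ b, ‖p.1 a - p.1 b‖⁻¹) / 2 - ∑ a, ∑ j, z j * ‖p.1 a - p.2 j‖⁻¹ +
    (∑ j, ∑ l, z j * z l * ‖p.2 j - p.2 l‖⁻¹) / 2

/-- wave functions: smooth, compactly supported in `Λ ^ (n + k)` (Dirichlet conditions),
antisymmetric under simultaneous permutations of the spins and positions of the electrons -/
structure St (q n k : ℕ) (Λ : Set E3) (ψ : (Fin n → Fin q) → Cfg n k → ℂ) : Prop where
  smooth : ∀ σ, ContDiff ℝ (⊤ : ℕ∞) (ψ σ)
  cpt : ∀ σ, HasCompactSupport (ψ σ)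
  supp : ∀ σ p, p ∈ tsupport (ψ σ) → (∀ a, p.1 a ∈ Λ) ∧ ∀ j, p.2 j ∈ Λ
  anti : ∀ (π : Equiv.Perm (Fin n)) (σ : Fin n → Fin q) (p : Cfg n k),
    ψ (σ ∘ π) (p.1 ∘ π, p.2) = ((Equiv.Perm.sign π : ℤ) : ℂ) * ψ σ p

/-- the expectation of a function of the configuration -/
noncomputable def mean {q n k : ℕ} (ψ : (Fin n → Fin q) → Cfg n k → ℂ)
    (F : Cfg n k → ℝ) : ℝ :=
  ∑ σ, ∫ p, F p * ‖ψ σ p‖ ^ 2

/-- the squared norm -/
noncomputable def mass {q n k : ℕ} (ψ : (Fin n → Fin q) → Cfg n k → ℂ) : ℝ :=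
  ∑ σ, ∫ p, ‖ψ σ p‖ ^ 2

/-- kinetic energy of electron `a` -/
noncomputable def kE {q n k : ℕ} (ψ : (Fin n → Fin q) → Cfg n k → ℂ) (a : Fin n) : ℝ :=
  ∑ σ, ∫ p, ge (ψ σ) a p

/-- kinetic energy of nucleus `j` (without the factor) -/
noncomputable def kN {q n k : ℕ} (ψ : (Fin n → Fin q) → Cfg n k → ℂ) (j : Fin k) : ℝ :=
  ∑ σ, ∫ p, gn (ψ σ) j p

/-- the energy `⟨ψ, H ψ⟩` -/
noncomputable def energy {q n k : ℕ} (z κ : Fin k → ℝ)
    (ψ : (Fin n → Fin q) → Cfg n k → ℂ) : ℝ :=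
  ∑ a, kE ψ a + ∑ j, κ j * kN ψ j + mean ψ (V z)

/-- the singular number of particles near `v`: the sum over all particles at distance less
than `2` of the inverse distance -/
noncomputable def near {n k : ℕ} (p : Cfg n k) (v : E3) : ℝ :=
  ∑ a, (if ‖v - p.1 a‖ < 2 then ‖v - p.1 a‖⁻¹ else 0) +
    ∑ j, (if ‖v - p.2 j‖ < 2 then ‖v - p.2 j‖⁻¹ else 0)

/-- the number of particles at distance less than `2` from `v` -/
noncomputable def cnt {n k : ℕ} (p : Cfg n k) (v : E3) : ℝ :=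
  ∑ a, (if ‖v - p.1 a‖ < 2 then 1 else 0) + ∑ j, (if ‖v - p.2 j‖ < 2 then 1 else 0)

end H6.CM
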