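import Pool.Agent.H6.CM.Defs

/-! The combinatorial inequality: with `A = ∑ e a` (an integer) and `Z = ∑ z j f j` the left side is `((Z - A)^2 - ∑ z j^2 f j - A)/2`; if `m = 0` then `Z = 0` and it is `(A^2 - A)/2 ≥ 0`; if `m = 1` and `A = 0` it is `(Z^2 - ∑ z j^2 f j)/2 ≥ 0`; if `A ≥ 1` use `∑ z j^2 f j ≤ zp Z` and minimise over `Z`. -/

open MeasureTheory Finset

namespace H6.CM

private theorem cb_pairs {n : ℕ} (u : Fin n → ℝ) :
    ∑ a, ∑ b ∈ univ.erase a, u a * u b = (∑ a, u a) ^ 2 - ∑ a, u a ^ 2 := by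
  have h : ∀ a, ∑ b ∈ univ.erase a, u a * u b = u a * (∑ b, u b) - u a ^ 2 := by
    intro a
    rw [← Finset.mul_sum, Finset.sum_erase_eq_sub (Finset.mem_univ a)]
    ring
  simp only [h]
  rw [Finset.sum_sub_distrib, ← Finset.sum_mul]
  ring

theorem comb {n k : ℕ} (z : Fin k → ℝ) (zp : ℝ) (hz : ∀ j, 0 ≤ z j ∧ z j ≤ zp)
    (e : Fin n → ℝ) (f : Fin k → ℝ) (he : ∀ a, e a = 0 ∨ e a = 1) (hf : ∀ j, f j = 0 ∨ f j = 1)
    (m : ℝ) (hm : (∃ j, f j = 1) → m = 1) (hm0 : (∀ j, f j = 0) → m = 0) :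
    -((1 + zp / 2) ^ 2 / 2) * ∑ a, e a * m ≤
      (∑ a, ∑ b ∈ univ.erase a, e a * e b) / 2 - ∑ a, ∑ j, z j * (e a * f j) +
        (∑ j, ∑ l ∈ univ.erase j, z j * z l * (f j * f l)) / 2 := by
  have he0 : ∀ a, 0 ≤ e a := fun a => by rcases he a with h | h <;> rw [h]; norm_num
  have hf0 : ∀ j, 0 ≤ f j := fun j => by rcases hf j with h | h <;> rw [h]; norm_num
  have he2 : ∀ a, e a ^ 2 = e a := fun a => by rcases he a with h | h <;> rw [h] <;> norm_num
  set A := ∑ a, e a with hA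
  set Z := ∑ j, z j * f j with hZ
  have e1 : ∑ a, e a * m = A * m := by rw [← Finset.sum_mul]
  have e2 : ∑ a, ∑ j, z j * (e a * f j) = A * Z := by
    rw [hA, hZ, Finset.sum_mul_sum]
    exact Finset.sum_congr rfl fun a _ => Finset.sum_congr rfl fun j _ => by ring
  have e3 : ∑ a, ∑ b ∈ univ.erase a, e a * e b = A ^ 2 - A := by
    rw [cb_pairs]
    congr 1
    exact Finset.sum_congr rfl fun a _ => he2 a
  have e4 : ∑ j, ∑ l ∈ univ.erase j, z j * z l * (f j * f l) =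
      ∑ j, ∑ l ∈ univ.erase j, (z j * f j) * (z l * f l) :=
    Finset.sum_congr rfl fun j _ => Finset.sum_congr rfl fun l _ => by ring
  have e5 : ∑ j, ∑ l ∈ univ.erase j, (z j * f j) * (z l * f l) =
      Z ^ 2 - ∑ j, (z j * f j) ^ 2 := cb_pairs _
  have hAA : 0 ≤ A ^ 2 - A := by
    rw [← e3]
    exact Finset.sum_nonneg fun a _ => Finset.sum_nonneg fun b _ => mul_nonneg (he0 a) (he0 b)
  have hZZ : 0 ≤ Z ^ 2 - ∑ j, (z j * f j) ^ 2 := by
    rw [← e5]
    exact Finset.sum_nonneg fun j _ => Finset.sum_nonneg fun l _ =>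
      mul_nonneg (mul_nonneg (hz j).1 (hf0 j)) (mul_nonneg (hz l).1 (hf0 l))
  have hS : ∑ j, (z j * f j) ^ 2 ≤ zp * Z := by
    rw [hZ, Finset.mul_sum]
    refine Finset.sum_le_sum fun j _ => ?_
    obtain ⟨h1, h2⟩ := hz j
    rcases hf j with h | h
    · rw [h]; norm_num
    · rw [h]
      nlinarith
  rw [e1, e2, e3, e4, e5]
  by_cases hex : ∃ j, f j = 1
  · rw [hm hex]
    by_cases hA1 : ∃ a, e a = 1
    · obtain ⟨a, ha⟩ := hA1
      have hA2 : 1 ≤ A := by
        rw [← ha, hA]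
        exact Finset.single_le_sum (fun b _ => he0 b) (Finset.mem_univ a)
      nlinarith [sq_nonneg (Z - A - zp / 2), mul_nonneg (sq_nonneg zp) (sub_nonneg.2 hA2)]
    · have hA0 : A = 0 := by
        rw [hA]
        refine Finset.sum_eq_zero fun a _ => ?_
        rcases he a with h | h
        · exact h
        · exact absurd ⟨a, h⟩ hA1
      rw [hA0]
      linarith
  · have hf1 : ∀ j, f j = 0 := fun j => by
      rcases hf j with h | h
      · exact h
      · exact absurd ⟨j, h⟩ hex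
    have hZ0 : Z = 0 := by
      rw [hZ]
      exact Finset.sum_eq_zero fun j _ => by rw [hf1 j, mul_zero]
    rw [hm0 hf1, hZ0]
    rw [hZ0] at hZZ
    linarith

end H6.CM
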