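import Pool.Agent.H6.CM.FdL
import Pool.Agent.H6.CM.Comb

/-! The electrostatic inequality: integrate `comb` with `e a = bx (p.1 a) u`, `f j = bx (p.2 j) u` against `(u.1 ^ 5)⁻¹`; if the ball contains electron `a` and a nucleus `j` then `‖p.1 a - p.2 j‖ < 2 u.1`, so `D / 2 < u.1` with `D` the distance to the nearest nucleus. -/

open MeasureTheory Finset

namespace H6.CM

private theorem bx01 (x : E3) (u : ℝ × E3) : bx x u = 0 ∨ bx x u = 1 := by
  unfold bx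
  split_ifs
  · right; rfl
  · left; rfl

private theorem bx_neg (x : E3) (u : ℝ × E3) (h : u.1 ≤ 0) : bx x u = 0 := by
  unfold bx
  rw [if_neg]
  have := norm_nonneg (x - u.2)
  linarith

private theorem bx_one (x : E3) (u : ℝ × E3) (h : bx x u = 1) : ‖x - u.2‖ < u.1 := by
  by_contra h1
  unfold bx at h
  rw [if_neg h1] at h
  exact zero_ne_one h

private theorem pointwise {n k : ℕ} (z : Fin k → ℝ) (zp : ℝ) (hz : ∀ j, 0 ≤ z j ∧ z j ≤ zp)
    (p : Cfg n k) (D : Fin n → ℝ) (hD : ∀ a j, D a ≤ ‖p.1 a - p.2 j‖) (u : ℝ × E3) :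
    ∑ a, -((1 + zp / 2) ^ 2 / 2) *
        ((u.1 ^ 5)⁻¹ * (bx (p.1 a) u * (if D a / 2 < u.1 then (1 : ℝ) else 0))) ≤
      (∑ a, ∑ b ∈ univ.erase a, (u.1 ^ 5)⁻¹ * (bx (p.1 a) u * bx (p.1 b) u)) / 2 -
        ∑ a, ∑ j, z j * ((u.1 ^ 5)⁻¹ * (bx (p.1 a) u * bx (p.2 j) u)) +
        (∑ j, ∑ l ∈ univ.erase j, (z j * z l) *
          ((u.1 ^ 5)⁻¹ * (bx (p.2 j) u * bx (p.2 l) u))) / 2 := by
  classical
  rcases le_or_gt u.1 0 with hu | hu
  · have h1 : ∀ x : E3, bx x u = 0 := fun x => bx_neg x u hu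
    simp only [h1, zero_mul, mul_zero, sum_const_zero, zero_div, sub_zero, add_zero]
    exact le_refl _
  · have hw : 0 ≤ (u.1 ^ 5)⁻¹ := inv_nonneg.mpr (pow_nonneg hu.le 5)
    obtain ⟨m, hm⟩ : ∃ m : ℝ, m = if ∃ j, bx (p.2 j) u = 1 then (1 : ℝ) else 0 := ⟨_, rfl⟩
    have hm1 : (∃ j, bx (p.2 j) u = 1) → m = 1 := by
      intro h
      rw [hm, if_pos h]
    have hm0 : (∀ j, bx (p.2 j) u = 0) → m = 0 := by
      intro h
      rw [hm, if_neg]
      rintro ⟨j, hj⟩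
      rw [h j] at hj
      exact zero_ne_one hj
    have hcomb := comb z zp hz (fun a => bx (p.1 a) u) (fun j => bx (p.2 j) u)
      (fun a => bx01 _ u) (fun j => bx01 _ u) m hm1 hm0
    have h2 := mul_le_mul_of_nonneg_left hcomb hw
    have h3 : (u.1 ^ 5)⁻¹ * ((∑ a, ∑ b ∈ univ.erase a, bx (p.1 a) u * bx (p.1 b) u) / 2 -
        ∑ a, ∑ j, z j * (bx (p.1 a) u * bx (p.2 j) u) +
        (∑ j, ∑ l ∈ univ.erase j, z j * z l * (bx (p.2 j) u * bx (p.2 l) u)) / 2)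
        = (∑ a, ∑ b ∈ univ.erase a, (u.1 ^ 5)⁻¹ * (bx (p.1 a) u * bx (p.1 b) u)) / 2 -
        ∑ a, ∑ j, z j * ((u.1 ^ 5)⁻¹ * (bx (p.1 a) u * bx (p.2 j) u)) +
        (∑ j, ∑ l ∈ univ.erase j, (z j * z l) *
          ((u.1 ^ 5)⁻¹ * (bx (p.2 j) u * bx (p.2 l) u))) / 2 := by
      rw [mul_add, mul_sub, ← mul_div_assoc, ← mul_div_assoc, mul_sum, mul_sum, mul_sum]
      congr 1
      · congr 1
        · congr 1
          refine sum_congr rfl fun a _ => ?_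
          rw [mul_sum]
        · refine sum_congr rfl fun a _ => ?_
          rw [mul_sum]
          refine sum_congr rfl fun j _ => ?_
          ring
      · congr 1
        refine sum_congr rfl fun j _ => ?_
        rw [mul_sum]
        refine sum_congr rfl fun l _ => ?_
        ring
    have h4 : ∑ a, -((1 + zp / 2) ^ 2 / 2) *
        ((u.1 ^ 5)⁻¹ * (bx (p.1 a) u * (if D a / 2 < u.1 then (1 : ℝ) else 0)))
        ≤ (u.1 ^ 5)⁻¹ * (-((1 + zp / 2) ^ 2 / 2) * ∑ a, bx (p.1 a) u * m) := by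
      rw [mul_sum, mul_sum]
      refine sum_le_sum fun a _ => ?_
      have h5 : bx (p.1 a) u * m ≤ bx (p.1 a) u * (if D a / 2 < u.1 then (1 : ℝ) else 0) := by
        rcases bx01 (p.1 a) u with h6 | h6
        · rw [h6, zero_mul, zero_mul]
        · rw [h6, one_mul, one_mul]
          by_cases h7 : ∃ j, bx (p.2 j) u = 1
          · obtain ⟨j, hj⟩ := h7
            have h8 := bx_one _ u h6
            have h9 := bx_one _ u hj
            have h10 : ‖p.1 a - p.2 j‖ ≤ ‖p.1 a - u.2‖ + ‖p.2 j - u.2‖ := by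
              calc ‖p.1 a - p.2 j‖ = ‖(p.1 a - u.2) - (p.2 j - u.2)‖ := by congr 1; abel
                _ ≤ _ := norm_sub_le _ _
            have h11 := hD a j
            rw [if_pos (by linarith), hm1 ⟨j, hj⟩]
          · rw [hm, if_neg h7]
            split_ifs <;> norm_num
      have h12 : 0 ≤ (1 + zp / 2) ^ 2 / 2 := by positivity
      have h13 := mul_le_mul_of_nonneg_left (mul_le_mul_of_nonneg_left h5 hw) h12
      linarith
    calc _ ≤ (u.1 ^ 5)⁻¹ * (-((1 + zp / 2) ^ 2 / 2) * ∑ a, bx (p.1 a) u * m) := h4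
      _ ≤ _ := h2
      _ = _ := h3

theorem bax (zp : ℝ) : ∃ K : ℝ, 0 ≤ K ∧ ∀ (n k : ℕ) (z : Fin k → ℝ) (_ : ∀ j, 0 ≤ z j ∧ z j ≤ zp)
    (p : Cfg n k) (_ : Function.Injective p.1) (_ : Function.Injective p.2)
    (_ : ∀ a j, p.1 a ≠ p.2 j),
    -K * ∑ a, (⨆ j, ‖p.1 a - p.2 j‖⁻¹) ≤ V z p := by
  obtain ⟨c, hc, hfdl⟩ := fdl
  obtain ⟨C, hC, hone⟩ := fdl_one
  refine ⟨(1 + zp / 2) ^ 2 / 2 * C / c, by positivity, fun n k z hz p h1 h2 h3 => ?_⟩
  rcases Nat.eq_zero_or_pos k with hk | hk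
  · subst hk
    have hs : ∀ a, (⨆ j : Fin 0, ‖p.1 a - p.2 j‖⁻¹) = 0 := fun a => Real.iSup_of_isEmpty _
    simp only [hs, sum_const_zero, mul_zero]
    unfold V
    simp only [univ_eq_empty, sum_empty, sum_const_zero, sub_zero, zero_div, add_zero]
    positivity
  · haveI : Nonempty (Fin k) := ⟨⟨0, hk⟩⟩
    obtain ⟨S, hS⟩ : ∃ S : Fin n → ℝ, S = fun a => ⨆ j, ‖p.1 a - p.2 j‖⁻¹ := ⟨_, rfl⟩
    have hSa : ∀ a, (⨆ j, ‖p.1 a - p.2 j‖⁻¹) = S a := by
      intro a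
      rw [hS]
    have hbdd : ∀ a, BddAbove (Set.range fun j => ‖p.1 a - p.2 j‖⁻¹) :=
      fun a => (Set.finite_range _).bddAbove
    have hSle : ∀ a j, ‖p.1 a - p.2 j‖⁻¹ ≤ S a := by
      intro a j
      rw [hS]
      exact le_ciSup (hbdd a) j
    have hSpos : ∀ a, 0 < S a := by
      intro a
      refine lt_of_lt_of_le ?_ (hSle a ⟨0, hk⟩)
      exact inv_pos.mpr (norm_pos_iff.mpr (sub_ne_zero.mpr (h3 a _)))
    have hD : ∀ a j, (S a)⁻¹ ≤ ‖p.1 a - p.2 j‖ := by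
      intro a j
      have hpos : 0 < ‖p.1 a - p.2 j‖ := norm_pos_iff.mpr (sub_ne_zero.mpr (h3 a j))
      exact inv_le_of_inv_le₀ hpos (hSle a j)
    simp only [hSa]
    have hpw := pointwise z zp hz p (fun a => (S a)⁻¹) hD
    -- integrability
    have i1 : ∀ a, ∀ b ∈ univ.erase a, Integrable (fun u : ℝ × E3 =>
        (u.1 ^ 5)⁻¹ * (bx (p.1 a) u * bx (p.1 b) u)) := by
      intro a b hb
      exact (hfdl _ _ (fun h => (ne_of_mem_erase hb) (h1 h).symm)).1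
    have i2 : ∀ a j, Integrable (fun u : ℝ × E3 =>
        z j * ((u.1 ^ 5)⁻¹ * (bx (p.1 a) u * bx (p.2 j) u))) := by
      intro a j
      exact (hfdl _ _ (h3 a j)).1.const_mul _
    have i3 : ∀ j, ∀ l ∈ univ.erase j, Integrable (fun u : ℝ × E3 =>
        (z j * z l) * ((u.1 ^ 5)⁻¹ * (bx (p.2 j) u * bx (p.2 l) u))) := by
      intro j l hl
      exact (hfdl _ _ (fun h => (ne_of_mem_erase hl) (h2 h).symm)).1.const_mul _
    have i1' : ∀ a, Integrable (fun u : ℝ × E3 => ∑ b ∈ univ.erase a,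
        (u.1 ^ 5)⁻¹ * (bx (p.1 a) u * bx (p.1 b) u)) := fun a =>
      integrable_finsetSum _ (i1 a)
    have i2' : ∀ a, Integrable (fun u : ℝ × E3 => ∑ j,
        z j * ((u.1 ^ 5)⁻¹ * (bx (p.1 a) u * bx (p.2 j) u))) := fun a =>
      integrable_finsetSum _ (fun j _ => i2 a j)
    have i3' : ∀ j, Integrable (fun u : ℝ × E3 => ∑ l ∈ univ.erase j,
        (z j * z l) * ((u.1 ^ 5)⁻¹ * (bx (p.2 j) u * bx (p.2 l) u))) := fun j =>
      integrable_finsetSum _ (i3 j)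
    have i1'' : Integrable (fun u : ℝ × E3 => ∑ a, ∑ b ∈ univ.erase a,
        (u.1 ^ 5)⁻¹ * (bx (p.1 a) u * bx (p.1 b) u)) :=
      integrable_finsetSum _ (fun a _ => i1' a)
    have i2'' : Integrable (fun u : ℝ × E3 => ∑ a, ∑ j,
        z j * ((u.1 ^ 5)⁻¹ * (bx (p.1 a) u * bx (p.2 j) u))) :=
      integrable_finsetSum _ (fun a _ => i2' a)
    have i3'' : Integrable (fun u : ℝ × E3 => ∑ j, ∑ l ∈ univ.erase j,
        (z j * z l) * ((u.1 ^ 5)⁻¹ * (bx (p.2 j) u * bx (p.2 l) u))) :=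
      integrable_finsetSum _ (fun j _ => i3' j)
    have j1 : Integrable (fun u : ℝ × E3 => (∑ a, ∑ b ∈ univ.erase a,
        (u.1 ^ 5)⁻¹ * (bx (p.1 a) u * bx (p.1 b) u)) / 2) := i1''.div_const 2
    have j3 : Integrable (fun u : ℝ × E3 => (∑ j, ∑ l ∈ univ.erase j,
        (z j * z l) * ((u.1 ^ 5)⁻¹ * (bx (p.2 j) u * bx (p.2 l) u))) / 2) := i3''.div_const 2
    have j12 : Integrable (fun u : ℝ × E3 => (∑ a, ∑ b ∈ univ.erase a,
        (u.1 ^ 5)⁻¹ * (bx (p.1 a) u * bx (p.1 b) u)) / 2 - ∑ a, ∑ j,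
        z j * ((u.1 ^ 5)⁻¹ * (bx (p.1 a) u * bx (p.2 j) u))) := j1.sub i2''
    have hG : Integrable (fun u : ℝ × E3 => (∑ a, ∑ b ∈ univ.erase a,
        (u.1 ^ 5)⁻¹ * (bx (p.1 a) u * bx (p.1 b) u)) / 2 - ∑ a, ∑ j,
        z j * ((u.1 ^ 5)⁻¹ * (bx (p.1 a) u * bx (p.2 j) u)) + (∑ j, ∑ l ∈ univ.erase j,
        (z j * z l) * ((u.1 ^ 5)⁻¹ * (bx (p.2 j) u * bx (p.2 l) u))) / 2) := j12.add j3
    have hGval : ∫ u : ℝ × E3, ((∑ a, ∑ b ∈ univ.erase a,
        (u.1 ^ 5)⁻¹ * (bx (p.1 a) u * bx (p.1 b) u)) / 2 - ∑ a, ∑ j,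
        z j * ((u.1 ^ 5)⁻¹ * (bx (p.1 a) u * bx (p.2 j) u)) + (∑ j, ∑ l ∈ univ.erase j,
        (z j * z l) * ((u.1 ^ 5)⁻¹ * (bx (p.2 j) u * bx (p.2 l) u))) / 2) = c * V z p := by
      rw [integral_add j12 j3, integral_sub j1 i2'', integral_div, integral_div,
        integral_finsetSum _ (fun a _ => i1' a), integral_finsetSum _ (fun a _ => i2' a),
        integral_finsetSum _ (fun j _ => i3' j)]
      have v1 : ∀ a, ∫ u : ℝ × E3, ∑ b ∈ univ.erase a,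
          (u.1 ^ 5)⁻¹ * (bx (p.1 a) u * bx (p.1 b) u) = c * ∑ b, ‖p.1 a - p.1 b‖⁻¹ := by
        intro a
        rw [integral_finsetSum _ (i1 a), ← sum_erase univ (f := fun b => ‖p.1 a - p.1 b‖⁻¹)
          (a := a) (by simp), mul_sum]
        refine sum_congr rfl fun b hb => ?_
        exact (hfdl _ _ (fun h => (ne_of_mem_erase hb) (h1 h).symm)).2
      have v2 : ∀ a, ∫ u : ℝ × E3, ∑ j,
          z j * ((u.1 ^ 5)⁻¹ * (bx (p.1 a) u * bx (p.2 j) u))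
          = c * ∑ j, z j * ‖p.1 a - p.2 j‖⁻¹ := by
        intro a
        rw [integral_finsetSum _ (fun j _ => i2 a j), mul_sum]
        refine sum_congr rfl fun j _ => ?_
        rw [integral_const_mul, (hfdl _ _ (h3 a j)).2]
        ring
      have v3 : ∀ j, ∫ u : ℝ × E3, ∑ l ∈ univ.erase j,
          (z j * z l) * ((u.1 ^ 5)⁻¹ * (bx (p.2 j) u * bx (p.2 l) u))
          = c * ∑ l, z j * z l * ‖p.2 j - p.2 l‖⁻¹ := by
        intro j
        rw [integral_finsetSum _ (i3 j),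
          ← sum_erase univ (f := fun l => z j * z l * ‖p.2 j - p.2 l‖⁻¹)
          (a := j) (by simp), mul_sum]
        refine sum_congr rfl fun l hl => ?_
        rw [integral_const_mul, (hfdl _ _ (fun h => (ne_of_mem_erase hl) (h2 h).symm)).2]
        ring
      simp only [v1, v2, v3]
      unfold V
      rw [← mul_sum, ← mul_sum, ← mul_sum]
      ring
    have i4 : ∀ a, Integrable (fun u : ℝ × E3 => -((1 + zp / 2) ^ 2 / 2) *
        ((u.1 ^ 5)⁻¹ * (bx (p.1 a) u * (if (S a)⁻¹ / 2 < u.1 then (1 : ℝ) else 0)))) :=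
      fun a => (hone (p.1 a) (S a)⁻¹ (inv_pos.mpr (hSpos a))).1.const_mul _
    have hH : Integrable (fun u : ℝ × E3 => ∑ a, -((1 + zp / 2) ^ 2 / 2) *
        ((u.1 ^ 5)⁻¹ * (bx (p.1 a) u * (if (S a)⁻¹ / 2 < u.1 then (1 : ℝ) else 0)))) :=
      integrable_finsetSum _ (fun a _ => i4 a)
    have hmono := integral_mono hH hG hpw
    rw [hGval, integral_finsetSum _ (fun a _ => i4 a)] at hmono
    have h5 : -((1 + zp / 2) ^ 2 / 2) * C * ∑ a, S a ≤ ∑ a, ∫ u : ℝ × E3,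
        -((1 + zp / 2) ^ 2 / 2) *
        ((u.1 ^ 5)⁻¹ * (bx (p.1 a) u * (if (S a)⁻¹ / 2 < u.1 then (1 : ℝ) else 0))) := by
      rw [mul_sum]
      refine sum_le_sum fun a _ => ?_
      rw [integral_const_mul]
      have h6 := (hone (p.1 a) (S a)⁻¹ (inv_pos.mpr (hSpos a))).2
      rw [inv_inv] at h6
      have h7 : 0 ≤ (1 + zp / 2) ^ 2 / 2 := by positivity
      have h8 := mul_le_mul_of_nonneg_left h6 h7
      linarith
    have h9 := h5.trans hmono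
    have h10 : -((1 + zp / 2) ^ 2 / 2 * C / c) * ∑ a, S a
        = (-((1 + zp / 2) ^ 2 / 2) * C * ∑ a, S a) / c := by
      ring
    rw [h10, div_le_iff₀ hc]
    linarith

end H6.CM
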