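import Pool.Agent.H6.CM.PDefs

/-! Removing one electron and one nucleus in all ways: a pair of electrons survives for `n - 1` of the `n + 1` choices of `a` and all `n + 1` choices of `j`, an electron and a nucleus survive for `n ^ 2` choices. -/

open MeasureTheory Finset

namespace H6.CM

theorem V_split {n k : ℕ} (p : Cfg n k) : V (fun _ => 1) p = Vr p.1 - Va p.1 p.2 + Vr p.2 := by
  unfold V Vr Va
  simp only [one_mul]

/-- every electron survives for `n` of the `n + 1` choices -/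
theorem comb_one {n : ℕ} (f : Fin (n + 1) → ℝ) :
    ∑ a : Fin (n + 1), ∑ b : Fin n, f (a.succAbove b) = n * ∑ b, f b := by
  have h1 : ∀ a : Fin (n + 1), ∑ b : Fin n, f (a.succAbove b) = ∑ b, f b - f a := fun a => by
    rw [Fin.sum_univ_succAbove f a]
    ring
  rw [sum_congr rfl fun a _ => h1 a, sum_sub_distrib, sum_const, card_univ, Fintype.card_fin,
    nsmul_eq_mul]
  push_cast
  ring

/-- a double sum without diagonal -/
private theorem comb_two {n : ℕ} (g : Fin (n + 1) → Fin (n + 1) → ℝ) (hd : ∀ b, g b b = 0) :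
    ∑ a : Fin (n + 1), ∑ b : Fin n, ∑ c : Fin n, g (a.succAbove b) (a.succAbove c) =
      ((n : ℝ) - 1) * ∑ b, ∑ c, g b c := by
  have h1 : ∀ a : Fin (n + 1), ∑ b : Fin n, ∑ c : Fin n, g (a.succAbove b) (a.succAbove c) =
      ∑ b, ∑ c, g b c - ∑ c, g a c - ∑ b, g b a := fun a => by
    rw [Fin.sum_univ_succAbove (fun b => ∑ c, g b c) a]
    have h2 : ∀ b : Fin n, ∑ c : Fin n, g (a.succAbove b) (a.succAbove c) =
        ∑ c, g (a.succAbove b) c - g (a.succAbove b) a := fun b => by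
      rw [Fin.sum_univ_succAbove (fun c => g (a.succAbove b) c) a]
      ring
    rw [sum_congr rfl fun b _ => h2 b, sum_sub_distrib,
      Fin.sum_univ_succAbove (fun b => g b a) a, hd]
    ring
  rw [sum_congr rfl fun a _ => h1 a, sum_sub_distrib, sum_sub_distrib, sum_const, card_univ,
    Fintype.card_fin, nsmul_eq_mul, sum_comm (f := fun a b => g b a)]
  push_cast
  ring

private theorem comb_Vr {n : ℕ} (x : Fin (n + 1) → E3) :
    ∑ a : Fin (n + 1), Vr (fun b => x (a.succAbove b)) = ((n : ℝ) - 1) * Vr x := by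
  unfold Vr
  rw [← sum_div, comb_two (fun b c => ‖x b - x c‖⁻¹) (fun b => by simp)]
  ring

theorem comb_V {n : ℕ} (x R : Fin (n + 1) → E3) :
    ∑ a : Fin (n + 1), ∑ j : Fin (n + 1),
      V (fun _ => 1) ((fun b => x (a.succAbove b), fun l => R (j.succAbove l)) : Cfg n n) =
      ((n : ℝ) ^ 2 - 1) * (Vr x + Vr R) - (n : ℝ) ^ 2 * Va x R := by
  simp only [V_split, sum_add_distrib, sum_sub_distrib, sum_const, card_univ, Fintype.card_fin,
    nsmul_eq_mul]
  rw [comb_Vr R]
  have h1 : ∑ a : Fin (n + 1), ((n + 1 : ℕ) : ℝ) * Vr (fun b => x (a.succAbove b)) =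
      ((n + 1 : ℕ) : ℝ) * (((n : ℝ) - 1) * Vr x) := by
    rw [← mul_sum, comb_Vr x]
  have h2 : ∑ a : Fin (n + 1), ∑ j : Fin (n + 1),
      Va (fun b => x (a.succAbove b)) (fun l => R (j.succAbove l)) = (n : ℝ) ^ 2 * Va x R := by
    unfold Va
    have h3 : ∀ a : Fin (n + 1), ∑ j : Fin (n + 1), ∑ b : Fin n, ∑ l : Fin n,
        ‖x (a.succAbove b) - R (j.succAbove l)‖⁻¹ =
        n * ∑ b : Fin n, ∑ l, ‖x (a.succAbove b) - R l‖⁻¹ := fun a => by
      rw [sum_comm, mul_sum]
      exact sum_congr rfl fun b _ => comb_one (fun l => ‖x (a.succAbove b) - R l‖⁻¹)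
    rw [sum_congr rfl fun a _ => h3 a, ← mul_sum, comb_one (fun b => ∑ l, ‖x b - R l‖⁻¹)]
    ring
  rw [h1, h2]
  push_cast
  ring

theorem Vr_nonneg {n : ℕ} (x : Fin n → E3) : 0 ≤ Vr x := by
  unfold Vr
  positivity

end H6.CM
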