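import Pool.Agent.H6.CM.ERelA

/-! Relocation of an electron near `x0`: bound the terms of `erelA` with `wint_D`, `wint_rm`, `wint_rmn`, `wint_n` and let `L → ∞` (the terms with `rm` are at most a constant depending on `ψ` times `2 ^ -L`). `cut_ex` gives `θ`. -/

open MeasureTheory Finset

namespace H6.CM

private theorem er_sq {q n k : ℕ} {Λ : Set E3} {ψ : (Fin n → Fin q) → Cfg n k → ℂ}
    (hψ : St q n k Λ ψ) (σ : Fin n → Fin q) : Integrable (fun p : Cfg n k => ‖ψ σ p‖ ^ 2) := by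
  have h1 : Continuous (fun p : Cfg n k => ‖ψ σ p‖ ^ 2) := (hψ.smooth σ).continuous.norm.pow 2
  refine h1.integrable_of_hasCompactSupport ?_
  refine (hψ.cpt σ).mono ?_
  intro p hp
  rw [Function.mem_support] at hp ⊢
  intro h
  apply hp
  rw [h]
  simp

private theorem er_mono {q n k : ℕ} (ψ : (Fin n → Fin q) → Cfg n k → ℂ) (F G : Cfg n k → ℝ)
    (h0 : ∀ p, 0 ≤ F p) (h1 : ∀ p, F p ≤ G p)
    (hG : ∀ σ, Integrable (fun p => G p * ‖ψ σ p‖ ^ 2)) : mean ψ F ≤ mean ψ G := by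
  unfold mean
  refine sum_le_sum fun σ _ => ?_
  refine integral_mono_of_nonneg (Filter.Eventually.of_forall fun p => ?_) (hG σ)
    (Filter.Eventually.of_forall fun p => ?_)
  · exact mul_nonneg (h0 p) (sq_nonneg _)
  · exact mul_le_mul_of_nonneg_right (h1 p) (sq_nonneg _)

private theorem er_nonneg {q n k : ℕ} (ψ : (Fin n → Fin q) → Cfg n k → ℂ) (F : Cfg n k → ℝ)
    (h0 : ∀ p, 0 ≤ F p) : 0 ≤ mean ψ F := by
  unfold mean
  exact sum_nonneg fun σ _ => integral_nonneg fun p => mul_nonneg (h0 p) (sq_nonneg _)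

private theorem er_mul {q n k : ℕ} (ψ : (Fin n → Fin q) → Cfg n k → ℂ) (c : ℝ)
    (F : Cfg n k → ℝ) : mean ψ (fun p => c * F p) = c * mean ψ F := by
  unfold mean
  rw [mul_sum]
  refine sum_congr rfl fun σ _ => ?_
  rw [← integral_const_mul]
  congr 1
  funext p
  ring

private theorem er_const {q n k : ℕ} (ψ : (Fin n → Fin q) → Cfg n k → ℂ) (c : ℝ) :
    mean ψ (fun _ => c) = c * mass ψ := by
  unfold mean mass
  rw [mul_sum]
  exact sum_congr rfl fun σ _ => integral_const_mul _ _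

private theorem er_lim (A R K : ℝ) (h : ∀ L : ℕ, A ≤ R + K * ((2 : ℝ) ^ L)⁻¹) : A ≤ R := by
  have h1 : Filter.Tendsto (fun L : ℕ => R + K * ((2 : ℝ) ^ L)⁻¹) Filter.atTop
      (nhds (R + K * 0)) := by
    refine Filter.Tendsto.const_add _ (Filter.Tendsto.const_mul _ ?_)
    have h2 : Filter.Tendsto (fun L : ℕ => ((2 : ℝ)⁻¹) ^ L) Filter.atTop (nhds 0) :=
      tendsto_pow_atTop_nhds_zero_of_lt_one (by norm_num) (by norm_num)
    refine h2.congr fun L => ?_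
    rw [inv_pow]
  rw [mul_zero, add_zero] at h1
  exact ge_of_tendsto' h1 h

private theorem er_cnt {n k : ℕ} (p : Cfg n k) (x0 : E3) :
    0 ≤ ∑ b, (if ‖x0 - p.1 b‖ < 2 then (1 : ℝ) else 0) ∧
      0 ≤ ∑ j, (if ‖x0 - p.2 j‖ < 2 then (1 : ℝ) else 0) ∧
      cnt p x0 = ∑ b, (if ‖x0 - p.1 b‖ < 2 then (1 : ℝ) else 0) +
        ∑ j, (if ‖x0 - p.2 j‖ < 2 then (1 : ℝ) else 0) := by
  refine ⟨sum_nonneg fun b _ => ?_, sum_nonneg fun b _ => ?_, rfl⟩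
  · split_ifs <;> norm_num
  · split_ifs <;> norm_num

theorem erel (zp : ℝ) {χ : E3 → ℝ} (hχ : Bump χ) : ∃ C : ℝ, 0 ≤ C ∧
    ∀ (q n k : ℕ) (Λ : Set E3) (z κ : Fin k → ℝ) (_ : ∀ j, 0 ≤ z j ∧ z j ≤ zp)
    (_ : ∀ j, 0 ≤ κ j) (E : ℝ) (_ : LB q n k Λ z κ E)
    (ψ : (Fin n → Fin q) → Cfg n k → ℂ) (_ : St q n k Λ ψ) (a : Fin n)
    (x0 : E3) (_ : Metric.closedBall x0 2 ⊆ Λ),
    E * mass ψ ≤ energy z κ ψ - kE ψ a + mean ψ (fun p => phiE z a p (p.1 a)) +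
      C * mean ψ (fun p => 1 + cnt p x0) -
      mean ψ (fun p => ∫ w, χ (w - x0) ^ 2 * phiE z a p w) := by
  obtain ⟨θ, hθ⟩ := cut_ex
  obtain ⟨C1, hC1, H1⟩ := erelA hθ hχ
  obtain ⟨C2, hC2, H2⟩ := wint_D hχ
  obtain ⟨C3, hC3, H3⟩ := wint_rm hθ hχ
  obtain ⟨C4, hC4, H4⟩ := wint_rmn hθ hχ
  obtain ⟨C5, hC5, H5⟩ := wint_n hχ
  refine ⟨C1 * (1 + C2) + |zp| * C5, by positivity, ?_⟩
  intro q n k Λ z κ hz hκ E hE ψ hψ a x0 hx0
  have hI := fun σ => int_mean hψ z σ hχ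
  have hsq := fun σ => er_sq hψ σ
  have hcI : ∀ σ, Integrable (fun p : Cfg n k => (1 + cnt p x0) * ‖ψ σ p‖ ^ 2) := by
    intro σ
    refine ((hsq σ).add ((hI σ).2.2.2.2.2.2.2.1 x0)).congr
      (Filter.Eventually.of_forall fun p => ?_)
    show ‖ψ σ p‖ ^ 2 + cnt p x0 * ‖ψ σ p‖ ^ 2 = _
    ring
  have hcI' : ∀ (c : ℝ) σ, Integrable
      (fun p : Cfg n k => (c * (1 + cnt p x0)) * ‖ψ σ p‖ ^ 2) := by
    intro c σ
    refine ((hcI σ).const_mul c).congr (Filter.Eventually.of_forall fun p => ?_)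
    show c * ((1 + cnt p x0) * ‖ψ σ p‖ ^ 2) = _
    ring
  have hcn : ∀ p : Cfg n k, 0 ≤ cnt p x0 := by
    intro p
    obtain ⟨h1, h2, h3⟩ := er_cnt p x0
    rw [h3]
    exact add_nonneg h1 h2
  have hVI : ∀ (c : ℝ) σ, Integrable
      (fun p : Cfg n k => (c * |V z p + phiE z a p (p.1 a)|) * ‖ψ σ p‖ ^ 2) := by
    intro c σ
    refine ((((hI σ).1.add ((hI σ).2.1 a)).abs).const_mul c).congr
      (Filter.Eventually.of_forall fun p => ?_)
    show c * |V z p * ‖ψ σ p‖ ^ 2 + phiE z a p (p.1 a) * ‖ψ σ p‖ ^ 2| = _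
    rw [← add_mul, abs_mul, abs_of_nonneg (sq_nonneg ‖ψ σ p‖)]
    ring
  have hmass : 0 ≤ mass ψ := by
    unfold mass
    exact sum_nonneg fun σ _ => integral_nonneg fun p => sq_nonneg _
  have hMc : 0 ≤ mean ψ (fun p => 1 + cnt p x0) :=
    er_nonneg ψ _ fun p => add_nonneg zero_le_one (hcn p)
  have hMV : 0 ≤ mean ψ (fun p => |V z p + phiE z a p (p.1 a)|) :=
    er_nonneg ψ _ fun p => abs_nonneg _
  refine er_lim _ _ (|E| * (C3 * n * mass ψ) +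
    C3 * n * mean ψ (fun p => |V z p + phiE z a p (p.1 a)|) +
    |zp| * ((k : ℝ) * (C4 * n) * mass ψ)) ?_
  intro L
  have key := H1 q n k Λ z κ zp hz hκ E hE ψ hψ a x0 hx0 L
  set r : ℝ := ((2 : ℝ) ^ L)⁻¹ with hr
  have hr0 : 0 ≤ r := by positivity
  have hrm0 : ∀ p : Cfg n k, 0 ≤ ∫ w, χ (w - x0) ^ 2 * rm θ a w L p.1 ^ 2 := fun p =>
    integral_nonneg fun w => mul_nonneg (sq_nonneg _) (sq_nonneg _)
  have hD0 : ∀ p : Cfg n k, 0 ≤ ∫ w, χ (w - x0) ^ 2 * Dl a w L p.1 := fun p =>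
    integral_nonneg fun w => mul_nonneg (sq_nonneg _) (by
      unfold Dl
      refine sum_nonneg fun b _ => sum_nonneg fun l _ => mul_nonneg (by positivity) ?_
      split_ifs <;> norm_num)
  -- the mass of the remainder
  have e1 : mean ψ (fun p => ∫ w, χ (w - x0) ^ 2 * rm θ a w L p.1 ^ 2) ≤
      C3 * n * r * mass ψ := by
    rw [← er_const ψ (C3 * n * r)]
    exact er_mono ψ _ _ hrm0 (fun p => H3 n a x0 L p.1) fun σ => (hsq σ).const_mul _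
  have e1' : 0 ≤ mean ψ (fun p => ∫ w, χ (w - x0) ^ 2 * rm θ a w L p.1 ^ 2) :=
    er_nonneg ψ _ hrm0
  have e2 : mean ψ (fun p => (∫ w, χ (w - x0) ^ 2 * rm θ a w L p.1 ^ 2) *
      |V z p + phiE z a p (p.1 a)|) ≤
      C3 * n * r * mean ψ (fun p => |V z p + phiE z a p (p.1 a)|) := by
    rw [← er_mul ψ (C3 * n * r)]
    exact er_mono ψ _ _ (fun p => mul_nonneg (hrm0 p) (abs_nonneg _))
      (fun p => mul_le_mul_of_nonneg_right (H3 n a x0 L p.1) (abs_nonneg _)) fun σ => hVI _ σ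
  have e3 : mean ψ (fun p => 1 + ∫ w, χ (w - x0) ^ 2 * Dl a w L p.1) ≤
      (1 + C2) * mean ψ (fun p => 1 + cnt p x0) := by
    rw [← er_mul ψ (1 + C2)]
    refine er_mono ψ _ _ (fun p => add_nonneg zero_le_one (hD0 p)) (fun p => ?_) fun σ => hcI' _ σ
    obtain ⟨h1, h2, h3⟩ := er_cnt p x0
    have h4 := (H2 n a x0 L p.1).2
    rw [h3]
    nlinarith
  have e4 : mean ψ (fun p => ∑ j, ∫ w, χ (w - x0) ^ 2 *
        (rm θ a w L p.1 ^ 2 * ‖w - p.2 j‖⁻¹)) ≤ (k : ℝ) * (C4 * n * r) * mass ψ := by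
    rw [← er_const ψ ((k : ℝ) * (C4 * n * r))]
    refine er_mono ψ _ _ (fun p => sum_nonneg fun j _ => integral_nonneg fun w => ?_)
      (fun p => ?_) fun σ => (hsq σ).const_mul _
    · exact mul_nonneg (sq_nonneg _) (mul_nonneg (sq_nonneg _) (inv_nonneg.2 (norm_nonneg _)))
    · calc _ ≤ ∑ _j : Fin k, C4 * n * r := sum_le_sum fun j _ => H4 n a x0 (p.2 j) L p.1
        _ = _ := by rw [sum_const, card_univ, Fintype.card_fin, nsmul_eq_mul]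
  have e4' : 0 ≤ mean ψ (fun p => ∑ j, ∫ w, χ (w - x0) ^ 2 *
        (rm θ a w L p.1 ^ 2 * ‖w - p.2 j‖⁻¹)) :=
    er_nonneg ψ _ fun p => sum_nonneg fun j _ => integral_nonneg fun w =>
      mul_nonneg (sq_nonneg _) (mul_nonneg (sq_nonneg _) (inv_nonneg.2 (norm_nonneg _)))
  have hind : ∀ (p : Cfg n k) (j : Fin k), 0 ≤ ∫ w, χ (w - x0) ^ 2 *
      (if ‖w - p.2 j‖ < 1 then ‖w - p.2 j‖⁻¹ else 0) := fun p j =>
    integral_nonneg fun w => mul_nonneg (sq_nonneg _) (by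
      split_ifs
      · exact inv_nonneg.2 (norm_nonneg _)
      · exact le_rfl)
  have e5 : mean ψ (fun p => ∑ j, ∫ w, χ (w - x0) ^ 2 *
        (if ‖w - p.2 j‖ < 1 then ‖w - p.2 j‖⁻¹ else 0)) ≤
      C5 * mean ψ (fun p => 1 + cnt p x0) := by
    rw [← er_mul ψ C5]
    refine er_mono ψ _ _ (fun p => sum_nonneg fun j _ => hind p j) (fun p => ?_) fun σ => hcI' _ σ
    obtain ⟨h1, h2, h3⟩ := er_cnt p x0
    calc _ ≤ ∑ j : Fin k, C5 * (if ‖x0 - p.2 j‖ < 2 then (1 : ℝ) else 0) :=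
          sum_le_sum fun j _ => H5 x0 (p.2 j)
      _ = C5 * ∑ j : Fin k, (if ‖x0 - p.2 j‖ < 2 then (1 : ℝ) else 0) := by rw [mul_sum]
      _ ≤ _ := mul_le_mul_of_nonneg_left (by rw [h3]; linarith) hC5
  have e5' : 0 ≤ mean ψ (fun p => ∑ j, ∫ w, χ (w - x0) ^ 2 *
        (if ‖w - p.2 j‖ < 1 then ‖w - p.2 j‖⁻¹ else 0)) :=
    er_nonneg ψ _ fun p => sum_nonneg fun j _ => hind p j
  have f1 : E * mean ψ (fun p => ∫ w, χ (w - x0) ^ 2 * rm θ a w L p.1 ^ 2) ≤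
      |E| * (C3 * n * r * mass ψ) :=
    (mul_le_mul_of_nonneg_right (le_abs_self E) e1').trans
      (mul_le_mul_of_nonneg_left e1 (abs_nonneg E))
  have f3 := mul_le_mul_of_nonneg_left e3 hC1
  have f4 : zp * mean ψ (fun p => ∑ j, ∫ w, χ (w - x0) ^ 2 *
        (rm θ a w L p.1 ^ 2 * ‖w - p.2 j‖⁻¹)) ≤ |zp| * ((k : ℝ) * (C4 * n * r) * mass ψ) :=
    (mul_le_mul_of_nonneg_right (le_abs_self zp) e4').trans
      (mul_le_mul_of_nonneg_left e4 (abs_nonneg zp))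
  have f5 : zp * mean ψ (fun p => ∑ j, ∫ w, χ (w - x0) ^ 2 *
        (if ‖w - p.2 j‖ < 1 then ‖w - p.2 j‖⁻¹ else 0)) ≤
      |zp| * (C5 * mean ψ (fun p => 1 + cnt p x0)) :=
    (mul_le_mul_of_nonneg_right (le_abs_self zp) e5').trans
      (mul_le_mul_of_nonneg_left e5 (abs_nonneg zp))
  rw [mul_sub] at key
  have g1 : |E| * (C3 * n * r * mass ψ) + C3 * n * r *
      mean ψ (fun p => |V z p + phiE z a p (p.1 a)|) +
      |zp| * ((k : ℝ) * (C4 * n * r) * mass ψ) = (|E| * (C3 * n * mass ψ) +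
    C3 * n * mean ψ (fun p => |V z p + phiE z a p (p.1 a)|) +
    |zp| * ((k : ℝ) * (C4 * n) * mass ψ)) * r := by ring
  have g2 : C1 * ((1 + C2) * mean ψ (fun p => 1 + cnt p x0)) +
      |zp| * (C5 * mean ψ (fun p => 1 + cnt p x0)) =
      (C1 * (1 + C2) + |zp| * C5) * mean ψ (fun p => 1 + cnt p x0) := by ring
  linarith

end H6.CM
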