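import Pool.Agent.H6.CM.Part
import Pool.Agent.H6.CM.ChR
import Pool.Agent.H6.CM.Newton

/-! Lower bound of the potential felt by the inserted electron. Electrons `b ≠ a` are at distance at least `r` from `w` where `sl l ≠ 0`: their contribution is `≥ - ‖w - x b‖⁻¹` by `newton_le`; nuclei: `r⁻¹ U (r⁻¹ (R - w)) ≥ ‖w - R‖⁻¹` if `‖w - R‖ ≥ 1`, and `≥ 0` always. Then `part_sum`. -/

open MeasureTheory Finset

namespace H6.CM

private theorem pl_int {χ : E3 → ℝ} (hχ : Bump χ) {n k : ℕ} (z : Fin k → ℝ) (a : Fin n) (w : E3)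
    (r : ℝ) (hr : 0 < r) (p : Cfg n k) :
    ∫ v, chr χ r (v - w) ^ 2 * phiE z a p v =
      ∑ j, z j * (r⁻¹ * U χ (r⁻¹ • (p.2 j - w))) -
        ∑ b ∈ univ.erase a, r⁻¹ * U χ (r⁻¹ • (p.1 b - w)) := by
  have h1 : ∀ v, chr χ r (v - w) ^ 2 * phiE z a p v =
      ∑ j, z j * (chr χ r (v - w) ^ 2 * ‖v - p.2 j‖⁻¹) -
        ∑ b ∈ univ.erase a, chr χ r (v - w) ^ 2 * ‖v - p.1 b‖⁻¹ := by
    intro v
    rw [phiE, mul_sub, mul_sum, mul_sum]
    congr 1
    apply sum_congr rfl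
    intro j _
    ring
  simp only [h1]
  rw [integral_sub (integrable_finsetSum _ fun j _ => (chr_pot_int hχ r hr w (p.2 j)).const_mul _)
    (integrable_finsetSum _ fun b _ => chr_pot_int hχ r hr w (p.1 b)),
    integral_finsetSum _ (fun j _ => (chr_pot_int hχ r hr w (p.2 j)).const_mul _),
    integral_finsetSum _ (fun b _ => chr_pot_int hχ r hr w (p.1 b))]
  congr 1
  · apply sum_congr rfl
    intro j _
    rw [integral_const_mul, chr_pot hχ r hr]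
  · apply sum_congr rfl
    intro b _
    rw [chr_pot hχ r hr]

theorem pot_low {θ : E3 → ℝ} (h : Cut θ) {χ : E3 → ℝ} (hχ : Bump χ) {n k : ℕ}
    (z : Fin k → ℝ) (zp : ℝ) (hz : ∀ j, 0 ≤ z j ∧ z j ≤ zp) (a : Fin n) (w : E3) (L : ℕ)
    (p : Cfg n k) :
    phiE z a p w - rm θ a w L p.1 ^ 2 * (zp * ∑ j, ‖w - p.2 j‖⁻¹) -
        zp * ∑ j, (if ‖w - p.2 j‖ < 1 then ‖w - p.2 j‖⁻¹ else 0) ≤
      ∑ l ∈ range (L + 1), sl θ a w l p.1 ^ 2 *
        ∫ v, chr χ (((2 : ℝ) ^ (l + 1))⁻¹) (v - w) ^ 2 * phiE z a p v := by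
  obtain ⟨I, hI⟩ : ∃ I : Fin k → ℝ, I = fun j => if ‖w - p.2 j‖ < 1 then ‖w - p.2 j‖⁻¹ else 0 :=
    ⟨_, rfl⟩
  have hI0 : ∀ j, 0 ≤ I j := by
    intro j
    rw [hI]
    dsimp only
    split_ifs
    · positivity
    · exact le_rfl
  have hIs : ∑ j, (if ‖w - p.2 j‖ < 1 then ‖w - p.2 j‖⁻¹ else 0) = ∑ j, I j := by rw [hI]
  rw [hIs]
  obtain ⟨R, hR⟩ : ∃ R : ℝ, R = ∑ j, z j * (‖w - p.2 j‖⁻¹ - I j) -
      ∑ b ∈ univ.erase a, ‖w - p.1 b‖⁻¹ := ⟨_, rfl⟩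
  have key : ∀ l ∈ range (L + 1), sl θ a w l p.1 ^ 2 * R ≤ sl θ a w l p.1 ^ 2 *
        ∫ v, chr χ (((2 : ℝ) ^ (l + 1))⁻¹) (v - w) ^ 2 * phiE z a p v := by
    intro l _
    obtain ⟨r, hr⟩ : ∃ r : ℝ, r = ((2 : ℝ) ^ (l + 1))⁻¹ := ⟨_, rfl⟩
    have hr0 : 0 < r := by rw [hr]; positivity
    have hr1 : r ≤ 1 := by
      rw [hr]
      exact inv_le_one_of_one_le₀ (one_le_pow₀ (by norm_num))
    rw [← hr, pl_int hχ z a w r hr0 p]
    by_cases hs : sl θ a w l p.1 = 0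
    · rw [hs]
      simp
    · apply mul_le_mul_of_nonneg_left _ (sq_nonneg _)
      rw [hR]
      apply sub_le_sub
      · apply sum_le_sum
        intro j _
        apply mul_le_mul_of_nonneg_left _ (hz j).1
        rw [hI]
        dsimp only
        split_ifs with h1
        · rw [sub_self]
          exact mul_nonneg (by positivity) (U_nonneg χ _)
        · push Not at h1
          have h2 : ‖r⁻¹ • (p.2 j - w)‖ = r⁻¹ * ‖w - p.2 j‖ := by
            rw [norm_smul, Real.norm_of_nonneg (by positivity), norm_sub_rev]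
          have h3 : 1 ≤ r⁻¹ := (one_le_inv₀ hr0).2 hr1
          rw [newton_out hχ _ (by rw [h2]; nlinarith), h2, sub_zero, mul_inv, inv_inv,
            ← mul_assoc, inv_mul_cancel₀ hr0.ne', one_mul]
      · apply sum_le_sum
        intro b hb
        have h4 := sl_far h a w l p.1 hs b (ne_of_mem_erase hb)
        rw [← hr] at h4
        have h5 : p.1 b - w ≠ 0 := by
          intro h0
          rw [h0, norm_zero] at h4
          linarith
        have h6 : r⁻¹ • (p.1 b - w) ≠ 0 := smul_ne_zero (inv_ne_zero hr0.ne') h5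
        have h7 := newton_le hχ _ h6
        rw [norm_smul, Real.norm_of_nonneg (by positivity), norm_sub_rev, mul_inv, inv_inv] at h7
        calc r⁻¹ * U χ (r⁻¹ • (p.1 b - w)) ≤ r⁻¹ * (r * ‖w - p.1 b‖⁻¹) :=
              mul_le_mul_of_nonneg_left h7 (by positivity)
          _ = ‖w - p.1 b‖⁻¹ := by
              rw [← mul_assoc, inv_mul_cancel₀ hr0.ne', one_mul]
  refine le_trans ?_ (sum_le_sum key)
  rw [← sum_mul]
  have hps := part_sum h a w L p.1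
  obtain ⟨m, hm⟩ : ∃ m : ℝ, m = rm θ a w L p.1 ^ 2 := ⟨_, rfl⟩
  have hm0 : 0 ≤ m := by rw [hm]; positivity
  rw [← hm] at hps ⊢
  have hs1 : ∑ l ∈ range (L + 1), sl θ a w l p.1 ^ 2 = 1 - m := by linarith
  have hm1 : 0 ≤ 1 - m := by
    rw [← hs1]
    exact sum_nonneg fun l _ => sq_nonneg _
  rw [hs1]
  have hphi : phiE z a p w = ∑ j, z j * ‖w - p.2 j‖⁻¹ - ∑ b ∈ univ.erase a, ‖w - p.1 b‖⁻¹ := rfl
  have hB0 : 0 ≤ ∑ b ∈ univ.erase a, ‖w - p.1 b‖⁻¹ := sum_nonneg fun b _ => by positivity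
  have hA : ∑ j, z j * ‖w - p.2 j‖⁻¹ ≤ zp * ∑ j, ‖w - p.2 j‖⁻¹ := by
    rw [mul_sum]
    exact sum_le_sum fun j _ => mul_le_mul_of_nonneg_right (hz j).2 (by positivity)
  have hC : ∑ j, z j * I j ≤ zp * ∑ j, I j := by
    rw [mul_sum]
    exact sum_le_sum fun j _ => mul_le_mul_of_nonneg_right (hz j).2 (hI0 j)
  have hC0 : 0 ≤ ∑ j, z j * I j := sum_nonneg fun j _ => mul_nonneg (hz j).1 (hI0 j)
  have hR2 : R = phiE z a p w - ∑ j, z j * I j := by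
    rw [hR, hphi]
    simp only [mul_sub, sum_sub_distrib]
    ring
  rw [hR2]
  have h8 : m * phiE z a p w ≤ m * (zp * ∑ j, ‖w - p.2 j‖⁻¹) := by
    apply mul_le_mul_of_nonneg_left _ hm0
    rw [hphi]
    linarith
  nlinarith [mul_nonneg hm0 hC0]

end H6.CM
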