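import Pool.Agent.H6.CM.SumEll
import Pool.Agent.H6.CM.PotLow
import Pool.Agent.H6.CM.WInt
import Pool.Agent.H6.CM.PhiS

/-! Multiply `sum_ell` and `pot_low` by `χ (w - x0) ^ 2`, integrate over `w` and exchange the integrals over `w` and `p` (everything is integrable on the product: `int_pe`, `int_pn`). Where `χ (w - x0) ≠ 0` the closed unit ball around `w` lies in `Λ`. -/

open MeasureTheory Finset

namespace H6.CM

/-- integrability of `F` against `‖ψ‖ ^ 2` -/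
private def IM {q n k : ℕ} (ψ : (Fin n → Fin q) → Cfg n k → ℂ) (F : Cfg n k → ℝ) : Prop :=
  ∀ σ, Integrable (fun p => F p * ‖ψ σ p‖ ^ 2)

/-- integrability on the product -/
private def IP {q n k : ℕ} (ψ : (Fin n → Fin q) → Cfg n k → ℂ) (c : E3 → ℝ)
    (F : E3 → Cfg n k → ℝ) : Prop :=
  ∀ σ, Integrable (fun u : Cfg n k × E3 => c u.2 * F u.2 u.1 * ‖ψ σ u.1‖ ^ 2)

section lin

variable {q n k : ℕ} {ψ : (Fin n → Fin q) → Cfg n k → ℂ}

private theorem mean_add {F G : Cfg n k → ℝ} (hF : IM ψ F) (hG : IM ψ G) :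
    mean ψ (fun p => F p + G p) = mean ψ F + mean ψ G := by
  unfold mean
  rw [← sum_add_distrib]
  refine sum_congr rfl fun σ _ => ?_
  rw [← integral_add (hF σ) (hG σ)]
  congr 1
  funext p
  ring

private theorem mean_sub {F G : Cfg n k → ℝ} (hF : IM ψ F) (hG : IM ψ G) :
    mean ψ (fun p => F p - G p) = mean ψ F - mean ψ G := by
  unfold mean
  rw [← sum_sub_distrib]
  refine sum_congr rfl fun σ _ => ?_
  rw [← integral_sub (hF σ) (hG σ)]
  congr 1
  funext p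
  ring

private theorem mean_cmul (c : ℝ) (F : Cfg n k → ℝ) :
    mean ψ (fun p => c * F p) = c * mean ψ F := by
  unfold mean
  rw [mul_sum]
  refine sum_congr rfl fun σ _ => ?_
  rw [← integral_const_mul]
  congr 1
  funext p
  ring

private theorem mean_sum {ι : Type} (s : Finset ι) {F : ι → Cfg n k → ℝ}
    (hF : ∀ j, IM ψ (F j)) : mean ψ (fun p => ∑ j ∈ s, F j p) = ∑ j ∈ s, mean ψ (F j) := by
  unfold mean
  rw [sum_comm]
  refine sum_congr rfl fun σ _ => ?_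
  rw [← integral_finsetSum _ (fun j _ => hF j σ)]
  congr 1
  funext p
  rw [sum_mul]

private theorem mean_mono {F G : Cfg n k → ℝ} (hF : IM ψ F) (hG : IM ψ G)
    (h : ∀ p, F p ≤ G p) : mean ψ F ≤ mean ψ G := by
  unfold mean
  refine sum_le_sum fun σ _ => integral_mono (hF σ) (hG σ) fun p => ?_
  exact mul_le_mul_of_nonneg_right (h p) (by positivity)

private theorem IM_sub {F G : Cfg n k → ℝ} (hF : IM ψ F) (hG : IM ψ G) :
    IM ψ (fun p => F p - G p) := by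
  intro σ
  refine ((hF σ).sub (hG σ)).congr (Filter.Eventually.of_forall fun p => ?_)
  simp only [Pi.sub_apply]
  ring

private theorem IM_add {F G : Cfg n k → ℝ} (hF : IM ψ F) (hG : IM ψ G) :
    IM ψ (fun p => F p + G p) := by
  intro σ
  refine ((hF σ).add (hG σ)).congr (Filter.Eventually.of_forall fun p => ?_)
  simp only [Pi.add_apply]
  ring

private theorem IM_cmul (c : ℝ) {F : Cfg n k → ℝ} (hF : IM ψ F) : IM ψ (fun p => c * F p) := by
  intro σ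
  refine ((hF σ).const_mul c).congr (Filter.Eventually.of_forall fun p => ?_)
  simp only
  ring

private theorem IM_sum {ι : Type} (s : Finset ι) {F : ι → Cfg n k → ℝ}
    (hF : ∀ j, IM ψ (F j)) : IM ψ (fun p => ∑ j ∈ s, F j p) := by
  intro σ
  refine (integrable_finsetSum s fun j _ => hF j σ).congr
    (Filter.Eventually.of_forall fun p => ?_)
  simp only [sum_mul]

/-- Fubini -/
private theorem mean_fub {c : E3 → ℝ} {F : E3 → Cfg n k → ℝ} (hF : IP ψ c F) :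
    Integrable (fun w => c w * mean ψ (F w)) ∧ IM ψ (fun p => ∫ w, c w * F w p) ∧
    ∫ w, c w * mean ψ (F w) = mean ψ (fun p => ∫ w, c w * F w p) := by
  have e1 : ∀ w, c w * mean ψ (F w) = ∑ σ, ∫ p, c w * F w p * ‖ψ σ p‖ ^ 2 := by
    intro w
    unfold mean
    rw [mul_sum]
    refine sum_congr rfl fun σ _ => ?_
    rw [← integral_const_mul]
    congr 1
    funext p
    ring
  have e2 : ∀ σ, Integrable (fun w => ∫ p, c w * F w p * ‖ψ σ p‖ ^ 2) := fun σ =>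
    (hF σ).integral_prod_right
  have e3 : ∀ σ, (fun p => (∫ w, c w * F w p) * ‖ψ σ p‖ ^ 2) =
      fun p => ∫ w, c w * F w p * ‖ψ σ p‖ ^ 2 := by
    intro σ
    funext p
    rw [integral_mul_const]
  refine ⟨?_, ?_, ?_⟩
  · simp only [e1]
    exact integrable_finsetSum _ fun σ _ => e2 σ
  · intro σ
    rw [e3 σ]
    exact (hF σ).integral_prod_left
  · simp only [e1]
    rw [integral_finsetSum _ fun σ _ => e2 σ]
    unfold mean
    refine sum_congr rfl fun σ _ => ?_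
    rw [e3 σ]
    exact (integral_integral_swap (f := fun p w => c w * F w p * ‖ψ σ p‖ ^ 2) (hF σ)).symm

end lin

private theorem chr_bump {χ : E3 → ℝ} (hχ : Bump χ) {r : ℝ} (hr : 0 < r) (hr1 : r ≤ 1) :
    Bump (chr χ r) := by
  refine ⟨chr_smooth hχ r hr, ?_, ?_, chr_norm hχ r hr⟩
  · intro v hv
    have := chr_supp hχ r hr v hv
    linarith
  · intro u v huv
    unfold chr
    congr 1
    apply hχ.radial
    rw [norm_smul, norm_smul, huv]

section meas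

variable {q n k : ℕ} {Λ : Set E3} {ψ : (Fin n → Fin q) → Cfg n k → ℂ} (hψ : St q n k Λ ψ)
  {θ : E3 → ℝ} (h : Cut θ) {χ : E3 → ℝ} (hχ : Bump χ) (a : Fin n) (x0 : E3) (L : ℕ)

include hψ in
private theorem psi2_ok (σ : Fin n → Fin q) : Continuous (fun p => ‖ψ σ p‖ ^ 2) ∧
    HasCompactSupport (fun p => ‖ψ σ p‖ ^ 2) :=
  ⟨(hψ.smooth σ).continuous.norm.pow 2,
    (hψ.cpt σ).comp_left (g := fun x : ℂ => ‖x‖ ^ 2) (by simp)⟩

include hχ in
private theorem cw_cont : Continuous (fun w => χ (w - x0) ^ 2) :=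
  (hχ.smooth.continuous.comp (continuous_id.sub continuous_const)).pow 2

include hχ in
private theorem cw_zero (w : E3) (hw : w ∉ Metric.closedBall x0 (1 / 2)) : χ (w - x0) = 0 := by
  by_contra h0
  apply hw
  rw [mem_closedBall_iff_norm]
  exact (hχ.supp _ h0).le

include hψ hχ in
private theorem g_ok (σ : Fin n → Fin q) :
    Continuous (fun u : Cfg n k × E3 => χ (u.2 - x0) ^ 2 * ‖ψ σ u.1‖ ^ 2) ∧
    HasCompactSupport (fun u : Cfg n k × E3 => χ (u.2 - x0) ^ 2 * ‖ψ σ u.1‖ ^ 2) := by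
  constructor
  · exact ((cw_cont hχ x0).comp continuous_snd).mul ((psi2_ok hψ σ).1.comp continuous_fst)
  · refine HasCompactSupport.intro ((hψ.cpt σ).isCompact.prod
      (isCompact_closedBall x0 (1 / 2))) ?_
    intro u hu
    rw [Set.mem_prod, not_and_or] at hu
    rcases hu with hu | hu
    · have h3 : ψ σ u.1 = 0 := image_eq_zero_of_notMem_tsupport hu
      rw [h3]
      simp
    · rw [cw_zero hχ x0 _ hu]
      simp

include hχ in
private theorem cw_int : Integrable (fun w => χ (w - x0) ^ 2) := by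
  refine (cw_cont hχ x0).integrable_of_hasCompactSupport ?_
  refine HasCompactSupport.intro (isCompact_closedBall x0 (1 / 2)) ?_
  intro w hw
  rw [cw_zero hχ x0 w hw]
  simp

include hψ hχ in
private theorem g_int (σ : Fin n → Fin q) :
    Integrable (fun u : Cfg n k × E3 => χ (u.2 - x0) ^ 2 * ‖ψ σ u.1‖ ^ 2) := by
  have h1 : Integrable (fun p => ‖ψ σ p‖ ^ 2) :=
    (psi2_ok hψ σ).1.integrable_of_hasCompactSupport (psi2_ok hψ σ).2
  refine (h1.mul_prod (cw_int hχ x0)).congr (Filter.Eventually.of_forall fun u => ?_)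
  exact mul_comm _ _

include h in
private theorem rm_cont2 : Continuous (fun u : Cfg n k × E3 => rm θ a u.2 L u.1.1 ^ 2) := by
  have h1 : Continuous (fun u : Cfg n k × E3 => ((u.2, u.1.1) : E3 × (Fin n → E3))) :=
    continuous_snd.prodMk (continuous_fst.comp continuous_fst)
  exact ((rm_joint h a L).comp h1).pow 2

private theorem rm_le (w : E3) (x : Fin n → E3) : rm θ a w L x ^ 2 ≤ 1 := by
  unfold rm
  exact Real.cos_sq_le_one _

include hψ h hχ in
private theorem gr_ok (σ : Fin n → Fin q) :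
    Continuous (fun u : Cfg n k × E3 => χ (u.2 - x0) ^ 2 * rm θ a u.2 L u.1.1 ^ 2 *
      ‖ψ σ u.1‖ ^ 2) ∧
    HasCompactSupport (fun u : Cfg n k × E3 => χ (u.2 - x0) ^ 2 * rm θ a u.2 L u.1.1 ^ 2 *
      ‖ψ σ u.1‖ ^ 2) := by
  have e : (fun u : Cfg n k × E3 => χ (u.2 - x0) ^ 2 * rm θ a u.2 L u.1.1 ^ 2 *
      ‖ψ σ u.1‖ ^ 2) = fun u : Cfg n k × E3 => rm θ a u.2 L u.1.1 ^ 2 *
        (χ (u.2 - x0) ^ 2 * ‖ψ σ u.1‖ ^ 2) := by
    funext u
    ring
  rw [e]
  exact ⟨(rm_cont2 h a L).mul (g_ok hψ hχ x0 σ).1, (g_ok hψ hχ x0 σ).2.mul_left⟩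

include hψ h hχ in
private theorem IP0 : IP ψ (fun w => χ (w - x0) ^ 2) (fun w p => rm θ a w L p.1 ^ 2) := by
  intro σ
  have h3 := (g_int hψ hχ x0 σ).bdd_mul (c := 1)
    (f := fun u : Cfg n k × E3 => rm θ a u.2 L u.1.1 ^ 2)
    (rm_cont2 h a L).aestronglyMeasurable (Filter.Eventually.of_forall fun u => by
      rw [Real.norm_eq_abs, abs_of_nonneg (sq_nonneg _)]
      exact rm_le a L _ _)
  refine h3.congr (Filter.Eventually.of_forall fun u => ?_)
  simp only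
  ring

include h hχ in
private theorem IP1 (Φ : Cfg n k → ℝ) (hΦ : IM ψ Φ) : IP ψ (fun w => χ (w - x0) ^ 2)
    (fun w p => rm θ a w L p.1 ^ 2 * |Φ p|) := by
  intro σ
  have h1 : Integrable (fun w => χ (w - x0) ^ 2) := cw_int hχ x0
  have h2 : Integrable (fun u : Cfg n k × E3 => |Φ u.1 * ‖ψ σ u.1‖ ^ 2| * χ (u.2 - x0) ^ 2) :=
    (hΦ σ).abs.mul_prod h1
  have h3 := h2.bdd_mul (c := 1) (f := fun u : Cfg n k × E3 => rm θ a u.2 L u.1.1 ^ 2)
    (rm_cont2 h a L).aestronglyMeasurable (Filter.Eventually.of_forall fun u => by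
      rw [Real.norm_eq_abs, abs_of_nonneg (sq_nonneg _)]
      exact rm_le a L _ _)
  refine h3.congr (Filter.Eventually.of_forall fun u => ?_)
  have h4 : |Φ u.1 * ‖ψ σ u.1‖ ^ 2| = |Φ u.1| * ‖ψ σ u.1‖ ^ 2 := by
    rw [abs_mul, abs_of_nonneg (show 0 ≤ ‖ψ σ u.1‖ ^ 2 by positivity)]
  simp only [h4]
  ring

private theorem Dl_nonneg (w : E3) (x : Fin n → E3) : 0 ≤ Dl a w L x := by
  unfold Dl
  refine sum_nonneg fun b _ => sum_nonneg fun l _ => ?_
  split_ifs <;> positivity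

private theorem Dl_bound : ∃ M : ℝ, ∀ (w : E3) (x : Fin n → E3), Dl a w L x ≤ M := by
  refine ⟨∑ b ∈ univ.erase a, ∑ l ∈ range (L + 1), (4 : ℝ) ^ l, fun w x => ?_⟩
  unfold Dl
  refine sum_le_sum fun b _ => sum_le_sum fun l _ => ?_
  split_ifs
  · rw [mul_one]
  · rw [mul_zero]
    positivity

private theorem Dl_meas : Measurable (fun u : Cfg n k × E3 => Dl a u.2 L u.1.1) := by
  unfold Dl
  refine Finset.measurable_sum _ fun b _ => Finset.measurable_sum _ fun l _ => ?_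
  refine Measurable.const_mul ?_ _
  refine Measurable.ite ?_ measurable_const measurable_const
  have hc : Continuous (fun u : Cfg n k × E3 => ‖u.1.1 b - u.2‖) :=
    (((continuous_apply b).comp (continuous_fst.comp continuous_fst)).sub continuous_snd).norm
  exact (isClosed_le hc continuous_const).measurableSet

include hψ hχ in
private theorem IP2 : IP ψ (fun w => χ (w - x0) ^ 2) (fun w p => 1 + Dl a w L p.1) := by
  intro σ
  obtain ⟨M, hM⟩ := Dl_bound a L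
  have h3 := (g_int hψ hχ x0 σ).bdd_mul (c := 1 + M)
    (f := fun u : Cfg n k × E3 => 1 + Dl a u.2 L u.1.1)
    ((Dl_meas a L).const_add 1).aestronglyMeasurable (Filter.Eventually.of_forall fun u => by
      have h4 := Dl_nonneg a L u.2 u.1.1
      rw [Real.norm_eq_abs, abs_of_nonneg (by linarith)]
      linarith [hM u.2 u.1.1])
  refine h3.congr (Filter.Eventually.of_forall fun u => ?_)
  simp only
  ring

include hψ h hχ in
private theorem IP3 (j : Fin k) : IP ψ (fun w => χ (w - x0) ^ 2)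
    (fun w p => rm θ a w L p.1 ^ 2 * ‖w - p.2 j‖⁻¹) := by
  intro σ
  refine (int_pn _ (gr_ok hψ h hχ a x0 L σ).1 (gr_ok hψ h hχ a x0 L σ).2 j).congr
    (Filter.Eventually.of_forall fun u => ?_)
  simp only
  ring

include hψ hχ in
private theorem IP4 (j : Fin k) : IP ψ (fun w => χ (w - x0) ^ 2)
    (fun w p => if ‖w - p.2 j‖ < 1 then ‖w - p.2 j‖⁻¹ else 0) := by
  intro σ
  have h1 := int_pn _ (g_ok hψ hχ x0 σ).1 (g_ok hψ hχ x0 σ).2 j
  have hc : Continuous (fun u : Cfg n k × E3 => ‖u.2 - u.1.2 j‖) :=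
    (continuous_snd.sub ((continuous_apply j).comp (continuous_snd.comp continuous_fst))).norm
  have hm : MeasurableSet {u : Cfg n k × E3 | ‖u.2 - u.1.2 j‖ < 1} :=
    (isOpen_lt hc continuous_const).measurableSet
  refine (h1.indicator hm).congr (Filter.Eventually.of_forall fun u => ?_)
  by_cases hu : ‖u.2 - u.1.2 j‖ < 1
  · rw [Set.indicator_of_mem (show u ∈ {u : Cfg n k × E3 | ‖u.2 - u.1.2 j‖ < 1} from hu)]
    simp only [if_pos hu]
    ring
  · rw [Set.indicator_of_notMem (show u ∉ {u : Cfg n k × E3 | ‖u.2 - u.1.2 j‖ < 1} from hu)]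
    simp only [if_neg hu]
    ring

include hψ hχ in
private theorem IP5 (z : Fin k → ℝ) : IP ψ (fun w => χ (w - x0) ^ 2)
    (fun w p => phiE z a p w) := by
  intro σ
  have h1 : Integrable (fun u : Cfg n k × E3 =>
      ∑ j, z j * (‖u.2 - u.1.2 j‖⁻¹ * (χ (u.2 - x0) ^ 2 * ‖ψ σ u.1‖ ^ 2)) -
      ∑ b ∈ univ.erase a, ‖u.2 - u.1.1 b‖⁻¹ * (χ (u.2 - x0) ^ 2 * ‖ψ σ u.1‖ ^ 2)) := by
    refine Integrable.sub ?_ ?_
    · exact integrable_finsetSum _ fun j _ =>
        (int_pn _ (g_ok hψ hχ x0 σ).1 (g_ok hψ hχ x0 σ).2 j).const_mul (z j)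
    · exact integrable_finsetSum _ fun b _ =>
        int_pe _ (g_ok hψ hχ x0 σ).1 (g_ok hψ hχ x0 σ).2 b
  refine h1.congr (Filter.Eventually.of_forall fun u => ?_)
  simp only [phiE]
  rw [mul_sub, sub_mul, mul_sum, mul_sum, sum_mul, sum_mul]
  congr 1
  · exact sum_congr rfl fun j _ => by ring
  · exact sum_congr rfl fun b _ => by ring

include hψ h in
private theorem hr_ok (w : E3) (σ : Fin n → Fin q) :
    Continuous (fun p : Cfg n k => rm θ a w L p.1 ^ 2 * ‖ψ σ p‖ ^ 2) ∧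
    HasCompactSupport (fun p : Cfg n k => rm θ a w L p.1 ^ 2 * ‖ψ σ p‖ ^ 2) :=
  ⟨(((rm_smooth h a w L).continuous.comp continuous_fst).pow 2).mul (psi2_ok hψ σ).1,
    (psi2_ok hψ σ).2.mul_left⟩

include hψ h in
private theorem IM3 (w : E3) (j : Fin k) :
    IM ψ (fun p => rm θ a w L p.1 ^ 2 * ‖w - p.2 j‖⁻¹) := by
  intro σ
  refine (int_wn _ (hr_ok hψ h a L w σ).1 (hr_ok hψ h a L w σ).2 w j).congr
    (Filter.Eventually.of_forall fun p => ?_)
  simp only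
  ring

include hψ in
private theorem IM4 (w : E3) (j : Fin k) :
    IM ψ (fun p => if ‖w - p.2 j‖ < 1 then ‖w - p.2 j‖⁻¹ else 0) := by
  intro σ
  have h1 := int_wn _ (psi2_ok hψ σ).1 (psi2_ok hψ σ).2 w j
  have hc : Continuous (fun p : Cfg n k => ‖w - p.2 j‖) :=
    (continuous_const.sub ((continuous_apply j).comp continuous_snd)).norm
  have hm : MeasurableSet {p : Cfg n k | ‖w - p.2 j‖ < 1} :=
    (isOpen_lt hc continuous_const).measurableSet
  refine (h1.indicator hm).congr (Filter.Eventually.of_forall fun p => ?_)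
  by_cases hu : ‖w - p.2 j‖ < 1
  · rw [Set.indicator_of_mem (show p ∈ {p : Cfg n k | ‖w - p.2 j‖ < 1} from hu)]
    simp only [if_pos hu]
  · rw [Set.indicator_of_notMem (show p ∉ {p : Cfg n k | ‖w - p.2 j‖ < 1} from hu)]
    simp only [if_neg hu]
    ring

include hψ in
private theorem IM5 (z : Fin k → ℝ) (w : E3) : IM ψ (fun p => phiE z a p w) := by
  intro σ
  have h1 : Integrable (fun p : Cfg n k =>
      ∑ j, z j * (‖w - p.2 j‖⁻¹ * ‖ψ σ p‖ ^ 2) -
      ∑ b ∈ univ.erase a, ‖w - p.1 b‖⁻¹ * ‖ψ σ p‖ ^ 2) := by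
    refine Integrable.sub ?_ ?_
    · exact integrable_finsetSum _ fun j _ =>
        (int_wn _ (psi2_ok hψ σ).1 (psi2_ok hψ σ).2 w j).const_mul (z j)
    · exact integrable_finsetSum _ fun b _ =>
        int_we _ (psi2_ok hψ σ).1 (psi2_ok hψ σ).2 w b
  refine h1.congr (Filter.Eventually.of_forall fun p => ?_)
  simp only [phiE]
  rw [sub_mul, sum_mul, sum_mul]
  congr 1
  exact sum_congr rfl fun j _ => by ring

include hψ h hχ in
private theorem IMS (z : Fin k → ℝ) (w : E3) : IM ψ (fun p => ∑ l ∈ range (L + 1),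
    sl θ a w l p.1 ^ 2 * ∫ v, chr χ (((2 : ℝ) ^ (l + 1))⁻¹) (v - w) ^ 2 * phiE z a p v) := by
  refine IM_sum _ fun l σ => ?_
  have hr : 0 < ((2 : ℝ) ^ (l + 1))⁻¹ := by positivity
  have hr1 : ((2 : ℝ) ^ (l + 1))⁻¹ ≤ 1 := inv_le_one_of_one_le₀ (one_le_pow₀ (by norm_num))
  have h1 := (int_mean hψ z σ (chr_bump hχ hr hr1)).2.2.2.2.2.1 w a
  have h3 := h1.bdd_mul (c := 1) (f := fun p : Cfg n k => sl θ a w l p.1 ^ 2)
    (((sl_smooth h a w l).continuous.comp continuous_fst).pow 2).aestronglyMeasurable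
    (Filter.Eventually.of_forall fun p => by
      rw [Real.norm_eq_abs, abs_of_nonneg (sq_nonneg _)]
      have h4 := part_sum h a w l p.1
      have h5 : sl θ a w l p.1 ^ 2 ≤ ∑ l' ∈ range (l + 1), sl θ a w l' p.1 ^ 2 :=
        single_le_sum (f := fun l' => sl θ a w l' p.1 ^ 2) (fun i _ => sq_nonneg _)
          (self_mem_range_succ l)
      nlinarith [sq_nonneg (rm θ a w l p.1)])
  refine h3.congr (Filter.Eventually.of_forall fun p => ?_)
  simp only
  ring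

end meas

private theorem combo {f0 f1 f2 f3 f4 f5 f6 f7 : E3 → ℝ} (h0 : Integrable f0)
    (h1 : Integrable f1) (h2 : Integrable f2) (h3 : Integrable f3) (h4 : Integrable f4)
    (h5 : Integrable f5) (h6 : Integrable f6) (h7 : Integrable f7)
    (key : ∀ w, f0 w - f1 w ≤ f2 w + f3 w + f4 w + f5 w + f6 w - f7 w) :
    (∫ w, f0 w) - (∫ w, f1 w) ≤ (∫ w, f2 w) + (∫ w, f3 w) + (∫ w, f4 w) + (∫ w, f5 w) +
      (∫ w, f6 w) - (∫ w, f7 w) := by
  have e : (∫ w, f0 w) + (∫ w, f7 w) ≤ (∫ w, f2 w) + (∫ w, f3 w) + (∫ w, f4 w) +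
      (∫ w, f5 w) + (∫ w, f6 w) + (∫ w, f1 w) := by
    rw [← integral_add h0 h7, ← integral_add h2 h3]
    have g3 : Integrable (fun w => f2 w + f3 w) := h2.add h3
    rw [← integral_add g3 h4]
    have g4 : Integrable (fun w => f2 w + f3 w + f4 w) := g3.add h4
    rw [← integral_add g4 h5]
    have g5 : Integrable (fun w => f2 w + f3 w + f4 w + f5 w) := g4.add h5
    rw [← integral_add g5 h6]
    have g6 : Integrable (fun w => f2 w + f3 w + f4 w + f5 w + f6 w) := g5.add h6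
    rw [← integral_add g6 h1]
    have g7 : Integrable (fun w => f2 w + f3 w + f4 w + f5 w + f6 w + f1 w) := g6.add h1
    have g8 : Integrable (fun w => f0 w + f7 w) := h0.add h7
    refine integral_mono g8 g7 fun w => ?_
    have := key w
    simp only
    linarith
  linarith

private theorem pointwise {θ : E3 → ℝ} (h : Cut θ) {χ : E3 → ℝ} (hχ : Bump χ) : ∃ C : ℝ, 0 ≤ C ∧
    ∀ (q n k : ℕ) (Λ : Set E3) (z κ : Fin k → ℝ) (zp : ℝ) (_ : ∀ j, 0 ≤ z j ∧ z j ≤ zp)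
    (_ : ∀ j, 0 ≤ κ j) (E : ℝ) (_ : LB q n k Λ z κ E)
    (ψ : (Fin n → Fin q) → Cfg n k → ℂ) (_ : St q n k Λ ψ) (a : Fin n)
    (w : E3) (_ : Metric.closedBall w 1 ⊆ Λ) (L : ℕ),
    E * (mass ψ - mean ψ (fun p => rm θ a w L p.1 ^ 2)) ≤
      energy z κ ψ - kE ψ a + mean ψ (fun p => phiE z a p (p.1 a)) +
      mean ψ (fun p => rm θ a w L p.1 ^ 2 * |V z p + phiE z a p (p.1 a)|) +
      C * mean ψ (fun p => 1 + Dl a w L p.1) +
      zp * ∑ j, mean ψ (fun p => rm θ a w L p.1 ^ 2 * ‖w - p.2 j‖⁻¹) +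
      zp * ∑ j, mean ψ (fun p => if ‖w - p.2 j‖ < 1 then ‖w - p.2 j‖⁻¹ else 0) -
      mean ψ (fun p => phiE z a p w) := by
  obtain ⟨C, hC, H⟩ := sum_ell h hχ
  refine ⟨C, hC, ?_⟩
  intro q n k Λ z κ zp hz hκ E hE ψ hψ a w hw L
  have h1 := H q n k Λ z κ hκ E hE ψ hψ a w hw L
  have h2 : mean ψ (fun p => (phiE z a p w -
      zp * ∑ j, rm θ a w L p.1 ^ 2 * ‖w - p.2 j‖⁻¹) -
      zp * ∑ j, (if ‖w - p.2 j‖ < 1 then ‖w - p.2 j‖⁻¹ else 0)) ≤
      mean ψ (fun p => ∑ l ∈ range (L + 1), sl θ a w l p.1 ^ 2 *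
        ∫ v, chr χ (((2 : ℝ) ^ (l + 1))⁻¹) (v - w) ^ 2 * phiE z a p v) := by
    refine mean_mono (IM_sub (IM_sub (IM5 hψ a z w) (IM_cmul _ (IM_sum _ fun j =>
      IM3 hψ h a L w j))) (IM_cmul _ (IM_sum _ fun j => IM4 hψ w j))) (IMS hψ h hχ a L z w) ?_
    intro p
    refine le_trans (le_of_eq ?_) (pot_low h hχ z zp hz a w L p)
    rw [← mul_sum]
    ring
  rw [mean_sub (IM_sub (IM5 hψ a z w) (IM_cmul _ (IM_sum _ fun j =>
      IM3 hψ h a L w j))) (IM_cmul _ (IM_sum _ fun j => IM4 hψ w j)),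
    mean_sub (IM5 hψ a z w) (IM_cmul _ (IM_sum _ fun j => IM3 hψ h a L w j)),
    mean_cmul, mean_cmul, mean_sum _ (fun j => IM3 hψ h a L w j),
    mean_sum _ (fun j => IM4 hψ w j)] at h2
  linarith

theorem erelA {θ : E3 → ℝ} (h : Cut θ) {χ : E3 → ℝ} (hχ : Bump χ) : ∃ C : ℝ, 0 ≤ C ∧
    ∀ (q n k : ℕ) (Λ : Set E3) (z κ : Fin k → ℝ) (zp : ℝ) (_ : ∀ j, 0 ≤ z j ∧ z j ≤ zp)
    (_ : ∀ j, 0 ≤ κ j) (E : ℝ) (_ : LB q n k Λ z κ E)
    (ψ : (Fin n → Fin q) → Cfg n k → ℂ) (_ : St q n k Λ ψ) (a : Fin n)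
    (x0 : E3) (_ : Metric.closedBall x0 2 ⊆ Λ) (L : ℕ),
    E * (mass ψ - mean ψ (fun p => ∫ w, χ (w - x0) ^ 2 * rm θ a w L p.1 ^ 2)) ≤
      energy z κ ψ - kE ψ a + mean ψ (fun p => phiE z a p (p.1 a)) +
      mean ψ (fun p => (∫ w, χ (w - x0) ^ 2 * rm θ a w L p.1 ^ 2) *
        |V z p + phiE z a p (p.1 a)|) +
      C * mean ψ (fun p => 1 + ∫ w, χ (w - x0) ^ 2 * Dl a w L p.1) +
      zp * mean ψ (fun p => ∑ j, ∫ w, χ (w - x0) ^ 2 *
        (rm θ a w L p.1 ^ 2 * ‖w - p.2 j‖⁻¹)) +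
      zp * mean ψ (fun p => ∑ j, ∫ w, χ (w - x0) ^ 2 *
        (if ‖w - p.2 j‖ < 1 then ‖w - p.2 j‖⁻¹ else 0)) -
      mean ψ (fun p => ∫ w, χ (w - x0) ^ 2 * phiE z a p w) := by
  obtain ⟨C, hC, H⟩ := pointwise h hχ
  refine ⟨C, hC, ?_⟩
  intro q n k Λ z κ zp hz hκ E hE ψ hψ a x0 hx0 L
  have hΦ : IM ψ (fun p => V z p + phiE z a p (p.1 a)) := fun σ => by
    have h1 := int_mean hψ z σ hχ
    exact IM_add (F := V z) (G := fun p => phiE z a p (p.1 a))
      (fun σ => (int_mean hψ z σ hχ).1) (fun σ => (int_mean hψ z σ hχ).2.1 a) σ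
  obtain ⟨i0, j0, e0⟩ := mean_fub (IP0 hψ h hχ a x0 L)
  obtain ⟨i1, j1, e1⟩ := mean_fub (IP1 h hχ a x0 L _ hΦ)
  obtain ⟨i2, j2, e2⟩ := mean_fub (IP2 hψ hχ a x0 L)
  have F3 := fun j => mean_fub (IP3 hψ h hχ a x0 L j)
  have F4 := fun j => mean_fub (IP4 hψ hχ x0 j)
  obtain ⟨i5, j5, e5⟩ := mean_fub (IP5 hψ hχ a x0 z)
  have hcw : Integrable (fun w => χ (w - x0) ^ 2) := cw_int hχ x0
  have hc1 : ∫ w, χ (w - x0) ^ 2 = 1 := by
    rw [integral_sub_right_eq_self (fun w => χ w ^ 2) x0]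
    exact hχ.norm
  have key : ∀ w, χ (w - x0) ^ 2 * (E * mass ψ) -
      E * (χ (w - x0) ^ 2 * mean ψ (fun p => rm θ a w L p.1 ^ 2)) ≤
      χ (w - x0) ^ 2 * (energy z κ ψ - kE ψ a + mean ψ (fun p => phiE z a p (p.1 a))) +
      χ (w - x0) ^ 2 * mean ψ (fun p => rm θ a w L p.1 ^ 2 * |V z p + phiE z a p (p.1 a)|) +
      C * (χ (w - x0) ^ 2 * mean ψ (fun p => 1 + Dl a w L p.1)) +
      zp * ∑ j, χ (w - x0) ^ 2 * mean ψ (fun p => rm θ a w L p.1 ^ 2 * ‖w - p.2 j‖⁻¹) +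
      zp * ∑ j, χ (w - x0) ^ 2 *
        mean ψ (fun p => if ‖w - p.2 j‖ < 1 then ‖w - p.2 j‖⁻¹ else 0) -
      χ (w - x0) ^ 2 * mean ψ (fun p => phiE z a p w) := by
    intro w
    by_cases hw : χ (w - x0) = 0
    · simp [hw]
    · have hw1 := hχ.supp _ hw
      have hsub : Metric.closedBall w 1 ⊆ Λ := by
        refine subset_trans ?_ hx0
        intro v hv
        rw [mem_closedBall_iff_norm] at hv ⊢
        calc ‖v - x0‖ = ‖(v - w) + (w - x0)‖ := by congr 1; abel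
          _ ≤ ‖v - w‖ + ‖w - x0‖ := norm_add_le _ _
          _ ≤ 2 := by linarith
      have h1 := H q n k Λ z κ zp hz hκ E hE ψ hψ a w hsub L
      have h2 := mul_le_mul_of_nonneg_left h1 (sq_nonneg (χ (w - x0)))
      rw [← mul_sum, ← mul_sum]
      refine le_trans (le_of_eq ?_) (h2.trans (le_of_eq ?_))
      · ring
      · ring
  have k1 := hcw.mul_const (E * mass ψ)
  have k2 := i0.const_mul E
  have k3 := hcw.mul_const (energy z κ ψ - kE ψ a + mean ψ (fun p => phiE z a p (p.1 a)))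
  have k5 := i2.const_mul C
  have k6 := (integrable_finsetSum (univ : Finset (Fin k)) fun j _ => (F3 j).1).const_mul zp
  have k7 := (integrable_finsetSum (univ : Finset (Fin k)) fun j _ => (F4 j).1).const_mul zp
  have hint := combo k1 k2 k3 i1 k5 k6 k7 i5 key
  have r1 : mean ψ (fun p => ∫ w, χ (w - x0) ^ 2 *
      (rm θ a w L p.1 ^ 2 * |V z p + phiE z a p (p.1 a)|)) =
      mean ψ (fun p => (∫ w, χ (w - x0) ^ 2 * rm θ a w L p.1 ^ 2) *
        |V z p + phiE z a p (p.1 a)|) := by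
    congr 1
    funext p
    rw [← integral_mul_const]
    congr 1
    funext w
    ring
  have r2 : mean ψ (fun p => ∫ w, χ (w - x0) ^ 2 * (1 + Dl a w L p.1)) =
      mean ψ (fun p => 1 + ∫ w, χ (w - x0) ^ 2 * Dl a w L p.1) := by
    obtain ⟨C', -, hC'⟩ := wint_D hχ
    congr 1
    funext p
    have h1 := (hC' n a x0 L p.1).1
    have h2 := integral_add hcw h1
    rw [hc1] at h2
    rw [← h2]
    congr 1
    funext w
    ring
  have r3 : ∑ j, mean ψ (fun p => ∫ w, χ (w - x0) ^ 2 *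
      (rm θ a w L p.1 ^ 2 * ‖w - p.2 j‖⁻¹)) =
      mean ψ (fun p => ∑ j, ∫ w, χ (w - x0) ^ 2 * (rm θ a w L p.1 ^ 2 * ‖w - p.2 j‖⁻¹)) :=
    (mean_sum _ fun j => (F3 j).2.1).symm
  have r4 : ∑ j, mean ψ (fun p => ∫ w, χ (w - x0) ^ 2 *
      (if ‖w - p.2 j‖ < 1 then ‖w - p.2 j‖⁻¹ else 0)) =
      mean ψ (fun p => ∑ j, ∫ w, χ (w - x0) ^ 2 *
        (if ‖w - p.2 j‖ < 1 then ‖w - p.2 j‖⁻¹ else 0)) :=
    (mean_sum _ fun j => (F4 j).2.1).symm
  have s6 : ∫ w, zp * ∑ j, χ (w - x0) ^ 2 * mean ψ (fun p => rm θ a w L p.1 ^ 2 * ‖w - p.2 j‖⁻¹) =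
      zp * mean ψ (fun p => ∑ j, ∫ w, χ (w - x0) ^ 2 *
        (rm θ a w L p.1 ^ 2 * ‖w - p.2 j‖⁻¹)) := by
    rw [integral_const_mul, integral_finsetSum _ fun j _ => (F3 j).1, ← r3]
    congr 1
    exact sum_congr rfl fun j _ => (F3 j).2.2
  have s7 : ∫ w, zp * ∑ j, χ (w - x0) ^ 2 *
      mean ψ (fun p => if ‖w - p.2 j‖ < 1 then ‖w - p.2 j‖⁻¹ else 0) =
      zp * mean ψ (fun p => ∑ j, ∫ w, χ (w - x0) ^ 2 *
        (if ‖w - p.2 j‖ < 1 then ‖w - p.2 j‖⁻¹ else 0)) := by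
    rw [integral_const_mul, integral_finsetSum _ fun j _ => (F4 j).1, ← r4]
    congr 1
    exact sum_congr rfl fun j _ => (F4 j).2.2
  have s3 : ∫ w, χ (w - x0) ^ 2 *
      (energy z κ ψ - kE ψ a + mean ψ (fun p => phiE z a p (p.1 a))) =
      energy z κ ψ - kE ψ a + mean ψ (fun p => phiE z a p (p.1 a)) := by
    rw [integral_mul_const, hc1, one_mul]
  have s5 : ∫ w, C * (χ (w - x0) ^ 2 * mean ψ (fun p => 1 + Dl a w L p.1)) =
      C * mean ψ (fun p => 1 + ∫ w, χ (w - x0) ^ 2 * Dl a w L p.1) := by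
    rw [integral_const_mul, e2, r2]
  have s1 : ∫ w, χ (w - x0) ^ 2 * (E * mass ψ) = E * mass ψ := by
    rw [integral_mul_const, hc1, one_mul]
  have s2 : ∫ w, E * (χ (w - x0) ^ 2 * mean ψ (fun p => rm θ a w L p.1 ^ 2)) =
      E * mean ψ (fun p => ∫ w, χ (w - x0) ^ 2 * rm θ a w L p.1 ^ 2) := by
    rw [integral_const_mul, e0]
  rw [s1, s2, s3, s5, s6, s7, e1, e5, r1] at hint
  rw [mul_sub]
  exact hint

end H6.CM
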