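import Pool.Agent.H6.CM.Defs

/-! Facts on the Gaussian kernel of `E3` (`GaussianFourier.integral_rexp_neg_mul_sq_norm`, coordinates for the second moments; semigroup: parallelogram identity). -/

open MeasureTheory Finset

namespace H6.CM

theorem hk_pos (t : ℝ) (ht : 0 < t) (v : E3) : 0 < hk t v := by
  unfold hk
  exact mul_pos (Real.rpow_pos_of_pos (by positivity) _) (Real.exp_pos _)

/-- one dimensional kernel -/
private noncomputable def g1 (t x : ℝ) : ℝ :=
  (4 * Real.pi * t) ^ (-(1 / 2) : ℝ) * Real.exp (-(x ^ 2 / (4 * t)))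

private theorem v_coe (t : ℝ) (ht : 0 < t) : (((2 * t).toNNReal : NNReal) : ℝ) = 2 * t :=
  Real.coe_toNNReal _ (by positivity)

private theorem g1_pdf (t : ℝ) (ht : 0 < t) (x : ℝ) :
    g1 t x = ProbabilityTheory.gaussianPDFReal 0 (2 * t).toNNReal x := by
  rw [g1, ProbabilityTheory.gaussianPDFReal_def]
  simp only [v_coe t ht, sub_zero]
  have e : 2 * Real.pi * (2 * t) = 4 * Real.pi * t := by ring
  rw [e, Real.sqrt_eq_rpow, ← Real.rpow_neg (by positivity)]
  congr 2
  ring

private theorem v_ne (t : ℝ) (ht : 0 < t) : (2 * t).toNNReal ≠ 0 := by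
  intro h
  have h2 := v_coe t ht
  rw [h, NNReal.coe_zero] at h2
  linarith

private theorem g1_int (t : ℝ) (ht : 0 < t) : Integrable (g1 t) ∧ ∫ x, g1 t x = 1 := by
  have e : g1 t = ProbabilityTheory.gaussianPDFReal 0 (2 * t).toNNReal := by
    funext x
    exact g1_pdf t ht x
  constructor
  · rw [e]
    exact ProbabilityTheory.integrable_gaussianPDFReal _ _
  · rw [e]
    exact ProbabilityTheory.integral_gaussianPDFReal_eq_one 0 (v_ne t ht)

private theorem g1_first (t : ℝ) (ht : 0 < t) :
    Integrable (fun x => x * g1 t x) ∧ ∫ x, x * g1 t x = 0 := by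
  constructor
  · have h := (integrable_mul_exp_neg_mul_sq (b := 1 / (4 * t)) (by positivity)).const_mul
      ((4 * Real.pi * t) ^ (-(1 / 2) : ℝ))
    refine h.congr (Filter.Eventually.of_forall fun x => ?_)
    simp only [g1]
    have : -(1 / (4 * t)) * x ^ 2 = -(x ^ 2 / (4 * t)) := by ring
    rw [this]
    ring
  · have h := integral_neg_eq_self (fun x => x * g1 t x) volume
    have h2 : ∀ x, -x * g1 t (-x) = -(x * g1 t x) := by
      intro x
      simp only [g1, neg_sq]
      ring
    simp only [h2] at h
    rw [integral_neg] at h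
    linarith

private theorem g1_second (t : ℝ) (ht : 0 < t) :
    Integrable (fun x => x ^ 2 * g1 t x) ∧ ∫ x, x ^ 2 * g1 t x = 2 * t := by
  constructor
  · have h := (integrable_rpow_mul_exp_neg_mul_sq (b := 1 / (4 * t)) (by positivity)
      (s := 2) (by norm_num)).const_mul ((4 * Real.pi * t) ^ (-(1 / 2) : ℝ))
    refine h.congr (Filter.Eventually.of_forall fun x => ?_)
    simp only [g1]
    have : -(1 / (4 * t)) * x ^ 2 = -(x ^ 2 / (4 * t)) := by ring
    rw [this]
    have h2 : x ^ (2 : ℝ) = x ^ 2 := by
      rw [← Real.rpow_natCast x 2]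
      norm_num
    rw [h2]
    ring
  · have h1 := ProbabilityTheory.variance_id_gaussianReal (μ := 0)
      (v := (2 * t).toNNReal)
    have h0 : ∫ x, id x ∂(ProbabilityTheory.gaussianReal 0 (2 * t).toNNReal) =
        0 := ProbabilityTheory.integral_id_gaussianReal
    rw [ProbabilityTheory.variance_of_integral_eq_zero aemeasurable_id h0,
      ProbabilityTheory.integral_gaussianReal_eq_integral_smul (v_ne t ht), v_coe t ht] at h1
    refine Eq.trans ?_ h1
    apply integral_congr_ae
    refine Filter.Eventually.of_forall fun x => ?_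
    simp only [smul_eq_mul, id]
    rw [g1_pdf t ht, mul_comm]

private theorem hk_prod (t : ℝ) (ht : 0 < t) (v : Fin 3 → ℝ) :
    hk t (WithLp.toLp 2 v) = ∏ i, g1 t (v i) := by
  rw [hk, EuclideanSpace.norm_sq_eq]
  simp only [g1, Finset.prod_mul_distrib, Finset.prod_const, Finset.card_univ, Fintype.card_fin,
    ← Real.exp_sum]
  congr 1
  · rw [← Real.rpow_natCast, ← Real.rpow_mul (by positivity)]
    norm_num
  · congr 1
    simp only [Real.norm_eq_abs, sq_abs]
    rw [Finset.sum_neg_distrib, Finset.sum_div]

private theorem prod_int (f : Fin 3 → ℝ → ℝ) (hf : ∀ i, Integrable (f i)) :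
    Integrable (fun v : E3 => ∏ i, f i (v i)) ∧
      ∫ v : E3, ∏ i, f i (v i) = ∏ i, ∫ x, f i x := by
  have hmp := PiLp.volume_preserving_toLp (Fin 3)
  have hemb : MeasurableEmbedding (WithLp.toLp 2 : (Fin 3 → ℝ) → E3) :=
    (MeasurableEquiv.toLp 2 (Fin 3 → ℝ)).measurableEmbedding
  constructor
  · rw [← hmp.integrable_comp_emb hemb]
    exact Integrable.fintype_prod hf
  · rw [← hmp.integral_comp hemb]
    exact integral_fintype_prod_volume_eq_prod f

theorem hk_int (t : ℝ) (ht : 0 < t) : Integrable (hk t) ∧ ∫ v, hk t v = 1 := by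
  have h := prod_int (fun _ => g1 t) fun _ => (g1_int t ht).1
  have e : ∀ v : E3, hk t v = ∏ i, g1 t (v i) := fun v => hk_prod t ht v.ofLp
  constructor
  · exact h.1.congr (Filter.Eventually.of_forall fun v => (e v).symm)
  · rw [integral_congr_ae (Filter.Eventually.of_forall e), h.2]
    simp [(g1_int t ht).2]

private theorem hk_mul (t : ℝ) (ht : 0 < t) (x y v : E3) :
    hk t (x - v) * hk t (v - y) = hk (2 * t) (x - y) * hk (t / 2) (v - (1 / 2 : ℝ) • (x + y)) := by
  have hn : ‖x - v‖ ^ 2 + ‖v - y‖ ^ 2 =
      2 * ‖v - (1 / 2 : ℝ) • (x + y)‖ ^ 2 + ‖x - y‖ ^ 2 / 2 := by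
    have h := parallelogram_law_with_norm ℝ (x - v) (v - y)
    have e1 : x - v + (v - y) = x - y := by abel
    have e2 : x - v - (v - y) = (-2 : ℝ) • (v - (1 / 2 : ℝ) • (x + y)) := by
      rw [smul_sub, smul_smul]
      norm_num
      module
    have e3 : ‖(-2 : ℝ)‖ = 2 := by norm_num
    rw [e1, e2, norm_smul, e3] at h
    nlinarith
  unfold hk
  rw [mul_mul_mul_comm, ← Real.exp_add, mul_mul_mul_comm, ← Real.exp_add]
  congr 1
  · rw [← Real.mul_rpow (by positivity) (by positivity),
      ← Real.mul_rpow (by positivity) (by positivity)]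
    congr 1
    ring
  · congr 1
    have e3 : -(‖x - v‖ ^ 2 / (4 * t)) + -(‖v - y‖ ^ 2 / (4 * t)) =
        -((‖x - v‖ ^ 2 + ‖v - y‖ ^ 2) / (4 * t)) := by ring
    rw [e3, hn]
    field_simp
    ring

theorem hk_neg (t : ℝ) (v : E3) : hk t (-v) = hk t v := by
  simp [hk]

theorem hk_semi (t : ℝ) (ht : 0 < t) (x y : E3) :
    ∫ v, hk t (x - v) * hk t (v - y) = hk (2 * t) (x - y) := by
  rw [integral_congr_ae (Filter.Eventually.of_forall (hk_mul t ht x y)), integral_const_mul,
    integral_sub_right_eq_self (hk (t / 2)), (hk_int (t / 2) (by positivity)).2, mul_one]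

private theorem hk_zero (t : ℝ) : hk t 0 = (4 * Real.pi * t) ^ (-(3 / 2) : ℝ) := by
  simp [hk]

theorem hk_sq (t : ℝ) (ht : 0 < t) : Integrable (fun v => hk t v ^ 2) ∧
    ∫ v, hk t v ^ 2 = (8 * Real.pi * t) ^ (-(3 / 2) : ℝ) := by
  have e : ∀ v, hk t v ^ 2 = hk (2 * t) 0 * hk (t / 2) v := by
    intro v
    have := hk_mul t ht 0 0 v
    rw [zero_sub, hk_neg, sub_zero, sub_zero, add_zero, smul_zero, sub_zero] at this
    rw [pow_two, this]
  have hi := hk_int (t / 2) (by positivity)
  constructor
  · exact (hi.1.const_mul _).congr (Filter.Eventually.of_forall fun v => (e v).symm)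
  · rw [integral_congr_ae (Filter.Eventually.of_forall e), integral_const_mul, hi.2, mul_one,
      hk_zero]
    congr 1
    ring

private theorem hk_coord (t : ℝ) (ht : 0 < t) (d d' : Fin 3) :
    Integrable (fun v : E3 => hk t v * (v d * v d')) ∧
      ∫ v : E3, hk t v * (v d * v d') = if d = d' then 2 * t else 0 := by
  have hf : ∀ i : Fin 3, Integrable (fun x : ℝ =>
      g1 t x * ((if i = d then x else 1) * (if i = d' then x else 1))) := by
    intro i
    by_cases h1 : i = d
    · by_cases h2 : i = d'
      · refine (g1_second t ht).1.congr (Filter.Eventually.of_forall fun x => ?_)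
        change x ^ 2 * g1 t x = g1 t x * ((if i = d then x else 1) * (if i = d' then x else 1))
        rw [if_pos h1, if_pos h2]
        ring
      · refine (g1_first t ht).1.congr (Filter.Eventually.of_forall fun x => ?_)
        change x * g1 t x = g1 t x * ((if i = d then x else 1) * (if i = d' then x else 1))
        rw [if_pos h1, if_neg h2]
        ring
    · by_cases h2 : i = d'
      · refine (g1_first t ht).1.congr (Filter.Eventually.of_forall fun x => ?_)
        change x * g1 t x = g1 t x * ((if i = d then x else 1) * (if i = d' then x else 1))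
        rw [if_neg h1, if_pos h2]
        ring
      · refine (g1_int t ht).1.congr (Filter.Eventually.of_forall fun x => ?_)
        change g1 t x = g1 t x * ((if i = d then x else 1) * (if i = d' then x else 1))
        rw [if_neg h1, if_neg h2]
        ring
  have h := prod_int _ hf
  have e : ∀ v : E3, hk t v * (v d * v d') =
      ∏ i, g1 t (v i) * ((if i = d then v i else 1) * (if i = d' then v i else 1)) := by
    intro v
    rw [Finset.prod_mul_distrib, Finset.prod_mul_distrib, Finset.prod_ite_eq',
      Finset.prod_ite_eq']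
    simp only [Finset.mem_univ, if_true]
    rw [← hk_prod t ht v.ofLp]
  constructor
  · exact h.1.congr (Filter.Eventually.of_forall fun v => (e v).symm)
  · rw [integral_congr_ae (Filter.Eventually.of_forall e), h.2]
    by_cases hd : d = d'
    · subst hd
      rw [if_pos rfl, Finset.prod_eq_single d]
      · simp only [if_true]
        rw [← (g1_second t ht).2]
        apply integral_congr_ae
        exact Filter.Eventually.of_forall fun x => by ring
      · intro i _ hi
        simp only [hi, if_false, mul_one]
        exact (g1_int t ht).2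
      · intro hh
        exact absurd (Finset.mem_univ d) hh
    · rw [if_neg hd]
      apply Finset.prod_eq_zero (Finset.mem_univ d)
      simp only [if_true, hd, if_false, mul_one]
      rw [← (g1_first t ht).2]
      apply integral_congr_ae
      exact Filter.Eventually.of_forall fun x => by ring

theorem hk_second (t : ℝ) (ht : 0 < t) (A : E3 →L[ℝ] ℂ) :
    Integrable (fun v => hk t v * ‖A v‖ ^ 2) ∧
    ∫ v, hk t v * ‖A v‖ ^ 2 = 2 * t * ∑ d : Fin 3, ‖A (EuclideanSpace.single d 1)‖ ^ 2 := by
  set a : Fin 3 → ℂ := fun d => A (EuclideanSpace.single d 1) with ha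
  have hA : ∀ v : E3, A v = ∑ d, (v d : ℂ) * a d := by
    intro v
    have h1 : v = ∑ d, (v d) • (EuclideanSpace.single d (1 : ℝ) : E3) := by
      ext i
      simp [Finset.sum_apply, Pi.single_apply]
    conv_lhs => rw [h1]
    rw [map_sum]
    simp only [map_smul, Complex.real_smul, ha]
  have e : ∀ v : E3, hk t v * ‖A v‖ ^ 2 =
      ∑ d, ∑ d', ((a d).re * (a d').re + (a d).im * (a d').im) * (hk t v * (v d * v d')) := by
    intro v
    have h2 : ‖A v‖ ^ 2 = (∑ d, v d * (a d).re) ^ 2 + (∑ d, v d * (a d).im) ^ 2 := by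
      rw [Complex.sq_norm, Complex.normSq_apply, hA]
      rw [Complex.re_sum, Complex.im_sum]
      simp only [Complex.mul_re, Complex.mul_im, Complex.ofReal_re, Complex.ofReal_im, zero_mul,
        sub_zero, add_zero]
      ring
    rw [h2, pow_two, pow_two, Finset.sum_mul_sum, Finset.sum_mul_sum, ← Finset.sum_add_distrib,
      Finset.mul_sum]
    refine Finset.sum_congr rfl fun d _ => ?_
    rw [← Finset.sum_add_distrib, Finset.mul_sum]
    refine Finset.sum_congr rfl fun d' _ => ?_
    ring
  have hint : ∀ d d', Integrable (fun v : E3 =>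
      ((a d).re * (a d').re + (a d).im * (a d').im) * (hk t v * (v d * v d'))) :=
    fun d d' => (hk_coord t ht d d').1.const_mul _
  constructor
  · refine Integrable.congr ?_ (Filter.Eventually.of_forall fun v => (e v).symm)
    exact integrable_finsetSum _ fun d _ => integrable_finsetSum _ fun d' _ => hint d d'
  · rw [integral_congr_ae (Filter.Eventually.of_forall e), integral_finsetSum]
    · rw [Finset.mul_sum]
      refine Finset.sum_congr rfl fun d _ => ?_
      rw [integral_finsetSum]
      · simp only [integral_const_mul, (hk_coord t ht _ _).2]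
        rw [Finset.sum_eq_single d]
        · rw [if_pos rfl, Complex.sq_norm, Complex.normSq_apply]
          simp only [ha]
          ring
        · intro d' _ hd'
          rw [if_neg (Ne.symm hd'), mul_zero]
        · intro hh
          exact absurd (Finset.mem_univ d) hh
      · intro d' _
        exact hint d d'
    · intro d _
      exact integrable_finsetSum _ fun d' _ => hint d d'

end H6.CM
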