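import Pool.Agent.H6.CM.Heat

/-! The form of the heat semigroup as a double integral: expand `‖f (v + h) - f v‖ ^ 2`, translation invariance, `hk_int`, `hk_neg`, Fubini (`f` is bounded with compact support, `hk t` integrable). -/

open MeasureTheory Finset

namespace H6.CM

/-- the form of the heat semigroup -/
noncomputable def FF (f : E3 → ℂ) (t : ℝ) : ℝ :=
  (∫ v, ‖f v‖ ^ 2) - (∫ v, (starRingEnd ℂ) (f v) * Ph t f v).re

private theorem ha_hkcont (t : ℝ) : Continuous (hk t) := by
  unfold hk
  exact continuous_const.mul (Real.continuous_exp.comp ((continuous_norm.pow 2).div_const _).neg)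

private theorem ha_sqint (f : E3 → ℂ) (hf : Continuous f) (hc : HasCompactSupport f) :
    Integrable (fun v => ‖f v‖ ^ 2) := by
  have h1 : Continuous (fun v => ‖f v‖ ^ 2) := hf.norm.pow 2
  have h2 : HasCompactSupport (fun v => ‖f v‖ ^ 2) := by
    have := hc.comp_left (g := fun z : ℂ => ‖z‖ ^ 2) (by rw [norm_zero]; norm_num)
    exact this
  exact h1.integrable_of_hasCompactSupport h2

private theorem ha_cint (f : E3 → ℂ) (hf : Continuous f) (hc : HasCompactSupport f) (h : E3) :
    Integrable (fun v => (starRingEnd ℂ) (f v) * f (v + h)) := by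
  apply Continuous.integrable_of_hasCompactSupport
  · exact (Complex.continuous_conj.comp hf).mul (hf.comp (continuous_id.add continuous_const))
  · exact (hc.comp_left (g := (starRingEnd ℂ)) (map_zero _)).mul_right

private theorem ha_pt (a b : ℂ) :
    ‖b - a‖ ^ 2 = ‖b‖ ^ 2 + ‖a‖ ^ 2 - 2 * ((starRingEnd ℂ) a * b).re := by
  rw [Complex.sq_norm, Complex.sq_norm, Complex.sq_norm, Complex.normSq_apply,
    Complex.normSq_apply, Complex.normSq_apply]
  simp only [Complex.sub_re, Complex.sub_im, Complex.mul_re, Complex.conj_re, Complex.conj_im]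
  ring

private theorem ha_inner (f : E3 → ℂ) (hf : Continuous f) (hc : HasCompactSupport f) (h : E3) :
    ∫ v, ‖f (v + h) - f v‖ ^ 2 =
      2 * (∫ v, ‖f v‖ ^ 2) - 2 * (∫ v, (starRingEnd ℂ) (f v) * f (v + h)).re := by
  have h1 := ha_sqint f hf hc
  have h2 : Integrable (fun v => ‖f (v + h)‖ ^ 2) := h1.comp_add_right h
  have h3 := ha_cint f hf hc h
  have h4 : Integrable (fun v => ((starRingEnd ℂ) (f v) * f (v + h)).re) := h3.re
  have e : ∀ v, ‖f (v + h) - f v‖ ^ 2 = (‖f (v + h)‖ ^ 2 + ‖f v‖ ^ 2) -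
      2 * ((starRingEnd ℂ) (f v) * f (v + h)).re := fun v => ha_pt _ _
  have h5 : Integrable (fun v => ‖f (v + h)‖ ^ 2 + ‖f v‖ ^ 2) := h2.add h1
  have h6 : Integrable (fun v => 2 * ((starRingEnd ℂ) (f v) * f (v + h)).re) := h4.const_mul 2
  have e2 : ∫ v, ((starRingEnd ℂ) (f v) * f (v + h)).re =
      (∫ v, (starRingEnd ℂ) (f v) * f (v + h)).re := integral_re h3
  rw [integral_congr_ae (Filter.Eventually.of_forall e), integral_sub h5 h6, integral_add h2 h1,
    integral_const_mul, e2, integral_add_right_eq_self (fun v => ‖f v‖ ^ 2)]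
  ring

private theorem ha_fub (f : E3 → ℂ) (hf : Continuous f) (hc : HasCompactSupport f) (t : ℝ)
    (ht : 0 < t) :
    Integrable (fun p : E3 × E3 =>
      ((hk t p.1 : ℂ) * (starRingEnd ℂ) (f p.2)) * f (p.2 + p.1)) := by
  have h1 : Integrable (fun v => (hk t v : ℂ)) := (hk_int t ht).1.ofReal
  have h2 : Integrable (fun v => (starRingEnd ℂ) (f v)) := by
    apply Continuous.integrable_of_hasCompactSupport (Complex.continuous_conj.comp hf)
    exact hc.comp_left (g := (starRingEnd ℂ)) (map_zero _)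
  obtain ⟨M, hM⟩ := hf.bounded_above_of_compact_support hc
  refine (h1.mul_prod h2).mul_bdd (c := M) ?_ ?_
  · exact (hf.comp (continuous_snd.add continuous_fst)).aestronglyMeasurable
  · exact Filter.Eventually.of_forall fun p => hM _

private theorem ha_c (f : E3 → ℂ) (hf : Continuous f) (hc : HasCompactSupport f) (t : ℝ)
    (ht : 0 < t) :
    Integrable (fun h => (hk t h : ℂ) * ∫ v, (starRingEnd ℂ) (f v) * f (v + h)) ∧
    ∫ h, (hk t h : ℂ) * (∫ v, (starRingEnd ℂ) (f v) * f (v + h)) =
      ∫ v, (starRingEnd ℂ) (f v) * Ph t f v := by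
  have hF := ha_fub f hf hc t ht
  have e1 : ∀ h, ∫ v, ((hk t h : ℂ) * (starRingEnd ℂ) (f v)) * f (v + h) =
      (hk t h : ℂ) * ∫ v, (starRingEnd ℂ) (f v) * f (v + h) := by
    intro h
    rw [← integral_const_mul]
    apply integral_congr_ae
    exact Filter.Eventually.of_forall fun v => by ring
  constructor
  · exact hF.integral_prod_left.congr (Filter.Eventually.of_forall e1)
  · rw [← integral_congr_ae (Filter.Eventually.of_forall e1), integral_integral_swap hF]
    apply integral_congr_ae
    refine Filter.Eventually.of_forall fun v => ?_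
    have e2 : ∀ h, (hk t h : ℂ) * (starRingEnd ℂ) (f v) * f (v + h) =
        (starRingEnd ℂ) (f v) * ((hk t h : ℂ) * f (v + h)) := fun h => by ring
    simp only [e2]
    rw [integral_const_mul]
    congr 1
    rw [Ph, ← integral_add_right_eq_self (fun u => (hk t (v - u) : ℂ) * f u) v]
    apply integral_congr_ae
    refine Filter.Eventually.of_forall fun h => ?_
    simp only
    have e3 : v - (h + v) = -h := by abel
    rw [e3, hk_neg, add_comm h v]

theorem FF_eq (f : E3 → ℂ) (hf : Continuous f) (hc : HasCompactSupport f) (t : ℝ)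
    (ht : 0 < t) :
    Integrable (fun h => hk t h * ∫ v, ‖f (v + h) - f v‖ ^ 2) ∧
    FF f t = (1 / 2) * ∫ h, hk t h * ∫ v, ‖f (v + h) - f v‖ ^ 2 := by
  obtain ⟨hi, he⟩ := ha_c f hf hc t ht
  have hk1 := hk_int t ht
  have hre : ∀ h, ((hk t h : ℂ) * ∫ v, (starRingEnd ℂ) (f v) * f (v + h)).re =
      hk t h * (∫ v, (starRingEnd ℂ) (f v) * f (v + h)).re := by
    intro h
    rw [Complex.re_ofReal_mul]
  have h4 : Integrable (fun h => hk t h * (∫ v, (starRingEnd ℂ) (f v) * f (v + h)).re) :=
    Integrable.congr hi.re (Filter.Eventually.of_forall hre)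
  have e : ∀ h, hk t h * ∫ v, ‖f (v + h) - f v‖ ^ 2 =
      hk t h * (2 * ∫ v, ‖f v‖ ^ 2) -
        2 * (hk t h * (∫ v, (starRingEnd ℂ) (f v) * f (v + h)).re) := by
    intro h
    rw [ha_inner f hf hc h]
    ring
  have h5 : Integrable (fun h => hk t h * (2 * ∫ v, ‖f v‖ ^ 2)) := hk1.1.mul_const _
  have h6 : Integrable (fun h =>
      2 * (hk t h * (∫ v, (starRingEnd ℂ) (f v) * f (v + h)).re)) := h4.const_mul 2
  constructor
  · exact (h5.sub h6).congr (Filter.Eventually.of_forall fun h => (e h).symm)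
  · rw [integral_congr_ae (Filter.Eventually.of_forall e), integral_sub h5 h6,
      integral_mul_const, hk1.2, integral_const_mul]
    have e7 : ∫ h, hk t h * (∫ v, (starRingEnd ℂ) (f v) * f (v + h)).re =
        (∫ v, (starRingEnd ℂ) (f v) * Ph t f v).re := by
      rw [← he]
      refine Eq.trans ?_ (integral_re hi)
      exact (integral_congr_ae (Filter.Eventually.of_forall hre)).symm
    rw [e7, FF]
    ring

end H6.CM
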