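import Pool.Agent.H6.CM.HeatA

/-! `∫ |f - P_t f|^2 = 2 F t - F (2 t)`: expand the square; `∫ |P_t f|^2 = ∫ conj f (P_(2t) f)` by Fubini and `hk_semi`. -/

open MeasureTheory Finset

namespace H6.CM

private theorem hd_cont (t : ℝ) : Continuous (hk t) := by
  unfold hk
  exact continuous_const.mul (Real.continuous_exp.comp ((continuous_norm.pow 2).div_const _).neg)

private theorem hd_nonneg (t : ℝ) (ht : 0 < t) (v : E3) : 0 ≤ hk t v := (hk_pos t ht v).le

private theorem hd_le (t : ℝ) (ht : 0 < t) (v : E3) :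
    hk t v ≤ (4 * Real.pi * t) ^ (-(3 / 2) : ℝ) := by
  unfold hk
  refine mul_le_of_le_one_right (Real.rpow_nonneg (by positivity) _) (Real.exp_le_one_iff.2 ?_)
  rw [neg_nonpos]
  positivity

private theorem hd_norm_le (t : ℝ) (ht : 0 < t) (v : E3) :
    ‖(hk t v : ℂ)‖ ≤ (4 * Real.pi * t) ^ (-(3 / 2) : ℝ) := by
  rw [Complex.norm_real, Real.norm_eq_abs, abs_of_nonneg (hd_nonneg t ht v)]
  exact hd_le t ht v

private theorem hd_K (f : E3 → ℂ) (hf : Integrable f) (t : ℝ) (ht : 0 < t) :
    Integrable (fun p : E3 × E3 => (hk t (p.1 - p.2) : ℂ) * f p.2) := by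
  have h1 : Integrable (fun v => (hk t v : ℂ)) := (hk_int t ht).1.ofReal
  have h2 : Integrable (fun p : E3 × E3 => f p.2 * (hk t (p.1 - p.2) : ℂ)) :=
    Integrable.convolution_integrand (ContinuousLinearMap.mul ℂ ℂ) hf h1
  refine h2.congr (Filter.Eventually.of_forall fun p => ?_)
  exact mul_comm _ _

private theorem hd_P_le (f : E3 → ℂ) (hf : Integrable f) (t : ℝ) (ht : 0 < t) (v : E3) :
    ‖Ph t f v‖ ≤ (4 * Real.pi * t) ^ (-(3 / 2) : ℝ) * ∫ u, ‖f u‖ := by
  unfold Ph
  rw [← integral_const_mul]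
  refine norm_integral_le_of_norm_le (hf.norm.const_mul _) (Filter.Eventually.of_forall fun u => ?_)
  rw [norm_mul]
  exact mul_le_mul_of_nonneg_right (hd_norm_le t ht _) (norm_nonneg _)

private theorem hd_P_int (f : E3 → ℂ) (hf : Integrable f) (t : ℝ) (ht : 0 < t) :
    Integrable (Ph t f) := (hd_K f hf t ht).integral_prod_left

private theorem hd_P_cont (f : E3 → ℂ) (hf : Continuous f) (hfi : Integrable f) (t : ℝ)
    (ht : 0 < t) : Continuous (Ph t f) := by
  unfold Ph
  refine continuous_of_dominated (bound := fun u => (4 * Real.pi * t) ^ (-(3 / 2) : ℝ) * ‖f u‖)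
    ?_ ?_ (hfi.norm.const_mul _) ?_
  · intro v
    have : Continuous fun u => (hk t (v - u) : ℂ) * f u :=
      (Complex.continuous_ofReal.comp ((hd_cont t).comp (continuous_const.sub continuous_id))).mul hf
    exact this.aestronglyMeasurable
  · intro v
    refine Filter.Eventually.of_forall fun u => ?_
    rw [norm_mul]
    exact mul_le_mul_of_nonneg_right (hd_norm_le t ht _) (norm_nonneg _)
  · refine Filter.Eventually.of_forall fun u => ?_
    exact (Complex.continuous_ofReal.comp
      ((hd_cont t).comp (continuous_id.sub continuous_const))).mul continuous_const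

private theorem hd_semi (f : E3 → ℂ) (hfi : Integrable f) (t : ℝ)
    (ht : 0 < t) (x : E3) : ∫ v, (hk t (x - v) : ℂ) * Ph t f v = Ph (2 * t) f x := by
  have hK : Integrable (fun p : E3 × E3 =>
      (hk t (x - p.1) : ℂ) * ((hk t (p.1 - p.2) : ℂ) * f p.2)) := by
    refine (hd_K f hfi t ht).bdd_mul (c := (4 * Real.pi * t) ^ (-(3 / 2) : ℝ)) ?_ ?_
    · have : Continuous fun p : E3 × E3 => (hk t (x - p.1) : ℂ) :=
        Complex.continuous_ofReal.comp ((hd_cont t).comp (continuous_const.sub continuous_fst))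
      exact this.aestronglyMeasurable
    · exact Filter.Eventually.of_forall fun p => hd_norm_le t ht _
  have h1 : ∀ v, (hk t (x - v) : ℂ) * Ph t f v =
      ∫ y, (hk t (x - v) : ℂ) * ((hk t (v - y) : ℂ) * f y) := by
    intro v
    rw [integral_const_mul]
    rfl
  simp only [h1]
  rw [integral_integral_swap hK]
  unfold Ph
  refine integral_congr_ae (Filter.Eventually.of_forall fun y => ?_)
  have h2 : ∀ v, (hk t (x - v) : ℂ) * ((hk t (v - y) : ℂ) * f y) =
      ((hk t (x - v) * hk t (v - y) : ℝ) : ℂ) * f y := by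
    intro v
    push_cast
    ring
  simp only [h2]
  rw [integral_mul_const, integral_complex_ofReal, hk_semi t ht]

private theorem hd_conj (f : E3 → ℂ) (t : ℝ) (v : E3) :
    (starRingEnd ℂ) (Ph t f v) = ∫ x, (hk t (v - x) : ℂ) * (starRingEnd ℂ) (f x) := by
  unfold Ph
  rw [← integral_conj]
  refine integral_congr_ae (Filter.Eventually.of_forall fun x => ?_)
  simp only [map_mul, Complex.conj_ofReal]

private theorem hd_sq (f : E3 → ℂ) (hf : Continuous f) (hfi : Integrable f) (t : ℝ)
    (ht : 0 < t) : ∫ v, (starRingEnd ℂ) (Ph t f v) * Ph t f v =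
      ∫ x, (starRingEnd ℂ) (f x) * Ph (2 * t) f x := by
  have hcf : Integrable (fun x => (starRingEnd ℂ) (f x)) := by
    refine hfi.norm.mono' (Complex.continuous_conj.comp hf).aestronglyMeasurable ?_
    exact Filter.Eventually.of_forall fun x => by rw [Complex.norm_conj]
  have hK : Integrable (fun p : E3 × E3 =>
      ((hk t (p.1 - p.2) : ℂ) * (starRingEnd ℂ) (f p.2)) * Ph t f p.1) := by
    refine (hd_K _ hcf t ht).mul_bdd
      (c := (4 * Real.pi * t) ^ (-(3 / 2) : ℝ) * ∫ u, ‖f u‖) ?_ ?_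
    · exact ((hd_P_cont f hf hfi t ht).comp continuous_fst).aestronglyMeasurable
    · exact Filter.Eventually.of_forall fun p => hd_P_le f hfi t ht _
  have h1 : ∀ v, (starRingEnd ℂ) (Ph t f v) * Ph t f v =
      ∫ x, ((hk t (v - x) : ℂ) * (starRingEnd ℂ) (f x)) * Ph t f v := by
    intro v
    rw [integral_mul_const, hd_conj]
  simp only [h1]
  rw [integral_integral_swap hK]
  refine integral_congr_ae (Filter.Eventually.of_forall fun x => ?_)
  have h2 : ∀ v, (hk t (v - x) : ℂ) * (starRingEnd ℂ) (f x) * Ph t f v =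
      (starRingEnd ℂ) (f x) * ((hk t (x - v) : ℂ) * Ph t f v) := by
    intro v
    rw [← neg_sub x v, hk_neg]
    ring
  simp only [h2]
  rw [integral_const_mul, hd_semi f hfi t ht x]

theorem Ph_cont (f : E3 → ℂ) (hf : Continuous f) (hc : HasCompactSupport f) (t : ℝ)
    (ht : 0 < t) : Continuous (Ph t f) :=
  hd_P_cont f hf (hf.integrable_of_hasCompactSupport hc) t ht

theorem FF_diff (f : E3 → ℂ) (hf : Continuous f) (hc : HasCompactSupport f) (t : ℝ)
    (ht : 0 < t) : Integrable (fun v => ‖f v - Ph t f v‖ ^ 2) ∧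
      ∫ v, ‖f v - Ph t f v‖ ^ 2 = 2 * FF f t - FF f (2 * t) := by
  have hfi : Integrable f := hf.integrable_of_hasCompactSupport hc
  have hPc := hd_P_cont f hf hfi t ht
  have hPi := hd_P_int f hfi t ht
  obtain ⟨M1, hM1⟩ := hf.bounded_above_of_compact_support hc
  set M2 := (4 * Real.pi * t) ^ (-(3 / 2) : ℝ) * ∫ u, ‖f u‖ with hM2
  have hPb : ∀ v, ‖Ph t f v‖ ≤ M2 := hd_P_le f hfi t ht
  have i1 : Integrable (fun v => (starRingEnd ℂ) (f v) * Ph t f v) := by
    refine hPi.bdd_mul (c := M1) (Complex.continuous_conj.comp hf).aestronglyMeasurable ?_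
    exact Filter.Eventually.of_forall fun v => by rw [Complex.norm_conj]; exact hM1 v
  have i2 : Integrable (fun v => (starRingEnd ℂ) (Ph t f v) * Ph t f v) := by
    refine hPi.bdd_mul (c := M2) (Complex.continuous_conj.comp hPc).aestronglyMeasurable ?_
    exact Filter.Eventually.of_forall fun v => by rw [Complex.norm_conj]; exact hPb v
  have i0 : Integrable (fun v => (starRingEnd ℂ) (f v) * f v) := by
    refine hfi.bdd_mul (c := M1) (Complex.continuous_conj.comp hf).aestronglyMeasurable ?_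
    exact Filter.Eventually.of_forall fun v => by rw [Complex.norm_conj]; exact hM1 v
  have hsq : ∀ z : ℂ, ‖z‖ ^ 2 = ((starRingEnd ℂ) z * z).re := by
    intro z
    rw [← Complex.normSq_eq_conj_mul_self, Complex.ofReal_re, Complex.normSq_eq_norm_sq]
  have r0 : Integrable (fun v => ‖f v‖ ^ 2) := by
    refine i0.re.congr (Filter.Eventually.of_forall fun v => ?_)
    exact (hsq (f v)).symm
  have r1 : Integrable (fun v => ((starRingEnd ℂ) (f v) * Ph t f v).re) := i1.re
  have r2 : Integrable (fun v => ‖Ph t f v‖ ^ 2) := by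
    refine i2.re.congr (Filter.Eventually.of_forall fun v => ?_)
    exact (hsq (Ph t f v)).symm
  have e0 : ∀ v, ‖f v - Ph t f v‖ ^ 2 = (‖f v‖ ^ 2 + ‖Ph t f v‖ ^ 2) -
      2 * ((starRingEnd ℂ) (f v) * Ph t f v).re := by
    intro v
    rw [hsq, hsq, hsq, map_sub]
    have : ((starRingEnd ℂ) (f v) - (starRingEnd ℂ) (Ph t f v)) * (f v - Ph t f v) =
      (starRingEnd ℂ) (f v) * f v + (starRingEnd ℂ) (Ph t f v) * Ph t f v -
        ((starRingEnd ℂ) (f v) * Ph t f v + (starRingEnd ℂ) (Ph t f v) * f v) := by ring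
    rw [this]
    have h3 : ((starRingEnd ℂ) (Ph t f v) * f v).re = ((starRingEnd ℂ) (f v) * Ph t f v).re := by
      simp only [Complex.mul_re, Complex.conj_re, Complex.conj_im]
      ring
    rw [Complex.sub_re, Complex.add_re, Complex.add_re, h3]
    ring
  have i3 : Integrable (fun v => (‖f v‖ ^ 2 + ‖Ph t f v‖ ^ 2) -
      2 * ((starRingEnd ℂ) (f v) * Ph t f v).re) := (r0.add r2).sub (r1.const_mul 2)
  constructor
  · exact i3.congr (Filter.Eventually.of_forall fun v => (e0 v).symm)
  · have e1 : ∫ v, ‖f v - Ph t f v‖ ^ 2 = ((∫ v, ‖f v‖ ^ 2) + ∫ v, ‖Ph t f v‖ ^ 2) -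
        2 * ∫ v, ((starRingEnd ℂ) (f v) * Ph t f v).re := by
      have r3 : Integrable (fun v => ‖f v‖ ^ 2 + ‖Ph t f v‖ ^ 2) := r0.add r2
      have r4 : Integrable (fun v => 2 * ((starRingEnd ℂ) (f v) * Ph t f v).re) := r1.const_mul 2
      rw [← integral_add r0 r2, ← integral_const_mul, ← integral_sub r3 r4]
      exact integral_congr_ae (Filter.Eventually.of_forall fun v => e0 v)
    have e2 : ∫ v, ((starRingEnd ℂ) (f v) * Ph t f v).re =
        (∫ v, (starRingEnd ℂ) (f v) * Ph t f v).re := integral_re i1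
    have e3 : ∫ v, ‖Ph t f v‖ ^ 2 = (∫ v, (starRingEnd ℂ) (f v) * Ph (2 * t) f v).re := by
      rw [← hd_sq f hf hfi t ht]
      have e4 : ∫ v, ((starRingEnd ℂ) (Ph t f v) * Ph t f v).re =
        (∫ v, (starRingEnd ℂ) (Ph t f v) * Ph t f v).re := integral_re i2
      refine Eq.trans ?_ e4
      exact integral_congr_ae (Filter.Eventually.of_forall fun v => hsq _)
    rw [e1, e2, e3]
    unfold FF
    ring

end H6.CM
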