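import Pool.Agent.H6.CM.HeatA

/-! `0 ≤ F t ≤ t ∫ g3 f`: `f (v + h) - f v = ∫_0^1 (fderiv f (v + s h)) h ds`, Cauchy-Schwarz, Fubini and translation invariance give `∫ v, ‖f (v + h) - f v‖^2 ≤ ∫ v, ‖fderiv f v h‖^2`; then `hk_second`. -/

open MeasureTheory Finset

namespace H6.CM

theorem FF_nonneg (f : E3 → ℂ) (hf : ContDiff ℝ 1 f) (hc : HasCompactSupport f) (t : ℝ)
    (ht : 0 < t) : 0 ≤ FF f t := by
  rw [(FF_eq f hf.continuous hc t ht).2]
  apply mul_nonneg (by norm_num)
  apply integral_nonneg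
  intro h
  exact mul_nonneg (hk_pos t ht h).le (integral_nonneg fun v => by positivity)

private theorem hf_fd_cont (f : E3 → ℂ) (hf : ContDiff ℝ 1 f) : Continuous (fderiv ℝ f) :=
  hf.continuous_fderiv one_ne_zero

private theorem hf_dir (f : E3 → ℂ) (hf : ContDiff ℝ 1 f) (hc : HasCompactSupport f) (h : E3) :
    Integrable (fun v => ‖fderiv ℝ f v h‖ ^ 2) := by
  have h1 : Continuous (fun v => ‖fderiv ℝ f v h‖ ^ 2) :=
    ((hf_fd_cont f hf).clm_apply continuous_const).norm.pow 2
  have h2 : HasCompactSupport (fun v => ‖fderiv ℝ f v h‖ ^ 2) := by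
    have := (hc.fderiv ℝ).comp_left (g := fun L : E3 →L[ℝ] ℂ => ‖L h‖ ^ 2) (by
      simp)
    exact this
  exact h1.integrable_of_hasCompactSupport h2

private theorem hf_op (f : E3 → ℂ) (hf : ContDiff ℝ 1 f) (hc : HasCompactSupport f) :
    Integrable (fun v => ‖fderiv ℝ f v‖ ^ 2) := by
  have h1 : Continuous (fun v => ‖fderiv ℝ f v‖ ^ 2) := (hf_fd_cont f hf).norm.pow 2
  have h2 : HasCompactSupport (fun v => ‖fderiv ℝ f v‖ ^ 2) := by
    have := (hc.fderiv ℝ).comp_left (g := fun L : E3 →L[ℝ] ℂ => ‖L‖ ^ 2) (by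
      rw [norm_zero]; norm_num)
    exact this
  exact h1.integrable_of_hasCompactSupport h2

private theorem hf_cs (u : ℝ → ℝ) (hu : Continuous u) :
    (∫ s in (0 : ℝ)..1, u s) ^ 2 ≤ ∫ s in (0 : ℝ)..1, u s ^ 2 := by
  set m := ∫ s in (0 : ℝ)..1, u s with hm
  have h0 : 0 ≤ ∫ s in (0 : ℝ)..1, (u s - m) ^ 2 :=
    intervalIntegral.integral_nonneg (by norm_num) fun s _ => by positivity
  have e : ∫ s in (0 : ℝ)..1, (u s - m) ^ 2 =
      (∫ s in (0 : ℝ)..1, u s ^ 2) - 2 * m * m + m ^ 2 := by
    have e1 : ∀ s, (u s - m) ^ 2 = (u s ^ 2 - 2 * m * u s) + m ^ 2 := fun s => by ring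
    simp only [e1]
    rw [intervalIntegral.integral_add, intervalIntegral.integral_sub,
      intervalIntegral.integral_const_mul, intervalIntegral.integral_const, ← hm]
    · simp
    · exact (hu.pow 2).intervalIntegrable _ _
    · exact (continuous_const.mul hu).intervalIntegrable _ _
    · exact ((hu.pow 2).sub (continuous_const.mul hu)).intervalIntegrable _ _
    · exact continuous_const.intervalIntegrable _ _
  rw [e] at h0
  nlinarith

private theorem hf_pt (f : E3 → ℂ) (hf : ContDiff ℝ 1 f) (h v : E3) :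
    ‖f (v + h) - f v‖ ^ 2 ≤ ∫ s in (0 : ℝ)..1, ‖fderiv ℝ f (v + s • h) h‖ ^ 2 := by
  have hD : Continuous fun s : ℝ => fderiv ℝ f (v + s • h) h := by
    refine ((hf_fd_cont f hf).comp ?_).clm_apply continuous_const
    exact continuous_const.add (continuous_id.smul continuous_const)
  have h1 : ∫ s in (0 : ℝ)..1, fderiv ℝ f (v + s • h) h = f (v + h) - f v := by
    have h2 : ∀ s : ℝ, HasDerivAt (fun s : ℝ => f (v + s • h)) (fderiv ℝ f (v + s • h) h) s := by
      intro s
      have h3 : HasDerivAt (fun s : ℝ => v + s • h) h s := by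
        have := ((hasDerivAt_id s).smul_const h).const_add v
        simpa using this
      exact ((hf.differentiable one_ne_zero _).hasFDerivAt).comp_hasDerivAt s h3
    rw [intervalIntegral.integral_eq_sub_of_hasDerivAt (fun s _ => h2 s)
      (hD.intervalIntegrable _ _)]
    simp
  rw [← h1]
  refine le_trans ?_ (hf_cs _ hD.norm)
  apply pow_le_pow_left₀ (norm_nonneg _)
  exact intervalIntegral.norm_integral_le_integral_norm (by norm_num)

theorem trans_le (f : E3 → ℂ) (hf : ContDiff ℝ 1 f) (hc : HasCompactSupport f) (h : E3) :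
    ∫ v, ‖f (v + h) - f v‖ ^ 2 ≤ ∫ v, ‖fderiv ℝ f v h‖ ^ 2 := by
  have hR := hf_dir f hf hc h
  have hL : Integrable (fun v => ‖f (v + h) - f v‖ ^ 2) := by
    have h1 : Continuous (fun v => ‖f (v + h) - f v‖ ^ 2) :=
      ((hf.continuous.comp (continuous_id.add continuous_const)).sub hf.continuous).norm.pow 2
    have h2 : HasCompactSupport (fun v => f (v + h) - f v) := by
      have h3 : HasCompactSupport (fun v => f (v + h)) :=
        hc.comp_homeomorph (Homeomorph.addRight h)
      have h4 := h3.add hc.neg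
      refine h4.mono' ?_
      intro v hv
      apply subset_tsupport
      simpa [sub_eq_add_neg] using hv
    have h5 : HasCompactSupport (fun v => ‖f (v + h) - f v‖ ^ 2) := by
      have := h2.comp_left (g := fun z : ℂ => ‖z‖ ^ 2) (by rw [norm_zero]; norm_num)
      exact this
    exact h1.integrable_of_hasCompactSupport h5
  have hjoint : Continuous (Function.uncurry fun (v : E3) (s : ℝ) =>
      ENNReal.ofReal (‖fderiv ℝ f (v + s • h) h‖ ^ 2)) := by
    apply ENNReal.continuous_ofReal.comp
    refine Continuous.pow (Continuous.norm ?_) 2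
    refine ((hf_fd_cont f hf).comp ?_).clm_apply continuous_const
    exact continuous_fst.add (continuous_snd.smul continuous_const)
  have key : ∫⁻ v, ENNReal.ofReal (‖f (v + h) - f v‖ ^ 2) ≤
      ∫⁻ v, ENNReal.ofReal (‖fderiv ℝ f v h‖ ^ 2) := by
    calc ∫⁻ v, ENNReal.ofReal (‖f (v + h) - f v‖ ^ 2)
        ≤ ∫⁻ v, ∫⁻ s in Set.Ioc (0 : ℝ) 1,
            ENNReal.ofReal (‖fderiv ℝ f (v + s • h) h‖ ^ 2) := by
          apply lintegral_mono
          intro v
          have hD : Continuous fun s : ℝ => ‖fderiv ℝ f (v + s • h) h‖ ^ 2 := by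
            refine Continuous.pow (Continuous.norm ?_) 2
            refine ((hf_fd_cont f hf).comp ?_).clm_apply continuous_const
            exact continuous_const.add (continuous_id.smul continuous_const)
          beta_reduce
          rw [← ofReal_integral_eq_lintegral_ofReal]
          · apply ENNReal.ofReal_le_ofReal
            rw [← intervalIntegral.integral_of_le (by norm_num)]
            exact hf_pt f hf h v
          · exact (hD.continuousOn.integrableOn_Icc (a := 0) (b := 1)).mono_set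
              Set.Ioc_subset_Icc_self
          · exact Filter.Eventually.of_forall fun s => by positivity
      _ = ∫⁻ s in Set.Ioc (0 : ℝ) 1, ∫⁻ v,
            ENNReal.ofReal (‖fderiv ℝ f (v + s • h) h‖ ^ 2) :=
          lintegral_lintegral_swap hjoint.measurable.aemeasurable
      _ = ∫⁻ s in Set.Ioc (0 : ℝ) 1, ∫⁻ v, ENNReal.ofReal (‖fderiv ℝ f v h‖ ^ 2) := by
          congr 1
          funext s
          exact lintegral_add_right_eq_self
            (fun v => ENNReal.ofReal (‖fderiv ℝ f v h‖ ^ 2)) (s • h)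
      _ = ∫⁻ v, ENNReal.ofReal (‖fderiv ℝ f v h‖ ^ 2) := by
          rw [setLIntegral_const, Real.volume_Ioc]
          simp
  rw [← ofReal_integral_eq_lintegral_ofReal hL (Filter.Eventually.of_forall fun v => by positivity),
    ← ofReal_integral_eq_lintegral_ofReal hR
      (Filter.Eventually.of_forall fun v => by positivity)] at key
  exact (ENNReal.ofReal_le_ofReal_iff (integral_nonneg fun v => by positivity)).1 key

private theorem hf_k2 (t : ℝ) (ht : 0 < t) : Integrable (fun v : E3 => hk t v * ‖v‖ ^ 2) := by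
  have e : ∀ v : E3, hk t v * ‖v‖ ^ 2 =
      ∑ d : Fin 3, hk t v * ‖(Complex.ofRealCLM.comp (EuclideanSpace.proj d : E3 →L[ℝ] ℝ)) v‖ ^ 2 := by
    intro v
    rw [EuclideanSpace.norm_sq_eq, Finset.mul_sum]
    refine Finset.sum_congr rfl fun d _ => ?_
    simp
  refine Integrable.congr ?_ (Filter.Eventually.of_forall fun v => (e v).symm)
  exact integrable_finsetSum _ fun d _ => (hk_second t ht _).1

theorem FF_le (f : E3 → ℂ) (hf : ContDiff ℝ 1 f) (hc : HasCompactSupport f) (t : ℝ)
    (ht : 0 < t) : FF f t ≤ t * ∫ v, g3 f v := by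
  obtain ⟨h1, h2⟩ := FF_eq f hf.continuous hc t ht
  have hcontk : Continuous (hk t) := by
    unfold hk
    exact continuous_const.mul
      (Real.continuous_exp.comp ((continuous_norm.pow 2).div_const _).neg)
  have hprod : Integrable (fun p : E3 × E3 => hk t p.1 * ‖fderiv ℝ f p.2 p.1‖ ^ 2) := by
    have h3 : Integrable (fun p : E3 × E3 =>
        (hk t p.1 * ‖p.1‖ ^ 2) * ‖fderiv ℝ f p.2‖ ^ 2) := (hf_k2 t ht).mul_prod (hf_op f hf hc)
    refine h3.mono' ?_ ?_
    · have : Continuous (fun p : E3 × E3 => hk t p.1 * ‖fderiv ℝ f p.2 p.1‖ ^ 2) := by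
        refine (hcontk.comp continuous_fst).mul (Continuous.pow (Continuous.norm ?_) 2)
        exact ((hf_fd_cont f hf).comp continuous_snd).clm_apply continuous_fst
      exact this.aestronglyMeasurable
    · refine Filter.Eventually.of_forall fun p => ?_
      have hk0 := (hk_pos t ht p.1).le
      rw [Real.norm_eq_abs, abs_of_nonneg (mul_nonneg hk0 (by positivity)), mul_assoc]
      apply mul_le_mul_of_nonneg_left _ hk0
      rw [← mul_pow]
      apply pow_le_pow_left₀ (norm_nonneg _)
      rw [mul_comm]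
      exact (fderiv ℝ f p.2).le_opNorm p.1
  have e1 : ∀ h, hk t h * ∫ v, ‖fderiv ℝ f v h‖ ^ 2 =
      ∫ v, hk t h * ‖fderiv ℝ f v h‖ ^ 2 := fun h => (integral_const_mul _ _).symm
  have h4 : Integrable (fun h => hk t h * ∫ v, ‖fderiv ℝ f v h‖ ^ 2) :=
    hprod.integral_prod_left.congr (Filter.Eventually.of_forall fun h => (e1 h).symm)
  have h5 : ∫ h, hk t h * ∫ v, ‖f (v + h) - f v‖ ^ 2 ≤
      ∫ h, hk t h * ∫ v, ‖fderiv ℝ f v h‖ ^ 2 := by
    apply integral_mono h1 h4
    intro h
    exact mul_le_mul_of_nonneg_left (trans_le f hf hc h) (hk_pos t ht h).le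
  have h6 : ∫ h, hk t h * ∫ v, ‖fderiv ℝ f v h‖ ^ 2 = ∫ v, 2 * t * g3 f v := by
    rw [integral_congr_ae (Filter.Eventually.of_forall e1), integral_integral_swap hprod]
    apply integral_congr_ae
    refine Filter.Eventually.of_forall fun v => ?_
    exact (hk_second t ht (fderiv ℝ f v)).2
  rw [h2]
  rw [h6, integral_const_mul] at h5
  linarith

end H6.CM
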