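import Pool.Agent.H6.CM.HeatF
import Pool.Agent.H6.CM.HeatD

/-! Telescoping: `∑ 2^-j (2 F (2^j) - F (2^(j+1))) = 2 (2^J F (2^-J)) - 2 · 2^-(J+1) F (2^(J+1))`. -/

open MeasureTheory Finset

namespace H6.CM

private theorem hs_tel (b : ℤ → ℝ) (a : ℤ) (n : ℕ) :
    ∑ j ∈ Finset.Icc a (a + n), (b j - b (j + 1)) = b a - b (a + n + 1) := by
  induction n with
  | zero => simp
  | succ n ih =>
    have e : Finset.Icc a (a + ((n + 1 : ℕ) : ℤ)) =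
        insert (a + n + 1) (Finset.Icc a (a + n)) := by
      ext x
      simp only [Finset.mem_Icc, Finset.mem_insert]
      push_cast
      omega
    rw [e, Finset.sum_insert (by simp), ih]
    push_cast
    have e2 : a + (n : ℤ) + 1 + 1 = a + ((n : ℤ) + 1) + 1 := by ring
    rw [e2]
    ring

theorem heat_sum (f : E3 → ℂ) (hf : ContDiff ℝ 1 f) (hc : HasCompactSupport f) (J : ℕ) :
    ∑ j ∈ Finset.Icc (-(J : ℤ)) J, ((2 : ℝ) ^ j)⁻¹ * ∫ v, ‖f v - Ph ((2 : ℝ) ^ j) f v‖ ^ 2 ≤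
      2 * ∫ v, g3 f v := by
  have hterm : ∀ j : ℤ, ((2 : ℝ) ^ j)⁻¹ * ∫ v, ‖f v - Ph ((2 : ℝ) ^ j) f v‖ ^ 2 =
      2 * (((2 : ℝ) ^ j)⁻¹ * FF f ((2 : ℝ) ^ j)) -
        2 * (((2 : ℝ) ^ (j + 1))⁻¹ * FF f ((2 : ℝ) ^ (j + 1))) := by
    intro j
    have hp : (0 : ℝ) < (2 : ℝ) ^ j := by positivity
    rw [(FF_diff f hf.continuous hc _ hp).2]
    have e : (2 : ℝ) * 2 ^ j = 2 ^ (j + 1) := by
      rw [zpow_add_one₀ (by norm_num)]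
      ring
    rw [e]
    have e2 : (2 : ℝ) ^ (j + 1) = 2 ^ j * 2 := zpow_add_one₀ (by norm_num) j
    have e3 : ((2 : ℝ) ^ j)⁻¹ = 2 * ((2 : ℝ) ^ (j + 1))⁻¹ := by
      rw [e2]
      field_simp
    rw [mul_sub, e3]
    ring
  simp only [hterm]
  have h1 := hs_tel (fun j => 2 * (((2 : ℝ) ^ j)⁻¹ * FF f ((2 : ℝ) ^ j))) (-(J : ℤ)) (2 * J)
  have e : -(J : ℤ) + ((2 * J : ℕ) : ℤ) = J := by
    push_cast
    ring
  rw [e] at h1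
  rw [h1]
  have hp : (0 : ℝ) < (2 : ℝ) ^ (-(J : ℤ)) := by positivity
  have hp2 : (0 : ℝ) < (2 : ℝ) ^ ((J : ℤ) + 1) := by positivity
  have h2 := FF_le f hf hc _ hp
  have h3 := FF_nonneg f hf hc _ hp2
  have h4 : ((2 : ℝ) ^ (-(J : ℤ)))⁻¹ * FF f ((2 : ℝ) ^ (-(J : ℤ))) ≤ ∫ v, g3 f v := by
    rw [inv_mul_le_iff₀ hp]
    exact h2
  have h5 : 0 ≤ ((2 : ℝ) ^ ((J : ℤ) + 1))⁻¹ * FF f ((2 : ℝ) ^ ((J : ℤ) + 1)) := by positivity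
  linarith

end H6.CM
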