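import Pool.Agent.H6.CM.PDefs

/-! Fubini for the slices (`volume_preserving_piFinSuccAbove` in both factors; the sum over `τ` and `σ` is the sum over all spin configurations, `Fin.insertNthEquiv` or `Fin.consEquiv`). -/

open MeasureTheory Finset

namespace H6.CM

private theorem shuf_mp {A B X Y : Type} [MeasureSpace A] [MeasureSpace B] [MeasureSpace X]
    [MeasureSpace Y] [SigmaFinite (volume : Measure A)] [SigmaFinite (volume : Measure B)]
    [SigmaFinite (volume : Measure X)] [SigmaFinite (volume : Measure Y)] :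
    MeasurePreserving (fun z : (A × B) × (X × Y) => ((z.1.1, z.2.1), (z.1.2, z.2.2)))
      volume volume := by
  have g1 : MeasurePreserving (MeasurableEquiv.prodAssoc.symm : B × (X × Y) ≃ᵐ (B × X) × Y) :=
    (volume_preserving_prodAssoc (α₁ := B) (β₁ := X) (γ₁ := Y)).symm _
  have g2 : MeasurePreserving (Prod.map Prod.swap id : (B × X) × Y → (X × B) × Y) :=
    (Measure.measurePreserving_swap (μ := (volume : Measure B)) (ν := (volume : Measure X))).prod
      (MeasurePreserving.id (volume : Measure Y))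
  have g3 : MeasurePreserving (MeasurableEquiv.prodAssoc : (X × B) × Y ≃ᵐ X × (B × Y)) :=
    volume_preserving_prodAssoc
  have f1 : MeasurePreserving (MeasurableEquiv.prodAssoc : (A × B) × (X × Y) ≃ᵐ A × (B × (X × Y))) :=
    volume_preserving_prodAssoc
  have f2 := (MeasurePreserving.id (volume : Measure A)).prod (g3.comp (g2.comp g1))
  have f3 : MeasurePreserving
      (MeasurableEquiv.prodAssoc.symm : A × (X × (B × Y)) ≃ᵐ (A × X) × (B × Y)) :=
    (volume_preserving_prodAssoc (α₁ := A) (β₁ := X) (γ₁ := B × Y)).symm _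
  exact f3.comp (f2.comp f1)

/-- the shuffle as an equivalence -/
private def shuf (A B X Y : Type) [MeasurableSpace A] [MeasurableSpace B] [MeasurableSpace X]
    [MeasurableSpace Y] : (A × B) × (X × Y) ≃ᵐ (A × X) × (B × Y) where
  toFun z := ((z.1.1, z.2.1), (z.1.2, z.2.2))
  invFun z := ((z.1.1, z.2.1), (z.1.2, z.2.2))
  left_inv _ := rfl
  right_inv _ := rfl
  measurable_toFun := by
    change Measurable (fun z : (A × B) × (X × Y) => ((z.1.1, z.2.1), (z.1.2, z.2.2)))
    fun_prop
  measurable_invFun := by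
    change Measurable (fun z : (A × X) × (B × Y) => ((z.1.1, z.2.1), (z.1.2, z.2.2)))
    fun_prop

/-- the full equivalence -/
private noncomputable def phe (n k : ℕ) (a : Fin (n + 1)) (j : Fin (k + 1)) :
    (E3 × E3) × Cfg n k ≃ᵐ Cfg (n + 1) (k + 1) :=
  (shuf E3 E3 (Fin n → E3) (Fin k → E3)).trans
    (MeasurableEquiv.prodCongr (MeasurableEquiv.piFinSuccAbove (fun _ => E3) a).symm
      (MeasurableEquiv.piFinSuccAbove (fun _ => E3) j).symm)

private theorem phe_mp (n k : ℕ) (a : Fin (n + 1)) (j : Fin (k + 1)) :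
    MeasurePreserving (phe n k a j) volume volume := by
  have h1 : MeasurePreserving (shuf E3 E3 (Fin n → E3) (Fin k → E3)) volume volume := shuf_mp
  have h2 := (volume_preserving_piFinSuccAbove (fun _ : Fin (n + 1) => E3) a).symm
  have h3 := (volume_preserving_piFinSuccAbove (fun _ : Fin (k + 1) => E3) j).symm
  exact (h2.prod h3).comp h1

private theorem phe_apply {n k : ℕ} (a : Fin (n + 1)) (j : Fin (k + 1)) (z : (E3 × E3) × Cfg n k) :
    phe n k a j z = (Fin.insertNth (α := fun _ => E3) a z.1.1 z.2.1,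
      Fin.insertNth (α := fun _ => E3) j z.1.2 z.2.2) := rfl

theorem slc_int {q n k : ℕ} (a : Fin (n + 1)) (j : Fin (k + 1))
    (F : (Fin (n + 1) → Fin q) → Cfg (n + 1) (k + 1) → ℝ) (hF : ∀ σ, Integrable (F σ)) :
    Integrable (fun u : E3 × E3 => ∑ τ : Fin q, ∑ σ : Fin n → Fin q, ∫ p : Cfg n k,
      F (Fin.insertNth (α := fun _ => Fin q) a τ σ)
        (Fin.insertNth (α := fun _ => E3) a u.1 p.1,
          Fin.insertNth (α := fun _ => E3) j u.2 p.2)) ∧
    ∫ u : E3 × E3, ∑ τ : Fin q, ∑ σ : Fin n → Fin q, ∫ p : Cfg n k,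
      F (Fin.insertNth (α := fun _ => Fin q) a τ σ)
        (Fin.insertNth (α := fun _ => E3) a u.1 p.1,
          Fin.insertNth (α := fun _ => E3) j u.2 p.2) =
      ∑ σ, ∫ p, F σ p := by
  have h1 : ∀ σ, Integrable (fun z => F σ (phe n k a j z))
      ((volume : Measure (E3 × E3)).prod (volume : Measure (Cfg n k))) := fun σ =>
    ((phe_mp n k a j).integrable_comp_emb (phe n k a j).measurableEmbedding).2 (hF σ)
  have h2 : ∀ σ, Integrable (fun u : E3 × E3 => ∫ p : Cfg n k, F σ (phe n k a j (u, p))) :=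
    fun σ => (h1 σ).integral_prod_left
  have h3 : ∀ σ, ∫ u : E3 × E3, ∫ p : Cfg n k, F σ (phe n k a j (u, p)) = ∫ p, F σ p := by
    intro σ
    rw [← integral_prod _ (h1 σ)]
    exact (phe_mp n k a j).integral_comp (phe n k a j).measurableEmbedding (F σ)
  refine ⟨integrable_finsetSum _ fun τ _ => integrable_finsetSum _ fun σ _ => h2 _, ?_⟩
  have h6 := integral_finsetSum (μ := (volume : Measure (E3 × E3))) univ
    (f := fun (τ : Fin q) (u : E3 × E3) => ∑ σ : Fin n → Fin q, ∫ p : Cfg n k,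
      F (Fin.insertNth (α := fun _ => Fin q) a τ σ) (phe n k a j (u, p)))
    fun τ _ => integrable_finsetSum _ fun σ _ => h2 _
  refine h6.trans ?_
  have h4 : ∀ τ : Fin q, ∫ u : E3 × E3, ∑ σ : Fin n → Fin q, ∫ p : Cfg n k,
      F (Fin.insertNth (α := fun _ => Fin q) a τ σ) (phe n k a j (u, p)) =
      ∑ σ : Fin n → Fin q, ∫ p, F (Fin.insertNth (α := fun _ => Fin q) a τ σ) p := by
    intro τ
    rw [integral_finsetSum _ fun σ _ => h2 _]
    exact sum_congr rfl fun σ _ => h3 _
  have h5 := sum_congr rfl fun τ (_ : τ ∈ univ) => h4 τ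
  refine h5.trans ?_
  rw [← Fintype.sum_prod_type'
    (f := fun τ (σ : Fin n → Fin q) => ∫ p, F (Fin.insertNth (α := fun _ => Fin q) a τ σ) p)]
  exact Equiv.sum_comp (Fin.insertNthEquiv (fun _ => Fin q) a) (fun σ => ∫ p, F σ p)

end H6.CM
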