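import Pool.Agent.H6.CM.InsSt
import Pool.Agent.H6.CM.IntAll
import Pool.Agent.H6.CM.Grad
import Pool.Agent.H6.CM.GCont
import Pool.Agent.H6.CM.SlcInt

/-! Mass and energy of the trial function: integrate the last electron and the last nucleus (`volume_preserving_piFinSuccAbove` at `Fin.last`, or `slc_int` with `a`, `j` last). The new electron and the new nucleus have the same density, so their interactions with every other particle cancel exactly; their mutual interaction is nonpositive and dropped. -/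

open MeasureTheory Finset

namespace H6.CM

/-- appending a last point -/
private abbrev sn {m : ℕ} (x : Fin m → E3) (u : E3) : Fin (m + 1) → E3 :=
  Fin.snoc (α := fun _ => E3) x u

/-- appending a last spin -/
private abbrev sq {q m : ℕ} (σ : Fin m → Fin q) (τ : Fin q) : Fin (m + 1) → Fin q :=
  Fin.snoc (α := fun _ => Fin q) σ τ

private theorem sn_last {m : ℕ} (x : Fin m → E3) (u : E3) : sn x u (Fin.last m) = u :=
  Fin.snoc_last _ _

private theorem sn_cast {m : ℕ} (x : Fin m → E3) (u : E3) (b : Fin m) :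
    sn x u b.castSucc = x b := Fin.snoc_castSucc _ _ _

private theorem sn_upd {m : ℕ} (x : Fin m → E3) (u : E3) (b : Fin m) (y : E3) :
    Function.update (sn x u) b.castSucc y = sn (Function.update x b y) u :=
  (Fin.snoc_update _ _ _ _).symm

private theorem sn_upd_last {m : ℕ} (x : Fin m → E3) (u y : E3) :
    Function.update (sn x u) (Fin.last m) y = sn x y := Fin.update_snoc_last _ _ _

section

variable {q n k : ℕ} {Λ : Set E3} {φ : (Fin n → Fin q) → Cfg n k → ℂ} (hφ : St q n k Λ φ)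
  {χ : E3 → ℝ} (hχ : Bump χ) (r : ℝ) (hr : 0 < r) (w : E3) (α : Fin q)

/-- Fubini for functions which vanish if the last spin is not `α` -/
private theorem slcL (F : (Fin (n + 1) → Fin q) → Cfg (n + 1) (k + 1) → ℝ)
    (hF : ∀ σ, Integrable (F σ)) (c : E3 → E3 → ℝ)
    (B : E3 → E3 → (Fin n → Fin q) → Cfg n k → ℝ)
    (hFB : ∀ τ σ u v p, F (sq σ τ) (sn p.1 u, sn p.2 v) =
      if τ = α then c u v * B u v σ p else 0) :
    ∑ σ, ∫ p, F σ p = ∫ u : E3 × E3, c u.1 u.2 * ∑ σ, ∫ p, B u.1 u.2 σ p := by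
  rw [← (slc_int (Fin.last n) (Fin.last k) F hF).2]
  congr 1
  funext u
  have h1 : ∀ τ : Fin q, ∑ σ : Fin n → Fin q, ∫ p : Cfg n k,
      F (Fin.insertNth (α := fun _ => Fin q) (Fin.last n) τ σ)
        (Fin.insertNth (α := fun _ => E3) (Fin.last n) u.1 p.1,
          Fin.insertNth (α := fun _ => E3) (Fin.last k) u.2 p.2) =
      if τ = α then c u.1 u.2 * ∑ σ, ∫ p, B u.1 u.2 σ p else 0 := by
    intro τ
    have h2 : ∀ (σ : Fin n → Fin q) (p : Cfg n k),
        F (Fin.insertNth (α := fun _ => Fin q) (Fin.last n) τ σ)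
        (Fin.insertNth (α := fun _ => E3) (Fin.last n) u.1 p.1,
          Fin.insertNth (α := fun _ => E3) (Fin.last k) u.2 p.2) =
        if τ = α then c u.1 u.2 * B u.1 u.2 σ p else 0 := by
      intro σ p
      rw [Fin.insertNth_last', Fin.insertNth_last', Fin.insertNth_last']
      exact hFB τ σ u.1 u.2 p
    simp only [h2]
    split_ifs with h
    · rw [mul_sum]
      exact sum_congr rfl fun σ _ => integral_const_mul _ _
    · simp
  rw [sum_congr rfl fun τ _ => h1 τ, sum_ite_eq' univ α, if_pos (mem_univ α)]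

private theorem ins_sn (τ : Fin q) (σ : Fin n → Fin q) (u v : E3) (x : Fin n → E3)
    (R : Fin k → E3) : ins χ r w α φ (sq σ τ) (sn x u, sn R v) = if τ = α then
      ((chr χ r (u - w) * chr χ r (v - w) : ℝ) : ℂ) * φ σ (x, R) else 0 := by
  unfold ins
  simp only [Fin.snoc_last, Fin.snoc_castSucc]

private theorem norm_ins (τ : Fin q) (σ : Fin n → Fin q) (u v : E3) (p : Cfg n k) :
    ‖ins χ r w α φ (sq σ τ) (sn p.1 u, sn p.2 v)‖ ^ 2 = if τ = α then
      chr χ r (u - w) ^ 2 * chr χ r (v - w) ^ 2 * ‖φ σ p‖ ^ 2 else 0 := by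
  rw [ins_sn]
  split_ifs
  · rw [norm_mul, Complex.norm_real, Real.norm_eq_abs, mul_pow, sq_abs, mul_pow]
  · simp

include hφ in
private theorem diffE (σ : Fin n → Fin q) (p : Cfg n k) (b : Fin n) (v : E3) :
    DifferentiableAt ℝ (fun v => φ σ (Function.update p.1 b v, p.2)) v := by
  have hF : Differentiable ℝ (φ σ) := (hφ.smooth σ).differentiable (by simp)
  have h1 : DifferentiableAt ℝ (fun v : E3 => ((Function.update p.1 b v, p.2) : Cfg n k)) v :=
    ((hasFDerivAt_update p.1 v).differentiableAt).prodMk (differentiableAt_const _)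
  exact (hF _).comp v h1

include hφ in
private theorem diffN (σ : Fin n → Fin q) (p : Cfg n k) (b : Fin k) (v : E3) :
    DifferentiableAt ℝ (fun v => φ σ (p.1, Function.update p.2 b v)) v := by
  have hF : Differentiable ℝ (φ σ) := (hφ.smooth σ).differentiable (by simp)
  have h1 : DifferentiableAt ℝ (fun v : E3 => ((p.1, Function.update p.2 b v) : Cfg n k)) v :=
    (differentiableAt_const _).prodMk ((hasFDerivAt_update p.2 v).differentiableAt)
  exact (hF _).comp v h1

private theorem g3_zero (v : E3) : g3 (fun _ : E3 => (0 : ℂ)) v = 0 := by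
  simp [g3]

private theorem nrm (a b : ℝ) : ‖((a * b : ℝ) : ℂ)‖ ^ 2 = a ^ 2 * b ^ 2 := by
  rw [Complex.norm_real, Real.norm_eq_abs, sq_abs, mul_pow]

include hφ in
private theorem ge_cast (τ : Fin q) (σ : Fin n → Fin q) (u v : E3) (p : Cfg n k) (b : Fin n) :
    ge (ins χ r w α φ (sq σ τ)) b.castSucc (sn p.1 u, sn p.2 v) = if τ = α then
      chr χ r (u - w) ^ 2 * chr χ r (v - w) ^ 2 * ge (φ σ) b p else 0 := by
  unfold ge
  have h1 : (fun y => ins χ r w α φ (sq σ τ) (Function.update (sn p.1 u) b.castSucc y,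
      sn p.2 v)) = fun y => if τ = α then
      ((chr χ r (u - w) * chr χ r (v - w) : ℝ) : ℂ) * φ σ (Function.update p.1 b y, p.2)
      else 0 := by
    funext y
    rw [sn_upd, ins_sn]
  dsimp only
  rw [h1, sn_cast]
  split_ifs
  · rw [g3_const_mul _ _ _ (diffE hφ σ p b _), nrm]
  · rw [g3_zero]

include hφ in
private theorem gn_cast (τ : Fin q) (σ : Fin n → Fin q) (u v : E3) (p : Cfg n k) (b : Fin k) :
    gn (ins χ r w α φ (sq σ τ)) b.castSucc (sn p.1 u, sn p.2 v) = if τ = α then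
      chr χ r (u - w) ^ 2 * chr χ r (v - w) ^ 2 * gn (φ σ) b p else 0 := by
  unfold gn
  have h1 : (fun y => ins χ r w α φ (sq σ τ) (sn p.1 u,
      Function.update (sn p.2 v) b.castSucc y)) = fun y => if τ = α then
      ((chr χ r (u - w) * chr χ r (v - w) : ℝ) : ℂ) * φ σ (p.1, Function.update p.2 b y)
      else 0 := by
    funext y
    rw [sn_upd, ins_sn]
  dsimp only
  rw [h1, sn_cast]
  split_ifs
  · rw [g3_const_mul _ _ _ (diffN hφ σ p b _), nrm]
  · rw [g3_zero]

include hχ hr in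
private theorem h_diff (v : E3) : DifferentiableAt ℝ (fun v => chr χ r (v - w)) v := by
  have h1 : ContDiff ℝ (⊤ : ℕ∞) (fun v => chr χ r (v - w)) :=
    (chr_smooth hχ r hr).comp (contDiff_id.sub contDiff_const)
  exact h1.differentiable (by simp) v

include hχ hr in
private theorem ge_last (τ : Fin q) (σ : Fin n → Fin q) (u v : E3) (p : Cfg n k) :
    ge (ins χ r w α φ (sq σ τ)) (Fin.last n) (sn p.1 u, sn p.2 v) = if τ = α then
      gr (fun v => chr χ r (v - w)) u * chr χ r (v - w) ^ 2 * ‖φ σ p‖ ^ 2 else 0 := by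
  unfold ge
  have h1 : (fun y => ins χ r w α φ (sq σ τ) (Function.update (sn p.1 u) (Fin.last n) y,
      sn p.2 v)) = fun y => if τ = α then
      ((chr χ r (y - w) : ℝ) : ℂ) * (((chr χ r (v - w) : ℝ) : ℂ) * φ σ p) else 0 := by
    funext y
    rw [sn_upd_last, ins_sn]
    split_ifs
    · push_cast
      ring
    · rfl
  dsimp only
  rw [h1, sn_last]
  split_ifs
  · rw [g3_real_mul _ _ _ (h_diff hχ r hr w u), norm_mul, mul_pow, Complex.norm_real,
      Real.norm_eq_abs, sq_abs]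
    ring
  · rw [g3_zero]

include hχ hr in
private theorem gn_last (τ : Fin q) (σ : Fin n → Fin q) (u v : E3) (p : Cfg n k) :
    gn (ins χ r w α φ (sq σ τ)) (Fin.last k) (sn p.1 u, sn p.2 v) = if τ = α then
      chr χ r (u - w) ^ 2 * gr (fun v => chr χ r (v - w)) v * ‖φ σ p‖ ^ 2 else 0 := by
  unfold gn
  have h1 : (fun y => ins χ r w α φ (sq σ τ) (sn p.1 u,
      Function.update (sn p.2 v) (Fin.last k) y)) = fun y => if τ = α then
      ((chr χ r (y - w) : ℝ) : ℂ) * (((chr χ r (u - w) : ℝ) : ℂ) * φ σ p) else 0 := by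
    funext y
    rw [sn_upd_last, ins_sn]
    split_ifs
    · push_cast
      ring
    · rfl
  dsimp only
  rw [h1, sn_last]
  split_ifs
  · rw [g3_real_mul _ _ _ (h_diff hχ r hr w v), norm_mul, mul_pow, Complex.norm_real,
      Real.norm_eq_abs, sq_abs]
    ring
  · rw [g3_zero]

include hχ hr in
private theorem h_one : ∫ v, chr χ r (v - w) ^ 2 = 1 := by
  rw [integral_sub_right_eq_self (fun v => chr χ r v ^ 2) w]
  exact chr_norm hχ r hr

include hχ hr in
private theorem h_gr : ∫ v, gr (fun v => chr χ r (v - w)) v = (r ^ 2)⁻¹ * ∫ v, gr χ v := by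
  have h1 : ∀ v, gr (fun v => chr χ r (v - w)) v = gr (chr χ r) (v - w) := by
    intro v
    unfold gr
    simp only [sub_eq_add_neg]
    rw [fderiv_comp_add_right]
  simp only [h1]
  rw [integral_sub_right_eq_self (fun v => gr (chr χ r) v) w]
  exact chr_grad hχ r hr

include hφ hχ hr in
private theorem sq_ok (σ : Fin (n + 1) → Fin q) :
    Continuous (fun p => ‖ins χ r w α φ σ p‖ ^ 2) ∧
    HasCompactSupport (fun p => ‖ins χ r w α φ σ p‖ ^ 2) :=
  ⟨(ins_smooth hφ hχ r hr w α σ).continuous.norm.pow 2,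
    (ins_cpt hφ hχ r hr w α σ).comp_left (g := fun x : ℂ => ‖x‖ ^ 2) (by simp)⟩

private theorem prod2 (f g : E3 → ℝ) : ∫ u : E3 × E3, f u.1 * g u.2 =
    (∫ v, f v) * ∫ v, g v := integral_prod_mul f g

include hφ hχ hr in
private theorem mass_eq : mass (ins χ r w α φ) = mass φ := by
  unfold mass
  rw [slcL α (fun σ p => ‖ins χ r w α φ σ p‖ ^ 2) (fun σ =>
    (sq_ok hφ hχ r hr w α σ).1.integrable_of_hasCompactSupport (sq_ok hφ hχ r hr w α σ).2)
    (fun u v => chr χ r (u - w) ^ 2 * chr χ r (v - w) ^ 2) (fun _ _ σ p => ‖φ σ p‖ ^ 2)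
    (fun τ σ u v p => norm_ins r w α τ σ u v p), integral_mul_const,
    prod2 (fun u => chr χ r (u - w) ^ 2) (fun v => chr χ r (v - w) ^ 2), h_one hχ r hr w]
  ring

include hφ hχ hr in
private theorem kE_cast (b : Fin n) : kE (ins χ r w α φ) b.castSucc = kE φ b := by
  unfold kE
  have hc1 : ∀ σ, ContDiff ℝ 1 (ins χ r w α φ σ) := fun σ =>
    (ins_smooth hφ hχ r hr w α σ).of_le (by exact_mod_cast le_top)
  rw [slcL α (fun σ p => ge (ins χ r w α φ σ) b.castSucc p) (fun σ =>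
    (ge_cont _ (hc1 σ) _).integrable_of_hasCompactSupport
      (ge_cpt _ (hc1 σ) (ins_cpt hφ hχ r hr w α σ) _))
    (fun u v => chr χ r (u - w) ^ 2 * chr χ r (v - w) ^ 2) (fun _ _ σ p => ge (φ σ) b p)
    (fun τ σ u v p => ge_cast hφ r w α τ σ u v p b), integral_mul_const,
    prod2 (fun u => chr χ r (u - w) ^ 2) (fun v => chr χ r (v - w) ^ 2), h_one hχ r hr w]
  ring

include hφ hχ hr in
private theorem kN_cast (b : Fin k) : kN (ins χ r w α φ) b.castSucc = kN φ b := by
  unfold kN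
  have hc1 : ∀ σ, ContDiff ℝ 1 (ins χ r w α φ σ) := fun σ =>
    (ins_smooth hφ hχ r hr w α σ).of_le (by exact_mod_cast le_top)
  rw [slcL α (fun σ p => gn (ins χ r w α φ σ) b.castSucc p) (fun σ =>
    (gn_cont _ (hc1 σ) _).integrable_of_hasCompactSupport
      (gn_cpt _ (hc1 σ) (ins_cpt hφ hχ r hr w α σ) _))
    (fun u v => chr χ r (u - w) ^ 2 * chr χ r (v - w) ^ 2) (fun _ _ σ p => gn (φ σ) b p)
    (fun τ σ u v p => gn_cast hφ r w α τ σ u v p b), integral_mul_const,
    prod2 (fun u => chr χ r (u - w) ^ 2) (fun v => chr χ r (v - w) ^ 2), h_one hχ r hr w]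
  ring

include hφ hχ hr in
private theorem kE_last : kE (ins χ r w α φ) (Fin.last n) =
    (r ^ 2)⁻¹ * (∫ v, gr χ v) * mass φ := by
  unfold kE mass
  have hc1 : ∀ σ, ContDiff ℝ 1 (ins χ r w α φ σ) := fun σ =>
    (ins_smooth hφ hχ r hr w α σ).of_le (by exact_mod_cast le_top)
  rw [slcL α (fun σ p => ge (ins χ r w α φ σ) (Fin.last n) p) (fun σ =>
    (ge_cont _ (hc1 σ) _).integrable_of_hasCompactSupport
      (ge_cpt _ (hc1 σ) (ins_cpt hφ hχ r hr w α σ) _))
    (fun u v => gr (fun v => chr χ r (v - w)) u * chr χ r (v - w) ^ 2)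
    (fun _ _ σ p => ‖φ σ p‖ ^ 2)
    (fun τ σ u v p => ge_last hχ r hr w α τ σ u v p), integral_mul_const,
    prod2 (fun u => gr (fun v => chr χ r (v - w)) u) (fun v => chr χ r (v - w) ^ 2),
    h_one hχ r hr w, h_gr hχ r hr w]
  ring

include hφ hχ hr in
private theorem kN_last : kN (ins χ r w α φ) (Fin.last k) =
    (r ^ 2)⁻¹ * (∫ v, gr χ v) * mass φ := by
  unfold kN mass
  have hc1 : ∀ σ, ContDiff ℝ 1 (ins χ r w α φ σ) := fun σ =>
    (ins_smooth hφ hχ r hr w α σ).of_le (by exact_mod_cast le_top)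
  rw [slcL α (fun σ p => gn (ins χ r w α φ σ) (Fin.last k) p) (fun σ =>
    (gn_cont _ (hc1 σ) _).integrable_of_hasCompactSupport
      (gn_cpt _ (hc1 σ) (ins_cpt hφ hχ r hr w α σ) _))
    (fun u v => chr χ r (u - w) ^ 2 * gr (fun v => chr χ r (v - w)) v)
    (fun _ _ σ p => ‖φ σ p‖ ^ 2)
    (fun τ σ u v p => gn_last hχ r hr w α τ σ u v p), integral_mul_const,
    prod2 (fun u => chr χ r (u - w) ^ 2) (fun v => gr (fun v => chr χ r (v - w)) v),
    h_one hχ r hr w, h_gr hχ r hr w]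
  ring

/-- the configuration of the old particles -/
private def res (p : Cfg (n + 1) (k + 1)) : Cfg n k :=
  (fun b => p.1 b.castSucc, fun j => p.2 j.castSucc)

private theorem res_sn (u v : E3) (p : Cfg n k) : res (sn p.1 u, sn p.2 v) = p := by
  unfold res
  simp only [Fin.snoc_castSucc]

/-- the Coulomb energy of the larger configuration -/
private theorem V_res (p : Cfg (n + 1) (k + 1)) : V (fun _ => 1) p =
    V (fun _ => 1) (res p) - phi (fun _ => 1) (res p) (p.1 (Fin.last n)) +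
      phi (fun _ => 1) (res p) (p.2 (Fin.last k)) - ‖p.1 (Fin.last n) - p.2 (Fin.last k)‖⁻¹ := by
  unfold V phi res
  simp only [Fin.sum_univ_castSucc, sum_add_distrib, sub_self, norm_zero, inv_zero, one_mul,
    add_zero]
  have h1 : ∑ x : Fin n, ‖p.1 (Fin.last n) - p.1 x.castSucc‖⁻¹ =
      ∑ x : Fin n, ‖p.1 x.castSucc - p.1 (Fin.last n)‖⁻¹ :=
    sum_congr rfl fun x _ => by rw [norm_sub_rev]
  have h2 : ∑ x : Fin k, ‖p.2 (Fin.last k) - p.2 x.castSucc‖⁻¹ =
      ∑ x : Fin k, ‖p.2 x.castSucc - p.2 (Fin.last k)‖⁻¹ :=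
    sum_congr rfl fun x _ => by rw [norm_sub_rev]
  have h3 : ∑ x : Fin n, ‖p.2 (Fin.last k) - p.1 x.castSucc‖⁻¹ =
      ∑ x : Fin n, ‖p.1 x.castSucc - p.2 (Fin.last k)‖⁻¹ :=
    sum_congr rfl fun x _ => by rw [norm_sub_rev]
  rw [h1, h2, h3]
  ring

private theorem int_V {m l : ℕ} (z : Fin l → ℝ) (h : Cfg m l → ℝ) (hc : Continuous h)
    (hs : HasCompactSupport h) : Integrable (fun p => V z p * h p) := by
  have h1 : Integrable (fun p : Cfg m l => (∑ a, ∑ b, ‖p.1 a - p.1 b‖⁻¹ * h p) * (1 / 2) -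
      ∑ a, ∑ j, z j * (‖p.1 a - p.2 j‖⁻¹ * h p) +
      (∑ j, ∑ l', z j * z l' * (‖p.2 j - p.2 l'‖⁻¹ * h p)) * (1 / 2)) := by
    refine Integrable.add (Integrable.sub ?_ ?_) ?_
    · exact (integrable_finsetSum _ fun a _ => integrable_finsetSum _ fun b _ =>
        int_ee h hc hs a b).mul_const _
    · exact integrable_finsetSum _ fun a _ => integrable_finsetSum _ fun j _ =>
        (int_en h hc hs a j).const_mul _
    · exact (integrable_finsetSum _ fun j _ => integrable_finsetSum _ fun l' _ =>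
        (int_nn h hc hs j l').const_mul _).mul_const _
  refine h1.congr (Filter.Eventually.of_forall fun p => ?_)
  simp only [V, ← mul_assoc, ← sum_mul]
  ring

private theorem int_Vres (h : Cfg (n + 1) (k + 1) → ℝ) (hc : Continuous h)
    (hs : HasCompactSupport h) : Integrable (fun p => V (fun _ => 1) (res p) * h p) := by
  have h1 : Integrable (fun p : Cfg (n + 1) (k + 1) =>
      (∑ a : Fin n, ∑ b : Fin n, ‖p.1 a.castSucc - p.1 b.castSucc‖⁻¹ * h p) * (1 / 2) -
      ∑ a : Fin n, ∑ j : Fin k, ‖p.1 a.castSucc - p.2 j.castSucc‖⁻¹ * h p +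
      (∑ j : Fin k, ∑ l' : Fin k, ‖p.2 j.castSucc - p.2 l'.castSucc‖⁻¹ * h p) * (1 / 2)) := by
    refine Integrable.add (Integrable.sub ?_ ?_) ?_
    · exact (integrable_finsetSum _ fun a _ => integrable_finsetSum _ fun b _ =>
        int_ee h hc hs _ _).mul_const _
    · exact integrable_finsetSum _ fun a _ => integrable_finsetSum _ fun j _ =>
        int_en h hc hs _ _
    · exact (integrable_finsetSum _ fun j _ => integrable_finsetSum _ fun l' _ =>
        int_nn h hc hs _ _).mul_const _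
  refine h1.congr (Filter.Eventually.of_forall fun p => ?_)
  simp only [V, res, ← sum_mul, one_mul]
  ring

private theorem int_phiE (h : Cfg (n + 1) (k + 1) → ℝ) (hc : Continuous h)
    (hs : HasCompactSupport h) :
    Integrable (fun p => phi (fun _ => 1) (res p) (p.1 (Fin.last n)) * h p) := by
  have h1 : Integrable (fun p : Cfg (n + 1) (k + 1) =>
      ∑ j : Fin k, ‖p.1 (Fin.last n) - p.2 j.castSucc‖⁻¹ * h p -
      ∑ b : Fin n, ‖p.1 (Fin.last n) - p.1 b.castSucc‖⁻¹ * h p) :=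
    Integrable.sub (integrable_finsetSum _ fun j _ => int_en h hc hs _ _)
      (integrable_finsetSum _ fun j _ => int_ee h hc hs _ _)
  refine h1.congr (Filter.Eventually.of_forall fun p => ?_)
  simp only [phi, res, ← sum_mul, one_mul]
  ring

private theorem int_phiN (h : Cfg (n + 1) (k + 1) → ℝ) (hc : Continuous h)
    (hs : HasCompactSupport h) :
    Integrable (fun p => phi (fun _ => 1) (res p) (p.2 (Fin.last k)) * h p) := by
  have h1 : Integrable (fun p : Cfg (n + 1) (k + 1) =>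
      ∑ j : Fin k, ‖p.2 (Fin.last k) - p.2 j.castSucc‖⁻¹ * h p -
      ∑ b : Fin n, ‖p.1 b.castSucc - p.2 (Fin.last k)‖⁻¹ * h p) :=
    Integrable.sub (integrable_finsetSum _ fun j _ => int_nn h hc hs _ _)
      (integrable_finsetSum _ fun j _ => int_en h hc hs _ _)
  refine h1.congr (Filter.Eventually.of_forall fun p => ?_)
  simp only [phi, res, ← sum_mul, one_mul]
  have h3 : ∑ x : Fin n, ‖p.2 (Fin.last k) - p.1 x.castSucc‖⁻¹ =
      ∑ x : Fin n, ‖p.1 x.castSucc - p.2 (Fin.last k)‖⁻¹ :=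
    sum_congr rfl fun x _ => by rw [norm_sub_rev]
  rw [h3]
  ring

include hφ hχ hr in
private theorem mean_V : mean (ins χ r w α φ) (V fun _ => 1) ≤ mean φ (V fun _ => 1) := by
  have ok := sq_ok hφ hχ r hr w α
  have iV := fun σ => int_V (fun _ => 1) _ (ok σ).1 (ok σ).2
  have iG := fun σ => int_Vres _ (ok σ).1 (ok σ).2
  have i1 := fun σ => int_phiE _ (ok σ).1 (ok σ).2
  have i2 := fun σ => int_phiN _ (ok σ).1 (ok σ).2
  have e0 : ∑ σ, ∫ p, V (fun _ => 1) (res p) * ‖ins χ r w α φ σ p‖ ^ 2 =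
      mean φ (V fun _ => 1) := by
    rw [slcL α _ iG (fun u v => chr χ r (u - w) ^ 2 * chr χ r (v - w) ^ 2)
      (fun _ _ σ p => V (fun _ => 1) p * ‖φ σ p‖ ^ 2) (fun τ σ u v p => by
        rw [res_sn, norm_ins]
        split_ifs
        · ring
        · ring), integral_mul_const,
      prod2 (fun u => chr χ r (u - w) ^ 2) (fun v => chr χ r (v - w) ^ 2), h_one hχ r hr w]
    unfold mean
    ring
  have e1 : ∑ σ, ∫ p, phi (fun _ => 1) (res p) (p.1 (Fin.last n)) *
      ‖ins χ r w α φ σ p‖ ^ 2 =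
      ∫ v, chr χ r (v - w) ^ 2 * mean φ (fun p => phi (fun _ => 1) p v) := by
    rw [slcL α _ i1 (fun u v => chr χ r (u - w) ^ 2 * chr χ r (v - w) ^ 2)
      (fun u _ σ p => phi (fun _ => 1) p u * ‖φ σ p‖ ^ 2) (fun τ σ u v p => by
        dsimp only
        rw [res_sn, norm_ins, sn_last]
        split_ifs
        · ring
        · ring)]
    have h1 : ∀ u : E3 × E3, chr χ r (u.1 - w) ^ 2 * chr χ r (u.2 - w) ^ 2 *
        ∑ σ, ∫ p, phi (fun _ => 1) p u.1 * ‖φ σ p‖ ^ 2 =
        (chr χ r (u.1 - w) ^ 2 * mean φ (fun p => phi (fun _ => 1) p u.1)) *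
          chr χ r (u.2 - w) ^ 2 := by
      intro u
      unfold mean
      ring
    simp only [h1]
    rw [prod2 (fun u => chr χ r (u - w) ^ 2 * mean φ (fun p => phi (fun _ => 1) p u))
      (fun v => chr χ r (v - w) ^ 2), h_one hχ r hr w, mul_one]
  have e2 : ∑ σ, ∫ p, phi (fun _ => 1) (res p) (p.2 (Fin.last k)) *
      ‖ins χ r w α φ σ p‖ ^ 2 =
      ∫ v, chr χ r (v - w) ^ 2 * mean φ (fun p => phi (fun _ => 1) p v) := by
    rw [slcL α _ i2 (fun u v => chr χ r (u - w) ^ 2 * chr χ r (v - w) ^ 2)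
      (fun _ v σ p => phi (fun _ => 1) p v * ‖φ σ p‖ ^ 2) (fun τ σ u v p => by
        dsimp only
        rw [res_sn, norm_ins, sn_last]
        split_ifs
        · ring
        · ring)]
    have h1 : ∀ u : E3 × E3, chr χ r (u.1 - w) ^ 2 * chr χ r (u.2 - w) ^ 2 *
        ∑ σ, ∫ p, phi (fun _ => 1) p u.2 * ‖φ σ p‖ ^ 2 =
        chr χ r (u.1 - w) ^ 2 *
        (chr χ r (u.2 - w) ^ 2 * mean φ (fun p => phi (fun _ => 1) p u.2)) := by
      intro u
      unfold mean
      ring
    simp only [h1]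
    rw [prod2 (fun u => chr χ r (u - w) ^ 2)
      (fun v => chr χ r (v - w) ^ 2 * mean φ (fun p => phi (fun _ => 1) p v)),
      h_one hχ r hr w, one_mul]
  have key : mean (ins χ r w α φ) (V fun _ => 1) ≤
      (∑ σ, ∫ p, V (fun _ => 1) (res p) * ‖ins χ r w α φ σ p‖ ^ 2) -
      (∑ σ, ∫ p, phi (fun _ => 1) (res p) (p.1 (Fin.last n)) * ‖ins χ r w α φ σ p‖ ^ 2) +
      ∑ σ, ∫ p, phi (fun _ => 1) (res p) (p.2 (Fin.last k)) *
        ‖ins χ r w α φ σ p‖ ^ 2 := by
    unfold mean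
    rw [← sum_sub_distrib, ← sum_add_distrib]
    refine sum_le_sum fun σ _ => ?_
    have g1 : Integrable (fun p => V (fun _ => 1) (res p) * ‖ins χ r w α φ σ p‖ ^ 2 -
        phi (fun _ => 1) (res p) (p.1 (Fin.last n)) * ‖ins χ r w α φ σ p‖ ^ 2) :=
      (iG σ).sub (i1 σ)
    rw [← integral_sub (iG σ) (i1 σ), ← integral_add g1 (i2 σ)]
    refine integral_mono (iV σ) (g1.add (i2 σ)) fun p => ?_
    simp only
    rw [V_res p]
    have h1 : 0 ≤ ‖p.1 (Fin.last n) - p.2 (Fin.last k)‖⁻¹ * ‖ins χ r w α φ σ p‖ ^ 2 := by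
      positivity
    linarith
  rw [e0, e1, e2] at key
  linarith

end

theorem ins_mass {q n k : ℕ} {Λ : Set E3} {φ : (Fin n → Fin q) → Cfg n k → ℂ}
    (hφ : St q n k Λ φ) {χ : E3 → ℝ} (hχ : Bump χ) (r : ℝ) (hr : 0 < r) (w : E3) (α : Fin q) :
    mass (ins χ r w α φ) = mass φ :=
  mass_eq hφ hχ r hr w α

theorem ins_energy {q n k : ℕ} {Λ : Set E3} {φ : (Fin n → Fin q) → Cfg n k → ℂ}
    (hφ : St q n k Λ φ) {χ : E3 → ℝ} (hχ : Bump χ) (r : ℝ) (hr : 0 < r) (w : E3) (α : Fin q)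
    (κ : ℝ) (hκ : 0 ≤ κ) :
    energy (fun _ => 1) (fun _ => κ) (ins χ r w α φ) ≤
      energy (fun _ => 1) (fun _ => κ) φ +
        (1 + κ) * ((r ^ 2)⁻¹ * ∫ v, gr χ v) * mass φ := by
  unfold energy
  rw [Fin.sum_univ_castSucc, Fin.sum_univ_castSucc, kE_last hφ hχ r hr w α,
    kN_last hφ hχ r hr w α, sum_congr rfl fun b _ => kE_cast hφ hχ r hr w α b]
  have h1 : ∑ i : Fin k, κ * kN (ins χ r w α φ) i.castSucc = ∑ i : Fin k, κ * kN φ i :=
    sum_congr rfl fun b _ => by rw [kN_cast hφ hχ r hr w α b]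
  rw [h1]
  have h2 := mean_V hφ hχ r hr w α
  linarith

end H6.CM
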