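import Pool.Agent.H6.CM.PDefs
import Pool.Agent.H6.CM.ChR

/-! The trial function `ins`: regularity, supports, antisymmetry under the permutations fixing the last electron (such a permutation restricts to `Fin n` with the same sign). -/

open MeasureTheory Finset

namespace H6.CM

private theorem ins_ne {q n k : ℕ} {φ : (Fin n → Fin q) → Cfg n k → ℂ} {χ : E3 → ℝ}
    (hχ : Bump χ) (r : ℝ) (hr : 0 < r) (w : E3) (α : Fin q) (σ : Fin (n + 1) → Fin q)
    (p : Cfg (n + 1) (k + 1)) (hp : ins χ r w α φ σ p ≠ 0) :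
    ‖p.1 (Fin.last n) - w‖ < r / 2 ∧ ‖p.2 (Fin.last k) - w‖ < r / 2 ∧
      φ (fun b => σ b.castSucc) (fun b => p.1 b.castSucc, fun j => p.2 j.castSucc) ≠ 0 := by
  unfold ins at hp
  split_ifs at hp with h
  · rw [mul_ne_zero_iff, Complex.ofReal_ne_zero, mul_ne_zero_iff] at hp
    exact ⟨chr_supp hχ r hr _ hp.1.1, chr_supp hχ r hr _ hp.1.2, hp.2⟩
  · exact absurd rfl hp

private theorem restr_cont (n k : ℕ) : Continuous (fun p : Cfg (n + 1) (k + 1) =>
    (((fun b => p.1 b.castSucc), (fun j => p.2 j.castSucc)) : Cfg n k)) := by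
  fun_prop

variable {q n k : ℕ} {Λ : Set E3} {φ : (Fin n → Fin q) → Cfg n k → ℂ} (hφ : St q n k Λ φ)
  {χ : E3 → ℝ} (hχ : Bump χ) (r : ℝ) (hr : 0 < r) (w : E3)
  (hw : Metric.closedBall w r ⊆ Λ) (α : Fin q)

include hφ hχ hr in
theorem ins_smooth (σ : Fin (n + 1) → Fin q) : ContDiff ℝ (⊤ : ℕ∞) (ins χ r w α φ σ) := by
  by_cases h : σ (Fin.last n) = α
  · have e : ins χ r w α φ σ = fun p : Cfg (n + 1) (k + 1) =>
        ((chr χ r (p.1 (Fin.last n) - w) * chr χ r (p.2 (Fin.last k) - w) : ℝ) : ℂ) *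
        φ (fun b => σ b.castSucc) (fun b => p.1 b.castSucc, fun j => p.2 j.castSucc) := by
      funext p
      simp [ins, h]
    rw [e]
    have h1 : ContDiff ℝ (⊤ : ℕ∞) (chr χ r) := chr_smooth hχ r hr
    have h2 : ContDiff ℝ (⊤ : ℕ∞) (fun p : Cfg (n + 1) (k + 1) =>
        chr χ r (p.1 (Fin.last n) - w)) := h1.comp (by fun_prop)
    have h3 : ContDiff ℝ (⊤ : ℕ∞) (fun p : Cfg (n + 1) (k + 1) =>
        chr χ r (p.2 (Fin.last k) - w)) := h1.comp (by fun_prop)
    have h4 : ContDiff ℝ (⊤ : ℕ∞) (fun p : Cfg (n + 1) (k + 1) =>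
        φ (fun b => σ b.castSucc) (fun b => p.1 b.castSucc, fun j => p.2 j.castSucc)) :=
      (hφ.smooth _).comp (by fun_prop)
    exact (Complex.ofRealCLM.contDiff.comp (h2.mul h3)).mul h4
  · have e : ins χ r w α φ σ = fun _ : Cfg (n + 1) (k + 1) => (0 : ℂ) := by
      funext p
      simp [ins, h]
    rw [e]
    exact contDiff_const

include hφ hχ hr in
theorem ins_cpt (σ : Fin (n + 1) → Fin q) : HasCompactSupport (ins χ r w α φ σ) := by
  have hK : IsCompact ((Metric.closedBall w (r / 2) ×ˢ Metric.closedBall w (r / 2)) ×ˢ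
      tsupport (φ (fun b => σ b.castSucc))) :=
    ((isCompact_closedBall w (r / 2)).prod (isCompact_closedBall w (r / 2))).prod
      (hφ.cpt (fun b => σ b.castSucc))
  have hc : Continuous (fun y : (E3 × E3) × Cfg n k =>
      (((Fin.snoc (α := fun _ => E3) y.2.1 y.1.1 : Fin (n + 1) → E3),
        (Fin.snoc (α := fun _ => E3) y.2.2 y.1.2 : Fin (k + 1) → E3)) :
        Cfg (n + 1) (k + 1))) := by
    refine Continuous.prodMk ?_ ?_
    · refine continuous_pi fun i => ?_
      refine Fin.lastCases ?_ (fun b => ?_) i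
      · simp only [Fin.snoc_last]
        fun_prop
      · simp only [Fin.snoc_castSucc]
        fun_prop
    · refine continuous_pi fun i => ?_
      refine Fin.lastCases ?_ (fun b => ?_) i
      · simp only [Fin.snoc_last]
        fun_prop
      · simp only [Fin.snoc_castSucc]
        fun_prop
  refine HasCompactSupport.intro (hK.image hc) ?_
  intro p hp
  by_contra hne
  apply hp
  obtain ⟨h1, h2, h3⟩ := ins_ne hχ r hr w α σ p hne
  refine ⟨((p.1 (Fin.last n), p.2 (Fin.last k)),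
    (fun b => p.1 b.castSucc, fun j => p.2 j.castSucc)), ⟨⟨?_, ?_⟩, ?_⟩, ?_⟩
  · rw [Metric.mem_closedBall, dist_eq_norm]
    exact h1.le
  · rw [Metric.mem_closedBall, dist_eq_norm]
    exact h2.le
  · exact subset_tsupport _ h3
  · refine Prod.ext ?_ ?_
    · funext i
      refine Fin.lastCases ?_ (fun b => ?_) i
      · simp only [Fin.snoc_last]
      · simp only [Fin.snoc_castSucc]
    · funext i
      refine Fin.lastCases ?_ (fun b => ?_) i
      · simp only [Fin.snoc_last]
      · simp only [Fin.snoc_castSucc]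

include hφ hχ hr hw in
theorem ins_supp (σ : Fin (n + 1) → Fin q) (p : Cfg (n + 1) (k + 1))
    (hp : p ∈ tsupport (ins χ r w α φ σ)) : (∀ a, p.1 a ∈ Λ) ∧ ∀ j, p.2 j ∈ Λ := by
  have hcl : IsClosed ({p : Cfg (n + 1) (k + 1) | p.1 (Fin.last n) ∈ Metric.closedBall w r} ∩
      ({p : Cfg (n + 1) (k + 1) | p.2 (Fin.last k) ∈ Metric.closedBall w r} ∩
      (fun p : Cfg (n + 1) (k + 1) =>
        (((fun b => p.1 b.castSucc), (fun j => p.2 j.castSucc)) : Cfg n k)) ⁻¹'
        tsupport (φ (fun b => σ b.castSucc)))) := by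
    refine IsClosed.inter ?_ (IsClosed.inter ?_ ?_)
    · exact Metric.isClosed_closedBall.preimage (by fun_prop)
    · exact Metric.isClosed_closedBall.preimage (by fun_prop)
    · exact (isClosed_tsupport _).preimage (restr_cont n k)
  have hsub : Function.support (ins χ r w α φ σ) ⊆
      ({p : Cfg (n + 1) (k + 1) | p.1 (Fin.last n) ∈ Metric.closedBall w r} ∩
      ({p : Cfg (n + 1) (k + 1) | p.2 (Fin.last k) ∈ Metric.closedBall w r} ∩
      (fun p : Cfg (n + 1) (k + 1) =>
        (((fun b => p.1 b.castSucc), (fun j => p.2 j.castSucc)) : Cfg n k)) ⁻¹'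
        tsupport (φ (fun b => σ b.castSucc)))) := by
    intro p hne
    obtain ⟨h1, h2, h3⟩ := ins_ne hχ r hr w α σ p hne
    refine ⟨?_, ?_, ?_⟩
    · change p.1 (Fin.last n) ∈ Metric.closedBall w r
      rw [Metric.mem_closedBall, dist_eq_norm]
      linarith
    · change p.2 (Fin.last k) ∈ Metric.closedBall w r
      rw [Metric.mem_closedBall, dist_eq_norm]
      linarith
    · exact subset_tsupport _ h3
  obtain ⟨h1, h2, h3⟩ := closure_minimal hsub hcl hp
  obtain ⟨h4, h5⟩ := hφ.supp _ _ h3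
  refine ⟨fun a => ?_, fun j => ?_⟩
  · refine Fin.lastCases (hw h1) (fun b => h4 b) a
  · refine Fin.lastCases (hw h2) (fun b => h5 b) j

include hφ in
theorem ins_anti (π : Equiv.Perm (Fin (n + 1))) (hπ : π (Fin.last n) = Fin.last n)
    (σ : Fin (n + 1) → Fin q) (p : Cfg (n + 1) (k + 1)) :
    ins χ r w α φ (σ ∘ π) (p.1 ∘ π, p.2) =
      ((Equiv.Perm.sign π : ℤ) : ℂ) * ins χ r w α φ σ p := by
  obtain ⟨π', h1, h2⟩ : ∃ π' : Equiv.Perm (Fin n), (∀ b, π (Fin.castSucc b) = (π' b).castSucc) ∧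
      Equiv.Perm.sign π' = Equiv.Perm.sign π := by
    have h0 : ((finSuccEquivLast.symm.trans π).trans finSuccEquivLast :
        Equiv.Perm (Option (Fin n))) none = none := by
      simp [hπ]
    have h1 := map_equiv_removeNone ((finSuccEquivLast.symm.trans π).trans finSuccEquivLast :
        Equiv.Perm (Option (Fin n)))
    rw [h0, Equiv.swap_self, ← Equiv.Perm.one_def, one_mul] at h1
    refine ⟨Equiv.removeNone ((finSuccEquivLast.symm.trans π).trans finSuccEquivLast :
        Equiv.Perm (Option (Fin n))), ?_, ?_⟩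
    · intro b
      apply finSuccEquivLast.injective
      have h2 := DFunLike.congr_fun h1 (some b)
      simp only [Equiv.optionCongr_apply, Option.map_some, Equiv.trans_apply,
        finSuccEquivLast_symm_some] at h2
      rw [← h2, finSuccEquivLast_castSucc]
    · rw [← Equiv.optionCongr_sign, h1, Equiv.Perm.sign_symm_trans_trans]
  unfold ins
  simp only [Function.comp_apply, hπ]
  split_ifs with h
  · have h3 := hφ.anti π' (fun b => σ b.castSucc)
      ((fun b => p.1 b.castSucc), (fun j => p.2 j.castSucc))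
    have e1 : (fun b : Fin n => σ (π b.castSucc)) = (fun b => σ b.castSucc) ∘ π' := by
      funext b
      simp only [Function.comp_apply, h1]
    have e2 : (fun b : Fin n => p.1 (π b.castSucc)) = (fun b => p.1 b.castSucc) ∘ π' := by
      funext b
      simp only [Function.comp_apply, h1]
    rw [e1, e2, h3, h2]
    ring
  · rw [mul_zero]

include hχ hr in
theorem ins_far (hφ0 : ∀ σ p, φ σ p ≠ 0 → ∀ b, r ≤ ‖p.1 b - w‖)
    (σ : Fin (n + 1) → Fin q) (p : Cfg (n + 1) (k + 1)) (hp : ins χ r w α φ σ p ≠ 0) :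
    ‖p.1 (Fin.last n) - w‖ ≤ r / 2 ∧ ∀ b, b ≠ Fin.last n → r ≤ ‖p.1 b - w‖ := by
  obtain ⟨h1, -, h3⟩ := ins_ne hχ r hr w α σ p hp
  refine ⟨h1.le, ?_⟩
  intro b
  refine Fin.lastCases (fun h => absurd rfl h) (fun b' _ => ?_) b
  exact hφ0 _ _ h3 b'

end H6.CM
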