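import Pool.Agent.H6.CM.PDefs
import Pool.Agent.H6.CM.BumpEx
import Pool.Agent.H6.CM.Grad
import Pool.Agent.H6.CM.GCont
import Pool.Agent.H6.CM.IntAll

/-! Vacating a ball: `sv ^ 2 + cv ^ 2 = 1`, localisation formula `g3_ims` in each variable, gradient of the product as in `PartGrad`. -/

open MeasureTheory Finset

namespace H6.CM

private theorem Gv_smooth {n : ℕ} {θ : E3 → ℝ} (h : Cut θ) (w : E3) (r : ℝ) :
    ContDiff ℝ (⊤ : ℕ∞) (fun x : Fin n → E3 => Gv θ w r x) := by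
  unfold Gv
  refine contDiff_prod fun b _ => ?_
  exact h.smooth.comp (by fun_prop)

private theorem Gv_perm {n : ℕ} (θ : E3 → ℝ) (w : E3) (r : ℝ) (π : Equiv.Perm (Fin n))
    (x : Fin n → E3) : Gv θ w r (x ∘ π) = Gv θ w r x := by
  unfold Gv
  exact Equiv.prod_comp π fun b => θ (r⁻¹ • (x b - w))

private theorem mul_st {q n k : ℕ} {Λ : Set E3} {ψ : (Fin n → Fin q) → Cfg n k → ℂ}
    (hψ : St q n k Λ ψ) {s : (Fin n → E3) → ℝ} (hs : ContDiff ℝ (⊤ : ℕ∞) s)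
    (hp : ∀ (π : Equiv.Perm (Fin n)) (x : Fin n → E3), s (x ∘ π) = s x) :
    St q n k Λ (mul s ψ) where
  smooth σ := (Complex.ofRealCLM.contDiff.comp (hs.comp contDiff_fst)).mul (hψ.smooth σ)
  cpt σ := (hψ.cpt σ).mul_left
  supp σ p hp' := hψ.supp σ p (tsupport_mul_subset_right hp')
  anti π σ p := by
    unfold mul
    dsimp only
    rw [hp, hψ.anti π σ p]
    ring

private theorem sv_smooth {n : ℕ} {θ : E3 → ℝ} (h : Cut θ) (w : E3) (r : ℝ) :
    ContDiff ℝ (⊤ : ℕ∞) (sv (n := n) θ w r) :=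
  Real.contDiff_sin.comp (contDiff_const.mul (Gv_smooth h w r))

private theorem cv_smooth {n : ℕ} {θ : E3 → ℝ} (h : Cut θ) (w : E3) (r : ℝ) :
    ContDiff ℝ (⊤ : ℕ∞) (cv (n := n) θ w r) :=
  Real.contDiff_cos.comp (contDiff_const.mul (Gv_smooth h w r))

private theorem sv_cv {n : ℕ} (θ : E3 → ℝ) (w : E3) (r : ℝ) (x : Fin n → E3) :
    sv θ w r x ^ 2 + cv θ w r x ^ 2 = 1 := by
  unfold sv cv
  exact Real.sin_sq_add_cos_sq _

theorem vac_st {q n k : ℕ} {Λ : Set E3} {ψ : (Fin n → Fin q) → Cfg n k → ℂ}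
    (hψ : St q n k Λ ψ) {θ : E3 → ℝ} (h : Cut θ) (w : E3) (r : ℝ) :
    St q n k Λ (mul (sv θ w r) ψ) ∧ St q n k Λ (mul (cv θ w r) ψ) := by
  refine ⟨mul_st hψ (sv_smooth h w r) ?_, mul_st hψ (cv_smooth h w r) ?_⟩
  · intro π x
    unfold sv
    rw [Gv_perm]
  · intro π x
    unfold cv
    rw [Gv_perm]

theorem vac_far {n : ℕ} {θ : E3 → ℝ} (h : Cut θ) (w : E3) (r : ℝ) (hr : 0 < r)
    (x : Fin n → E3) (hx : sv θ w r x ≠ 0) (b : Fin n) : r ≤ ‖x b - w‖ := by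
  by_contra hb
  push Not at hb
  apply hx
  have h1 : θ (r⁻¹ • (x b - w)) = 0 := by
    apply h.zero
    rw [norm_smul, Real.norm_eq_abs, abs_of_pos (inv_pos.2 hr), inv_mul_le_iff₀ hr, mul_one]
    exact hb.le
  have h2 : Gv θ w r x = 0 := by
    unfold Gv
    exact prod_eq_zero (mem_univ b) h1
  unfold sv
  rw [h2, mul_zero, Real.sin_zero]

private theorem norm_mul_sq {q n k : ℕ} (s : (Fin n → E3) → ℝ)
    (ψ : (Fin n → Fin q) → Cfg n k → ℂ) (σ : Fin n → Fin q) (p : Cfg n k) :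
    ‖mul s ψ σ p‖ ^ 2 = s p.1 ^ 2 * ‖ψ σ p‖ ^ 2 := by
  unfold mul
  rw [norm_mul, mul_pow, Complex.norm_real, Real.norm_eq_abs, sq_abs]

private theorem sq_int {q n k : ℕ} {Λ : Set E3} {ψ : (Fin n → Fin q) → Cfg n k → ℂ}
    (hψ : St q n k Λ ψ) (σ : Fin n → Fin q) :
    Continuous (fun p => ‖ψ σ p‖ ^ 2) ∧ HasCompactSupport (fun p => ‖ψ σ p‖ ^ 2) := by
  refine ⟨(hψ.smooth σ).continuous.norm.pow 2, ?_⟩
  refine (hψ.cpt σ).mono fun p hp => ?_
  rw [Function.mem_support] at hp ⊢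
  intro h
  apply hp
  rw [h]
  simp

private theorem sq_int' {q n k : ℕ} {Λ : Set E3} {ψ : (Fin n → Fin q) → Cfg n k → ℂ}
    (hψ : St q n k Λ ψ) (σ : Fin n → Fin q) : Integrable (fun p => ‖ψ σ p‖ ^ 2) :=
  (sq_int hψ σ).1.integrable_of_hasCompactSupport (sq_int hψ σ).2

private theorem ct_nonneg {n : ℕ} (w : E3) (s : ℝ) (x : Fin n → E3) : 0 ≤ ct w s x := by
  unfold ct
  refine sum_nonneg fun b _ => ?_
  split_ifs <;> norm_num

private theorem ct_int {q n k : ℕ} {Λ : Set E3} {ψ : (Fin n → Fin q) → Cfg n k → ℂ}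
    (hψ : St q n k Λ ψ) (σ : Fin n → Fin q) (w : E3) (s : ℝ) :
    Integrable (fun p => ct w s p.1 * ‖ψ σ p‖ ^ 2) := by
  unfold ct
  simp only [sum_mul]
  refine integrable_finsetSum _ fun b _ => ?_
  have h1 : (fun p : Cfg n k => (if ‖p.1 b - w‖ ≤ s then (1 : ℝ) else 0) * ‖ψ σ p‖ ^ 2) =
      Set.indicator {p : Cfg n k | ‖p.1 b - w‖ ≤ s} (fun p => ‖ψ σ p‖ ^ 2) := by
    funext p
    by_cases h : ‖p.1 b - w‖ ≤ s
    · rw [if_pos h, one_mul, Set.indicator_of_mem]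
      exact h
    · rw [if_neg h, zero_mul, Set.indicator_of_notMem]
      exact h
  rw [h1]
  refine (sq_int' hψ σ).indicator ?_
  exact (isClosed_le (by fun_prop) continuous_const).measurableSet

theorem vac_mass {q n k : ℕ} {Λ : Set E3} {ψ : (Fin n → Fin q) → Cfg n k → ℂ}
    (hψ : St q n k Λ ψ) {θ : E3 → ℝ} (h : Cut θ) (w : E3) (r : ℝ) (hr : 0 < r) :
    mass (mul (sv θ w r) ψ) + mass (mul (cv θ w r) ψ) = mass ψ ∧
    mass (mul (cv θ w r) ψ) ≤ mean ψ (fun p => ct w (2 * r) p.1) := by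
  obtain ⟨hs, hc⟩ := vac_st hψ h w r
  constructor
  · unfold mass
    rw [← sum_add_distrib]
    refine sum_congr rfl fun σ _ => ?_
    rw [← integral_add (sq_int' hs σ) (sq_int' hc σ)]
    refine integral_congr_ae (ae_of_all _ fun p => ?_)
    simp only [norm_mul_sq]
    rw [← add_mul, sv_cv, one_mul]
  · unfold mass mean
    refine sum_le_sum fun σ _ => ?_
    refine integral_mono (sq_int' hc σ) (ct_int hψ σ w (2 * r)) fun p => ?_
    simp only [norm_mul_sq]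
    refine mul_le_mul_of_nonneg_right ?_ (by positivity)
    by_cases h0 : ∃ b, ‖p.1 b - w‖ ≤ 2 * r
    · obtain ⟨b, hb⟩ := h0
      have h1 : cv θ w r p.1 ^ 2 ≤ 1 := by
        have := sv_cv θ w r p.1
        nlinarith [sq_nonneg (sv θ w r p.1)]
      refine h1.trans ?_
      unfold ct
      have h2 := single_le_sum (f := fun b => if ‖p.1 b - w‖ ≤ 2 * r then (1 : ℝ) else 0)
        (fun b _ => by split_ifs <;> norm_num) (mem_univ b)
      simp only [if_pos hb] at h2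
      exact h2
    · push Not at h0
      have h1 : Gv θ w r p.1 = 1 := by
        unfold Gv
        refine prod_eq_one fun b _ => h.one _ ?_
        rw [norm_smul, Real.norm_eq_abs, abs_of_pos (inv_pos.2 hr), le_inv_mul_iff₀ hr]
        linarith [h0 b]
      have h2 : cv θ w r p.1 = 0 := by
        unfold cv
        rw [h1, mul_one, Real.cos_pi_div_two]
      rw [h2]
      have := ct_nonneg w (2 * r) p.1
      simpa using this

private theorem V_int {n k : ℕ} (z : Fin k → ℝ) (f : Cfg n k → ℝ) (hc : Continuous f)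
    (hs : HasCompactSupport f) : Integrable (fun p => V z p * f p) := by
  have h1 : Integrable (fun p : Cfg n k => ∑ a, ∑ b, ‖p.1 a - p.1 b‖⁻¹ * f p) :=
    integrable_finsetSum _ fun a _ => integrable_finsetSum _ fun b _ => int_ee f hc hs a b
  have h2 : Integrable (fun p : Cfg n k => ∑ a, ∑ j, z j * (‖p.1 a - p.2 j‖⁻¹ * f p)) :=
    integrable_finsetSum _ fun a _ => integrable_finsetSum _ fun j _ =>
      (int_en f hc hs a j).const_mul (z j)
  have h3 : Integrable (fun p : Cfg n k => ∑ j, ∑ l, z j * z l * (‖p.2 j - p.2 l‖⁻¹ * f p)) :=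
    integrable_finsetSum _ fun j _ => integrable_finsetSum _ fun l _ =>
      (int_nn f hc hs j l).const_mul (z j * z l)
  have h4 := ((h1.div_const 2).sub h2).add (h3.div_const 2)
  refine h4.congr (ae_of_all _ fun p => ?_)
  simp only [Pi.add_apply, Pi.sub_apply, V]
  simp only [add_mul, sub_mul, div_mul_eq_mul_div, sum_mul, mul_assoc]

private theorem diff_E' {n k : ℕ} (F : Cfg n k → ℂ) (hF : Differentiable ℝ F) (q : Cfg n k)
    (b : Fin n) (v : E3) : DifferentiableAt ℝ (fun v => F (Function.update q.1 b v, q.2)) v := by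
  have h1 : DifferentiableAt ℝ (fun v : E3 => ((Function.update q.1 b v, q.2) : Cfg n k)) v :=
    ((hasFDerivAt_update q.1 v).differentiableAt).prodMk (differentiableAt_const _)
  exact (hF _).comp v h1

private theorem diff_N' {n k : ℕ} (F : Cfg n k → ℂ) (hF : Differentiable ℝ F) (q : Cfg n k)
    (b : Fin k) (v : E3) : DifferentiableAt ℝ (fun v => F (q.1, Function.update q.2 b v)) v := by
  have h1 : DifferentiableAt ℝ (fun v : E3 => ((q.1, Function.update q.2 b v) : Cfg n k)) v :=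
    (differentiableAt_const _).prodMk ((hasFDerivAt_update q.2 v).differentiableAt)
  exact (hF _).comp v h1

private theorem gn_mul {q n k : ℕ} {Λ : Set E3} {ψ : (Fin n → Fin q) → Cfg n k → ℂ}
    (hψ : St q n k Λ ψ) (s : (Fin n → E3) → ℝ) (σ : Fin n → Fin q) (j : Fin k) (p : Cfg n k) :
    gn (mul s ψ σ) j p = s p.1 ^ 2 * gn (ψ σ) j p := by
  unfold gn mul
  dsimp only
  rw [g3_const_mul _ _ _ (diff_N' (ψ σ) ((hψ.smooth σ).differentiable (by simp)) p j _)]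
  rw [Complex.norm_real, Real.norm_eq_abs, sq_abs]

private theorem vac_kN {q n k : ℕ} {Λ : Set E3} {ψ : (Fin n → Fin q) → Cfg n k → ℂ}
    (hψ : St q n k Λ ψ) {θ : E3 → ℝ} (h : Cut θ) (w : E3) (r : ℝ) (j : Fin k) :
    kN (mul (sv θ w r) ψ) j + kN (mul (cv θ w r) ψ) j = kN ψ j := by
  obtain ⟨hs, hc⟩ := vac_st hψ h w r
  unfold kN
  rw [← sum_add_distrib]
  refine sum_congr rfl fun σ _ => ?_
  have h1 : ∀ {φ : (Fin n → Fin q) → Cfg n k → ℂ}, St q n k Λ φ →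
      Integrable (gn (φ σ) j) := fun {φ} hφ =>
    (gn_cont (φ σ) ((hφ.smooth σ).of_le (by simp)) j).integrable_of_hasCompactSupport
      (gn_cpt (φ σ) ((hφ.smooth σ).of_le (by simp)) (hφ.cpt σ) j)
  rw [← integral_add (h1 hs) (h1 hc)]
  refine integral_congr_ae (ae_of_all _ fun p => ?_)
  simp only [gn_mul hψ]
  rw [← add_mul, sv_cv, one_mul]

private theorem sc_diff {n : ℕ} {s : (Fin n → E3) → ℝ} (hs : ContDiff ℝ (⊤ : ℕ∞) s)
    (x : Fin n → E3) (b : Fin n) (v : E3) :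
    DifferentiableAt ℝ (fun v => s (Function.update x b v)) v :=
  ((hs.differentiable (by simp)) _).comp v ((hasFDerivAt_update x v).differentiableAt)

private theorem ge_mul {q n k : ℕ} {Λ : Set E3} {ψ : (Fin n → Fin q) → Cfg n k → ℂ}
    (hψ : St q n k Λ ψ) {θ : E3 → ℝ} (h : Cut θ) (w : E3) (r : ℝ) (σ : Fin n → Fin q)
    (b : Fin n) (p : Cfg n k) :
    ge (mul (sv θ w r) ψ σ) b p + ge (mul (cv θ w r) ψ σ) b p =
      ge (ψ σ) b p + (gx (sv θ w r) b p.1 + gx (cv θ w r) b p.1) * ‖ψ σ p‖ ^ 2 := by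
  have h1 := g3_ims (univ : Finset Bool)
    (fun i v => if i then sv θ w r (Function.update p.1 b v)
      else cv θ w r (Function.update p.1 b v))
    (fun v => ψ σ (Function.update p.1 b v, p.2)) (p.1 b) ?_
    (diff_E' (ψ σ) ((hψ.smooth σ).differentiable (by simp)) p b _) ?_
  · simp only [Fintype.sum_bool, if_true, Bool.false_eq_true, if_false] at h1
    rw [Function.update_eq_self] at h1
    exact h1
  · intro i _
    cases i
    · simpa using sc_diff (cv_smooth h w r) p.1 b (p.1 b)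
    · simpa using sc_diff (sv_smooth h w r) p.1 b (p.1 b)
  · intro u
    simp only [Fintype.sum_bool, if_true, Bool.false_eq_true, if_false]
    exact sv_cv θ w r _

private theorem vac_kE {q n k : ℕ} {Λ : Set E3} {ψ : (Fin n → Fin q) → Cfg n k → ℂ}
    (hψ : St q n k Λ ψ) {θ : E3 → ℝ} (h : Cut θ) (w : E3) (r : ℝ) (b : Fin n) :
    kE (mul (sv θ w r) ψ) b + kE (mul (cv θ w r) ψ) b =
      kE ψ b + ∑ σ, ∫ p, (gx (sv θ w r) b p.1 + gx (cv θ w r) b p.1) * ‖ψ σ p‖ ^ 2 ∧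
    ∀ σ, Integrable (fun p : Cfg n k =>
      (gx (sv θ w r) b p.1 + gx (cv θ w r) b p.1) * ‖ψ σ p‖ ^ 2) := by
  obtain ⟨hs, hc⟩ := vac_st hψ h w r
  have h1 : ∀ (σ : Fin n → Fin q) {φ : (Fin n → Fin q) → Cfg n k → ℂ}, St q n k Λ φ →
      Integrable (ge (φ σ) b) := fun σ {φ} hφ =>
    (ge_cont (φ σ) ((hφ.smooth σ).of_le (by simp)) b).integrable_of_hasCompactSupport
      (ge_cpt (φ σ) ((hφ.smooth σ).of_le (by simp)) (hφ.cpt σ) b)
  have h2 : ∀ σ, Integrable (fun p : Cfg n k =>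
      (gx (sv θ w r) b p.1 + gx (cv θ w r) b p.1) * ‖ψ σ p‖ ^ 2) := by
    intro σ
    have h3 := ((h1 σ hs).add (h1 σ hc)).sub (h1 σ hψ)
    refine h3.congr (ae_of_all _ fun p => ?_)
    simp only [Pi.add_apply, Pi.sub_apply]
    rw [ge_mul hψ h w r σ b p]
    ring
  refine ⟨?_, h2⟩
  unfold kE
  rw [← sum_add_distrib, ← sum_add_distrib]
  refine sum_congr rfl fun σ _ => ?_
  rw [← integral_add (h1 σ hs) (h1 σ hc), ← integral_add (h1 σ hψ) (h2 σ)]
  refine integral_congr_ae (ae_of_all _ fun p => ?_)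
  exact ge_mul hψ h w r σ b p

private theorem gr_bound {θ : E3 → ℝ} (h : Cut θ) (w : E3) (r K : ℝ) (v : E3) :
    gr (fun v => Real.sin (Real.pi / 2 * (θ (r⁻¹ • (v - w)) * K))) v +
      gr (fun v => Real.cos (Real.pi / 2 * (θ (r⁻¹ • (v - w)) * K))) v =
      (Real.pi / 2 * K * r⁻¹) ^ 2 * gr θ (r⁻¹ • (v - w)) := by
  have h1 : HasFDerivAt (fun v : E3 => r⁻¹ • (v - w)) (r⁻¹ • ContinuousLinearMap.id ℝ E3) v :=
    ((hasFDerivAt_id v).sub_const w).const_smul r⁻¹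
  have h2 : HasFDerivAt (fun v : E3 => θ (r⁻¹ • (v - w)))
      ((fderiv ℝ θ (r⁻¹ • (v - w))).comp (r⁻¹ • ContinuousLinearMap.id ℝ E3)) v :=
    (((h.smooth.differentiable (by simp)) _).hasFDerivAt).comp v h1
  have h3 := (h2.mul_const K).const_mul (Real.pi / 2)
  have h4 := h3.sin
  have h5 := h3.cos
  unfold gr
  rw [h4.fderiv, h5.fderiv, ← sum_add_distrib, mul_sum]
  refine sum_congr rfl fun d _ => ?_
  simp only [ContinuousLinearMap.smul_apply, ContinuousLinearMap.comp_apply,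
    ContinuousLinearMap.id_apply, smul_eq_mul, map_smul]
  have h6 := Real.sin_sq_add_cos_sq (Real.pi / 2 * (θ (r⁻¹ • (v - w)) * K))
  linear_combination ((Real.pi / 2) ^ 2 * K ^ 2 * (r⁻¹) ^ 2 *
    (fderiv ℝ θ (r⁻¹ • (v - w)) (EuclideanSpace.single d 1)) ^ 2) * h6

private theorem gx_bound {n : ℕ} {θ : E3 → ℝ} (h : Cut θ) {C : ℝ} (hC0 : 0 ≤ C)
    (hC : ∀ v, gr θ v ≤ C ∧ (gr θ v ≠ 0 → 1 ≤ ‖v‖ ∧ ‖v‖ ≤ 2)) (w : E3) (r : ℝ) (hr : 0 < r)
    (b : Fin n) (x : Fin n → E3) :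
    gx (sv θ w r) b x + gx (cv θ w r) b x ≤
      (Real.pi / 2) ^ 2 * C * (r ^ 2)⁻¹ * (if ‖x b - w‖ ≤ 2 * r then 1 else 0) := by
  have hG : ∀ v, Gv θ w r (Function.update x b v) =
      θ (r⁻¹ • (v - w)) * ∏ c ∈ univ.erase b, θ (r⁻¹ • (x c - w)) := by
    intro v
    unfold Gv
    rw [← mul_prod_erase univ _ (mem_univ b), Function.update_self]
    congr 1
    refine prod_congr rfl fun c hc => ?_
    rw [Function.update_of_ne (ne_of_mem_erase hc)]
  have hK0 : 0 ≤ ∏ c ∈ univ.erase b, θ (r⁻¹ • (x c - w)) := prod_nonneg fun c _ => h.nonneg _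
  have hK1 : ∏ c ∈ univ.erase b, θ (r⁻¹ • (x c - w)) ≤ 1 :=
    prod_le_one (fun c _ => h.nonneg _) fun c _ => h.le_one _
  unfold gx sv cv
  simp only [hG]
  rw [gr_bound h]
  set K := ∏ c ∈ univ.erase b, θ (r⁻¹ • (x c - w))
  have hg := hC (r⁻¹ • (x b - w))
  by_cases h0 : gr θ (r⁻¹ • (x b - w)) = 0
  · rw [h0, mul_zero]
    split_ifs
    · positivity
    · simp
  · obtain ⟨-, h2⟩ := hg.2 h0
    rw [norm_smul, Real.norm_eq_abs, abs_of_pos (inv_pos.2 hr), inv_mul_le_iff₀ hr] at h2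
    rw [if_pos (by linarith), mul_one]
    have h3 : K ^ 2 ≤ 1 := by nlinarith
    have h4 : 0 ≤ gr θ (r⁻¹ • (x b - w)) := gr_nonneg _ _
    calc (Real.pi / 2 * K * r⁻¹) ^ 2 * gr θ (r⁻¹ • (x b - w))
        = (Real.pi / 2) ^ 2 * (r ^ 2)⁻¹ * (K ^ 2 * gr θ (r⁻¹ • (x b - w))) := by
          rw [← inv_pow]; ring
      _ ≤ (Real.pi / 2) ^ 2 * (r ^ 2)⁻¹ * (1 * C) := by
          refine mul_le_mul_of_nonneg_left ?_ (by positivity)
          exact mul_le_mul h3 hg.1 h4 (by norm_num)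
      _ = (Real.pi / 2) ^ 2 * C * (r ^ 2)⁻¹ := by ring

theorem vac_energy {θ : E3 → ℝ} (h : Cut θ) : ∃ C : ℝ, 0 ≤ C ∧
    ∀ (q n k : ℕ) (Λ : Set E3) (z κ : Fin k → ℝ)
    (ψ : (Fin n → Fin q) → Cfg n k → ℂ) (_ : St q n k Λ ψ) (w : E3) (r : ℝ) (_ : 0 < r),
    energy z κ (mul (sv θ w r) ψ) + energy z κ (mul (cv θ w r) ψ) ≤
      energy z κ ψ + C * (r ^ 2)⁻¹ * mean ψ (fun p => ct w (2 * r) p.1) := by
  obtain ⟨C, hC0, hC⟩ := h.grad
  refine ⟨(Real.pi / 2) ^ 2 * C, by positivity, ?_⟩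
  intro q n k Λ z κ ψ hψ w r hr
  obtain ⟨hs, hc⟩ := vac_st hψ h w r
  have hV : mean (mul (sv θ w r) ψ) (V z) + mean (mul (cv θ w r) ψ) (V z) = mean ψ (V z) := by
    unfold mean
    rw [← sum_add_distrib]
    refine sum_congr rfl fun σ _ => ?_
    rw [← integral_add (V_int z _ (sq_int hs σ).1 (sq_int hs σ).2)
      (V_int z _ (sq_int hc σ).1 (sq_int hc σ).2)]
    refine integral_congr_ae (ae_of_all _ fun p => ?_)
    simp only [norm_mul_sq]
    rw [← mul_add, ← add_mul, sv_cv, one_mul]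
  have hN : ∑ j, κ j * kN (mul (sv θ w r) ψ) j + ∑ j, κ j * kN (mul (cv θ w r) ψ) j =
      ∑ j, κ j * kN ψ j := by
    rw [← sum_add_distrib]
    refine sum_congr rfl fun j _ => ?_
    rw [← mul_add, vac_kN hψ h w r j]
  have hE : ∑ b, kE (mul (sv θ w r) ψ) b + ∑ b, kE (mul (cv θ w r) ψ) b ≤
      ∑ b, kE ψ b + (Real.pi / 2) ^ 2 * C * (r ^ 2)⁻¹ *
        mean ψ (fun p => ct w (2 * r) p.1) := by
    rw [← sum_add_distrib, sum_congr rfl fun b _ => (vac_kE hψ h w r b).1, sum_add_distrib]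
    refine add_le_add le_rfl ?_
    rw [sum_comm]
    unfold mean
    rw [mul_sum]
    refine sum_le_sum fun σ _ => ?_
    rw [← integral_finsetSum _ fun b _ => (vac_kE hψ h w r b).2 σ, ← integral_const_mul]
    refine integral_mono (integrable_finsetSum _ fun b _ => (vac_kE hψ h w r b).2 σ)
      ((ct_int hψ σ w (2 * r)).const_mul _) fun p => ?_
    dsimp only
    rw [← sum_mul, ← mul_assoc]
    refine mul_le_mul_of_nonneg_right ?_ (by positivity)
    unfold ct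
    rw [mul_sum]
    exact sum_le_sum fun b _ => gx_bound h hC0 hC w r hr b p.1
  unfold energy
  linarith

end H6.CM
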