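import Pool.Agent.H6.CM.InsE
import Pool.Agent.H6.CM.Vac
import Pool.Agent.H6.CM.AvgW
import Pool.Agent.H6.CM.Asym

/-! With `E` a lower bound for `n + 1`, `E0` a lower bound for `n` (`LB`), `ψ` a state with energy at most `E0 + ε`: `w` from `avg_w`, `r = ρ^(-1/3)/10`, `φ = mul (sv θ w r) ψ`; by `vac_energy` and `E0 * mass (mul cv ψ) ≤ energy (mul cv ψ)`: `energy φ ≤ E0 * mass φ + ε + C r^-2 / 2`; antisymmetrise `ins χ r w α φ` (`anti_st`, `anti_mass`, `anti_energy` with `a = Fin.last n`): `E * mass φ ≤ energy φ + (1 + κ) r^-2 (∫ gr χ) mass φ`; `mass φ ≥ 1/2`. -/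

open MeasureTheory Finset

namespace H6.CM

theorem insert_E {q n k : ℕ} {Λ : Set E3} {E κ : ℝ} (hκ : 0 ≤ κ)
    (hE : LB q (n + 1) (k + 1) Λ (fun _ => 1) (fun _ => κ) E)
    {φ : (Fin n → Fin q) → Cfg n k → ℂ} (hφ : St q n k Λ φ) {χ : E3 → ℝ} (hχ : Bump χ)
    (r : ℝ) (hr : 0 < r) (w : E3) (hw : Metric.closedBall w r ⊆ Λ) (α : Fin q)
    (hφ0 : ∀ σ p, φ σ p ≠ 0 → ∀ b, r ≤ ‖p.1 b - w‖) :
    E * mass φ ≤ energy (fun _ => 1) (fun _ => κ) φ +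
      (1 + κ) * ((r ^ 2)⁻¹ * ∫ v, gr χ v) * mass φ := by
  have hsm := fun σ => ins_smooth hφ hχ r hr w α σ
  have hcp := fun σ => ins_cpt hφ hχ r hr w α σ
  have hsp := fun σ p hp => ins_supp hφ hχ r hr w hw α σ p hp
  have han := fun π hπ σ p => ins_anti hφ (χ := χ) r w α π hπ σ p
  have hfar := fun σ p hp => ins_far hχ r hr w α hφ0 σ p hp
  have h1 := hE _ (anti_st (Fin.last n) _ hsm hcp hsp han)
  rw [anti_mass (Fin.last n) _ hsm hcp w r hr hfar,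
    anti_energy _ _ (Fin.last n) _ hsm hcp w r hr hfar, ins_mass hφ hχ r hr w α] at h1
  have h2 := ins_energy hφ hχ r hr w α κ hκ
  have hn : (0 : ℝ) < ((n + 1 : ℕ) : ℝ) := by exact_mod_cast Nat.succ_pos n
  have h3 : E * mass φ ≤ energy (fun _ => 1) (fun _ => κ) (ins χ r w α φ) := by
    refine le_of_mul_le_mul_left ?_ hn
    linarith
  exact h3.trans h2

theorem insert_pair (κ ρ : ℝ) (hκ : 0 ≤ κ) (hρ : 0 < ρ) : ∃ C : ℝ, 0 ≤ C ∧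
    ∀ (q : ℕ) (_ : 1 ≤ q) (n : ℕ) (ℓ : ℝ) (_ : 0 < ℓ) (_ : (n : ℝ) + 1 ≤ ρ * ℓ ^ 3) (E E0 ε : ℝ)
    (_ : 0 ≤ ε)
    (_ : LB q (n + 1) (n + 1) (cube ℓ) (fun _ => 1) (fun _ => κ) E)
    (_ : LB q n n (cube ℓ) (fun _ => 1) (fun _ => κ) E0)
    (ψ : (Fin n → Fin q) → Cfg n n → ℂ) (_ : St q n n (cube ℓ) ψ) (_ : mass ψ = 1)
    (_ : energy (fun _ => 1) (fun _ => κ) ψ ≤ E0 + ε), E ≤ E0 + C + 2 * ε := by
  obtain ⟨χ, hχ⟩ := bump_ex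
  obtain ⟨θ, hθ⟩ := cut_ex
  obtain ⟨C1, hC1, hvac⟩ := vac_energy hθ
  set r : ℝ := ρ ^ (-(1 / 3) : ℝ) / 10 with hr_def
  have hr : 0 < r := by
    rw [hr_def]
    positivity
  have hK : 0 ≤ ∫ v, gr χ v := integral_nonneg fun v => by
    unfold gr
    exact sum_nonneg fun d _ => sq_nonneg _
  set K : ℝ := ∫ v, gr χ v with hK_def
  have hr2 : 0 ≤ (r ^ 2)⁻¹ := by positivity
  refine ⟨C1 * (r ^ 2)⁻¹ + (1 + κ) * ((r ^ 2)⁻¹ * K), by positivity, ?_⟩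
  intro q hq n ℓ hℓ hn E E0 ε hε hE hE0 ψ hψ hm hen
  obtain ⟨w, hw, hct⟩ := avg_w ρ ℓ hρ hℓ hn hψ hm
  rw [← hr_def] at hw hct
  obtain ⟨hs, hc⟩ := vac_st hψ hθ w r
  obtain ⟨hm1, hm2⟩ := vac_mass hψ hθ w r hr
  have hv := hvac q n n (cube ℓ) (fun _ => 1) (fun _ => κ) ψ hψ w r hr
  have hcE := hE0 _ hc
  have hI := insert_E hκ hE hs hχ r hr w hw ⟨0, by omega⟩ (fun σ p hp b => by
    refine vac_far hθ w r hr p.1 ?_ b
    intro h0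
    apply hp
    unfold mul
    rw [h0]
    simp)
  rw [← hK_def] at hI
  rw [hm] at hm1
  set A := mass (mul (sv θ w r) ψ) with hA
  set B := mass (mul (cv θ w r) ψ) with hB
  set eA := energy (fun _ => 1) (fun _ => κ) (mul (sv θ w r) ψ) with heA
  set eB := energy (fun _ => 1) (fun _ => κ) (mul (cv θ w r) ψ) with heB
  set M := mean ψ (fun p => ct w (2 * r) p.1) with hM
  have hA2 : 1 / 2 ≤ A := by linarith
  have hX : C1 * (r ^ 2)⁻¹ * M ≤ C1 * (r ^ 2)⁻¹ * (1 / 2) :=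
    mul_le_mul_of_nonneg_left hct (by positivity)
  have h1 : eA ≤ E0 * A + ε + C1 * (r ^ 2)⁻¹ * (1 / 2) := by
    have h2 : E0 * B = E0 - E0 * A := by
      have : B = 1 - A := by linarith
      rw [this]
      ring
    linarith
  -- (E - E0 - (1 + κ) K / r²) * A ≤ ε + C1 / (2 r²)
  have h3 : (E - E0 - (1 + κ) * ((r ^ 2)⁻¹ * K)) * A ≤ ε + C1 * (r ^ 2)⁻¹ * (1 / 2) := by
    have : (E - E0 - (1 + κ) * ((r ^ 2)⁻¹ * K)) * A =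
        E * A - E0 * A - (1 + κ) * ((r ^ 2)⁻¹ * K) * A := by ring
    linarith
  have h4 : 0 ≤ C1 * (r ^ 2)⁻¹ := by positivity
  by_contra hcon
  push Not at hcon
  have h5 : 2 * ε + C1 * (r ^ 2)⁻¹ < E - E0 - (1 + κ) * ((r ^ 2)⁻¹ * K) := by linarith
  have h6 : (2 * ε + C1 * (r ^ 2)⁻¹) * (1 / 2) <
      (E - E0 - (1 + κ) * ((r ^ 2)⁻¹ * K)) * A := by
    have h7 : 0 ≤ 2 * ε + C1 * (r ^ 2)⁻¹ := by linarith
    calc (2 * ε + C1 * (r ^ 2)⁻¹) * (1 / 2) ≤ (2 * ε + C1 * (r ^ 2)⁻¹) * A :=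
          mul_le_mul_of_nonneg_left hA2 h7
      _ < _ := mul_lt_mul_of_pos_right h5 (by linarith)
  linarith

end H6.CM
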