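import Pool.Agent.H6.CM.BallInv

/-! Local integrability of the Coulomb potential composed with a surjective affine map. Proof: for `v` in the unit ball of `E3`, by translation invariance, `∫⁻ p, ‖c + L p‖⁻¹ |h p| = ∫⁻ p, ‖c + L p + v‖⁻¹ |h (p + S v)|`; average over `v` in the ball, use Tonelli and `|h (p + S v)| ≤ M * 1_K (p)` with `K` compact (the set of all `q - S v`, `q` in the support), then `ballinv` for the inner integral in `v` (after the substitution `v ↦ c + L p + v`). -/

open MeasureTheory Finset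

namespace H6.CM

private theorem ball_shift (C : ℝ) (hC : ∀ (u : E3) (r : ℝ), 0 < r →
    ∫⁻ v in Metric.ball u r, ENNReal.ofReal ‖v‖⁻¹ ≤ ENNReal.ofReal (C * r ^ 2)) (u : E3) :
    ∫⁻ v in Metric.ball (0 : E3) 1, ENNReal.ofReal ‖u + v‖⁻¹ ≤ ENNReal.ofReal C := by
  have h1 := hC u 1 one_pos
  rw [one_pow, mul_one] at h1
  refine le_trans (le_of_eq ?_) h1
  rw [← lintegral_indicator Metric.isOpen_ball.measurableSet,
    ← lintegral_indicator Metric.isOpen_ball.measurableSet,
    ← lintegral_add_left_eq_self (fun v => (Metric.ball u 1).indicator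
      (fun v => ENNReal.ofReal ‖v‖⁻¹) v) u]
  refine lintegral_congr fun v => ?_
  by_cases hv : v ∈ Metric.ball (0 : E3) 1
  · have hv' : u + v ∈ Metric.ball u 1 := by
      rw [mem_ball_iff_norm] at hv ⊢
      simpa using hv
    rw [Set.indicator_of_mem hv, Set.indicator_of_mem hv']
  · have hv' : u + v ∉ Metric.ball u 1 := by
      rw [mem_ball_iff_norm] at hv ⊢
      simpa using hv
    rw [Set.indicator_of_notMem hv, Set.indicator_of_notMem hv']

theorem intK {Y : Type*} [NormedAddCommGroup Y] [NormedSpace ℝ Y] [FiniteDimensional ℝ Y]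
    [MeasurableSpace Y] [BorelSpace Y] (μ : Measure Y) [μ.IsAddHaarMeasure]
    (L : Y →L[ℝ] E3) (S : E3 →L[ℝ] Y) (hLS : ∀ v, L (S v) = v) (c : E3)
    (h : Y → ℝ) (hc : Continuous h) (hs : HasCompactSupport h) :
    Integrable (fun p => ‖c + L p‖⁻¹ * h p) μ := by
  have : ProperSpace Y := FiniteDimensional.proper ℝ Y
  obtain ⟨C, hC0, hC⟩ := ballinv
  have hm1 : Measurable (fun p : Y => ‖c + L p‖⁻¹) := by fun_prop
  refine ⟨(hm1.mul hc.measurable).aestronglyMeasurable, ?_⟩
  obtain ⟨M, hM⟩ := hs.exists_bound_of_continuous hc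
  -- the compact set
  set K : Set Y := (fun z : Y × E3 => z.1 - S z.2) '' (tsupport h ×ˢ Metric.closedBall (0 : E3) 1)
    with hK
  have hKc : IsCompact K := by
    refine IsCompact.image (hs.isCompact.prod (isCompact_closedBall 0 1)) ?_
    fun_prop
  set I : ENNReal := ∫⁻ p, ENNReal.ofReal ‖c + L p‖⁻¹ * ENNReal.ofReal ‖h p‖ ∂μ with hI
  set g : E3 → Y → ENNReal := fun v p =>
    ENNReal.ofReal ‖c + L p + v‖⁻¹ * K.indicator (fun _ => ENNReal.ofReal M) p with hg
  have h1 : ∀ v ∈ Metric.ball (0 : E3) 1, I ≤ ∫⁻ p, g v p ∂μ := by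
    intro v hv
    rw [hI, ← lintegral_add_right_eq_self
      (fun p => ENNReal.ofReal ‖c + L p‖⁻¹ * ENNReal.ofReal ‖h p‖) (S v)]
    refine lintegral_mono fun p => ?_
    dsimp only [hg]
    rw [map_add, hLS, ← add_assoc]
    refine mul_le_mul_right ?_ _
    by_cases hp : p ∈ K
    · rw [Set.indicator_of_mem hp]
      exact ENNReal.ofReal_le_ofReal (hM _)
    · have h0 : h (p + S v) = 0 := by
        by_contra h0
        refine hp ⟨(p + S v, v), ⟨subset_tsupport h h0, Metric.ball_subset_closedBall hv⟩, ?_⟩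
        simp
      rw [h0]
      simp
  have hgm : Measurable (Function.uncurry g) := by
    have e1 : Measurable (fun z : E3 × Y => ENNReal.ofReal ‖c + L z.2 + z.1‖⁻¹) := by fun_prop
    have e2 : Measurable (fun z : E3 × Y => K.indicator (fun _ => ENNReal.ofReal M) z.2) :=
      (measurable_const.indicator hKc.measurableSet).comp measurable_snd
    exact e1.mul e2
  have h2 : volume (Metric.ball (0 : E3) 1) * I ≤ ENNReal.ofReal C * ENNReal.ofReal M * μ K := by
    calc volume (Metric.ball (0 : E3) 1) * I = ∫⁻ _ in Metric.ball (0 : E3) 1, I := by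
          rw [setLIntegral_const, mul_comm]
      _ ≤ ∫⁻ v in Metric.ball (0 : E3) 1, ∫⁻ p, g v p ∂μ :=
          setLIntegral_mono' Metric.isOpen_ball.measurableSet h1
      _ = ∫⁻ p, (∫⁻ v in Metric.ball (0 : E3) 1, g v p) ∂μ :=
          lintegral_lintegral_swap hgm.aemeasurable
      _ ≤ ∫⁻ p, ENNReal.ofReal C * K.indicator (fun _ => ENNReal.ofReal M) p ∂μ := by
          refine lintegral_mono fun p => ?_
          dsimp only [hg]
          rw [lintegral_mul_const _ (by fun_prop)]
          exact mul_le_mul_left (ball_shift C hC (c + L p)) _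
      _ = ENNReal.ofReal C * ENNReal.ofReal M * μ K := by
          rw [lintegral_const_mul _ (measurable_const.indicator hKc.measurableSet),
            lintegral_indicator hKc.measurableSet, setLIntegral_const, mul_assoc]
  have h3 : I < ⊤ := by
    have h4 : ENNReal.ofReal C * ENNReal.ofReal M * μ K < ⊤ :=
      ENNReal.mul_lt_top (ENNReal.mul_lt_top ENNReal.ofReal_lt_top ENNReal.ofReal_lt_top)
        hKc.measure_lt_top
    have h5 := h2.trans_lt h4
    have h6 : volume (Metric.ball (0 : E3) 1) ≠ 0 := (Metric.measure_ball_pos _ _ one_pos).ne'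
    by_contra h7
    rw [not_lt, top_le_iff] at h7
    rw [h7, ENNReal.mul_top h6] at h5
    exact lt_irrefl _ h5
  have h8 : ∫⁻ p, ‖‖c + L p‖⁻¹ * h p‖ₑ ∂μ = I := by
    refine lintegral_congr fun p => ?_
    rw [← ofReal_norm, norm_mul, ENNReal.ofReal_mul (norm_nonneg _), norm_inv, norm_norm]
  rw [HasFiniteIntegral, h8]
  exact h3

end H6.CM
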