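import Pool.Agent.H6.CM.PDefs
import Pool.Agent.H6.CM.Stab
import Pool.Agent.H6.CM.GCont

/-! The set of energies is nonempty (a wave function: product of bumps with disjoint supports, antisymmetrised, scaled) and bounded below (`stab`); the infimum is a lower bound in the sense of `LB` (scaling; a state of mass zero vanishes). -/

open MeasureTheory Finset

namespace H6.CM

private theorem haarN (n k : ℕ) : (volume : Measure (Cfg n k)).IsAddHaarMeasure :=
  Measure.prod.instIsAddHaarMeasure (G := Fin n → E3) (H := Fin k → E3) volume volume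

private noncomputable def sc {q n k : ℕ} (c : ℝ) (ψ : (Fin n → Fin q) → Cfg n k → ℂ) :
    (Fin n → Fin q) → Cfg n k → ℂ := fun σ p => (c : ℂ) * ψ σ p

private theorem sc_st {q n k : ℕ} {Λ : Set E3} {ψ : (Fin n → Fin q) → Cfg n k → ℂ}
    (hψ : St q n k Λ ψ) (c : ℝ) : St q n k Λ (sc c ψ) := by
  refine ⟨fun σ => ?_, fun σ => ?_, fun σ p hp => ?_, fun π σ p => ?_⟩
  · exact contDiff_const.mul (hψ.smooth σ)
  · exact (hψ.cpt σ).mul_left
  · refine hψ.supp σ p (closure_mono ?_ hp)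
    intro x hx h0
    apply hx
    show (c : ℂ) * ψ σ x = 0
    rw [h0, mul_zero]
  · unfold sc
    rw [hψ.anti π σ p]
    ring

private theorem sc_mean {q n k : ℕ} (c : ℝ) (ψ : (Fin n → Fin q) → Cfg n k → ℂ)
    (F : Cfg n k → ℝ) : mean (sc c ψ) F = c ^ 2 * mean ψ F := by
  unfold mean sc
  rw [mul_sum]
  refine sum_congr rfl fun σ _ => ?_
  rw [← integral_const_mul]
  congr 1
  funext p
  rw [norm_mul, mul_pow, Complex.norm_real, Real.norm_eq_abs, sq_abs]
  ring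

private theorem sc_mass {q n k : ℕ} (c : ℝ) (ψ : (Fin n → Fin q) → Cfg n k → ℂ) :
    mass (sc c ψ) = c ^ 2 * mass ψ := by
  unfold mass sc
  rw [mul_sum]
  refine sum_congr rfl fun σ _ => ?_
  rw [← integral_const_mul]
  congr 1
  funext p
  rw [norm_mul, mul_pow, Complex.norm_real, Real.norm_eq_abs, sq_abs]

private theorem sc_ge {n k : ℕ} (c : ℝ) (F : Cfg n k → ℂ) (hF : Differentiable ℝ F) (a : Fin n)
    (p : Cfg n k) : ge (fun p => (c : ℂ) * F p) a p = c ^ 2 * ge F a p := by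
  have hF' : Differentiable ℝ (fun p => (c : ℂ) * F p) := hF.const_mul _
  rw [ge_eq _ hF' a p, ge_eq F hF a p, mul_sum, fderiv_const_mul (hF p)]
  refine sum_congr rfl fun d _ => ?_
  rw [ContinuousLinearMap.smul_apply, smul_eq_mul, norm_mul, Complex.norm_real, mul_pow,
    Real.norm_eq_abs, sq_abs]

private theorem sc_gn {n k : ℕ} (c : ℝ) (F : Cfg n k → ℂ) (hF : Differentiable ℝ F) (j : Fin k)
    (p : Cfg n k) : gn (fun p => (c : ℂ) * F p) j p = c ^ 2 * gn F j p := by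
  have hF' : Differentiable ℝ (fun p => (c : ℂ) * F p) := hF.const_mul _
  rw [gn_eq _ hF' j p, gn_eq F hF j p, mul_sum, fderiv_const_mul (hF p)]
  refine sum_congr rfl fun d _ => ?_
  rw [ContinuousLinearMap.smul_apply, smul_eq_mul, norm_mul, Complex.norm_real, mul_pow,
    Real.norm_eq_abs, sq_abs]

private theorem sc_energy {q n k : ℕ} {Λ : Set E3} {ψ : (Fin n → Fin q) → Cfg n k → ℂ}
    (hψ : St q n k Λ ψ) (c : ℝ) (z κ : Fin k → ℝ) :
    energy z κ (sc c ψ) = c ^ 2 * energy z κ ψ := by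
  have hd : ∀ σ, Differentiable ℝ (ψ σ) := fun σ => (hψ.smooth σ).differentiable (by simp)
  have h1 : ∀ a, kE (sc c ψ) a = c ^ 2 * kE ψ a := by
    intro a
    unfold kE
    rw [mul_sum]
    refine sum_congr rfl fun σ _ => ?_
    rw [← integral_const_mul]
    congr 1
    funext p
    exact sc_ge c (ψ σ) (hd σ) a p
  have h2 : ∀ j, kN (sc c ψ) j = c ^ 2 * kN ψ j := by
    intro j
    unfold kN
    rw [mul_sum]
    refine sum_congr rfl fun σ _ => ?_
    rw [← integral_const_mul]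
    congr 1
    funext p
    exact sc_gn c (ψ σ) (hd σ) j p
  unfold energy
  simp only [h1, h2, sc_mean]
  rw [mul_add, mul_add, mul_sum, mul_sum]
  congr 2
  refine sum_congr rfl fun j _ => ?_
  ring

private theorem n_sq_cont {q n k : ℕ} {Λ : Set E3} {ψ : (Fin n → Fin q) → Cfg n k → ℂ}
    (hψ : St q n k Λ ψ) (σ : Fin n → Fin q) : Continuous (fun p => ‖ψ σ p‖ ^ 2) := by
  have := (hψ.smooth σ).continuous
  fun_prop

private theorem n_sq_cpt {q n k : ℕ} {Λ : Set E3} {ψ : (Fin n → Fin q) → Cfg n k → ℂ}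
    (hψ : St q n k Λ ψ) (σ : Fin n → Fin q) : HasCompactSupport (fun p => ‖ψ σ p‖ ^ 2) := by
  refine (hψ.cpt σ).mono ?_
  intro p hp
  simp only [Function.mem_support, ne_eq, pow_eq_zero_iff, OfNat.ofNat_ne_zero,
    not_false_eq_true, norm_eq_zero] at hp ⊢
  exact hp

private theorem mass_nonneg' {q n k : ℕ} (ψ : (Fin n → Fin q) → Cfg n k → ℂ) : 0 ≤ mass ψ :=
  sum_nonneg fun σ _ => integral_nonneg fun p => by positivity

private theorem mass_pos_of {q n k : ℕ} {Λ : Set E3} {ψ : (Fin n → Fin q) → Cfg n k → ℂ}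
    (hψ : St q n k Λ ψ) (σ : Fin n → Fin q) (p : Cfg n k) (h : ψ σ p ≠ 0) : 0 < mass ψ := by
  have hinst := haarN n k
  have h1 : 0 < ∫ p, ‖ψ σ p‖ ^ 2 := by
    refine Continuous.integral_pos_of_hasCompactSupport_nonneg_nonzero (x := p)
      (n_sq_cont hψ σ) (n_sq_cpt hψ σ) (fun p => by positivity) ?_
    have := norm_pos_iff.mpr h
    positivity
  refine lt_of_lt_of_le h1 ?_
  exact single_le_sum (f := fun σ => ∫ p, ‖ψ σ p‖ ^ 2)
    (fun σ _ => integral_nonneg fun p => by positivity) (mem_univ σ)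

private theorem kE_nonneg' {q n k : ℕ} (ψ : (Fin n → Fin q) → Cfg n k → ℂ) (a : Fin n) :
    0 ≤ kE ψ a := sum_nonneg fun σ _ => integral_nonneg fun p => g3_nonneg _ _

private theorem kN_nonneg' {q n k : ℕ} (ψ : (Fin n → Fin q) → Cfg n k → ℂ) (j : Fin k) :
    0 ≤ kN ψ j := sum_nonneg fun σ _ => integral_nonneg fun p => g3_nonneg _ _

private theorem bumps (n : ℕ) (ℓ : ℝ) (hℓ : 0 < ℓ) :
    ∃ (c : Fin n → E3) (f : Fin n → E3 → ℝ) (K : Set E3), IsCompact K ∧ K ⊆ cube ℓ ∧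
      (∀ b, ContDiff ℝ (⊤ : ℕ∞) (f b)) ∧ (∀ b v, f b v ≠ 0 → v ∈ K) ∧
      ∀ a b, f b (c a) = if a = b then 1 else 0 := by
  obtain ⟨m, hm⟩ : ∃ m : E3, m = WithLp.toLp 2 (fun _ : Fin 3 => ℓ / 2) := ⟨_, rfl⟩
  obtain ⟨e0, he0⟩ : ∃ e0 : E3, e0 = EuclideanSpace.single (0 : Fin 3) (1 : ℝ) := ⟨_, rfl⟩
  have hne0 : ‖e0‖ = 1 := by rw [he0]; simp
  obtain ⟨s, hs⟩ : ∃ s : ℝ, s = ℓ / (8 * ((n : ℝ) + 1)) := ⟨_, rfl⟩
  have hs0 : 0 < s := by rw [hs]; positivity
  have hns : ((n : ℝ) + 1) * s = ℓ / 8 := by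
    rw [hs]
    field_simp
  obtain ⟨c, hc⟩ : ∃ c : Fin n → E3, c = fun b : Fin n => m + (((b : ℕ) : ℝ) * s) • e0 :=
    ⟨_, rfl⟩
  have hcm : ∀ b, ‖c b - m‖ ≤ ℓ / 8 := by
    intro b
    rw [hc]
    simp only [add_sub_cancel_left]
    rw [norm_smul, hne0, mul_one, Real.norm_eq_abs, abs_of_nonneg (by positivity), ← hns]
    refine mul_le_mul_of_nonneg_right ?_ hs0.le
    have : ((b : ℕ) : ℝ) ≤ n := by
      exact_mod_cast b.2.le
    linarith
  have hdist : ∀ a b, a ≠ b → s ≤ dist (c a) (c b) := by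
    intro a b hab
    rw [hc, dist_eq_norm]
    have h1 : m + (((a : ℕ) : ℝ) * s) • e0 - (m + (((b : ℕ) : ℝ) * s) • e0)
        = ((((a : ℕ) : ℝ) - ((b : ℕ) : ℝ)) * s) • e0 := by
      rw [add_sub_add_left_eq_sub, ← sub_smul, sub_mul]
    simp only [h1]
    rw [norm_smul, hne0, mul_one, Real.norm_eq_abs, abs_mul, abs_of_pos hs0]
    have h2 : (1 : ℝ) ≤ |((a : ℕ) : ℝ) - ((b : ℕ) : ℝ)| := by
      have h3 : ((a : ℕ) : ℤ) - ((b : ℕ) : ℤ) ≠ 0 := by
        intro h
        apply hab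
        apply Fin.ext
        omega
      have h4 : (1 : ℤ) ≤ |((a : ℕ) : ℤ) - ((b : ℕ) : ℤ)| := Int.one_le_abs h3
      have h5 : ((1 : ℤ) : ℝ) ≤ ((|((a : ℕ) : ℤ) - ((b : ℕ) : ℤ)| : ℤ) : ℝ) := by
        exact_mod_cast h4
      push_cast at h5
      exact h5
    nlinarith
  have hbump : ∀ b, ∃ χ : ContDiffBump (c b), χ.rOut = s :=
    fun b => ⟨⟨s / 2, s, by linarith, by linarith⟩, rfl⟩
  choose χ hχ using hbump
  refine ⟨c, fun b => χ b, Metric.closedBall m (ℓ / 4), isCompact_closedBall _ _, ?_, ?_, ?_, ?_⟩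
  · intro x hx i
    have h1 : ‖x - m‖ ≤ ℓ / 4 := by
      rw [← dist_eq_norm]
      exact hx
    have h2 : ‖(x - m) i‖ ≤ ‖x - m‖ := PiLp.norm_apply_le _ i
    have h3 : (x - m) i = x i - ℓ / 2 := by
      rw [hm]
      simp
    rw [h3, Real.norm_eq_abs] at h2
    have h4 := abs_le.mp (h2.trans h1)
    constructor <;> linarith [h4.1, h4.2]
  · intro b
    exact (χ b).contDiff
  · intro b v hv
    by_contra hnot
    apply hv
    apply (χ b).zero_of_le_dist
    rw [hχ b]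
    by_contra hlt
    push Not at hlt
    apply hnot
    rw [Metric.mem_closedBall]
    have h1 : dist v m ≤ dist v (c b) + dist (c b) m := dist_triangle _ _ _
    have h2 : dist (c b) m ≤ ℓ / 8 := by
      rw [dist_eq_norm]
      exact hcm b
    have h3 : s ≤ ℓ / 8 := by
      rw [← hns]
      have : (0 : ℝ) ≤ n := Nat.cast_nonneg n
      nlinarith
    linarith
  · intro a b
    by_cases hab : a = b
    · rw [if_pos hab, hab]
      apply (χ b).one_of_mem_closedBall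
      exact Metric.mem_closedBall_self (χ b).rIn_pos.le
    · rw [if_neg hab]
      apply (χ b).zero_of_le_dist
      rw [hχ b]
      exact hdist a b hab

/-- the Slater determinant -/
private noncomputable def Dt {n : ℕ} (f : Fin n → E3 → ℝ) (x : Fin n → E3) : ℝ :=
  Matrix.det (Matrix.of fun a b => f b (x a))

private theorem Dt_smooth {n : ℕ} (f : Fin n → E3 → ℝ) (hf : ∀ b, ContDiff ℝ (⊤ : ℕ∞) (f b)) :
    ContDiff ℝ (⊤ : ℕ∞) (Dt f) := by
  have h1 : Dt f = fun x : Fin n → E3 => ∑ σ : Equiv.Perm (Fin n),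
      ((Equiv.Perm.sign σ : ℤ) : ℝ) * ∏ i, f i (x (σ i)) := by
    funext x
    unfold Dt
    rw [Matrix.det_apply']
    rfl
  rw [h1]
  refine ContDiff.sum fun σ _ => ?_
  refine contDiff_const.mul ?_
  refine contDiff_prod fun i _ => ?_
  exact (hf i).comp (contDiff_apply ℝ E3 (σ i))

private theorem Dt_perm {n : ℕ} (f : Fin n → E3 → ℝ) (x : Fin n → E3) (π : Equiv.Perm (Fin n)) :
    Dt f (x ∘ π) = ((Equiv.Perm.sign π : ℤ) : ℝ) * Dt f x := by
  unfold Dt
  exact Matrix.det_permute π (Matrix.of fun a b => f b (x a))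

private theorem Dt_supp {n : ℕ} (f : Fin n → E3 → ℝ) (K : Set E3) (h : ∀ b v, f b v ≠ 0 → v ∈ K)
    (x : Fin n → E3) (hx : Dt f x ≠ 0) (a : Fin n) : x a ∈ K := by
  by_contra hn
  apply hx
  refine Matrix.det_eq_zero_of_row_eq_zero a fun b => ?_
  by_contra h0
  exact hn (h b _ h0)

theorem hset_nonempty (q n : ℕ) (hq : 1 ≤ q) (κ ℓ : ℝ) (hℓ : 0 < ℓ) :
    (Hset q n κ (cube ℓ)).Nonempty := by
  classical
  obtain ⟨c, f, K, hK, hKc, hfs, hfK, hfc⟩ := bumps n ℓ hℓ
  obtain ⟨s0, hs0⟩ : ∃ s0 : Fin n → Fin q, s0 = fun _ => ⟨0, hq⟩ := ⟨_, rfl⟩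
  obtain ⟨ψ, hψd⟩ : ∃ ψ : (Fin n → Fin q) → Cfg n n → ℂ, ψ = fun σ p => if σ = s0 then
      ((Dt f p.1 * ∏ j, f j (p.2 j) : ℝ) : ℂ) else 0 := ⟨_, rfl⟩
  obtain ⟨KK, hKKd⟩ : ∃ KK : Set (Cfg n n), KK = (Set.univ.pi fun _ : Fin n => K) ×ˢ
      (Set.univ.pi fun _ : Fin n => K) := ⟨_, rfl⟩
  have hKK : IsCompact KK := by
    rw [hKKd]
    exact (isCompact_univ_pi fun _ => hK).prod (isCompact_univ_pi fun _ => hK)
  have hsub : ∀ σ, Function.support (ψ σ) ⊆ KK := by
    intro σ p hp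
    rw [Function.mem_support, hψd] at hp
    simp only at hp
    by_cases hσ : σ = s0
    · rw [if_pos hσ] at hp
      have h1 : Dt f p.1 * ∏ j, f j (p.2 j) ≠ 0 := by
        intro h
        apply hp
        rw [h, Complex.ofReal_zero]
      have h2 : Dt f p.1 ≠ 0 := left_ne_zero_of_mul h1
      have h3 : ∏ j, f j (p.2 j) ≠ 0 := right_ne_zero_of_mul h1
      rw [hKKd]
      refine ⟨fun a _ => Dt_supp f K hfK p.1 h2 a, fun j _ => ?_⟩
      exact hfK j _ (prod_ne_zero_iff.mp h3 j (mem_univ j))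
    · rw [if_neg hσ] at hp
      exact absurd rfl hp
  have hψ : St q n n (cube ℓ) ψ := by
    refine ⟨fun σ => ?_, fun σ => ?_, fun σ p hp => ?_, fun π σ p => ?_⟩
    · rw [hψd]
      by_cases hσ : σ = s0
      · simp only [if_pos hσ]
        refine Complex.ofRealCLM.contDiff.comp ?_
        refine ((Dt_smooth f hfs).comp contDiff_fst).mul ?_
        refine contDiff_prod fun j _ => ?_
        exact (hfs j).comp ((contDiff_apply ℝ E3 j).comp contDiff_snd)
      · simp only [if_neg hσ]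
        exact contDiff_const
    · exact HasCompactSupport.of_support_subset_isCompact hKK (hsub σ)
    · have h1 : p ∈ KK := closure_minimal (hsub σ) hKK.isClosed hp
      rw [hKKd] at h1
      exact ⟨fun a => hKc (h1.1 a (Set.mem_univ a)), fun j => hKc (h1.2 j (Set.mem_univ j))⟩
    · rw [hψd]
      simp only
      have hc0 : (σ ∘ π = s0) ↔ (σ = s0) := by
        constructor
        · intro h
          funext i
          have h1 := congrFun h (π.symm i)
          rw [Function.comp_apply, Equiv.apply_symm_apply] at h1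
          rw [h1, hs0]
        · intro h
          funext i
          rw [Function.comp_apply, h, hs0]
      by_cases hσ : σ = s0
      · rw [if_pos (hc0.mpr hσ), if_pos hσ, Dt_perm]
        push_cast
        ring
      · rw [if_neg (fun h => hσ (hc0.mp h)), if_neg hσ, mul_zero]
  have hne : ψ s0 (c, c) ≠ 0 := by
    rw [hψd]
    simp only [if_true]
    have h1 : Dt f c = 1 := by
      unfold Dt
      have h2 : (Matrix.of fun a b => f b (c a)) = (1 : Matrix (Fin n) (Fin n) ℝ) := by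
        ext a b
        rw [Matrix.of_apply, hfc, Matrix.one_apply]
      rw [h2, Matrix.det_one]
    have h3 : ∏ j, f j (c j) = 1 := by
      refine prod_eq_one fun j _ => ?_
      rw [hfc, if_pos rfl]
    rw [h1, h3]
    norm_num
  have hpos : 0 < mass ψ := mass_pos_of hψ s0 (c, c) hne
  refine ⟨_, sc ((Real.sqrt (mass ψ))⁻¹) ψ, sc_st hψ _, ?_, rfl⟩
  rw [sc_mass, inv_pow, Real.sq_sqrt hpos.le, inv_mul_cancel₀ hpos.ne']

theorem hset_bdd (q n : ℕ) (κ : ℝ) (hκ : 0 ≤ κ) (Λ : Set E3) : BddBelow (Hset q n κ Λ) := by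
  obtain ⟨C, hC, hs⟩ := stab q 1
  refine ⟨-(C * (n + n)), ?_⟩
  rintro e ⟨ψ, hψ, hm, rfl⟩
  have h1 := hs n n Λ (fun _ => 1) (fun _ => ⟨zero_le_one, le_refl _⟩) ψ hψ
  rw [hm, mul_one] at h1
  unfold energy
  have h2 : 0 ≤ ∑ a, kE ψ a := sum_nonneg fun a _ => kE_nonneg' ψ a
  have h3 : 0 ≤ ∑ j, κ * kN ψ j := sum_nonneg fun j _ => mul_nonneg hκ (kN_nonneg' ψ j)
  linarith

theorem EH_lb (q n : ℕ) (κ : ℝ) (hκ : 0 ≤ κ) (Λ : Set E3) :
    LB q n n Λ (fun _ => 1) (fun _ => κ) (EH q n κ Λ) := by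
  intro ψ hψ
  rcases (mass_nonneg' ψ).eq_or_lt with h0 | hpos
  · have hz : ∀ σ p, ψ σ p = 0 := by
      intro σ p
      by_contra h
      have := mass_pos_of hψ σ p h
      linarith
    have h1 : ψ = sc 0 ψ := by
      funext σ p
      unfold sc
      rw [hz σ p, mul_zero]
    have he : energy (fun _ => 1) (fun _ => κ) ψ = 0 := by
      rw [h1, sc_energy hψ]
      ring
    rw [← h0, mul_zero, he]
  · have hmem : energy (fun _ => 1) (fun _ => κ) (sc ((Real.sqrt (mass ψ))⁻¹) ψ)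
        ∈ Hset q n κ Λ := by
      refine ⟨_, sc_st hψ _, ?_, rfl⟩
      rw [sc_mass, inv_pow, Real.sq_sqrt hpos.le, inv_mul_cancel₀ hpos.ne']
    have h2 : EH q n κ Λ ≤ _ := csInf_le (hset_bdd q n κ hκ Λ) hmem
    rw [sc_energy hψ, inv_pow, Real.sq_sqrt hpos.le] at h2
    have h3 := mul_le_mul_of_nonneg_right h2 hpos.le
    have h4 : (mass ψ)⁻¹ * energy (fun _ => 1) (fun _ => κ) ψ * mass ψ
        = energy (fun _ => 1) (fun _ => κ) ψ := by
      field_simp
    rw [h4] at h3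
    exact h3

end H6.CM
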