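import Pool.Agent.H6.CM.BumpEx

/-! The trial function for the relocation of a nucleus is a wave function. -/

open MeasureTheory Finset

namespace H6.CM

private theorem nuc_update_smooth {n k : ℕ} (j : Fin k) (ξ : E3) :
    ContDiff ℝ (⊤ : ℕ∞) (fun p : Cfg n k => ((p.1, Function.update p.2 j ξ) : Cfg n k)) := by
  refine contDiff_fst.prodMk (contDiff_pi.2 fun l => ?_)
  by_cases h : l = j
  · subst h
    simpa using (contDiff_const : ContDiff ℝ (⊤ : ℕ∞) fun _ : Cfg n k => ξ)
  · simp only [Function.update_of_ne h]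
    exact (contDiff_apply ℝ E3 l).comp contDiff_snd

theorem nuc_st {q n k : ℕ} {Λ : Set E3} {ψ : (Fin n → Fin q) → Cfg n k → ℂ}
    (hψ : St q n k Λ ψ) {χ : E3 → ℝ} (hχ : Bump χ) (j : Fin k) (y ξ : E3)
    (hy : Metric.closedBall y 1 ⊆ Λ) :
    St q n k Λ (fun σ p => ((χ (p.2 j - y) : ℝ) : ℂ) * ψ σ (p.1, Function.update p.2 j ξ)) := by
  have hΦ : Continuous (fun u : Cfg n k × E3 => ((u.1.1, Function.update u.1.2 j u.2) : Cfg n k)) := by
    refine (continuous_fst.comp continuous_fst).prodMk ?_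
    exact (continuous_snd.comp continuous_fst).update j continuous_snd
  have hK : ∀ σ, IsCompact ((fun u : Cfg n k × E3 => ((u.1.1, Function.update u.1.2 j u.2) : Cfg n k)) ''
      (tsupport (ψ σ) ×ˢ Metric.closedBall y (1 / 2))) := fun σ =>
    ((hψ.cpt σ).isCompact.prod (isCompact_closedBall _ _)).image hΦ
  have hsub : ∀ σ, Function.support (fun p : Cfg n k => ((χ (p.2 j - y) : ℝ) : ℂ) *
      ψ σ (p.1, Function.update p.2 j ξ)) ⊆
      (fun u : Cfg n k × E3 => ((u.1.1, Function.update u.1.2 j u.2) : Cfg n k)) ''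
      (tsupport (ψ σ) ×ˢ Metric.closedBall y (1 / 2)) := by
    intro σ p hp
    rw [Function.mem_support] at hp
    have h1 : χ (p.2 j - y) ≠ 0 := by
      intro h0
      apply hp
      simp [h0]
    have h2 : ψ σ (p.1, Function.update p.2 j ξ) ≠ 0 := by
      intro h0
      apply hp
      simp [h0]
    refine ⟨((p.1, Function.update p.2 j ξ), p.2 j), ⟨subset_tsupport _ h2, ?_⟩, ?_⟩
    · rw [Metric.mem_closedBall, dist_eq_norm]
      exact (hχ.supp _ h1).le
    · ext1
      · rfl
      · simp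
  refine ⟨fun σ => ?_, fun σ => ?_, fun σ p hp => ?_, fun π σ p => ?_⟩
  · refine ContDiff.mul ?_ ((hψ.smooth σ).comp (nuc_update_smooth j ξ))
    refine Complex.ofRealCLM.contDiff.comp (hχ.smooth.comp ?_)
    exact ((contDiff_apply ℝ E3 j).comp contDiff_snd).sub contDiff_const
  · exact HasCompactSupport.of_support_subset_isCompact (hK σ) (hsub σ)
  · have h1 := closure_minimal (hsub σ) (hK σ).isClosed hp
    obtain ⟨u, ⟨hu1, hu2⟩, rfl⟩ := h1
    obtain ⟨h3, h4⟩ := hψ.supp σ u.1 hu1
    refine ⟨h3, fun l => ?_⟩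
    by_cases h : l = j
    · subst h
      simp only [Function.update_self]
      exact hy (Metric.closedBall_subset_closedBall (by norm_num) hu2)
    · simp only [Function.update_of_ne h]
      exact h4 l
  · have h1 := hψ.anti π σ (p.1, Function.update p.2 j ξ)
    simp only at h1 ⊢
    rw [h1]
    ring

end H6.CM
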