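import Pool.Agent.H6.CM.Base

/-! Hydrogen: `n` electrons and `n` nuclei of charge one in a cube; the ground state energy. -/

open MeasureTheory Finset

namespace H6.CM

/-- the open cube of side `ℓ` -/
def cube (ℓ : ℝ) : Set E3 := {x | ∀ i, 0 < x i ∧ x i < ℓ}

/-- the energies of the normalised wave functions of `n` electrons (`q` spin states) and `n`
nuclei of charge one with kinetic coefficient `κ` in `Λ` -/
def Hset (q n : ℕ) (κ : ℝ) (Λ : Set E3) : Set ℝ :=
  {e | ∃ ψ : (Fin n → Fin q) → Cfg n n → ℂ, St q n n Λ ψ ∧ mass ψ = 1 ∧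
    energy (fun _ => 1) (fun _ => κ) ψ = e}

/-- the ground state energy -/
noncomputable def EH (q n : ℕ) (κ : ℝ) (Λ : Set E3) : ℝ := sInf (Hset q n κ Λ)

end H6.CM
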