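import Pool.Agent.H6.CM.Remove
import Pool.Agent.H6.CM.Insert
import Pool.Agent.H6.CM.NonE

/-! The second theorem: from `remove`, `insert_pair` and `NonE`, taking infima. -/

open MeasureTheory Finset

namespace H6.CM

theorem pair_main (q : ℕ) (hq : 1 ≤ q) (κ ρ : ℝ) (hκ : 0 ≤ κ) (hρ : 0 < ρ) : ∃ C : ℝ,
    ∀ (n : ℕ) (ℓ : ℝ), 0 < ℓ → (n : ℝ) + 1 ≤ ρ * ℓ ^ 3 →
      (Hset q n κ (cube ℓ)).Nonempty ∧ BddBelow (Hset q n κ (cube ℓ)) ∧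
      |EH q (n + 1) κ (cube ℓ) - EH q n κ (cube ℓ)| ≤ C := by
  obtain ⟨C1, hC1, h1⟩ := remove q
  obtain ⟨C2, hC2, h2⟩ := insert_pair κ ρ hκ hρ
  refine ⟨C1 + C2, ?_⟩
  intro n ℓ hℓ hn
  have hne := hset_nonempty q n hq κ ℓ hℓ
  have hne' := hset_nonempty q (n + 1) hq κ ℓ hℓ
  refine ⟨hne, hset_bdd q n κ hκ (cube ℓ), ?_⟩
  have hL0 := EH_lb q n κ hκ (cube ℓ)
  have hL1 := EH_lb q (n + 1) κ hκ (cube ℓ)
  have a1 : EH q n κ (cube ℓ) - C1 ≤ EH q (n + 1) κ (cube ℓ) := by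
    refine le_csInf hne' ?_
    rintro e ⟨ψ, hψ, hm, rfl⟩
    have := h1 n κ hκ (cube ℓ) _ hL0 ψ hψ hm
    linarith
  have a2 : EH q (n + 1) κ (cube ℓ) ≤ EH q n κ (cube ℓ) + C2 := by
    refine le_of_forall_pos_le_add fun ε hε => ?_
    obtain ⟨e, ⟨ψ, hψ, hm, rfl⟩, he⟩ := exists_lt_of_csInf_lt hne
      (show sInf (Hset q n κ (cube ℓ)) < EH q n κ (cube ℓ) + ε / 2 by
        unfold EH; linarith)
    have := h2 q hq n ℓ hℓ hn _ _ (ε / 2) (by positivity) hL1 hL0 ψ hψ hm he.le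
    linarith
  rw [abs_le]
  constructor <;> linarith

end H6.CM
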