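import Pool.Agent.H6.CM.SlcSt
import Pool.Agent.H6.CM.SlcInt
import Pool.Agent.H6.CM.CombV
import Pool.Agent.H6.CM.Stab

/-! For all `a`, `j` and all `(ξ, ζ)`, `τ`: `E * mass (slc) ≤ energy (slc)`; sum over `τ`, integrate over `(ξ, ζ)` (`slc_int`), sum over `a` and `j` (`comb_V`, `comb_one`): with `K` the kinetic energy, `(n+1)^2 E ≤ n (n+1) K + (n^2-1) (Vr x + Vr R) - n^2 Va`, and `(n+1)^2 (K + V)` exceeds this by `(n+1) K + (2n+1) V + (Vr x + Vr R) ≥ (2n+1) (K/2 + V) ≥ - C (2n+1) (2n+2)` by `stab`. -/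

open MeasureTheory Finset

namespace H6.CM

private theorem sqc {q n k : ℕ} {Λ : Set E3} {ψ : (Fin n → Fin q) → Cfg n k → ℂ}
    (hψ : St q n k Λ ψ) (σ : Fin n → Fin q) : Continuous (fun p => ‖ψ σ p‖ ^ 2) := by
  have := (hψ.smooth σ).continuous
  fun_prop

private theorem sqs {q n k : ℕ} {Λ : Set E3} {ψ : (Fin n → Fin q) → Cfg n k → ℂ}
    (hψ : St q n k Λ ψ) (σ : Fin n → Fin q) : HasCompactSupport (fun p => ‖ψ σ p‖ ^ 2) := by
  refine (hψ.cpt σ).mono ?_
  intro p hp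
  simp only [Function.mem_support, ne_eq, pow_eq_zero_iff, OfNat.ofNat_ne_zero,
    not_false_eq_true, norm_eq_zero] at hp ⊢
  exact hp

/-- the configuration with electron `a` and nucleus `j` removed -/
private noncomputable def rmv {n k : ℕ} (a : Fin (n + 1)) (j : Fin (k + 1))
    (p : Cfg (n + 1) (k + 1)) : Cfg n k :=
  (fun b => p.1 (a.succAbove b), fun l => p.2 (j.succAbove l))

private theorem Vr1 {q n k : ℕ} {Λ : Set E3} {ψ : (Fin n → Fin q) → Cfg n k → ℂ}
    (hψ : St q n k Λ ψ) (σ : Fin n → Fin q) :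
    Integrable (fun p => Vr p.1 * ‖ψ σ p‖ ^ 2) := by
  have h1 : Integrable (fun p : Cfg n k => ∑ a, ∑ b, ‖p.1 a - p.1 b‖⁻¹ * ‖ψ σ p‖ ^ 2) :=
    integrable_finsetSum _ fun a _ => integrable_finsetSum _ fun b _ =>
      int_ee _ (sqc hψ σ) (sqs hψ σ) a b
  refine (h1.div_const 2).congr (Filter.Eventually.of_forall fun p => ?_)
  simp only [Vr]
  simp_rw [← Finset.sum_mul]
  ring

private theorem Vr2 {q n k : ℕ} {Λ : Set E3} {ψ : (Fin n → Fin q) → Cfg n k → ℂ}
    (hψ : St q n k Λ ψ) (σ : Fin n → Fin q) :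
    Integrable (fun p => Vr p.2 * ‖ψ σ p‖ ^ 2) := by
  have h1 : Integrable (fun p : Cfg n k => ∑ a, ∑ b, ‖p.2 a - p.2 b‖⁻¹ * ‖ψ σ p‖ ^ 2) :=
    integrable_finsetSum _ fun a _ => integrable_finsetSum _ fun b _ =>
      int_nn _ (sqc hψ σ) (sqs hψ σ) a b
  refine (h1.div_const 2).congr (Filter.Eventually.of_forall fun p => ?_)
  simp only [Vr]
  simp_rw [← Finset.sum_mul]
  ring

private theorem Va1 {q n k : ℕ} {Λ : Set E3} {ψ : (Fin n → Fin q) → Cfg n k → ℂ}
    (hψ : St q n k Λ ψ) (σ : Fin n → Fin q) :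
    Integrable (fun p => Va p.1 p.2 * ‖ψ σ p‖ ^ 2) := by
  have h1 : Integrable (fun p : Cfg n k => ∑ a, ∑ b, ‖p.1 a - p.2 b‖⁻¹ * ‖ψ σ p‖ ^ 2) :=
    integrable_finsetSum _ fun a _ => integrable_finsetSum _ fun b _ =>
      int_en _ (sqc hψ σ) (sqs hψ σ) a b
  refine h1.congr (Filter.Eventually.of_forall fun p => ?_)
  simp only [Va]
  simp_rw [← Finset.sum_mul]

private theorem Vrm {q n k : ℕ} {Λ : Set E3} {ψ : (Fin (n + 1) → Fin q) →
    Cfg (n + 1) (k + 1) → ℂ} (hψ : St q (n + 1) (k + 1) Λ ψ) (a : Fin (n + 1)) (j : Fin (k + 1))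
    (σ : Fin (n + 1) → Fin q) :
    Integrable (fun p => V (fun _ => 1) (rmv a j p) * ‖ψ σ p‖ ^ 2) := by
  have hc := sqc hψ σ
  have hs := sqs hψ σ
  have h1 : Integrable (fun p : Cfg (n + 1) (k + 1) => ∑ c : Fin n, ∑ b : Fin n,
      ‖p.1 (a.succAbove c) - p.1 (a.succAbove b)‖⁻¹ * ‖ψ σ p‖ ^ 2) :=
    integrable_finsetSum _ fun c _ => integrable_finsetSum _ fun b _ => int_ee _ hc hs _ _
  have h2 : Integrable (fun p : Cfg (n + 1) (k + 1) => ∑ c : Fin n, ∑ l : Fin k,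
      ‖p.1 (a.succAbove c) - p.2 (j.succAbove l)‖⁻¹ * ‖ψ σ p‖ ^ 2) :=
    integrable_finsetSum _ fun c _ => integrable_finsetSum _ fun b _ => int_en _ hc hs _ _
  have h3 : Integrable (fun p : Cfg (n + 1) (k + 1) => ∑ c : Fin k, ∑ l : Fin k,
      ‖p.2 (j.succAbove c) - p.2 (j.succAbove l)‖⁻¹ * ‖ψ σ p‖ ^ 2) :=
    integrable_finsetSum _ fun c _ => integrable_finsetSum _ fun b _ => int_nn _ hc hs _ _
  refine (((h1.div_const 2).sub h2).add (h3.div_const 2)).congr
    (Filter.Eventually.of_forall fun p => ?_)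
  simp only [Pi.add_apply, Pi.sub_apply, V_split, Vr, Va, rmv]
  simp_rw [← Finset.sum_mul]
  ring

/-- the inequality for the slices, integrated -/
private theorem one_pair {q n k : ℕ} {κ : ℝ} {Λ : Set E3} {E : ℝ}
    (hE : LB q n k Λ (fun _ => 1) (fun _ => κ) E)
    {ψ : (Fin (n + 1) → Fin q) → Cfg (n + 1) (k + 1) → ℂ} (hψ : St q (n + 1) (k + 1) Λ ψ)
    (a : Fin (n + 1)) (j : Fin (k + 1)) :
    E * mass ψ ≤ ∑ b, kE ψ (a.succAbove b) + κ * ∑ l, kN ψ (j.succAbove l) +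
      mean ψ (fun p => V (fun _ => 1) (rmv a j p)) := by
  have hc1 : ∀ σ, ContDiff ℝ 1 (ψ σ) := fun σ => (hψ.smooth σ).of_le (by exact_mod_cast le_top)
  have hgi : ∀ σ b, Integrable (ge (ψ σ) b) := fun σ b =>
    (ge_cont _ (hc1 σ) b).integrable_of_hasCompactSupport (ge_cpt _ (hc1 σ) (hψ.cpt σ) b)
  have hni : ∀ σ b, Integrable (gn (ψ σ) b) := fun σ b =>
    (gn_cont _ (hc1 σ) b).integrable_of_hasCompactSupport (gn_cpt _ (hc1 σ) (hψ.cpt σ) b)
  have hsi : ∀ σ, Integrable (fun p => ‖ψ σ p‖ ^ 2) := fun σ =>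
    (sqc hψ σ).integrable_of_hasCompactSupport (sqs hψ σ)
  have hm := slc_int a j (fun σ p => ‖ψ σ p‖ ^ 2) hsi
  have he := fun b => slc_int a j (fun σ p => ge (ψ σ) (a.succAbove b) p)
    (fun σ => hgi σ (a.succAbove b))
  have hn := fun l => slc_int a j (fun σ p => gn (ψ σ) (j.succAbove l) p)
    (fun σ => hni σ (j.succAbove l))
  have hv := slc_int a j (fun σ p => V (fun _ => 1) (rmv a j p) * ‖ψ σ p‖ ^ 2)
    (fun σ => Vrm hψ a j σ)
  have key : ∀ u : E3 × E3, E * (∑ τ : Fin q, ∑ σ : Fin n → Fin q, ∫ p : Cfg n k,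
      ‖ψ (Fin.insertNth (α := fun _ => Fin q) a τ σ)
        (Fin.insertNth (α := fun _ => E3) a u.1 p.1,
          Fin.insertNth (α := fun _ => E3) j u.2 p.2)‖ ^ 2) ≤
      (∑ b, ∑ τ : Fin q, ∑ σ : Fin n → Fin q, ∫ p : Cfg n k,
        ge (ψ (Fin.insertNth (α := fun _ => Fin q) a τ σ)) (a.succAbove b)
        (Fin.insertNth (α := fun _ => E3) a u.1 p.1,
          Fin.insertNth (α := fun _ => E3) j u.2 p.2)) +
      κ * (∑ l, ∑ τ : Fin q, ∑ σ : Fin n → Fin q, ∫ p : Cfg n k,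
        gn (ψ (Fin.insertNth (α := fun _ => Fin q) a τ σ)) (j.succAbove l)
        (Fin.insertNth (α := fun _ => E3) a u.1 p.1,
          Fin.insertNth (α := fun _ => E3) j u.2 p.2)) +
      ∑ τ : Fin q, ∑ σ : Fin n → Fin q, ∫ p : Cfg n k,
        V (fun _ => 1) (rmv a j ((Fin.insertNth (α := fun _ => E3) a u.1 p.1,
          Fin.insertNth (α := fun _ => E3) j u.2 p.2) : Cfg (n + 1) (k + 1))) *
        ‖ψ (Fin.insertNth (α := fun _ => Fin q) a τ σ)
        (Fin.insertNth (α := fun _ => E3) a u.1 p.1,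
          Fin.insertNth (α := fun _ => E3) j u.2 p.2)‖ ^ 2 := by
    intro u
    have h1 : ∀ τ : Fin q, E * mass (slc a j τ u.1 u.2 ψ) ≤
        energy (fun _ => 1) (fun _ => κ) (slc a j τ u.1 u.2 ψ) := fun τ =>
      hE _ (slc_st a j τ u.1 u.2 hψ)
    have h2 := Finset.sum_le_sum fun τ (_ : τ ∈ (univ : Finset (Fin q))) => h1 τ
    rw [← Finset.mul_sum] at h2
    refine h2.trans (le_of_eq ?_)
    unfold energy
    rw [Finset.sum_add_distrib, Finset.sum_add_distrib]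
    congr 1
    · congr 1
      · rw [Finset.sum_comm]
        refine Finset.sum_congr rfl fun b _ => Finset.sum_congr rfl fun τ _ => ?_
        unfold kE
        refine Finset.sum_congr rfl fun σ _ => ?_
        refine integral_congr_ae (Filter.Eventually.of_forall fun p => ?_)
        exact slc_ge a j τ u.1 u.2 ψ σ b p
      · simp_rw [← Finset.mul_sum]
        congr 1
        rw [Finset.sum_comm]
        refine Finset.sum_congr rfl fun b _ => Finset.sum_congr rfl fun τ _ => ?_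
        unfold kN
        refine Finset.sum_congr rfl fun σ _ => ?_
        refine integral_congr_ae (Filter.Eventually.of_forall fun p => ?_)
        exact slc_gn a j τ u.1 u.2 ψ σ b p
    · refine Finset.sum_congr rfl fun τ _ => ?_
      unfold mean
      refine Finset.sum_congr rfl fun σ _ => ?_
      refine integral_congr_ae (Filter.Eventually.of_forall fun p => ?_)
      have e : rmv a j ((Fin.insertNth (α := fun _ => E3) a u.1 p.1,
          Fin.insertNth (α := fun _ => E3) j u.2 p.2) : Cfg (n + 1) (k + 1)) = p := by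
        unfold rmv
        simp [Fin.insertNth_apply_succAbove]
      simp only [e]
      rfl
  have hint := integral_mono (μ := volume) (hm.1.const_mul E)
    (((integrable_finsetSum univ fun b _ => (he b).1).add
      ((integrable_finsetSum univ fun l _ => (hn l).1).const_mul κ)).add hv.1) key
  rw [integral_const_mul] at hint
  have e0 : E * mass ψ = E * ∫ u : E3 × E3, ∑ τ : Fin q, ∑ σ : Fin n → Fin q, ∫ p : Cfg n k,
      ‖ψ (Fin.insertNth (α := fun _ => Fin q) a τ σ)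
        (Fin.insertNth (α := fun _ => E3) a u.1 p.1,
          Fin.insertNth (α := fun _ => E3) j u.2 p.2)‖ ^ 2 := by
    rw [hm.2]; rfl
  rw [e0]
  refine hint.trans (le_of_eq ?_)
  rw [integral_add' ((integrable_finsetSum univ fun b _ => (he b).1).add
      ((integrable_finsetSum univ fun l _ => (hn l).1).const_mul κ)) hv.1,
    integral_add' (integrable_finsetSum univ fun b _ => (he b).1)
      ((integrable_finsetSum univ fun l _ => (hn l).1).const_mul κ),
    integral_const_mul, integral_finsetSum _ (fun b _ => (he b).1),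
    integral_finsetSum _ (fun b _ => (hn b).1), hv.2]
  congr 1
  congr 1
  · exact Finset.sum_congr rfl fun b _ => (he b).2
  · congr 1
    exact Finset.sum_congr rfl fun b _ => (hn b).2

theorem remove (q : ℕ) : ∃ C : ℝ, 0 ≤ C ∧ ∀ (n : ℕ) (κ : ℝ) (_ : 0 ≤ κ) (Λ : Set E3) (E : ℝ)
    (_ : LB q n n Λ (fun _ => 1) (fun _ => κ) E)
    (ψ : (Fin (n + 1) → Fin q) → Cfg (n + 1) (n + 1) → ℂ) (_ : St q (n + 1) (n + 1) Λ ψ)
    (_ : mass ψ = 1), E ≤ energy (fun _ => 1) (fun _ => κ) ψ + C := by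
  obtain ⟨C, hC, hs⟩ := stab q 1
  refine ⟨4 * C, by positivity, ?_⟩
  intro n κ hκ Λ E hE ψ hψ hm
  have hst := hs (n + 1) (n + 1) Λ (fun _ => 1) (fun _ => ⟨zero_le_one, le_refl _⟩) ψ hψ
  rw [hm, mul_one] at hst
  have hsum : ∑ a : Fin (n + 1), ∑ j : Fin (n + 1), (E * mass ψ) ≤
      ∑ a : Fin (n + 1), ∑ j : Fin (n + 1), (∑ b, kE ψ (a.succAbove b) +
        κ * ∑ l, kN ψ (j.succAbove l) + mean ψ (fun p => V (fun _ => 1) (rmv a j p))) :=
    Finset.sum_le_sum fun a _ => Finset.sum_le_sum fun j _ => one_pair hE hψ a j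
  rw [hm] at hsum
  have hVr1 := fun σ => Vr1 hψ σ
  have hVr2 := fun σ => Vr2 hψ σ
  have hVa := fun σ => Va1 hψ σ
  have hV12 : ∀ σ, Integrable (fun p => Vr p.1 * ‖ψ σ p‖ ^ 2 + Vr p.2 * ‖ψ σ p‖ ^ 2) :=
    fun σ => (hVr1 σ).add (hVr2 σ)
  -- the Coulomb part
  have hV : ∑ a : Fin (n + 1), ∑ j : Fin (n + 1), mean ψ (fun p => V (fun _ => 1) (rmv a j p)) =
      ((n : ℝ) ^ 2 - 1) * (mean ψ (fun p => Vr p.1) + mean ψ (fun p => Vr p.2)) -
        (n : ℝ) ^ 2 * mean ψ (fun p => Va p.1 p.2) := by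
    have e1 : ∑ a : Fin (n + 1), ∑ j : Fin (n + 1), mean ψ (fun p => V (fun _ => 1) (rmv a j p)) =
        ∑ σ, ∫ p, ∑ a : Fin (n + 1), ∑ j : Fin (n + 1),
          V (fun _ => 1) (rmv a j p) * ‖ψ σ p‖ ^ 2 := by
      unfold mean
      simp_rw [Finset.sum_comm (s := (univ : Finset (Fin (n + 1))))
        (t := (univ : Finset (Fin (n + 1) → Fin q)))]
      refine Finset.sum_congr rfl fun σ _ => ?_
      rw [integral_finsetSum _ fun a _ => integrable_finsetSum _ fun j _ => Vrm hψ a j σ]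
      refine Finset.sum_congr rfl fun a _ => ?_
      rw [integral_finsetSum _ fun j _ => Vrm hψ a j σ]
    rw [e1]
    unfold mean
    rw [← Finset.sum_add_distrib, Finset.mul_sum, Finset.mul_sum, ← Finset.sum_sub_distrib]
    refine Finset.sum_congr rfl fun σ _ => ?_
    beta_reduce
    rw [← integral_add (hVr1 σ) (hVr2 σ), ← integral_const_mul, ← integral_const_mul,
      ← integral_sub ((hV12 σ).const_mul _) ((hVa σ).const_mul _)]
    refine integral_congr_ae (Filter.Eventually.of_forall fun p => ?_)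
    simp only
    simp_rw [← Finset.sum_mul]
    have := comb_V p.1 p.2
    unfold rmv
    rw [this]
    ring
  have hVV : mean ψ (V fun _ => 1) = mean ψ (fun p => Vr p.1) + mean ψ (fun p => Vr p.2) -
      mean ψ (fun p => Va p.1 p.2) := by
    unfold mean
    rw [← Finset.sum_add_distrib, ← Finset.sum_sub_distrib]
    refine Finset.sum_congr rfl fun σ _ => ?_
    beta_reduce
    rw [← integral_add (hVr1 σ) (hVr2 σ), ← integral_sub (hV12 σ) (hVa σ)]
    refine integral_congr_ae (Filter.Eventually.of_forall fun p => ?_)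
    simp only [V_split]
    ring
  have hA1 : 0 ≤ mean ψ (fun p => Vr p.1) := Finset.sum_nonneg fun σ _ =>
    integral_nonneg fun p => mul_nonneg (Vr_nonneg _) (by positivity)
  have hA2 : 0 ≤ mean ψ (fun p => Vr p.2) := Finset.sum_nonneg fun σ _ =>
    integral_nonneg fun p => mul_nonneg (Vr_nonneg _) (by positivity)
  have hKe : 0 ≤ ∑ b, kE ψ b := Finset.sum_nonneg fun b _ => Finset.sum_nonneg fun σ _ =>
    integral_nonneg fun p => g3_nonneg _ _
  have hKn : 0 ≤ κ * ∑ b, kN ψ b := mul_nonneg hκ (Finset.sum_nonneg fun b _ =>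
    Finset.sum_nonneg fun σ _ => integral_nonneg fun p => g3_nonneg _ _)
  have hce : ∑ a : Fin (n + 1), ∑ j : Fin (n + 1), ∑ b, kE ψ (a.succAbove b) =
      (n + 1) * (n * ∑ b, kE ψ b) := by
    rw [← comb_one, Finset.sum_comm]
    simp
  have hcn : ∑ a : Fin (n + 1), ∑ j : Fin (n + 1), κ * ∑ b, kN ψ (j.succAbove b) =
      (n + 1) * (n * (κ * ∑ b, kN ψ b)) := by
    simp_rw [← Finset.mul_sum]
    rw [comb_one]
    simp
    ring
  have hL : ∑ a : Fin (n + 1), ∑ j : Fin (n + 1), (E * 1) = ((n : ℝ) + 1) ^ 2 * E := by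
    simp
    ring
  rw [hL] at hsum
  simp_rw [Finset.sum_add_distrib] at hsum
  rw [hV, hce, hcn] at hsum
  unfold energy
  rw [hVV] at hst ⊢
  simp_rw [← Finset.mul_sum]
  set Ke := ∑ b, kE ψ b
  set Kn := κ * ∑ b, kN ψ b
  set A1 := mean ψ (fun p => Vr p.1)
  set A2 := mean ψ (fun p => Vr p.2)
  set B := mean ψ (fun p => Va p.1 p.2)
  push_cast at hst
  have hn : (0 : ℝ) ≤ n := Nat.cast_nonneg n
  have hst2 := mul_le_mul_of_nonneg_left hst (by positivity : (0 : ℝ) ≤ 2 * n + 1)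
  have hnk : 0 ≤ (n : ℝ) * Kn := mul_nonneg hn hKn
  have hnC : 0 ≤ (n : ℝ) * C := mul_nonneg hn hC
  have key : ((n : ℝ) + 1) ^ 2 * E ≤ ((n : ℝ) + 1) ^ 2 * (Ke + Kn + (A1 + A2 - B) + 4 * C) := by
    nlinarith [hsum, hst2, hKe, hKn, hA1, hA2, hnk, hnC]
  exact le_of_mul_le_mul_left key (by positivity)

end H6.CM
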