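import Pool.Agent.H6.CM.PDefs
import Pool.Agent.H6.CM.GCont

/-! The slices of a wave function are wave functions. Antisymmetry: a permutation of `Fin n` extends to a permutation of `Fin (n + 1)` fixing `a`, with the same sign (conjugate `Equiv.optionCongr` with `finSuccEquiv`, `Equiv.optionCongr_sign`, or decompose into transpositions). -/

open MeasureTheory Finset

namespace H6.CM

/-- extension of a permutation -/
private def ext {n : ℕ} (a : Fin (n + 1)) (π : Equiv.Perm (Fin n)) : Equiv.Perm (Fin (n + 1)) :=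
  π.extendDomain (finSuccAboveEquiv a)

private theorem ext_sign {n : ℕ} (a : Fin (n + 1)) (π : Equiv.Perm (Fin n)) :
    Equiv.Perm.sign (ext a π) = Equiv.Perm.sign π :=
  Equiv.Perm.sign_extendDomain π (finSuccAboveEquiv a)

private theorem ext_self {n : ℕ} (a : Fin (n + 1)) (π : Equiv.Perm (Fin n)) : ext a π a = a :=
  Equiv.Perm.extendDomain_apply_not_subtype π (finSuccAboveEquiv a) (fun h => h rfl)

private theorem ext_above {n : ℕ} (a : Fin (n + 1)) (π : Equiv.Perm (Fin n)) (b : Fin n) :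
    ext a π (a.succAbove b) = a.succAbove (π b) :=
  Equiv.Perm.extendDomain_apply_image π (finSuccAboveEquiv a) b

private theorem ins_comp {n : ℕ} {X : Type} (a : Fin (n + 1)) (π : Equiv.Perm (Fin n)) (τ : X)
    (σ : Fin n → X) :
    Fin.insertNth (α := fun _ => X) a τ (σ ∘ π) =
      (Fin.insertNth (α := fun _ => X) a τ σ) ∘ (ext a π) := by
  funext i
  rcases eq_or_ne i a with rfl | hi
  · rw [Function.comp_apply, ext_self, Fin.insertNth_apply_same, Fin.insertNth_apply_same]
  · obtain ⟨b, rfl⟩ := Fin.exists_succAbove_eq hi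
    rw [Function.comp_apply, ext_above, Fin.insertNth_apply_succAbove,
      Fin.insertNth_apply_succAbove, Function.comp_apply]

/-- the embedding of the slice -/
private def emb {n k : ℕ} (a : Fin (n + 1)) (j : Fin (k + 1)) (ξ ζ : E3) (p : Cfg n k) :
    Cfg (n + 1) (k + 1) :=
  (Fin.insertNth (α := fun _ => E3) a ξ p.1, Fin.insertNth (α := fun _ => E3) j ζ p.2)

private theorem ins_smooth {n : ℕ} {Y : Type} [NormedAddCommGroup Y] [NormedSpace ℝ Y]
    (a : Fin (n + 1)) (ξ : E3) (f : Y → Fin n → E3) (hf : ContDiff ℝ (⊤ : ℕ∞) f) :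
    ContDiff ℝ (⊤ : ℕ∞) (fun y => Fin.insertNth (α := fun _ => E3) a ξ (f y)) := by
  rw [contDiff_pi]
  intro i
  rcases eq_or_ne i a with rfl | hi
  · simp only [Fin.insertNth_apply_same]
    exact contDiff_const
  · obtain ⟨b, rfl⟩ := Fin.exists_succAbove_eq hi
    simp only [Fin.insertNth_apply_succAbove]
    exact (contDiff_pi.1 hf) b

private theorem emb_smooth {n k : ℕ} (a : Fin (n + 1)) (j : Fin (k + 1)) (ξ ζ : E3) :
    ContDiff ℝ (⊤ : ℕ∞) (emb a j ξ ζ : Cfg n k → Cfg (n + 1) (k + 1)) :=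
  (ins_smooth a ξ _ contDiff_fst).prodMk (ins_smooth j ζ _ contDiff_snd)

private theorem emb_closed {n k : ℕ} (a : Fin (n + 1)) (j : Fin (k + 1)) (ξ ζ : E3) :
    Topology.IsClosedEmbedding (emb a j ξ ζ : Cfg n k → Cfg (n + 1) (k + 1)) := by
  refine Function.LeftInverse.isClosedEmbedding
    (g := emb a j ξ ζ) (f := fun q : Cfg (n + 1) (k + 1) =>
      ((fun b => q.1 (a.succAbove b), fun l => q.2 (j.succAbove l)) : Cfg n k)) ?_ ?_
    (emb_smooth a j ξ ζ).continuous
  · intro p
    refine Prod.ext ?_ ?_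
    · funext b
      exact Fin.insertNth_apply_succAbove (α := fun _ => E3) a ξ p.1 b
    · funext b
      exact Fin.insertNth_apply_succAbove (α := fun _ => E3) j ζ p.2 b
  · fun_prop

theorem slc_st {q n k : ℕ} {Λ : Set E3} (a : Fin (n + 1)) (j : Fin (k + 1)) (τ : Fin q)
    (ξ ζ : E3) {ψ : (Fin (n + 1) → Fin q) → Cfg (n + 1) (k + 1) → ℂ}
    (hψ : St q (n + 1) (k + 1) Λ ψ) : St q n k Λ (slc a j τ ξ ζ ψ) where
  smooth σ := (hψ.smooth _).comp (emb_smooth a j ξ ζ)
  cpt σ := (hψ.cpt _).comp_isClosedEmbedding (emb_closed a j ξ ζ)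
  supp σ p hp := by
    have h1 : emb a j ξ ζ p ∈ tsupport (ψ (Fin.insertNth (α := fun _ => Fin q) a τ σ)) := by
      have h2 : tsupport (slc a j τ ξ ζ ψ σ) ⊆
          emb a j ξ ζ ⁻¹' tsupport (ψ (Fin.insertNth (α := fun _ => Fin q) a τ σ)) := by
        refine closure_minimal ?_ ((isClosed_tsupport _).preimage (emb_smooth a j ξ ζ).continuous)
        intro x hx
        exact subset_tsupport _ hx
      exact h2 hp
    obtain ⟨h2, h3⟩ := hψ.supp _ _ h1
    refine ⟨fun b => ?_, fun l => ?_⟩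
    · have := h2 (a.succAbove b)
      simpa only [emb, Fin.insertNth_apply_succAbove] using this
    · have := h3 (j.succAbove l)
      simpa only [emb, Fin.insertNth_apply_succAbove] using this
  anti π σ p := by
    unfold slc
    dsimp only
    rw [ins_comp, ins_comp, ← ext_sign a π]
    exact hψ.anti (ext a π) (Fin.insertNth (α := fun _ => Fin q) a τ σ) (emb a j ξ ζ p)

theorem slc_ge {q n k : ℕ} (a : Fin (n + 1)) (j : Fin (k + 1)) (τ : Fin q)
    (ξ ζ : E3) (ψ : (Fin (n + 1) → Fin q) → Cfg (n + 1) (k + 1) → ℂ)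
    (σ : Fin n → Fin q) (b : Fin n) (p : Cfg n k) :
    ge (slc a j τ ξ ζ ψ σ) b p =
      ge (ψ (Fin.insertNth (α := fun _ => Fin q) a τ σ)) (a.succAbove b)
        (Fin.insertNth (α := fun _ => E3) a ξ p.1, Fin.insertNth (α := fun _ => E3) j ζ p.2) := by
  unfold ge slc
  dsimp only
  rw [Fin.insertNth_apply_succAbove]
  congr 1
  funext v
  rw [Fin.insertNth_update]

theorem slc_gn {q n k : ℕ} (a : Fin (n + 1)) (j : Fin (k + 1)) (τ : Fin q)
    (ξ ζ : E3) (ψ : (Fin (n + 1) → Fin q) → Cfg (n + 1) (k + 1) → ℂ)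
    (σ : Fin n → Fin q) (l : Fin k) (p : Cfg n k) :
    gn (slc a j τ ξ ζ ψ σ) l p =
      gn (ψ (Fin.insertNth (α := fun _ => Fin q) a τ σ)) (j.succAbove l)
        (Fin.insertNth (α := fun _ => E3) a ξ p.1, Fin.insertNth (α := fun _ => E3) j ζ p.2) := by
  unfold gn slc
  dsimp only
  rw [Fin.insertNth_apply_succAbove]
  congr 1
  funext v
  rw [Fin.insertNth_update]

end H6.CM
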