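import Pool.Agent.H6.CM.Reloc
import Pool.Agent.H6.CM.Ims
import Pool.Agent.H6.CM.PartGrad

/-! Sum of `reloc` over the scales `r = 2 ^ -(l+1)`, `l ≤ L`, with `s = sl l`: uses `part_sum`, `ims_e`, `ims_n`, `part_grad`, `part_kin` and `|E| < ∞`; all means are integrable. -/

open MeasureTheory Finset

namespace H6.CM

/-- integrability against the density -/
private def IM {q n k : ℕ} (ψ : (Fin n → Fin q) → Cfg n k → ℂ) (F : Cfg n k → ℝ) : Prop :=
  ∀ σ, Integrable (fun p => F p * ‖ψ σ p‖ ^ 2)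

section

variable {q n k : ℕ} {ψ : (Fin n → Fin q) → Cfg n k → ℂ}

private theorem IM.add {F G : Cfg n k → ℝ} (hF : IM ψ F) (hG : IM ψ G) :
    IM ψ (fun p => F p + G p) := by
  intro σ
  refine ((hF σ).add (hG σ)).congr (Filter.Eventually.of_forall fun p => ?_)
  simp only [Pi.add_apply]
  ring

private theorem IM.const_mul {F : Cfg n k → ℝ} (hF : IM ψ F) (c : ℝ) :
    IM ψ (fun p => c * F p) := by
  intro σ
  refine ((hF σ).const_mul c).congr (Filter.Eventually.of_forall fun p => ?_)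
  ring

private theorem IM.sum {ι : Type*} (I : Finset ι) {F : ι → Cfg n k → ℝ} (hF : ∀ i ∈ I, IM ψ (F i)) :
    IM ψ (fun p => ∑ i ∈ I, F i p) := by
  intro σ
  refine (integrable_finsetSum I fun i hi => hF i hi σ).congr
    (Filter.Eventually.of_forall fun p => ?_)
  simp only [sum_mul]

private theorem mean_add' {F G : Cfg n k → ℝ} (hF : IM ψ F) (hG : IM ψ G) :
    mean ψ (fun p => F p + G p) = mean ψ F + mean ψ G := by
  unfold mean
  rw [← sum_add_distrib]
  refine sum_congr rfl fun σ _ => ?_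
  rw [← integral_add (hF σ) (hG σ)]
  congr 1
  funext p
  ring

private theorem mean_cmul (F : Cfg n k → ℝ) (c : ℝ) :
    mean ψ (fun p => c * F p) = c * mean ψ F := by
  unfold mean
  rw [mul_sum]
  refine sum_congr rfl fun σ _ => ?_
  rw [← integral_const_mul]
  congr 1
  funext p
  ring

private theorem mean_sum' {ι : Type*} (I : Finset ι) {F : ι → Cfg n k → ℝ}
    (hF : ∀ i ∈ I, IM ψ (F i)) : mean ψ (fun p => ∑ i ∈ I, F i p) = ∑ i ∈ I, mean ψ (F i) := by
  unfold mean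
  rw [sum_comm]
  refine sum_congr rfl fun σ _ => ?_
  rw [← integral_finsetSum I fun i hi => hF i hi σ]
  congr 1
  funext p
  rw [sum_mul]

private theorem mean_mono' {F G : Cfg n k → ℝ} (hF : IM ψ F) (hG : IM ψ G) (h : ∀ p, F p ≤ G p) :
    mean ψ F ≤ mean ψ G := by
  unfold mean
  refine sum_le_sum fun σ _ => ?_
  exact integral_mono (hF σ) (hG σ) fun p => mul_le_mul_of_nonneg_right (h p) (sq_nonneg _)

private theorem mean_nonneg' {F : Cfg n k → ℝ} (h : ∀ p, 0 ≤ F p) : 0 ≤ mean ψ F := by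
  unfold mean
  refine sum_nonneg fun σ _ => ?_
  exact integral_nonneg fun p => mul_nonneg (h p) (sq_nonneg _)

private theorem mean_one' : mean ψ (fun _ => 1) = mass ψ := by
  unfold mean mass
  simp only [one_mul]

private theorem IM.cont {Λ : Set E3} (hψ : St q n k Λ ψ) {F : Cfg n k → ℝ} (hF : Continuous F) :
    IM ψ F := by
  intro σ
  have h1 : Continuous (fun p => ‖ψ σ p‖ ^ 2) := (hψ.smooth σ).continuous.norm.pow 2
  refine (hF.mul h1).integrable_of_hasCompactSupport ?_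
  exact ((hψ.cpt σ).comp_left (g := fun x : ℂ => ‖x‖ ^ 2) (by simp)).mul_left

private theorem IM.sq_mul {Λ : Set E3} (hψ : St q n k Λ ψ) {s : (Fin n → E3) → ℝ}
    (hs : ContDiff ℝ (⊤ : ℕ∞) s) {F : Cfg n k → ℝ} (hF : IM ψ F) :
    IM ψ (fun p => s p.1 ^ 2 * F p) := by
  intro σ
  refine (rl_mul_int hψ s hs σ F (hF σ)).congr (Filter.Eventually.of_forall fun p => ?_)
  simp only [mul, norm_mul, mul_pow, Complex.norm_real, Real.norm_eq_abs, sq_abs]
  ring

private theorem IM.abs {F : Cfg n k → ℝ} (hF : IM ψ F) : IM ψ (fun p => |F p|) := by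
  intro σ
  refine (hF σ).norm.congr (Filter.Eventually.of_forall fun p => ?_)
  simp only [norm_mul, Real.norm_eq_abs, abs_pow, abs_norm]

private theorem gx_eq (s : (Fin n → E3) → ℝ) (hs : ContDiff ℝ (⊤ : ℕ∞) s) (b : Fin n)
    (x : Fin n → E3) :
    gx s b x = ∑ d : Fin 3, (fderiv ℝ s x (Pi.single b (EuclideanSpace.single d 1))) ^ 2 := by
  unfold gx gr
  refine sum_congr rfl fun d _ => ?_
  have h1 : HasFDerivAt (fun v : E3 => Function.update x b v)
      (ContinuousLinearMap.pi (Pi.single b (ContinuousLinearMap.id ℝ E3))) (x b) :=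
    hasFDerivAt_update x (x b)
  have h2 : HasFDerivAt s (fderiv ℝ s x) (Function.update x b (x b)) := by
    rw [Function.update_eq_self]
    exact (hs.differentiable (by simp) x).hasFDerivAt
  have h3 : HasFDerivAt (fun v : E3 => s (Function.update x b v)) _ (x b) :=
    h2.comp (x b) h1
  rw [h3.fderiv]
  congr 1
  rw [ContinuousLinearMap.comp_apply]
  congr 1
  funext i
  simp only [ContinuousLinearMap.coe_pi']
  rcases eq_or_ne i b with rfl | hi
  · simp
  · simp [hi]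

private theorem gx_cont (s : (Fin n → E3) → ℝ) (hs : ContDiff ℝ (⊤ : ℕ∞) s) (b : Fin n) :
    Continuous (fun p : Cfg n k => gx s b p.1) := by
  have h1 : Continuous (gx s b) := by
    have h2 : gx s b = fun x => ∑ d : Fin 3,
        (fderiv ℝ s x (Pi.single b (EuclideanSpace.single d 1))) ^ 2 :=
      funext fun x => gx_eq s hs b x
    rw [h2]
    refine continuous_finsetSum _ fun d _ => ?_
    exact ((hs.continuous_fderiv (by simp)).clm_apply continuous_const).pow 2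
  exact h1.comp continuous_fst

private theorem gx_nonneg (s : (Fin n → E3) → ℝ) (b : Fin n) (x : Fin n → E3) : 0 ≤ gx s b x := by
  unfold gx gr
  exact sum_nonneg fun d _ => sq_nonneg _

private theorem IM.dl {Λ : Set E3} (hψ : St q n k Λ ψ) (a : Fin n) (w : E3) (L : ℕ) :
    IM ψ (fun p => Dl a w L p.1) := by
  intro σ
  have h0 : Integrable (fun p => ‖ψ σ p‖ ^ 2) := by
    have := IM.cont hψ (F := fun _ => 1) continuous_const σ
    simpa using this
  obtain ⟨B, hB⟩ : ∃ B : ℝ, B = ∑ b ∈ univ.erase a, ∑ l ∈ range (L + 1), (4 : ℝ) ^ l := ⟨_, rfl⟩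
  have hnn : ∀ x : Fin n → E3, 0 ≤ Dl a w L x := by
    intro x
    unfold Dl
    refine sum_nonneg fun b _ => sum_nonneg fun l _ => ?_
    split_ifs <;> positivity
  have hle : ∀ x : Fin n → E3, Dl a w L x ≤ B := by
    intro x
    rw [hB]
    unfold Dl
    refine sum_le_sum fun b _ => sum_le_sum fun l _ => ?_
    split_ifs
    · rw [mul_one]
    · rw [mul_zero]
      positivity
  refine (h0.const_mul B).mono' ?_ (Filter.Eventually.of_forall fun p => ?_)
  · apply AEStronglyMeasurable.mul _ h0.aestronglyMeasurable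
    apply Measurable.aestronglyMeasurable
    unfold Dl
    refine Finset.measurable_fun_sum _ fun b _ => Finset.measurable_fun_sum _ fun l _ => ?_
    refine measurable_const.mul (Measurable.ite ?_ measurable_const measurable_const)
    exact measurableSet_le (by fun_prop) measurable_const
  · rw [norm_mul, Real.norm_of_nonneg (hnn p.1), Real.norm_of_nonneg (by positivity)]
    exact mul_le_mul_of_nonneg_right (hle p.1) (sq_nonneg _)

private theorem IM.pot {Λ : Set E3} (hψ : St q n k Λ ψ) (z : Fin k → ℝ) {χ : E3 → ℝ} (hχ : Bump χ)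
    (r : ℝ) (hr : 0 < r) (a : Fin n) (w : E3) {s : (Fin n → E3) → ℝ}
    (hs : ContDiff ℝ (⊤ : ℕ∞) s) :
    IM ψ (fun p => s p.1 ^ 2 * ∫ v, chr χ r (v - w) ^ 2 * phiE z a p v) := by
  intro σ
  have h1 := (rl_phi_int (z := z) hψ hχ r hr a w s hs σ).integral_prod_left
  refine h1.congr (Filter.Eventually.of_forall fun p => ?_)
  have h2 : ∀ v, phiE z a p v * (chr χ r (v - w) ^ 2 * ‖mul s ψ σ p‖ ^ 2) =
      chr χ r (v - w) ^ 2 * phiE z a p v * (s p.1 ^ 2 * ‖ψ σ p‖ ^ 2) := by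
    intro v
    simp only [mul, norm_mul, mul_pow, Complex.norm_real, Real.norm_eq_abs, sq_abs]
    ring
  simp only [h2]
  rw [integral_mul_const]
  ring

end

theorem sum_ell {θ : E3 → ℝ} (h : Cut θ) {χ : E3 → ℝ} (hχ : Bump χ) : ∃ C : ℝ, 0 ≤ C ∧
    ∀ (q n k : ℕ) (Λ : Set E3) (z κ : Fin k → ℝ) (_ : ∀ j, 0 ≤ κ j) (E : ℝ)
    (_ : LB q n k Λ z κ E) (ψ : (Fin n → Fin q) → Cfg n k → ℂ) (_ : St q n k Λ ψ) (a : Fin n)
    (w : E3) (_ : Metric.closedBall w 1 ⊆ Λ) (L : ℕ),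
    E * (mass ψ - mean ψ (fun p => rm θ a w L p.1 ^ 2)) ≤
      energy z κ ψ - kE ψ a + mean ψ (fun p => phiE z a p (p.1 a)) +
      mean ψ (fun p => rm θ a w L p.1 ^ 2 * |V z p + phiE z a p (p.1 a)|) +
      C * mean ψ (fun p => 1 + Dl a w L p.1) -
      mean ψ (fun p => ∑ l ∈ range (L + 1), sl θ a w l p.1 ^ 2 *
        ∫ v, chr χ (((2 : ℝ) ^ (l + 1))⁻¹) (v - w) ^ 2 * phiE z a p v) := by
  obtain ⟨C₁, hC₁, hpg⟩ := part_grad h
  obtain ⟨G0, hG0⟩ : ∃ G0 : ℝ, G0 = ∫ v, gr χ v := ⟨_, rfl⟩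
  have hG : 0 ≤ G0 := by
    rw [hG0]
    exact integral_nonneg fun v => gr_nonneg χ v
  refine ⟨C₁ + 16 * G0, by positivity, ?_⟩
  intro q n k Λ z κ hκ E hE ψ hψ a w hw L
  have hsl : ∀ l, ContDiff ℝ (⊤ : ℕ∞) (sl θ a w l) := fun l => sl_smooth h a w l
  have hrm : ContDiff ℝ (⊤ : ℕ∞) (rm θ a w L) := rm_smooth h a w L
  have hone : IM ψ (fun _ => (1 : ℝ)) := IM.cont hψ continuous_const
  have hV : IM ψ (V z) := fun σ => (int_mean hψ z σ hχ).1
  have hP : IM ψ (fun p => phiE z a p (p.1 a)) := fun σ => (int_mean hψ z σ hχ).2.1 a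
  have hVP : IM ψ (fun p => V z p + phiE z a p (p.1 a)) := hV.add hP
  have hD : IM ψ (fun p => Dl a w L p.1) := IM.dl hψ a w L
  have hs2 : ∀ l, IM ψ (fun p => sl θ a w l p.1 ^ 2) := fun l =>
    IM.cont hψ (((hsl l).continuous.comp continuous_fst).pow 2)
  have hr2 : IM ψ (fun p => rm θ a w L p.1 ^ 2) :=
    IM.cont hψ ((hrm.continuous.comp continuous_fst).pow 2)
  have hrpos : ∀ l : ℕ, 0 < ((2 : ℝ) ^ (l + 1))⁻¹ := fun l => by positivity
  have hr1 : ∀ l : ℕ, ((2 : ℝ) ^ (l + 1))⁻¹ ≤ 1 := fun l =>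
    inv_le_one_of_one_le₀ (one_le_pow₀ (by norm_num))
  -- the inequality for each scale
  have main : ∀ l ∈ range (L + 1), E * mean ψ (fun p => sl θ a w l p.1 ^ 2) ≤
      ∑ b ∈ univ.erase a, kE (mul (sl θ a w l) ψ) b + ∑ j, κ j * kN (mul (sl θ a w l) ψ) j +
      mean ψ (fun p => sl θ a w l p.1 ^ 2 * (V z p + phiE z a p (p.1 a))) +
      (4 : ℝ) ^ (l + 1) * G0 * mean ψ (fun p => sl θ a w l p.1 ^ 2) -
      mean ψ (fun p => sl θ a w l p.1 ^ 2 *
        ∫ v, chr χ (((2 : ℝ) ^ (l + 1))⁻¹) (v - w) ^ 2 * phiE z a p v) := by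
    intro l _
    have h1 := reloc hE hψ hχ (((2 : ℝ) ^ (l + 1))⁻¹) (hrpos l) (hr1 l) a w hw (sl θ a w l)
      (hsl l) (fun x v => sl_upd a w l x v) (fun π hπ x => sl_perm a w l x π hπ)
      (fun x hx b hb => sl_far h a w l x hx b hb)
    have h2 : ((((2 : ℝ) ^ (l + 1))⁻¹) ^ 2)⁻¹ = (4 : ℝ) ^ (l + 1) := by
      rw [inv_pow, inv_inv, ← pow_mul, mul_comm, pow_mul]
      norm_num
    rw [h2, ← hG0] at h1
    exact h1
  have hsum := sum_le_sum main
  rw [← mul_sum] at hsum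
  -- (i)
  have i1 : ∑ l ∈ range (L + 1), mean ψ (fun p => sl θ a w l p.1 ^ 2) =
      mass ψ - mean ψ (fun p => rm θ a w L p.1 ^ 2) := by
    rw [← mean_sum' _ fun l _ => hs2 l, eq_sub_iff_add_eq,
      ← mean_add' (IM.sum _ fun l _ => hs2 l) hr2, ← mean_one' (ψ := ψ)]
    congr 1
    funext p
    exact part_sum h a w L p.1
  -- (ii)
  have hgb : ∀ b, IM ψ (fun p => ∑ l ∈ range (L + 1), gx (sl θ a w l) b p.1 +
      gx (rm θ a w L) b p.1) := fun b =>
    (IM.sum _ fun l _ => IM.cont hψ (gx_cont _ (hsl l) b)).add (IM.cont hψ (gx_cont _ hrm b))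
  have i2 : ∑ l ∈ range (L + 1), ∑ b ∈ univ.erase a, kE (mul (sl θ a w l) ψ) b ≤
      ∑ b ∈ univ.erase a, kE ψ b + C₁ * mean ψ (fun p => Dl a w L p.1) := by
    rw [sum_comm]
    refine (sum_le_sum fun b _ => ims_e hψ h a w L b).trans ?_
    rw [sum_add_distrib]
    apply add_le_add le_rfl
    have h3 : ∑ b ∈ univ.erase a, mean ψ (fun p => ∑ l ∈ range (L + 1), gx (sl θ a w l) b p.1 +
        gx (rm θ a w L) b p.1) ≤ ∑ b, mean ψ (fun p => ∑ l ∈ range (L + 1),
        gx (sl θ a w l) b p.1 + gx (rm θ a w L) b p.1) := by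
      apply sum_le_sum_of_subset_of_nonneg (erase_subset _ _)
      intro b _ _
      exact mean_nonneg' fun p => add_nonneg (sum_nonneg fun l _ => gx_nonneg _ _ _)
        (gx_nonneg _ _ _)
    refine h3.trans ?_
    rw [← mean_sum' _ fun b _ => hgb b, ← mean_cmul]
    exact mean_mono' (IM.sum _ fun b _ => hgb b) (hD.const_mul C₁) fun p => hpg n a w L p.1
  -- (iii)
  have i3 : ∑ l ∈ range (L + 1), ∑ j, κ j * kN (mul (sl θ a w l) ψ) j ≤ ∑ j, κ j * kN ψ j := by
    rw [sum_comm]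
    refine sum_le_sum fun j _ => ?_
    rw [← mul_sum]
    exact mul_le_mul_of_nonneg_left (ims_n hψ h a w L j) (hκ j)
  -- (iv)
  have hsVP : ∀ l, IM ψ (fun p => sl θ a w l p.1 ^ 2 * (V z p + phiE z a p (p.1 a))) := fun l =>
    IM.sq_mul hψ (hsl l) hVP
  have hrVP : IM ψ (fun p => rm θ a w L p.1 ^ 2 * |V z p + phiE z a p (p.1 a)|) :=
    IM.sq_mul hψ hrm hVP.abs
  have i4 : ∑ l ∈ range (L + 1), mean ψ (fun p => sl θ a w l p.1 ^ 2 *
      (V z p + phiE z a p (p.1 a))) ≤ mean ψ (V z) + mean ψ (fun p => phiE z a p (p.1 a)) +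
        mean ψ (fun p => rm θ a w L p.1 ^ 2 * |V z p + phiE z a p (p.1 a)|) := by
    rw [← mean_sum' _ fun l _ => hsVP l, ← mean_add' hV hP, ← mean_add' hVP hrVP]
    refine mean_mono' (IM.sum _ fun l _ => hsVP l) (hVP.add hrVP) fun p => ?_
    have h4 := part_sum h a w L p.1
    rw [← sum_mul]
    have h5 : ∑ l ∈ range (L + 1), sl θ a w l p.1 ^ 2 = 1 - rm θ a w L p.1 ^ 2 := by linarith
    rw [h5]
    have h6 := neg_abs_le (V z p + phiE z a p (p.1 a))
    nlinarith [sq_nonneg (rm θ a w L p.1)]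
  -- (v)
  have i5 : ∑ l ∈ range (L + 1), (4 : ℝ) ^ (l + 1) * G0 * mean ψ (fun p => sl θ a w l p.1 ^ 2) ≤
      G0 * (4 * mass ψ + 16 * mean ψ (fun p => Dl a w L p.1)) := by
    have h7 : ∀ l ∈ range (L + 1), (4 : ℝ) ^ (l + 1) * G0 * mean ψ (fun p => sl θ a w l p.1 ^ 2) =
        G0 * mean ψ (fun p => (4 : ℝ) ^ (l + 1) * sl θ a w l p.1 ^ 2) := by
      intro l _
      rw [mean_cmul]
      ring
    rw [sum_congr rfl h7, ← mul_sum]
    apply mul_le_mul_of_nonneg_left _ hG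
    rw [← mean_sum' _ fun l _ => (hs2 l).const_mul _]
    have h8 : 4 * mass ψ + 16 * mean ψ (fun p => Dl a w L p.1) =
        mean ψ (fun p => 4 * 1 + 16 * Dl a w L p.1) := by
      rw [mean_add' (hone.const_mul 4) (hD.const_mul 16), mean_cmul, mean_cmul, mean_one']
    rw [h8]
    refine mean_mono' (IM.sum _ fun l _ => (hs2 l).const_mul _)
      ((hone.const_mul 4).add (hD.const_mul 16)) fun p => ?_
    rw [mul_one]
    exact part_kin h n a w L p.1
  -- (vi)
  have i6 : ∑ l ∈ range (L + 1), mean ψ (fun p => sl θ a w l p.1 ^ 2 *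
        ∫ v, chr χ (((2 : ℝ) ^ (l + 1))⁻¹) (v - w) ^ 2 * phiE z a p v) =
      mean ψ (fun p => ∑ l ∈ range (L + 1), sl θ a w l p.1 ^ 2 *
        ∫ v, chr χ (((2 : ℝ) ^ (l + 1))⁻¹) (v - w) ^ 2 * phiE z a p v) :=
    (mean_sum' _ fun l _ => IM.pot hψ z hχ _ (hrpos l) a w (hsl l)).symm
  have i7 : mean ψ (fun p => 1 + Dl a w L p.1) = mass ψ + mean ψ (fun p => Dl a w L p.1) := by
    rw [mean_add' hone hD, mean_one']
  have i8 : energy z κ ψ - kE ψ a = ∑ b ∈ univ.erase a, kE ψ b + ∑ j, κ j * kN ψ j +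
      mean ψ (V z) := by
    unfold energy
    rw [← Finset.sum_erase_add _ _ (mem_univ a)]
    ring
  have hm0 : 0 ≤ mass ψ := by
    rw [← mean_one']
    exact mean_nonneg' fun _ => zero_le_one
  have hD0 : 0 ≤ mean ψ (fun p => Dl a w L p.1) := by
    refine mean_nonneg' fun p => ?_
    unfold Dl
    refine sum_nonneg fun b _ => sum_nonneg fun l _ => ?_
    split_ifs <;> positivity
  rw [sum_sub_distrib, sum_add_distrib, sum_add_distrib, sum_add_distrib, i1, i6] at hsum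
  rw [i7, i8]
  nlinarith [mul_nonneg hC₁ hm0, mul_nonneg hG hm0, mul_nonneg hG hD0, mul_nonneg hC₁ hD0]

end H6.CM
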